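import Pool.Agent.Lib.MP_559647_lc.Defs

namespace Pool.Agent.Lib.MP_559647_lc

open SimpleGraph

section NearSec

variable {V : Type} {G : SimpleGraph V}

/-- `x` is within distance `t` of `v`. -/
def Near (G : SimpleGraph V) (t : ℕ) (v x : V) : Prop := G.edist v x ≤ t

lemma near_iff_walk {t : ℕ} {v x : V} : Near G t v x ↔ ∃ p : G.Walk v x, p.length ≤ t := by
  constructor
  · intro h
    have hne : G.edist v x ≠ ⊤ := ne_top_of_le_ne_top (ENat.natCast_ne_top t) h
    obtain ⟨p, hp⟩ := exists_walk_of_edist_ne_top hne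
    refine ⟨p, ?_⟩
    have : (p.length : ℕ∞) ≤ t := hp ▸ h
    exact_mod_cast this
  · rintro ⟨p, hp⟩
    exact (edist_le p).trans (by exact_mod_cast hp)

lemma near_refl (t : ℕ) (v : V) : Near G t v v := near_iff_walk.2 ⟨Walk.nil, by simp⟩

lemma Near.symm {t : ℕ} {v x : V} (h : Near G t v x) : Near G t x v := by
  unfold Near at *
  rwa [edist_comm]

lemma Near.mono {s t : ℕ} {v x : V} (h : Near G s v x) (hst : s ≤ t) : Near G t v x :=
  le_trans h (by exact_mod_cast hst)

lemma Near.trans {s t : ℕ} {v x y : V} (h : Near G s v x) (h' : Near G t x y) :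
    Near G (s + t) v y := by
  unfold Near at *
  calc G.edist v y ≤ G.edist v x + G.edist x y := SimpleGraph.edist_triangle
    _ ≤ (s : ℕ∞) + t := add_le_add h h'
    _ = ((s + t : ℕ) : ℕ∞) := by push_cast; rfl

lemma Near.trans' {s t u : ℕ} {v x y : V} (h : Near G s v x) (h' : Near G t x y)
    (hu : s + t ≤ u) : Near G u v y := (h.trans h').mono hu

lemma near_of_adj {v x : V} (h : G.Adj v x) : Near G 1 v x :=
  near_iff_walk.2 ⟨h.toWalk, by simp⟩

lemma near_zero_iff {v x : V} : Near G 0 v x ↔ v = x := by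
  unfold Near
  simp

lemma Near.reachable {t : ℕ} {v x : V} (h : Near G t v x) : G.Reachable v x := by
  obtain ⟨p, -⟩ := near_iff_walk.1 h
  exact ⟨p⟩

lemma near_iff_dist {t : ℕ} {v x : V} : Near G t v x ↔ G.Reachable v x ∧ G.dist v x ≤ t := by
  constructor
  · intro h
    obtain ⟨p, hp⟩ := near_iff_walk.1 h
    exact ⟨⟨p⟩, (dist_le p).trans hp⟩
  · rintro ⟨hr, hd⟩
    obtain ⟨p, hp⟩ := hr.exists_walk_length_eq_dist
    exact near_iff_walk.2 ⟨p, hp ▸ hd⟩

lemma Near.dist_le {t : ℕ} {v x : V} (h : Near G t v x) : G.dist v x ≤ t :=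
  (near_iff_dist.1 h).2

lemma near_dist {v x : V} (h : G.Reachable v x) : Near G (G.dist v x) v x :=
  near_iff_dist.2 ⟨h, le_rfl⟩

lemma edist_lt_iff {t : ℕ} {v x : V} : G.edist v x < t ↔ ∃ s, s < t ∧ Near G s v x := by
  constructor
  · intro h
    have hne : G.edist v x ≠ ⊤ := ne_top_of_lt h
    obtain ⟨s, hs⟩ := ENat.ne_top_iff_exists.1 hne
    refine ⟨s, ?_, ?_⟩
    · rw [← hs] at h
      exact_mod_cast h
    · unfold Near
      rw [hs]
  · rintro ⟨s, hs, h⟩
    exact lt_of_le_of_lt h (by exact_mod_cast hs)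

end NearSec

section View

variable {N : ℕ} {I J K : Inst N}

lemma SameView.adj_iff {t s : ℕ} {v x : Fin N} (h : SameView t v I J) (hx : Near I.G s v x)
    (hs : s < t) (y : Fin N) : I.G.Adj x y ↔ J.G.Adj x y :=
  h.1 x y (edist_lt_iff.2 ⟨s, hs, hx⟩)

lemma SameView.shift {t j s : ℕ} {v x : Fin N} (h : SameView s v I J) (hx : Near I.G j v x)
    (hs : j + t ≤ s) : SameView t x I J := by
  refine ⟨fun y z hy => ?_, fun y hy => ?_⟩
  · obtain ⟨a, ha, hy⟩ := edist_lt_iff.1 hy
    exact h.adj_iff (hx.trans hy) (by omega) z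
  · exact h.2 y (hx.trans' hy hs)

lemma SameView.mono {t s : ℕ} {v : Fin N} (h : SameView s v I J) (hs : t ≤ s) :
    SameView t v I J := h.shift (near_refl 0 v) (by omega)

lemma sameView_refl (t : ℕ) (v : Fin N) (I : Inst N) : SameView t v I I :=
  ⟨fun _ _ _ => Iff.rfl, fun _ _ => rfl⟩

lemma SameView.near_of_walk {v x : Fin N} (p : I.G.Walk v x) :
    ∀ {t : ℕ}, SameView t v I J → p.length ≤ t → Near J.G p.length v x := by
  induction p with
  | nil => intro t _ _; exact near_refl _ _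
  | @cons a b c hab q ih =>
    intro t h hl
    simp only [Walk.length_cons] at hl ⊢
    have h1 : J.G.Adj a b := (h.adj_iff (near_refl 0 a) (by omega) b).1 hab
    have h2 : SameView (t - 1) b I J := h.shift (near_of_adj hab) (by omega)
    exact (near_of_adj h1).trans' (ih h2 (by omega)) (by omega)

lemma SameView.near_of_walk' {v x : Fin N} (p : J.G.Walk v x) :
    ∀ {t : ℕ}, SameView t v I J → p.length ≤ t → Near I.G p.length v x := by
  induction p with
  | nil => intro t _ _; exact near_refl _ _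
  | @cons a b c hab q ih =>
    intro t h hl
    simp only [Walk.length_cons] at hl ⊢
    have h1 : I.G.Adj a b := (h.adj_iff (near_refl 0 a) (by omega) b).2 hab
    have h2 : SameView (t - 1) b I J := h.shift (near_of_adj h1) (by omega)
    exact (near_of_adj h1).trans' (ih h2 (by omega)) (by omega)

lemma SameView.near_iff {t j : ℕ} {v : Fin N} (h : SameView t v I J) (hj : j ≤ t) (x : Fin N) :
    Near I.G j v x ↔ Near J.G j v x := by
  constructor
  · intro hx
    obtain ⟨p, hp⟩ := near_iff_walk.1 hx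
    exact (h.near_of_walk p (hp.trans hj)).mono hp
  · intro hx
    obtain ⟨p, hp⟩ := near_iff_walk.1 hx
    exact (h.near_of_walk' p (hp.trans hj)).mono hp

lemma SameView.symm {t : ℕ} {v : Fin N} (h : SameView t v I J) : SameView t v J I := by
  refine ⟨fun x y hx => ?_, fun x hx => ?_⟩
  · obtain ⟨a, ha, hx⟩ := edist_lt_iff.1 hx
    exact (h.adj_iff ((h.near_iff ha.le x).2 hx) ha y).symm
  · exact (h.2 x ((h.near_iff le_rfl x).2 hx)).symm

lemma SameView.trans {t : ℕ} {v : Fin N} (h : SameView t v I J) (h' : SameView t v J K) :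
    SameView t v I K := by
  refine ⟨fun x y hx => ?_, fun x hx => ?_⟩
  · obtain ⟨a, ha, hx⟩ := edist_lt_iff.1 hx
    exact (h.adj_iff hx ha y).trans (h'.adj_iff ((h.near_iff ha.le x).1 hx) ha y)
  · exact (h.2 x hx).trans (h'.2 x ((h.near_iff le_rfl x).1 hx))

lemma SameView.dist_eq {t : ℕ} {v x : Fin N} (h : SameView t v I J) (hx : Near I.G t v x) :
    I.G.dist v x = J.G.dist v x := by
  apply le_antisymm
  · have h1 : Near J.G t v x := (h.near_iff le_rfl x).1 hx
    exact ((h.near_iff h1.dist_le x).2 (near_dist h1.reachable)).dist_le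
  · exact ((h.near_iff hx.dist_le x).1 (near_dist hx.reachable)).dist_le

lemma Inst.mem_of_reachable (I : Inst N) {v x : Fin N} (h : I.G.Reachable v x) (hv : v ∈ I.S) :
    x ∈ I.S := by
  obtain ⟨p⟩ := h
  induction p with
  | nil => exact hv
  | cons hab _ ih => exact ih (I.mem_of_adj _ _ hab.symm)

/-- `f` is `t`-local among the instances of the class `C`. -/
def Loc (C : Set (Inst N)) {α : Type} (t : ℕ) (f : Inst N → Fin N → α) : Prop :=
  ∀ I ∈ C, ∀ J ∈ C, ∀ v, SameView t v I J → f I v = f J v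

lemma Loc.mono {C : Set (Inst N)} {α : Type} {t s : ℕ} {f : Inst N → Fin N → α}
    (h : Loc C t f) (hs : t ≤ s) : Loc C s f :=
  fun I hI J hJ v hv => h I hI J hJ v (hv.mono hs)

lemma Loc.at {C : Set (Inst N)} {α : Type} {t s j : ℕ} {f : Inst N → Fin N → α}
    (h : Loc C t f) (hI : I ∈ C) (hJ : J ∈ C) {v x : Fin N} (hv : SameView s v I J)
    (hx : Near I.G j v x) (hs : j + t ≤ s) : f I x = f J x :=
  h I hI J hJ x (hv.shift hx hs)

/-- A map that is local on a class extends to a map that is local on all instances. -/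
lemma Loc.extend {C : Set (Inst N)} {α : Type} {t : ℕ}
    {f : Inst N → Fin N → α} (h : Loc C t f) :
    ∃ g : Inst N → Fin N → α, Loc Set.univ t g ∧
      ∀ I, ∀ J ∈ C, ∀ v, SameView t v I J → g I v = f J v := by
  let g : Inst N → Fin N → α := fun I v =>
    f (@Classical.epsilon (Inst N) ⟨I⟩ (fun J => J ∈ C ∧ SameView t v I J)) v
  refine ⟨g, fun I _ J _ v hv => ?_, fun I J hJ v hv => ?_⟩
  · have hp : (fun K => K ∈ C ∧ SameView t v I K) = (fun K => K ∈ C ∧ SameView t v J K) := by
      funext K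
      exact propext ⟨fun hK => ⟨hK.1, hv.symm.trans hK.2⟩, fun hK => ⟨hK.1, hv.trans hK.2⟩⟩
    simp only [g, hp]
  · have hs := @Classical.epsilon_spec (Inst N) (fun J => J ∈ C ∧ SameView t v I J) ⟨J, hJ, hv⟩
    exact h _ hs.1 J hJ v (hs.2.symm.trans hv)

end View

end Pool.Agent.Lib.MP_559647_lc
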