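import Pool.Agent.Lib.MP_559647_lc.Basic

/-!
Colour reduction by cover-free families, maximal independent sets, doubling nets, and the
clustering obtained from them.
-/

namespace Pool.Agent.Lib.MP_559647_lc

open Finset Polynomial

/-- number of colours after one colour reduction step -/
def cf (M Δ : ℕ) : ℕ := 4 * (Δ * (Nat.log 2 M + 1) + 1) ^ 2

/-- polynomial whose coefficients are the binary digits of `m` -/
noncomputable def bitPoly (p d m : ℕ) : (ZMod p)[X] :=
  ∑ i ∈ range d, monomial i (if m.testBit i then 1 else 0)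

lemma bitPoly_coeff (p d m i : ℕ) :
    (bitPoly p d m).coeff i = if i < d then (if m.testBit i then 1 else 0) else 0 := by
  unfold bitPoly
  rw [finsetSum_coeff]
  simp only [coeff_monomial]
  rw [Finset.sum_ite_eq' (range d) i]
  simp

lemma bitPoly_natDegree (p d m : ℕ) : (bitPoly p d m).natDegree ≤ d := by
  rw [natDegree_le_iff_coeff_eq_zero]
  intro i hi
  rw [bitPoly_coeff, if_neg (by omega)]

lemma bitPoly_inj (p d : ℕ) [Fact p.Prime] {m m' : ℕ} (hm : m < 2 ^ d) (hm' : m' < 2 ^ d)
    (h : bitPoly p d m = bitPoly p d m') : m = m' := by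
  apply Nat.eq_of_testBit_eq
  intro i
  by_cases hi : i < d
  · have := congrArg (fun q => q.coeff i) h
    simp only [bitPoly_coeff, if_pos hi] at this
    cases h1 : m.testBit i <;> cases h2 : m'.testBit i <;> simp_all
  · have h2 : 2 ^ d ≤ 2 ^ i := Nat.pow_le_pow_right (by norm_num) (by omega)
    rw [Nat.testBit_lt_two_pow (by omega), Nat.testBit_lt_two_pow (by omega)]

lemma coverfree (M Δ : ℕ) : ∃ F : ℕ → Finset ℕ → ℕ, (∀ m B, F m B < cf M Δ) ∧
    ∀ m < M, ∀ B : Finset ℕ, B.card ≤ Δ → m ∉ B → (∀ b ∈ B, b < M) →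
      ∀ m' ∈ B, ∀ B', F m B ≠ F m' B' := by
  classical
  set d := Nat.log 2 M + 1 with hd
  have hMd : M < 2 ^ d := Nat.lt_pow_succ_log_self (by norm_num) M
  obtain ⟨p, hp, hp1, hp2⟩ := Nat.exists_prime_lt_and_le_two_mul (Δ * d + 1) (by omega)
  have : Fact p.Prime := ⟨hp⟩
  let xx : ℕ → Finset ℕ → ZMod p := fun m B =>
    Classical.epsilon fun x => ∀ b ∈ B, (bitPoly p d m).eval x ≠ (bitPoly p d b).eval x
  refine ⟨fun m B => (xx m B).val * p + ((bitPoly p d m).eval (xx m B)).val, fun m B => ?_, ?_⟩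
  · have h1 := ZMod.val_lt (xx m B)
    have h2 := ZMod.val_lt ((bitPoly p d m).eval (xx m B))
    have h3 : (xx m B).val * p + p ≤ p * p := by nlinarith
    have h4 : p * p ≤ cf M Δ := by
      unfold cf
      rw [← hd]
      nlinarith
    show (xx m B).val * p + ((bitPoly p d m).eval (xx m B)).val < cf M Δ
    omega
  · intro m hm B hB hmB hBM m' hm' B' heq
    have hex : ∃ x : ZMod p, ∀ b ∈ B, (bitPoly p d m).eval x ≠ (bitPoly p d b).eval x := by
      by_contra hcon
      push Not at hcon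
      have hsub : (univ : Finset (ZMod p)) ⊆
          B.biUnion fun b => (bitPoly p d m - bitPoly p d b).roots.toFinset := by
        intro x _
        obtain ⟨b, hb, hx⟩ := hcon x
        have hne : bitPoly p d m - bitPoly p d b ≠ 0 := by
          intro h0
          have := bitPoly_inj p d (by omega) (by have := hBM b hb; omega) (sub_eq_zero.1 h0)
          exact hmB (this ▸ hb)
        simp only [mem_biUnion, Multiset.mem_toFinset]
        refine ⟨b, hb, (mem_roots hne).2 ?_⟩
        simp [hx]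
      have hc := Finset.card_le_card hsub
      rw [Finset.card_univ, ZMod.card] at hc
      have hc2 : (B.biUnion fun b => (bitPoly p d m - bitPoly p d b).roots.toFinset).card ≤
          B.card * d := by
        refine Finset.card_biUnion_le_card_mul _ _ _ fun b _ => ?_
        refine (Multiset.toFinset_card_le _).trans ((card_roots' _).trans ?_)
        exact (natDegree_sub_le _ _).trans
          (max_le (bitPoly_natDegree _ _ _) (bitPoly_natDegree _ _ _))
      have : B.card * d ≤ Δ * d := Nat.mul_le_mul_right _ hB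
      omega
    have hs := Classical.epsilon_spec hex m' hm'
    have h2 := ZMod.val_lt ((bitPoly p d m).eval (xx m B))
    have h2' := ZMod.val_lt ((bitPoly p d m').eval (xx m' B'))
    have hpos : 0 < p := hp.pos
    simp only at heq
    have e1 : (xx m B).val = (xx m' B').val := by
      have := congrArg (· / p) heq
      simp only [Nat.mul_comm _ p, Nat.mul_add_div hpos, Nat.div_eq_of_lt h2,
        Nat.div_eq_of_lt h2'] at this
      omega
    have e2 : ((bitPoly p d m).eval (xx m B)).val = ((bitPoly p d m').eval (xx m' B')).val := by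
      rw [e1] at heq
      omega
    have e3 := ZMod.val_injective p e1
    have e4 := ZMod.val_injective p e2
    rw [← e3] at e4
    exact hs e4

section Local

variable {N : ℕ} {C : Set (Inst N)}

lemma colour_step {t D M Δ : ℕ} {X : Inst N → Fin N → Prop} {col : Inst N → Fin N → ℕ}
    (hX : Loc C t X) (hcol : Loc C t col) (hM : ∀ I ∈ C, ∀ x, col I x < M)
    (hprop : ∀ I ∈ C, ∀ x y, X I x → X I y → x ≠ y → Near I.G D x y → col I x ≠ col I y)
    (hdeg : ∀ I ∈ C, ∀ x, X I x → ∀ Y : Finset (Fin N),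
      (∀ y ∈ Y, X I y ∧ Near I.G D x y) → Y.card ≤ Δ) :
    ∃ col' : Inst N → Fin N → ℕ, Loc C (D + t) col' ∧ (∀ I ∈ C, ∀ x, col' I x < cf M Δ) ∧
      ∀ I ∈ C, ∀ x y, X I x → X I y → x ≠ y → Near I.G D x y → col' I x ≠ col' I y := by
  classical
  obtain ⟨F, hF1, hF2⟩ := coverfree M Δ
  let nb : Inst N → Fin N → Finset (Fin N) := fun I x =>
    univ.filter fun y => X I y ∧ y ≠ x ∧ Near I.G D x y
  refine ⟨fun I x => F (col I x) ((nb I x).image (col I)), ?_, fun I _ x => hF1 _ _, ?_⟩
  · intro I hI J hJ v hv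
    have h1 : nb I v = nb J v := by
      ext y
      simp only [nb, mem_filter, mem_univ, true_and]
      constructor
      · rintro ⟨a, b, c⟩
        exact ⟨hX.at hI hJ hv c le_rfl ▸ a, b, (hv.near_iff (by omega) y).1 c⟩
      · rintro ⟨a, b, c⟩
        have c' := (hv.near_iff (by omega) y).2 c
        exact ⟨(hX.at hI hJ hv c' le_rfl).symm ▸ a, b, c'⟩
    have h2 : (nb I v).image (col I) = (nb J v).image (col J) := by
      rw [← h1]
      refine Finset.image_congr fun y hy => ?_
      simp only [nb, coe_filter, mem_univ, true_and, Set.mem_ofPred_eq] at hy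
      exact hcol.at hI hJ hv hy.2.2 le_rfl
    simp only
    rw [h2, hcol I hI J hJ v (hv.mono (by omega))]
  · intro I hI x y hx hy hxy hn
    refine hF2 _ (hM I hI x) _ ?_ ?_ ?_ _ ?_ _
    · refine Finset.card_image_le.trans (hdeg I hI x hx _ fun z hz => ?_)
      simp only [nb, mem_filter, mem_univ, true_and] at hz
      exact ⟨hz.1, hz.2.2⟩
    · intro hm
      obtain ⟨z, hz, he⟩ := Finset.mem_image.1 hm
      simp only [nb, mem_filter, mem_univ, true_and] at hz
      exact hprop I hI x z hx hz.1 hz.2.1.symm hz.2.2 he.symm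
    · intro b hb
      obtain ⟨z, _, he⟩ := Finset.mem_image.1 hb
      exact he ▸ hM I hI z
    · refine Finset.mem_image.2 ⟨y, ?_, rfl⟩
      simp only [nb, mem_filter, mem_univ, true_and]
      exact ⟨hy, hxy.symm, hn⟩

lemma colour_two {t D Δ : ℕ} {X : Inst N → Fin N → Prop} (hX : Loc C t X)
    (hdeg : ∀ I ∈ C, ∀ x, X I x → ∀ Y : Finset (Fin N),
      (∀ y ∈ Y, X I y ∧ Near I.G D x y) → Y.card ≤ Δ) :
    ∃ col : Inst N → Fin N → ℕ, Loc C (2 * D + t) col ∧
      (∀ I ∈ C, ∀ x, col I x < cf (cf N Δ) Δ) ∧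
      ∀ I ∈ C, ∀ x y, X I x → X I y → x ≠ y → Near I.G D x y → col I x ≠ col I y := by
  obtain ⟨c1, h1, h2, h3⟩ := colour_step (col := fun _ x => x.val) (M := N) hX
    (fun _ _ _ _ _ _ => rfl) (fun _ _ x => x.isLt)
    (fun _ _ x y _ _ hxy _ h => hxy (Fin.ext h)) hdeg
  obtain ⟨c2, h4, h5, h6⟩ := colour_step (hX.mono (Nat.le_add_left t D)) h1 h2 h3 hdeg
  exact ⟨c2, h4.mono (by omega), h5, h6⟩

/-- greedy independent set, colour by colour -/
def greedy (D : ℕ) (X : Inst N → Fin N → Prop) (col : Inst N → Fin N → ℕ) (I : Inst N) :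
    ℕ → Fin N → Prop
  | 0 => fun _ => False
  | j + 1 => fun x => greedy D X col I j x ∨
      (X I x ∧ col I x = j ∧ ∀ y, greedy D X col I j y → ¬ Near I.G D x y)

lemma mis {t D M : ℕ} {X : Inst N → Fin N → Prop} {col : Inst N → Fin N → ℕ}
    (hX : Loc C t X) (hcol : Loc C t col) (hM : ∀ I ∈ C, ∀ x, col I x < M)
    (hprop : ∀ I ∈ C, ∀ x y, X I x → X I y → x ≠ y → Near I.G D x y → col I x ≠ col I y) :
    ∃ Y : Inst N → Fin N → Prop, Loc C (M * D + t) Y ∧ ∀ I ∈ C, (∀ x, Y I x → X I x) ∧
      (∀ x y, Y I x → Y I y → x ≠ y → ¬ Near I.G D x y) ∧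
      ∀ x, X I x → ∃ y, Y I y ∧ Near I.G D x y := by
  have hloc : ∀ j, Loc C (j * D + t) fun I x => greedy D X col I j x := by
    intro j
    induction j with
    | zero => intro I _ J _ v _; rfl
    | succ j ih =>
      intro I hI J hJ v hv
      have hv' : SameView (D + (j * D + t)) v I J := hv.mono (by rw [Nat.succ_mul]; omega)
      have e1 := ih I hI J hJ v (hv'.mono (by omega))
      have e2 := hX I hI J hJ v (hv'.mono (by omega))
      have e3 := hcol I hI J hJ v (hv'.mono (by omega))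
      have e4 : (∀ y, greedy D X col I j y → ¬ Near I.G D v y) =
          (∀ y, greedy D X col J j y → ¬ Near J.G D v y) := by
        apply propext
        constructor
        · intro h y hy hn
          have hn' := (hv'.near_iff (by omega) y).2 hn
          have := ih.at hI hJ hv' hn' le_rfl
          exact h y (this ▸ hy) hn'
        · intro h y hy hn
          have := ih.at hI hJ hv' hn le_rfl
          exact h y (this ▸ hy) ((hv'.near_iff (by omega) y).1 hn)
      simp only at e1
      simp only [greedy]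
      rw [e1, e2, e3, e4]
  refine ⟨fun I x => greedy D X col I M x, hloc M, fun I hI => ?_⟩
  have hsub : ∀ j x, greedy D X col I j x → X I x := by
    intro j
    induction j with
    | zero => intro x h; exact h.elim
    | succ j ih =>
      rintro x (h | h)
      · exact ih x h
      · exact h.1
  have hsep : ∀ j x y, greedy D X col I j x → greedy D X col I j y → x ≠ y →
      ¬ Near I.G D x y := by
    intro j
    induction j with
    | zero => intro x y h; exact h.elim
    | succ j ih =>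
      rintro x y (h | h) (h' | h') hxy hn
      · exact ih x y h h' hxy hn
      · exact h'.2.2 x h hn.symm
      · exact h.2.2 y h' hn
      · exact hprop I hI x y h.1 h'.1 hxy hn (h.2.1.trans h'.2.1.symm)
  have hdom : ∀ j x, X I x → col I x < j → ∃ y, greedy D X col I j y ∧ Near I.G D x y := by
    intro j
    induction j with
    | zero => intro x _ h; omega
    | succ j ih =>
      intro x hx hc
      rcases (Nat.lt_succ_iff.1 hc).eq_or_lt with h | h
      · by_cases hh : ∀ y, greedy D X col I j y → ¬ Near I.G D x y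
        · exact ⟨x, Or.inr ⟨hx, h, hh⟩, near_refl _ _⟩
        · push Not at hh
          obtain ⟨y, hy, hn⟩ := hh
          exact ⟨y, Or.inl hy, hn⟩
      · obtain ⟨y, hy, hn⟩ := ih x hx h
        exact ⟨y, Or.inl hy, hn⟩
  exact ⟨hsub M, hsep M, fun x hx => hdom M x hx (hM I hI x)⟩

/-- the scales `2 ^ i - 1` -/
def scale : ℕ → ℕ
  | 0 => 0
  | i + 1 => 2 * scale i + 1

lemma scale_succ_eq (i : ℕ) : scale i + 1 = 2 ^ i := by
  induction i with
  | zero => rfl
  | succ i ih => simp only [scale, pow_succ]; omega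

/-- packing property of a set of nodes, up to radius `ρ` -/
def Packing (C : Set (Inst N)) (Z : Inst N → Fin N → Prop) (ρ κ : ℕ) : Prop :=
  ∀ I ∈ C, ∀ h D, D ≤ ρ → ∀ x, ∀ Y : Finset (Fin N), (∀ y ∈ Y, Z I y ∧ Near I.G D x y) →
    (∀ y ∈ Y, ∀ y' ∈ Y, y ≠ y' → ¬ Near I.G h y y') → Y.card ≤ (D / (h + 1) + 1) * κ

lemma net {t ρ κ : ℕ} {Z : Inst N → Fin N → Prop} (hZ : Loc C t Z) (hp : Packing C Z ρ κ)
    (i : ℕ) (hi : scale i ≤ ρ) :
    ∃ Y : Inst N → Fin N → Prop,
      Loc C (2 * (cf (cf N (8 * κ)) (8 * κ) + 2) * scale i + t) Y ∧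
      ∀ I ∈ C, (∀ x, Y I x → Z I x) ∧ (∀ x y, Y I x → Y I y → x ≠ y → ¬ Near I.G (scale i) x y) ∧
      ∀ x, Z I x → ∃ y, Y I y ∧ Near I.G (2 * scale i) x y := by
  induction i with
  | zero =>
    refine ⟨Z, hZ.mono (by omega), fun I _ => ⟨fun _ h => h, fun x y _ _ hxy hn => ?_,
      fun x hx => ⟨x, hx, near_refl _ _⟩⟩⟩
    exact hxy (near_zero_iff.1 hn)
  | succ i ih =>
    have hs : scale (i + 1) = 2 * scale i + 1 := rfl
    obtain ⟨Y, hY1, hY2⟩ := ih (by omega)
    set K := cf (cf N (8 * κ)) (8 * κ) with hK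
    obtain ⟨col, c1, c2, c3⟩ := colour_two (D := scale (i + 1)) (Δ := 8 * κ) hY1 (by
      intro I hI x _ W hW
      have := hp I hI (scale i) (scale (i + 1)) hi x W
        (fun y hy => ⟨(hY2 I hI).1 y (hW y hy).1, (hW y hy).2⟩)
        (fun y hy y' hy' hne => (hY2 I hI).2.1 y y' (hW y hy).1 (hW y' hy').1 hne)
      have h2 : scale (i + 1) / (scale i + 1) < 2 := by
        rw [Nat.div_lt_iff_lt_mul (by omega)]
        omega
      have h3 : (scale (i + 1) / (scale i + 1) + 1) * κ ≤ 8 * κ :=
        Nat.mul_le_mul_right _ (by omega)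
      omega)
    obtain ⟨Y', d1, d2⟩ := mis (hY1.mono (Nat.le_add_left _ _)) c1 c2 c3
    refine ⟨Y', d1.mono ?_, fun I hI => ⟨fun x hx => (hY2 I hI).1 x ((d2 I hI).1 x hx),
      (d2 I hI).2.1, fun x hx => ?_⟩⟩
    · rw [← hK, hs]
      nlinarith
    · obtain ⟨y, hy, hn⟩ := (hY2 I hI).2.2 x hx
      obtain ⟨y', hy', hn'⟩ := (d2 I hI).2.2 y hy
      exact ⟨y', hy', hn.trans' hn' (by omega)⟩

theorem cluster {t t' κ D0 i : ℕ} {Z : Inst N → Fin N → Prop} {zz : Inst N → Fin N → Fin N}
    (hZ : Loc C t Z) (hp : Packing C Z (8 * scale i) κ) (hzz : Loc C t' zz)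
    (hz1 : ∀ I ∈ C, ∀ v, Near I.G D0 v (zz I v))
    (hz2 : ∀ I ∈ C, ∀ v w, Near I.G (2 * scale i) v w →
      (∀ y, Z I y → ¬ Near I.G (scale i) v y) → (∀ y, Z I y → ¬ Near I.G (scale i) w y) →
      zz I v = zz I w) :
    ∃ (c : Inst N → Fin N → Fin N) (col : Inst N → Fin N → ℕ),
      Loc C ((2 * cf (cf N (8 * κ)) (8 * κ) + 23) * scale i + t + t') c ∧
      Loc C ((2 * cf (cf N (8 * κ)) (8 * κ) + 23) * scale i + t + t') col ∧
      ∀ I ∈ C, (∀ v, col I v < cf (cf N (8 * κ)) (8 * κ) + 1) ∧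
        (∀ v, Near I.G (if col I v < cf (cf N (8 * κ)) (8 * κ) then 3 * scale i else D0)
          v (c I v)) ∧
        ∀ v w, col I v = col I w → Near I.G (2 * scale i) v w → c I v = c I w := by
  classical
  set K := cf (cf N (8 * κ)) (8 * κ) with hK
  set h := scale i with hh
  obtain ⟨Y, hY1, hY2⟩ := net hZ hp i (by omega)
  rw [← hK, ← hh] at hY1
  rw [← hh] at hY2
  obtain ⟨cl, c1, c2, c3⟩ := colour_two (D := 8 * h) (Δ := 8 * κ) hY1 (by
    intro I hI x _ W hW
    have := hp I hI h (8 * h) le_rfl x W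
      (fun y hy => ⟨(hY2 I hI).1 y (hW y hy).1, (hW y hy).2⟩)
      (fun y hy y' hy' hne => (hY2 I hI).2.1 y y' (hW y hy).1 (hW y' hy').1 hne)
    have h2 : 8 * h / (h + 1) < 8 := by
      rw [Nat.div_lt_iff_lt_mul (by omega)]
      omega
    have h3 : (8 * h / (h + 1) + 1) * κ ≤ 8 * κ := Nat.mul_le_mul_right _ (by omega)
    omega)
  rw [← hK] at c2
  let A : Inst N → Fin N → Prop := fun I v => ∃ y, Z I y ∧ Near I.G h v y
  let e : Inst N → Fin N → Fin N := fun I v =>
    @Classical.epsilon (Fin N) ⟨v⟩ fun y => Y I y ∧ Near I.G (3 * h) v y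
  have he : ∀ I ∈ C, ∀ v, A I v → Y I (e I v) ∧ Near I.G (3 * h) v (e I v) := by
    rintro I hI v ⟨y, hy, hn⟩
    obtain ⟨y', hy', hn'⟩ := (hY2 I hI).2.2 y hy
    exact @Classical.epsilon_spec (Fin N) (fun y => Y I y ∧ Near I.G (3 * h) v y)
      ⟨y', hy', hn.trans' hn' (by omega)⟩
  have hexp : (2 * K + 23) * h = 2 * (K + 2) * h + 19 * h := by ring
  have hA : Loc C ((2 * K + 23) * h + t + t') A := by
    intro I hI J hJ v hv
    apply propext
    constructor
    · rintro ⟨y, hy, hn⟩
      exact ⟨y, hZ.at hI hJ hv hn (by omega) ▸ hy, (hv.near_iff (by omega) y).1 hn⟩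
    · rintro ⟨y, hy, hn⟩
      have hn' := (hv.near_iff (by omega) y).2 hn
      exact ⟨y, (hZ.at hI hJ hv hn' (by omega)).symm ▸ hy, hn'⟩
  have hE : Loc C ((2 * K + 23) * h + t + t') e := by
    intro I hI J hJ v hv
    have : (fun y => Y I y ∧ Near I.G (3 * h) v y) = fun y => Y J y ∧ Near J.G (3 * h) v y := by
      funext y
      apply propext
      constructor
      · rintro ⟨hy, hn⟩
        exact ⟨hY1.at hI hJ hv hn (by omega) ▸ hy, (hv.near_iff (by omega) y).1 hn⟩
      · rintro ⟨hy, hn⟩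
        have hn' := (hv.near_iff (by omega) y).2 hn
        exact ⟨(hY1.at hI hJ hv hn' (by omega)).symm ▸ hy, hn'⟩
    simp only [e, this]
  refine ⟨fun I v => if A I v then e I v else zz I v,
    fun I v => if A I v then cl I (e I v) else K, ?_, ?_, fun I hI => ⟨fun v => ?_, fun v => ?_,
      fun v w hc hn => ?_⟩⟩
  · intro I hI J hJ v hv
    have a1 := hA I hI J hJ v hv
    have a2 := hE I hI J hJ v hv
    have a3 := hzz I hI J hJ v (hv.mono (by omega))
    by_cases hv' : A I v
    · simp only [if_pos hv', if_pos (a1 ▸ hv'), a2]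
    · simp only [if_neg hv', if_neg (a1 ▸ hv'), a3]
  · intro I hI J hJ v hv
    have a1 := hA I hI J hJ v hv
    have a2 := hE I hI J hJ v hv
    by_cases hv' : A I v
    · simp only [if_pos hv', if_pos (a1 ▸ hv'), ← a2]
      exact c1.at hI hJ hv (he I hI v hv').2 (by omega)
    · simp only [if_neg hv', if_neg (a1 ▸ hv')]
  · have := c2 I hI (e I v)
    simp only
    split_ifs <;> omega
  · by_cases hv' : A I v
    · simp only [if_pos hv', if_pos (c2 I hI (e I v))]
      exact (he I hI v hv').2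
    · simp only [if_neg hv', lt_irrefl, if_false]
      exact hz1 I hI v
  · by_cases hv' : A I v <;> by_cases hw' : A I w
    · simp only [if_pos hv', if_pos hw'] at hc ⊢
      by_contra hne
      exact c3 I hI _ _ (he I hI v hv').1 (he I hI w hw').1 hne
        (((he I hI v hv').2.symm.trans hn).trans' (he I hI w hw').2 (by omega)) hc
    · simp only [if_pos hv', if_neg hw'] at hc
      have := c2 I hI (e I v)
      omega
    · simp only [if_neg hv', if_pos hw'] at hc
      have := c2 I hI (e I w)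
      omega
    · simp only [if_neg hv', if_neg hw']
      exact hz2 I hI v w hn (fun y hy hn => hv' ⟨y, hy, hn⟩) (fun y hy hn => hw' ⟨y, hy, hn⟩)

end Local

end Pool.Agent.Lib.MP_559647_lc
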