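import Pool.Agent.Lib.MP_559647_lc.Tree
import Pool.Agent.Lib.MP_559647_lc.Colour

/-!
The clustering of forests, and of graphs of large girth.
-/

namespace Pool.Agent.Lib.MP_559647_lc

open Finset SimpleGraph

variable {N : ℕ} {θ : ℝ} {T k : ℕ}

lemma psiT_view {I J : Inst N} {a b : Fin N} (hab : I.G.Adj a b) (ha : SameView (T + 1) a I J)
    (hb : SameView (T + 1) b I J) : psiT θ T I.G a b = psiT θ T J.G a b := by
  have hab' : J.G.Adj a b := (ha.adj_iff (near_refl 0 a) (by omega) b).1 hab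
  have key : ∀ {I J : Inst N}, I.G.Adj a b → SameView (T + 1) a I J → SameView (T + 1) b I J →
      ∀ t ∈ (side I.G a b).filter (fun t => I.G.dist b t ≤ T),
        t ∈ (side J.G a b).filter (fun t => J.G.dist b t ≤ T) ∧ I.G.dist b t = J.G.dist b t := by
    intro I J hab ha hb t ht
    obtain ⟨h1, h2⟩ := mem_filter.1 ht
    obtain ⟨h3, h4⟩ := mem_side.1 h1
    have n1 : Near I.G T b t := near_iff_dist.2 ⟨h3, h2⟩
    have n2 : Near I.G (T + 1) a t := (near_of_adj hab).trans' n1 (by omega)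
    have e1 := hb.dist_eq (n1.mono (by omega))
    have e2 := ha.dist_eq n2
    refine ⟨mem_filter.2 ⟨mem_side.2 ⟨((hb.near_iff (by omega) t).1 n1).reachable, ?_⟩, ?_⟩, e1⟩
    · omega
    · omega
  unfold psiT
  refine Finset.sum_congr ?_ fun t ht => ?_
  · ext t
    exact ⟨fun ht => (key hab ha hb t ht).1, fun ht => (key hab' ha.symm hb.symm t ht).1⟩
  · rw [(key hab' ha.symm hb.symm t ht).2]

lemma orient_view {I J : Inst N} {y : Fin N} (hy : SameView (T + 2) y I J) :
    Orient θ T k I.G y = Orient θ T k J.G y := by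
  have key : ∀ {I J : Inst N}, SameView (T + 2) y I J → ∀ w, Orient θ T k I.G y w →
      Orient θ T k J.G y w := by
    intro I J hy w h
    have h1 : SameView (T + 1) y I J := hy.mono (by omega)
    have h2 : SameView (T + 1) w I J := hy.shift (near_of_adj h.1) (by omega)
    refine ⟨(hy.adj_iff (near_refl 0 y) (by omega) w).1 h.1, ?_⟩
    rw [← psiT_view h.1 h1 h2, ← psiT_view h.1.symm h2 h1]
    exact h.2
  funext w
  exact propext ⟨key hy w, key hy.symm w⟩

lemma sink_loc (C : Set (Inst N)) : Loc C (T + 2) fun I y => Sink θ T k I.G y := by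
  intro I _ J _ y hy
  simp only [Sink, orient_view hy]

lemma ptr_view {I J : Inst N} {y : Fin N} (hy : SameView (T + 2) y I J) :
    ptr θ T k I.G y = ptr θ T k J.G y := by
  unfold ptr Sink
  rw [orient_view hy]

lemma iterate_loc (C : Set (Inst N)) (j : ℕ) :
    Loc C (T + 2 + j) fun I y => (ptr θ T k I.G)^[j] y := by
  induction j with
  | zero => intro I _ J _ y _; rfl
  | succ j ih =>
    intro I hI J hJ y hy
    simp only [Function.iterate_succ_apply]
    rw [← ptr_view (hy.mono (by omega))]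
    exact ih.at hI hJ hy (near_ptr y) (by omega)

lemma comp_card_le (I : Inst N) {n : ℕ} (hn : 1 ≤ n) (hS : I.S.card ≤ n) (v : Fin N) :
    (comp I.G v).card ≤ n := by
  by_cases hv : v ∈ I.S
  · exact le_trans (Finset.card_le_card fun t ht => I.mem_of_reachable (mem_comp.1 ht) hv) hS
  · refine le_trans (Finset.card_le_one.2 ?_) hn
    have key : ∀ t ∈ comp I.G v, t = v := by
      intro t ht
      obtain ⟨p⟩ := mem_comp.1 ht
      cases p with
      | nil => rfl
      | cons h _ => exact absurd (I.mem_of_adj _ _ h) hv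
    intro a ha b hb
    rw [key a ha, key b hb]

/-- number of colours of the small clusters -/
def numCol (N k : ℕ) : ℕ := cf (cf N (8 * (13 * k ^ 3))) (8 * (13 * k ^ 3))

/-- the properties of a clustering of one instance -/
def IsClustering (I : Inst N) (c : Fin N → Fin N) (col : Fin N → ℕ) (K h D : ℕ) : Prop :=
  (∀ v, col v < K + 1) ∧ (∀ v, Near I.G (if col v < K then 3 * h else D) v (c v)) ∧
    ∀ v w, col v = col w → Near I.G (2 * h) v w → c v = c w

theorem forest_cluster {n k L i : ℕ} (hn : 1 ≤ n) (hk : 1 ≤ k) (hL : n < k ^ L)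
    (hi : 1 ≤ scale i) :
    ∃ (c : Inst N → Fin N → Fin N) (col : Inst N → Fin N → ℕ),
      Loc {I | I.G.IsAcyclic ∧ I.S.card ≤ n}
        ((2 * numCol N k + 23) * scale i + 32 * (scale i * L) + 5) c ∧
      Loc {I | I.G.IsAcyclic ∧ I.S.card ≤ n}
        ((2 * numCol N k + 23) * scale i + 32 * (scale i * L) + 5) col ∧
      ∀ I ∈ {I : Inst N | I.G.IsAcyclic ∧ I.S.card ≤ n},
        IsClustering I (c I) (col I) (numCol N k) (scale i) (16 * (scale i * L) + 1) := by
  set h := scale i with hh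
  have hk1 : (1 : ℝ) ≤ k := by exact_mod_cast hk
  let q : ℝ := (k : ℝ) ^ ((16 * h : ℕ)⁻¹ : ℝ)
  have hq : q ^ (16 * h) = k := Real.rpow_inv_natCast_pow (by positivity) (by omega)
  have hq1 : 1 ≤ q := Real.one_le_rpow hk1 (by positivity)
  have hq0 : 0 < q := by linarith
  let θ : ℝ := (q ^ 2)⁻¹
  have hθ : θ * q ^ 2 = 1 := inv_mul_cancel₀ (by positivity)
  have hθρ : k * θ ^ (8 * h) = 1 := by
    rw [← hq, show 16 * h = 2 * (8 * h) by ring, pow_mul, ← mul_pow, mul_comm, hθ, one_pow]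
  have hnL : (n : ℝ) < k ^ L := by exact_mod_cast hL
  have hP : ∀ I ∈ {I : Inst N | I.G.IsAcyclic ∧ I.S.card ≤ n},
      Par I.G θ q (8 * (h * L)) k n := by
    intro I hI
    refine ⟨hI.1, hq1, hθ, ?_, comp_card_le I hn hI.2, ?_⟩
    · rw [← hq]
      exact pow_le_pow_right₀ hq1 (by omega)
    · have h1 : (k : ℝ) ^ L * θ ^ (8 * (h * L)) = 1 := by
        rw [← mul_assoc, pow_mul, ← mul_pow, hθρ, one_pow]
      have h2 : 0 ≤ θ ^ (8 * (h * L)) := by positivity
      nlinarith
  have hD : (n : ℝ) < q ^ (16 * (h * L)) := by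
    rw [← mul_assoc, pow_mul, hq]
    exact hnL
  obtain ⟨c, col, h1, h2, h3⟩ := cluster (C := {I : Inst N | I.G.IsAcyclic ∧ I.S.card ≤ n})
    (κ := 13 * k ^ 3) (D0 := 16 * (h * L) + 1) (i := i)
    (Z := fun I y => Sink θ (8 * (h * L)) k I.G y)
    (zz := fun I y => (ptr θ (8 * (h * L)) k I.G)^[16 * (h * L) + 1] y) (sink_loc _)
    (fun I hI a D hD x Y hY hs => (hP I hI).packing hθρ.ge a D hD x Y hY hs)
    (iterate_loc _ _) (fun I _ v => near_iterate _ v)
    (fun I hI v w hvw hv hw => (hP I hI).iterate_eq hD hvw hv hw)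
  refine ⟨c, col, h1.mono ?_, h2.mono ?_, h3⟩
  · unfold numCol
    rw [← hh]
    omega
  · unfold numCol
    rw [← hh]
    omega

/-- the part of an instance within distance `s` of `v` -/
def Inst.restrict (I : Inst N) (s : ℕ) (v : Fin N) : Inst N where
  S := I.S
  G := { Adj := fun x y => I.G.Adj x y ∧ Near I.G s v x ∧ Near I.G s v y
         symm := ⟨fun _ _ h => ⟨h.1.symm, h.2.2, h.2.1⟩⟩
         loopless := ⟨fun _ h => h.1.ne rfl⟩ }
  inp := I.inp
  mem_of_adj := fun u w h => I.mem_of_adj u w h.1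

lemma restrict_view (I : Inst N) (s : ℕ) (v : Fin N) : SameView s v I (I.restrict s v) := by
  refine ⟨fun x y hx => ⟨fun h => ?_, fun h => h.1⟩, fun _ _ => rfl⟩
  obtain ⟨a, ha, hx⟩ := edist_lt_iff.1 hx
  exact ⟨h, hx.mono ha.le, hx.trans' (near_of_adj h) ha⟩

lemma restrict_acyclic (I : Inst N) (s : ℕ) (v : Fin N)
    (hg : ((2 * s + 2 : ℕ) : ℕ∞) < I.G.egirth) : (I.restrict s v).G.IsAcyclic := by
  classical
  intro a c hc
  obtain ⟨x, hx, hmax⟩ := Finset.exists_max_image c.support.toFinset (fun x => I.G.dist v x)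
    ⟨a, by simp⟩
  rw [List.mem_toFinset] at hx
  have hc' := hc.rotate hx
  set d := c.rotate x hx with hd
  have a1 := d.adj_snd hc'.not_nil
  have a2 := d.adj_penultimate hc'.not_nil
  have hne := hc'.snd_ne_penultimate
  have m1 : I.G.dist v d.snd ≤ I.G.dist v x :=
    hmax _ (List.mem_toFinset.2 ((c.mem_support_rotate_iff x hx).1 (d.getVert_mem_support _)))
  have m2 : I.G.dist v d.penultimate ≤ I.G.dist v x :=
    hmax _ (List.mem_toFinset.2 ((c.mem_support_rotate_iff x hx).1 (d.getVert_mem_support _)))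
  have key : ∀ y, I.G.Adj y x → Near I.G s v y → I.G.dist v y ≤ I.G.dist v x →
      ∃ p : I.G.Walk v y, x ∉ p.support ∧ p.IsPath ∧ p.length ≤ s := by
    intro y hyx hy hle
    obtain ⟨p, hp, hl⟩ := hy.reachable.exists_path_of_dist
    refine ⟨p, fun hm => ?_, hp, hl ▸ hy.dist_le⟩
    obtain ⟨i, j, hij, b1, b2⟩ := support_split p hm
    have := b1.dist_le
    have hj : j = 0 := by omega
    subst hj
    exact hyx.ne (near_zero_iff.1 b2).symm
  obtain ⟨p1, n1, q1, l1⟩ := key _ a1.1.symm a1.2.2 m1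
  obtain ⟨p2, n2, q2, l2⟩ := key _ a2.1 a2.2.1 m2
  obtain ⟨w, -, -, e, he, hl⟩ := (q1.concat n1 a1.1.symm).exists_isCycle_length_le_add_of_ne
    (q2.concat n2 a2.1) (fun h => hne (Walk.concat_inj h).1)
  simp only [Walk.length_concat] at hl
  have h1 := egirth_le_length he
  have h2 : (e.length : ℕ∞) ≤ ((2 * s + 2 : ℕ) : ℕ∞) := by exact_mod_cast (by omega)
  exact absurd (h1.trans h2) (not_le.2 hg)

theorem girth_cluster {n K h D t : ℕ} {c : Inst N → Fin N → Fin N} {col : Inst N → Fin N → ℕ}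
    (hc : Loc {I | I.G.IsAcyclic ∧ I.S.card ≤ n} t c)
    (hcol : Loc {I | I.G.IsAcyclic ∧ I.S.card ≤ n} t col)
    (hcl : ∀ I ∈ {I : Inst N | I.G.IsAcyclic ∧ I.S.card ≤ n},
      IsClustering I (c I) (col I) K h D) :
    ∃ (c' : Inst N → Fin N → Fin N) (col' : Inst N → Fin N → ℕ),
      Loc Set.univ t c' ∧ Loc Set.univ t col' ∧ ∀ I : Inst N, I.S.card ≤ n →
        ((2 * (2 * h + t) + 2 : ℕ) : ℕ∞) < I.G.egirth → IsClustering I (c' I) (col' I) K h D := by
  obtain ⟨c', c1, c2⟩ := hc.extend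
  obtain ⟨col', d1, d2⟩ := hcol.extend
  refine ⟨c', col', c1, d1, fun I hS hg => ?_⟩
  have hJ : ∀ v, I.restrict (2 * h + t) v ∈ {I : Inst N | I.G.IsAcyclic ∧ I.S.card ≤ n} :=
    fun v => ⟨restrict_acyclic I _ v hg, hS⟩
  have hv : ∀ v w, Near I.G (2 * h) v w → SameView t w I (I.restrict (2 * h + t) v) :=
    fun v w hw => (restrict_view I _ v).shift hw le_rfl
  refine ⟨fun v => ?_, fun v => ?_, fun v w he hn => ?_⟩
  · rw [d2 I _ (hJ v) v (hv v v (near_refl _ _))]
    exact (hcl _ (hJ v)).1 v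
  · rw [d2 I _ (hJ v) v (hv v v (near_refl _ _)), c2 I _ (hJ v) v (hv v v (near_refl _ _))]
    have hle : (I.restrict (2 * h + t) v).G ≤ I.G := fun _ _ hh => hh.1
    exact le_trans (edist_anti hle) ((hcl _ (hJ v)).2.1 v)
  · rw [d2 I _ (hJ v) v (hv v v (near_refl _ _)), d2 I _ (hJ v) w (hv v w hn)] at he
    rw [c2 I _ (hJ v) v (hv v v (near_refl _ _)), c2 I _ (hJ v) w (hv v w hn)]
    exact (hcl _ (hJ v)).2.2 v w he (((restrict_view I _ v).near_iff (by omega) w).1 hn)

end Pool.Agent.Lib.MP_559647_lc
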