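import Mathlib

/-!
The LOCAL model in its standard view form: a `t`-round algorithm is a map whose value at a node
depends only on what the node sees within distance `t`.
-/

namespace Pool.Agent.Lib.MP_559647_lc

/-- An input of the LOCAL model with identifiers from `Fin N`: the set `S` of nodes (each node is
its identifier), a simple graph `G` all of whose edges join nodes of `S`, and an input label for
every node. -/
structure Inst (N : ℕ) where
  /-- the nodes -/
  S : Finset (Fin N)
  /-- the communication graph -/
  G : SimpleGraph (Fin N)
  /-- the input labels -/
  inp : Fin N → ℕ
  mem_of_adj : ∀ u v, G.Adj u v → u ∈ S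

/-- Node `v` has the same radius-`t` view in `I` and `J`: the edges at nodes of distance `< t`
from `v` and the input labels of nodes of distance `≤ t` from `v` coincide. -/
def SameView {N : ℕ} (t : ℕ) (v : Fin N) (I J : Inst N) : Prop :=
  (∀ x y, I.G.edist v x < t → (I.G.Adj x y ↔ J.G.Adj x y)) ∧
    ∀ x, I.G.edist v x ≤ t → I.inp x = J.inp x

/-- A deterministic `t`-round algorithm: the output of `v` depends only on its radius-`t` view. -/
def DetLocal {N : ℕ} (t : ℕ) (B : Inst N → Fin N → ℕ) : Prop :=
  ∀ I J v, SameView t v I J → B I v = B J v

/-- A `t`-round algorithm in which every node `x` also holds a value `a x` (its private random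
seed, or its output that is being checked): the result at `v` depends only on the radius-`t` view
of `v` and on the values held within distance `t` of `v`. -/
def LocalWith {N : ℕ} {α β : Type} (t : ℕ) (A : Inst N → (Fin N → α) → Fin N → β) : Prop :=
  ∀ I J a b v, SameView t v I J → (∀ x, I.G.edist v x ≤ t → a x = b x) → A I a v = A J b v

end Pool.Agent.Lib.MP_559647_lc
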