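import Pool.Agent.Lib.MP_559647_lc.Basic

/-!
Derandomisation along a locally computable clustering (method of conditional expectations,
one colour class after the other).
-/

namespace Pool.Agent.Lib.MP_559647_lc

open MeasureTheory Finset
open scoped ENNReal

section Marg

variable {ι Ω : Type} [DecidableEq ι] [MeasurableSpace Ω] {μ : Measure Ω}

lemma lmarg_congr_dep {F : (ι → Ω) → ℝ≥0∞} {B : ι → Prop}
    (hF : ∀ a b, (∀ x, B x → a x = b x) → F a = F b) (s : Finset ι) (a b : ι → Ω)
    (hab : ∀ x, B x → a x = b x) :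
    lmarginal (fun _ => μ) s F a = lmarginal (fun _ => μ) s F b := by
  unfold lmarginal
  refine lintegral_congr fun y => hF _ _ fun x hx => ?_
  simp only [Function.updateFinset]
  split_ifs
  · rfl
  · exact hab x hx

lemma lmarg_of_indep [IsProbabilityMeasure μ] {F : (ι → Ω) → ℝ≥0∞} {B : ι → Prop}
    (hF : ∀ a b, (∀ x, B x → a x = b x) → F a = F b) (s : Finset ι) (hs : ∀ x ∈ s, ¬ B x) :
    lmarginal (fun _ => μ) s F = F := by
  funext a
  unfold lmarginal
  have : ∀ y : (∀ _ : s, Ω), F (Function.updateFinset a s y) = F a := by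
    intro y
    refine hF _ _ fun x hx => ?_
    simp only [Function.updateFinset]
    split_ifs with h
    · exact absurd hx (hs x h)
    · rfl
  simp only [this, lintegral_const, measure_univ, mul_one]

lemma lmarg_filter [IsProbabilityMeasure μ] {F : (ι → Ω) → ℝ≥0∞} {B : ι → Prop}
    [DecidablePred B] (hm : Measurable F)
    (hF : ∀ a b, (∀ x, B x → a x = b x) → F a = F b) (s : Finset ι) :
    lmarginal (fun _ => μ) s F = lmarginal (fun _ => μ) (s.filter B) F := by
  conv_lhs => rw [← Finset.filter_union_filter_not_eq B s]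
  rw [lmarginal_union _ _ hm (Finset.disjoint_filter_filter_not s s B),
    lmarg_of_indep hF (s.filter fun x => ¬ B x) (fun x hx => (Finset.mem_filter.1 hx).2)]

lemma exists_good [IsProbabilityMeasure μ] {κ : Type} (X : Finset κ)
    (Gf : κ → (ι → Ω) → ℝ≥0∞) (hm : ∀ u, Measurable (Gf u)) (W : Finset ι) (a : ι → Ω) :
    ∃ y : ι → Ω, ∑ u ∈ X, Gf u (fun x => if x ∈ W then y x else a x) ≤
      ∑ u ∈ X, lmarginal (fun _ => μ) W (Gf u) a := by
  have hmeas : ∀ u, Measurable fun y : (∀ _ : W, Ω) => Gf u (Function.updateFinset a W y) :=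
    fun u => (hm u).comp measurable_updateFinset
  obtain ⟨y, hy⟩ := exists_le_lintegral (μ := Measure.pi fun _ : W => μ)
    (f := fun y : (∀ _ : W, Ω) => ∑ u ∈ X, Gf u (Function.updateFinset a W y))
    (Finset.measurable_sum X fun u _ => hmeas u).aemeasurable
  refine ⟨Function.updateFinset a W y, ?_⟩
  have he : (fun x => if x ∈ W then Function.updateFinset a W y x else a x) =
      Function.updateFinset a W y := by
    funext x
    simp only [Function.updateFinset]
    split_ifs <;> rfl
  rw [he]
  refine hy.trans (le_of_eq ?_)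
  rw [lintegral_finsetSum X fun u _ => hmeas u]
  rfl

end Marg

section Main

variable {N : ℕ} {Ω : Type} [MeasurableSpace Ω] (μ : Measure Ω)
  (r : ℕ) (c : Inst N → Fin N → Fin N) (col : Inst N → Fin N → ℕ)
  (f : Inst N → (Fin N → Ω) → Fin N → ℝ≥0∞)

open Classical in
/-- the undetermined nodes near `u` at stage `j` -/
noncomputable def undet (I : Inst N) (j : ℕ) (u : Fin N) : Finset (Fin N) :=
  univ.filter fun x => Near I.G r u x ∧ j ≤ col I x

/-- conditional expectation of the cost of `u` at stage `j` -/
noncomputable def condE (I : Inst N) (j : ℕ) (u : Fin N) (a : Fin N → Ω) : ℝ≥0∞ :=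
  lmarginal (fun _ => μ) (undet r col I j u) (fun b => f I b u) a

open Classical in
/-- nodes influenced by the cluster of colour `j` and centre `z` -/
noncomputable def infl (I : Inst N) (j : ℕ) (z : Fin N) : Finset (Fin N) :=
  univ.filter fun u => ∃ x, Near I.G r u x ∧ col I x = j ∧ c I x = z

/-- good values for the cluster of colour `j` and centre `z` -/
def GoodVal (I : Inst N) (j : ℕ) (a : Fin N → Ω) (z : Fin N) (y : Fin N → Ω) : Prop :=
  ∑ u ∈ infl r c col I j z,
      condE μ r col f I (j + 1) u (fun x => if col I x = j ∧ c I x = z then y x else a x) ≤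
    ∑ u ∈ infl r c col I j z, condE μ r col f I j u a

/-- the seeds after stage `j` -/
noncomputable def seeds (o : Ω) (I : Inst N) : ℕ → Fin N → Ω
  | 0 => fun _ => o
  | j + 1 => fun x => if col I x = j then
      @Classical.epsilon (Fin N → Ω) ⟨fun _ => o⟩
        (GoodVal μ r c col f I j (seeds o I j) (c I x)) x
      else seeds o I j x

variable {μ r c col f}

omit [MeasurableSpace Ω] in
lemma f_dep (hf : LocalWith r f) (I : Inst N) (u : Fin N) (a b : Fin N → Ω)
    (hab : ∀ x, Near I.G r u x → a x = b x) : f I a u = f I b u :=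
  hf I I a b u (sameView_refl _ _ _) hab

lemma condE_dep (hf : LocalWith r f) (I : Inst N) (j : ℕ) (u : Fin N) (a b : Fin N → Ω)
    (hab : ∀ x, Near I.G r u x → a x = b x) :
    condE μ r col f I j u a = condE μ r col f I j u b :=
  lmarg_congr_dep (f_dep hf I u) _ a b hab

lemma exists_goodVal [IsProbabilityMeasure μ] (hf : LocalWith r f)
    (hm : ∀ I u, Measurable fun a => f I a u) (I : Inst N)
    (hsep : ∀ v w, col I v = col I w → Near I.G (2 * r) v w → c I v = c I w)
    (j : ℕ) (a : Fin N → Ω) (z : Fin N) : ∃ y, GoodVal μ r c col f I j a z y := by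
  classical
  obtain ⟨y, hy⟩ := exists_good (μ := μ) (infl r c col I j z)
    (fun u => condE μ r col f I (j + 1) u) (fun u => (hm I u).lmarginal _)
    (univ.filter fun x => col I x = j ∧ c I x = z) a
  refine ⟨y, ?_⟩
  unfold GoodVal
  simp only [mem_filter, mem_univ, true_and] at hy
  refine hy.trans (le_of_eq (Finset.sum_congr rfl fun u hu => ?_))
  obtain ⟨x0, hx0, hc0, hz0⟩ : ∃ x, Near I.G r u x ∧ col I x = j ∧ c I x = z := by
    simpa [infl] using hu
  have hmm : Measurable (condE μ r col f I (j + 1) u) := (hm I u).lmarginal _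
  rw [lmarg_filter (B := fun x => Near I.G r u x) hmm (condE_dep hf I (j + 1) u)]
  have hun : condE μ r col f I (j + 1) u =
    lmarginal (fun _ => μ) (undet r col I (j + 1) u) (fun b => f I b u) := rfl
  rw [hun]
  unfold condE
  rw [← lmarginal_union _ _ (hm I u)]
  · congr 1
    ext x
    simp only [undet, mem_union, mem_filter, mem_univ, true_and]
    constructor
    · rintro (⟨⟨h1, _⟩, h3⟩ | ⟨h1, h2⟩)
      · exact ⟨h3, h1.ge⟩
      · exact ⟨h1, by omega⟩
    · rintro ⟨h1, h2⟩
      rcases h2.eq_or_lt with h | h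
      · left
        refine ⟨⟨h.symm, ?_⟩, h1⟩
        rw [← hz0]
        exact hsep x x0 (by omega) (h1.symm.trans' hx0 (by omega))
      · right
        exact ⟨h1, h⟩
  · rw [Finset.disjoint_left]
    intro x hx hx'
    simp only [undet, mem_filter, mem_univ, true_and] at hx hx'
    omega

lemma potential_step [IsProbabilityMeasure μ] (hf : LocalWith r f)
    (hm : ∀ I u, Measurable fun a => f I a u) (I : Inst N)
    (hsep : ∀ v w, col I v = col I w → Near I.G (2 * r) v w → c I v = c I w)
    (hreach : ∀ v, I.G.Reachable v (c I v)) (o : Ω) (j : ℕ) :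
    ∑ u ∈ I.S, condE μ r col f I (j + 1) u (seeds μ r c col f o I (j + 1)) ≤
      ∑ u ∈ I.S, condE μ r col f I j u (seeds μ r c col f o I j) := by
  classical
  set a := seeds μ r c col f o I j with ha
  let P : Fin N → Prop := fun u => ∃ x, Near I.G r u x ∧ col I x = j
  rw [← Finset.sum_filter_add_sum_filter_not I.S P, ← Finset.sum_filter_add_sum_filter_not I.S P]
  have hS : I.S.filter P = I.S.biUnion (infl r c col I j) := by
    ext u
    simp only [mem_filter, mem_biUnion, infl, mem_univ, true_and, P]
    constructor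
    · rintro ⟨hu, x, hx, hc⟩
      exact ⟨c I x, I.mem_of_reachable (hx.reachable.trans (hreach x)) hu, x, hx, hc, rfl⟩
    · rintro ⟨z, hz, x, hx, hc, rfl⟩
      exact ⟨I.mem_of_reachable (hx.reachable.trans (hreach x)).symm hz, x, hx, hc⟩
  have hdisj : (I.S : Set (Fin N)).PairwiseDisjoint (infl r c col I j) := by
    intro z _ z' _ hzz
    rw [Function.onFun, Finset.disjoint_left]
    intro u hu hu'
    simp only [infl, mem_filter, mem_univ, true_and] at hu hu'
    obtain ⟨x, hx, hc, rfl⟩ := hu
    obtain ⟨x', hx', hc', rfl⟩ := hu'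
    exact hzz (hsep x x' (by omega) (hx.symm.trans' hx' (by omega)))
  refine add_le_add ?_ (le_of_eq (Finset.sum_congr rfl fun u hu => ?_))
  · rw [hS, Finset.sum_biUnion hdisj, Finset.sum_biUnion hdisj]
    refine Finset.sum_le_sum fun z _ => ?_
    have hg := @Classical.epsilon_spec (Fin N → Ω) (GoodVal μ r c col f I j a z)
      (exists_goodVal hf hm I hsep j a z)
    refine le_trans (le_of_eq (Finset.sum_congr rfl fun u hu => ?_)) hg
    refine condE_dep hf I (j + 1) u _ _ fun x hx => ?_
    simp only [infl, mem_filter, mem_univ, true_and] at hu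
    obtain ⟨x0, hx0, hc0, hz0⟩ := hu
    simp only [seeds]
    by_cases hcx : col I x = j
    · have : c I x = z := by
        rw [← hz0]
        exact hsep x x0 (by omega) (hx.symm.trans' hx0 (by omega))
      rw [if_pos hcx, if_pos ⟨hcx, this⟩, this]
    · rw [if_neg hcx, if_neg (fun h => hcx h.1)]
  · have hu' : ∀ x, Near I.G r u x → col I x ≠ j := by
      intro x hx hc
      exact (mem_filter.1 hu).2 ⟨x, hx, hc⟩
    have h1 : undet r col I (j + 1) u = undet r col I j u := by
      ext x
      simp only [undet, mem_filter, mem_univ, true_and]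
      constructor
      · rintro ⟨h1, h2⟩
        exact ⟨h1, by omega⟩
      · rintro ⟨h1, h2⟩
        have := hu' x h1
        exact ⟨h1, by omega⟩
    have h2 : condE μ r col f I (j + 1) u = condE μ r col f I j u := by
      funext b
      unfold condE
      rw [h1]
    rw [h2]
    refine condE_dep hf I j u _ _ fun x hx => ?_
    simp only [seeds]
    rw [if_neg (hu' x hx)]

lemma condE_view {C : Set (Inst N)} {T1 : ℕ} (hcol : Loc C T1 col) (hf : LocalWith r f)
    {I J : Inst N} (hI : I ∈ C) (hJ : J ∈ C) {u : Fin N} (hv : SameView (r + T1) u I J)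
    (j : ℕ) (a b : Fin N → Ω) (hab : ∀ x, Near I.G r u x → a x = b x) :
    condE μ r col f I j u a = condE μ r col f J j u b := by
  rw [condE_dep hf I j u a b hab]
  have h1 : undet r col I j u = undet r col J j u := by
    ext x
    simp only [undet, mem_filter, mem_univ, true_and]
    constructor
    · rintro ⟨h1, h2⟩
      exact ⟨(hv.near_iff (by omega) x).1 h1, hcol.at hI hJ hv h1 le_rfl ▸ h2⟩
    · rintro ⟨h1, h2⟩
      have h3 := (hv.near_iff (by omega) x).2 h1
      exact ⟨h3, (hcol.at hI hJ hv h3 le_rfl).symm ▸ h2⟩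
  have h2 : (fun b => f I b u) = fun b => f J b u := by
    funext b
    exact hf I J b b u (hv.mono (by omega)) fun _ _ => rfl
  unfold condE
  rw [h1, h2]

lemma seeds_loc {C : Set (Inst N)} {T1 : ℕ} {rad : ℕ → ℕ} (hc : Loc C T1 c)
    (hcol : Loc C T1 col) (hf : LocalWith r f)
    (hrad : ∀ I ∈ C, ∀ v, Near I.G (rad (col I v)) v (c I v)) (o : Ω) (j : ℕ) :
    Loc C (T1 + ∑ i ∈ range j, (2 * rad i + 2 * r)) fun I v => seeds μ r c col f o I j v := by
  induction j with
  | zero => intro I _ J _ v _; rfl
  | succ j ih =>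
    intro I hI J hJ v hv
    rw [Finset.sum_range_succ] at hv
    set τ := T1 + ∑ i ∈ range j, (2 * rad i + 2 * r) with hτ
    have hT : T1 ≤ τ := Nat.le_add_right _ _
    have hv' : SameView (τ + (2 * rad j + 2 * r)) v I J := by
      rw [hτ, add_assoc]; exact hv
    have e1 : col I v = col J v := hcol I hI J hJ v (hv'.mono (by omega))
    have e2 : c I v = c J v := hc I hI J hJ v (hv'.mono (by omega))
    have e3 := ih I hI J hJ v (hv'.mono (by omega))
    simp only [seeds]
    simp only at e3
    by_cases hcv : col I v = j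
    swap
    · rw [if_neg hcv, if_neg (e1 ▸ hcv), e3]
    rw [if_pos hcv, if_pos (e1 ▸ hcv), ← e2]
    set z := c I v with hz
    have key : ∀ {I J : Inst N}, I ∈ C → J ∈ C → SameView (τ + (2 * rad j + 2 * r)) v I J →
        col I v = j → c I v = z → ∀ x, col I x = j → c I x = z →
        Near I.G (2 * rad j) v x ∧ col J x = j ∧ c J x = z := by
      intro I J hI hJ hv h1 h2 x h3 h4
      have a1 := hrad I hI v
      have a2 := hrad I hI x
      rw [h1, h2] at a1
      rw [h3, h4] at a2
      have a3 : Near I.G (2 * rad j) v x := a1.trans' a2.symm (by omega)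
      exact ⟨a3, hcol.at hI hJ hv a3 (by omega) ▸ h3, hc.at hI hJ hv a3 (by omega) ▸ h4⟩
    have hW : ∀ x, (col I x = j ∧ c I x = z) ↔ (col J x = j ∧ c J x = z) := fun x =>
      ⟨fun h => (key hI hJ hv' hcv rfl x h.1 h.2).2,
        fun h => (key hJ hI hv'.symm (e1 ▸ hcv) e2.symm x h.1 h.2).2⟩
    have hnear : ∀ u ∈ infl r c col I j z, Near I.G (2 * rad j + r) v u := by
      intro u hu
      simp only [infl, mem_filter, mem_univ, true_and] at hu
      obtain ⟨x, hx, h1, h2⟩ := hu
      exact (key hI hJ hv' hcv rfl x h1 h2).1.trans hx.symm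
    have hX : infl r c col I j z = infl r c col J j z := by
      ext u
      simp only [infl, mem_filter, mem_univ, true_and]
      constructor
      · rintro ⟨x, hx, h⟩
        have b1 := (key hI hJ hv' hcv rfl x h.1 h.2).1.trans hx.symm
        exact ⟨x, ((hv'.shift b1 (t := r) (by omega)).near_iff le_rfl x).1 hx, (hW x).1 h⟩
      · rintro ⟨x, hx, h⟩
        have b1 := (key hJ hI hv'.symm (e1 ▸ hcv) e2.symm x h.1 h.2).1.trans hx.symm
        exact ⟨x, ((hv'.symm.shift b1 (t := r) (by omega)).near_iff le_rfl x).1 hx, (hW x).2 h⟩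
    have hG : GoodVal μ r c col f I j (seeds μ r c col f o I j) z =
        GoodVal μ r c col f J j (seeds μ r c col f o J j) z := by
      funext y
      unfold GoodVal
      rw [← hX]
      have hs : ∀ u ∈ infl r c col I j z, ∀ x, Near I.G r u x →
          seeds μ r c col f o I j x = seeds μ r c col f o J j x := by
        intro u hu x hx
        exact ih.at hI hJ hv' ((hnear u hu).trans hx) (by omega)
      congr 1
      · refine Finset.sum_congr rfl fun u hu => ?_
        refine condE_view hcol hf hI hJ (hv'.shift (hnear u hu) (by omega)) _ _ _ fun x hx => ?_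
        simp only [hW x, hs u hu x hx]
      · refine Finset.sum_congr rfl fun u hu => ?_
        exact condE_view hcol hf hI hJ (hv'.shift (hnear u hu) (by omega)) _ _ _ (hs u hu)
    rw [hG]

theorem derand [IsProbabilityMeasure μ] {C : Set (Inst N)} {T1 K : ℕ} {rad : ℕ → ℕ}
    (hc : Loc C T1 c) (hcol : Loc C T1 col) (hK : ∀ I ∈ C, ∀ v, col I v < K)
    (hrad : ∀ I ∈ C, ∀ v, Near I.G (rad (col I v)) v (c I v))
    (hsep : ∀ I ∈ C, ∀ v w, col I v = col I w → Near I.G (2 * r) v w → c I v = c I w)
    (hf : LocalWith r f) (hm : ∀ I u, Measurable fun a => f I a u) :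
    ∃ w : Inst N → Fin N → Ω, Loc C (T1 + ∑ i ∈ range K, (2 * rad i + 2 * r)) w ∧
      ∀ I ∈ C, ∑ u ∈ I.S, f I (w I) u ≤
        ∑ u ∈ I.S, ∫⁻ a, f I a u ∂(Measure.pi fun _ : Fin N => μ) := by
  classical
  obtain ⟨o⟩ : Nonempty Ω := nonempty_of_isProbabilityMeasure μ
  refine ⟨fun I v => seeds μ r c col f o I K v, seeds_loc hc hcol hf hrad o K, fun I hI => ?_⟩
  have hmono : ∀ j, ∑ u ∈ I.S, condE μ r col f I j u (seeds μ r c col f o I j) ≤
      ∑ u ∈ I.S, condE μ r col f I 0 u (seeds μ r c col f o I 0) := by
    intro j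
    induction j with
    | zero => exact le_rfl
    | succ j ih =>
      exact (potential_step hf hm I (hsep I hI) (fun v => (hrad I hI v).reachable) o j).trans ih
  refine le_trans (le_of_eq ?_) ((hmono K).trans (le_of_eq ?_))
  · refine Finset.sum_congr rfl fun u _ => ?_
    have : undet r col I K u = ∅ := by
      ext x
      have := hK I hI x
      simp only [undet, mem_filter, mem_univ, true_and, notMem_empty, iff_false, not_and]
      omega
    unfold condE
    rw [this, lmarginal_empty]
  · refine Finset.sum_congr rfl fun u _ => ?_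
    rw [lintegral_eq_lmarginal_univ (seeds μ r c col f o I 0),
      lmarg_filter (B := fun x => Near I.G r u x) (hm I u) (f_dep hf I u)]
    unfold condE
    congr 1
    ext x
    simp [undet]

end Main

end Pool.Agent.Lib.MP_559647_lc
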