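import Pool.Agent.Lib.MP_559647_lc.Basic

/-!
Greedy ball carving along a distance colouring. One round halves the remaining set locally, so a
bounded number of rounds covers every node of a graph of slow growth.
-/

namespace Pool.Agent.Lib.MP_559647_lc

open Finset

variable {N : ℕ}

open Classical in
/-- the nodes with property `W` within distance `t` of `v` -/
noncomputable def bl (G : SimpleGraph (Fin N)) (W : Fin N → Prop) (t : ℕ) (v : Fin N) :
    Finset (Fin N) := univ.filter fun x => Near G t v x ∧ W x

lemma mem_bl {G : SimpleGraph (Fin N)} {W : Fin N → Prop} {t : ℕ} {v x : Fin N} :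
    x ∈ bl G W t v ↔ Near G t v x ∧ W x := by
  classical
  simp [bl]

section Step

variable (G : SimpleGraph (Fin N)) (κ : Fin N → ℕ) (h m : ℕ)

/-- the radius chosen by the centre `c` among the live nodes `A` -/
noncomputable def tau (A : Fin N → Prop) (c : Fin N) : ℕ :=
  sInf {i | i < m ∧ (bl G A (h * (i + 1)) c).card ≤ 2 * (bl G A (h * i) c).card}

/-- `c` is a live centre of colour `j` that captures `x` -/
def Cap (A : Fin N → Prop) (j : ℕ) (x c : Fin N) : Prop :=
  κ c = j ∧ A c ∧ Near G (h * (tau G h m A c + 1)) c x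

open Classical in
/-- the state after the colours below `j` have acted -/
noncomputable def carveSt (W : Fin N → Prop) : ℕ → Fin N → Option (Fin N × Prop)
  | 0 => fun _ => none
  | j + 1 => fun x =>
      if (W x ∧ carveSt W j x = none) ∧ ∃ c, Cap G κ h m (fun y => W y ∧ carveSt W j y = none) j x c
      then some (@Classical.epsilon _ ⟨x⟩ (Cap G κ h m (fun y => W y ∧ carveSt W j y = none) j x),
        Near G (h * tau G h m (fun y => W y ∧ carveSt W j y = none)
          (@Classical.epsilon _ ⟨x⟩ (Cap G κ h m (fun y => W y ∧ carveSt W j y = none) j x)))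
          (@Classical.epsilon _ ⟨x⟩ (Cap G κ h m (fun y => W y ∧ carveSt W j y = none) j x)) x)
      else carveSt W j x

variable {G κ h m}

lemma tau_lt (hm : 0 < m) (A : Fin N → Prop) (c : Fin N) : tau G h m A c < m := by
  unfold tau
  rcases Set.eq_empty_or_nonempty
    {i | i < m ∧ (bl G A (h * (i + 1)) c).card ≤ 2 * (bl G A (h * i) c).card} with he | he
  · rw [he, Nat.sInf_empty]; exact hm
  · exact (Nat.sInf_mem he).1

lemma tau_spec {A : Fin N → Prop} {c : Fin N} (hc : A c)
    (hg : (bl G (fun _ => True) (h * m) c).card < 2 ^ m) :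
    (bl G A (h * (tau G h m A c + 1)) c).card ≤ 2 * (bl G A (h * tau G h m A c) c).card := by
  have he : {i | i < m ∧ (bl G A (h * (i + 1)) c).card ≤ 2 * (bl G A (h * i) c).card}.Nonempty := by
    by_contra hne
    have hall : ∀ i, i ≤ m → 2 ^ i ≤ (bl G A (h * i) c).card := by
      intro i
      induction i with
      | zero => intro _; exact Finset.card_pos.2 ⟨c, mem_bl.2 ⟨near_refl _ _, hc⟩⟩
      | succ i ih =>
        intro hi
        have h1 := ih (by omega)
        have h2 : ¬ (bl G A (h * (i + 1)) c).card ≤ 2 * (bl G A (h * i) c).card :=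
          fun h3 => hne ⟨i, by omega, h3⟩
        rw [pow_succ]
        omega
    have h1 := hall m le_rfl
    have h2 : (bl G A (h * m) c).card ≤ (bl G (fun _ => True) (h * m) c).card :=
      Finset.card_le_card fun x hx => mem_bl.2 ⟨(mem_bl.1 hx).1, trivial⟩
    omega
  exact (Nat.sInf_mem he).2

lemma Cap.near (hm : 0 < m) {A : Fin N → Prop} {j : ℕ} {x c : Fin N} (hc : Cap G κ h m A j x c) :
    Near G (h * m) c x :=
  hc.2.2.mono (Nat.mul_le_mul_left _ (tau_lt hm A c))

/-- the invariant of the carving process -/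
structure CInv (G : SimpleGraph (Fin N)) (κ : Fin N → ℕ) (h m : ℕ) (W : Fin N → Prop) (j : ℕ)
    (st : Fin N → Option (Fin N × Prop)) : Prop where
  own : ∀ x c b, st x = some (c, b) → W x ∧ κ c < j ∧ Near G (h * m) c x
  shield : ∀ x y c b, st x = some (c, b) → b → Near G h x y → W y → st y ≠ none
  sep : ∀ x y c b c' b', st x = some (c, b) → b → st y = some (c', b') → b' → Near G h x y → c = c'
  half : ∀ c, 2 * (bl G (fun x => ∃ b, st x = some (c, b) ∧ ¬ b) (h * m) c).card ≤
    (bl G (fun x => ∃ b, st x = some (c, b)) (h * m) c).card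
  done : ∀ x, W x → κ x < j → st x ≠ none

lemma carve_inv (hm : 0 < m) {W : Fin N → Prop}
    (hκ : ∀ x y, x ≠ y → Near G (2 * (h * m)) x y → κ x ≠ κ y)
    (hg : ∀ c, (bl G (fun _ => True) (h * m) c).card < 2 ^ m) (j : ℕ) :
    CInv G κ h m W j (carveSt G κ h m W j) := by
  classical
  induction j with
  | zero =>
    refine ⟨fun x c b e => ?_, fun x y c b e => ?_, fun x y c b c' b' e => ?_, fun c => ?_,
      fun x _ hx => absurd hx (by omega)⟩
    · simp [carveSt] at e
    · simp [carveSt] at e
    · simp [carveSt] at e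
    · have : bl G (fun x => ∃ b, carveSt G κ h m W 0 x = some (c, b) ∧ ¬ b) (h * m) c = ∅ := by
        ext x
        simp [mem_bl, carveSt]
      rw [this]
      simp
  | succ j ih =>
    set st := carveSt G κ h m W j with hst
    set A : Fin N → Prop := fun y => W y ∧ st y = none with hA
    have uniq : ∀ x c c', Cap G κ h m A j x c → Cap G κ h m A j x c' → c = c' := by
      intro x c c' h1 h2
      by_contra hne
      exact hκ c c' hne ((h1.near hm).trans' (h2.near hm).symm (by omega))
        (h1.1.trans h2.1.symm)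
    have new : ∀ x c, A x → Cap G κ h m A j x c →
        carveSt G κ h m W (j + 1) x = some (c, Near G (h * tau G h m A c) c x) := by
      intro x c hx hc
      have e : @Classical.epsilon _ ⟨x⟩ (Cap G κ h m A j x) = c :=
        uniq x _ _ (@Classical.epsilon_spec _ (Cap G κ h m A j x) ⟨c, hc⟩) hc
      simp only [carveSt]
      rw [if_pos ⟨hx, c, hc⟩, e]
    have old : ∀ x, ¬ (A x ∧ ∃ c, Cap G κ h m A j x c) → carveSt G κ h m W (j + 1) x = st x := by
      intro x hx
      simp only [carveSt]
      rw [if_neg hx]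
    have cases : ∀ x c b, carveSt G κ h m W (j + 1) x = some (c, b) →
        st x = some (c, b) ∨ (A x ∧ Cap G κ h m A j x c ∧ b = Near G (h * tau G h m A c) c x) := by
      intro x c b e
      by_cases hx : A x ∧ ∃ c, Cap G κ h m A j x c
      · obtain ⟨h1, c0, h2⟩ := hx
        rw [new x c0 h1 h2] at e
        simp only [Option.some.injEq, Prod.mk.injEq] at e
        obtain ⟨rfl, rfl⟩ := e
        exact Or.inr ⟨h1, h2, rfl⟩
      · exact Or.inl (old x hx ▸ e)
    have keep : ∀ x, st x ≠ none → carveSt G κ h m W (j + 1) x = st x :=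
      fun x hx => old x fun h1 => hx h1.1.2
    have keep' : ∀ x, st x ≠ none → carveSt G κ h m W (j + 1) x ≠ none :=
      fun x hx => by rw [keep x hx]; exact hx
    refine ⟨fun x c b e => ?_, fun x y c b e hb hn hy => ?_,
      fun x y c b c' b' e hb e' hb' hn => ?_, fun c => ?_, fun x hx hc => ?_⟩
    · rcases cases x c b e with h1 | ⟨h1, h2, -⟩
      · obtain ⟨a1, a2, a3⟩ := ih.own x c b h1
        exact ⟨a1, by omega, a3⟩
      · exact ⟨h1.1, by have := h2.1; omega, h2.near hm⟩
    · rcases cases x c b e with h1 | ⟨h1, h2, rfl⟩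
      · exact keep' y (ih.shield x y c b h1 hb hn hy)
      · by_cases hy' : st y = none
        · rw [new y c ⟨hy, hy'⟩ ⟨h2.1, h2.2.1, hb.trans' hn (by rw [Nat.mul_succ])⟩]
          simp
        · exact keep' y hy'
    · rcases cases x c b e with h1 | ⟨h1, h2, rfl⟩ <;>
        rcases cases y c' b' e' with h3 | ⟨h3, h4, rfl⟩
      · exact ih.sep x y c b c' b' h1 hb h3 hb' hn
      · exact absurd h3.2 (ih.shield x y c b h1 hb hn h3.1)
      · exact absurd h1.2 (ih.shield y x c' b' h3 hb' hn.symm h1.1)
      · exact uniq y c c' ⟨h2.1, h2.2.1, hb.trans' hn (by rw [Nat.mul_succ])⟩ h4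
    · by_cases hc : κ c = j
      · by_cases hAc : A c
        · have e1 : bl G (fun x => ∃ b, carveSt G κ h m W (j + 1) x = some (c, b)) (h * m) c =
              bl G A (h * (tau G h m A c + 1)) c := by
            ext x
            simp only [mem_bl]
            constructor
            · rintro ⟨-, b, e⟩
              rcases cases x c b e with h1 | ⟨h1, h2, -⟩
              · have := (ih.own x c b h1).2.1
                omega
              · exact ⟨h2.2.2, h1⟩
            · rintro ⟨h1, h2⟩
              have h3 : Cap G κ h m A j x c := ⟨hc, hAc, h1⟩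
              exact ⟨h3.near hm, _, new x c h2 h3⟩
          have e2 : bl G (fun x => ∃ b, carveSt G κ h m W (j + 1) x = some (c, b) ∧ ¬ b) (h * m) c ⊆
              bl G A (h * (tau G h m A c + 1)) c \ bl G A (h * tau G h m A c) c := by
            intro x
            simp only [mem_bl, mem_sdiff]
            rintro ⟨-, b, e, hb⟩
            rcases cases x c b e with h1 | ⟨h1, h2, rfl⟩
            · have := (ih.own x c b h1).2.1
              omega
            · exact ⟨⟨h2.2.2, h1⟩, fun h3 => hb h3.1⟩
          have e3 : bl G A (h * tau G h m A c) c ⊆ bl G A (h * (tau G h m A c + 1)) c :=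
            fun x hx => mem_bl.2 ⟨(mem_bl.1 hx).1.mono (by rw [Nat.mul_succ]; omega),
              (mem_bl.1 hx).2⟩
          have e4 := Finset.card_le_card e2
          rw [Finset.card_sdiff_of_subset e3] at e4
          have e5 := tau_spec hAc (hg c)
          rw [e1]
          omega
        · have : bl G (fun x => ∃ b, carveSt G κ h m W (j + 1) x = some (c, b) ∧ ¬ b) (h * m) c =
              ∅ := by
            ext x
            simp only [mem_bl, notMem_empty, iff_false]
            rintro ⟨-, b, e, -⟩
            rcases cases x c b e with h1 | ⟨-, h2, -⟩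
            · have := (ih.own x c b h1).2.1
              omega
            · exact hAc h2.2.1
          rw [this]
          simp
      · have e0 : ∀ x b, carveSt G κ h m W (j + 1) x = some (c, b) ↔ st x = some (c, b) := by
          intro x b
          constructor
          · intro e
            rcases cases x c b e with h1 | ⟨-, h2, -⟩
            · exact h1
            · exact absurd h2.1 hc
          · intro e
            rw [keep x (by rw [e]; simp), e]
        simp only [e0]
        exact ih.half c
    · by_cases hx' : st x = none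
      · have hj : κ x = j := by
          by_contra hne
          exact ih.done x hx (by omega) hx'
        rw [new x x ⟨hx, hx'⟩ ⟨hj, ⟨hx, hx'⟩, near_refl _ _⟩]
        simp
      · exact keep' x hx'

lemma CInv.halving {W : Fin N → Prop} {M : ℕ} {st : Fin N → Option (Fin N × Prop)}
    (hi : CInv G κ h m W M st) (hM : ∀ x, κ x < M) (u : Fin N) (t : ℕ) :
    2 * (bl G (fun x => W x ∧ ¬ ∃ c b, st x = some (c, b) ∧ b) t u).card ≤
      (bl G W (t + 2 * (h * m)) u).card := by
  classical
  set Z := bl G (fun _ => True) (t + h * m) u with hZ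
  have h1 : bl G (fun x => W x ∧ ¬ ∃ c b, st x = some (c, b) ∧ b) t u ⊆
      Z.biUnion fun c => bl G (fun x => ∃ b, st x = some (c, b) ∧ ¬ b) (h * m) c := by
    intro x hx
    obtain ⟨hn, hw, hb⟩ := mem_bl.1 hx
    obtain ⟨⟨c, b⟩, e⟩ := Option.ne_none_iff_exists'.1 (hi.done x hw (hM x))
    have h2 := (hi.own x c b e).2.2
    exact mem_biUnion.2 ⟨c, mem_bl.2 ⟨hn.trans h2.symm, trivial⟩,
      mem_bl.2 ⟨h2, b, e, fun h3 => hb ⟨c, b, e, h3⟩⟩⟩
  have h2 : (Z.biUnion fun c => bl G (fun x => ∃ b, st x = some (c, b)) (h * m) c) ⊆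
      bl G W (t + 2 * (h * m)) u := by
    intro x hx
    obtain ⟨c, hc, hx⟩ := mem_biUnion.1 hx
    obtain ⟨hn, b, e⟩ := mem_bl.1 hx
    exact mem_bl.2 ⟨(mem_bl.1 hc).1.trans' hn (by omega), (hi.own x c b e).1⟩
  have h3 : (Z : Set (Fin N)).PairwiseDisjoint
      fun c => bl G (fun x => ∃ b, st x = some (c, b)) (h * m) c := by
    intro c _ c' _ hne
    rw [Function.onFun, Finset.disjoint_left]
    intro x hx hx'
    obtain ⟨-, b, e⟩ := mem_bl.1 hx
    obtain ⟨-, b', e'⟩ := mem_bl.1 hx'
    rw [e] at e'
    simp only [Option.some.injEq, Prod.mk.injEq] at e'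
    exact hne e'.1
  have h4 := Finset.card_le_card h2
  rw [Finset.card_biUnion h3] at h4
  refine le_trans (Nat.mul_le_mul_left 2 ((Finset.card_le_card h1).trans Finset.card_biUnion_le))
    (le_trans ?_ h4)
  rw [Finset.mul_sum]
  exact Finset.sum_le_sum fun c _ => hi.half c

end Step

section Locality

variable {C : Set (Inst N)} {h m t : ℕ} {W : Inst N → Fin N → Prop} {κ : Inst N → Fin N → ℕ}

lemma bl_view {I J : Inst N} {A A' : Fin N → Prop} {s r : ℕ} {v : Fin N} (hv : SameView s v I J)
    (hr : r ≤ s) (hA : ∀ x, Near I.G r v x → A x = A' x) : bl I.G A r v = bl J.G A' r v := by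
  ext x
  simp only [mem_bl]
  constructor
  · rintro ⟨h1, h2⟩
    exact ⟨(hv.near_iff hr x).1 h1, hA x h1 ▸ h2⟩
  · rintro ⟨h1, h2⟩
    have h3 := (hv.near_iff hr x).2 h1
    exact ⟨h3, (hA x h3).symm ▸ h2⟩

lemma tau_view {I J : Inst N} {A A' : Fin N → Prop} {c : Fin N} (hv : SameView (h * m) c I J)
    (hA : ∀ x, Near I.G (h * m) c x → A x = A' x) : tau I.G h m A c = tau J.G h m A' c := by
  unfold tau
  congr 1
  ext i
  simp only [Set.mem_ofPred_eq]
  refine and_congr_right fun hi => ?_
  have h1 : h * (i + 1) ≤ h * m := Nat.mul_le_mul_left _ hi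
  have h2 : h * i ≤ h * m := Nat.mul_le_mul_left _ hi.le
  rw [bl_view hv h1 fun x hx => hA x (hx.mono h1), bl_view hv h2 fun x hx => hA x (hx.mono h2)]

lemma carve_loc (hm : 0 < m) (hW : Loc C t W) (hκ : Loc C t κ) (j : ℕ) :
    Loc C (j * (2 * (h * m)) + t) fun I x => carveSt I.G (κ I) h m (W I) j x := by
  classical
  induction j with
  | zero => intro I _ J _ v _; rfl
  | succ j ih =>
    intro I hI J hJ v hv
    set τ := j * (2 * (h * m)) + t with hτ
    have hv' : SameView (2 * (h * m) + τ) v I J := hv.mono (le_of_eq (by rw [hτ]; ring))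
    have ht : t ≤ τ := Nat.le_add_left _ _
    set A : Fin N → Prop := fun y => W I y ∧ carveSt I.G (κ I) h m (W I) j y = none with hA
    set A' : Fin N → Prop := fun y => W J y ∧ carveSt J.G (κ J) h m (W J) j y = none with hA'
    have eA : ∀ y, Near I.G (2 * (h * m)) v y → A y = A' y := by
      intro y hy
      have e1 := hW.at hI hJ hv' hy (by omega)
      have e2 := ih.at hI hJ hv' hy le_rfl
      simp only [hA, hA', e1, e2]
    have eT : ∀ c, Near I.G (h * m) v c → tau I.G h m A c = tau J.G h m A' c := fun c hc =>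
      tau_view (hv'.shift hc (by omega)) fun x hx => eA x (hc.trans' hx (by omega))
    have eN : ∀ c r, Near I.G (h * m) v c → r ≤ h * m → Near I.G r c v = Near J.G r c v :=
      fun c r hc hr => propext ((hv'.shift hc (t := h * m) (by omega)).near_iff hr v)
    have eC0 : ∀ c, Near I.G (h * m) v c →
        (Cap I.G (κ I) h m A j v c ↔ Cap J.G (κ J) h m A' j v c) := by
      intro c hc
      unfold Cap
      rw [hκ.at hI hJ hv' hc (by omega), eA c (hc.mono (by omega)), ← eT c hc,
        eN c _ hc (Nat.mul_le_mul_left _ (tau_lt hm A c))]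
    have eC : Cap I.G (κ I) h m A j v = Cap J.G (κ J) h m A' j v := by
      funext c
      refine propext ⟨fun h1 => (eC0 c (h1.near hm).symm).1 h1, fun h1 => (eC0 c ?_).2 h1⟩
      exact (hv'.near_iff (by omega) c).2 (h1.near hm).symm
    have e0 := eA v (near_refl _ _)
    have e1 := ih I hI J hJ v (hv'.mono (by omega))
    simp only at e1
    simp only [carveSt]
    by_cases hc : A v ∧ ∃ c, Cap I.G (κ I) h m A j v c
    · have hc' : A' v ∧ ∃ c, Cap J.G (κ J) h m A' j v c := by rw [← e0, ← eC]; exact hc
      have hs := (@Classical.epsilon_spec _ (Cap I.G (κ I) h m A j v) hc.2).near hm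
      rw [if_pos hc, if_pos hc', ← eC, ← eT _ hs.symm,
        eN _ _ hs.symm (Nat.mul_le_mul_left _ (tau_lt hm A _).le)]
    · have hc' : ¬ (A' v ∧ ∃ c, Cap J.G (κ J) h m A' j v c) := by rw [← e0, ← eC]; exact hc
      rw [if_neg hc, if_neg hc', e1]

/-- `s` rounds of carving. -/
theorem decomp {M : ℕ} (hm : 0 < m) (hκ : Loc C t κ) (hM : ∀ I ∈ C, ∀ x, κ I x < M)
    (hprop : ∀ I ∈ C, ∀ x y, x ≠ y → Near I.G (2 * (h * m)) x y → κ I x ≠ κ I y)
    (hg : ∀ I ∈ C, ∀ c, (bl I.G (fun _ => True) (h * m) c).card < 2 ^ m) (s : ℕ) :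
    ∃ (W : Inst N → Fin N → Prop) (col : Inst N → Fin N → ℕ) (c : Inst N → Fin N → Fin N),
      Loc C (s * (M * (2 * (h * m))) + t) W ∧ Loc C (s * (M * (2 * (h * m))) + t) col ∧
      Loc C (s * (M * (2 * (h * m))) + t) c ∧ ∀ I ∈ C,
        (∀ x, ¬ W I x → col I x < s ∧ Near I.G (h * m) x (c I x)) ∧
        (∀ x y, ¬ W I x → ¬ W I y → col I x = col I y → Near I.G h x y → c I x = c I y) ∧
        ∀ u r, 2 ^ s * (bl I.G (W I) r u).card ≤
          (bl I.G (fun _ => True) (r + s * (2 * (h * m))) u).card := by
  classical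
  induction s with
  | zero =>
    refine ⟨fun _ _ => True, fun _ _ => 0, fun _ x => x, fun _ _ _ _ _ _ => rfl,
      fun _ _ _ _ _ _ => rfl, fun _ _ _ _ _ _ => rfl, fun I _ => ⟨fun x hx => absurd trivial hx,
        fun x _ hx => absurd trivial hx, fun u r => by simp⟩⟩
  | succ s ih =>
    obtain ⟨W, col, c, l1, l2, l3, hp⟩ := ih
    set τ := s * (M * (2 * (h * m))) + t with hτ
    have hst := carve_loc (h := h) hm l1 (hκ.mono (show t ≤ τ from Nat.le_add_left _ _)) M
    set st : Inst N → Fin N → Option (Fin N × Prop) :=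
      fun I x => carveSt I.G (κ I) h m (W I) M x with hstd
    have hτ' : M * (2 * (h * m)) + τ = (s + 1) * (M * (2 * (h * m))) + t := by
      rw [hτ]; ring
    rw [hτ'] at hst
    have hle : τ ≤ (s + 1) * (M * (2 * (h * m))) + t := by omega
    refine ⟨fun I x => W I x ∧ ¬ ∃ z b, st I x = some (z, b) ∧ b,
      fun I x => if W I x then s else col I x,
      fun I x => if W I x then ((st I x).map Prod.fst).getD x else c I x, ?_, ?_, ?_,
      fun I hI => ?_⟩
    · intro I hI J hJ v hv
      simp only [l1 I hI J hJ v (hv.mono hle), hst I hI J hJ v hv]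
    · intro I hI J hJ v hv
      simp only [l1 I hI J hJ v (hv.mono hle), l2 I hI J hJ v (hv.mono hle)]
    · intro I hI J hJ v hv
      simp only [l1 I hI J hJ v (hv.mono hle), l3 I hI J hJ v (hv.mono hle), hst I hI J hJ v hv]
    · obtain ⟨p1, p2, p3⟩ := hp I hI
      have inv : CInv I.G (κ I) h m (W I) M (st I) := carve_inv hm (hprop I hI) (hg I hI) M
      have key : ∀ x, W I x → ¬ (W I x ∧ ¬ ∃ z b, st I x = some (z, b) ∧ b) →
          ∃ z b, st I x = some (z, b) ∧ b := fun x h1 h2 => by
        by_contra h3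
        exact h2 ⟨h1, h3⟩
      refine ⟨fun x hx => ?_, fun x y hx hy hc hn => ?_, fun u r => ?_⟩
      · by_cases hw : W I x
        · obtain ⟨z, b, e, -⟩ := key x hw hx
          simp only [if_pos hw, e, Option.map_some, Option.getD_some]
          exact ⟨by omega, (inv.own x z b e).2.2.symm⟩
        · simp only [if_neg hw]
          exact ⟨by have := (p1 x hw).1; omega, (p1 x hw).2⟩
      · by_cases hw : W I x <;> by_cases hw' : W I y
        · obtain ⟨z, b, e, hb⟩ := key x hw hx
          obtain ⟨z', b', e', hb'⟩ := key y hw' hy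
          simp only [if_pos hw, if_pos hw', e, e', Option.map_some, Option.getD_some]
          exact inv.sep x y z b z' b' e hb e' hb' hn
        · simp only [if_pos hw, if_neg hw'] at hc
          have := (p1 y hw').1
          omega
        · simp only [if_neg hw, if_pos hw'] at hc
          have := (p1 x hw).1
          omega
        · simp only [if_neg hw, if_neg hw'] at hc ⊢
          exact p2 x y hw hw' hc hn
      · have h1 := inv.halving (hM I hI) u r
        have h2 := p3 u (r + 2 * (h * m))
        have h3 : r + 2 * (h * m) + s * (2 * (h * m)) = r + (s + 1) * (2 * (h * m)) := by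
          ring
        rw [h3] at h2
        refine le_trans ?_ h2
        rw [pow_succ, mul_assoc]
        exact Nat.mul_le_mul_left _ h1

end Locality

end Pool.Agent.Lib.MP_559647_lc
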