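import Pool.Agent.Lib.MP_559647_lc.Defs

/-!
Growth bounds, checkers that use neither identifiers nor the number of nodes, and towers of twos.
-/

namespace Pool.Agent.Lib.MP_559647_lc

/-- Every ball of radius `t` has at most `exp (C t ^ a)` nodes. -/
def Growth {N : ℕ} (C a : ℝ) (I : Inst N) : Prop :=
  ∀ (v : Fin N) (t : ℕ),
    (({x | I.G.edist v x ≤ t} : Set (Fin N)).ncard : ℝ) ≤ Real.exp (C * (t : ℝ) ^ a)

/-- The radius-`t` view of `v` in `I` with outputs `o` equals the radius-`t` view of `w` in `J`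
with outputs `o'` after renaming the nodes. -/
def IsoView {N N' : ℕ} (t : ℕ) (I : Inst N) (o : Fin N → ℕ) (v : Fin N) (J : Inst N')
    (o' : Fin N' → ℕ) (w : Fin N') : Prop :=
  ∃ φ : Fin N → Fin N', φ v = w ∧ Set.InjOn φ {x | I.G.edist v x ≤ t} ∧
    (∀ x, I.G.edist v x < t → (∀ y, I.G.Adj x y → J.G.Adj (φ x) (φ y)) ∧
      ∀ y', J.G.Adj (φ x) y' → ∃ y, I.G.Adj x y ∧ φ y = y') ∧
    ∀ x, I.G.edist v x ≤ t → J.inp (φ x) = I.inp x ∧ o' (φ x) = o x

/-- A `p`-round checker whose verdict depends only on the radius-`p` view up to renaming. -/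
def Checker (p : ℕ) (acc : (N : ℕ) → Inst N → (Fin N → ℕ) → Fin N → Prop) : Prop :=
  ∀ (N N' : ℕ) (I : Inst N) (o : Fin N → ℕ) (v : Fin N) (J : Inst N') (o' : Fin N' → ℕ)
    (w : Fin N'), IsoView p I o v J o' w → (acc N I o v ↔ acc N' J o' w)

/-- The tower of `k` twos; `N ≤ tower k` says that the iterated logarithm of `N` is at most `k`. -/
def tower : ℕ → ℕ
  | 0 => 1
  | k + 1 => 2 ^ tower k

end Pool.Agent.Lib.MP_559647_lc
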