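import Pool.Agent.Lib.MP_559647_lc.Colour
import Pool.Agent.Lib.MP_559647_lc.G56Defs

/-!
Iterated colour reduction: a distance colouring with a bounded number of colours in a number of
rounds proportional to the iterated logarithm of the number of identifiers.
-/

namespace Pool.Agent.Lib.MP_559647_lc

variable {N : ℕ} {C : Set (Inst N)}

lemma cf_pow_le (b y : ℕ) : cf (2 ^ (4 * b + 16 + 2 * 2 ^ y)) (2 ^ b) ≤ 2 ^ (4 * b + 16 + 2 * y) := by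
  unfold cf
  rw [Nat.log_pow (by norm_num)]
  have h1 : 1 ≤ 2 ^ y := Nat.one_le_two_pow
  have h2 : 1 ≤ 2 ^ b := Nat.one_le_two_pow
  have h3 : b < 2 ^ b := Nat.lt_two_pow_self
  have h4 : 2 ^ b * (4 * b + 16 + 2 * 2 ^ y + 1) + 1 ≤ 2 ^ b * (128 * 2 ^ b) * 2 ^ y := by
    have a1 : 4 * b + 16 + 2 * 2 ^ y + 1 + 1 ≤ (4 * b + 20) * 2 ^ y := by nlinarith
    have a2 : 4 * b + 20 ≤ 128 * 2 ^ b := by omega
    calc 2 ^ b * (4 * b + 16 + 2 * 2 ^ y + 1) + 1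
        ≤ 2 ^ b * (4 * b + 16 + 2 * 2 ^ y + 1 + 1) := by nlinarith
      _ ≤ 2 ^ b * ((128 * 2 ^ b) * 2 ^ y) :=
          Nat.mul_le_mul_left _ (a1.trans (Nat.mul_le_mul_right _ a2))
      _ = _ := by ring
  calc 4 * (2 ^ b * (4 * b + 16 + 2 * 2 ^ y + 1) + 1) ^ 2
      ≤ 4 * (2 ^ b * (128 * 2 ^ b) * 2 ^ y) ^ 2 :=
        Nat.mul_le_mul_left _ (Nat.pow_le_pow_left h4 2)
    _ = 2 ^ (4 * b + 16 + 2 * y) := by ring

lemma colour_iter_aux {D b : ℕ}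
    (hdeg : ∀ I ∈ C, ∀ x, ∀ Y : Finset (Fin N), (∀ y ∈ Y, Near I.G D x y) → Y.card ≤ 2 ^ b)
    (j : ℕ) : ∀ (t : ℕ) (col : Inst N → Fin N → ℕ), Loc C t col →
      (∀ I ∈ C, ∀ x, col I x < 2 ^ (4 * b + 16 + 2 * tower j)) →
      (∀ I ∈ C, ∀ x y, x ≠ y → Near I.G D x y → col I x ≠ col I y) →
      ∃ col' : Inst N → Fin N → ℕ, Loc C (j * D + t) col' ∧
        (∀ I ∈ C, ∀ x, col' I x < 2 ^ (4 * b + 18)) ∧
        ∀ I ∈ C, ∀ x y, x ≠ y → Near I.G D x y → col' I x ≠ col' I y := by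
  induction j with
  | zero =>
    intro t col h1 h2 h3
    exact ⟨col, h1.mono (by omega), h2, h3⟩
  | succ j ih =>
    intro t col h1 h2 h3
    obtain ⟨c1, a1, a2, a3⟩ := colour_step (X := fun _ _ => True) (D := D) (Δ := 2 ^ b)
      (fun _ _ _ _ _ _ => rfl) h1 h2 (fun I hI x y _ _ => h3 I hI x y)
      (fun I hI x _ Y hY => hdeg I hI x Y fun y hy => (hY y hy).2)
    obtain ⟨c2, b1, b2, b3⟩ := ih (D + t) c1 a1
      (fun I hI x => lt_of_lt_of_le (a2 I hI x) (cf_pow_le b (tower j)))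
      (fun I hI x y => a3 I hI x y trivial trivial)
    exact ⟨c2, b1.mono (by rw [Nat.succ_mul]; omega), b2, b3⟩

lemma colour_iter {D b k : ℕ} (hN : N ≤ tower k)
    (hdeg : ∀ I ∈ C, ∀ x, ∀ Y : Finset (Fin N), (∀ y ∈ Y, Near I.G D x y) → Y.card ≤ 2 ^ b) :
    ∃ col : Inst N → Fin N → ℕ, Loc C (k * D) col ∧
      (∀ I ∈ C, ∀ x, col I x < 2 ^ (4 * b + 18)) ∧
      ∀ I ∈ C, ∀ x y, x ≠ y → Near I.G D x y → col I x ≠ col I y := by
  refine colour_iter_aux hdeg k 0 (fun _ x => x.val) (fun _ _ _ _ _ _ => rfl) (fun _ _ x => ?_)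
    (fun _ _ x y hxy _ h => hxy (Fin.ext h))
  have h1 : tower k < 2 ^ tower k := Nat.lt_two_pow_self
  have h2 : 2 ^ tower k ≤ 2 ^ (4 * b + 16 + 2 * tower k) :=
    Nat.pow_le_pow_right (by norm_num) (by omega)
  have := x.isLt
  omega

end Pool.Agent.Lib.MP_559647_lc
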