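import Pool.Agent.Lib.MP_559647_lc.Derand
import Pool.Agent.Lib.MP_559647_lc.G56Carve

/-!
Derandomisation along a clustering, with the potential summed over a ball only.
-/

namespace Pool.Agent.Lib.MP_559647_lc

open MeasureTheory Finset
open scoped ENNReal

variable {N : ℕ} {Ω : Type} [MeasurableSpace Ω] {μ : Measure Ω}
  {r : ℕ} {c : Inst N → Fin N → Fin N} {col : Inst N → Fin N → ℕ}
  {f : Inst N → (Fin N → Ω) → Fin N → ℝ≥0∞}

lemma potential_local [IsProbabilityMeasure μ] (hf : LocalWith r f)
    (hm : ∀ I u, Measurable fun a => f I a u) (I : Inst N) {ρ : ℕ}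
    (hsep : ∀ v w, col I v = col I w → Near I.G (2 * r) v w → c I v = c I w)
    (hrad : ∀ v, Near I.G ρ v (c I v)) (o : Ω) (j t : ℕ) (u0 : Fin N) :
    ∑ u ∈ bl I.G (fun _ => True) t u0,
        condE μ r col f I (j + 1) u (seeds μ r c col f o I (j + 1)) ≤
      ∑ u ∈ bl I.G (fun _ => True) (t + (2 * ρ + 2 * r)) u0,
        condE μ r col f I j u (seeds μ r c col f o I j) := by
  classical
  set a := seeds μ r c col f o I j with ha
  let P : Fin N → Prop := fun u => ∃ x, Near I.G r u x ∧ col I x = j
  rw [← Finset.sum_filter_add_sum_filter_not _ P, ← Finset.sum_filter_add_sum_filter_not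
    (bl I.G (fun _ => True) (t + (2 * ρ + 2 * r)) u0) P]
  set Z := bl I.G (fun _ => True) (t + (r + ρ)) u0 with hZ
  have hS : (bl I.G (fun _ => True) t u0).filter P ⊆ Z.biUnion (infl r c col I j) := by
    intro u
    simp only [mem_filter, mem_biUnion, infl, mem_univ, true_and, P, hZ, mem_bl, and_true]
    rintro ⟨hu, x, hx, hc⟩
    exact ⟨c I x, hu.trans (hx.trans (hrad x)), x, hx, hc, rfl⟩
  have hS' : Z.biUnion (infl r c col I j) ⊆
      (bl I.G (fun _ => True) (t + (2 * ρ + 2 * r)) u0).filter P := by
    intro u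
    simp only [mem_filter, mem_biUnion, infl, mem_univ, true_and, P, hZ, mem_bl, and_true]
    rintro ⟨z, hz, x, hx, hc, rfl⟩
    exact ⟨hz.trans' ((hrad x).symm.trans hx.symm) (by omega), x, hx, hc⟩
  have hdisj : (Z : Set (Fin N)).PairwiseDisjoint (infl r c col I j) := by
    intro z _ z' _ hzz
    rw [Function.onFun, Finset.disjoint_left]
    intro u hu hu'
    simp only [infl, mem_filter, mem_univ, true_and] at hu hu'
    obtain ⟨x, hx, hc, rfl⟩ := hu
    obtain ⟨x', hx', hc', rfl⟩ := hu'
    exact hzz (hsep x x' (by omega) (hx.symm.trans' hx' (by omega)))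
  refine add_le_add ?_ ?_
  · refine (Finset.sum_le_sum_of_subset hS).trans
      (le_trans ?_ (Finset.sum_le_sum_of_subset hS'))
    rw [Finset.sum_biUnion hdisj, Finset.sum_biUnion hdisj]
    refine Finset.sum_le_sum fun z _ => ?_
    have hg := @Classical.epsilon_spec (Fin N → Ω) (GoodVal μ r c col f I j a z)
      (exists_goodVal hf hm I hsep j a z)
    refine le_trans (le_of_eq (Finset.sum_congr rfl fun u hu => ?_)) hg
    refine condE_dep hf I (j + 1) u _ _ fun x hx => ?_
    simp only [infl, mem_filter, mem_univ, true_and] at hu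
    obtain ⟨x0, hx0, hc0, hz0⟩ := hu
    simp only [seeds]
    by_cases hcx : col I x = j
    · have : c I x = z := by
        rw [← hz0]
        exact hsep x x0 (by omega) (hx.symm.trans' hx0 (by omega))
      rw [if_pos hcx, if_pos ⟨hcx, this⟩, this]
    · rw [if_neg hcx, if_neg (fun h => hcx h.1)]
  · refine le_trans (le_of_eq (Finset.sum_congr rfl fun u hu => ?_))
      (Finset.sum_le_sum_of_subset (Finset.filter_subset_filter _ fun u hu =>
        mem_bl.2 ⟨(mem_bl.1 hu).1.mono (by omega), trivial⟩))
    have hu' : ∀ x, Near I.G r u x → col I x ≠ j := by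
      intro x hx hc
      exact (mem_filter.1 hu).2 ⟨x, hx, hc⟩
    have h1 : undet r col I (j + 1) u = undet r col I j u := by
      ext x
      simp only [undet, mem_filter, mem_univ, true_and]
      constructor
      · rintro ⟨h1, h2⟩
        exact ⟨h1, by omega⟩
      · rintro ⟨h1, h2⟩
        have := hu' x h1
        exact ⟨h1, by omega⟩
    have h2 : condE μ r col f I (j + 1) u = condE μ r col f I j u := by
      funext b
      unfold condE
      rw [h1]
    rw [h2]
    refine condE_dep hf I j u _ _ fun x hx => ?_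
    simp only [seeds]
    rw [if_neg (hu' x hx)]

theorem derand_local [IsProbabilityMeasure μ] {C : Set (Inst N)} {T1 K ρ : ℕ}
    (hc : Loc C T1 c) (hcol : Loc C T1 col) (hK : ∀ I ∈ C, ∀ v, col I v < K)
    (hrad : ∀ I ∈ C, ∀ v, Near I.G ρ v (c I v))
    (hsep : ∀ I ∈ C, ∀ v w, col I v = col I w → Near I.G (2 * r) v w → c I v = c I w)
    (hf : LocalWith r f) (hm : ∀ I u, Measurable fun a => f I a u) :
    ∃ w : Inst N → Fin N → Ω, Loc C (T1 + K * (2 * ρ + 2 * r)) w ∧
      ∀ I ∈ C, ∀ u0, f I (w I) u0 ≤ ∑ u ∈ bl I.G (fun _ => True) (K * (2 * ρ + 2 * r)) u0,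
        ∫⁻ a, f I a u ∂(Measure.pi fun _ : Fin N => μ) := by
  classical
  obtain ⟨o⟩ : Nonempty Ω := nonempty_of_isProbabilityMeasure μ
  have hl := seeds_loc (μ := μ) (rad := fun _ => ρ) hc hcol hf hrad o K
  rw [Finset.sum_const, Finset.card_range, smul_eq_mul] at hl
  refine ⟨fun I v => seeds μ r c col f o I K v, hl, fun I hI u0 => ?_⟩
  have hmono : ∀ j t, ∑ u ∈ bl I.G (fun _ => True) t u0,
      condE μ r col f I j u (seeds μ r c col f o I j) ≤
      ∑ u ∈ bl I.G (fun _ => True) (t + j * (2 * ρ + 2 * r)) u0,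
        condE μ r col f I 0 u (seeds μ r c col f o I 0) := by
    intro j
    induction j with
    | zero => intro t; simp
    | succ j ih =>
      intro t
      refine (potential_local hf hm I (hsep I hI) (hrad I hI) o j t u0).trans
        ((ih _).trans (le_of_eq ?_))
      congr 2
      ring
  have h0 := hmono K 0
  rw [zero_add] at h0
  refine le_trans ?_ (h0.trans (le_of_eq ?_))
  · refine le_trans (le_of_eq ?_) (Finset.single_le_sum (f := fun u =>
      condE μ r col f I K u (seeds μ r c col f o I K)) (fun _ _ => zero_le)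
      (mem_bl.2 ⟨near_refl 0 u0, trivial⟩))
    have : undet r col I K u0 = ∅ := by
      ext x
      have := hK I hI x
      simp only [undet, mem_filter, mem_univ, true_and, notMem_empty, iff_false, not_and]
      omega
    unfold condE
    rw [this, lmarginal_empty]
  · refine Finset.sum_congr rfl fun u _ => ?_
    rw [lintegral_eq_lmarginal_univ (seeds μ r c col f o I 0),
      lmarg_filter (B := fun x => Near I.G r u x) (hm I u) (f_dep hf I u)]
    unfold condE
    congr 1
    ext x
    simp [undet]

end Pool.Agent.Lib.MP_559647_lc
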