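import Mathlib

/-!
Product measures under an injective renaming of coordinates.
-/

namespace Pool.Agent.Lib.MP_559647_lc

open MeasureTheory ProbabilityTheory

variable {Ω : Type} [MeasurableSpace Ω] {μ : Measure Ω} [IsProbabilityMeasure μ]

lemma map_comp_inj {ι κ : Type} [Fintype ι] [Fintype κ] {e : ι → κ} (he : Function.Injective e) :
    (Measure.pi fun _ : κ => μ).map (fun a i => a (e i)) = Measure.pi fun _ : ι => μ := by
  have h1 : iIndepFun (fun (k : κ) (a : κ → Ω) => a k) (Measure.pi fun _ : κ => μ) :=
    iIndepFun_pi (X := fun _ => id) (fun _ => aemeasurable_id)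
  have h2 := h1.precomp he
  rw [iIndepFun_iff_map_fun_eq_pi_map (fun i => (measurable_pi_apply (e i)).aemeasurable)] at h2
  rw [h2]
  congr 1
  funext i
  exact (measurePreserving_eval (fun _ : κ => μ) (e i)).map_eq

/-- An event that depends only on the coordinates in `D` has the same probability after a
renaming of coordinates that is injective on `D`. -/
lemma meas_rename {ι κ : Type} [Fintype ι] [Fintype κ] {ψ : ι → κ} {D : ι → Prop}
    (hψ : ∀ i j, D i → D j → ψ i = ψ j → i = j) {E : Set (ι → Ω)} (hE : MeasurableSet E)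
    (hD : ∀ b b', (∀ i, D i → b i = b' i) → b ∈ E → b' ∈ E) :
    (Measure.pi fun _ : κ => μ) {a | (fun i => a (ψ i)) ∈ E} = (Measure.pi fun _ : ι => μ) E := by
  classical
  obtain ⟨o⟩ : Nonempty Ω := nonempty_of_isProbabilityMeasure μ
  let ext : ({i // D i} → Ω) → ι → Ω := fun c i => if h : D i then c ⟨i, h⟩ else o
  have hext : Measurable ext := by
    refine measurable_pi_lambda _ fun i => ?_
    by_cases h : D i
    · simp only [ext, dif_pos h]
      exact measurable_pi_apply _
    · simp only [ext, dif_neg h]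
      exact measurable_const
  have hE' : MeasurableSet (ext ⁻¹' E) := hext hE
  have a1 := map_comp_inj (μ := μ) (e := fun i : {i // D i} => ψ i.1)
    (fun i j h => Subtype.ext (hψ _ _ i.2 j.2 h))
  have a2 := map_comp_inj (μ := μ) (e := fun i : {i // D i} => i.1) Subtype.val_injective
  have m1 : Measurable fun (a : κ → Ω) (i : {i // D i}) => a (ψ i.1) :=
    measurable_pi_lambda _ fun i => measurable_pi_apply _
  have m2 : Measurable fun (a : ι → Ω) (i : {i // D i}) => a i.1 :=
    measurable_pi_lambda _ fun i => measurable_pi_apply _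
  have b1 := congrArg (fun ν => ν (ext ⁻¹' E)) a1
  have b2 := congrArg (fun ν => ν (ext ⁻¹' E)) a2
  rw [Measure.map_apply m1 hE'] at b1
  rw [Measure.map_apply m2 hE'] at b2
  rw [← b2] at b1
  have c1 : {a : κ → Ω | (fun i => a (ψ i)) ∈ E} =
      (fun (a : κ → Ω) (i : {i // D i}) => a (ψ i.1)) ⁻¹' (ext ⁻¹' E) := by
    ext a
    simp only [Set.mem_ofPred_eq, Set.mem_preimage]
    constructor
    · exact hD _ _ fun i hi => by simp only [ext, dif_pos hi]
    · exact hD _ _ fun i hi => by simp only [ext, dif_pos hi]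
  have c2 : E = (fun (a : ι → Ω) (i : {i // D i}) => a i.1) ⁻¹' (ext ⁻¹' E) := by
    ext a
    simp only [Set.mem_preimage]
    constructor
    · exact hD _ _ fun i hi => by simp only [ext, dif_pos hi]
    · exact hD _ _ fun i hi => by simp only [ext, dif_pos hi]
  rw [c1, b1, ← c2]

end Pool.Agent.Lib.MP_559647_lc
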