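import Pool.Agent.Lib.MP_559647_lc.Basic
import Pool.Agent.Lib.MP_559647_lc.G56Defs
import Pool.Agent.Lib.MP_559647_lc.G56Meas

/-!
Running an algorithm for `n`-node instances on a large instance: every node renames the nodes of
its ball by their colours.
-/

namespace Pool.Agent.Lib.MP_559647_lc

open MeasureTheory Finset
open scoped ENNReal

variable {N M n : ℕ} (hn : 0 < n) (hM : n ≤ M) (H : ℕ)

/-- the colour kept in the label, as an identifier -/
def fc (I : Inst N) (y : Fin N) : Fin M :=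
  ⟨(Nat.unpair (I.inp y)).2 % n, lt_of_lt_of_le (Nat.mod_lt _ hn) hM⟩

open Classical in
/-- the node of the ball around `u` with a given colour -/
noncomputable def psi (I : Inst N) (u : Fin N) (i : Fin M) : Fin N :=
  if ∃ y, Near I.G H u y ∧ fc hn hM I y = i then
    @Classical.epsilon _ ⟨u⟩ (fun y => Near I.G H u y ∧ fc hn hM I y = i) else u

/-- the ball around `u` with nodes renamed by their colours, padded to `n` nodes -/
noncomputable def push (I : Inst N) (u : Fin N) : Inst M where
  S := univ.filter fun i => i.val < n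
  G :=
    { Adj := fun i k => i ≠ k ∧ ∃ y z, Near I.G H u y ∧ Near I.G H u z ∧ I.G.Adj y z ∧
        fc hn hM I y = i ∧ fc hn hM I z = k
      symm := ⟨fun _ _ ⟨h, y, z, hy, hz, hyz, e1, e2⟩ => ⟨h.symm, z, y, hz, hy, hyz.symm, e2, e1⟩⟩
      loopless := ⟨fun _ h => h.1 rfl⟩ }
  inp := fun i => (Nat.unpair (I.inp (psi hn hM H I u i))).1
  mem_of_adj := by
    rintro _ k ⟨-, y, z, -, -, -, rfl, -⟩
    simp only [mem_filter, mem_univ, true_and, fc]
    exact Nat.mod_lt _ hn

variable {H}

lemma push_adj (I : Inst N) (u : Fin N) (i k : Fin M) : (push hn hM H I u).G.Adj i k ↔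
    i ≠ k ∧ ∃ y z, Near I.G H u y ∧ Near I.G H u z ∧ I.G.Adj y z ∧
      fc hn hM I y = i ∧ fc hn hM I z = k := Iff.rfl

lemma psi_near (I : Inst N) (u : Fin N) (i : Fin M) : Near I.G H u (psi hn hM H I u i) := by
  unfold psi
  split_ifs with h
  · exact (Classical.epsilon_spec h).1
  · exact near_refl _ _

lemma psi_spec {I : Inst N} {u y : Fin N} (hy : Near I.G H u y) :
    fc hn hM I (psi hn hM H I u (fc hn hM I y)) = fc hn hM I y := by
  have h : ∃ z, Near I.G H u z ∧ fc hn hM I z = fc hn hM I y := ⟨y, hy, rfl⟩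
  unfold psi
  rw [if_pos h]
  exact (Classical.epsilon_spec h).2

lemma fc_view {I J : Inst N} {u y : Fin N} {t : ℕ} (hv : SameView t u I J) (hy : Near I.G t u y) :
    fc hn hM I y = fc hn hM J y := by
  unfold fc
  simp only [hv.2 y hy]

lemma psi_view {I J : Inst N} {u : Fin N} (hv : SameView (H + 1) u I J) :
    psi hn hM H I u = psi hn hM H J u := by
  funext i
  have hp : (fun y => Near I.G H u y ∧ fc hn hM I y = i) =
      fun y => Near J.G H u y ∧ fc hn hM J y = i := by
    funext y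
    apply propext
    constructor
    · rintro ⟨h1, h2⟩
      exact ⟨(hv.near_iff (by omega) y).1 h1, fc_view hn hM hv (h1.mono (by omega)) ▸ h2⟩
    · rintro ⟨h1, h2⟩
      have h3 := (hv.near_iff (by omega) y).2 h1
      exact ⟨h3, (fc_view hn hM hv (h3.mono (by omega))).symm ▸ h2⟩
  have he : (∃ y, Near I.G H u y ∧ fc hn hM I y = i) ↔ ∃ y, Near J.G H u y ∧ fc hn hM J y = i :=
    exists_congr fun y => iff_of_eq (congrFun hp y)
  unfold psi
  by_cases h : ∃ y, Near I.G H u y ∧ fc hn hM I y = i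
  · rw [if_pos h, if_pos (he.1 h), hp]
  · rw [if_neg h, if_neg (fun h' => h (he.2 h'))]

lemma push_view {I J : Inst N} {u : Fin N} (hv : SameView (H + 1) u I J) :
    push hn hM H I u = push hn hM H J u := by
  have key : ∀ {I J : Inst N}, SameView (H + 1) u I J → ∀ i k, (push hn hM H I u).G.Adj i k →
      (push hn hM H J u).G.Adj i k := by
    rintro I J hv i k ⟨h, y, z, hy, hz, hyz, e1, e2⟩
    exact ⟨h, y, z, (hv.near_iff (by omega) y).1 hy, (hv.near_iff (by omega) z).1 hz,
      (hv.adj_iff hy (by omega) z).1 hyz, fc_view hn hM hv (hy.mono (by omega)) ▸ e1,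
      fc_view hn hM hv (hz.mono (by omega)) ▸ e2⟩
  have hG : (push hn hM H I u).G = (push hn hM H J u).G := by
    ext i k
    exact ⟨key hv i k, key hv.symm i k⟩
  have hi : (push hn hM H I u).inp = (push hn hM H J u).inp := by
    funext i
    show (Nat.unpair (I.inp (psi hn hM H I u i))).1 = (Nat.unpair (J.inp (psi hn hM H J u i))).1
    rw [← psi_view hn hM hv, hv.2 _ ((psi_near hn hM I u i).mono (Nat.le_succ H))]
  have hS : (push hn hM H I u).S = (push hn hM H J u).S := rfl
  generalize push hn hM H I u = X at *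
  generalize push hn hM H J u = Y at *
  cases X
  cases Y
  simp only at hG hi hS
  subst hG hi hS
  rfl

section Proper

variable {I : Inst N}
  (hp : ∀ x y, x ≠ y → Near I.G (2 * H) x y → fc hn hM I x ≠ fc hn hM I y)
include hp

lemma fc_inj {u y z : Fin N} (hy : Near I.G H u y) (hz : Near I.G H u z)
    (h : fc hn hM I y = fc hn hM I z) : y = z := by
  by_contra hne
  exact hp y z hne (hy.symm.trans' hz (by omega)) h

lemma psi_fc {u y : Fin N} (hy : Near I.G H u y) : psi hn hM H I u (fc hn hM I y) = y :=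
  fc_inj hn hM hp (psi_near hn hM I u _) hy (psi_spec hn hM hy)

lemma push_adj_of {u y : Fin N} {s : ℕ} (hy : Near I.G s u y) (hs : s < H) (k : Fin M) :
    (push hn hM H I u).G.Adj (fc hn hM I y) k ↔ ∃ z, I.G.Adj y z ∧ fc hn hM I z = k := by
  constructor
  · rintro ⟨-, y', z, hy', -, hyz, e1, e2⟩
    obtain rfl := fc_inj hn hM hp hy' (hy.mono hs.le) e1
    exact ⟨z, hyz, e2⟩
  · rintro ⟨z, hyz, rfl⟩
    have hz : Near I.G H u z := hy.trans' (near_of_adj hyz) hs
    exact ⟨fun h => hyz.ne (fc_inj hn hM hp (hy.mono hs.le) hz h), y, z, hy.mono hs.le, hz, hyz,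
      rfl, rfl⟩

lemma push_near {u : Fin N} {i k : Fin M} (q : (push hn hM H I u).G.Walk i k) :
    Near I.G q.length (psi hn hM H I u i) (psi hn hM H I u k) ∧
      (i = k ∨ ∃ y z, Near I.G H u y ∧ Near I.G H u z ∧ fc hn hM I y = i ∧ fc hn hM I z = k) := by
  induction q with
  | nil => exact ⟨near_refl _ _, Or.inl rfl⟩
  | @cons a b c hab q ih =>
    obtain ⟨-, y, z, hy, hz, hyz, rfl, rfl⟩ := hab
    rw [psi_fc hn hM hp hz] at ih
    rw [psi_fc hn hM hp hy]
    refine ⟨(near_of_adj hyz).trans' ih.1 (by simp [add_comm]), Or.inr ?_⟩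
    rcases ih.2 with h | ⟨_, z', -, hz', -, e⟩
    · exact ⟨y, z, hy, hz, rfl, h⟩
    · exact ⟨y, z', hy, hz', rfl, e⟩

lemma push_lift {u x : Fin N} {t : ℕ} {k : Fin M} (hx : Near I.G H u x)
    (hk : Near (push hn hM H I u).G t (fc hn hM I x) k) :
    ∃ z, Near I.G t x z ∧ Near I.G H u z ∧ fc hn hM I z = k := by
  obtain ⟨q, hq⟩ := near_iff_walk.1 hk
  obtain ⟨h1, h2⟩ := push_near hn hM hp q
  rw [psi_fc hn hM hp hx] at h1
  rcases h2 with h | ⟨_, z, -, hz, -, rfl⟩
  · exact ⟨x, near_refl _ _, hx, h⟩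
  · rw [psi_fc hn hM hp hz] at h1
    exact ⟨z, h1.mono hq, hz, rfl⟩

lemma push_growth {C a : ℝ} (hg : Growth C a I) (u : Fin N) : Growth C a (push hn hM H I u) := by
  intro i t
  refine le_trans ?_ (hg (psi hn hM H I u i) t)
  have : ({x | (push hn hM H I u).G.edist i x ≤ t} : Set (Fin M)).ncard ≤
      ({x | I.G.edist (psi hn hM H I u i) x ≤ t} : Set (Fin N)).ncard := by
    refine Set.ncard_le_ncard_of_injOn (psi hn hM H I u) (fun k hk => ?_)
      (fun k hk k' hk' e => ?_) (Set.toFinite _)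
    · obtain ⟨q, hq⟩ := near_iff_walk.1 hk
      exact (push_near hn hM hp q).1.mono hq
    · obtain ⟨q, hq⟩ := near_iff_walk.1 hk
      obtain ⟨q', hq'⟩ := near_iff_walk.1 hk'
      rcases (push_near hn hM hp (q.reverse.append q')).2 with h | ⟨y, z, hy, hz, rfl, rfl⟩
      · exact h
      · rw [psi_fc hn hM hp hy, psi_fc hn hM hp hz] at e
        rw [e]
  exact_mod_cast this

lemma push_same {u x : Fin N} {j t : ℕ} (hx : Near I.G j u x) (ht : j + t ≤ H) :
    SameView t (fc hn hM I x) (push hn hM H I x) (push hn hM H I u) ∧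
      ∀ k, Near (push hn hM H I x).G t (fc hn hM I x) k →
        psi hn hM H I x k = psi hn hM H I u k := by
  have h2 : ∀ k, Near (push hn hM H I x).G t (fc hn hM I x) k →
      psi hn hM H I x k = psi hn hM H I u k := by
    intro k hk
    obtain ⟨z, hz, hz', rfl⟩ := push_lift hn hM hp (near_refl H x) hk
    rw [psi_fc hn hM hp hz', psi_fc hn hM hp (hx.trans' hz ht)]
  refine ⟨⟨fun k k' hk => ?_, fun k hk => ?_⟩, h2⟩
  · obtain ⟨s, hs, hk⟩ := edist_lt_iff.1 hk
    obtain ⟨z, hz, hz', rfl⟩ := push_lift hn hM hp (near_refl H x) hk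
    rw [push_adj_of hn hM hp hz (by omega), push_adj_of hn hM hp (hx.trans hz) (by omega)]
  · show (Nat.unpair (I.inp (psi hn hM H I x k))).1 = (Nat.unpair (I.inp (psi hn hM H I u k))).1
    rw [h2 k hk]

end Proper

/-- the instance with a colouring added to the labels -/
def lab (I : Inst N) (κ : Fin N → ℕ) : Inst N :=
  ⟨I.S, I.G, fun x => Nat.pair (I.inp x) (κ x), I.mem_of_adj⟩

lemma isoView_refl (t : ℕ) {I : Inst N} {o o' : Fin N → ℕ} {v : Fin N}
    (h : ∀ x, Near I.G t v x → o' x = o x) : IsoView t I o v I o' v :=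
  ⟨id, rfl, Set.injOn_id _, fun _ _ => ⟨fun _ h => h, fun y h => ⟨y, h, rfl⟩⟩,
    fun x hx => ⟨rfl, h x hx⟩⟩

include hn hM in
theorem push_main {R p : ℕ} {C a : ℝ} {L : Set ℕ}
    {acc : (N : ℕ) → Inst N → (Fin N → ℕ) → Fin N → Prop} (hacc : Checker p acc)
    {Ω : Type} [MeasurableSpace Ω] {μ : Measure Ω} [IsProbabilityMeasure μ]
    {A : Inst M → (Fin M → Ω) → Fin M → ℕ} (hA : LocalWith R A)
    (hm : ∀ I v, Measurable fun x => A I x v)
    (hs : ∀ I : Inst M, I.S.card = n → Growth C a I → (∀ x ∈ I.S, I.inp x ∈ L) →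
      (Measure.pi fun _ => μ) {x | ¬ ∀ v ∈ I.S, acc M I (A I x) v} ≤ 1 / n) :
    ∃ (f : Inst N → (Fin N → Ω) → Fin N → ℝ≥0∞) (A' : Inst N → (Fin N → Ω) → Fin N → ℕ),
      LocalWith (R + p + 1) f ∧ (∀ I u, Measurable fun x => f I x u) ∧ LocalWith (R + p + 1) A' ∧
      ∀ (I : Inst N) (κ : Fin N → ℕ), Growth C a I → (∀ x ∈ I.S, I.inp x ∈ L) → (∀ x, κ x < n) →
        (∀ x y, x ≠ y → Near I.G (2 * (R + p)) x y → κ x ≠ κ y) → ∀ u ∈ I.S,
          ∫⁻ x, f (lab I κ) x u ∂(Measure.pi fun _ : Fin N => μ) ≤ 1 / n ∧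
          ∀ w, f (lab I κ) w u < 1 → acc N I (A' (lab I κ) w) u := by
  classical
  set H := R + p with hH
  let E : Inst M → Fin M → Set (Fin M → Ω) := fun J i => {b | ¬ acc M J (A J b) i}
  have hE : ∀ J i, MeasurableSet (E J i) := by
    intro J i
    have h1 : Measurable fun b => A J b := measurable_pi_lambda _ (hm J)
    exact h1 (Set.to_countable {o : Fin M → ℕ | ¬ acc M J o i}).measurableSet
  have hE' : ∀ (I : Inst N) u, MeasurableSet
      {x : Fin N → Ω | (fun i => x (psi hn hM H I u i)) ∈ E (push hn hM H I u) (fc hn hM I u)} :=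
    fun I u => (measurable_pi_lambda _ fun i => measurable_pi_apply _) (hE _ _)
  refine ⟨fun I x u => Set.indicator
      {x | (fun i => x (psi hn hM H I u i)) ∈ E (push hn hM H I u) (fc hn hM I u)} 1 x,
    fun I x u => A (push hn hM H I u) (fun i => x (psi hn hM H I u i)) (fc hn hM I u),
    fun I J x x' u hv hx => ?_, fun I u => measurable_one.indicator (hE' I u),
    fun I J x x' u hv hx => ?_, fun I κ hg hL hκ hprop u hu => ?_⟩
  · have e : (fun i => x (psi hn hM H I u i)) = fun i => x' (psi hn hM H I u i) :=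
      funext fun i => hx _ ((psi_near hn hM I u i).mono (Nat.le_succ H))
    simp only [Set.indicator, Set.mem_ofPred_eq, Pi.one_apply]
    rw [← push_view hn hM hv, ← psi_view hn hM hv, ← fc_view hn hM hv (near_refl _ _), e]
  · have e : (fun i => x (psi hn hM H I u i)) = fun i => x' (psi hn hM H I u i) :=
      funext fun i => hx _ ((psi_near hn hM I u i).mono (Nat.le_succ H))
    simp only
    rw [← push_view hn hM hv, ← psi_view hn hM hv, ← fc_view hn hM hv (near_refl _ _), e]
  · have hp : ∀ x y, x ≠ y → Near (lab I κ).G (2 * H) x y →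
        fc hn hM (lab I κ) x ≠ fc hn hM (lab I κ) y := by
      intro x y hxy hn' e
      have := congrArg Fin.val e
      simp only [fc, lab, Nat.unpair_pair, Nat.mod_eq_of_lt (hκ _)] at this
      exact hprop x y hxy hn' this
    set J := push hn hM H (lab I κ) u with hJ
    constructor
    · rw [lintegral_indicator_one (hE' _ _), meas_rename (μ := μ)
        (D := fun k => Near J.G H (fc hn hM (lab I κ) u) k) ?_ (hE _ _) ?_]
      · refine le_trans (measure_mono fun b hb => ?_) (hs J ?_ (push_growth hn hM hp hg u) ?_)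
        · intro h
          refine hb (h _ ?_)
          simp only [hJ, push, mem_filter, mem_univ, true_and, fc]
          exact Nat.mod_lt _ hn
        · simp only [hJ, push]
          rw [Fin.card_filter_val_lt, min_eq_right hM]
        · intro i _
          show (Nat.unpair (Nat.pair (I.inp (psi hn hM H (lab I κ) u i)) _)).1 ∈ L
          rw [Nat.unpair_pair]
          exact hL _ (I.mem_of_reachable (psi_near hn hM (lab I κ) u i).reachable hu)
      · intro i k hi hk e
        obtain ⟨y, -, hy, rfl⟩ := push_lift hn hM hp (near_refl H u) hi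
        obtain ⟨z, -, hz, rfl⟩ := push_lift hn hM hp (near_refl H u) hk
        rw [psi_fc hn hM hp hy, psi_fc hn hM hp hz] at e
        rw [e]
      · intro b b' hb h1 h2
        refine h1 ((hacc M M J _ _ J _ _ (isoView_refl p fun i hi => ?_)).1 h2)
        exact hA J J b b' i (sameView_refl _ _ _) fun k hk => hb k (hi.trans' hk (by omega))
    · intro w hw
      have h1 : acc M J (A J fun i => w (psi hn hM H (lab I κ) u i)) (fc hn hM (lab I κ) u) := by
        by_contra h
        have h2 : w ∈ {x : Fin N → Ω | (fun i => x (psi hn hM H (lab I κ) u i)) ∈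
          E (push hn hM H (lab I κ) u) (fc hn hM (lab I κ) u)} := h
        simp only [Set.indicator_of_mem h2, Pi.one_apply, lt_self_iff_false] at hw
      refine (hacc N M I _ u J _ _ ⟨fc hn hM (lab I κ), rfl, fun x hx y hy e => ?_,
        fun x hx => ?_, fun x hx => ⟨?_, ?_⟩⟩).2 h1
      · exact fc_inj hn hM hp (u := u) (Near.mono hx (by omega)) (Near.mono hy (by omega)) e
      · obtain ⟨s, hs, hx⟩ := edist_lt_iff.1 hx
        have h3 := push_adj_of hn hM hp (u := u) (y := x) hx (by omega : s < H)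
        exact ⟨fun y hy => (h3 _).2 ⟨y, hy, rfl⟩, fun y' hy' => (h3 _).1 hy'⟩
      · show (Nat.unpair ((lab I κ).inp (psi hn hM H (lab I κ) u (fc hn hM (lab I κ) x)))).1 = _
        rw [psi_fc hn hM hp (Near.mono hx (by omega))]
        simp [lab]
      · obtain ⟨h3, h4⟩ := push_same hn hM hp (u := u) (x := x) (j := p) (t := R) hx (by omega)
        exact (hA _ _ _ _ _ h3 fun k hk => by rw [h4 k hk]).symm

end Pool.Agent.Lib.MP_559647_lc
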