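import Pool.Agent.Lib.MP_559647_lc.G56Col
import Pool.Agent.Lib.MP_559647_lc.G56Derand
import Pool.Agent.Lib.MP_559647_lc.G56Push

/-!
The speed-up with explicit parameters.
-/

namespace Pool.Agent.Lib.MP_559647_lc

open MeasureTheory Finset
open scoped ENNReal

lemma Growth.card_lt {N : ℕ} {C a : ℝ} {I : Inst N} (hg : Growth C a I) {t t' b : ℕ} (ht : t ≤ t')
    (hb : Real.exp (C * (t' : ℝ) ^ a) < 2 ^ b) (v : Fin N) :
    (bl I.G (fun _ => True) t v).card < 2 ^ b := by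
  have h1 : (bl I.G (fun _ => True) t v).card ≤
      ({x | I.G.edist v x ≤ t'} : Set (Fin N)).ncard := by
    rw [← Set.ncard_coe_finset]
    exact Set.ncard_le_ncard (fun x hx => (mem_bl.1 hx).1.mono ht) (Set.toFinite _)
  have h2 := hg v t'
  have h3 : ((bl I.G (fun _ => True) t v).card : ℝ) < 2 ^ b :=
    lt_of_le_of_lt (le_trans (by exact_mod_cast h1) h2) hb
  exact_mod_cast h3

lemma lab_view {N : ℕ} {I J : Inst N} {κ κ' : Fin N → ℕ} {t s : ℕ} {v : Fin N}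
    (hv : SameView s v I J) (ht : t ≤ s) (hκ : ∀ x, Near I.G t v x → κ x = κ' x) :
    SameView t v (lab I κ) (lab J κ') :=
  ⟨(hv.mono ht).1, fun x hx => by
    show Nat.pair (I.inp x) (κ x) = Nat.pair (J.inp x) (κ' x)
    rw [(hv.mono ht).2 x hx, hκ x hx]⟩

theorem core {n R p m s : ℕ} {C a : ℝ} (hm : 0 < m)
    (h1 : Real.exp (C * ((2 * (2 * (R + p + 1) * m) : ℕ) : ℝ) ^ a) < 2 ^ m)
    (h2 : Real.exp (C * ((s * (2 * (2 * (R + p + 1) * m) + 2 * (R + p + 1)) : ℕ) : ℝ) ^ a) < 2 ^ s)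
    (h3 : 2 ^ s ≤ n) (h4 : 2 ^ (4 * m + 18) ≤ n) :
    ∃ K : ℕ, ∀ (L : Set ℕ) (acc : (N : ℕ) → Inst N → (Fin N → ℕ) → Fin N → Prop),
      Checker p acc → ∀ (M : ℕ), n ≤ M → ∀ (Ω : Type) [MeasurableSpace Ω] (μ : Measure Ω)
      [IsProbabilityMeasure μ] (A : Inst M → (Fin M → Ω) → Fin M → ℕ), LocalWith R A →
      (∀ I v, Measurable fun x => A I x v) →
      (∀ I : Inst M, I.S.card = n → Growth C a I → (∀ x ∈ I.S, I.inp x ∈ L) →
        (Measure.pi fun _ => μ) {x | ¬ ∀ v ∈ I.S, acc M I (A I x) v} ≤ 1 / n) →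
      ∀ k N : ℕ, N ≤ tower k → ∃ B : Inst N → Fin N → ℕ, DetLocal (K * (k + 1)) B ∧
        ∀ I : Inst N, Growth C a I → (∀ x ∈ I.S, I.inp x ∈ L) → ∀ v ∈ I.S, acc N I (B I) v := by
  classical
  set r := R + p + 1 with hr
  set D := 2 * (2 * r * m) with hD
  set T := s * (n * D) + 0 + s * (D + 2 * r) with hT
  refine ⟨D + T + r, fun L acc hacc M hM Ω _ μ _ A hA hAm hs k N hN => ?_⟩
  have hn : 0 < n := lt_of_lt_of_le (by positivity) h3
  obtain ⟨f, A', hf, hfm, hA', hmain⟩ := push_main (N := N) hn hM hacc hA hAm hs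
  let C0 : Set (Inst N) := {I | Growth C a I}
  obtain ⟨κ, k1, k2, k3⟩ := colour_iter (C := C0) (D := D) (b := m) hN (fun I hI x Y hY =>
    le_trans (Finset.card_le_card fun y hy => mem_bl.2 ⟨hY y hy, trivial⟩)
      (Growth.card_lt hI le_rfl h1 x).le)
  let C1 : Set (Inst N) := {J | ∃ I ∈ C0, J = lab I (κ I)}
  have e1 : ∀ I x, (Nat.unpair ((lab I (κ I)).inp x)).2 = κ I x := fun I x => by simp [lab]
  obtain ⟨W, col, c, -, l2, l3, hdec⟩ := decomp (C := C1) (t := 0) (h := 2 * r) (m := m) (M := n)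
    (κ := fun J x => (Nat.unpair (J.inp x)).2) hm
    (fun I _ J _ v hv => by simp only [hv.2 v (near_refl 0 v)])
    (by rintro _ ⟨I, hI, rfl⟩ x; rw [e1]; exact lt_of_lt_of_le (k2 I hI x) h4)
    (by rintro _ ⟨I, hI, rfl⟩ x y hxy hn'; rw [e1, e1]; exact k3 I hI x y hxy hn')
    (by rintro _ ⟨I, hI, rfl⟩ x; exact Growth.card_lt hI (by omega) h1 x) s
  have hW : ∀ J ∈ C1, ∀ x, ¬ W J x := by
    rintro _ ⟨I, hI, rfl⟩ x hx
    have a1 := (hdec _ ⟨I, hI, rfl⟩).2.2 x 0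
    have a2 : (bl (lab I (κ I)).G (fun _ => True) (0 + s * D) x).card < 2 ^ s :=
      Growth.card_lt hI (by rw [zero_add]; exact Nat.mul_le_mul_left _ (by omega)) h2 x
    have a3 : 0 < (bl (lab I (κ I)).G (W (lab I (κ I))) 0 x).card :=
      Finset.card_pos.2 ⟨x, mem_bl.2 ⟨near_refl _ _, hx⟩⟩
    have a4 := Nat.le_mul_of_pos_right (2 ^ s) a3
    exact absurd (lt_of_le_of_lt (a4.trans a1) a2) (lt_irrefl _)
  obtain ⟨w, w1, w2⟩ := derand_local (μ := μ) (K := s) (ρ := 2 * r * m) l3 l2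
    (fun J hJ v => ((hdec J hJ).1 v (hW J hJ v)).1) (fun J hJ v => ((hdec J hJ).1 v (hW J hJ v)).2)
    (fun J hJ v v' => (hdec J hJ).2.1 v v' (hW J hJ v) (hW J hJ v')) hf hfm
  have hloc : Loc C0 (k * D + T + r) fun I v => A' (lab I (κ I)) (w (lab I (κ I))) v := by
    intro I hI J hJ v hv
    have hv' : SameView (r + T) v (lab I (κ I)) (lab J (κ J)) :=
      lab_view hv (by omega) fun x hx => k1.at hI hJ hv hx (by omega)
    exact hA' _ _ _ _ v (hv'.mono (by omega)) fun x hx =>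
      w1.at ⟨I, hI, rfl⟩ ⟨J, hJ, rfl⟩ hv' hx le_rfl
  obtain ⟨B, b1, b2⟩ := hloc.extend
  refine ⟨B, fun I J v hv => b1 I trivial J trivial v (hv.mono (by nlinarith)),
    fun I hI hL v hv => ?_⟩
  have e : B I = A' (lab I (κ I)) (w (lab I (κ I))) :=
    funext fun x => b2 I I hI x (sameView_refl _ _ _)
  have hD' : 2 * (R + p) ≤ D := by
    have : r ≤ r * m := Nat.le_mul_of_pos_right _ hm
    rw [hD]; nlinarith
  have hm' := hmain I (κ I) hI hL (fun x => lt_of_lt_of_le (k2 I hI x) h4)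
    (fun x y hxy hn' => k3 I hI x y hxy (hn'.mono hD'))
  rw [e]
  refine (hm' v hv).2 _ (lt_of_le_of_lt (w2 _ ⟨I, hI, rfl⟩ v) ?_)
  refine lt_of_le_of_lt (Finset.sum_le_card_nsmul _ _ (1 / (n : ℝ≥0∞)) fun u hu =>
    (hm' u (I.mem_of_reachable (mem_bl.1 hu).1.reachable hv)).1) ?_
  have a2 : (bl (lab I (κ I)).G (fun _ => True) (s * (D + 2 * r)) v).card < n :=
    lt_of_lt_of_le (Growth.card_lt hI le_rfl h2 v) h3
  rw [nsmul_eq_mul, mul_one_div, ENNReal.div_lt_iff (Or.inl (by exact_mod_cast hn.ne'))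
    (Or.inl (ENNReal.natCast_ne_top n)), one_mul]
  exact_mod_cast a2

end Pool.Agent.Lib.MP_559647_lc
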