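import Mathlib

/-!
The choice of parameters.
-/

namespace Pool.Agent.Lib.MP_559647_lc

open Filter

lemma ev_rpow (K : ℝ) {α β : ℝ} (h : α < β) : ∀ᶠ x : ℝ in atTop, K * x ^ α < x ^ β := by
  filter_upwards [(tendsto_rpow_atTop (sub_pos.2 h)).eventually_gt_atTop K,
    eventually_gt_atTop (0 : ℝ)] with x h1 h2
  have : x ^ β = x ^ (β - α) * x ^ α := by rw [← Real.rpow_add h2]; ring_nf
  rw [this]
  exact mul_lt_mul_of_pos_right h1 (Real.rpow_pos_of_pos h2 _)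

lemma exp_lt_two_pow {C a t K x e y : ℝ} {b : ℕ} (ha : 0 < a) (ht0 : 0 ≤ t) (hK : 0 ≤ K)
    (hx : 0 ≤ x) (ht : t ≤ K * x ^ e) (h : 2 * (|C| * K ^ a) * x ^ (e * a) < y) (hy : y ≤ b) :
    Real.exp (C * t ^ a) < 2 ^ b := by
  have h1 : t ^ a ≤ K ^ a * x ^ (e * a) := by
    rw [Real.rpow_mul hx, ← Real.mul_rpow hK (Real.rpow_nonneg hx _)]
    exact Real.rpow_le_rpow ht0 ht ha.le
  have h2 : C * t ^ a ≤ |C| * (K ^ a * x ^ (e * a)) :=
    (mul_le_mul_of_nonneg_right (le_abs_self C) (Real.rpow_nonneg ht0 _)).trans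
      (mul_le_mul_of_nonneg_left h1 (abs_nonneg C))
  have h3 := Real.log_two_gt_d9
  have h4 : (0 : ℝ) ≤ b := Nat.cast_nonneg b
  have h5 : C * t ^ a < b * Real.log 2 := by nlinarith
  calc Real.exp (C * t ^ a) < Real.exp (b * Real.log 2) := Real.exp_lt_exp.2 h5
    _ = 2 ^ b := by rw [Real.exp_nat_mul, Real.exp_log (by norm_num)]

theorem params (C a d : ℝ) (ha0 : 0 < a) (ha1 : a < 1) (hd0 : 0 ≤ d) (hd : d * a < (1 - a) ^ 2)
    (p : ℕ) : ∃ n₁ : ℕ, ∀ n ≥ n₁, ∀ R : ℕ, (R : ℝ) ≤ Real.log n ^ d → ∃ m s : ℕ, 0 < m ∧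
      Real.exp (C * ((2 * (2 * (R + p + 1) * m) : ℕ) : ℝ) ^ a) < 2 ^ m ∧
      Real.exp (C * ((s * (2 * (2 * (R + p + 1) * m) + 2 * (R + p + 1)) : ℕ) : ℝ) ^ a) < 2 ^ s ∧
      2 ^ s ≤ n ∧ 2 ^ (4 * m + 18) ≤ n := by
  have hb : 0 < 1 - a := sub_pos.2 ha1
  obtain ⟨θ, t0, t1, t2, t3⟩ : ∃ θ : ℝ, 0 ≤ θ ∧ (d + θ) * a < θ ∧ (d + θ + 1) * a < 1 ∧ θ < 1 := by
    have e1 : d * a / (1 - a) < (1 - a - d * a) / a := by
      rw [div_lt_div_iff₀ hb ha0]; nlinarith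
    have e2 : d * a / (1 - a) < 1 := by
      rw [div_lt_one hb]; nlinarith
    obtain ⟨θ, h1, h2⟩ := exists_between (lt_min e1 e2)
    rw [lt_min_iff, lt_div_iff₀ ha0] at h2
    have h0 : 0 ≤ d * a / (1 - a) := by positivity
    have h3 := h1
    rw [div_lt_iff₀ hb] at h3
    exact ⟨θ, by linarith, by nlinarith, by nlinarith [h2.1], h2.2⟩
  have hev : ∀ᶠ x : ℝ in atTop, 2 * (|C| * (8 * ((p : ℝ) + 2)) ^ a) * x ^ ((d + θ) * a) < x ^ θ ∧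
      2 * (|C| * (24 * ((p : ℝ) + 2)) ^ a) * x ^ ((d + θ + 1) * a) < x ^ (1 : ℝ) ∧
      26 * x ^ θ < x ^ (1 : ℝ) ∧ 4 ≤ x :=
    (ev_rpow _ t1).and ((ev_rpow _ t2).and ((ev_rpow _ t3).and (eventually_ge_atTop _)))
  have hev2 := ((Real.tendsto_log_atTop.comp tendsto_natCast_atTop_atTop).eventually hev).and
    (eventually_gt_atTop 0)
  obtain ⟨n₁, hn₁⟩ := eventually_atTop.1 hev2
  refine ⟨n₁, fun n hn R hR => ?_⟩
  obtain ⟨⟨c1, c2, c3, c4⟩, hn0⟩ := hn₁ n hn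
  simp only [Function.comp_apply, Real.rpow_one] at c1 c2 c3 c4
  set x := Real.log n with hx
  have hx1 : 1 ≤ x := by linarith
  have hx0 : 0 < x := by linarith
  have l2 := Real.log_two_gt_d9
  have l2' := Real.log_two_lt_d9
  have s1 : 2 ^ Nat.log 2 n ≤ n := Nat.pow_log_le_self 2 hn0.ne'
  have s2 : n < 2 ^ (Nat.log 2 n + 1) := Nat.lt_pow_succ_log_self (by norm_num) n
  set s := Nat.log 2 n with hs
  have s3 : (s : ℝ) * Real.log 2 ≤ x := by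
    rw [← Real.log_pow]
    exact Real.log_le_log (by positivity) (by exact_mod_cast s1)
  have s4 : x ≤ ((s + 1 : ℕ) : ℝ) * Real.log 2 := by
    rw [← Real.log_pow]
    exact Real.log_le_log (by exact_mod_cast hn0) (by exact_mod_cast s2.le)
  push_cast at s4
  have s0 : (0 : ℝ) ≤ s := Nat.cast_nonneg s
  have s5 : (s : ℝ) ≤ 2 * x := by nlinarith
  have s6 : x ≤ s := by nlinarith
  have p1 : 1 ≤ x ^ θ := Real.one_le_rpow hx1 t0
  have p2 : 1 ≤ x ^ d := Real.one_le_rpow hx1 hd0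
  have m1 : x ^ θ ≤ (⌈x ^ θ⌉₊ : ℝ) := Nat.le_ceil _
  have m2 : (⌈x ^ θ⌉₊ : ℝ) ≤ 2 * x ^ θ := by
    have := Nat.ceil_lt_add_one (zero_le_one.trans p1)
    linarith
  have m0 : 0 < ⌈x ^ θ⌉₊ := Nat.ceil_pos.2 (by linarith)
  set m := ⌈x ^ θ⌉₊ with hm
  have hp0 : (0 : ℝ) ≤ p := Nat.cast_nonneg p
  have r1 : (R : ℝ) + p + 1 ≤ (p + 2) * x ^ d := by nlinarith
  have r0 : (0 : ℝ) ≤ (R : ℝ) + p + 1 := by positivity
  have r2 : ((R : ℝ) + p + 1) * m ≤ 2 * (p + 2) * x ^ (d + θ) := by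
    rw [Real.rpow_add hx0]
    calc ((R : ℝ) + p + 1) * m ≤ ((p + 2) * x ^ d) * (2 * x ^ θ) :=
          mul_le_mul r1 m2 (Nat.cast_nonneg m) (by positivity)
      _ = _ := by ring
  refine ⟨m, s, m0, exp_lt_two_pow ha0 (Nat.cast_nonneg _) (by positivity) hx0.le ?_ c1 m1,
    exp_lt_two_pow ha0 (Nat.cast_nonneg _) (by positivity) hx0.le ?_ c2 s6, s1,
    le_trans (Nat.pow_le_pow_right (by norm_num) ?_) s1⟩
  · push_cast
    nlinarith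
  · push_cast
    have m3 : (1 : ℝ) ≤ m := p1.trans m1
    rw [Real.rpow_add hx0, Real.rpow_one]
    calc (s : ℝ) * (2 * (2 * (R + p + 1) * m) + 2 * (R + p + 1))
        ≤ (2 * x) * (6 * (2 * (p + 2) * x ^ (d + θ))) :=
          mul_le_mul s5 (by nlinarith) (by positivity) (by positivity)
      _ = _ := by ring
  · have : ((4 * m + 18 : ℕ) : ℝ) ≤ s := by
      push_cast
      linarith
    exact_mod_cast this

end Pool.Agent.Lib.MP_559647_lc
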