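import Pool.Agent.Lib.MP_559647_lc.H28Defs

/-!
The ancestor problem: output a proper colouring by natural numbers and, at every node, the set of
input labels of the nodes from which it is reached along a path with increasing colours.
-/

namespace Pool.Agent.Lib.MP_559647_lc.H28

open Finset

/-- read an output as a colour and a finite set of labels -/
def dec : ℕ ≃ ℕ × Finset ℕ := (Denumerable.eqv (ℕ × Finset ℕ)).symm

/-- the checker of the ancestor problem -/
def Anc (N : ℕ) (I : Inst N) (o : Fin N → ℕ) (v : Fin N) : Prop :=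
  (∀ u, I.G.Adj v u → (dec (o u)).1 ≠ (dec (o v)).1) ∧
    ∀ x, x ∈ (dec (o v)).2 ↔ x = I.inp v ∨
      ∃ u, I.G.Adj v u ∧ (dec (o u)).1 < (dec (o v)).1 ∧ x ∈ (dec (o u)).2

lemma edist_le_one {V : Type} {G : SimpleGraph V} {u v : V} (h : G.Adj u v) :
    G.edist u v ≤ ((1 : ℕ) : ℕ∞) := by
  rw [SimpleGraph.edist_eq_one_iff_adj.2 h]; simp

lemma checker : Checker 1 Anc := by
  rintro N N' I o v J o' w ⟨φ, rfl, -, h1, h2⟩
  obtain ⟨a1, a2⟩ := h1 v (by simp)
  obtain ⟨b1, b2⟩ := h2 v (by simp)
  have c : ∀ u, I.G.Adj v u → o' (φ u) = o u := fun u hu => (h2 u (edist_le_one hu)).2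
  unfold Anc
  rw [b1, b2]
  refine and_congr ⟨fun h u' hu' => ?_, fun h u hu => ?_⟩
    (forall_congr' fun x => iff_congr Iff.rfl (or_congr Iff.rfl ⟨?_, ?_⟩))
  · obtain ⟨u, hu, rfl⟩ := a2 u' hu'
    rw [c u hu]; exact h u hu
  · rw [← c u hu]; exact h _ (a1 u hu)
  · rintro ⟨u, hu, h3, h4⟩
    exact ⟨φ u, a1 u hu, by rwa [c u hu], by rwa [c u hu]⟩
  · rintro ⟨u', hu', h3, h4⟩
    obtain ⟨u, hu, rfl⟩ := a2 u' hu'
    rw [c u hu] at h3 h4
    exact ⟨u, hu, h3, h4⟩

open Classical in
/-- the greedy rule -/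
noncomputable def step {N : ℕ} (I : Inst N) (s : Fin N → Option ℕ) (v : Fin N) : ℕ :=
  dec.symm (univ.sup fun u => if I.G.Adj v u then (s u).elim 0 fun x => (dec x).1 + 1 else 0,
    insert (I.inp v)
      (univ.biUnion fun u => if I.G.Adj v u then (s u).elim ∅ fun x => (dec x).2 else ∅))

lemma step_local (N : ℕ) : LocalWith (N := N) 1 step := by
  classical
  intro I J a b v hv hab
  have h1 : ∀ u, I.G.Adj v u ↔ J.G.Adj v u := fun u => hv.1 v u (by simp)
  have h2 : I.inp v = J.inp v := hv.2 v (by simp)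
  have h3 : ∀ u, J.G.Adj v u → a u = b u := fun u hu => hab u (edist_le_one ((h1 u).2 hu))
  unfold step
  rw [h2]
  congr 2
  · refine Finset.sup_congr rfl fun u _ => ?_
    by_cases h : J.G.Adj v u
    · rw [if_pos h, if_pos ((h1 u).2 h), h3 u h]
    · rw [if_neg h, if_neg (fun h' => h ((h1 u).1 h'))]
  · congr 2
    funext u
    by_cases h : J.G.Adj v u
    · rw [if_pos h, if_pos ((h1 u).2 h), h3 u h]
    · rw [if_neg h, if_neg (fun h' => h ((h1 u).1 h'))]

lemma seqLocal (N : ℕ) : SeqLocal 1 (Anc N) := by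
  classical
  refine ⟨step, step_local N, fun I ord hord => ?_⟩
  have wf : WellFounded fun u v : Fin N => ord u < ord v := InvImage.wf ord Nat.lt_wfRel.wf
  let o : Fin N → ℕ := wf.fix fun v rec =>
    step I (fun u => if h : ord u < ord v then some (rec u h) else none) v
  have ho : ∀ v, o v = step I (fun u => if ord u < ord v then some (o u) else none) v := by
    intro v
    have : o v = step I (fun u => if h : ord u < ord v then some (o u) else none) v :=
      wf.fix_eq _ v
    simpa only [dite_eq_ite] using this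
  refine ⟨o, ho, fun v _ => ?_⟩
  have hk : ∀ v u, I.G.Adj v u → ord u < ord v → (dec (o u)).1 < (dec (o v)).1 := by
    intro v u hu hlt
    rw [ho v]
    unfold step
    rw [Equiv.apply_symm_apply]
    refine lt_of_lt_of_le (Nat.lt_succ_self _) (le_trans (le_of_eq ?_)
      (Finset.le_sup (f := fun u => if I.G.Adj v u then
        (if ord u < ord v then some (o u) else none).elim 0 fun x => (dec x).1 + 1 else 0)
        (mem_univ u)))
    simp [hu, hlt]
  have hk' : ∀ u, I.G.Adj v u → ((dec (o u)).1 < (dec (o v)).1 ↔ ord u < ord v) := by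
    intro u hu
    refine ⟨fun h => ?_, hk v u hu⟩
    rcases lt_trichotomy (ord u) (ord v) with h' | h' | h'
    · exact h'
    · exact absurd (hord h') hu.ne'
    · exact absurd (hk u v hu.symm h') (by omega)
  refine ⟨fun u hu => ?_, fun x => ?_⟩
  · rcases lt_trichotomy (ord u) (ord v) with h' | h' | h'
    · exact (hk v u hu h').ne
    · exact absurd (hord h') hu.ne'
    · exact (hk u v hu.symm h').ne'
  · have hA : (dec (o v)).2 = insert (I.inp v) (univ.biUnion fun u => if I.G.Adj v u then
        (if ord u < ord v then some (o u) else none).elim ∅ fun x => (dec x).2 else ∅) := by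
      rw [ho v]
      unfold step
      rw [Equiv.apply_symm_apply]
    rw [hA, mem_insert, mem_biUnion]
    refine or_congr Iff.rfl (exists_congr fun u => ?_)
    by_cases hu : I.G.Adj v u
    · by_cases hlt : ord u < ord v
      · simp [hu, hlt, (hk' u hu).2 hlt]
      · have := (hk' u hu).not.2 hlt
        simp [hu, hlt, this]
    · simp [hu]

/-- every collected label is the label of a node -/
lemma sound {N : ℕ} {I : Inst N} {o : Fin N → ℕ} (h : ∀ v, Anc N I o v) (v : Fin N) :
    ∀ x ∈ (dec (o v)).2, ∃ y, x = I.inp y := by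
  induction hk : (dec (o v)).1 using Nat.strong_induction_on generalizing v with
  | _ k ih =>
    intro x hx
    rcases ((h v).2 x).1 hx with h1 | ⟨u, -, h2, h3⟩
    · exact ⟨v, h1⟩
    · exact ih _ (hk ▸ h2) u rfl x h3

/-- labels travel along paths with increasing colours -/
lemma reach {N : ℕ} {I : Inst N} {o : Fin N → ℕ} (h : ∀ v, Anc N I o v) {u v : Fin N}
    (huv : Relation.ReflTransGen
      (fun a b => I.G.Adj a b ∧ (dec (o a)).1 < (dec (o b)).1) u v) :
    I.inp u ∈ (dec (o v)).2 := by
  induction huv with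
  | refl => exact ((h u).2 _).2 (Or.inl rfl)
  | tail _ hbc ih => exact ((h _).2 _).2 (Or.inr ⟨_, hbc.1.symm, hbc.2, ih⟩)

end Pool.Agent.Lib.MP_559647_lc.H28
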