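import Pool.Agent.Lib.MP_559647_lc.G56Defs

/-!
The sequential local model: the nodes are processed one at a time, in an order chosen by an
adversary; a node fixes its output from its radius-`t` view and the outputs fixed earlier in it.
-/

namespace Pool.Agent.Lib.MP_559647_lc

/-- The problem checked by `acc` has a deterministic sequential algorithm of locality `t`: a rule
`step` that reads the radius-`t` view and the outputs already fixed in it (`none` at nodes that
come later), such that for every processing order `ord` the run `o` is accepted at all nodes. -/
def SeqLocal {N : ℕ} (t : ℕ) (acc : Inst N → (Fin N → ℕ) → Fin N → Prop) : Prop :=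
  ∃ step : Inst N → (Fin N → Option ℕ) → Fin N → ℕ, LocalWith t step ∧
    ∀ (I : Inst N) (ord : Fin N → ℕ), Function.Injective ord → ∃ o : Fin N → ℕ,
      (∀ v, o v = step I (fun u => if ord u < ord v then some (o u) else none) v) ∧
        ∀ v ∈ I.S, acc I o v

end Pool.Agent.Lib.MP_559647_lc
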