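import Pool.Agent.Lib.MP_559647_lc.H96Order

/-!
For all large `n` there is an `n`-node graph in which every orientation of the edges has a directed
path whose ends are at distance at least `c (log n / log log n) ^ (3 / 2)`.
-/

namespace Pool.Agent.Lib.MP_559647_lc.H28Order

open Filter Pool.Agent.Lib.MP_559647_lc.H96

theorem ordering_barrier : ∃ c : ℝ, 0 < c ∧ ∃ n₀ : ℕ, ∀ n : ℕ, n₀ ≤ n → ∃ G : SimpleGraph (Fin n),
    ∀ r : Fin n → Fin n → Prop, (∀ u v, r u v → G.Adj u v) →
      (∀ u v, G.Adj u v → r u v ∨ r v u) →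
      ∃ u v, Relation.ReflTransGen r u v ∧
        c * (Real.log n / Real.log (Real.log n)) ^ (3 / 2 : ℝ) ≤ G.dist u v := by
  set E := 768 * Real.exp 67 with hE
  have hE1 : 1 ≤ E := by
    have := Real.one_le_exp (show (0 : ℝ) ≤ 67 by norm_num)
    linarith
  refine ⟨1 / (56 * E), by positivity, eventually_atTop.1 ?_⟩
  have t1 : Tendsto (fun n : ℕ => Real.log n) atTop atTop :=
    Real.tendsto_log_atTop.comp tendsto_natCast_atTop_atTop
  have t2 : Tendsto (fun n : ℕ => Real.log (Real.log n)) atTop atTop :=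
    Real.tendsto_log_atTop.comp t1
  have t3 := (Real.tendsto_exp_div_pow_atTop 1).comp t2
  filter_upwards [t1.eventually_gt_atTop 0, t2.eventually_ge_atTop 1,
    t3.eventually_ge_atTop (7 * (E + 2)), eventually_gt_atTop 0] with n hx hy hz hn
  simp only [Function.comp_apply, pow_one, Real.exp_log hx] at hz
  set x := Real.log n with hxd
  set y := Real.log x with hyd
  set k := ⌊x / y / 7⌋₊ with hk
  have h0 : 0 ≤ x / y / 7 := by positivity
  have h1 : (k : ℝ) ≤ x / y / 7 := Nat.floor_le h0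
  have h2 : x / y / 7 < k + 1 := Nat.lt_floor_add_one _
  have h3 : E + 1 < k := by linarith
  have hk1 : (1 : ℝ) ≤ k := by linarith
  have hk0 : 0 < k := by exact_mod_cast (by linarith : (0 : ℝ) < k)
  have h4 : 7 * k * y ≤ x := by
    rw [le_div_iff₀ (by norm_num), le_div_iff₀ (by linarith)] at h1
    linarith
  have h5 : (25 * k ^ 3) ^ k ≤ n := by
    have h6 : Real.log k ≤ y := Real.log_le_log (by linarith) (by nlinarith)
    have h7 : Real.log 25 ≤ 4 := by
      rw [Real.log_le_iff_le_exp (by norm_num)]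
      have h8 : Real.exp 4 = Real.exp 1 ^ 4 := by rw [← Real.exp_nat_mul]; norm_num
      have h9 := Real.exp_one_gt_d9
      rw [h8]
      calc (25 : ℝ) ≤ 2.7 ^ 4 := by norm_num
        _ ≤ _ := pow_le_pow_left₀ (by norm_num) (by linarith) 4
    have h8 : Real.log (((25 : ℝ) * k ^ 3) ^ k) ≤ x := by
      rw [Real.log_pow, Real.log_mul (by norm_num) (by positivity), Real.log_pow]
      push_cast
      nlinarith
    have h9 := (Real.log_le_log_iff (by positivity) (by exact_mod_cast hn)).1 h8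
    exact_mod_cast h9
  have hs1 : 1 ≤ √(k : ℝ) := Real.one_le_sqrt.2 hk1
  have hs2 : √(k : ℝ) ≤ k := Real.sqrt_le_iff.2 ⟨by linarith, by nlinarith⟩
  obtain ⟨G, hG⟩ := exists_graph hk0 h5 (D := k * √k / E) (by positivity)
    ((div_le_self (by positivity) hE1).trans (by nlinarith)) (by
      have h6 : 384 * Real.exp 67 * (k * √k / E + 1) = k * √k / 2 + E / 2 := by
        rw [hE]; field_simp; ring
      rw [h6]
      nlinarith)
  refine ⟨G, fun r hr1 hr2 => ?_⟩
  obtain ⟨u, v, huv, h6⟩ := hG r hr1 hr2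
  refine ⟨u, v, huv, le_trans ?_ h6⟩
  have h7 : x / y ≤ 14 * k := by linarith
  have h8 : (x / y) ^ (3 / 2 : ℝ) = x / y * √(x / y) := by
    rw [Real.sqrt_eq_rpow, show (3 / 2 : ℝ) = 1 + 1 / 2 by norm_num,
      Real.rpow_add (by positivity), Real.rpow_one]
  have h9 : √(x / y) ≤ 4 * √k := by
    rw [Real.sqrt_le_iff, mul_pow, Real.sq_sqrt (by positivity)]
    exact ⟨by positivity, by linarith⟩
  rw [h8]
  calc _ ≤ 1 / (56 * E) * (14 * k * (4 * √k)) :=
        mul_le_mul_of_nonneg_left (mul_le_mul h7 h9 (Real.sqrt_nonneg _) (by positivity))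
          (by positivity)
    _ = _ := by field_simp; norm_num

end Pool.Agent.Lib.MP_559647_lc.H28Order
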