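import Pool.Agent.Lib.MP_559647_lc.Basic

/-!
Existence of network decompositions by sequential ball carving with growth factor `lam`.
-/

namespace Pool.Agent.Lib.MP_559647_lc.H36

open Finset

variable {V : Type} [DecidableEq V] (G : SimpleGraph V)

open Classical in
lemma exists_radius (U : Finset V) (v : V) (hv : v ∈ U) (s lam h : ℕ) (hU : U.card < lam ^ h) :
    ∃ t < h, (U.filter fun x => Near G ((t + 1) * s) v x).card ≤
      lam * (U.filter fun x => Near G (t * s) v x).card := by
  by_contra hne
  push Not at hne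
  have hall : ∀ t, t ≤ h → lam ^ t ≤ (U.filter fun x => Near G (t * s) v x).card := by
    intro t
    induction t with
    | zero =>
      intro _
      exact Finset.card_pos.2 ⟨v, mem_filter.2 ⟨hv, near_refl _ _⟩⟩
    | succ t ih =>
      intro ht
      have h1 := ih (by omega)
      have h2 := hne t (by omega)
      calc lam ^ (t + 1) = lam * lam ^ t := by ring
        _ ≤ lam * (U.filter fun x => Near G (t * s) v x).card := Nat.mul_le_mul_left _ h1
        _ ≤ _ := h2.le
  have h1 := hall h le_rfl
  have h2 := Finset.card_filter_le U fun x => Near G (h * s) v x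
  omega

/-- One colour class: it holds a `1 / lam` fraction of `U`. -/
lemma exists_phase (s lam h : ℕ) (U : Finset V) : U.card < lam ^ h →
    ∃ (A : Finset V) (c : V → V), A ⊆ U ∧ U.card ≤ lam * A.card ∧
      (∀ x ∈ A, Near G (h * s) x (c x)) ∧ ∀ x ∈ A, ∀ y ∈ A, Near G s x y → c x = c y := by
  classical
  induction U using Finset.strongInduction with
  | H U ih =>
    intro hU
    rcases U.eq_empty_or_nonempty with rfl | ⟨v, hv⟩
    · exact ⟨∅, id, by simp, by simp, by simp, by simp⟩
    obtain ⟨t, ht, hc⟩ := exists_radius G U v hv s lam h hU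
    set A0 := U.filter fun x => Near G (t * s) v x with hA0
    set U' := U.filter fun x => ¬ Near G ((t + 1) * s) v x with hU'
    have hsub : U' ⊂ U := by
      refine Finset.ssubset_iff_subset_ne.2 ⟨filter_subset _ _, fun he => ?_⟩
      have : v ∈ U' := he ▸ hv
      exact (mem_filter.1 this).2 (near_refl _ _)
    obtain ⟨A', c', h1, h2, h3, h4⟩ := ih U' hsub
      (lt_of_le_of_lt (Finset.card_le_card hsub.1) hU)
    have hfar : ∀ x ∈ A0, ∀ y ∈ A', ¬ Near G s x y := by
      intro x hx y hy hn
      exact (mem_filter.1 (h1 hy)).2 ((mem_filter.1 hx).2.trans' hn (by rw [add_mul, one_mul]))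
    have hdisj : Disjoint A0 A' := by
      rw [Finset.disjoint_left]
      intro x hx hx'
      exact hfar x hx x hx' (near_refl _ _)
    refine ⟨A0 ∪ A', fun x => if x ∈ A0 then v else c' x, ?_, ?_, ?_, ?_⟩
    · exact union_subset (filter_subset _ _) (h1.trans (filter_subset _ _))
    · rw [Finset.card_union_of_disjoint hdisj, mul_add,
        ← Finset.card_filter_add_card_filter_not (s := U) fun x => Near G ((t + 1) * s) v x]
      exact Nat.add_le_add hc h2
    · intro x hx
      by_cases hx0 : x ∈ A0
      · simp only [if_pos hx0]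
        exact (mem_filter.1 hx0).2.symm.mono (Nat.mul_le_mul_right _ ht.le)
      · simp only [if_neg hx0]
        exact h3 x ((mem_union.1 hx).resolve_left hx0)
    · intro x hx y hy hn
      by_cases hx0 : x ∈ A0 <;> by_cases hy0 : y ∈ A0
      · simp only [if_pos hx0, if_pos hy0]
      · exact absurd hn (hfar x hx0 y ((mem_union.1 hy).resolve_left hy0))
      · exact absurd hn.symm (hfar y hy0 x ((mem_union.1 hx).resolve_left hx0))
      · simp only [if_neg hx0, if_neg hy0]
        exact h4 x ((mem_union.1 hx).resolve_left hx0) y ((mem_union.1 hy).resolve_left hy0) hn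

/-- A decomposition with `K` colours and radius `h * s`; clusters of one colour are more than `s`
apart. -/
lemma exists_decomp (s lam h : ℕ) (K : ℕ) : ∀ U : Finset V, U.card < (lam + 1) ^ h →
    U.card * lam ^ K < (lam + 1) ^ K →
    ∃ (col : V → ℕ) (c : V → V), (∀ x ∈ U, col x < K) ∧ (∀ x ∈ U, Near G (h * s) x (c x)) ∧
      ∀ x ∈ U, ∀ y ∈ U, col x = col y → Near G s x y → c x = c y := by
  induction K with
  | zero =>
    intro U _ hK
    have : U = ∅ := Finset.card_eq_zero.1 (by simpa using hK)
    subst this
    exact ⟨fun _ => 0, id, by simp, by simp, by simp⟩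
  | succ K ih =>
    intro U hU hK
    obtain ⟨A, c0, h1, h2, h3, h4⟩ := exists_phase G s (lam + 1) h U hU
    have hcard : (U \ A).card + A.card = U.card := Finset.card_sdiff_add_card_eq_card h1
    have hle : (lam + 1) * (U \ A).card ≤ lam * U.card := by nlinarith
    obtain ⟨col, c, a1, a2, a3⟩ := ih (U \ A) (by omega) (by
      have h5 : (lam + 1) * ((U \ A).card * lam ^ K) < (lam + 1) * (lam + 1) ^ K := by
        calc (lam + 1) * ((U \ A).card * lam ^ K) = (lam + 1) * (U \ A).card * lam ^ K := by ring
          _ ≤ lam * U.card * lam ^ K := Nat.mul_le_mul_right _ hle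
          _ = U.card * lam ^ (K + 1) := by ring
          _ < (lam + 1) ^ (K + 1) := hK
          _ = _ := by ring
      exact Nat.lt_of_mul_lt_mul_left h5)
    refine ⟨fun x => if x ∈ A then K else col x, fun x => if x ∈ A then c0 x else c x,
      fun x hx => ?_, fun x hx => ?_, fun x hx y hy he hn => ?_⟩
    · by_cases hxA : x ∈ A
      · simp only [if_pos hxA]; omega
      · simp only [if_neg hxA]
        have := a1 x (mem_sdiff.2 ⟨hx, hxA⟩)
        omega
    · by_cases hxA : x ∈ A
      · simp only [if_pos hxA]; exact h3 x hxA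
      · simp only [if_neg hxA]; exact a2 x (mem_sdiff.2 ⟨hx, hxA⟩)
    · by_cases hxA : x ∈ A <;> by_cases hyA : y ∈ A
      · simp only [if_pos hxA, if_pos hyA]; exact h4 x hxA y hyA hn
      · simp only [if_pos hxA, if_neg hyA] at he
        have := a1 y (mem_sdiff.2 ⟨hy, hyA⟩)
        omega
      · simp only [if_neg hxA, if_pos hyA] at he
        have := a1 x (mem_sdiff.2 ⟨hx, hxA⟩)
        omega
      · simp only [if_neg hxA, if_neg hyA] at he ⊢
        exact a3 x (mem_sdiff.2 ⟨hx, hxA⟩) y (mem_sdiff.2 ⟨hy, hyA⟩) he hn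

end Pool.Agent.Lib.MP_559647_lc.H36
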