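import Mathlib

/-!
Parameters for the parallel derandomisation on a fixed graph.
-/

namespace Pool.Agent.Lib.MP_559647_lc.H36

open Real Filter

lemma params (c : ℕ) (ε : ℝ) (hε : 0 < ε) : ∃ n₀ : ℕ, ∀ n ≥ n₀, 0 < n ∧ ∃ lam h K : ℕ,
    n < (lam + 1) ^ h ∧ n * lam ^ K < (lam + 1) ^ K ∧
    (((n ^ c + 1) * (2 * n) : ℕ) : ℝ) ^ K * exp (-(log n) ^ (2 + ε)) < 1 ∧
    (4 * h + 3 : ℝ) ≤ (8 / ε + 7) * (log n / log (log n)) := by
  have t1 : Tendsto (fun n : ℕ => log n) atTop atTop :=
    tendsto_log_atTop.comp tendsto_natCast_atTop_atTop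
  have t2 : Tendsto (fun n : ℕ => (log n) ^ (ε / 2)) atTop atTop :=
    (tendsto_rpow_atTop (by positivity)).comp t1
  obtain ⟨n₀, hn₀⟩ := eventually_atTop.1 ((t1.eventually_gt_atTop 1).and
    ((t2.eventually_gt_atTop (5 * (c + 3))).and (eventually_ge_atTop 2)))
  refine ⟨n₀, fun n hn => ?_⟩
  obtain ⟨hx, hy, hn2⟩ := hn₀ n hn
  set x := log (n : ℝ) with hxdef
  set y := x ^ (ε / 2) with hydef
  have hc0 : (0 : ℝ) ≤ c := Nat.cast_nonneg c
  have hy1 : 1 < y := by linarith
  have hnR : (2 : ℝ) ≤ n := by exact_mod_cast hn2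
  set lam := ⌈y⌉₊ with hlam
  have l1 : y ≤ lam := Nat.le_ceil y
  have l2 : (lam : ℝ) < y + 1 := Nat.ceil_lt_add_one (by linarith)
  have l3 : 1 ≤ lam := by
    have : (1 : ℝ) ≤ lam := by linarith
    exact_mod_cast this
  set K := ⌈((lam : ℝ) + 1) * x⌉₊ + 1 with hK
  have k1 : ((lam : ℝ) + 1) * x < K := by
    have := Nat.le_ceil (((lam : ℝ) + 1) * x)
    rw [hK]
    push_cast
    linarith
  have k2 : (K : ℝ) ≤ 5 * y * x := by
    have := Nat.ceil_lt_add_one (show 0 ≤ ((lam : ℝ) + 1) * x by positivity)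
    rw [hK]
    push_cast
    nlinarith
  refine ⟨by omega, lam, Nat.log (lam + 1) n + 1, K, Nat.lt_pow_succ_log_self (by omega) n,
    ?_, ?_, ?_⟩
  · have hp : (0 : ℝ) < lam + 1 := by positivity
    have h1 : (lam : ℝ) ≤ (lam + 1) * exp (-(1 / ((lam : ℝ) + 1))) := by
      have := add_one_le_exp (-(1 / ((lam : ℝ) + 1)))
      have h2 : (lam : ℝ) = (lam + 1) * (-(1 / ((lam : ℝ) + 1)) + 1) := by field_simp; ring
      calc (lam : ℝ) = _ := h2
        _ ≤ _ := mul_le_mul_of_nonneg_left this hp.le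
    have h2 : (lam : ℝ) ^ K ≤ (lam + 1) ^ K * exp (-(K / ((lam : ℝ) + 1))) := by
      calc (lam : ℝ) ^ K ≤ ((lam + 1) * exp (-(1 / ((lam : ℝ) + 1)))) ^ K :=
            pow_le_pow_left₀ (by positivity) h1 K
        _ = _ := by
          rw [mul_pow, ← exp_nat_mul]
          congr 2
          ring
    have h3 : (n : ℝ) * exp (-(K / ((lam : ℝ) + 1))) < 1 := by
      have : (n : ℝ) = exp x := (exp_log (by linarith)).symm
      rw [this, ← exp_add, exp_lt_one_iff]
      have : x < K / ((lam : ℝ) + 1) := by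
        rw [lt_div_iff₀ hp]
        linarith
      linarith
    have h4 : (n : ℝ) * lam ^ K < (lam + 1) ^ K := by
      have h5 : (0 : ℝ) < (lam + 1) ^ K := by positivity
      calc (n : ℝ) * lam ^ K ≤ n * ((lam + 1) ^ K * exp (-(K / ((lam : ℝ) + 1)))) :=
            mul_le_mul_of_nonneg_left h2 (by linarith)
        _ = (lam + 1) ^ K * (n * exp (-(K / ((lam : ℝ) + 1)))) := by ring
        _ < (lam + 1) ^ K * 1 := mul_lt_mul_of_pos_left h3 h5
        _ = _ := mul_one _
    exact_mod_cast h4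
  · have h1 : (n ^ c + 1) * (2 * n) ≤ n ^ (c + 3) := by
      have a1 : 1 ≤ n ^ c := Nat.one_le_pow _ _ (by omega)
      have a2 : 4 ≤ n * n := by nlinarith
      calc (n ^ c + 1) * (2 * n) ≤ (n ^ c + n ^ c) * (2 * n) := Nat.mul_le_mul_right _ (by omega)
        _ = n ^ c * n * 4 := by ring
        _ ≤ n ^ c * n * (n * n) := Nat.mul_le_mul_left _ a2
        _ = n ^ (c + 3) := by ring
    have h2 : (((n ^ c + 1) * (2 * n) : ℕ) : ℝ) ≤ exp ((c + 3) * x) := by
      have : exp (((c + 3 : ℕ) : ℝ) * x) = (n : ℝ) ^ (c + 3) := by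
        rw [exp_nat_mul, exp_log (by linarith)]
      push_cast at this
      rw [this]
      exact_mod_cast h1
    have h3 : x ^ (2 + ε) = y * y * (x * x) := by
      rw [hydef, ← rpow_add (by linarith), add_halves, rpow_add (by linarith), rpow_two]
      ring
    calc _ ≤ exp ((c + 3) * x) ^ K * exp (-x ^ (2 + ε)) :=
          mul_le_mul_of_nonneg_right (pow_le_pow_left₀ (by positivity) h2 K) (exp_pos _).le
      _ < 1 := by
        rw [← exp_nat_mul, ← exp_add, exp_lt_one_iff, h3]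
        have a1 : (K : ℝ) * ((c + 3) * x) ≤ 5 * y * x * ((c + 3) * x) :=
          mul_le_mul_of_nonneg_right k2 (by positivity)
        have a2 : 0 < y * (x * x) := by positivity
        nlinarith
  · have hl : 0 < log x := log_pos hx
    have h1 : ((lam + 1 : ℕ) : ℝ) ^ Nat.log (lam + 1) n ≤ n := by
      exact_mod_cast Nat.pow_log_le_self (lam + 1) (by omega)
    have h2 : (Nat.log (lam + 1) n : ℝ) * (ε / 2 * log x) ≤ x := by
      have a1 := log_le_log (by positivity) h1
      rw [log_pow] at a1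
      have a2 : ε / 2 * log x ≤ log ((lam + 1 : ℕ) : ℝ) := by
        rw [← log_rpow (by linarith)]
        refine log_le_log (by linarith) ?_
        push_cast
        linarith
      exact (mul_le_mul_of_nonneg_left a2 (Nat.cast_nonneg _)).trans a1
    have h3 : (Nat.log (lam + 1) n : ℝ) ≤ 2 / ε * (x / log x) := by
      rw [div_mul_div_comm, le_div_iff₀ (by positivity)]
      linarith
    have h4 : 1 ≤ x / log x := by
      rw [le_div_iff₀ hl]
      have := log_le_sub_one_of_pos (show 0 < x by linarith)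
      linarith
    have h5 : (8 / ε + 7) * (x / log x) = 4 * (2 / ε * (x / log x)) + 7 * (x / log x) := by ring
    rw [h5]
    push_cast
    linarith

end Pool.Agent.Lib.MP_559647_lc.H36
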