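import Pool.Agent.Lib.MP_559647_lc.Derand

/-!
Parallel derandomisation along a fixed decomposition: every colour class has a short list of seed
vectors fixed in advance, and all clusters choose from their lists at the same time.
-/

namespace Pool.Agent.Lib.MP_559647_lc.H36

open MeasureTheory Finset
open scoped ENNReal

section Prob

variable {X : Type} [MeasurableSpace X] (π : Measure X) [IsProbabilityMeasure π]

omit [IsProbabilityMeasure π] in
lemma markov {h : X → ℝ≥0∞} (hm : Measurable h) {θ : ℝ≥0∞}
    (hW : ∫⁻ y, h y ∂π ≠ ⊤) : π {y | θ * ∫⁻ y, h y ∂π < h y} ≤ θ⁻¹ := by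
  by_cases hz : ∫⁻ y, h y ∂π = 0
  · have h2 := (lintegral_eq_zero_iff hm).1 hz
    rw [hz, mul_zero]
    have : π {y | 0 < h y} = 0 := by
      refine measure_mono_null (fun y hy => ?_) h2
      exact ne_of_gt hy
    rw [this]
    exact zero_le
  · have h2 := mul_meas_ge_le_lintegral₀ (μ := π) hm.aemeasurable (θ * ∫⁻ y, h y ∂π)
    have h3 : π {y | θ * ∫⁻ y, h y ∂π < h y} ≤ π {y | θ * ∫⁻ y, h y ∂π ≤ h y} :=
      measure_mono fun y hy => by
        simp only [Set.mem_ofPred_eq] at hy ⊢
        exact le_of_lt hy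
    refine h3.trans ?_
    rw [ENNReal.le_inv_iff_mul_le]
    have h4 : (π {y | θ * ∫⁻ y, h y ∂π ≤ h y} * θ) * ∫⁻ y, h y ∂π ≤ 1 * ∫⁻ y, h y ∂π := by
      rw [one_mul]
      refine le_trans (le_of_eq ?_) h2
      ring
    exact (ENNReal.mul_le_mul_iff_left hz hW).1 h4

lemma hitting {κ : Type} (bad : κ → Set X) (hm : ∀ k, MeasurableSet (bad k)) (L : ℕ) :
    ∀ C : Finset κ, C.card < 2 ^ L → (∀ k ∈ C, π (bad k) ≤ 2⁻¹) →
      ∃ w : ℕ → X, ∀ k ∈ C, ∃ l < L, w l ∉ bad k := by
  classical
  induction L with
  | zero =>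
    intro C hC _
    have : C = ∅ := Finset.card_eq_zero.1 (by simpa using hC)
    subst this
    obtain ⟨o⟩ : Nonempty X := nonempty_of_isProbabilityMeasure π
    exact ⟨fun _ => o, by simp⟩
  | succ L ih =>
    intro C hC hb
    have hmi : ∀ k, Measurable fun y => (bad k).indicator (1 : X → ℝ≥0∞) y :=
      fun k => measurable_one.indicator (hm k)
    obtain ⟨y, hy⟩ := exists_le_lintegral (μ := π)
      (f := fun y => ∑ k ∈ C, (bad k).indicator (1 : X → ℝ≥0∞) y)
      (Finset.measurable_sum C fun k _ => hmi k).aemeasurable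
    rw [lintegral_finsetSum C fun k _ => hmi k] at hy
    have h1 : ∑ k ∈ C, ∫⁻ y, (bad k).indicator (1 : X → ℝ≥0∞) y ∂π ≤ C.card * 2⁻¹ := by
      rw [← nsmul_eq_mul]
      refine Finset.sum_le_card_nsmul _ _ _ fun k hk => ?_
      rw [lintegral_indicator_one (hm k)]
      exact hb k hk
    have h2 : ∑ k ∈ C, (bad k).indicator (1 : X → ℝ≥0∞) y =
        ((C.filter fun k => y ∈ bad k).card : ℝ≥0∞) := by
      rw [Finset.card_filter]
      push_cast
      refine Finset.sum_congr rfl fun k _ => ?_
      by_cases hk : y ∈ bad k <;> simp [hk]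
    have h3 : ((C.filter fun k => y ∈ bad k).card : ℝ≥0∞) * 2 ≤ C.card := by
      have := (h2 ▸ hy).trans h1
      calc _ ≤ (C.card : ℝ≥0∞) * 2⁻¹ * 2 := mul_le_mul_left this _
        _ = C.card := by
          rw [mul_assoc, ENNReal.inv_mul_cancel (by norm_num) (by norm_num), mul_one]
    have h4 : (C.filter fun k => y ∈ bad k).card * 2 ≤ C.card := by exact_mod_cast h3
    obtain ⟨w, hw⟩ := ih (C.filter fun k => y ∈ bad k) (by rw [pow_succ] at hC; omega)
      fun k hk => hb k (mem_filter.1 hk).1
    refine ⟨fun l => if l = L then y else w l, fun k hk => ?_⟩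
    by_cases hky : y ∈ bad k
    · obtain ⟨l, hl, hw'⟩ := hw k (mem_filter.2 ⟨hk, hky⟩)
      exact ⟨l, by omega, by simp only [if_neg (show l ≠ L by omega)]; exact hw'⟩
    · exact ⟨L, by omega, by simp only [if_true]; exact hky⟩

omit [IsProbabilityMeasure π] in
lemma multiset_integral {α : Type} (P : Multiset α) (F : α → X → ℝ≥0∞)
    (hm : ∀ a, Measurable (F a)) :
    Measurable (fun y => (P.map fun a => F a y).sum) ∧
      ∫⁻ y, (P.map fun a => F a y).sum ∂π = (P.map fun a => ∫⁻ y, F a y ∂π).sum := by
  induction P using Multiset.induction_on with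
  | empty => simp
  | cons a P ih =>
    simp only [Multiset.map_cons, Multiset.sum_cons]
    exact ⟨(hm a).add ih.1, by rw [lintegral_add_left (hm a), ih.2]⟩

end Prob

section Main

variable {N : ℕ} {Ω : Type} [MeasurableSpace Ω] (μ : Measure Ω)
  (col : Fin N → ℕ) (f : Inst N → (Fin N → Ω) → Fin N → ℝ≥0∞)

/-- conditional cost of `v` when the colours below `j` are fixed -/
noncomputable def cnd (I : Inst N) (j : ℕ) (v : Fin N) : (Fin N → Ω) → ℝ≥0∞ :=
  lmarginal (fun _ => μ) (univ.filter fun x => j ≤ col x) fun b => f I b v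

/-- overwrite the seeds of colour `j` -/
def upd (j : ℕ) (a y : Fin N → Ω) : Fin N → Ω := fun x => if col x = j then y x else a x

/-- the weight of a collection of partial seed vectors -/
noncomputable def wt (I : Inst N) (j : ℕ) (v : Fin N) (P : Multiset (Fin N → Ω)) : ℝ≥0∞ :=
  (P.map (cnd μ col f I j v)).sum

/-- `y` is good for `v` at colour `j` -/
def Good (θ : ℝ≥0∞) (I : Inst N) (j : ℕ) (v : Fin N) (P : Multiset (Fin N → Ω))
    (y : Fin N → Ω) : Prop :=
  wt μ col f I (j + 1) v (P.map fun a => upd col j a y) ≤ θ * wt μ col f I j v P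

variable (θ : ℝ≥0∞) (L : ℕ) (C : Finset (Inst N)) (o : Ω)

/-- the list of colour `j` -/
noncomputable def lst (j : ℕ) (P : Inst N → Fin N → Multiset (Fin N → Ω)) : ℕ → Fin N → Ω :=
  @Classical.epsilon _ ⟨fun _ _ => o⟩ fun w =>
    ∀ I ∈ C, ∃ l < L, ∀ v ∈ I.S, Good μ col f θ I j v (P I v) (w l)

open Classical in
/-- all partial seed vectors made of good list entries -/
noncomputable def st : ℕ → Inst N → Fin N → Multiset (Fin N → Ω)
  | 0 => fun _ _ => {fun _ => o}
  | j + 1 => fun I v =>
      ((range L).filter fun l => Good μ col f θ I j v (st j I v) (lst μ col f θ L C o j (st j) l)).val.bind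
        fun l => (st j I v).map fun a => upd col j a (lst μ col f θ L C o j (st j) l)

variable {μ col f θ L C o}

open Classical in
lemma wt_succ_le (I : Inst N) (j : ℕ) (v : Fin N) :
    wt μ col f I (j + 1) v (st μ col f θ L C o (j + 1) I v) ≤
      L * θ * wt μ col f I j v (st μ col f θ L C o j I v) := by
  have e : wt μ col f I (j + 1) v (st μ col f θ L C o (j + 1) I v) =
      ∑ l ∈ (range L).filter fun l => Good μ col f θ I j v (st μ col f θ L C o j I v)
        (lst μ col f θ L C o j (st μ col f θ L C o j) l),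
        wt μ col f I (j + 1) v ((st μ col f θ L C o j I v).map fun a =>
          upd col j a (lst μ col f θ L C o j (st μ col f θ L C o j) l)) := by
    simp only [st, wt, Multiset.map_bind, Multiset.sum_bind]
    rfl
  rw [e]
  refine (Finset.sum_le_card_nsmul _ _ (θ * wt μ col f I j v (st μ col f θ L C o j I v))
    fun l hl => ?_).trans ?_
  · have := (mem_filter.1 hl).2
    exact this
  rw [nsmul_eq_mul, mul_assoc]
  refine mul_le_mul_left ?_ _
  exact_mod_cast (Finset.card_filter_le _ _).trans (Finset.card_range L).le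

lemma wt_le [IsProbabilityMeasure μ] (I : Inst N) (v : Fin N) (j : ℕ) :
    wt μ col f I j v (st μ col f θ L C o j I v) ≤
      (L * θ) ^ j * ∫⁻ a, f I a v ∂(Measure.pi fun _ : Fin N => μ) := by
  induction j with
  | zero =>
    simp only [st, wt, Multiset.map_singleton, Multiset.sum_singleton, pow_zero, one_mul, cnd]
    rw [lintegral_eq_lmarginal_univ (fun _ => o)]
    simp
  | succ j ih =>
    refine (wt_succ_le I j v).trans ?_
    rw [pow_succ', mul_assoc (L * θ)]
    exact mul_le_mul_right ih _

lemma measurable_upd (j : ℕ) (a : Fin N → Ω) : Measurable (upd col j a) := by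
  refine measurable_pi_lambda _ fun x => ?_
  unfold upd
  split_ifs
  · exact measurable_pi_apply x
  · exact measurable_const

lemma integral_upd [IsProbabilityMeasure μ] (hm : ∀ I u, Measurable fun a => f I a u)
    (I : Inst N) (j : ℕ) (v : Fin N) (a : Fin N → Ω) :
    ∫⁻ y, cnd μ col f I (j + 1) v (upd col j a y) ∂(Measure.pi fun _ : Fin N => μ) =
      cnd μ col f I j v a := by
  classical
  have hmc : Measurable (cnd μ col f I (j + 1) v) := (hm I v).lmarginal _
  rw [lintegral_eq_lmarginal_univ a,
    lmarg_filter (F := fun y => cnd μ col f I (j + 1) v (upd col j a y)) (B := fun x => col x = j)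
      (hmc.comp (measurable_upd j a)) (fun b b' hb => by
      have : upd col j a b = upd col j a b' := by
        funext x
        unfold upd
        split_ifs with hx
        · exact hb x hx
        · rfl
      simp only [this])]
  have e : (univ.filter fun x => j ≤ col x) =
      (univ.filter fun x => col x = j) ∪ univ.filter fun x => j + 1 ≤ col x := by
    ext x
    simp only [mem_union, mem_filter, mem_univ, true_and]
    omega
  have hd : Disjoint (univ.filter fun x => col x = j) (univ.filter fun x => j + 1 ≤ col x) := by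
    rw [Finset.disjoint_left]
    intro x hx hx'
    simp only [mem_filter, mem_univ, true_and] at hx hx'
    omega
  conv_rhs => unfold cnd
  rw [e, lmarginal_union _ _ (hm I v) hd]
  unfold lmarginal
  refine lintegral_congr fun y => ?_
  have : upd col j a (Function.updateFinset a (univ.filter fun x => col x = j) y) =
      Function.updateFinset a (univ.filter fun x => col x = j) y := by
    funext x
    unfold upd
    split_ifs with hx
    · rfl
    · simp [Function.updateFinset, hx]
  simp only [this]
  rfl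

lemma lst_spec [IsProbabilityMeasure μ] (hm : ∀ I u, Measurable fun a => f I a u)
    (h1 : ∀ I a v, f I a v ≤ 1) {n : ℕ} (hn : 0 < n) (hS : ∀ I ∈ C, I.S.card ≤ n)
    (hθ : θ = 2 * n) (hL : C.card < 2 ^ L) (j : ℕ) (P : Inst N → Fin N → Multiset (Fin N → Ω)) :
    ∀ I ∈ C, ∃ l < L, ∀ v ∈ I.S, Good μ col f θ I j v (P I v) (lst μ col f θ L C o j P l) := by
  classical
  refine @Classical.epsilon_spec _ (fun w : ℕ → Fin N → Ω =>
    ∀ I ∈ C, ∃ l < L, ∀ v ∈ I.S, Good μ col f θ I j v (P I v) (w l)) ?_
  set π := Measure.pi fun _ : Fin N => μ with hπ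
  have key : ∀ I v, Measurable (fun y => ((P I v).map fun a =>
      cnd μ col f I (j + 1) v (upd col j a y)).sum) ∧
      ∫⁻ y, ((P I v).map fun a => cnd μ col f I (j + 1) v (upd col j a y)).sum ∂π =
        wt μ col f I j v (P I v) := by
    intro I v
    have := multiset_integral π (P I v) (fun a y => cnd μ col f I (j + 1) v (upd col j a y))
      fun a => ((hm I v).lmarginal _).comp (measurable_upd j a)
    refine ⟨this.1, this.2.trans ?_⟩
    unfold wt
    congr 1
    exact Multiset.map_congr rfl fun a _ => integral_upd hm I j v a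
  have hfin : ∀ I v, wt μ col f I j v (P I v) ≠ ⊤ := by
    intro I v
    refine ne_top_of_le_ne_top (b := (Multiset.card (P I v) : ℝ≥0∞)) (ENNReal.natCast_ne_top _) ?_
    have := Multiset.sum_le_card_nsmul ((P I v).map (cnd μ col f I j v)) 1 (by
      intro x hx
      obtain ⟨a, _, rfl⟩ := Multiset.mem_map.1 hx
      unfold cnd lmarginal
      refine (lintegral_mono fun y => h1 I _ v).trans ?_
      simp)
    simpa [wt] using this
  let bad : Inst N → Set (Fin N → Ω) := fun I => ⋃ v ∈ I.S, {y | θ * wt μ col f I j v (P I v) <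
    ((P I v).map fun a => cnd μ col f I (j + 1) v (upd col j a y)).sum}
  obtain ⟨w, hw⟩ := hitting π bad (fun I => Finset.measurableSet_biUnion _ fun v _ =>
    measurableSet_lt measurable_const (key I v).1) L C hL (fun I hI => by
      refine (measure_biUnion_finset_le _ _).trans ?_
      refine (Finset.sum_le_card_nsmul _ _ θ⁻¹ fun v _ => ?_).trans ?_
      · have := markov π (θ := θ) (key I v).1 (by rw [(key I v).2]; exact hfin I v)
        rwa [(key I v).2] at this
      · rw [nsmul_eq_mul]
        have hc : (I.S.card : ℝ≥0∞) ≤ n := by exact_mod_cast hS I hI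
        refine (mul_le_mul_left hc _).trans (le_of_eq ?_)
        rw [hθ, ENNReal.mul_inv (Or.inl (by norm_num)) (Or.inl (by norm_num)), mul_comm,
          mul_assoc, ENNReal.inv_mul_cancel (by exact_mod_cast hn.ne')
            (ENNReal.natCast_ne_top _), mul_one])
  refine ⟨w, fun I hI => ?_⟩
  obtain ⟨l, hl, hb⟩ := hw I hI
  refine ⟨l, hl, fun v hv => ?_⟩
  by_contra hg
  refine hb (Set.mem_biUnion (Finset.mem_coe.2 hv) ?_)
  unfold Good at hg
  rw [wt, Multiset.map_map] at hg
  exact not_le.1 hg

lemma cnd_view {r : ℕ} (hf : LocalWith r f) {I J : Inst N} {v : Fin N} (h : SameView r v I J)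
    (j : ℕ) : cnd μ col f I j v = cnd μ col f J j v := by
  have : (fun b => f I b v) = fun b => f J b v := by
    funext b
    exact hf I J b b v h fun _ _ => rfl
  unfold cnd
  rw [this]

lemma good_view {r : ℕ} (hf : LocalWith r f) {I J : Inst N} {v : Fin N} (h : SameView r v I J)
    (j : ℕ) : Good μ col f θ I j v = Good μ col f θ J j v := by
  funext P y
  unfold Good wt
  rw [cnd_view hf h, cnd_view hf h]

lemma st_view {r : ℕ} (hf : LocalWith r f) {I J : Inst N} {v : Fin N} (h : SameView r v I J)
    (j : ℕ) : st μ col f θ L C o j I v = st μ col f θ L C o j J v := by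
  induction j with
  | zero => rfl
  | succ j ih =>
    unfold st
    rw [ih, good_view hf h]

theorem par_derand [IsProbabilityMeasure μ] {S : Finset (Fin N)} {G : SimpleGraph (Fin N)}
    {c : Fin N → Fin N} {r ρ K n : ℕ} (hC : ∀ I ∈ C, I.S = S ∧ I.G = G)
    (hK : ∀ x ∈ S, col x < K) (hrad : ∀ x ∈ S, Near G ρ x (c x))
    (hsep : ∀ x ∈ S, ∀ y ∈ S, col x = col y → Near G (2 * r) x y → c x = c y)
    (hf : LocalWith r f) (hm : ∀ I u, Measurable fun a => f I a u) (h1 : ∀ I a v, f I a v ≤ 1)
    (hn : 0 < n) (hS : S.card ≤ n) (hL : C.card < 2 ^ L) :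
    ∃ w : Inst N → Fin N → Ω,
      (∀ I ∈ C, ∀ J ∈ C, ∀ x ∈ S, SameView (2 * ρ + 2 * r) x I J → w I x = w J x) ∧
      ∀ I ∈ C, ∀ v ∈ S, f I (w I) v ≤
        (L * (2 * n)) ^ K * ∫⁻ a, f I a v ∂(Measure.pi fun _ : Fin N => μ) := by
  classical
  obtain ⟨o⟩ : Nonempty Ω := nonempty_of_isProbabilityMeasure μ
  set θ : ℝ≥0∞ := 2 * n with hθ
  let s := st μ col f θ L C o
  let ls : ℕ → ℕ → Fin N → Ω := fun j => lst μ col f θ L C o j (s j)
  let Q : Inst N → ℕ → Fin N → ℕ → Prop := fun I j z l => l < L ∧ ∀ v ∈ S,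
    (∃ x, Near G r v x ∧ col x = j ∧ c x = z) → Good μ col f θ I j v (s j I v) (ls j l)
  have hall : ∀ I ∈ C, ∀ j, ∃ l < L, ∀ v ∈ S, Good μ col f θ I j v (s j I v) (ls j l) := by
    intro I hI j
    have := lst_spec (μ := μ) (col := col) (o := o) hm h1 hn
      (fun I hI => (hC I hI).1 ▸ hS) hθ hL j (s j) I hI
    rwa [(hC I hI).1] at this
  have hmem : ∀ I ∈ C, ∀ v ∈ S, ∀ x t, Near G t v x → x ∈ S := by
    intro I hI v hv x t hx
    have := I.mem_of_reachable (v := v) (x := x) (by rw [(hC I hI).2]; exact hx.reachable)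
      (by rw [(hC I hI).1]; exact hv)
    rwa [(hC I hI).1] at this
  let sel : Inst N → ℕ → Fin N → ℕ := fun I j z => Classical.epsilon (Q I j z)
  have hsel : ∀ I ∈ C, ∀ j z, Q I j z (sel I j z) := by
    intro I hI j z
    obtain ⟨l, hl, hg⟩ := hall I hI j
    exact Classical.epsilon_spec ⟨l, hl, fun v hv _ => hg v hv⟩
  refine ⟨fun I x => ls (col x) (sel I (col x) (c x)) x, fun I hI J hJ x hx hv => ?_,
    fun I hI v hv => ?_⟩
  · have : Q I (col x) (c x) = Q J (col x) (c x) := by
      funext l
      refine propext (and_congr_right fun _ => forall_congr' fun v => forall_congr' fun hvS =>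
        forall_congr' fun hex => ?_)
      obtain ⟨y, hy, _, hc⟩ := hex
      have hy' := hmem I hI v hvS y r hy
      have a1 : Near G (2 * ρ + r) x v :=
        ((hrad x hx).trans (hc ▸ (hrad y hy').symm)).trans' hy.symm (by omega)
      have a2 : SameView r v I J := hv.shift (by rw [(hC I hI).2]; exact a1) (by omega)
      simp only [s]
      rw [good_view hf a2, st_view hf a2]
    simp only [sel, this]
  · have hind : ∀ j, ∃ b ∈ s j I v, ∀ x, Near G r v x → col x < j →
        b x = ls (col x) (sel I (col x) (c x)) x := by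
      intro j
      induction j with
      | zero => exact ⟨fun _ => o, Multiset.mem_singleton_self _, fun x _ h => absurd h (by omega)⟩
      | succ j ih =>
        obtain ⟨b, hb, hbx⟩ := ih
        have hl : ∃ l < L, Good μ col f θ I j v (s j I v) (ls j l) ∧
            ∀ x, Near G r v x → col x = j → l = sel I j (c x) := by
          by_cases hex : ∃ x, Near G r v x ∧ col x = j
          · obtain ⟨x0, hx0, hc0⟩ := hex
            refine ⟨sel I j (c x0), (hsel I hI j _).1, (hsel I hI j _).2 v hv ⟨x0, hx0, hc0, rfl⟩,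
              fun x hx hc => ?_⟩
            rw [hsep x0 (hmem I hI v hv _ _ hx0) x (hmem I hI v hv _ _ hx) (by omega)
              (hx0.symm.trans' hx (by omega))]
          · obtain ⟨l, hl, hg⟩ := hall I hI j
            exact ⟨l, hl, hg v hv, fun x hx hc => absurd ⟨x, hx, hc⟩ hex⟩
        obtain ⟨l, hl, hg, hlx⟩ := hl
        refine ⟨upd col j b (ls j l), ?_, fun x hx hc => ?_⟩
        · simp only [s, st]
          refine Multiset.mem_bind.2 ⟨l, ?_, Multiset.mem_map.2 ⟨b, hb, rfl⟩⟩
          rw [Finset.mem_val, mem_filter]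
          exact ⟨mem_range.2 hl, hg⟩
        · unfold upd
          split_ifs with hcx
          · rw [hcx, hlx x hx hcx]
          · exact hbx x hx (by omega)
    obtain ⟨b, hb, hbx⟩ := hind K
    have hdep : ∀ a a', (∀ x, Near G r v x → a x = a' x) → f I a v = f I a' v := by
      intro a a' h
      exact f_dep hf I v a a' fun x hx => h x (by rw [← (hC I hI).2]; exact hx)
    have e1 : cnd μ col f I K v = fun b => f I b v := by
      unfold cnd
      refine lmarg_of_indep (B := fun x => Near G r v x) hdep _ fun x hx hn => ?_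
      have := hK x (hmem I hI v hv _ _ hn)
      have := (mem_filter.1 hx).2
      omega
    refine le_trans ?_ (wt_le (col := col) (θ := θ) (L := L) (C := C) (o := o) I v K)
    rw [← hdep b _ fun x hx => hbx x hx (hK x (hmem I hI v hv _ _ hx))]
    unfold wt
    rw [e1]
    exact Multiset.single_le_sum (fun _ _ => zero_le) _ (Multiset.mem_map.2 ⟨b, hb, rfl⟩)

end Main

end Pool.Agent.Lib.MP_559647_lc.H36
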