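import Mathlib

/-! Determinants of sums of rank-one operators. -/

namespace Pool.Agent.Lib.MP_559647_lc.H96

open Finset

/-- Euclidean space of dimension `k`. -/
abbrev Eu (k : ℕ) := EuclideanSpace ℝ (Fin k)

variable {k : ℕ}

theorem hadamard (w : Fin k → Eu k) :
    |(EuclideanSpace.basisFun (Fin k) ℝ).toBasis.det w| ≤ ∏ j, ‖w j‖ := by
  have : Fact (Module.finrank ℝ (Eu k) = k) := ⟨by simp⟩
  let b := EuclideanSpace.basisFun (Fin k) ℝ
  rw [← b.toBasis.orientation.volumeForm_robust' b w]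
  exact b.toBasis.orientation.abs_volumeForm_apply_le w

theorem sum_inj_le {ι : Type} [Fintype ι] [DecidableEq ι] (a : ι → ℝ) (ha : ∀ i, 0 ≤ a i) :
    ∑ p ∈ univ.filter (fun p : Fin k → ι => Function.Injective p), ∏ j, a (p j) ≤
      k.factorial * ∏ i, (1 + a i) := by
  rw [← sum_fiberwise_of_maps_to (s := univ.filter (fun p : Fin k → ι => Function.Injective p))
    (t := (univ : Finset ι).powerset) (g := fun p => univ.image p)
    (fun p _ => mem_powerset.2 (subset_univ _)), prod_one_add, mul_sum]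
  refine sum_le_sum fun S _ => ?_
  have h1 : ∀ p ∈ (univ.filter (fun p : Fin k → ι => Function.Injective p)).filter
      (fun p => univ.image p = S), ∏ j, a (p j) = ∏ i ∈ S, a i := by
    intro p hp
    simp only [mem_filter, mem_univ, true_and] at hp
    rw [← hp.2, prod_image fun x _ y _ h => hp.1 h]
  rw [sum_congr rfl h1, sum_const, nsmul_eq_mul]
  refine mul_le_mul_of_nonneg_right ?_ (prod_nonneg fun i _ => ha i)
  set F := (univ.filter (fun p : Fin k → ι => Function.Injective p)).filter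
      (fun p => univ.image p = S) with hF
  rcases F.eq_empty_or_nonempty with h | ⟨p₀, hp₀⟩
  · rw [h]; simp
  have hmem : ∀ p ∈ F, Function.Injective p ∧ univ.image p = S := by
    intro p hp
    simpa [hF] using hp
  have hS : S.card = k := by
    rw [← (hmem p₀ hp₀).2, card_image_of_injective _ (hmem p₀ hp₀).1]
    simp
  let e : F → (Fin k ↪ S) := fun p =>
    ⟨fun j => ⟨p.1 j, (hmem p.1 p.2).2 ▸ mem_image_of_mem _ (mem_univ j)⟩,
      fun x y h => (hmem p.1 p.2).1 (congrArg Subtype.val h)⟩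
  have he : Function.Injective e := by
    intro p q h
    refine Subtype.ext (funext fun j => ?_)
    exact congrArg Subtype.val (DFunLike.congr_fun h j)
  have := Fintype.card_le_of_injective e he
  rw [Fintype.card_embedding_eq, Fintype.card_coe, Fintype.card_coe, Fintype.card_fin, hS,
    Nat.descFactorial_self] at this
  exact_mod_cast this

theorem det_sum_le {ι : Type} [Fintype ι] (v : ι → Eu k) (g : ι → Eu k →L[ℝ] ℝ) :
    |(∑ i, (g i).smulRight (v i)).det| ≤ ∏ i, (1 + ‖v i‖ * ‖g i‖) := by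
  classical
  let b := EuclideanSpace.basisFun (Fin k) ℝ
  let D := b.toBasis.det
  let γ : ι → Eu k := fun i => (InnerProductSpace.toDual ℝ (Eu k)).symm (g i)
  have hγ : ∀ i j, g i (b j) = γ i j := by
    intro i j
    have h1 : inner ℝ (γ i) (b j) = g i (b j) := InnerProductSpace.toDual_symm_apply
    rw [← h1]
    simp [b, EuclideanSpace.inner_single_right]
  have hγn : ∀ i, ‖γ i‖ = ‖g i‖ := fun i => LinearIsometryEquiv.norm_map _ _
  set A := ∑ i, (g i).smulRight (v i) with hA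
  have h1 : A.det = ∑ p : Fin k → ι, (∏ j, γ (p j) j) * D (v ∘ p) := by
    have h2 := b.toBasis.det_comp (A : Eu k →ₗ[ℝ] Eu k) b.toBasis
    rw [Module.Basis.det_self, mul_one] at h2
    have h3 : ((A : Eu k →ₗ[ℝ] Eu k) ∘ b.toBasis) = fun j => ∑ i, γ i j • v i := by
      funext j
      simp only [hA, Function.comp_apply, ContinuousLinearMap.coe_coe,
        _root_.sum_apply, ContinuousLinearMap.smulRight_apply,
        OrthonormalBasis.coe_toBasis, hγ]
    rw [ContinuousLinearMap.det, ← h2, h3]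
    have h4 := D.toMultilinearMap.map_sum (fun j i => γ i j • v i)
    refine h4.trans (sum_congr rfl fun p _ => ?_)
    exact D.toMultilinearMap.map_smul_univ (fun j => γ (p j) j) (v ∘ p)
  have h5 : ∀ σ : Equiv.Perm (Fin k), A.det =
      ∑ p : Fin k → ι, ((Equiv.Perm.sign σ : ℤ) * ∏ j, γ (p (σ j)) j) * D (v ∘ p) := by
    intro σ
    rw [h1, ← (Equiv.arrowCongr σ (Equiv.refl ι)).symm.sum_comp]
    refine sum_congr rfl fun p _ => ?_
    have h6 : v ∘ ((Equiv.arrowCongr σ (Equiv.refl ι)).symm p) = (v ∘ p) ∘ σ := by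
      funext j; simp
    rw [h6, D.map_perm]
    simp only [Equiv.arrowCongr_symm, Equiv.arrowCongr_apply, Equiv.refl_symm, Equiv.coe_refl,
      Equiv.symm_symm, Function.comp_apply, id_eq, Units.smul_def, zsmul_eq_mul]
    ring
  have h7 : (k.factorial : ℝ) * A.det = ∑ p : Fin k → ι, D (γ ∘ p) * D (v ∘ p) := by
    have h8 := sum_congr (s₁ := (univ : Finset (Equiv.Perm (Fin k)))) rfl fun σ _ => h5 σ
    rw [sum_const, card_univ, Fintype.card_perm, Fintype.card_fin, nsmul_eq_mul, sum_comm] at h8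
    rw [h8]
    refine sum_congr rfl fun p _ => ?_
    rw [← sum_mul]
    congr 1
    rw [Module.Basis.det_apply, ← Matrix.det_transpose, Matrix.det_apply']
    refine sum_congr rfl fun σ _ => ?_
    congr 1
  have h9 : |(k.factorial : ℝ) * A.det| ≤ k.factorial * ∏ i, (1 + ‖v i‖ * ‖g i‖) := by
    refine le_trans ?_ (sum_inj_le (k := k) (fun i => ‖v i‖ * ‖g i‖) fun i => by positivity)
    rw [h7, sum_filter]
    refine (abs_sum_le_sum_abs _ _).trans (sum_le_sum fun p _ => ?_)
    split_ifs with hp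
    · rw [abs_mul, prod_mul_distrib, mul_comm]
      refine mul_le_mul (hadamard _) ((hadamard _).trans (le_of_eq ?_)) (abs_nonneg _)
        (prod_nonneg fun j _ => norm_nonneg _)
      exact prod_congr rfl fun j _ => hγn _
    · rw [D.map_eq_zero_of_not_injective (v ∘ p) fun h => hp h.of_comp]
      simp
  rw [abs_mul, abs_of_nonneg (by positivity)] at h9
  exact le_of_mul_le_mul_left h9 (by positivity)

/-- `A` is a sum of rank-one operators of controlled size. -/
def Ctl (A : Eu k →L[ℝ] Eu k) (β : ℝ) : Prop :=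
  ∃ (ι : Type) (_ : Fintype ι) (v : ι → Eu k) (g : ι → Eu k →L[ℝ] ℝ),
    A = ∑ i, (g i).smulRight (v i) ∧ ∏ i, (1 + ‖v i‖ * ‖g i‖) ≤ Real.exp β

theorem Ctl.det_le {A : Eu k →L[ℝ] Eu k} {β : ℝ} (h : Ctl A β) : |A.det| ≤ Real.exp β := by
  obtain ⟨ι, _, v, g, rfl, h⟩ := h
  exact (det_sum_le v g).trans h

theorem Ctl.mono {A : Eu k →L[ℝ] Eu k} {β β' : ℝ} (h : Ctl A β) (hβ : β ≤ β') : Ctl A β' := by
  obtain ⟨ι, _, v, g, rfl, h⟩ := h
  exact ⟨ι, _, v, g, rfl, h.trans (Real.exp_le_exp.2 hβ)⟩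

theorem ctl_zero : Ctl (0 : Eu k →L[ℝ] Eu k) 0 :=
  ⟨Empty, inferInstance, Empty.elim, Empty.elim, by simp, by simp⟩

theorem Ctl.add {A B : Eu k →L[ℝ] Eu k} {β β' : ℝ} (h : Ctl A β) (h' : Ctl B β') :
    Ctl (A + B) (β + β') := by
  obtain ⟨ι, _, v, g, rfl, h⟩ := h
  obtain ⟨ι', _, v', g', rfl, h'⟩ := h'
  refine ⟨ι ⊕ ι', inferInstance, Sum.elim v v', Sum.elim g g', by simp, ?_⟩
  rw [Fintype.prod_sum_type, Real.exp_add]
  exact mul_le_mul h h' (prod_nonneg fun i _ => by positivity) (Real.exp_pos _).le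

theorem ctl_one (v : Eu k) (g : Eu k →L[ℝ] ℝ) {β : ℝ} (h : 1 + ‖v‖ * ‖g‖ ≤ Real.exp β) :
    Ctl (g.smulRight v) β :=
  ⟨Unit, inferInstance, fun _ => v, fun _ => g, by simp, by simpa using h⟩

end Pool.Agent.Lib.MP_559647_lc.H96
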