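import Pool.Agent.Lib.MP_559647_lc.H96Det
import Pool.Agent.Shared.Kuhn.Sperner

/-! A Lipschitz map of bounded displacement cannot have small Jacobian everywhere. -/

namespace Pool.Agent.Lib.MP_559647_lc.H96

open MeasureTheory Metric
open scoped NNReal ENNReal Pointwise

variable {k : ℕ}

/-- The cube of half side `r`. -/
def cube (k : ℕ) (r : ℝ) : Set (Eu k) := {x | ∀ i, |x i| ≤ r}

theorem abs_apply_le (x : Eu k) (i : Fin k) : |x i| ≤ ‖x‖ := by
  simpa using PiLp.norm_apply_le x i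

theorem exists_preimage {φ : Eu k → Eu k} (hφ : Continuous φ) {R : ℝ} (hR : 0 < R)
    (hd : ∀ x ∈ cube k (2 * R), ‖φ x - x‖ ≤ R) {y : Eu k} (hy : y ∈ cube k R) :
    ∃ x ∈ cube k (2 * R), φ x = y := by
  let X : (Fin k → ℝ) → Eu k := fun z => WithLp.toLp 2 fun i => 2 * R * (2 * z i - 1)
  have hX : Continuous X := by
    refine (PiLp.continuous_toLp 2 _).comp ?_
    fun_prop
  have hXm : ∀ z ∈ Set.Icc (0 : Fin k → ℝ) 1, X z ∈ cube k (2 * R) := by
    intro z hz i
    have h1 : 0 ≤ z i := hz.1 i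
    have h2 : z i ≤ 1 := hz.2 i
    change |2 * R * (2 * z i - 1)| ≤ 2 * R
    rw [abs_le]
    constructor <;> nlinarith
  let f : (Fin k → ℝ) → (Fin k → ℝ) := fun z i => ((y i - (φ (X z) - X z) i) / (2 * R) + 1) / 2
  have hf : Continuous f := by
    refine continuous_pi fun i => ?_
    have h1 : Continuous fun z => (φ (X z) - X z) i :=
      (EuclideanSpace.proj (𝕜 := ℝ) i).continuous.comp ((hφ.comp hX).sub hX)
    exact (((continuous_const.sub h1).div_const _).add continuous_const).div_const _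
  obtain ⟨z, hz, hfz⟩ := Shared.Kuhn.brouwer_cube f hf.continuousOn fun z hz => by
    have key : ∀ i, |(y i - (φ (X z) - X z) i) / (2 * R)| ≤ 1 := by
      intro i
      have h1 := (abs_apply_le _ i).trans (hd _ (hXm z hz))
      have h2 := hy i
      rw [abs_div, abs_of_pos (by positivity : 0 < 2 * R), div_le_one (by positivity)]
      exact (abs_sub _ _).trans (by linarith)
    refine ⟨fun i => ?_, fun i => ?_⟩
    · have := (abs_le.1 (key i)).1
      change 0 ≤ (_ + 1) / 2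
      linarith
    · have := (abs_le.1 (key i)).2
      change (_ + 1) / 2 ≤ 1
      linarith
  refine ⟨X z, hXm z hz, ?_⟩
  ext i
  have h1 : ((y i - (φ (X z) - X z) i) / (2 * R) + 1) / 2 = z i := congrFun hfz i
  have h2 : (φ (X z) - X z) i = φ (X z) i - 2 * R * (2 * z i - 1) := rfl
  rw [h2] at h1
  field_simp at h1
  linarith

theorem isClosed_cube (r : ℝ) : IsClosed (cube k r) := by
  have : cube k r = ⋂ i, {x : Eu k | |x i| ≤ r} := by ext x; simp [cube]
  rw [this]
  exact isClosed_iInter fun i => isClosed_le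
    (continuous_abs.comp (EuclideanSpace.proj (𝕜 := ℝ) i).continuous) continuous_const

theorem norm_le_of_coord {x : Eu k} {r : ℝ} (hr : 0 ≤ r) (h : ∀ i, |x i| ≤ r) :
    ‖x‖ ≤ √k * r := by
  rw [EuclideanSpace.norm_eq, ← Real.sqrt_sq hr, ← Real.sqrt_mul (Nat.cast_nonneg k)]
  refine Real.sqrt_le_sqrt ?_
  calc ∑ i, ‖x i‖ ^ 2 ≤ ∑ _i : Fin k, r ^ 2 := Finset.sum_le_sum fun i _ =>
        pow_le_pow_left₀ (norm_nonneg _) (h i) 2
    _ = k * r ^ 2 := by simp

theorem one_le_jac {φ : Eu k → Eu k} {K : ℝ≥0} (hφ : LipschitzWith K φ) {R : ℝ} (hR : 0 < R)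
    (hd : ∀ x ∈ cube k (2 * R), ‖φ x - x‖ ≤ R) {M : ℝ}
    (hdet : ∀ᵐ x ∂(μH[k] : Measure (Eu k)), x ∈ cube k (2 * R) → |(fderiv ℝ φ x).det| ≤ M) :
    1 ≤ 2 ^ k * M := by
  set μ : Measure (Eu k) := μH[k] with hμ
  have hae := hdet.and (hφ.ae_differentiableAt (μ := μ))
  obtain ⟨N, hN, hNm, hN0⟩ := exists_measurable_superset_of_null hae
  let s := cube k (2 * R) \ N
  have hs : MeasurableSet s := (isClosed_cube _).measurableSet.diff hNm
  have hgood : ∀ x ∈ s, |(fderiv ℝ φ x).det| ≤ M ∧ DifferentiableAt ℝ φ x := by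
    intro x hx
    have h1 : (x ∈ cube k (2 * R) → |(fderiv ℝ φ x).det| ≤ M) ∧ DifferentiableAt ℝ φ x := by
      by_contra h
      exact hx.2 (hN h)
    exact ⟨h1.1 hx.1, h1.2⟩
  have h1 : μ (φ '' s) ≤ ENNReal.ofReal M * μ (cube k (2 * R)) := by
    refine (addHaar_image_le_lintegral_abs_det_fderiv μ hs
      fun x hx => (hgood x hx).2.hasFDerivAt.hasFDerivWithinAt).trans ?_
    refine (setLIntegral_mono' hs fun x hx => ENNReal.ofReal_le_ofReal (hgood x hx).1).trans ?_
    rw [setLIntegral_const]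
    exact mul_le_mul_right (measure_mono Set.sdiff_subset) _
  have h2 : μ (φ '' N) = 0 := by
    refine le_antisymm ((hφ.hausdorffMeasure_image_le (Nat.cast_nonneg k) N).trans ?_) zero_le
    rw [← hμ, hN0, mul_zero]
  have h3 : cube k R ⊆ φ '' s ∪ φ '' N := by
    intro y hy
    obtain ⟨x, hx, rfl⟩ := exists_preimage hφ.continuous hR hd hy
    by_cases hxN : x ∈ N
    · exact Or.inr ⟨x, hxN, rfl⟩
    · exact Or.inl ⟨x, ⟨hx, hxN⟩, rfl⟩
  have h4 : cube k (2 * R) = (2 : ℝ) • cube k R := by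
    ext x
    rw [Set.mem_smul_set_iff_inv_smul_mem₀ two_ne_zero]
    refine forall_congr' fun i => ?_
    rw [PiLp.smul_apply, smul_eq_mul, abs_mul, abs_of_pos (by norm_num : (0 : ℝ) < 2⁻¹)]
    constructor <;> intro h <;> linarith
  have h5 : μ (cube k R) ≤ ENNReal.ofReal (2 ^ k * M) * μ (cube k R) := by
    refine (measure_mono h3).trans ((measure_union_le _ _).trans ?_)
    rw [h2, add_zero]
    refine h1.trans (le_of_eq ?_)
    rw [h4, Measure.addHaar_smul_of_nonneg μ zero_le_two, finrank_euclideanSpace_fin,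
      ENNReal.ofReal_mul (by positivity)]
    ring
  have h6 : μ (cube k R) ≠ 0 := by
    refine ne_of_gt (lt_of_lt_of_le (measure_ball_pos μ 0 hR) (measure_mono fun x hx i => ?_))
    exact (abs_apply_le x i).trans (mem_ball_zero_iff.1 hx).le
  have h7 : μ (cube k R) ≠ ∞ := by
    refine ne_of_lt (lt_of_le_of_lt (measure_mono fun x hx => ?_)
      (measure_closedBall_lt_top (x := (0 : Eu k)) (r := √k * R)))
    exact mem_closedBall_zero_iff.2 (norm_le_of_coord hR.le hx)
  have h8 : (1 : ℝ≥0∞) ≤ ENNReal.ofReal (2 ^ k * M) := by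
    rw [← ENNReal.mul_le_mul_iff_left h6 h7, one_mul]
    exact h5
  exact ENNReal.one_le_ofReal.1 h8

end Pool.Agent.Lib.MP_559647_lc.H96
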