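import Pool.Agent.Lib.MP_559647_lc.H96Rec
import Pool.Agent.Lib.MP_559647_lc.H96Vol

/-! The choice of the parameters and the geometric lower bound. -/

namespace Pool.Agent.Lib.MP_559647_lc.H96

open MeasureTheory Metric Filter Topology

variable {k : ℕ} {V : Type}

theorem sqrt_two_ge : (7 / 5 : ℝ) ≤ √2 := Real.le_sqrt_of_sq_le (by norm_num)

theorem sqrt_two_le : √2 ≤ (3 / 2 : ℝ) := Real.sqrt_le_iff.2 ⟨by norm_num, by norm_num⟩

theorem sqrt_two_pow (l : ℕ) : √(2 ^ l) = √2 ^ l := by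
  rw [← Real.sqrt_sq (pow_nonneg (Real.sqrt_nonneg 2) l), ← pow_mul, mul_comm, pow_mul,
    Real.sq_sqrt (by norm_num)]

theorem split_level (m l : ℕ) : (∃ j, m - l = j + 1 ∧ m - (l + 1) = j ∧ l - m = 0 ∧
    l + 1 - m = 0 ∧ m = l + (j + 1)) ∨
    ∃ i, m - l = 0 ∧ m - (l + 1) = 0 ∧ l - m = i ∧ l + 1 - m = i + 1 ∧ l = m + i := by
  rcases lt_or_ge l m with h | h
  · exact Or.inl ⟨m - (l + 1), by omega, rfl, by omega, by omega, by omega⟩
  · exact Or.inr ⟨l - m, by omega, by omega, rfl, by omega, by omega⟩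

/-- The interpolation data centred at level `m`. -/
noncomputable def mkData (p c : V → Eu k) (ρ : V → ℝ) (L : ℝ) (m : ℕ) (a : ℝ)
    (ha : a = 64 * √(2 * L) / √2 ^ m)
    (hc : ∀ u w, dist (p u) (p w) ≤ 1 → ‖c u - c w‖ ^ 2 ≤ 2 * |ρ u - ρ w|) : Data k V where
  p := p
  c := c
  ρ := ρ
  L := L
  τ := fun l => 3 / 8 + ((7 / 8) ^ (m - l) - (7 / 8) ^ (l - m)) / 8
  α := fun l => a * (12 / 7) ^ (m - l) * (6 / 7) ^ (l - m)
  A := fun l => 40 * √a * (√2 ^ (m - l) - (4 / 3) ^ (m - l))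
  B := fun l => 7 * a * (6 / 7) ^ (l - m)
  hc := hc
  hτ := fun l => by
    rcases split_level m l with ⟨j, h1, h2, h3, h4, -⟩ | ⟨j, h1, h2, h3, h4, -⟩ <;>
    · simp only [h1, h2, h3, h4, pow_succ]
      have : (0 : ℝ) < (7 / 8) ^ j := by positivity
      linarith
  hτ2 := fun l => by
    have h1 : ((7 : ℝ) / 8) ^ (m - l) ≤ 1 := pow_le_one₀ (by norm_num) (by norm_num)
    have h2 : (0 : ℝ) < (7 / 8) ^ (l - m) := by positivity
    linarith
  hα := fun l => by
    have h0 : (0 : ℝ) < √2 := by positivity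
    have hs := Real.sqrt_nonneg (2 * L)
    rw [← mul_div_assoc, Real.sqrt_div' _ (by positivity), sqrt_two_pow]
    rcases split_level m l with ⟨j, h1, h2, h3, h4, h5⟩ | ⟨j, h1, h2, h3, h4, h5⟩
    · simp only [h1, h2, h3, h4]
      have h6 : √2 ^ (j + 1) ≤ (3 / 2 : ℝ) ^ (j + 1) := pow_le_pow_left₀ h0.le sqrt_two_le _
      have h7 : ((12 : ℝ) / 7) ^ j * (7 / 8) ^ j = (3 / 2) ^ j := by rw [← mul_pow]; norm_num
      have h8 : (0 : ℝ) < (3 / 2) ^ j := by positivity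
      have h9 : √(2 * L) / √2 ^ l = √(2 * L) / √2 ^ m * √2 ^ (j + 1) := by
        rw [h5, pow_add]; field_simp
      calc _ ≤ √(2 * L) / √2 ^ m * (12 / 7 * (3 / 2) ^ j) := by
            rw [h9]
            refine mul_le_mul_of_nonneg_left (h6.trans ?_) (by positivity)
            rw [pow_succ]; linarith
        _ = _ := by rw [ha, ← h7]; ring
    · simp only [h1, h2, h3, h4]
      have h6 : (1 : ℝ) ≤ (3 / 4 * √2) ^ j := one_le_pow₀ (by linarith [sqrt_two_ge])
      have h7 : ((6 : ℝ) / 7) ^ j * (7 / 8) ^ j = (3 / 4) ^ j := by rw [← mul_pow]; norm_num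
      have h9 : √(2 * L) / √2 ^ m * (3 / 4) ^ j = √(2 * L) / √2 ^ l * (3 / 4 * √2) ^ j := by
        rw [h5, pow_add, mul_pow]; field_simp
      calc _ ≤ √(2 * L) / √2 ^ m * (3 / 4) ^ j := by
            rw [h9]
            exact le_mul_of_one_le_right (by positivity) h6
        _ = _ := by rw [ha, ← h7]; ring
  hA := fun l => mul_nonneg (by positivity)
    (sub_nonneg.2 (pow_le_pow_left₀ (by norm_num) (by linarith [sqrt_two_ge]) _))
  hB := fun l => by
    have : 0 ≤ a := by rw [ha]; positivity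
    positivity
  hstep := fun l W hW => by
    have ha0 : 0 ≤ a := by rw [ha]; positivity
    rcases split_level m l with ⟨j, h1, h2, h3, h4, -⟩ | ⟨j, h1, h2, h3, h4, -⟩
    · simp only [h1, h2, h3, h4]
      set z := 40 * √a * √W * (4 / 3) ^ j * (√2 - 4 / 3) with hz
      have h5 : (1 / 15 : ℝ) ≤ √2 - 4 / 3 := by linarith [sqrt_two_ge]
      have hz0 : 0 ≤ z := mul_nonneg (by positivity) (by linarith)
      have h6 : z ^ 2 = 1600 * a * W * (16 / 9) ^ j * (√2 - 4 / 3) ^ 2 := by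
        have : ((16 : ℝ) / 9) ^ j = ((4 / 3) ^ j) ^ 2 := by
          rw [← pow_mul, mul_comm, pow_mul]; norm_num
        rw [hz, this, mul_pow, mul_pow, mul_pow, mul_pow, Real.sq_sqrt ha0, Real.sq_sqrt hW]
        norm_num
      have h7 : ((12 : ℝ) / 7) ^ j ≤ (16 / 9) ^ j := pow_le_pow_left₀ (by norm_num) (by norm_num) _
      have h8 : (1 / 15 : ℝ) ^ 2 ≤ (√2 - 4 / 3) ^ 2 := pow_le_pow_left₀ (by norm_num) h5 2
      have h9 : a * W * (12 / 7) ^ j * (1 / 15) ^ 2 ≤ a * W * (16 / 9) ^ j * (√2 - 4 / 3) ^ 2 :=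
        mul_le_mul (mul_le_mul_of_nonneg_left h7 (by positivity)) h8 (by positivity)
          (by positivity)
      have h10 : 0 ≤ a * W * (12 / 7) ^ j := by positivity
      have h11 := Real.quadratic_le_exp_of_nonneg hz0
      calc _ = 1 + 12 / 7 * (a * W * (12 / 7) ^ j) := by ring
        _ ≤ Real.exp z := by nlinarith
        _ = _ := by congr 1; rw [hz]; ring
    · simp only [h1, h2, h3, h4]
      calc _ = W * (a * (6 / 7) ^ j) + 1 := by ring
        _ ≤ Real.exp (W * (a * (6 / 7) ^ j)) := Real.add_one_le_exp _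
        _ = _ := by congr 1; ring

theorem geo [Fintype V] (hk : 0 < k) (p c : V → Eu k) (ρ : V → ℝ) {L D : ℝ} (hD : 0 ≤ D)
    (hL : 0 < L) (hc : ∀ u w, dist (p u) (p w) ≤ 1 → ‖c u - c w‖ ^ 2 ≤ 2 * |ρ u - ρ w|)
    (hinj : Function.Injective ρ) (hρ : ∀ u, 0 ≤ ρ u ∧ ρ u < L) (hcp : ∀ u, dist (c u) (p u) ≤ D)
    (hnet : ∀ x ∈ cube k (2 * (D + 1 / 2)), ∃ u, dist x (p u) ≤ 1 / 4) :
    k * √k ≤ 128 * Real.exp 67 * √(2 * L) := by
  set m := Nat.clog 2 k with hm
  have hm1 : (k : ℝ) ≤ 2 ^ m := by exact_mod_cast Nat.le_pow_clog one_lt_two k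
  have hm2 : (2 : ℝ) ^ m ≤ 2 * k := by
    have : 2 ^ m ≤ 2 * k := by
      rcases Nat.eq_or_lt_of_le (Nat.succ_le_of_lt hk) with h | h
      · rw [hm, ← h]; simp
      · have h1 := Nat.pow_pred_clog_lt_self one_lt_two h
        have h2 := Nat.clog_pos one_lt_two h
        rw [← hm] at h1 h2
        obtain ⟨i, hi⟩ : ∃ i, m = i + 1 := ⟨m - 1, by omega⟩
        rw [hi] at h1 ⊢
        rw [Nat.pred_succ] at h1
        rw [pow_succ]
        omega
    exact_mod_cast this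
  set a := 64 * √(2 * L) / √2 ^ m with ha
  have ha0 : 0 < a := by positivity
  have hk0 : (0 : ℝ) < k := by exact_mod_cast hk
  let d := mkData p c ρ L m a ha hc
  obtain ⟨j, hj⟩ : ∃ j : ℕ, ∀ u w, u ≠ w → L / 2 ^ (0 + j) ≤ |ρ u - ρ w| := by
    have h1 : Tendsto (fun j : ℕ => L / 2 ^ (0 + j)) atTop (𝓝 0) := by
      simp only [zero_add]
      exact (tendsto_pow_atTop_atTop_of_one_lt one_lt_two).const_div_atTop L
    refine Eventually.exists (f := atTop) (eventually_all.2 fun u => eventually_all.2 fun w => ?_)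
    by_cases h : u = w
    · exact Eventually.of_forall fun _ h' => absurd h h'
    · have h2 : 0 < |ρ u - ρ w| := abs_pos.2 (sub_ne_zero.2 fun e => h (hinj e))
      filter_upwards [h1.eventually (ge_mem_nhds h2)] with j hj _ using hj
  obtain ⟨φ, hφ⟩ := d.exists_good j 0 Finset.univ 0 hj fun u _ => by
    change 0 ≤ ρ u ∧ ρ u < 0 + L / 2 ^ 0
    simpa using hρ u
  have hnear : ∀ x ∈ cube k (2 * (D + 1 / 2)), ∃ u ∈ Finset.univ, dist x (d.p u) ≤ d.τ 0 := by
    intro x hx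
    obtain ⟨u, hu⟩ := hnet x hx
    refine ⟨u, Finset.mem_univ u, hu.trans ?_⟩
    change _ ≤ 3 / 8 + (((7 : ℝ) / 8) ^ (m - 0) - (7 / 8) ^ (0 - m)) / 8
    have : (0 : ℝ) < (7 / 8) ^ (m - 0) := by positivity
    rw [Nat.zero_sub, pow_zero]
    linarith
  obtain ⟨K, hK⟩ := hφ.lip
  set t := k / a with ht
  have ht0 : 0 < t := by positivity
  have hβ : d.A 0 * √t + d.B 0 * t ≤ 67 * k := by
    change 40 * √a * (√2 ^ (m - 0) - (4 / 3) ^ (m - 0)) * √t + 7 * a * (6 / 7) ^ (0 - m) * t ≤ _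
    have h1 : √a * √t = √k := by
      rw [← Real.sqrt_mul ha0.le, ht]; congr 1; field_simp
    have h2 : √2 ^ m ≤ √2 * √k := by
      rw [← sqrt_two_pow, ← Real.sqrt_mul (by norm_num)]
      exact Real.sqrt_le_sqrt hm2
    have h3 : (0 : ℝ) < (4 / 3) ^ m := by positivity
    have h4 : √k * √k = (k : ℝ) := Real.mul_self_sqrt hk0.le
    have h5 : a * t = k := by rw [ht]; field_simp
    have h6 : √2 ^ m - (4 / 3) ^ m ≤ 3 / 2 * √k :=
      le_trans (by linarith) (mul_le_mul_of_nonneg_right sqrt_two_le (Real.sqrt_nonneg k))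
    have h7 := mul_le_mul_of_nonneg_left h6 (Real.sqrt_nonneg k)
    rw [Nat.zero_sub, Nat.sub_zero, pow_zero]
    calc _ = 40 * ((√a * √t) * (√2 ^ m - (4 / 3) ^ m)) + 7 * (a * t) := by ring
      _ ≤ _ := by rw [h1, h5]; nlinarith
  have h1 := one_le_jac hK (R := D + 1 / 2) (by positivity) (M := (Real.exp 67 / t) ^ k)
    (fun x hx => by
      have h2 : convexHull ℝ (d.c '' {u | u ∈ Finset.univ ∧ dist x (d.p u) ≤ 1 / 2}) ⊆
          closedBall x (D + 1 / 2) := by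
        refine convexHull_min ?_ (convex_closedBall _ _)
        rintro _ ⟨u, hu, rfl⟩
        have h3 : dist x (p u) ≤ 1 / 2 := hu.2
        exact (dist_triangle_right (c u) x (p u)).trans (add_le_add (hcp u) h3)
      rw [← dist_eq_norm]
      exact h2 (hφ.hull x (hnear x hx)))
    (by
      filter_upwards [hφ.ctl] with x hx hx'
      have h2 := ((hx (hnear x hx') t ht0.le).mono hβ).det_le
      have h3 : (t • fderiv ℝ φ x).det = t ^ k * (fderiv ℝ φ x).det := by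
        have := LinearMap.det_smul t (fderiv ℝ φ x : Eu k →ₗ[ℝ] Eu k)
        rw [finrank_euclideanSpace_fin] at this
        exact this
      rw [h3, abs_mul, abs_of_pos (pow_pos ht0 k), mul_comm (67 : ℝ), Real.exp_nat_mul] at h2
      rw [div_pow, le_div_iff₀ (pow_pos ht0 k), mul_comm]
      exact h2)
  rw [← mul_pow] at h1
  have h2 : 1 ≤ 2 * (Real.exp 67 / t) := by
    by_contra h
    exact absurd h1 (not_le.2 (pow_lt_one₀ (by positivity) (not_le.1 h) hk.ne'))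
  have h3 : √k ≤ √2 ^ m := by
    rw [← sqrt_two_pow]
    exact Real.sqrt_le_sqrt hm1
  have h4 : (k : ℝ) ≤ 2 * Real.exp 67 * a := by
    rw [ht, div_div_eq_mul_div, ← mul_div_assoc, one_le_div hk0] at h2
    linarith
  calc k * √k ≤ 2 * Real.exp 67 * a * √2 ^ m :=
        mul_le_mul h4 h3 (Real.sqrt_nonneg _) (by positivity)
    _ = _ := by rw [ha]; field_simp; norm_num

end Pool.Agent.Lib.MP_559647_lc.H96
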