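import Pool.Agent.Lib.MP_559647_lc.H96Geo

/-! Orientations of unit-distance graphs on fine nets have long directed reach. -/

namespace Pool.Agent.Lib.MP_559647_lc.H96

open Metric Filter Topology

variable {k : ℕ} {V : Type}

theorem exists_center (R : Finset (Eu k)) (hR : R.Nonempty) : ∃ (c : Eu k) (r : ℝ),
    (∀ v ∈ R, ‖c - v‖ ^ 2 ≤ r) ∧
      ∀ y s, (∀ v ∈ R, ‖y - v‖ ^ 2 ≤ s) → r + ‖y - c‖ ^ 2 / 2 ≤ s := by
  let F : Eu k → ℝ := fun y => R.sup' hR fun v => ‖y - v‖ ^ 2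
  have hF : Continuous F := Continuous.finset_sup'_apply hR fun v _ => by fun_prop
  have hle : ∀ y, ∀ v ∈ R, ‖y - v‖ ^ 2 ≤ F y := fun y v hv =>
    Finset.le_sup' (fun v => ‖y - v‖ ^ 2) hv
  obtain ⟨v₀, hv₀⟩ := hR
  obtain ⟨c, hc⟩ := hF.exists_forall_le' v₀ (by
    filter_upwards [(isCompact_closedBall v₀ √(F v₀)).compl_mem_cocompact] with x hx
    have h1 : √(F v₀) < ‖x - v₀‖ := by
      rw [← dist_eq_norm]
      exact not_le.1 hx
    exact ((Real.sqrt_le_left (norm_nonneg _)).1 h1.le).trans (hle x v₀ hv₀))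
  refine ⟨c, F c, hle c, fun y s hs => ?_⟩
  have h1 : F ((2⁻¹ : ℝ) • (c + y)) ≤ (F c + s) / 2 - ‖y - c‖ ^ 2 / 4 := by
    refine Finset.sup'_le _ _ fun v hv => ?_
    have h2 : (2⁻¹ : ℝ) • (c + y) - v = (2⁻¹ : ℝ) • ((y - v) + (c - v)) := by module
    have h3 := parallelogram_law_with_norm ℝ (y - v) (c - v)
    rw [sub_sub_sub_cancel_right] at h3
    rw [h2, norm_smul, Real.norm_eq_abs, abs_of_pos (by norm_num : (0 : ℝ) < 2⁻¹)]
    nlinarith [hs v hv, hle c v hv]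
  linarith [hc ((2⁻¹ : ℝ) • (c + y))]

theorem exists_perturb [Fintype V] (r : V → ℝ) : ∃ ρ : V → ℝ, Function.Injective ρ ∧
    (∀ u, r u ≤ ρ u ∧ ρ u < r u + 1) ∧ ∀ u w, |r u - r w| ≤ 2 * |ρ u - ρ w| := by
  obtain ⟨g, hg, hg0, hg1⟩ : ∃ g : ℝ, (∀ u w, r u ≠ r w → 2 * g ≤ |r u - r w|) ∧ 0 < g ∧ g < 1 := by
    refine Eventually.exists (f := 𝓝[>] (0 : ℝ)) (Eventually.and
      (eventually_all.2 fun u => eventually_all.2 fun w => ?_) (Ioo_mem_nhdsGT zero_lt_one))
    by_cases h : r u = r w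
    · exact Eventually.of_forall fun _ h' => absurd h h'
    · have h2 : 0 < |r u - r w| / 2 := half_pos (abs_pos.2 (sub_ne_zero.2 h))
      filter_upwards [Ioo_mem_nhdsGT h2] with g hg _
      linarith [hg.2]
  let e := Fintype.equivFin V
  let N : ℝ := Fintype.card V + 1
  have hN : 0 < N := by positivity
  let δ : V → ℝ := fun u => g * ((e u : ℕ) / N)
  have hδ : ∀ u, 0 ≤ δ u ∧ δ u < g := by
    intro u
    have h1 : ((e u : ℕ) : ℝ) < Fintype.card V := by exact_mod_cast (e u).2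
    exact ⟨by positivity, mul_lt_of_lt_one_right hg0 ((div_lt_one hN).2 (by linarith))⟩
  have key : ∀ u w, |r u - r w| ≤ 2 * |r u + δ u - (r w + δ w)| := by
    intro u w
    by_cases h : r u = r w
    · rw [h, sub_self, abs_zero]; positivity
    · have h1 := hg u w h
      have h2 : |δ u - δ w| ≤ g :=
        abs_le.2 ⟨by linarith [(hδ u).1, (hδ w).2], by linarith [(hδ u).2, (hδ w).1]⟩
      have h3 := abs_sub (r u + δ u - (r w + δ w)) (δ u - δ w)
      rw [show r u + δ u - (r w + δ w) - (δ u - δ w) = r u - r w by ring] at h3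
      linarith
  refine ⟨fun u => r u + δ u, fun u w h => ?_, fun u => ⟨by linarith [(hδ u).1],
    by linarith [(hδ u).2]⟩, key⟩
  have h1 := key u w
  have h2 : r u + δ u = r w + δ w := h
  rw [h2, sub_self, abs_zero, mul_zero] at h1
  have h3 : r u = r w := sub_eq_zero.1 (abs_nonpos_iff.1 h1)
  have h4 : g * ((e u : ℕ) / N) = g * ((e w : ℕ) / N) := by
    change δ u = δ w
    linarith
  have h5 : ((e u : ℕ) : ℝ) = (e w : ℕ) := by
    field_simp at h4
    exact h4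
  exact e.injective (Fin.ext (by exact_mod_cast h5))

theorem reach_bound [Fintype V] (hk : 0 < k) (p : V → Eu k) (r : V → V → Prop)
    (hr : ∀ u w, u ≠ w → dist (p u) (p w) ≤ 1 → r u w ∨ r w u) {D : ℝ} (hD : 0 ≤ D)
    (hreach : ∀ u v, Relation.ReflTransGen r u v → dist (p u) (p v) ≤ D)
    (hnet : ∀ x ∈ cube k (2 * (D + 1 / 2)), ∃ u, dist x (p u) ≤ 1 / 4) :
    k * √k ≤ 384 * Real.exp 67 * (D + 1) := by
  classical
  let R : V → Finset (Eu k) := fun u =>
    (Finset.univ.filter fun v => Relation.ReflTransGen r u v).image p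
  have hR : ∀ u y, y ∈ R u ↔ ∃ v, Relation.ReflTransGen r u v ∧ p v = y := by
    intro u y
    simp [R]
  have hself : ∀ u, p u ∈ R u := fun u => (hR u _).2 ⟨u, .refl, rfl⟩
  choose c s h1 h2 using fun u => exists_center (R u) ⟨_, hself u⟩
  have hs0 : ∀ u, 0 ≤ s u := fun u => (sq_nonneg _).trans (h1 u _ (hself u))
  have hsD : ∀ u, s u ≤ D ^ 2 := by
    intro u
    have := h2 u (p u) (D ^ 2) fun y hy => by
      obtain ⟨v, hv, rfl⟩ := (hR u y).1 hy
      rw [← dist_eq_norm]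
      exact pow_le_pow_left₀ dist_nonneg (hreach u v hv) 2
    linarith [sq_nonneg ‖p u - c u‖]
  have harc : ∀ u w, r u w → ‖c u - c w‖ ^ 2 ≤ 2 * |s u - s w| := by
    intro u w h
    have := h2 w (c u) (s u) fun y hy => by
      obtain ⟨v, hv, rfl⟩ := (hR w y).1 hy
      exact h1 u _ ((hR u _).2 ⟨v, hv.head h, rfl⟩)
    linarith [le_abs_self (s u - s w)]
  obtain ⟨ρ, hρ1, hρ2, hρ3⟩ := exists_perturb s
  have h3 := geo hk p c (fun u => 2 * ρ u) (L := 2 * (D ^ 2 + 1)) hD (by positivity)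
    (fun u w h => by
      rw [← mul_sub, abs_mul, abs_two]
      by_cases e : u = w
      · simp [e]
      rcases hr u w e h with h | h
      · linarith [harc u w h, hρ3 u w]
      · have := harc w u h
        rw [norm_sub_rev, abs_sub_comm] at this
        linarith [hρ3 u w])
    (fun u w h => hρ1 (mul_left_cancel₀ two_ne_zero h))
    (fun u => ⟨by linarith [hs0 u, (hρ2 u).1], by linarith [hsD u, (hρ2 u).2]⟩)
    (fun u => by
      rw [dist_eq_norm]
      exact (pow_le_pow_iff_left₀ (norm_nonneg _) hD two_ne_zero).1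
        ((h1 u _ (hself u)).trans (hsD u))) hnet
  have h4 : √(2 * (2 * (D ^ 2 + 1))) ≤ 3 * (D + 1) :=
    Real.sqrt_le_iff.2 ⟨by positivity, by nlinarith⟩
  have h5 := mul_le_mul_of_nonneg_left h4 (by positivity : 0 ≤ 128 * Real.exp 67)
  linarith

theorem exists_net (hk : 0 < k) {n : ℕ} (hn : (25 * k ^ 3) ^ k ≤ n) : ∃ p : Fin n → Eu k,
    ∀ x ∈ cube k (2 * k ^ 2 + 1), ∃ u, dist x (p u) ≤ 1 / 4 := by
  have hk0 : (0 : ℝ) < k := by exact_mod_cast hk
  have hk1 : (1 : ℝ) ≤ k := by exact_mod_cast hk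
  have hpos : 0 < 25 * k ^ 3 := by positivity
  have : Nonempty (Fin (25 * k ^ 3)) := ⟨⟨0, hpos⟩⟩
  obtain ⟨e⟩ : Nonempty ((Fin k → Fin (25 * k ^ 3)) ↪ Fin n) :=
    Function.Embedding.nonempty_of_card_le (by simpa using hn)
  let q : (Fin k → Fin (25 * k ^ 3)) → Eu k := fun z =>
    WithLp.toLp 2 fun i => ((z i : ℕ) : ℝ) / (4 * k) - (2 * k ^ 2 + 1)
  refine ⟨fun u => q (Function.invFun e u), fun x hx => ?_⟩
  have h0 : ∀ i, 0 ≤ (x i + (2 * k ^ 2 + 1)) * (4 * k) := fun i =>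
    mul_nonneg (by linarith [(abs_le.1 (hx i)).1]) (by positivity)
  have hlt : ∀ i, ⌊(x i + (2 * k ^ 2 + 1)) * (4 * k)⌋₊ < 25 * k ^ 3 := by
    intro i
    rw [Nat.floor_lt (h0 i)]
    have h1 : (x i + (2 * k ^ 2 + 1)) * (4 * k) ≤ (2 * (2 * k ^ 2 + 1)) * (4 * k) :=
      mul_le_mul_of_nonneg_right (by linarith [(abs_le.1 (hx i)).2]) (by positivity)
    have h2 : (k : ℝ) ≤ k ^ 3 := le_self_pow₀ hk1 (by norm_num)
    have h3 : (0 : ℝ) < k ^ 3 := by positivity
    push_cast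
    nlinarith
  let z : Fin k → Fin (25 * k ^ 3) := fun i => ⟨_, hlt i⟩
  refine ⟨e z, ?_⟩
  change dist x (q (Function.invFun e (e z))) ≤ 1 / 4
  rw [Function.leftInverse_invFun e.injective z, dist_eq_norm]
  refine (norm_le_of_coord (r := 1 / (4 * k)) (by positivity) fun i => ?_).trans ?_
  · have h1 := Nat.floor_le (h0 i)
    have h2 := Nat.lt_floor_add_one ((x i + (2 * k ^ 2 + 1)) * (4 * k))
    have h3 : (x - q z) i = ((x i + (2 * k ^ 2 + 1)) * (4 * k) -
        (⌊(x i + (2 * k ^ 2 + 1)) * (4 * k)⌋₊ : ℝ)) / (4 * k) := by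
      change x i - ((⌊(x i + (2 * k ^ 2 + 1)) * (4 * k)⌋₊ : ℝ) / (4 * k) - (2 * k ^ 2 + 1)) = _
      field_simp
      ring
    rw [h3, abs_div, abs_of_pos (by positivity : (0 : ℝ) < 4 * k)]
    refine div_le_div_of_nonneg_right (abs_le.2 ⟨by linarith, by linarith⟩) (by positivity)
  · have h1 : √k ≤ (k : ℝ) := Real.sqrt_le_iff.2 ⟨hk0.le, by nlinarith⟩
    rw [mul_one_div, div_le_iff₀ (by positivity)]
    linarith

theorem dist_le_length {G : SimpleGraph V} (p : V → Eu k)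
    (hG : ∀ u w, G.Adj u w → dist (p u) (p w) ≤ 1) {u v : V} (w : G.Walk u v) :
    dist (p u) (p v) ≤ w.length := by
  induction w with
  | nil => simp
  | cons h _ ih =>
    rw [SimpleGraph.Walk.length_cons]
    push_cast
    exact (dist_triangle _ _ _).trans (by linarith [hG _ _ h])

theorem exists_graph (hk : 0 < k) {n : ℕ} (hn : (25 * k ^ 3) ^ k ≤ n) {D : ℝ} (hD : 0 ≤ D)
    (hD1 : D ≤ k ^ 2) (hD2 : 384 * Real.exp 67 * (D + 1) < k * √k) :
    ∃ G : SimpleGraph (Fin n), ∀ r : Fin n → Fin n → Prop, (∀ u v, r u v → G.Adj u v) →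
      (∀ u v, G.Adj u v → r u v ∨ r v u) →
      ∃ u v, Relation.ReflTransGen r u v ∧ D ≤ G.dist u v := by
  obtain ⟨p, hp⟩ := exists_net hk hn
  let G : SimpleGraph (Fin n) :=
    { Adj := fun u v => u ≠ v ∧ dist (p u) (p v) ≤ 1
      symm := ⟨fun u v h => ⟨h.1.symm, by rw [dist_comm]; exact h.2⟩⟩
      loopless := ⟨fun u h => h.1 rfl⟩ }
  refine ⟨G, fun r h1 h2 => ?_⟩
  by_contra h
  push Not at h
  refine absurd (reach_bound hk p r (fun u w e h => h2 u w ⟨e, h⟩) hD (fun u v huv => ?_)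
    fun x hx => hp x fun i => (hx i).trans (by linarith)) (not_le.2 hD2)
  have h3 : G.Reachable u v := by
    induction huv with
    | refl => exact SimpleGraph.Reachable.refl _
    | tail _ h ih => exact ih.trans (h1 _ _ h).reachable
  obtain ⟨w, hw⟩ := h3.exists_walk_length_eq_dist
  have h4 := dist_le_length (G := G) p (fun _ _ h => h.2) w
  rw [hw] at h4
  exact h4.trans (h u v huv).le

end Pool.Agent.Lib.MP_559647_lc.H96
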