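import Pool.Agent.Lib.MP_559647_lc.H96Det

/-! Dyadic interpolation of a family of centres whose variation is controlled by a potential. -/

namespace Pool.Agent.Lib.MP_559647_lc.H96

open MeasureTheory Metric
open scoped NNReal

variable {k : ℕ} {V : Type}

theorem lip_smul {ψ : Eu k → ℝ} {f : Eu k → Eu k} {K K' : ℝ≥0} {M : ℝ} (hψ : LipschitzWith K ψ)
    (h1 : ∀ x, |ψ x| ≤ 1) (hf : LipschitzWith K' f) (hM : ∀ x, ‖f x‖ ≤ M) :
    ∃ C, LipschitzWith C fun x => ψ x • f x := by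
  have hM0 : 0 ≤ M := (norm_nonneg _).trans (hM 0)
  refine ⟨K' + K * ⟨M, hM0⟩, LipschitzWith.of_dist_le_mul fun x y => ?_⟩
  have h2 : ψ x • f x - ψ y • f y = ψ x • (f x - f y) + (ψ x - ψ y) • f y := by
    rw [smul_sub, sub_smul]; abel
  have h3 := hψ.dist_le_mul x y
  have h4 := hf.dist_le_mul x y
  rw [dist_eq_norm (f x)] at h4
  rw [Real.dist_eq] at h3
  rw [dist_eq_norm (ψ x • f x), h2]
  refine (norm_add_le _ _).trans ?_
  rw [norm_smul, norm_smul, Real.norm_eq_abs, Real.norm_eq_abs]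
  have h5 : |ψ x| * ‖f x - f y‖ ≤ 1 * (K' * dist x y) :=
    mul_le_mul (h1 x) h4 (norm_nonneg _) zero_le_one
  have h6 : |ψ x - ψ y| * ‖f y‖ ≤ K * dist x y * M :=
    mul_le_mul h3 (hM y) (norm_nonneg _) (by positivity)
  push_cast
  change _ ≤ ((K' : ℝ) + K * M) * dist x y
  linarith

theorem clm_smul_zero (W : ℝ) : W • (0 : Eu k →L[ℝ] Eu k) = 0 := by
  ext y : 1
  simp

theorem clm_zero_smul (A : Eu k →L[ℝ] Eu k) : (0 : ℝ) • A = 0 := by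
  ext y : 1
  simp

theorem sqrt_split {s W : ℝ} (h0 : 0 ≤ s) (h1 : s ≤ 1) (hW : 0 ≤ W) :
    √(W * s) + √(W * (1 - s)) ≤ √2 * √W := by
  rw [← Real.sqrt_mul (by norm_num)]
  refine Real.le_sqrt_of_sq_le ?_
  have h2 := Real.sq_sqrt (mul_nonneg hW h0)
  have h3 := Real.sq_sqrt (mul_nonneg hW (sub_nonneg.2 h1))
  nlinarith [sq_nonneg (√(W * s) - √(W * (1 - s)))]

/-- The data of the interpolation. -/
structure Data (k : ℕ) (V : Type) where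
  /-- positions -/
  p : V → Eu k
  /-- centres -/
  c : V → Eu k
  /-- potential -/
  ρ : V → ℝ
  /-- range of the potential -/
  L : ℝ
  /-- cut-off radii -/
  τ : ℕ → ℝ
  /-- slopes -/
  α : ℕ → ℝ
  /-- first cost -/
  A : ℕ → ℝ
  /-- second cost -/
  B : ℕ → ℝ
  hc : ∀ u w, dist (p u) (p w) ≤ 1 → ‖c u - c w‖ ^ 2 ≤ 2 * |ρ u - ρ w|
  hτ : ∀ l, τ l < τ (l + 1)
  hτ2 : ∀ l, τ l ≤ 1 / 2
  hα : ∀ l, √(2 * (L / 2 ^ l)) ≤ α l * (τ (l + 1) - τ l)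
  hA : ∀ l, 0 ≤ A l
  hB : ∀ l, 0 ≤ B l
  hstep : ∀ l W, 0 ≤ W → 1 + W * α l ≤
    Real.exp (A l * √W + B l * W - (√2 * A (l + 1) * √W + B (l + 1) * W))

/-- An interpolating map for the nodes of `S` at level `l`. -/
structure Data.Good (d : Data k V) (l : ℕ) (S : Finset V) (φ : Eu k → Eu k) : Prop where
  lip : ∃ K, LipschitzWith K φ
  bdd : ∃ M, ∀ x, ‖φ x‖ ≤ M
  hull : ∀ x, (∃ u ∈ S, dist x (d.p u) ≤ d.τ l) →
    φ x ∈ convexHull ℝ (d.c '' {u | u ∈ S ∧ dist x (d.p u) ≤ 1 / 2})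
  ctl : ∀ᵐ x ∂(μH[k] : Measure (Eu k)), (∃ u ∈ S, dist x (d.p u) ≤ d.τ l) →
    ∀ W, 0 ≤ W → Ctl (W • fderiv ℝ φ x) (d.A l * √W + d.B l * W)

theorem Data.alpha_nonneg (d : Data k V) (l : ℕ) : 0 ≤ d.α l :=
  nonneg_of_mul_nonneg_left ((Real.sqrt_nonneg _).trans (d.hα l)) (sub_pos.2 (d.hτ l))

theorem Data.cost_le (d : Data k V) (l : ℕ) {W : ℝ} (hW : 0 ≤ W) :
    d.A (l + 1) * √W + d.B (l + 1) * W ≤ d.A l * √W + d.B l * W := by
  have h1 := d.hstep l W hW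
  have h2 : 0 ≤ W * d.α l := mul_nonneg hW (d.alpha_nonneg l)
  have h3 := Real.one_le_exp_iff.1 (le_trans (by linarith) h1)
  have h4 : (1 : ℝ) ≤ √2 := Real.one_le_sqrt.2 (by norm_num)
  have h5 : 0 ≤ d.A (l + 1) * √W := mul_nonneg (d.hA _) (Real.sqrt_nonneg _)
  nlinarith

theorem Data.Good.pred {d : Data k V} {l : ℕ} {S : Finset V} {φ : Eu k → Eu k}
    (h : d.Good (l + 1) S φ) : d.Good l S φ := by
  have hn : ∀ x, (∃ u ∈ S, dist x (d.p u) ≤ d.τ l) → ∃ u ∈ S, dist x (d.p u) ≤ d.τ (l + 1) :=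
    fun x ⟨u, hu, hx⟩ => ⟨u, hu, hx.trans (d.hτ l).le⟩
  refine ⟨h.lip, h.bdd, fun x hx => h.hull x (hn x hx), ?_⟩
  filter_upwards [h.ctl] with x hx hx' W hW
  exact (hx (hn x hx') W hW).mono (d.cost_le l hW)

theorem Data.good_const (d : Data k V) (l : ℕ) (S : Finset V)
    (hS : ∀ u ∈ S, ∀ w ∈ S, u = w) : ∃ φ, d.Good l S φ := by
  have h0 : ∀ (y : Eu k) (x : Eu k) (W : ℝ), 0 ≤ W →
      Ctl (W • fderiv ℝ (fun _ : Eu k => y) x) (d.A l * √W + d.B l * W) := by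
    intro y x W hW
    rw [fderiv_fun_const, Pi.zero_apply, clm_smul_zero]
    exact ctl_zero.mono (add_nonneg (mul_nonneg (d.hA _) (Real.sqrt_nonneg _))
      (mul_nonneg (d.hB _) hW))
  rcases S.eq_empty_or_nonempty with rfl | ⟨u, hu⟩
  · exact ⟨fun _ => 0, ⟨0, LipschitzWith.const _⟩, ⟨_, fun _ => le_rfl⟩,
      fun x ⟨u, hu, _⟩ => absurd hu (Finset.notMem_empty u),
      Filter.Eventually.of_forall fun x _ => h0 _ x⟩
  · refine ⟨fun _ => d.c u, ⟨0, LipschitzWith.const _⟩, ⟨_, fun _ => le_rfl⟩, ?_,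
      Filter.Eventually.of_forall fun x _ => h0 _ x⟩
    rintro x ⟨w, hw, hx⟩
    obtain rfl := hS u hu w hw
    exact subset_convexHull _ _ ⟨u, ⟨hu, hx.trans (d.hτ2 l)⟩, rfl⟩

theorem Data.good_glue (d : Data k V) (l : ℕ) (S S₀ S₁ : Finset V) (h₀ : S₀ ⊆ S) (h₁ : S₁ ⊆ S)
    (hS : ∀ u ∈ S, u ∈ S₀ ∨ u ∈ S₁) (hne : S₀.Nonempty)
    (hρ : ∀ u ∈ S, ∀ w ∈ S, |d.ρ u - d.ρ w| ≤ d.L / 2 ^ l) {φ₀ φ₁ : Eu k → Eu k}
    (g₀ : d.Good (l + 1) S₀ φ₀) (g₁ : d.Good (l + 1) S₁ φ₁) : ∃ φ, d.Good l S φ := by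
  set w := d.τ (l + 1) - d.τ l with hw
  have hw0 : 0 < w := sub_pos.2 (d.hτ l)
  let P : Set (Eu k) := d.p '' S₀
  have hP : P.Nonempty := (Finset.coe_nonempty.2 hne).image _
  let ψ : Eu k → ℝ := fun x => max 0 (min 1 ((d.τ (l + 1) - infDist x P) / w))
  have hψ0 : ∀ x, 0 ≤ ψ x := fun x => le_max_left _ _
  have hψ1 : ∀ x, ψ x ≤ 1 := fun x => max_le zero_le_one (min_le_left _ _)
  have hψL : LipschitzWith ⟨w⁻¹, (inv_pos.2 hw0).le⟩ ψ := by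
    refine LipschitzWith.const_max (LipschitzWith.const_min ?_ 1) 0
    refine LipschitzWith.of_dist_le_mul fun x y => ?_
    have h1 := (lipschitz_infDist_pt P).dist_le_mul x y
    rw [Real.dist_eq] at h1 ⊢
    rw [← sub_div, abs_div, abs_of_pos hw0, div_eq_inv_mul]
    refine mul_le_mul_of_nonneg_left ?_ (inv_pos.2 hw0).le
    rw [sub_sub_sub_cancel_left, abs_sub_comm]
    simpa using h1
  have hpos : ∀ x, ψ x ≠ 0 → ∃ u ∈ S₀, dist x (d.p u) ≤ d.τ (l + 1) := by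
    intro x hx
    have h1 : 0 < (d.τ (l + 1) - infDist x P) / w := by
      by_contra h
      exact hx (max_eq_left ((min_le_right _ _).trans (not_lt.1 h)))
    have h2 : infDist x P < d.τ (l + 1) := sub_pos.1 ((div_pos_iff_of_pos_right hw0).1 h1)
    obtain ⟨_, ⟨u, hu, rfl⟩, h3⟩ := (infDist_lt_iff hP).1 h2
    exact ⟨u, hu, h3.le⟩
  have hlt : ∀ x, (∃ u ∈ S, dist x (d.p u) ≤ d.τ l) → ψ x ≠ 1 →
      ∃ u ∈ S₁, dist x (d.p u) ≤ d.τ (l + 1) := by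
    rintro x ⟨u, hu, hx⟩ h1
    refine ⟨u, (hS u hu).resolve_left fun hu₀ => h1 ?_, hx.trans (d.hτ l).le⟩
    have h2 : infDist x P ≤ d.τ l := (infDist_le_dist_of_mem (show d.p u ∈ P from ⟨u, hu₀, rfl⟩)).trans hx
    have h3 : 1 ≤ (d.τ (l + 1) - infDist x P) / w := (one_le_div hw0).2 (by linarith)
    change max 0 (min 1 _) = 1
    rw [min_eq_left h3, max_eq_right zero_le_one]
  have hh₀ : ∀ x, ψ x ≠ 0 → φ₀ x ∈ convexHull ℝ (d.c '' {u | u ∈ S ∧ dist x (d.p u) ≤ 1 / 2}) :=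
    fun x hx => convexHull_mono (Set.image_mono fun u hu => And.intro (h₀ hu.1) hu.2)
      (g₀.hull x (hpos x hx))
  have hh₁ : ∀ x, (∃ u ∈ S, dist x (d.p u) ≤ d.τ l) → ψ x ≠ 1 →
      φ₁ x ∈ convexHull ℝ (d.c '' {u | u ∈ S ∧ dist x (d.p u) ≤ 1 / 2}) :=
    fun x hx hx' => convexHull_mono (Set.image_mono fun u hu => And.intro (h₁ hu.1) hu.2)
      (g₁.hull x (hlt x hx hx'))
  obtain ⟨K₀, hK₀⟩ := g₀.lip
  obtain ⟨K₁, hK₁⟩ := g₁.lip
  obtain ⟨M₀, hM₀⟩ := g₀.bdd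
  obtain ⟨M₁, hM₁⟩ := g₁.bdd
  have hMd : ∀ x, ‖φ₀ x - φ₁ x‖ ≤ M₀ + M₁ := fun x =>
    (norm_sub_le _ _).trans (add_le_add (hM₀ x) (hM₁ x))
  have habs : ∀ x, |ψ x| ≤ 1 := fun x => by rw [abs_of_nonneg (hψ0 x)]; exact hψ1 x
  obtain ⟨C, hC⟩ := lip_smul hψL habs (hK₀.sub hK₁) hMd
  refine ⟨fun x => φ₁ x + ψ x • (φ₀ x - φ₁ x), ⟨_, hK₁.add hC⟩, ⟨M₁ + (M₀ + M₁), fun x => ?_⟩,
    fun x hx => ?_, ?_⟩
  · refine (norm_add_le _ _).trans (add_le_add (hM₁ x) ?_)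
    rw [norm_smul, Real.norm_eq_abs]
    exact (mul_le_of_le_one_left (norm_nonneg _) (habs x)).trans (hMd x)
  · by_cases e0 : ψ x = 0
    · simpa [e0] using hh₁ x hx (by rw [e0]; exact zero_ne_one)
    by_cases e1 : ψ x = 1
    · simpa [e1] using hh₀ x e0
    exact (convex_convexHull ℝ _).add_smul_sub_mem (hh₁ x hx e1) (hh₀ x e0) ⟨hψ0 x, hψ1 x⟩
  · filter_upwards [g₀.ctl, g₁.ctl, hK₀.ae_differentiableAt, hK₁.ae_differentiableAt,
      hψL.ae_differentiableAt] with x c₀ c₁ d₀ d₁ dψ hx W hW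
    have hD := d₁.hasFDerivAt.add (dψ.hasFDerivAt.smul (d₀.hasFDerivAt.sub d₁.hasFDerivAt))
    have hD' : fderiv ℝ (fun x => φ₁ x + ψ x • (φ₀ x - φ₁ x)) x =
        fderiv ℝ φ₁ x + (ψ x • (fderiv ℝ φ₀ x - fderiv ℝ φ₁ x) +
          (fderiv ℝ ψ x).smulRight (φ₀ x - φ₁ x)) := hD.fderiv
    have hE : W • fderiv ℝ (fun x => φ₁ x + ψ x • (φ₀ x - φ₁ x)) x =
        (W * ψ x) • fderiv ℝ φ₀ x + (W * (1 - ψ x)) • fderiv ℝ φ₁ x +
          (fderiv ℝ ψ x).smulRight (W • (φ₀ x - φ₁ x)) := by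
      rw [hD']
      ext y : 1
      simp only [_root_.add_apply, _root_.smul_apply, _root_.sub_apply,
        ContinuousLinearMap.smulRight_apply]
      module
    have e₀ : Ctl ((W * ψ x) • fderiv ℝ φ₀ x)
        (d.A (l + 1) * √(W * ψ x) + d.B (l + 1) * (W * ψ x)) := by
      by_cases e0 : ψ x = 0
      · simpa [e0, clm_zero_smul] using ctl_zero
      · exact c₀ (hpos x e0) _ (mul_nonneg hW (hψ0 x))
    have e₁ : Ctl ((W * (1 - ψ x)) • fderiv ℝ φ₁ x)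
        (d.A (l + 1) * √(W * (1 - ψ x)) + d.B (l + 1) * (W * (1 - ψ x))) := by
      by_cases e1 : ψ x = 1
      · simpa [e1, clm_zero_smul] using ctl_zero
      · exact c₁ (hlt x hx e1) _ (mul_nonneg hW (sub_nonneg.2 (hψ1 x)))
    have hn : ‖φ₀ x - φ₁ x‖ * ‖fderiv ℝ ψ x‖ ≤ d.α l := by
      by_cases e0 : ψ x = 0
      · have : IsLocalMin ψ x := Filter.Eventually.of_forall fun y => e0 ▸ hψ0 y
        rw [this.fderiv_eq_zero, norm_zero, mul_zero]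
        exact d.alpha_nonneg l
      by_cases e1 : ψ x = 1
      · have : IsLocalMax ψ x := Filter.Eventually.of_forall fun y => e1 ▸ hψ1 y
        rw [this.fderiv_eq_zero, norm_zero, mul_zero]
        exact d.alpha_nonneg l
      obtain ⟨_, ⟨u, hu, rfl⟩, _, ⟨u', hu', rfl⟩, h1⟩ :=
        convexHull_exists_dist_ge2 (hh₀ x e0) (hh₁ x hx e1)
      have h2 : dist (d.p u) (d.p u') ≤ 1 := by
        have := dist_triangle_left (d.p u) (d.p u') x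
        linarith [hu.2, hu'.2]
      have h3 : ‖d.c u - d.c u'‖ ≤ √(2 * (d.L / 2 ^ l)) :=
        Real.le_sqrt_of_sq_le ((d.hc u u' h2).trans (by linarith [hρ u hu.1 u' hu'.1]))
      rw [dist_eq_norm, dist_eq_norm] at h1
      have h4 : ‖fderiv ℝ ψ x‖ ≤ w⁻¹ := norm_fderiv_le_of_lipschitz ℝ hψL
      calc _ ≤ (d.α l * w) * w⁻¹ := mul_le_mul ((h1.trans h3).trans (d.hα l)) h4 (norm_nonneg _)
            (mul_nonneg (d.alpha_nonneg l) hw0.le)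
        _ = d.α l := by field_simp
    have e₂ := ctl_one (W • (φ₀ x - φ₁ x)) (fderiv ℝ ψ x) (le_trans (by
      rw [norm_smul, Real.norm_eq_abs, abs_of_nonneg hW, mul_assoc]
      exact add_le_add_right (mul_le_mul_of_nonneg_left hn hW) 1) (d.hstep l W hW))
    rw [hE]
    refine ((e₀.add e₁).add e₂).mono ?_
    have := mul_le_mul_of_nonneg_left (sqrt_split (hψ0 x) (hψ1 x) hW) (d.hA (l + 1))
    nlinarith

theorem Data.exists_good (d : Data k V) (j : ℕ) : ∀ (l : ℕ) (S : Finset V) (a : ℝ),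
    (∀ u w, u ≠ w → d.L / 2 ^ (l + j) ≤ |d.ρ u - d.ρ w|) →
    (∀ u ∈ S, a ≤ d.ρ u ∧ d.ρ u < a + d.L / 2 ^ l) → ∃ φ, d.Good l S φ := by
  classical
  induction j with
  | zero =>
    intro l S a hg hS
    refine d.good_const l S fun u hu w hw => ?_
    by_contra h
    have h1 := hg u w h
    have h2 : |d.ρ u - d.ρ w| < d.L / 2 ^ l :=
      abs_lt.2 ⟨by linarith [(hS u hu).1, (hS w hw).2], by linarith [(hS u hu).2, (hS w hw).1]⟩
    rw [add_zero] at h1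
    linarith
  | succ j ih =>
    intro l S a hg hS
    have hh : d.L / 2 ^ l = d.L / 2 ^ (l + 1) + d.L / 2 ^ (l + 1) := by
      rw [pow_succ]; field_simp; ring
    have hg' : ∀ u w, u ≠ w → d.L / 2 ^ (l + 1 + j) ≤ |d.ρ u - d.ρ w| := by
      intro u w h
      rw [show l + 1 + j = l + (j + 1) by ring]
      exact hg u w h
    obtain ⟨φ₀, g₀⟩ := ih (l + 1) (S.filter fun u => d.ρ u < a + d.L / 2 ^ (l + 1)) a hg'
      fun u hu => ⟨(hS u (Finset.mem_filter.1 hu).1).1, (Finset.mem_filter.1 hu).2⟩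
    obtain ⟨φ₁, g₁⟩ := ih (l + 1) (S.filter fun u => ¬ d.ρ u < a + d.L / 2 ^ (l + 1))
      (a + d.L / 2 ^ (l + 1)) hg' fun u hu => ⟨not_lt.1 (Finset.mem_filter.1 hu).2, by
        linarith [(hS u (Finset.mem_filter.1 hu).1).2]⟩
    rcases (S.filter fun u => d.ρ u < a + d.L / 2 ^ (l + 1)).eq_empty_or_nonempty with h | h
    · rw [Finset.filter_true_of_mem fun u hu => Finset.filter_eq_empty_iff.1 h hu] at g₁
      exact ⟨φ₁, g₁.pred⟩
    · refine d.good_glue l S _ _ (Finset.filter_subset _ _) (Finset.filter_subset _ _)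
        (fun u hu => ?_) h (fun u hu w hw => ?_) g₀ g₁
      · simp only [Finset.mem_filter, hu, true_and]
        exact em _
      · exact abs_le.2 ⟨by linarith [(hS u hu).1, (hS w hw).2],
          by linarith [(hS u hu).2, (hS w hw).1]⟩

end Pool.Agent.Lib.MP_559647_lc.H96
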