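import Pool.Agent.Lib.MP_559647_lc.M64Defs
import Pool.Agent.Lib.MP_559647_lc.Basic

/-! Connected sets, partitions into connected clusters, weights of cut edges. -/

namespace Pool.Agent.Lib.MP_559647_lc.M64

open Finset SimpleGraph

section Graph

variable {V : Type} {G : SimpleGraph V} {S T : Set V}

/-- the edges of `G` with both ends in `S` -/
def within (G : SimpleGraph V) (S : Set V) : SimpleGraph V where
  Adj u v := G.Adj u v ∧ u ∈ S ∧ v ∈ S
  symm := ⟨fun _ _ h => ⟨h.1.symm, h.2.2, h.2.1⟩⟩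
  loopless := ⟨fun _ h => G.irrefl h.1⟩

/-- `S` is nonempty and connected by edges inside `S` -/
def Conn (G : SimpleGraph V) (S : Set V) : Prop :=
  S.Nonempty ∧ ∀ u ∈ S, ∀ v ∈ S, (within G S).Reachable u v

lemma within_le : within G S ≤ G := fun _ _ h => h.1

lemma within_mono (h : S ⊆ T) : within G S ≤ within G T :=
  fun _ _ a => ⟨a.1, h a.2.1, h a.2.2⟩

lemma Near.le {H : SimpleGraph V} (h : G ≤ H) {t : ℕ} {u v : V} (a : Near G t u v) :
    Near H t u v := le_trans (edist_anti h) a

lemma mem_of_reach {u v : V} (h : (within G S).Reachable u v) (hu : u ∈ S) : v ∈ S := by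
  obtain ⟨p⟩ := h
  induction p with
  | nil => exact hu
  | cons a _ ih => exact ih a.2.2

lemma conn_of_root {x : V} (hx : x ∈ S) (h : ∀ v ∈ S, (within G S).Reachable v x) : Conn G S :=
  ⟨⟨x, hx⟩, fun u hu v hv => (h u hu).trans (h v hv).symm⟩

lemma Conn.union (hS : Conn G S) (hT : Conn G T) {x y : V} (hx : x ∈ S) (hy : y ∈ T)
    (h : x = y ∨ G.Adj x y) : Conn G (S ∪ T) := by
  have hxy : (within G (S ∪ T)).Reachable x y := by
    rcases h with rfl | h
    · exact Reachable.refl _
    · exact Adj.reachable ⟨h, Or.inl hx, Or.inr hy⟩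
  refine conn_of_root (x := y) (Or.inr hy) fun v hv => ?_
  rcases hv with hv | hv
  · exact ((hS.2 v hv x hx).mono (within_mono Set.subset_union_left)).trans hxy
  · exact (hT.2 v hv y hy).mono (within_mono Set.subset_union_right)

lemma Conn.induce (h : Conn G S) : (G.induce S).Connected := by
  obtain ⟨⟨x, hx⟩, h⟩ := h
  have key : ∀ {u v : V} (_ : (within G S).Walk u v) (hu : u ∈ S) (hv : v ∈ S),
      (G.induce S).Reachable ⟨u, hu⟩ ⟨v, hv⟩ := by
    intro u v p
    induction p with
    | nil => intro _ _; exact Reachable.refl _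
    | cons a _ ih =>
      intro hu hv
      exact (Adj.reachable (G := G.induce S) (u := ⟨_, hu⟩) (v := ⟨_, a.2.2⟩) a.1).trans (ih _ hv)
  have : Nonempty S := ⟨⟨x, hx⟩⟩
  refine ⟨fun u v => ?_⟩
  obtain ⟨p⟩ := h u u.2 v v.2
  exact key p u.2 v.2

lemma cliqueMinor_of {h : ℕ} (B : Fin h → Set V) (h1 : ∀ i, Conn G (B i))
    (h2 : ∀ i j, i ≠ j → Disjoint (B i) (B j) ∧ ∃ x ∈ B i, ∃ y ∈ B j, G.Adj x y) :
    CliqueMinor G h := ⟨B, fun i => (h1 i).induce, h2⟩

lemma CliqueMinor.pred {h : ℕ} (a : CliqueMinor G (h + 1)) : CliqueMinor G h := by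
  obtain ⟨B, h1, h2⟩ := a
  exact ⟨fun i => B i.castSucc, fun i => h1 _,
    fun i j hij => h2 _ _ fun e => hij (Fin.castSucc_injective _ e)⟩

/-- `lab` is a partition into connected clusters; the label of a cluster is one of its nodes and
is within distance `ρ` (in `G`) of all its nodes -/
structure Part (G : SimpleGraph V) (ρ : ℕ) (lab : V → V) : Prop where
  idem : ∀ v, lab (lab v) = lab v
  near : ∀ v, Near G ρ v (lab v)
  conn : ∀ v, (within G {x | lab x = lab v}).Reachable v (lab v)

lemma Part.mono {ρ ρ' : ℕ} {lab : V → V} (h : Part G ρ lab) (hρ : ρ ≤ ρ') : Part G ρ' lab :=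
  ⟨h.idem, fun v => (h.near v).mono hρ, h.conn⟩

lemma Part.conn_fib {ρ : ℕ} {lab : V → V} (h : Part G ρ lab) {z : V} (hz : lab z = z) :
    Conn G {x | lab x = z} :=
  conn_of_root (x := z) hz fun v (hv : lab v = z) => hv ▸ h.conn v

lemma part_id : Part G 0 id := ⟨fun _ => rfl, fun v => near_refl 0 v, fun _ => Reachable.refl _⟩

/-- symmetric weights that live on the edges of `G` -/
structure Wt (G : SimpleGraph V) (W : V → V → ℕ) : Prop where
  symm : ∀ x y, W x y = W y x
  adj : ∀ x y, W x y ≠ 0 → G.Adj x y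

/-- total weight inside `X` -/
def tot (X : Finset V) (W : V → V → ℕ) : ℕ := ∑ x ∈ X, ∑ y ∈ X, W x y

/-- weight inside `X` of the pairs with different labels -/
def cut {α : Type} [DecidableEq α] (X : Finset V) (W : V → V → ℕ) (lab : V → α) : ℕ :=
  ∑ x ∈ X, ∑ y ∈ X, if lab x = lab y then 0 else W x y

lemma cut_le_tot {α : Type} [DecidableEq α] (X : Finset V) (W : V → V → ℕ) (lab : V → α) :
    cut X W lab ≤ tot X W :=
  sum_le_sum fun _ _ => sum_le_sum fun _ _ => by split_ifs <;> simp

open Classical in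
/-- the ball of radius `r` around `u` -/
noncomputable def ball [Fintype V] (G : SimpleGraph V) (r : ℕ) (u : V) : Finset V :=
  univ.filter fun x => Near G r u x

lemma mem_ball [Fintype V] {r : ℕ} {u x : V} : x ∈ ball G r u ↔ Near G r u x := by
  simp [ball]

end Graph

section Local

variable {N : ℕ} {C : Set (Inst N)}

/-- a local relation that always has a solution has a local solution -/
lemma Loc.choose {β : Type} [Nonempty β] {t : ℕ} {P : Inst N → Fin N → β → Prop} (h : Loc C t P) :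
    ∃ g : Inst N → Fin N → β, Loc C t g ∧ ∀ I v, (∃ b, P I v b) → P I v (g I v) :=
  ⟨fun I v => Classical.epsilon (P I v), fun I hI J hJ v hv => by
    simp only [h I hI J hJ v hv], fun I v hb => Classical.epsilon_spec hb⟩

/-- reading a local value at a nearby node -/
lemma Loc.comp {α : Type} {t s ρ : ℕ} {g : Inst N → Fin N → α} {p : Inst N → Fin N → Fin N}
    (hg : Loc C t g) (hp : Loc C s p) (hn : ∀ I ∈ C, ∀ v, Near I.G ρ v (p I v)) {u : ℕ}
    (h1 : ρ + t ≤ u) (h2 : s ≤ u) : Loc C u fun I v => g I (p I v) := by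
  intro I hI J hJ v hv
  have e := hp I hI J hJ v (hv.mono h2)
  show g I (p I v) = g J (p J v)
  rw [← e]
  exact hg.at hI hJ hv (hn I hI v) h1

/-- the nodes that point to `z` are seen from `z` -/
lemma Loc.fib {t ρ : ℕ} {p : Inst N → Fin N → Fin N} (hp : Loc C t p)
    (hn : ∀ I ∈ C, ∀ v, Near I.G ρ v (p I v)) {I J : Inst N} (hI : I ∈ C) (hJ : J ∈ C) {z : Fin N}
    {u : ℕ} (hz : SameView u z I J) (hu : ρ + t ≤ u) (x : Fin N) : p I x = z ↔ p J x = z := by
  constructor
  · intro h
    have := hn I hI x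
    rw [h] at this
    rw [← hp.at hI hJ hz this.symm hu, h]
  · intro h
    have := hn J hJ x
    rw [h] at this
    rw [← hp.at hJ hI hz.symm this.symm hu, h]

lemma within_view {I J : Inst N} {z : Fin N} {u ρ : ℕ} (hz : SameView u z I J) (hu : ρ < u)
    {S : Set (Fin N)} (hS : ∀ x ∈ S, Near I.G ρ z x) : within I.G S = within J.G S := by
  ext x y
  constructor
  · exact fun a => ⟨(hz.adj_iff (hS x a.2.1) hu y).1 a.1, a.2⟩
  · exact fun a => ⟨(hz.adj_iff (hS x a.2.1) hu y).2 a.1, a.2⟩

lemma near_view {I J : Inst N} {z x : Fin N} {u ρ s : ℕ} (hz : SameView u z I J)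
    (hx : Near I.G ρ z x) (hu : ρ + s ≤ u) (y : Fin N) : Near I.G s x y ↔ Near J.G s x y :=
  (hz.shift hx hu).near_iff le_rfl y

lemma ball_loc (r : ℕ) : Loc C r fun I u => ball I.G r u := by
  intro I _ J _ v hv
  ext x
  simp only [mem_ball]
  exact hv.near_iff le_rfl x

end Local

end Pool.Agent.Lib.MP_559647_lc.M64
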