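import Pool.Agent.Lib.MP_559647_lc.M64Kpr

/-! Cutting a connected set into connected pieces of small diameter along few edges. -/

namespace Pool.Agent.Lib.MP_559647_lc.M64

open Finset SimpleGraph

variable {V : Type} [DecidableEq V] {G : SimpleGraph V}

namespace CutAux

omit [DecidableEq V] in
lemma cut_mono {α β : Type} [DecidableEq α] [DecidableEq β] {X : Finset V} {W : V → V → ℕ}
    {l : V → α} {l' : V → β} (h : ∀ x ∈ X, ∀ y ∈ X, W x y ≠ 0 → l x = l y → l' x = l' y) :
    cut X W l' ≤ cut X W l := by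
  refine sum_le_sum fun x hx => sum_le_sum fun y hy => ?_
  by_cases h0 : W x y = 0
  · simp [h0]
  · by_cases h1 : l x = l y
    · simp [h1, h x hx y hy h0 h1]
    · rw [if_neg h1]
      split_ifs <;> simp

lemma one_off (w a : ℕ) :
    ((range w).filter fun o => ¬ (a + o) / w = (a + 1 + o) / w).card ≤ 1 := by
  have key : ∀ o, ¬ (a + o) / w = (a + 1 + o) / w → w ∣ a + o + 1 := by
    intro o h
    by_contra hd
    apply h
    rw [show a + 1 + o = a + o + 1 by ring, Nat.succ_div_of_not_dvd hd]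
  have aux : ∀ o o', o ≤ o' → o' < w → w ∣ a + o + 1 → w ∣ a + o' + 1 → o = o' := by
    intro o o' hle hlt h1 h2
    have h3 : w ∣ o' - o := by
      have := Nat.dvd_sub h2 h1
      rwa [show a + o' + 1 - (a + o + 1) = o' - o by omega] at this
    have := Nat.eq_zero_of_dvd_of_lt h3 (by omega)
    omega
  refine card_le_one.2 fun o ho o' ho' => ?_
  rw [mem_filter, mem_range] at ho ho'
  rcases le_total o o' with h | h
  · exact aux o o' h ho'.1 (key o ho.2) (key o' ho'.2)
  · exact (aux o' o h ho.1 (key o' ho'.2) (key o ho.2)).symm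

lemma sum_off (w c : ℕ) {a b : ℕ} (h1 : a ≤ b + 1) (h2 : b ≤ a + 1) :
    (∑ o ∈ range w, if (a + o) / w = (b + o) / w then 0 else c) ≤ c := by
  have main : ∀ a : ℕ, (∑ o ∈ range w, if (a + o) / w = (a + 1 + o) / w then 0 else c) ≤ c := by
    intro a
    rw [sum_ite, sum_const_zero, zero_add, sum_const, smul_eq_mul]
    calc _ ≤ 1 * c := Nat.mul_le_mul_right _ (one_off w a)
      _ = c := one_mul c
  rcases (by omega : a = b ∨ b = a + 1 ∨ a = b + 1) with rfl | rfl | rfl
  · simp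
  · exact main a
  · refine le_trans (le_of_eq (sum_congr rfl fun o _ => ?_)) (main b)
    simp only [eq_comm]

lemma idx_iff {w a o k : ℕ} (hw : 1 ≤ w) :
    (a + o) / w = k ↔ k * w - o ≤ a ∧ a < (k + 1) * w - o := by
  constructor
  · rintro rfl
    have h1 := Nat.div_mul_le_self (a + o) w
    have h2 := Nat.lt_div_mul_add (a := a + o) hw
    rw [Nat.succ_mul]
    omega
  · rintro ⟨h1, h2⟩
    exact Nat.div_eq_of_lt_le (by omega) (by omega)

omit [DecidableEq V] in
lemma reach_comp {A T : Set V} {v : V} (hT : ∀ z, (within G A).Reachable v z → z ∈ T) {a b : V}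
    (p : (within G A).Walk a b) (ha : (within G A).Reachable v a) :
    (within G T).Reachable a b := by
  induction p with
  | nil => exact Reachable.refl _
  | cons e _ ih =>
    have hb := ha.trans e.reachable
    exact (Adj.reachable (G := within G T) ⟨e.1, hT _ ha, hT _ hb⟩).trans (ih hb)

omit [DecidableEq V] in
lemma lev_adj {S : Set V} {x u v : V} (hu : (within G S).Reachable x u) (h : (within G S).Adj u v) :
    (within G S).dist x v ≤ (within G S).dist x u + 1 :=
  ((near_dist hu).trans (near_of_adj h)).dist_le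

/-- one chop -/
lemma one_chop {w : ℕ} (hw : 1 ≤ w) {W : V → V → ℕ} (hW : Wt G W) (S : Finset V)
    (hS : Conn G S) :
    ∃ ch : V → Finset V, (∀ v ∈ S, v ∈ ch v ∧ ch v ⊆ S ∧ Conn G (ch v) ∧ Child G w S (ch v) ∧
      ∀ u ∈ ch v, ch u = ch v) ∧ w * cut S W ch ≤ tot S W := by
  classical
  obtain ⟨⟨x, hx⟩, hr⟩ := hS
  set lev : V → ℕ := fun v => (within G S).dist x v with hlev
  have hsum : ∑ o ∈ range w, cut S W (fun v => (lev v + o) / w) ≤ tot S W := by
    unfold cut tot
    rw [sum_comm]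
    refine sum_le_sum fun a ha => ?_
    rw [sum_comm]
    refine sum_le_sum fun b hb => ?_
    by_cases h0 : W a b = 0
    · simp [h0]
    · have hab : (within G S).Adj a b := ⟨hW.adj a b h0, ha, hb⟩
      exact sum_off w _ (lev_adj (hr x hx b hb) hab.symm) (lev_adj (hr x hx a ha) hab)
  obtain ⟨o, -, ho⟩ : ∃ o ∈ range w, w * cut S W (fun v => (lev v + o) / w) ≤ tot S W := by
    refine exists_le_of_sum_le ⟨0, mem_range.2 hw⟩ ?_
    rw [← mul_sum, sum_const, card_range, smul_eq_mul]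
    exact Nat.mul_le_mul_left _ hsum
  set idx : V → ℕ := fun v => (lev v + o) / w with hidx
  set A : V → Set V := fun v => {z | z ∈ S ∧ idx z = idx v} with hA
  set ch : V → Finset V := fun v => S.filter fun u => (within G (A v)).Reachable v u with hch
  have mem_ch : ∀ v ∈ S, ∀ u, u ∈ ch v ↔ (within G (A v)).Reachable v u := by
    intro v hv u
    refine ⟨fun h => (mem_filter.1 h).2, fun h => mem_filter.2 ⟨?_, h⟩⟩
    exact (mem_of_reach h (show v ∈ A v from ⟨hv, rfl⟩)).1
  have hAm : ∀ v ∈ S, ∀ u ∈ ch v, u ∈ A v := fun v hv u hu =>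
    mem_of_reach ((mem_ch v hv u).1 hu) (show v ∈ A v from ⟨hv, rfl⟩)
  have hsame : ∀ v ∈ S, ∀ u ∈ ch v, ch u = ch v := by
    intro v hv u hu
    have h1 := hAm v hv u hu
    have h2 : A u = A v := by
      simp only [hA]
      rw [h1.2]
    ext z
    rw [mem_ch u h1.1, mem_ch v hv, h2]
    have h3 := (mem_ch v hv u).1 hu
    exact ⟨fun h => h3.trans h, fun h => h3.symm.trans h⟩
  have hstep : ∀ v ∈ S, ∀ u ∈ ch v, ∀ z ∈ S, G.Adj u z → idx z = idx v → z ∈ ch v := by
    intro v hv u hu z hz huz hi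
    refine (mem_ch v hv z).2 (((mem_ch v hv u).1 hu).trans (Adj.reachable ?_))
    exact ⟨huz, hAm v hv u hu, hz, hi⟩
  have hself : ∀ v ∈ S, v ∈ ch v := fun v hv => (mem_ch v hv v).2 (Reachable.refl _)
  refine ⟨ch, fun v hv => ⟨hself v hv, filter_subset _ _, ?_, ?_, hsame v hv⟩, ?_⟩
  · refine conn_of_root (x := v) (hself v hv) fun u hu => ?_
    obtain ⟨p⟩ := (mem_ch v hv u).1 hu
    exact (reach_comp (T := (ch v : Set V)) (fun z hz => (mem_ch v hv z).2 hz) p
      (Reachable.refl _)).symm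
  · refine ⟨x, hx, idx v * w - o, (idx v + 1) * w - o, ?_, hr x hx, fun u hu => ?_,
      fun u hu z hz huz h1 h2 => ?_⟩
    · rw [Nat.succ_mul]
      omega
    · have h1 := hAm v hv u hu
      exact ⟨h1.1, (idx_iff hw).1 h1.2⟩
    · exact hstep v hv u hu z hz huz ((idx_iff hw).2 ⟨h1, h2⟩)
  · refine le_trans (Nat.mul_le_mul_left _ (cut_mono fun a ha b hb h0 hi => ?_)) ho
    exact (hsame a ha b (hstep a ha a (hself a ha) b hb (hW.adj a b h0) hi.symm)).symm

lemma sum_fib {S : Finset V} {ch : V → Finset V}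
    (h : ∀ v ∈ S, v ∈ ch v ∧ ch v ⊆ S ∧ ∀ u ∈ ch v, ch u = ch v) (F : Finset V → V → ℕ) :
    ∑ x ∈ S, F (ch x) x = ∑ T ∈ S.image ch, ∑ x ∈ T, F T x := by
  rw [← sum_fiberwise_of_maps_to (g := ch) (t := S.image ch) fun x hx => mem_image_of_mem ch hx]
  refine sum_congr rfl fun T hT => ?_
  obtain ⟨v, hv, rfl⟩ := mem_image.1 hT
  have e : S.filter (fun x => ch x = ch v) = ch v := by
    ext x
    rw [mem_filter]
    exact ⟨fun a => a.2 ▸ (h x a.1).1, fun a => ⟨(h v hv).2.1 a, (h v hv).2.2 x a⟩⟩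
  rw [e]
  exact sum_congr rfl fun x hx => by rw [(h v hv).2.2 x hx]

lemma core {w : ℕ} (hw : 1 ≤ w) {W : V → V → ℕ} (hW : Wt G W) (i : ℕ) :
    ∀ S : Finset V, Conn G S → ∃ P : V → Finset V,
      (∀ v ∈ S, v ∈ P v ∧ P v ⊆ S ∧ Conn G (P v) ∧ Chop G w i S (P v) ∧ ∀ u ∈ P v, P u = P v) ∧
        w * cut S W P ≤ i * tot S W := by
  induction i with
  | zero =>
    intro S hS
    exact ⟨fun _ => S, fun v hv => ⟨hv, Subset.refl _, hS, rfl, fun _ _ => rfl⟩, by simp [cut]⟩
  | succ i ih =>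
    intro S hS
    obtain ⟨ch, hch, hcut⟩ := one_chop hw hW S hS
    have ih' : ∀ T : Finset V, ∃ P : V → Finset V, Conn G T →
        (∀ v ∈ T, v ∈ P v ∧ P v ⊆ T ∧ Conn G (P v) ∧ Chop G w i T (P v) ∧
          ∀ u ∈ P v, P u = P v) ∧ w * cut T W P ≤ i * tot T W := by
      intro T
      by_cases hT : Conn G T
      · obtain ⟨P, hP⟩ := ih T hT
        exact ⟨P, fun _ => hP⟩
      · exact ⟨fun _ => T, fun h => absurd h hT⟩
    choose Q hQ using ih'
    have hf : ∀ v ∈ S, v ∈ ch v ∧ ch v ⊆ S ∧ ∀ u ∈ ch v, ch u = ch v := fun v hv =>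
      ⟨(hch v hv).1, (hch v hv).2.1, (hch v hv).2.2.2.2⟩
    refine ⟨fun v => Q (ch v) v, fun v hv => ?_, ?_⟩
    · obtain ⟨h1, h2, h3, h4, h5⟩ := hch v hv
      obtain ⟨k1, k2, k3, k4, k5⟩ := (hQ (ch v) h3).1 v h1
      refine ⟨k1, k2.trans h2, k3, ⟨_, h4, k4⟩, fun u hu => ?_⟩
      show Q (ch u) u = Q (ch v) v
      rw [h5 u (k2 hu), k5 u hu]
    · have e1 : cut S W (fun v => Q (ch v) v) ≤
          cut S W ch + ∑ T ∈ S.image ch, cut T W (Q T) := by
        unfold cut
        rw [← sum_fib hf fun T x => ∑ y ∈ T, if Q T x = Q T y then 0 else W x y,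
          ← sum_add_distrib]
        refine sum_le_sum fun x hx => ?_
        have e : (∑ y ∈ ch x, if Q (ch x) x = Q (ch x) y then 0 else W x y) =
            ∑ y ∈ S, if y ∈ ch x then (if Q (ch x) x = Q (ch x) y then 0 else W x y) else 0 := by
          rw [sum_ite_mem, inter_eq_right.2 (hf x hx).2.1]
        rw [e, ← sum_add_distrib]
        refine sum_le_sum fun y hy => ?_
        by_cases hxy : ch x = ch y
        · have hm : y ∈ ch x := hxy ▸ (hf y hy).1
          rw [if_pos hxy, if_pos hm, zero_add]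
          simp only [← hxy, le_refl]
        · rw [if_neg hxy]
          refine le_trans ?_ (Nat.le_add_right _ _)
          split_ifs <;> simp
      have e2 : ∑ T ∈ S.image ch, tot T W ≤ tot S W := by
        unfold tot
        rw [← sum_fib hf fun T x => ∑ y ∈ T, W x y]
        exact sum_le_sum fun x hx => sum_le_sum_of_subset (hf x hx).2.1
      have e3 : w * ∑ T ∈ S.image ch, cut T W (Q T) ≤ i * ∑ T ∈ S.image ch, tot T W := by
        rw [mul_sum, mul_sum]
        refine sum_le_sum fun T hT => ?_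
        obtain ⟨v, hv, rfl⟩ := mem_image.1 hT
        exact (hQ _ (hch v hv).2.2.1).2
      calc w * cut S W (fun v => Q (ch v) v)
          ≤ w * (cut S W ch + ∑ T ∈ S.image ch, cut T W (Q T)) := Nat.mul_le_mul_left _ e1
        _ = w * cut S W ch + w * ∑ T ∈ S.image ch, cut T W (Q T) := mul_add _ _ _
        _ ≤ tot S W + i * tot S W := add_le_add hcut (e3.trans (Nat.mul_le_mul_left _ e2))
        _ = (i + 1) * tot S W := by ring

end CutAux

theorem exists_cut {m w : ℕ} (hG : ¬ CliqueMinor G (m + 1)) (hw : 1 ≤ w) (X : Finset V)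
    (hX : Conn G X) {W : V → V → ℕ} (hW : Wt G W) :
    ∃ f : V → V, (∀ v ∈ X, f v ∈ X ∧ f (f v) = f v ∧ Near G (kap m * w) v (f v) ∧
      (within G {x | x ∈ X ∧ f x = f v}).Reachable v (f v)) ∧ w * cut X W f ≤ m * tot X W := by
  obtain ⟨P, hP, hcut⟩ := CutAux.core hw hW m X hX
  obtain ⟨x0, -⟩ := hX.1
  have hc : ∀ T : Finset V, ∃ c : V, T.Nonempty → c ∈ T := by
    intro T
    by_cases h : T.Nonempty
    · obtain ⟨c, hc⟩ := h
      exact ⟨c, fun _ => hc⟩
    · exact ⟨x0, fun a => absurd a h⟩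
  choose c hc using hc
  refine ⟨fun v => c (P v), fun v hv => ?_, ?_⟩
  · obtain ⟨h1, h2, h3, h4, h5⟩ := hP v hv
    have hm : c (P v) ∈ P v := hc _ ⟨v, h1⟩
    refine ⟨h2 hm, ?_, chop_near hG hw h4 h3 v h1 _ hm, ?_⟩
    · show c (P (c (P v))) = c (P v)
      rw [h5 _ hm]
    · refine (h3.2 v h1 _ hm).mono (within_mono fun z hz => ⟨h2 hz, ?_⟩)
      show c (P z) = c (P v)
      rw [h5 z hz]
  · refine le_trans (Nat.mul_le_mul_left _ (CutAux.cut_mono fun a _ b _ _ h => ?_)) hcut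
    show c (P a) = c (P b)
    rw [h]

end Pool.Agent.Lib.MP_559647_lc.M64
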