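import Pool.Agent.Lib.MP_559647_lc.G56Defs

/-! Complete minors. -/

namespace Pool.Agent.Lib.MP_559647_lc

/-- `G` has the complete graph on `h` vertices as a minor: there are `h` pairwise disjoint vertex
sets, each inducing a connected subgraph, any two of them joined by an edge. -/
def CliqueMinor {V : Type} (G : SimpleGraph V) (h : ℕ) : Prop :=
  ∃ B : Fin h → Set V, (∀ i, (G.induce (B i)).Connected) ∧
    ∀ i j, i ≠ j → Disjoint (B i) (B j) ∧ ∃ x ∈ B i, ∃ y ∈ B j, G.Adj x y

end Pool.Agent.Lib.MP_559647_lc
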