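import Pool.Agent.Lib.MP_559647_lc.M64Kpr

/-! Sparse partitions: every ball meets a bounded number of parts. -/

namespace Pool.Agent.Lib.MP_559647_lc.M64

open Finset SimpleGraph

namespace M64SparseAux

variable {V : Type} {G : SimpleGraph V}

/-- the ball as a set -/
def bl (G : SimpleGraph V) (r : ℕ) (v : V) : Set V := {x | Near G r v x}

/-- the component of `u` in `A` -/
def cmp (G : SimpleGraph V) (A : Set V) (u : V) : Set V :=
  {y | y ∈ A ∧ (within G A).Reachable u y}

lemma near_within {r : ℕ} {v x : V} {T : Set V} (hT : bl G r v ⊆ T) (hx : x ∈ bl G r v) :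
    Near (within G T) r v x := by
  have key : ∀ {a b : V} (p : G.Walk a b) (k : ℕ), Near G k v a → k + p.length ≤ r →
      Near (within G T) p.length a b := by
    intro a b p
    induction p with
    | nil => intro _ _ _; exact near_refl _ _
    | @cons a c b h q ih =>
      intro k hk hl
      rw [Walk.length_cons] at hl ⊢
      have h1 : Near G (k + 1) v c := hk.trans (near_of_adj h)
      have h2 : (within G T).Adj a c :=
        ⟨h, hT (hk.mono (by omega)), hT (h1.mono (by omega))⟩
      exact (near_of_adj h2).trans' (ih (k + 1) h1 (by omega)) (by omega)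
  obtain ⟨p, hp⟩ := near_iff_walk.1 hx
  exact (key p 0 (near_refl _ _) (by omega)).mono hp

lemma bl_sub_cmp {r : ℕ} {v : V} {A : Set V} (h : bl G r v ⊆ A) : bl G r v ⊆ cmp G A v :=
  fun _ hx => ⟨h hx, (near_within h hx).reachable⟩

lemma cmp_conn {A : Set V} {u : V} (hu : u ∈ A) : Conn G (cmp G A u) := by
  have key : ∀ {a b : V} (_ : (within G A).Walk a b), (within G A).Reachable u a →
      (within G (cmp G A u)).Reachable a b := by
    intro a b p
    induction p with
    | nil => intro _; exact Reachable.refl _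
    | cons h _ ih =>
      intro ha
      have hc := ha.trans h.reachable
      exact (Adj.reachable (G := within G (cmp G A u)) ⟨h.1, ⟨h.2.1, ha⟩, h.2.2, hc⟩).trans (ih hc)
  refine conn_of_root (x := u) ⟨hu, Reachable.refl _⟩ fun v hv => ?_
  obtain ⟨p⟩ := hv.2
  exact (key p (Reachable.refl _)).symm

lemma cmp_eq {A : Set V} {u y : V} (h : y ∈ cmp G A u) : cmp G A u = cmp G A y :=
  Set.ext fun _ => ⟨fun a => ⟨a.1, h.2.symm.trans a.2⟩, fun a => ⟨a.1, h.2.trans a.2⟩⟩

/-- the annulus of levels in `[s, e)` -/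
def ann (G : SimpleGraph V) (S : Set V) (x : V) (s e : ℕ) : Set V :=
  {y | y ∈ S ∧ s ≤ (within G S).dist x y ∧ (within G S).dist x y < e}

lemma child_cmp {S : Set V} (hS : Conn G S) {x : V} (hx : x ∈ S) {w s e : ℕ} (he : e ≤ s + w)
    (u : V) : Child G w S (cmp G (ann G S x s e) u) :=
  ⟨x, hx, s, e, he, fun v hv => hS.2 x hx v hv, fun _ hv => hv.1, fun _ ha _ hv h h1 h2 =>
    ⟨⟨hv, h1, h2⟩, ha.2.trans (Adj.reachable ⟨h, ha.1, hv, h1, h2⟩)⟩⟩

lemma lev_le {H : SimpleGraph V} {x a b : V} {j : ℕ} (ha : H.Reachable x a) (h : Near H j a b) :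
    H.dist x b ≤ H.dist x a + j := ((near_dist ha).trans h).dist_le

lemma bl_sub_ann {S : Set V} (hS : Conn G S) {x v : V} (hx : x ∈ S) {r k : ℕ}
    (hv : bl G r v ⊆ S) (hk : k = ((within G S).dist x v - r) / (2 * r + 1)) :
    bl G r v ⊆ ann G S x (k * (2 * r + 1)) ((k + 2) * (2 * r + 1)) := by
  intro y hy
  have h1 := near_within hv hy
  have h2 := lev_le (hS.2 x hx v (hv (near_refl _ _))) h1
  have h3 := lev_le (hS.2 x hx y (hv hy)) h1.symm
  have h4 := Nat.div_add_mod ((within G S).dist x v - r) (2 * r + 1)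
  have h5 := Nat.mod_lt ((within G S).dist x v - r) (show 0 < 2 * r + 1 by omega)
  rw [← hk, mul_comm] at h4
  refine ⟨hv hy, by omega, ?_⟩
  rw [add_mul]
  omega

lemma core (r i : ℕ) : ∀ S : Set V, Conn G S → ∃ U : V → Set V,
    (∀ v, bl G r v ⊆ S → bl G r v ⊆ U v ∧ Conn G (U v) ∧ Chop G (4 * r + 2) i S (U v)) ∧
    ∀ u, ∃ F : Finset (Set V), F.card ≤ 2 ^ i ∧ ∀ v ∈ bl G r u, bl G r v ⊆ S → U v ∈ F := by
  classical
  induction i with
  | zero =>
    exact fun S hS => ⟨fun _ => S, fun _ hv => ⟨hv, hS, rfl⟩,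
      fun _ => ⟨{S}, by simp, fun _ _ _ => mem_singleton_self _⟩⟩
  | succ i ih =>
    intro S hS
    choose! g g1 g2 using ih
    obtain ⟨x, hx⟩ := hS.1
    let an : ℕ → Set V := fun k => ann G S x (k * (2 * r + 1)) ((k + 2) * (2 * r + 1))
    let idx : V → ℕ := fun v => ((within G S).dist x v - r) / (2 * r + 1)
    have ha : ∀ v, bl G r v ⊆ S → bl G r v ⊆ an (idx v) := fun v hv => bl_sub_ann hS hx hv rfl
    have hc : ∀ v, bl G r v ⊆ S → Conn G (cmp G (an (idx v)) v) :=
      fun v hv => cmp_conn (ha v hv (near_refl _ _))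
    refine ⟨fun v => g (cmp G (an (idx v)) v) v, fun v hv => ?_, fun u => ?_⟩
    · obtain ⟨h1, h2, h3⟩ := g1 _ (hc v hv) v (bl_sub_cmp (ha v hv))
      exact ⟨h1, h2, _, child_cmp hS hx (by rw [add_mul]; omega) v, h3⟩
    · have hF : ∀ T : Set V, ∃ F : Finset (Set V), F.card ≤ 2 ^ i ∧
          (Conn G T → ∀ v ∈ bl G r u, bl G r v ⊆ T → g T v ∈ F) := by
        intro T
        by_cases hT : Conn G T
        · obtain ⟨F, h1, h2⟩ := g2 T hT u
          exact ⟨F, h1, fun _ => h2⟩
        · exact ⟨∅, by simp, fun h => (hT h).elim⟩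
      choose F F1 F2 using hF
      refine ⟨F (cmp G (an ((within G S).dist x u / (2 * r + 1))) u) ∪
        F (cmp G (an ((within G S).dist x u / (2 * r + 1) - 1)) u), ?_, fun v hv hvS => ?_⟩
      · refine (card_union_le _ _).trans ?_
        rw [pow_succ, mul_two]
        exact add_le_add (F1 _) (F1 _)
      · have h1 := bl_sub_cmp (ha v hvS)
        have hu : u ∈ cmp G (an (idx v)) v := h1 (Near.symm hv)
        have h2 := F2 _ (hc v hvS) v hv h1
        have h3 : idx v ≤ (within G S).dist x u / (2 * r + 1) :=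
          (Nat.le_div_iff_mul_le (by omega)).2 hu.1.2.1
        have h4 : (within G S).dist x u / (2 * r + 1) < idx v + 2 :=
          (Nat.div_lt_iff_lt_mul (by omega)).2 hu.1.2.2
        have h5 : F (cmp G (an (idx v)) v) = F (cmp G (an (idx v)) u) := by rw [← cmp_eq hu]
        rw [h5] at h2
        rcases h3.eq_or_lt with h | h
        · exact mem_union_left _ (h ▸ h2)
        · have h6 : idx v = (within G S).dist x u / (2 * r + 1) - 1 := by omega
          exact mem_union_right _ (h6 ▸ h2)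

end M64SparseAux

open M64SparseAux

variable {V : Type} [Fintype V] [DecidableEq V] {G : SimpleGraph V}

theorem exists_sparse {m : ℕ} (hG : ¬ CliqueMinor G (m + 1)) (r : ℕ) :
    ∃ ctr : V → V, (∀ v, Near G (kap m * (4 * r + 2)) v (ctr v)) ∧
      ∀ u, ((ball G r u).image ctr).card ≤ 2 ^ m := by
  classical
  rcases isEmpty_or_nonempty V with hV | hV
  · exact ⟨id, fun v => hV.elim v, fun u => hV.elim u⟩
  choose! g g1 g2 using core (G := G) r m
  have hc : ∀ v, Conn G (cmp G Set.univ v) := fun v => cmp_conn (Set.mem_univ v)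
  have hb : ∀ v, bl G r v ⊆ cmp G Set.univ v := fun v => bl_sub_cmp (Set.subset_univ _)
  let pt : Set V → V := fun T => Classical.epsilon fun y => y ∈ T
  refine ⟨fun v => pt (g (cmp G Set.univ v) v), fun v => ?_, fun u => ?_⟩
  · obtain ⟨h1, h2, h3⟩ := g1 _ (hc v) v (hb v)
    exact chop_near hG (by omega) h3 h2 v (h1 (near_refl _ _)) _ (Classical.epsilon_spec h2.1)
  · obtain ⟨F, h1, h2⟩ := g2 _ (hc u) u
    refine le_trans (card_le_card (t := F.image pt) fun z hz => ?_) (card_image_le.trans h1)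
    obtain ⟨v, hv, rfl⟩ := mem_image.1 hz
    have hv' : v ∈ bl G r u := mem_ball.1 hv
    have e := cmp_eq (hb u hv')
    refine mem_image_of_mem _ ?_
    rw [← e]
    exact h2 v hv' (e ▸ hb v)

end Pool.Agent.Lib.MP_559647_lc.M64
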