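import Pool.Agent.Lib.MP_559647_lc.M64Cut
import Pool.Agent.Lib.MP_559647_lc.M64Sparse

/-! Local steps in which every cluster is cut again by its centre. -/

namespace Pool.Agent.Lib.MP_559647_lc.M64

open Finset SimpleGraph

namespace M64RecutAux

/-- the nodes with label `z` -/
def fib {N : ℕ} (lab : Fin N → Fin N) (z : Fin N) : Finset (Fin N) := univ.filter fun x => lab x = z

lemma mem_fib {N : ℕ} {lab : Fin N → Fin N} {z x : Fin N} : x ∈ fib lab z ↔ lab x = z := by
  simp [fib]

/-- the conclusion of `exists_cut` -/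
def CutP {N : ℕ} (G : SimpleGraph (Fin N)) (W : Fin N → Fin N → ℕ) (X : Finset (Fin N))
    (k w m : ℕ) (f : Fin N → Fin N) : Prop :=
  (∀ v ∈ X, f v ∈ X ∧ f (f v) = f v ∧ Near G k v (f v) ∧
    (within G {x | x ∈ X ∧ f x = f v}).Reachable v (f v)) ∧ w * cut X W f ≤ m * tot X W

/-- the restriction of the conclusion of `exists_sparse` to `X` -/
def SpP {N : ℕ} (G : SimpleGraph (Fin N)) (X : Finset (Fin N)) (k r b : ℕ)
    (f : Fin N → Fin N) : Prop :=
  (∀ v ∈ X, Near G k v (f v)) ∧ ∀ u, ((X ∩ ball G r u).image f).card ≤ b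

lemma sum_fib {N : ℕ} (lab : Fin N → Fin N) (F : Fin N → Fin N → Fin N → ℕ) :
    ∑ z, ∑ x ∈ fib lab z, ∑ y ∈ fib lab z, F z x y =
      ∑ x, ∑ y, if lab y = lab x then F (lab x) x y else 0 := by
  rw [← sum_fiberwise (s := univ) (g := lab)
    (f := fun x => ∑ y, if lab y = lab x then F (lab x) x y else 0)]
  refine sum_congr rfl fun z _ => sum_congr rfl fun x hx => ?_
  rw [mem_fib.1 hx, fib, sum_filter]

lemma cut_split {N : ℕ} (W : Fin N → Fin N → ℕ) (lab : Fin N → Fin N) (g : Fin N → Fin N → Fin N) :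
    cut univ W (fun v => g (lab v) v) ≤ cut univ W lab + ∑ z, cut (fib lab z) W (g z) := by
  unfold cut
  rw [sum_fib lab fun z x y => if g z x = g z y then 0 else W x y, ← sum_add_distrib]
  refine sum_le_sum fun x _ => ?_
  rw [← sum_add_distrib]
  refine sum_le_sum fun y _ => ?_
  by_cases h : lab y = lab x
  · simp [h]
  · have h' : ¬ lab x = lab y := fun e => h e.symm
    rw [if_neg h, if_neg h']
    split_ifs <;> simp

lemma tot_split {N : ℕ} (W : Fin N → Fin N → ℕ) (lab : Fin N → Fin N) :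
    ∑ z, tot (fib lab z) W ≤ tot univ W := by
  unfold tot
  rw [sum_fib lab fun _ x y => W x y]
  exact sum_le_sum fun x _ => sum_le_sum fun y _ => by split_ifs <;> simp

variable {N : ℕ} {C : Set (Inst N)} {t ρ : ℕ}

lemma fib_view {lab : Inst N → Fin N → Fin N} (hl : Loc C t lab)
    (hn : ∀ I ∈ C, ∀ v, Near I.G ρ v (lab I v)) {I J : Inst N} (hI : I ∈ C) (hJ : J ∈ C)
    {z : Fin N} {u : ℕ} (hz : SameView u z I J) (hu : ρ + t ≤ u) :
    fib (lab I) z = fib (lab J) z := by
  ext x
  rw [mem_fib, mem_fib]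
  exact Loc.fib hl hn hI hJ hz hu x

lemma fib_near {lab : Fin N → Fin N} {G : SimpleGraph (Fin N)} (hn : ∀ v, Near G ρ v (lab v))
    {z x : Fin N} (hx : x ∈ fib lab z) : Near G ρ z x := by
  have := hn x
  rw [mem_fib.1 hx] at this
  exact this.symm

lemma cutP_loc {W : Inst N → Fin N → Fin N → ℕ} {lab : Inst N → Fin N → Fin N}
    (hW : Loc C t W) (hl : Loc C t lab) (hn : ∀ I ∈ C, ∀ v, Near I.G ρ v (lab I v)) (k w m : ℕ) :
    Loc C (t + ρ + k + 1) fun I z => CutP I.G (W I) (fib (lab I) z) k w m := by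
  intro I hI J hJ z hz
  show CutP I.G (W I) (fib (lab I) z) k w m = CutP J.G (W J) (fib (lab J) z) k w m
  rw [← fib_view hl hn hI hJ hz (by omega)]
  have hx : ∀ x ∈ fib (lab I) z, Near I.G ρ z x := fun x hx => fib_near (hn I hI) hx
  generalize fib (lab I) z = X at hx
  have e : ∀ x ∈ X, W I x = W J x := fun x h => hW.at hI hJ hz (hx x h) (by omega)
  funext f
  have e1 : cut X (W I) f = cut X (W J) f := sum_congr rfl fun x h => by rw [e x h]
  have e2 : tot X (W I) = tot X (W J) := sum_congr rfl fun x h => by rw [e x h]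
  unfold CutP
  rw [e1, e2]
  refine propext (and_congr_left fun _ => forall₂_congr fun v hv => ?_)
  rw [near_view hz (hx v hv) (by omega : ρ + k ≤ _),
    within_view hz (by omega : ρ < _) (S := {x | x ∈ X ∧ f x = f v}) fun x h => hx x h.1]

lemma spP_loc {lab : Inst N → Fin N → Fin N}
    (hl : Loc C t lab) (hn : ∀ I ∈ C, ∀ v, Near I.G ρ v (lab I v)) {k r : ℕ} (hr : r ≤ k) (b : ℕ) :
    Loc C (t + ρ + k) fun I z => SpP I.G (fib (lab I) z) k r b := by
  intro I hI J hJ z hz
  show SpP I.G (fib (lab I) z) k r b = SpP J.G (fib (lab J) z) k r b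
  rw [← fib_view hl hn hI hJ hz (by omega)]
  have hx : ∀ x ∈ fib (lab I) z, Near I.G ρ z x := fun x hx => fib_near (hn I hI) hx
  generalize fib (lab I) z = X at hx
  funext f
  have e : ∀ u, X ∩ ball I.G r u = X ∩ ball J.G r u := by
    intro u
    ext x
    simp only [mem_inter, mem_ball]
    refine and_congr_right fun h => ?_
    have := near_view hz (hx x h) (by omega : ρ + r ≤ _) u
    exact ⟨fun a => (this.1 a.symm).symm, fun a => (this.2 a.symm).symm⟩
  unfold SpP
  simp only [e]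
  refine propext (and_congr_left fun _ => forall₂_congr fun v hv => ?_)
  exact near_view hz (hx v hv) (by omega) _

end M64RecutAux

open M64RecutAux

variable {m N : ℕ} {C : Set (Inst N)} {t ρ : ℕ}

theorem recut {w : ℕ} {W : Inst N → Fin N → Fin N → ℕ} {lab : Inst N → Fin N → Fin N}
    (hw : 1 ≤ w) (hG : ∀ I ∈ C, ¬ CliqueMinor I.G (m + 1)) (hW : Loc C t W) (hl : Loc C t lab)
    (h : ∀ I ∈ C, Wt I.G (W I) ∧ Part I.G ρ (lab I)) :
    ∃ lab' : Inst N → Fin N → Fin N, Loc C (t + 2 * ρ + kap m * w + 1) lab' ∧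
      ∀ I ∈ C, Part I.G (kap m * w) (lab' I) ∧
        w * cut univ (W I) (lab' I) ≤ w * cut univ (W I) (lab I) + m * tot univ (W I) := by
  have hn : ∀ I ∈ C, ∀ v, Near I.G ρ v (lab I v) := fun I hI => (h I hI).2.near
  have : Nonempty (Fin N → Fin N) := ⟨id⟩
  obtain ⟨g, hg, hP⟩ := Loc.choose (cutP_loc hW hl hn (kap m * w) w m)
  refine ⟨fun I v => g I (lab I v) v, fun I hI J hJ v hv => ?_, fun I hI => ?_⟩
  · exact congrFun (Loc.comp hg hl hn (by omega) (by omega) I hI J hJ v hv) v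
  have hL := (h I hI).2
  have key : ∀ z, lab I z = z → CutP I.G (W I) (fib (lab I) z) (kap m * w) w m (g I z) := by
    intro z hz
    refine hP I z (exists_cut (hG I hI) hw _ ?_ (h I hI).1)
    have : ((fib (lab I) z : Finset (Fin N)) : Set (Fin N)) = {x | lab I x = z} := by
      ext x
      simp [mem_fib]
    rw [this]
    exact hL.conn_fib hz
  have k1 := fun v => (key (lab I v) (hL.idem v)).1 v (mem_fib.2 rfl)
  refine ⟨⟨fun v => ?_, fun v => (k1 v).2.2.1, fun v => ?_⟩, ?_⟩
  · show g I (lab I (g I (lab I v) v)) (g I (lab I v) v) = g I (lab I v) v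
    rw [mem_fib.1 (k1 v).1]
    exact (k1 v).2.1
  · refine (k1 v).2.2.2.mono (within_mono fun x hx => ?_)
    show g I (lab I x) x = g I (lab I v) v
    rw [mem_fib.1 hx.1]
    exact hx.2
  · have k2 : ∀ z, w * cut (fib (lab I) z) (W I) (g I z) ≤ m * tot (fib (lab I) z) (W I) := by
      intro z
      by_cases hz : lab I z = z
      · exact (key z hz).2
      · have : fib (lab I) z = ∅ := by
          refine eq_empty_of_forall_notMem fun x hx => hz ?_
          rw [← mem_fib.1 hx]
          exact hL.idem x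
        simp [this, cut]
    calc w * cut univ (W I) (fun v => g I (lab I v) v)
        ≤ w * (cut univ (W I) (lab I) + ∑ z, cut (fib (lab I) z) (W I) (g I z)) :=
          Nat.mul_le_mul_left _ (cut_split _ _ _)
      _ = w * cut univ (W I) (lab I) + ∑ z, w * cut (fib (lab I) z) (W I) (g I z) := by
          rw [mul_add, mul_sum]
      _ ≤ w * cut univ (W I) (lab I) + ∑ z, m * tot (fib (lab I) z) (W I) :=
          Nat.add_le_add_left (sum_le_sum fun z _ => k2 z) _
      _ ≤ w * cut univ (W I) (lab I) + m * tot univ (W I) := by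
          rw [← mul_sum]
          exact Nat.add_le_add_left (Nat.mul_le_mul_left _ (tot_split _ _)) _

theorem recentre {reg : Inst N → Fin N → Fin N} (r : ℕ)
    (hG : ∀ I ∈ C, ¬ CliqueMinor I.G (m + 1)) (hr : Loc C t reg)
    (h : ∀ I ∈ C, ∀ v, Near I.G ρ v (reg I v)) :
    ∃ ctr : Inst N → Fin N → Fin N, Loc C (t + 2 * ρ + kap m * (4 * r + 2)) ctr ∧
      ∀ I ∈ C, (∀ v, Near I.G (kap m * (4 * r + 2)) v (ctr I v)) ∧
        ∀ u, ((ball I.G r u).image (ctr I)).card ≤ 2 ^ m * ((ball I.G r u).image (reg I)).card := by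
  have hk : r ≤ kap m * (4 * r + 2) := by
    have : 1 ≤ kap m := Nat.mul_pos (by norm_num) (by positivity)
    calc r ≤ 1 * (4 * r + 2) := by omega
      _ ≤ _ := Nat.mul_le_mul_right _ this
  have : Nonempty (Fin N → Fin N) := ⟨id⟩
  obtain ⟨g, hg, hP⟩ := Loc.choose (spP_loc hr h hk (2 ^ m))
  refine ⟨fun I v => g I (reg I v) v, fun I hI J hJ v hv => ?_, fun I hI => ?_⟩
  · exact congrFun (Loc.comp hg hr h (by omega) (by omega) I hI J hJ v hv) v
  have key : ∀ z, SpP I.G (fib (reg I) z) (kap m * (4 * r + 2)) r (2 ^ m) (g I z) := by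
    intro z
    obtain ⟨f, h1, h2⟩ := exists_sparse (hG I hI) r
    exact hP I z ⟨f, fun v _ => h1 v,
      fun u => (card_le_card (image_subset_image inter_subset_right)).trans (h2 u)⟩
  refine ⟨fun v => (key (reg I v)).1 v (mem_fib.2 rfl), fun u => ?_⟩
  have hs : (ball I.G r u).image (fun v => g I (reg I v) v) ⊆
      ((ball I.G r u).image (reg I)).biUnion fun z =>
        (fib (reg I) z ∩ ball I.G r u).image (g I z) := by
    intro y hy
    obtain ⟨x, hx, rfl⟩ := mem_image.1 hy
    exact mem_biUnion.2 ⟨reg I x, mem_image_of_mem _ hx,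
      mem_image_of_mem _ (mem_inter.2 ⟨mem_fib.2 rfl, hx⟩)⟩
  refine (card_le_card hs).trans ?_
  rw [mul_comm]
  exact card_biUnion_le_card_mul _ _ _ fun z _ => (key z).2 u

end Pool.Agent.Lib.MP_559647_lc.M64
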