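import Pool.Agent.Lib.MP_559647_lc.M64Merge
import Pool.Agent.Lib.MP_559647_lc.M64Recut

/-! Local partitions of radius proportional to `2 ^ j` that cut a share `2 ^ (-j)` of the weight. -/

namespace Pool.Agent.Lib.MP_559647_lc.M64

open Finset SimpleGraph

namespace EpsAux

lemma step_ineq {b i c c' c0 : ℕ} (hb : 0 < b) (h1 : b * c' + c ≤ b * c)
    (h2 : (b + i) * c ≤ b * c0) : (b + (i + 1)) * c' ≤ b * c0 := by
  refine le_trans (Nat.le_of_mul_le_mul_left ?_ hb) h2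
  have h3 : (b + (i + 1)) * (b * c' + c) ≤ (b + (i + 1)) * (b * c) := Nat.mul_le_mul_left _ h1
  have h4 : 0 ≤ (i + 1) * c := Nat.zero_le _
  nlinarith

/-- several merging steps in a row -/
lemma merges : ∃ q : ℕ, ∀ (m N : ℕ) (C : Set (Inst N)) (k t ρ : ℕ)
    (W : Inst N → Fin N → Fin N → ℕ) (lab : Inst N → Fin N → Fin N), N ≤ tower k →
    (∀ I ∈ C, ¬ CliqueMinor I.G m) → Loc C t W → Loc C t lab →
    (∀ I ∈ C, Wt I.G (W I) ∧ Part I.G ρ (lab I)) → ∀ i : ℕ,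
    ∃ (r : ℕ) (lab' : Inst N → Fin N → Fin N), r + 1 ≤ 3 ^ i * (ρ + 1) ∧
      Loc C (t + q * (k + 1) * (3 ^ i * (ρ + 1))) lab' ∧
      ∀ I ∈ C, Part I.G r (lab' I) ∧
        (4 * 2 ^ m + i) * cut univ (W I) (lab' I) ≤ 4 * 2 ^ m * cut univ (W I) (lab I) := by
  obtain ⟨q, hq⟩ := merge
  refine ⟨q, fun m N C k t ρ W lab hN hG hW hl h i => ?_⟩
  induction i with
  | zero =>
    exact ⟨ρ, lab, by simp, hl.mono (Nat.le_add_right _ _), fun I hI => ⟨(h I hI).2, by simp⟩⟩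
  | succ i ih =>
    obtain ⟨r, l1, hr, hl1, h1⟩ := ih
    obtain ⟨l2, hl2, h2⟩ := hq m N C k (t + q * (k + 1) * (3 ^ i * (ρ + 1))) r W l1 hN hG
      (hW.mono (Nat.le_add_right _ _)) hl1 fun I hI => ⟨(h I hI).1, (h1 I hI).1⟩
    have e : 3 ^ (i + 1) * (ρ + 1) = 3 * (3 ^ i * (ρ + 1)) := by ring
    refine ⟨3 * r + 1, l2, by omega, hl2.mono ?_, fun I hI => ⟨(h2 I hI).1, ?_⟩⟩
    · have h3 : q * (k + 1) * (r + 1) ≤ q * (k + 1) * (3 ^ i * (ρ + 1)) :=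
        Nat.mul_le_mul_left _ hr
      have h4 : q * (k + 1) * (3 ^ (i + 1) * (ρ + 1)) =
          3 * (q * (k + 1) * (3 ^ i * (ρ + 1))) := by ring
      omega
    · exact step_ineq (by positivity) (h2 I hI).2 (h1 I hI).2

lemma time_le {q B A0 k p r : ℕ} (hp : 1 ≤ p) (hr : r + 1 ≤ B * (A0 * p + 1)) :
    q * (k + 1) * (B * (A0 * p + 1)) + 2 * r + A0 * (p * 2) + 1 ≤
      (q * (A0 + 1) * B + 2 * B * (A0 + 1) + 2 * A0 + 1) * (k + 1) * p := by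
  have h1 : A0 * p + 1 ≤ (A0 + 1) * p := by nlinarith
  have h2 : B * (A0 * p + 1) ≤ B * ((A0 + 1) * p) := Nat.mul_le_mul_left _ h1
  have h3 : q * (k + 1) * (B * (A0 * p + 1)) ≤ q * (k + 1) * (B * ((A0 + 1) * p)) :=
    Nat.mul_le_mul_left _ h2
  have h4 : (2 * B * (A0 + 1) + 2 * A0 + 1) * p ≤ (2 * B * (A0 + 1) + 2 * A0 + 1) * p * (k + 1) :=
    Nat.le_mul_of_pos_right _ (Nat.succ_pos k)
  have h5 : (q * (A0 + 1) * B + 2 * B * (A0 + 1) + 2 * A0 + 1) * (k + 1) * p =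
      q * (k + 1) * (B * ((A0 + 1) * p)) + (2 * B * (A0 + 1) + 2 * A0 + 1) * p * (k + 1) := by ring
  have h6 : (2 * B * (A0 + 1) + 2 * A0 + 1) * p =
      2 * (B * ((A0 + 1) * p)) + A0 * (p * 2) + p := by ring
  omega

lemma cut_le {m p c c' c0 T : ℕ} (h0 : p * c0 ≤ T) (h1 : 4 * c ≤ c0)
    (h2 : (m + 1) * (p * 4) * c' ≤ (m + 1) * (p * 4) * c + m * T) : p * 2 * c' ≤ T := by
  have h3 : p * (4 * c) ≤ T := (Nat.mul_le_mul_left p h1).trans h0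
  have h4 : (m + 1) * (p * (4 * c)) ≤ (m + 1) * T := Nat.mul_le_mul_left _ h3
  have h5 : 2 * (m + 1) * (p * 2 * c') ≤ 2 * (m + 1) * T := by nlinarith
  exact Nat.le_of_mul_le_mul_left h5 (by positivity)

end EpsAux

theorem eps_cut (m : ℕ) : ∃ A : ℕ, ∀ (N : ℕ) (C : Set (Inst N)) (k t j : ℕ)
    (W : Inst N → Fin N → Fin N → ℕ), N ≤ tower k → (∀ I ∈ C, ¬ CliqueMinor I.G (m + 1)) →
    Loc C t W → (∀ I ∈ C, Wt I.G (W I)) →
    ∃ lab : Inst N → Fin N → Fin N, Loc C (t + A * (k + 1) * 2 ^ j) lab ∧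
      ∀ I ∈ C, Part I.G (A * 2 ^ j) (lab I) ∧ 2 ^ j * cut univ (W I) (lab I) ≤ tot univ (W I) := by
  obtain ⟨q, hq⟩ := EpsAux.merges
  obtain ⟨A0, hA0⟩ : ∃ A0 : ℕ, A0 = 2 * kap m * (m + 1) := ⟨_, rfl⟩
  obtain ⟨b, hb⟩ : ∃ b : ℕ, b = 4 * 2 ^ (m + 1) := ⟨_, rfl⟩
  obtain ⟨B, hB⟩ : ∃ B : ℕ, B = 3 ^ (3 * b) := ⟨_, rfl⟩
  obtain ⟨A, hA⟩ : ∃ A : ℕ, A = q * (A0 + 1) * B + 2 * B * (A0 + 1) + 2 * A0 + 1 := ⟨_, rfl⟩
  have hb0 : 0 < b := by rw [hb]; positivity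
  refine ⟨A, fun N C k t j W hN hG hW hWt => ?_⟩
  have key : ∃ lab : Inst N → Fin N → Fin N, Loc C (t + A * (k + 1) * 2 ^ j) lab ∧
      ∀ I ∈ C, Part I.G (A0 * 2 ^ j) (lab I) ∧
        2 ^ j * cut univ (W I) (lab I) ≤ tot univ (W I) := by
    induction j with
    | zero =>
      refine ⟨fun _ => id, fun _ _ _ _ _ _ => rfl, fun I _ => ⟨part_id.mono (Nat.zero_le _), ?_⟩⟩
      simpa using cut_le_tot univ (W I) id
    | succ j ih =>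
      obtain ⟨l0, hl0, h0⟩ := ih
      obtain ⟨r, l1, hr, hl1, h1⟩ := hq (m + 1) N C k (t + A * (k + 1) * 2 ^ j) (A0 * 2 ^ j) W l0
        hN hG (hW.mono (Nat.le_add_right _ _)) hl0 (fun I hI => ⟨hWt I hI, (h0 I hI).1⟩) (3 * b)
      rw [← hB] at hr hl1
      rw [← hb] at h1
      have hp : 1 ≤ 2 ^ j := Nat.one_le_two_pow
      obtain ⟨l2, hl2, h2⟩ := recut (w := (m + 1) * (2 ^ j * 4)) (ρ := r) (by nlinarith) hG
        (hW.mono ((Nat.le_add_right _ _).trans (Nat.le_add_right _ _))) hl1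
        fun I hI => ⟨hWt I hI, (h1 I hI).1⟩
      have e : kap m * ((m + 1) * (2 ^ j * 4)) = A0 * (2 ^ j * 2) := by rw [hA0]; ring
      rw [e] at hl2 h2
      rw [pow_succ]
      refine ⟨l2, hl2.mono ?_, fun I hI => ⟨(h2 I hI).1, ?_⟩⟩
      · have h3 := EpsAux.time_le (q := q) (k := k) hp hr
        rw [← hA] at h3
        have h4 : A * (k + 1) * (2 ^ j * 2) = 2 * (A * (k + 1) * 2 ^ j) := by ring
        omega
      · refine EpsAux.cut_le (h0 I hI).2 ?_ (h2 I hI).2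
        refine Nat.le_of_mul_le_mul_left ?_ hb0
        have h5 := (h1 I hI).2
        calc b * (4 * cut univ (W I) (l1 I)) = (b + 3 * b) * cut univ (W I) (l1 I) := by ring
          _ ≤ _ := h5
  obtain ⟨lab, hl, h⟩ := key
  refine ⟨lab, hl, fun I hI => ⟨(h I hI).1.mono (Nat.mul_le_mul_right _ ?_), (h I hI).2⟩⟩
  omega

end Pool.Agent.Lib.MP_559647_lc.M64
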