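import Pool.Agent.Lib.MP_559647_lc.M64Basic

/-! Repeated chopping into annuli leaves pieces of small weak diameter. -/

namespace Pool.Agent.Lib.MP_559647_lc.M64

open Finset SimpleGraph

variable {V : Type} {G : SimpleGraph V}

/-- `T` is a union of components of an annulus of width at most `w` of the connected set `S` -/
def Child (G : SimpleGraph V) (w : ℕ) (S T : Set V) : Prop :=
  ∃ x ∈ S, ∃ s e : ℕ, e ≤ s + w ∧ (∀ v ∈ S, (within G S).Reachable x v) ∧
    (∀ v ∈ T, v ∈ S ∧ s ≤ (within G S).dist x v ∧ (within G S).dist x v < e) ∧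
    ∀ u ∈ T, ∀ v ∈ S, G.Adj u v → s ≤ (within G S).dist x v → (within G S).dist x v < e → v ∈ T

/-- `T` arises from `S` by `m` successive chops -/
def Chop (G : SimpleGraph V) (w : ℕ) : ℕ → Set V → Set V → Prop
  | 0, S, T => T = S
  | m + 1, S, T => ∃ S', Child G w S S' ∧ Chop G w m S' T

/-- the constant in the diameter bound -/
def kap (m : ℕ) : ℕ := 24 * (m + 1) ^ 2

namespace KprAux

lemma chop_sub {w : ℕ} : ∀ {i : ℕ} {S T : Set V}, Chop G w i S T → T ⊆ S
  | 0, _, _, h => Eq.subset h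
  | _ + 1, _, _, ⟨_, ⟨_, _, _, _, _, _, h2, _⟩, h⟩ => fun v hv => (h2 v (chop_sub h hv)).1

lemma lip {H : SimpleGraph V} {x a b : V} {j : ℕ} (hr : H.Reachable x a) (h : Near H j a b) :
    H.dist x b ≤ H.dist x a + j := ((near_dist hr).trans h).dist_le

/-- paths that go down the levels to the root -/
lemma exists_path {S : Set V} {x : V} (hr : ∀ v ∈ S, (within G S).Reachable x v) :
    ∃ P : V → ℕ → V, ∀ v ∈ S, P v 0 = v ∧ ∀ t, P v t ∈ S ∧
      (within G S).dist x (P v t) = (within G S).dist x v - t ∧ Near (within G S) t v (P v t) ∧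
      (t < (within G S).dist x v → G.Adj (P v t) (P v (t + 1))) := by
  have ex : ∀ v, ∃ u, v ∈ S → u ∈ S ∧ (within G S).dist x u = (within G S).dist x v - 1 ∧
      Near (within G S) 1 v u ∧ (0 < (within G S).dist x v → G.Adj v u) := fun v => by
    by_cases hv : v ∈ S
    · obtain ⟨p, hp⟩ := near_iff_walk.1 (near_dist (hr v hv)).symm
      cases p with
      | nil => exact ⟨x, fun _ => ⟨hv, by simp, near_refl _ _, by simp⟩⟩
      | @cons _ u _ a q =>
        have h1 : Near (within G S) q.length x u := (near_iff_walk.2 ⟨q, le_rfl⟩ : Near _ _ u x).symm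
        have h2 := h1.dist_le
        have h3 := lip (hr u a.2.2) (near_of_adj a.symm)
        rw [Walk.length_cons] at hp
        exact ⟨u, fun _ => ⟨a.2.2, by omega, near_of_adj a, fun _ => a.1⟩⟩
    · exact ⟨v, fun h => absurd h hv⟩
  choose par hpar using ex
  refine ⟨fun v t => par^[t] v, fun v hv => ⟨rfl, fun t => ?_⟩⟩
  have key : ∀ t, par^[t] v ∈ S ∧
      (within G S).dist x (par^[t] v) = (within G S).dist x v - t ∧
      Near (within G S) t v (par^[t] v) := fun t => by
    induction t with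
    | zero => exact ⟨hv, rfl, near_refl _ _⟩
    | succ t ih =>
      obtain ⟨h1, h2, h3, -⟩ := hpar _ ih.1
      rw [Function.iterate_succ_apply']
      exact ⟨h1, by omega, ih.2.2.trans h3⟩
  obtain ⟨h1, h2, h3⟩ := key t
  refine ⟨h1, h2, h3, fun ht => ?_⟩
  simp only [Function.iterate_succ_apply']
  exact (hpar _ h1).2.2.2 (by omega)

/-- a clique minor inside `S` with representatives that are far from the other branch sets -/
structure Model (G : SimpleGraph V) (w d : ℕ) (S : Set V) {ι : Type} (A : ι → Set V)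
    (a p : ι → V) : Prop where
  conn : ∀ j, Conn G (A j)
  sub : ∀ j, A j ⊆ S
  disj : ∀ j k, j ≠ k → Disjoint (A j) (A k)
  adj : ∀ j k, j ≠ k → ∃ x ∈ A j, ∃ y ∈ A k, G.Adj x y
  mem : ∀ j, a j ∈ A j
  near : ∀ j, Near G d (a j) (p j)
  far : ∀ j k, j ≠ k → ∀ y ∈ A k, ¬ Near (within G S) w (a j) y

lemma step {w d s e : ℕ} {S S' : Set V} {x c : V} {ι : Type} {A : ι → Set V} {a p : ι → V}
    (hw : 1 ≤ w) (he : e ≤ s + w) (hr : ∀ v ∈ S, (within G S).Reachable x v)
    (h1 : ∀ v ∈ S', v ∈ S ∧ s ≤ (within G S).dist x v ∧ (within G S).dist x v < e)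
    (h2 : ∀ u ∈ S', ∀ v ∈ S, G.Adj u v → s ≤ (within G S).dist x v →
      (within G S).dist x v < e → v ∈ S')
    (M : Model G w d S' A a p) (hc : c ∈ S')
    (hl : ∀ j : Option ι, ¬ Near G (5 * w) x (j.elim c a))
    (hF : ∀ j k : Option ι, j ≠ k → ¬ Near G (10 * w) (j.elim c a) (k.elim c a)) :
    ∃ (A' : Option ι → Set V) (a' : Option ι → V),
      Model G w (d + 5 * w) S A' a' fun j => j.elim c p := by
  obtain ⟨P, hP⟩ := exists_path hr
  set lev := (within G S).dist x with hlev
  set b : Option ι → V := fun j => j.elim c a with hb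
  have bS : ∀ j, b j ∈ S' := by
    rintro (_ | j)
    · exact hc
    · exact M.sub j (M.mem j)
  have b1 : ∀ j, b j ∈ S := fun j => (h1 _ (bS j)).1
  have b2 : ∀ j, s ≤ lev (b j) ∧ lev (b j) < s + w ∧ 5 * w < lev (b j) := fun j =>
    ⟨(h1 _ (bS j)).2.1, (h1 _ (bS j)).2.2.trans_le he, not_le.1 fun h =>
      hl j ((Near.le within_le (near_dist (hr _ (b1 j)))).mono h)⟩
  have p0 : ∀ j, P (b j) 0 = b j := fun j => (hP _ (b1 j)).1
  have p1 : ∀ j t, P (b j) t ∈ S := fun j t => ((hP _ (b1 j)).2 t).1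
  have p2 : ∀ j t, lev (P (b j) t) = lev (b j) - t := fun j t => ((hP _ (b1 j)).2 t).2.1
  have p3 : ∀ j t, Near G t (b j) (P (b j) t) := fun j t =>
    Near.le within_le ((hP _ (b1 j)).2 t).2.2.1
  have p4 : ∀ j t, t < lev (b j) → G.Adj (P (b j) t) (P (b j) (t + 1)) := fun j t =>
    ((hP _ (b1 j)).2 t).2.2.2
  have lp : ∀ u ∈ S, ∀ v, Near (within G S) w u v → lev v ≤ lev u + w := fun u hu v h =>
    lip (hr u hu) h
  have pF : ∀ j k t t' r, j ≠ k → Near G r (P (b j) t) (P (b k) t') → 10 * w < t + r + t' :=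
    fun j k t t' r hjk h => not_le.1 fun hle =>
      hF j k hjk ((((p3 j t).trans h).trans (p3 k t').symm).mono hle)
  let E : ι → Set V := fun j => {y | ∃ t ≤ 4 * w, y = P (b (some j)) t}
  let B : Set V := {y | ∃ k t, 4 * w < t ∧ y = P (b k) t}
  have Bl : ∀ y ∈ B, lev y + 3 * w + 2 ≤ s := by
    rintro _ ⟨k, t, ht, rfl⟩
    have := b2 k
    rw [p2]
    omega
  have Al : ∀ k, ∀ y ∈ A k, s ≤ lev y := fun k y hy => (h1 y (M.sub k hy)).2.1
  have root : ∀ v ∈ S, lev v = 0 → v = x := fun v hv h0 =>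
    (near_zero_iff.1 ((near_dist (hr v hv)).mono h0.le)).symm
  have Bc : Conn G B := by
    refine conn_of_root (x := x) ⟨none, lev (b none), by have := b2 none; omega,
      (root _ (p1 none _) (by rw [p2]; exact Nat.sub_self _)).symm⟩ ?_
    have : ∀ n k t, 4 * w < t → lev (b k) - t = n → (within G B).Reachable (P (b k) t) x := by
      intro n
      induction n with
      | zero =>
        intro k t _ h0
        rw [root _ (p1 k t) (by rw [p2, h0])]
      | succ n ih =>
        intro k t ht h0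
        exact (Adj.reachable (G := within G B) ⟨p4 k t (by omega), ⟨k, t, ht, rfl⟩,
          ⟨k, t + 1, by omega, rfl⟩⟩).trans (ih k (t + 1) (by omega) (by omega))
    rintro _ ⟨k, t, ht, rfl⟩
    exact this _ k t ht rfl
  have Ec : ∀ j, Conn G (E j) := fun j => by
    refine conn_of_root (x := P (b (some j)) 0) ⟨0, by omega, rfl⟩ ?_
    rintro _ ⟨t, ht, rfl⟩
    induction t with
    | zero => rfl
    | succ t ih =>
      have := b2 (some j)
      exact (Adj.reachable (G := within G (E j)) ⟨(p4 _ t (by omega)).symm, ⟨t + 1, ht, rfl⟩,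
        ⟨t, by omega, rfl⟩⟩).trans (ih (by omega))
  have EA : ∀ j k, j ≠ k → ∀ y ∈ E j, y ∉ A k := by
    rintro j k hjk _ ⟨t, ht, rfl⟩ hy
    have e1 := Al k _ hy
    have e2 := b2 (some j)
    have e3 := (h1 _ (bS (some j))).2.2
    rw [p2] at e1
    have : ∀ r ≤ t, P (b (some j)) r ∈ S' ∧ Near (within G S') r (a j) (P (b (some j)) r) := by
      intro r hr
      induction r with
      | zero => rw [p0]; exact ⟨bS _, near_refl _ _⟩
      | succ r ih =>
        obtain ⟨i1, i2⟩ := ih (by omega)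
        have ad := p4 (some j) r (by omega)
        have i3 : P (b (some j)) (r + 1) ∈ S' := h2 _ i1 _ (p1 _ _) ad
          (by rw [p2]; omega) (by rw [p2]; omega)
        exact ⟨i3, i2.trans (near_of_adj (G := within G S') ⟨ad, i1, i3⟩)⟩
    exact M.far j k hjk _ hy ((this t le_rfl).2.mono (by omega))
  have EB : ∀ k, ∀ y ∈ A k ∪ E k, y ∉ B := by
    rintro k y (hy | ⟨t, ht, rfl⟩) hB
    · have := Al k y hy
      have := Bl y hB
      omega
    · obtain ⟨l, t', ht', h⟩ := hB
      have e1 := congrArg lev h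
      have e2 := b2 (some k)
      have e3 := b2 l
      rw [p2, p2] at e1
      by_cases hl : some k = l
      · subst hl
        omega
      · have := pF _ _ t t' 0 hl (h ▸ near_refl _ _)
        omega
  have AB : ∀ k, ∃ u ∈ A k ∪ E k, ∃ v ∈ B, G.Adj u v := fun k =>
    ⟨_, Or.inr ⟨4 * w, le_rfl, rfl⟩, _, ⟨some k, 4 * w + 1, by omega, rfl⟩,
      p4 _ _ (by have := b2 (some k); omega)⟩
  refine ⟨fun j => j.elim B fun j => A j ∪ E j,
    fun j => j.elim (P (b none) (4 * w + 1)) fun j => P (b (some j)) (2 * w),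
    ?_, ?_, ?_, ?_, ?_, ?_, ?_⟩
  · rintro (_ | j)
    · exact Bc
    · exact (M.conn j).union (Ec j) (M.mem j) ⟨0, by omega, rfl⟩ (Or.inl (p0 (some j)).symm)
  · rintro (_ | j) y hy
    · obtain ⟨k, t, -, rfl⟩ := hy
      exact p1 _ _
    · rcases hy with hy | ⟨t, -, rfl⟩
      · exact (h1 y (M.sub j hy)).1
      · exact p1 _ _
  · rintro (_ | j) (_ | k) hjk
    · exact absurd rfl hjk
    · exact Set.disjoint_right.2 (EB k)
    · exact Set.disjoint_left.2 (EB j)
    · have hjk' : j ≠ k := fun h => hjk (congrArg some h)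
      refine Set.disjoint_left.2 ?_
      rintro y (hy | hy) (hy' | hy')
      · exact Set.disjoint_left.1 (M.disj j k hjk') hy hy'
      · exact EA k j hjk'.symm y hy' hy
      · exact EA j k hjk' y hy hy'
      · obtain ⟨t, ht, rfl⟩ := hy
        obtain ⟨t', ht', h⟩ := hy'
        have := pF _ _ t t' 0 hjk (h ▸ near_refl _ _)
        omega
  · rintro (_ | j) (_ | k) hjk
    · exact absurd rfl hjk
    · obtain ⟨u, hu, v, hv, h⟩ := AB k
      exact ⟨v, hv, u, hu, h.symm⟩
    · exact AB j
    · obtain ⟨u, hu, v, hv, h⟩ := M.adj j k fun h => hjk (congrArg some h)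
      exact ⟨u, Or.inl hu, v, Or.inl hv, h⟩
  · rintro (_ | j)
    · exact ⟨none, _, by omega, rfl⟩
    · exact Or.inr ⟨_, by omega, rfl⟩
  · rintro (_ | j)
    · exact (p3 none _).symm.mono (by omega)
    · exact (p3 (some j) _).symm.trans' (M.near j) (by omega)
  · rintro (_ | j) (_ | k) hjk y hy h
    · exact absurd rfl hjk
    · rcases hy with hy | ⟨t, ht, rfl⟩
      · have e1 := lp _ (p1 _ _) _ h
        have e2 := Al k y hy
        have e3 := Bl _ ⟨none, 4 * w + 1, by omega, rfl⟩
        omega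
      · have := pF _ _ _ _ _ hjk (Near.le within_le h)
        omega
    · have e0 : y ∈ S := by
        obtain ⟨k, t, -, rfl⟩ := hy
        exact p1 _ _
      have e1 : lev (P (b (some j)) (2 * w)) ≤ lev y + w := lp _ e0 _ h.symm
      have e2 := Bl y hy
      have e3 := b2 (some j)
      rw [p2] at e1
      omega
    · rcases hy with hy | ⟨t, ht, rfl⟩
      · have e1 := lp _ (p1 _ _) _ h
        have e2 := Al k y hy
        have e3 := b2 (some j)
        rw [p2] at e1
        omega
      · have := pF _ _ _ _ _ hjk (Near.le within_le h)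
        omega

lemma core {w m : ℕ} (hw : 1 ≤ w) : ∀ i ≤ m, ∀ (S T : Set V) (Q : Finset V), Chop G w i S T →
    (∀ q ∈ Q, q ∈ T) → 2 * i + 1 ≤ Q.card →
    (∀ q ∈ Q, ∀ r ∈ Q, q ≠ r → ¬ Near G (10 * w * m) q r) →
    ∃ (ι : Type) (_ : Fintype ι) (A : ι → Set V) (a p : ι → V), Fintype.card ι = i + 1 ∧
      Model G w (5 * w * i) S A a p ∧ (∀ j, p j ∈ Q) ∧ Function.Injective p := by
  classical
  intro i
  induction i with
  | zero =>
    intro _ S T Q h hQ hc _
    obtain ⟨q, hq⟩ := card_pos.1 (show 0 < Q.card by omega)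
    refine ⟨Unit, inferInstance, fun _ => {q}, fun _ => q, fun _ => q, rfl,
      ⟨fun _ => conn_of_root (x := q) rfl fun v hv => ?_, fun _ v hv => ?_,
        fun _ _ h => absurd rfl h, fun _ _ h => absurd rfl h, fun _ => rfl,
        fun _ => near_refl _ _, fun _ _ h => absurd rfl h⟩, fun _ => hq, fun _ _ _ => rfl⟩
    · rw [show v = q from hv]
    · rw [show v = q from hv]
      exact chop_sub h (hQ q hq)
  | succ i ih =>
    rintro hi S T Q ⟨S', ⟨x, -, s, e, he, hr, h1, h2⟩, h⟩ hQ hc hf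
    have c1 : (Q.filter fun q => Near G (5 * w * m) x q).card ≤ 1 :=
      card_le_one.2 fun q hq r hr' => by
        by_contra hne
        exact hf q (mem_filter.1 hq).1 r (mem_filter.1 hr').1 hne
          ((mem_filter.1 hq).2.symm.trans' (mem_filter.1 hr').2 (le_of_eq (by ring)))
    have c2 := card_filter_add_card_filter_not (s := Q) fun q => Near G (5 * w * m) x q
    obtain ⟨c, hc'⟩ := card_pos.1
      (show 0 < (Q.filter fun q => ¬ Near G (5 * w * m) x q).card by omega)
    have sub : ∀ q ∈ (Q.filter fun q => ¬ Near G (5 * w * m) x q).erase c, q ∈ Q := fun q hq =>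
      (mem_filter.1 (mem_of_mem_erase hq)).1
    obtain ⟨ι, _, A, a, p, k1, M, k2, k3⟩ := ih (by omega) S' T _ h (fun q hq => hQ q (sub q hq))
      (by rw [card_erase_of_mem hc']; omega) fun q hq r hr' => hf q (sub q hq) r (sub r hr')
    have q1 : ∀ j : Option ι, j.elim c p ∈ Q.filter fun q => ¬ Near G (5 * w * m) x q := by
      rintro (_ | j)
      · exact hc'
      · exact mem_of_mem_erase (k2 j)
    have q2 : Function.Injective fun j : Option ι => j.elim c p := by
      rintro (_ | j) (_ | k) hjk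
      · rfl
      · exact absurd hjk.symm (ne_of_mem_erase (k2 k))
      · exact absurd hjk (ne_of_mem_erase (k2 j))
      · exact congrArg some (k3 hjk)
    have q3 : ∀ j : Option ι, Near G (5 * w * i) (j.elim c a) (j.elim c p) := by
      rintro (_ | j)
      · exact near_refl _ _
      · exact M.near j
    have hm : w * (i + 1) ≤ w * m := Nat.mul_le_mul_left w hi
    obtain ⟨A', a', M'⟩ := step hw he hr h1 h2 M (chop_sub h (hQ c (mem_filter.1 hc').1))
      (fun j hj => (mem_filter.1 (q1 j)).2 (hj.trans' (q3 j) (by nlinarith)))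
      fun j k hjk hn => hf _ (mem_filter.1 (q1 j)).1 _ (mem_filter.1 (q1 k)).1 (q2.ne hjk)
        (((q3 j).symm.trans hn).trans' (q3 k) (by nlinarith))
    exact ⟨Option ι, inferInstance, A', a', _, by rw [Fintype.card_option, k1], M',
      fun j => (mem_filter.1 (q1 j)).1, q2⟩

lemma ivt {T : Set V} {u y v : V} (p : (within G T).Walk y v) (hy : y ∈ T) (hr : G.Reachable u y)
    {k : ℕ} (h1 : G.dist u y ≤ k) (h2 : k ≤ G.dist u v) :
    ∃ z ∈ T, G.Reachable u z ∧ G.dist u z = k := by
  induction p with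
  | nil => exact ⟨_, hy, hr, le_antisymm h1 h2⟩
  | cons a _ ih =>
    rcases h1.eq_or_lt with h | h
    · exact ⟨_, hy, hr, h⟩
    · exact ih a.2.2 (hr.trans a.1.reachable) ((lip hr (near_of_adj a.1)).trans h) h2

end KprAux

theorem chop_near {m w : ℕ} {S T : Set V} (hG : ¬ CliqueMinor G (m + 1)) (hw : 1 ≤ w)
    (h : Chop G w m S T) (hT : Conn G T) : ∀ u ∈ T, ∀ v ∈ T, Near G (kap m * w) u v := by
  classical
  intro u hu v hv
  by_contra hn
  have hr := hT.2 u hu v hv
  have hd : kap m * w < G.dist u v :=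
    not_le.1 fun hle => hn (near_iff_dist.2 ⟨hr.mono within_le, hle⟩)
  obtain ⟨p⟩ := hr
  have ex : ∀ k : Fin (2 * m + 1), ∃ z ∈ T, G.Reachable u z ∧
      G.dist u z = k * (10 * w * m + 1) := fun k => by
    refine KprAux.ivt p hu (Reachable.refl _) (by simp) (le_trans ?_ hd.le)
    have h1 : (k : ℕ) * (10 * w * m + 1) ≤ 2 * m * (10 * w * m + 1) :=
      Nat.mul_le_mul_right _ (Nat.lt_succ_iff.1 k.2)
    have h2 : m * 1 ≤ m * w := Nat.mul_le_mul_left m hw
    unfold kap
    nlinarith [Nat.zero_le (m * m * w), Nat.zero_le (m * w)]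
  choose z hz using ex
  have far : ∀ k l, k < l → ¬ Near G (10 * w * m) (z k) (z l) := fun k l hkl hn' => by
    have h1 := KprAux.lip (hz k).2.1 hn'
    have h2 : ((k : ℕ) + 1) * (10 * w * m + 1) ≤ l * (10 * w * m + 1) :=
      Nat.mul_le_mul_right _ hkl
    rw [(hz k).2.2, (hz l).2.2] at h1
    nlinarith
  have far' : ∀ k l, k ≠ l → ¬ Near G (10 * w * m) (z k) (z l) := fun k l hkl hn' =>
    hkl.lt_or_gt.elim (fun h => far k l h hn') fun h => far l k h hn'.symm
  have inj : Function.Injective z := fun k l hkl => by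
    by_contra hne
    exact far' k l hne (hkl ▸ near_refl _ _)
  obtain ⟨ι, _, A, a, q, k1, M, -⟩ := KprAux.core hw m le_rfl S T (univ.image z) h
    (fun q hq => by obtain ⟨k, -, rfl⟩ := mem_image.1 hq; exact (hz k).1)
    (by rw [card_image_of_injective _ inj, card_univ, Fintype.card_fin])
    (fun q hq r hr hne => by
      obtain ⟨k, -, rfl⟩ := mem_image.1 hq
      obtain ⟨l, -, rfl⟩ := mem_image.1 hr
      exact far' k l fun h => hne (congrArg z h))
  let e := (Fintype.equivFinOfCardEq k1).symm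
  exact hG (cliqueMinor_of (fun j => A (e j)) (fun j => M.conn _) fun j k hjk =>
    ⟨M.disj _ _ (e.injective.ne hjk), M.adj _ _ (e.injective.ne hjk)⟩)

end Pool.Agent.Lib.MP_559647_lc.M64
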