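import Pool.Agent.Lib.MP_559647_lc.M64Basic

/-! Cluster graphs are sparse, so the heaviest edges carry a fixed share of the cut. -/

namespace Pool.Agent.Lib.MP_559647_lc.M64

open Finset SimpleGraph

namespace MaderAux

variable {V : Type} {G : SimpleGraph V} {ι : Type} [DecidableEq ι]

/-- two sets joined by an edge -/
def Ad (G : SimpleGraph V) (A B : Set V) : Prop := ∃ x ∈ A, ∃ y ∈ B, G.Adj x y

lemma Ad.symm {A B : Set V} (h : Ad G A B) : Ad G B A := by
  obtain ⟨x, hx, y, hy, a⟩ := h
  exact ⟨y, hy, x, hx, a.symm⟩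

lemma Ad.mono {A B A' B' : Set V} (h : Ad G A B) (h1 : A ⊆ A') (h2 : B ⊆ B') : Ad G A' B' := by
  obtain ⟨x, hx, y, hy, a⟩ := h
  exact ⟨x, h1 hx, y, h2 hy, a⟩

open Classical in
/-- indicator of an edge of the cluster graph -/
noncomputable def e (G : SimpleGraph V) (S : ι → Set V) (a b : ι) : ℕ :=
  if a ≠ b ∧ Ad G (S a) (S b) then 1 else 0

lemma e_symm (S : ι → Set V) (a b : ι) : e G S a b = e G S b a := by
  unfold e
  by_cases h : a ≠ b ∧ Ad G (S a) (S b)
  · rw [if_pos h, if_pos ⟨h.1.symm, h.2.symm⟩]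
  · rw [if_neg h, if_neg fun h' => h ⟨h'.1.symm, h'.2.symm⟩]

lemma e_self (S : ι → Set V) (a : ι) : e G S a a = 0 := by simp [e]

lemma e_le (S : ι → Set V) (a b : ι) : e G S a b ≤ 1 := by
  unfold e; split_ifs <;> simp

lemma e_ne {S : ι → Set V} {a b : ι} : e G S a b ≠ 0 ↔ a ≠ b ∧ Ad G (S a) (S b) := by
  unfold e; split_ifs with h <;> simp [h]

lemma e_one {S : ι → Set V} {a b : ι} (h : e G S a b ≠ 0) : e G S a b = 1 := by
  have := e_le (G := G) S a b
  omega

/-- a complete minor built from the clusters in `F` -/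
def Has (G : SimpleGraph V) (S : ι → Set V) (F : Finset ι) (h : ℕ) : Prop :=
  ∃ B : Fin h → Set V, (∀ i, Conn G (B i)) ∧ (∀ i, ∀ x ∈ B i, ∃ a ∈ F, x ∈ S a) ∧
    (∀ i, ∃ a ∈ F, S a ⊆ B i) ∧ ∀ i j, i ≠ j → Disjoint (B i) (B j) ∧ Ad G (B i) (B j)

/-- contraction of an edge of the cluster graph -/
lemma contract (S : ι → Set V) (R : Finset ι) {a b : ι} (ha : a ∉ insert b R) (hb : b ∉ R) :
    ∑ x ∈ insert a (insert b R), ∑ y ∈ insert a (insert b R), e G S x y ≤
      ∑ x ∈ insert a R, ∑ y ∈ insert a R, e G (Function.update S a (S a ∪ S b)) x y + 2 +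
        2 * ∑ x ∈ R, e G S a x * e G S b x := by
  have ha' : a ∉ R := fun h => ha (mem_insert_of_mem h)
  set S' := Function.update S a (S a ∪ S b) with hS'
  have h1 : ∀ x ∈ R, S' x = S x := fun x hx =>
    Function.update_of_ne (fun h : x = a => ha' (h ▸ hx)) _ _
  have h2 : S' a = S a ∪ S b := Function.update_self _ _ _
  have h3 : ∑ x ∈ R, ∑ y ∈ R, e G S' x y = ∑ x ∈ R, ∑ y ∈ R, e G S x y :=
    sum_congr rfl fun x hx => sum_congr rfl fun y hy => by unfold e; rw [h1 x hx, h1 y hy]
  have h4 : ∑ x ∈ R, e G S a x + ∑ x ∈ R, e G S b x ≤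
      ∑ x ∈ R, e G S' a x + ∑ x ∈ R, e G S a x * e G S b x := by
    rw [← sum_add_distrib, ← sum_add_distrib]
    refine sum_le_sum fun x hx => ?_
    have hax : a ≠ x := fun h => ha' (h ▸ hx)
    have key : e G S a x ≠ 0 ∨ e G S b x ≠ 0 → e G S' a x = 1 := by
      intro h
      refine e_one (e_ne.2 ⟨hax, ?_⟩)
      rw [h1 x hx, h2]
      rcases h with h | h
      · exact (e_ne.1 h).2.mono Set.subset_union_left le_rfl
      · exact (e_ne.1 h).2.mono Set.subset_union_right le_rfl
    by_cases p : e G S a x = 0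
    · by_cases q : e G S b x = 0
      · simp [p, q]
      · rw [key (Or.inr q), p, e_one q]
    · by_cases q : e G S b x = 0
      · rw [key (Or.inl p), q, e_one p]
      · rw [key (Or.inl p), e_one p, e_one q]
  have h5 : ∀ (T : ι → Set V) (c : ι), ∑ x ∈ R, e G T x c = ∑ x ∈ R, e G T c x :=
    fun T c => sum_congr rfl fun x _ => e_symm T x c
  have h6 := e_le (G := G) S a b
  have h7 := e_le (G := G) S b a
  simp only [sum_insert ha, sum_insert hb, sum_insert ha', sum_add_distrib, e_self, h5, h3]
  omega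

/-- dense cluster graphs have complete minors -/
lemma mader (h : ℕ) : ∀ (n : ℕ) (S : ι → Set V) (F : Finset ι), F.card = n → F.Nonempty →
    (∀ a ∈ F, Conn G (S a)) → (∀ a ∈ F, ∀ b ∈ F, a ≠ b → Disjoint (S a) (S b)) →
    2 ^ h * F.card ≤ ∑ x ∈ F, ∑ y ∈ F, e G S x y → Has G S F h := by
  induction h with
  | zero =>
    intro _ S F _ _ _ _ _
    exact ⟨Fin.elim0, fun i => i.elim0, fun i => i.elim0, fun i => i.elim0, fun i => i.elim0⟩
  | succ h ih =>
    intro n
    induction n using Nat.strong_induction_on with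
    | _ n ihn =>
    intro S F hn hne hc hd hD
    by_cases hcase : ∃ a ∈ F, ∃ b ∈ F, e G S a b ≠ 0 ∧ ∑ x ∈ F, e G S a x * e G S b x < 2 ^ h
    · obtain ⟨a, ha, b, hb, hab, hlt⟩ := hcase
      obtain ⟨hne', hAd⟩ := e_ne.1 hab
      set R := (F.erase a).erase b with hR
      have hbR : b ∉ R := notMem_erase _ _
      have hbF : b ∈ F.erase a := mem_erase.2 ⟨hne'.symm, hb⟩
      have hF1 : insert b R = F.erase a := insert_erase hbF
      have haR : a ∉ insert b R := by rw [hF1]; exact notMem_erase _ _
      have haR' : a ∉ R := fun h => haR (mem_insert_of_mem h)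
      have hF : insert a (insert b R) = F := by rw [hF1]; exact insert_erase ha
      have hRF : R ⊆ F := fun x hx => mem_of_mem_erase (mem_of_mem_erase hx)
      have hcard : F.card = (insert a R).card + 1 := by
        rw [← hF, card_insert_of_notMem haR, card_insert_of_notMem hbR,
          card_insert_of_notMem haR']
      have hcon := contract (G := G) S R haR hbR
      rw [hF] at hcon
      have hle : ∑ x ∈ R, e G S a x * e G S b x ≤ ∑ x ∈ F, e G S a x * e G S b x :=
        sum_le_sum_of_subset hRF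
      set S' := Function.update S a (S a ∪ S b) with hS'
      have h1 : ∀ x ∈ R, S' x = S x := fun x hx =>
        Function.update_of_ne (fun h : x = a => haR' (h ▸ hx)) _ _
      have h2 : S' a = S a ∪ S b := Function.update_self _ _ _
      have hdis : ∀ x ∈ R, Disjoint (S' a) (S' x) := by
        intro x hx
        rw [h1 x hx, h2]
        exact Set.disjoint_union_left.2 ⟨hd a ha x (hRF hx) fun h => haR' (h ▸ hx),
          hd b hb x (hRF hx) fun h => hbR (h ▸ hx)⟩
      obtain ⟨B, b1, b2, b3, b4⟩ := ihn (insert a R).card (by omega) S' (insert a R) rfl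
        (insert_nonempty _ _)
        (by
          intro x hx
          rcases mem_insert.1 hx with rfl | hx
          · rw [h2]
            obtain ⟨u, hu, v, hv, huv⟩ := hAd
            exact (hc _ ha).union (hc _ hb) hu hv (Or.inr huv)
          · rw [h1 x hx]; exact hc x (hRF hx))
        (by
          intro x hx y hy hxy
          rcases mem_insert.1 hx with rfl | hx
          · rcases mem_insert.1 hy with rfl | hy
            · exact absurd rfl hxy
            · exact hdis y hy
          · rcases mem_insert.1 hy with rfl | hy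
            · exact (hdis x hx).symm
            · rw [h1 x hx, h1 y hy]; exact hd x (hRF hx) y (hRF hy) hxy)
        (by
          rw [hcard, pow_succ, mul_add] at hD
          rw [pow_succ]
          omega)
      refine ⟨B, b1, fun i x hx => ?_, fun i => ?_, b4⟩
      · obtain ⟨c, hc', hx'⟩ := b2 i x hx
        rcases mem_insert.1 hc' with rfl | hc'
        · rw [h2] at hx'
          rcases hx' with hx' | hx'
          · exact ⟨_, ha, hx'⟩
          · exact ⟨_, hb, hx'⟩
        · rw [h1 c hc'] at hx'
          exact ⟨c, hRF hc', hx'⟩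
      · obtain ⟨c, hc', hx'⟩ := b3 i
        rcases mem_insert.1 hc' with rfl | hc'
        · rw [h2] at hx'
          exact ⟨_, ha, Set.subset_union_left.trans hx'⟩
        · rw [h1 c hc'] at hx'
          exact ⟨c, hRF hc', hx'⟩
    · push Not at hcase
      have hpos : ∑ x ∈ F, ∑ y ∈ F, e G S x y ≠ 0 := by
        have : 0 < 2 ^ (h + 1) * F.card := Nat.mul_pos (by positivity) (card_pos.2 hne)
        omega
      obtain ⟨a, ha, ha'⟩ := exists_ne_zero_of_sum_ne_zero hpos
      obtain ⟨b, hb, hab⟩ := exists_ne_zero_of_sum_ne_zero ha'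
      set N := F.filter fun x => e G S a x ≠ 0 with hN
      have hNF : N ⊆ F := filter_subset _ _
      obtain ⟨B, b1, b2, b3, b4⟩ := ih N.card S N rfl ⟨b, mem_filter.2 ⟨hb, hab⟩⟩
        (fun x hx => hc x (hNF hx)) (fun x hx y hy => hd x (hNF hx) y (hNF hy))
        (by
          rw [mul_comm, ← smul_eq_mul, ← sum_const]
          refine sum_le_sum fun x hx => ?_
          refine (hcase a ha x (hNF hx) (mem_filter.1 hx).2).trans ?_
          rw [hN, sum_filter]
          refine sum_le_sum fun y _ => ?_
          split_ifs with hy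
          · rw [e_one hy, one_mul]
          · rw [not_not.1 hy, zero_mul])
      have hk : ∀ j, Disjoint (S a) (B j) ∧ Ad G (S a) (B j) := by
        intro j
        constructor
        · refine Set.disjoint_left.2 fun x hx hx' => ?_
          obtain ⟨c, hc', hx''⟩ := b2 j x hx'
          exact Set.disjoint_left.1 (hd a ha c (hNF hc') (e_ne.1 (mem_filter.1 hc').2).1) hx hx''
        · obtain ⟨c, hc', hx'⟩ := b3 j
          exact (e_ne.1 (mem_filter.1 hc').2).2.mono le_rfl hx'
      refine ⟨Fin.cons (S a) B, fun i => ?_, fun i => ?_, fun i => ?_, fun i j => ?_⟩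
      · refine Fin.cases ?_ (fun i => ?_) i
        · exact hc a ha
        · exact b1 i
      · refine Fin.cases ?_ (fun i => ?_) i
        · exact fun x hx => ⟨a, ha, hx⟩
        · intro x hx
          obtain ⟨c, hc', hx'⟩ := b2 i x hx
          exact ⟨c, hNF hc', hx'⟩
      · refine Fin.cases ?_ (fun i => ?_) i
        · exact ⟨a, ha, le_rfl⟩
        · obtain ⟨c, hc', hx'⟩ := b3 i
          exact ⟨c, hNF hc', hx'⟩
      · refine Fin.cases ?_ (fun i => ?_) i
        · refine Fin.cases ?_ (fun j => ?_) j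
          · exact fun h => absurd rfl h
          · exact fun _ => hk j
        · refine Fin.cases ?_ (fun j => ?_) j
          · exact fun _ => ⟨(hk i).1.symm, (hk i).2.symm⟩
          · exact fun h => b4 i j fun e => h (congrArg _ e)

lemma sparse {m : ℕ} (hG : ¬ CliqueMinor G m) (S : ι → Set V) (F : Finset ι)
    (hc : ∀ a ∈ F, Conn G (S a)) (hd : ∀ a ∈ F, ∀ b ∈ F, a ≠ b → Disjoint (S a) (S b)) :
    ∑ x ∈ F, ∑ y ∈ F, e G S x y ≤ 2 ^ m * F.card := by
  rcases F.eq_empty_or_nonempty with rfl | hne
  · simp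
  · by_contra hlt
    obtain ⟨B, b1, -, -, b4⟩ := mader m _ S F rfl hne hc hd (not_le.1 hlt).le
    exact hG (cliqueMinor_of B b1 b4)

lemma cake {n K : ℕ} (h : n ≤ K) : n = ∑ θ ∈ range K, if θ < n then 1 else 0 := by
  rw [← card_filter]
  have : (range K).filter (fun θ => θ < n) = range n := by
    ext θ
    simp only [mem_filter, mem_range]
    omega
  rw [this, card_range]

end MaderAux

variable {V : Type} [Fintype V] [DecidableEq V] {G : SimpleGraph V}

/-- the weight between the clusters with labels `a` and `b` -/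
def cw (W : V → V → ℕ) (lab : V → V) (a b : V) : ℕ :=
  if a = b then 0 else ∑ x with lab x = a, ∑ y with lab y = b, W x y

namespace MaderAux

lemma cut_eq (W : V → V → ℕ) (lab : V → V) : cut univ W lab = ∑ a, ∑ b, cw W lab a b := by
  unfold cut
  rw [← sum_fiberwise univ lab]
  refine sum_congr rfl fun a _ => ?_
  have : ∀ x ∈ univ.filter (fun x => lab x = a),
      (∑ y, if lab x = lab y then 0 else W x y) =
        ∑ b, ∑ y with lab y = b, if a = b then 0 else W x y := by
    intro x hx
    rw [← sum_fiberwise univ lab]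
    refine sum_congr rfl fun b _ => sum_congr rfl fun y hy => ?_
    rw [(mem_filter.1 hx).2, (mem_filter.1 hy).2]
  rw [sum_congr rfl this, sum_comm]
  refine sum_congr rfl fun b _ => ?_
  unfold cw
  split_ifs <;> simp

lemma cw_symm {W : V → V → ℕ} (hW : Wt G W) (lab : V → V) (a b : V) :
    cw W lab a b = cw W lab b a := by
  unfold cw
  by_cases h : a = b
  · simp [h]
  · rw [if_neg h, if_neg (Ne.symm h), sum_comm]
    exact sum_congr rfl fun _ _ => sum_congr rfl fun _ _ => hW.symm _ _

lemma cw_ne {W : V → V → ℕ} (hW : Wt G W) {lab : V → V} {a b : V} (h : cw W lab a b ≠ 0) :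
    a ≠ b ∧ Ad G {x | lab x = a} {x | lab x = b} := by
  unfold cw at h
  split_ifs at h with hab
  · exact absurd rfl h
  · obtain ⟨x, hx, h⟩ := exists_ne_zero_of_sum_ne_zero h
    obtain ⟨y, hy, h⟩ := exists_ne_zero_of_sum_ne_zero h
    exact ⟨hab, x, (mem_filter.1 hx).2, y, (mem_filter.1 hy).2, hW.adj x y h⟩

end MaderAux

open MaderAux in
theorem cut_le_max {m ρ : ℕ} {W : V → V → ℕ} {lab : V → V} (hG : ¬ CliqueMinor G m)
    (hp : Part G ρ lab) (hW : Wt G W) :
    cut univ W lab ≤ 2 ^ m * ∑ a, univ.sup (cw W lab a) := by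
  set M : V → ℕ := fun a => univ.sup (cw W lab a) with hM
  have hle : ∀ a b, cw W lab a b ≤ M a := fun a b => le_sup (f := cw W lab a) (mem_univ b)
  set K := ∑ a, M a with hK
  have hMK : ∀ a, M a ≤ K := fun a => single_le_sum (f := M) (fun _ _ => Nat.zero_le _) (mem_univ a)
  have layer : ∀ θ : ℕ, (∑ a, ∑ b, if θ < cw W lab a b then 1 else 0) ≤
      2 ^ m * ∑ a, if θ < M a then 1 else 0 := by
    intro θ
    set F := univ.filter fun a => θ < M a with hF
    have h1 := sparse hG (fun a => {x | lab x = a}) F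
      (by
        intro a ha
        have ha' : θ < univ.sup (cw W lab a) := (mem_filter.1 ha).2
        obtain ⟨b, -, hb⟩ := Finset.lt_sup_iff.1 ha'
        obtain ⟨-, x, hx, -⟩ := cw_ne hW (lab := lab) (a := a) (b := b) (by omega)
        have hx' : lab x = a := hx
        exact hp.conn_fib (by rw [← hx', hp.idem]))
      (fun a _ b _ hab => Set.disjoint_left.2 fun x (h1 : lab x = a) (h2 : lab x = b) =>
        hab (h1.symm.trans h2))
    rw [← card_filter]
    refine le_trans ?_ h1
    rw [hF, sum_filter]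
    refine sum_le_sum fun a _ => ?_
    split_ifs with ha
    · rw [sum_filter]
      refine sum_le_sum fun b _ => ?_
      split_ifs with h2 h3
      · exact (e_one (e_ne.2 (cw_ne hW (lab := lab) (by omega)))).ge
      · have := hle b a
        rw [cw_symm hW] at this
        omega
      · exact Nat.zero_le _
      · exact le_rfl
    · refine (sum_eq_zero fun b _ => if_neg ?_).le
      have := hle a b
      omega
  calc cut univ W lab = ∑ a, ∑ b, ∑ θ ∈ range K, if θ < cw W lab a b then 1 else 0 := by
        rw [cut_eq]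
        exact sum_congr rfl fun a _ => sum_congr rfl fun b _ => cake ((hle a b).trans (hMK a))
    _ = ∑ θ ∈ range K, ∑ a, ∑ b, if θ < cw W lab a b then 1 else 0 := by
        rw [sum_comm (s := range K)]
        exact sum_congr rfl fun a _ => sum_comm
    _ ≤ ∑ θ ∈ range K, 2 ^ m * ∑ a, if θ < M a then 1 else 0 := sum_le_sum fun θ _ => layer θ
    _ = 2 ^ m * K := by
        rw [← mul_sum, sum_comm]
        congr 1
        exact sum_congr rfl fun a _ => (cake (hMK a)).symm

end Pool.Agent.Lib.MP_559647_lc.M64
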