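import Pool.Agent.Lib.MP_559647_lc.M64Pair

/-! Network decompositions of powers of graphs without a complete minor. -/

namespace Pool.Agent.Lib.MP_559647_lc.M64

open Finset SimpleGraph

lemma image_ball_loc {N : ℕ} {C : Set (Inst N)} {t : ℕ} {ctr : Inst N → Fin N → Fin N}
    (h : Loc C t ctr) (r : ℕ) : Loc C (t + r) fun I u => (ball I.G r u).image (ctr I) := by
  intro I hI J hJ v hv
  have e : ball I.G r v = ball J.G r v := ball_loc r I hI J hJ v (hv.mono (by omega))
  show (ball I.G r v).image (ctr I) = (ball J.G r v).image (ctr J)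
  rw [← e]
  exact image_congr fun x hx => h.at hI hJ hv (mem_ball.1 hx) (by omega)

lemma card_image_le_bad {V : Type} [DecidableEq V] (Z : Finset V) (lab : V → V) (u : V)
    (h : ¬ ∀ z ∈ Z, lab z = lab u) :
    (Z.image lab).card ≤ 2 * (Z.filter fun z => lab z ≠ lab u).card := by
  have h1 : Z.image lab ⊆ insert (lab u) ((Z.filter fun z => lab z ≠ lab u).image lab) := by
    intro y hy
    obtain ⟨z, hz, rfl⟩ := mem_image.1 hy
    by_cases e : lab z = lab u
    · exact mem_insert.2 (Or.inl e)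
    · exact mem_insert_of_mem (mem_image_of_mem _ (mem_filter.2 ⟨hz, e⟩))
  have h2 : 0 < (Z.filter fun z => lab z ≠ lab u).card := by
    push Not at h
    obtain ⟨z, hz, e⟩ := h
    exact card_pos.2 ⟨z, mem_filter.2 ⟨hz, e⟩⟩
  have h3 := (card_le_card h1).trans (card_insert_le _ _)
  have h4 : ((Z.filter fun z => lab z ≠ lab u).image lab).card ≤ _ := card_image_le
  omega

open Classical in
lemma rounds (m : ℕ) : ∃ A : ℕ, ∀ (N : ℕ) (C : Set (Inst N)) (k r : ℕ), N ≤ tower k →
    (∀ I ∈ C, ¬ CliqueMinor I.G (m + 1)) →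
    ∀ (j t : ℕ) (ctr : Inst N → Fin N → Fin N) (U : Inst N → Fin N → Prop),
      Loc C t ctr → Loc C t U →
      (∀ I ∈ C, (∀ v, Near I.G (kap m * (4 * r + 2)) v (ctr I v)) ∧
        ∑ u with U I u, ((ball I.G r u).image (ctr I)).card < 2 ^ j) →
      ∃ (c : Inst N → Fin N → Fin N) (col : Inst N → Fin N → ℕ),
        Loc C (t + j * (A * (k + 1) * (r + 1))) c ∧ Loc C (t + j * (A * (k + 1) * (r + 1))) col ∧
        ∀ I ∈ C, ∀ v, U I v → col I v < j ∧ Near I.G (A * (r + 1)) v (c I v) ∧
          ∀ w, U I w → col I v = col I w → Near I.G r v w → c I v = c I w := by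
  obtain ⟨A0, hA0⟩ := pair_cut m (4 * 2 ^ m)
  refine ⟨3 * (A0 * (4 * kap m + 1)) + 6 * (4 * kap m + 1), fun N C k r hN hG j => ?_⟩
  set ρ := kap m * (4 * r + 2) with hρ
  set E := 4 * kap m + 1 with hE
  have hD : r + ρ + 1 ≤ E * (r + 1) := by rw [hρ, hE]; nlinarith [Nat.zero_le (kap m)]
  have hκ : A0 * (r + ρ + 1) ≤ A0 * E * (r + 1) := by
    rw [mul_assoc]; exact Nat.mul_le_mul_left _ hD
  have hκ2 : A0 * (k + 1) * (r + ρ + 1) ≤ A0 * E * (k + 1) * (r + 1) := by
    calc A0 * (k + 1) * (r + ρ + 1) ≤ A0 * (k + 1) * (E * (r + 1)) := Nat.mul_le_mul_left _ hD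
      _ = _ := by ring
  have hκ3 : A0 * E * (r + 1) ≤ A0 * E * (k + 1) * (r + 1) :=
    Nat.mul_le_mul_right _ (Nat.le_mul_of_pos_right _ (by omega))
  have hκ4 : E * (r + 1) ≤ E * (k + 1) * (r + 1) :=
    Nat.mul_le_mul_right _ (Nat.le_mul_of_pos_right _ (by omega))
  have hB : (3 * (A0 * E) + 6 * E) * (k + 1) * (r + 1) =
      3 * (A0 * E * (k + 1) * (r + 1)) + 6 * (E * (k + 1) * (r + 1)) := by ring
  have hR : (3 * (A0 * E) + 6 * E) * (r + 1) = 3 * (A0 * E * (r + 1)) + 6 * (E * (r + 1)) := by ring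
  generalize (3 * (A0 * E) + 6 * E) * (k + 1) * (r + 1) = B at hB ⊢
  generalize (3 * (A0 * E) + 6 * E) * (r + 1) = Rd at hR ⊢
  induction j with
  | zero =>
    intro t ctr U _ _ h
    refine ⟨fun _ v => v, fun _ _ => 0, fun _ _ _ _ _ _ => rfl, fun _ _ _ _ _ _ => rfl,
      fun I hI v hv => ?_⟩
    have h1 := (h I hI).2
    have h2 : ((ball I.G r v).image (ctr I)).card ≤ _ :=
      single_le_sum (f := fun u => ((ball I.G r u).image (ctr I)).card) (fun _ _ => Nat.zero_le _)
        (mem_filter.2 ⟨mem_univ v, hv⟩ : v ∈ univ.filter fun u => U I u)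
    have h3 : 0 < ((ball I.G r v).image (ctr I)).card :=
      card_pos.2 ⟨_, mem_image_of_mem _ (mem_ball.2 (near_refl r v))⟩
    omega
  | succ j ih =>
    intro t ctr U hc hU h
    let Z : Inst N → Fin N → Finset (Fin N) := fun I u =>
      if U I u then (ball I.G r u).image (ctr I) else ∅
    have hZ : Loc C (t + r) Z := by
      intro I hI J hJ v hv
      have e1 := hU I hI J hJ v (hv.mono (by omega))
      have e2 := image_ball_loc hc r I hI J hJ v hv
      simp only at e2
      simp only [Z, e1, e2]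
    have hZn : ∀ I ∈ C, ∀ u, ∀ z ∈ Z I u, Near I.G (r + ρ) u z := by
      intro I hI u z hz
      simp only [Z] at hz
      split_ifs at hz
      · obtain ⟨x, hx, rfl⟩ := mem_image.1 hz
        exact (mem_ball.1 hx).trans ((h I hI).1 x)
      · simp at hz
    obtain ⟨lab, hl, hlab⟩ := hA0 N C k (t + r) (r + ρ) Z hN hG hZ hZn
    set t1 := t + r + A0 * (k + 1) * (r + ρ + 1) with ht1
    have hreg : Loc C (ρ + t1) fun I v => lab I (ctr I v) :=
      Loc.comp hl hc (fun I hI => (h I hI).1) le_rfl (by omega)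
    obtain ⟨ctr', hc', hctr'⟩ := recentre (ρ := ρ + A0 * (r + ρ + 1)) r hG hreg
      fun I hI v => ((h I hI).1 v).trans ((hlab I hI).1 _)
    let fr : Inst N → Fin N → Prop := fun I u => ∀ z ∈ Z I u, lab I z = lab I u
    have hfr : Loc C (r + ρ + t1) fr := by
      intro I hI J hJ v hv
      have e1 := hZ I hI J hJ v (hv.mono (by omega))
      have e2 := hl I hI J hJ v (hv.mono (by omega))
      simp only [fr, ← e1, ← e2]
      refine propext (forall₂_congr fun z hz => ?_)
      rw [hl.at hI hJ hv (hZn I hI v z hz) le_rfl]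
    obtain ⟨c, col, a1, a2, a3⟩ := ih (t + B) ctr' (fun I u => U I u ∧ ¬ fr I u)
      (hc'.mono (by omega)) (fun I hI J hJ v hv => by
        simp only [hU I hI J hJ v (hv.mono (by omega)), hfr I hI J hJ v (hv.mono (by omega))])
      (fun I hI => ⟨(hctr' I hI).1, by
        have b1 : ∑ u with U I u ∧ ¬ fr I u, ((ball I.G r u).image (ctr' I)).card ≤
            ∑ u with U I u ∧ ¬ fr I u,
              2 ^ m * (2 * ((Z I u).filter fun z => lab I z ≠ lab I u).card) := by
          refine sum_le_sum fun u hu => ((hctr' I hI).2 u).trans (Nat.mul_le_mul_left _ ?_)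
          have hu' := (mem_filter.1 hu).2
          have := card_image_le_bad (Z I u) (lab I) u hu'.2
          simp only [Z, if_pos hu'.1, image_image] at this ⊢
          exact this
        have b2 := b1.trans (sum_le_sum_of_subset (filter_subset _ _))
        rw [← mul_sum, ← mul_sum] at b2
        have b3 := (hlab I hI).2
        have b4 : ∑ u, (Z I u).card = ∑ u with U I u, ((ball I.G r u).image (ctr I)).card := by
          rw [sum_filter]
          refine sum_congr rfl fun u _ => ?_
          simp only [Z]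
          split_ifs <;> simp
        have b5 := (h I hI).2
        rw [pow_succ, ← b4] at b5
        have b6 : 4 * 2 ^ m * ∑ u, ((Z I u).filter fun z => lab I z ≠ lab I u).card =
            2 * (2 ^ m * (2 * ∑ u, ((Z I u).filter fun z => lab I z ≠ lab I u).card)) := by ring
        refine lt_of_le_of_lt (le_of_eq_of_le (by congr) b2) ?_
        omega⟩)
    have ht : t + B + j * B = t + (j + 1) * B := by ring
    rw [ht] at a1 a2
    have hjB : B ≤ (j + 1) * B := Nat.le_mul_of_pos_left _ (by omega)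
    refine ⟨fun I v => if fr I v then lab I v else c I v, fun I v => if fr I v then j else col I v,
      fun I hI J hJ v hv => ?_, fun I hI J hJ v hv => ?_, fun I hI v hv => ⟨?_, ?_, ?_⟩⟩
    · simp only [hfr I hI J hJ v (hv.mono (by omega)), hl I hI J hJ v (hv.mono (by omega)),
        a1 I hI J hJ v hv]
    · simp only [hfr I hI J hJ v (hv.mono (by omega)), a2 I hI J hJ v hv]
    · simp only
      split_ifs with e
      · omega
      · have := (a3 I hI v ⟨hv, e⟩).1
        omega
    · simp only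
      split_ifs with e
      · exact ((hlab I hI).1 v).mono (by omega)
      · exact (a3 I hI v ⟨hv, e⟩).2.1
    · intro w hw
      simp only
      split_ifs with e1 e2 e2
      · intro _ hn
        have p1 := e1 (ctr I w) (by
          simp only [Z, if_pos hv]
          exact mem_image_of_mem _ (mem_ball.2 hn))
        have p2 := e2 (ctr I w) (by
          simp only [Z, if_pos hw]
          exact mem_image_of_mem _ (mem_ball.2 (near_refl r w)))
        rw [← p1, p2]
      · intro e
        have := (a3 I hI w ⟨hw, e2⟩).1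
        omega
      · intro e
        have := (a3 I hI v ⟨hv, e1⟩).1
        omega
      · exact (a3 I hI v ⟨hv, e1⟩).2.2 w ⟨hw, e2⟩

lemma eq_of_isolated {V : Type} {G : SimpleGraph V} {r : ℕ} {v w : V} (h : ¬ ∃ y, G.Adj v y)
    (hn : Near G r v w) : v = w := by
  obtain ⟨p, -⟩ := near_iff_walk.1 hn
  cases p with
  | nil => rfl
  | cons a _ => exact absurd ⟨_, a⟩ h

theorem decomp (m : ℕ) : ∃ A : ℕ, ∀ (N : ℕ) (C : Set (Inst N)) (k n r : ℕ), N ≤ tower k →
    (∀ I ∈ C, I.S.card ≤ n ∧ ¬ CliqueMinor I.G (m + 1)) →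
    ∃ (c : Inst N → Fin N → Fin N) (col : Inst N → Fin N → ℕ),
      Loc C (A * (k + 1) * (r + 1) * (Nat.log 2 n + 1)) c ∧
      Loc C (A * (k + 1) * (r + 1) * (Nat.log 2 n + 1)) col ∧
      ∀ I ∈ C, (∀ v, col I v < 2 * Nat.log 2 n + 3) ∧ (∀ v, Near I.G (A * (r + 1)) v (c I v)) ∧
        ∀ v w, col I v = col I w → Near I.G r v w → c I v = c I w := by
  classical
  obtain ⟨A, hA⟩ := rounds m
  refine ⟨2 * A + 1, fun N C k n r hN hC => ?_⟩
  have hU : Loc C 1 fun I u => ∃ y, I.G.Adj u y := fun I _ J _ v hv =>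
    propext (exists_congr fun y => hv.adj_iff (near_refl 0 v) (by omega) y)
  obtain ⟨c, col, a1, a2, a3⟩ := hA N C k r hN (fun I hI => (hC I hI).2) (2 * Nat.log 2 n + 2) 1
    (fun _ v => v) (fun I u => ∃ y, I.G.Adj u y) (fun _ _ _ _ _ _ => rfl) hU (fun I hI =>
      ⟨fun v => near_refl _ v, by
        have hS : ∀ u, (∃ y, I.G.Adj u y) → u ∈ I.S := fun u ⟨y, hy⟩ => I.mem_of_adj u y hy
        have b1 : ∑ u with ∃ y, I.G.Adj u y, ((ball I.G r u).image fun v => v).card ≤
            (univ.filter fun u => ∃ y, I.G.Adj u y).card • n := by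
          refine sum_le_card_nsmul _ _ _ fun u hu => card_image_le.trans ?_
          refine (card_le_card fun x hx => ?_).trans (hC I hI).1
          exact I.mem_of_reachable (mem_ball.1 hx).reachable (hS u (mem_filter.1 hu).2)
        have b2 : (univ.filter fun u => ∃ y, I.G.Adj u y).card ≤ n :=
          (card_le_card fun x hx => hS x (mem_filter.1 hx).2).trans (hC I hI).1
        have b3 : n < 2 ^ (Nat.log 2 n + 1) := Nat.lt_pow_succ_log_self (by norm_num) n
        have b4 : 2 ^ (2 * Nat.log 2 n + 2) = 2 ^ (Nat.log 2 n + 1) * 2 ^ (Nat.log 2 n + 1) := by ring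
        rw [smul_eq_mul] at b1
        refine lt_of_le_of_lt (le_of_eq_of_le (by congr) b1) ?_
        rw [b4]
        exact lt_of_le_of_lt (Nat.mul_le_mul_right _ b2) (Nat.mul_lt_mul'' b3 b3)⟩)
  have hp : 1 ≤ (k + 1) * (r + 1) * (Nat.log 2 n + 1) := Nat.succ_le_of_lt (by positivity)
  have hT : 1 + (2 * Nat.log 2 n + 2) * (A * (k + 1) * (r + 1)) ≤
      (2 * A + 1) * (k + 1) * (r + 1) * (Nat.log 2 n + 1) := by nlinarith
  refine ⟨fun I v => if ∃ y, I.G.Adj v y then c I v else v,
    fun I v => if ∃ y, I.G.Adj v y then col I v else 2 * Nat.log 2 n + 2,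
    fun I hI J hJ v hv => ?_, fun I hI J hJ v hv => ?_, fun I hI => ⟨fun v => ?_, fun v => ?_,
      fun v w => ?_⟩⟩
  · have e := hU I hI J hJ v (hv.mono (by omega))
    simp only at e
    simp only [e, a1 I hI J hJ v (hv.mono hT)]
  · have e := hU I hI J hJ v (hv.mono (by omega))
    simp only at e
    simp only [e, a2 I hI J hJ v (hv.mono hT)]
  · simp only
    split_ifs with e
    · have := (a3 I hI v e).1
      omega
    · omega
  · simp only
    split_ifs with e
    · exact (a3 I hI v e).2.1.mono (Nat.mul_le_mul_right _ (by omega))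
    · exact near_refl _ v
  · simp only
    split_ifs with e1 e2 e2
    · exact (a3 I hI v e1).2.2 w e2
    · intro _ hn
      exact absurd (eq_of_isolated e2 hn.symm ▸ e1) e2
    · intro _ hn
      exact absurd (eq_of_isolated e1 hn ▸ e2 : ∃ y, I.G.Adj v y) e1
    · exact fun _ hn => eq_of_isolated e1 hn

end Pool.Agent.Lib.MP_559647_lc.M64
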