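import Pool.Agent.Lib.MP_559647_lc.M64Star
import Pool.Agent.Lib.MP_559647_lc.M64Mader

/-! One local step that merges clusters along heavy edges. -/

namespace Pool.Agent.Lib.MP_559647_lc.M64

open Finset SimpleGraph

namespace M64MergeAux

section Graph

variable {V : Type} [Fintype V] [DecidableEq V] {G : SimpleGraph V} {W : V → V → ℕ}
  {lab π : V → V} {mv : V → Bool} {ρ : ℕ}

lemma cw_pos (hW : Wt G W) {a b : V} (h : 0 < cw W lab a b) :
    a ≠ b ∧ ∃ x y, lab x = a ∧ lab y = b ∧ G.Adj x y := by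
  unfold cw at h
  split_ifs at h with hab
  · exact absurd h (lt_irrefl 0)
  obtain ⟨x, hx, h⟩ := exists_ne_zero_of_sum_ne_zero h.ne'
  obtain ⟨y, hy, h⟩ := exists_ne_zero_of_sum_ne_zero h
  exact ⟨hab, x, y, (mem_filter.1 hx).2, (mem_filter.1 hy).2, hW.adj x y h⟩

lemma cw_near (hW : Wt G W) (hp : Part G ρ lab) {a b : V} (h : 0 < cw W lab a b) :
    Near G (2 * ρ + 1) a b := by
  obtain ⟨-, x, y, rfl, rfl, hxy⟩ := cw_pos hW h
  exact ((hp.near x).symm.trans (near_of_adj hxy)).trans' (hp.near y) (by omega)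

lemma part_merge (hW : Wt G W) (hp : Part G ρ lab)
    (h : ∀ a, mv a = true → mv (π a) = false ∧ 0 < cw W lab a (π a)) :
    Part G (3 * ρ + 1) fun v => if mv (lab v) = true then π (lab v) else lab v := by
  have hl : ∀ a, mv a = true → lab (π a) = π a := fun a ha => by
    obtain ⟨-, x, y, -, e, -⟩ := cw_pos hW (h a ha).2
    rw [← e, hp.idem]
  refine ⟨fun v => ?_, fun v => ?_, fun v => ?_⟩
  · by_cases hv : mv (lab v) = true
    · simp only [if_pos hv, hl _ hv, (h _ hv).1, Bool.false_eq_true, if_false]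
    · simp only [if_neg hv, hp.idem]
  · by_cases hv : mv (lab v) = true
    · simp only [if_pos hv]
      exact (hp.near v).trans' (cw_near hW hp (h _ hv).2) (by omega)
    · simp only [if_neg hv]
      exact (hp.near v).mono (by omega)
  · have sub : ∀ u, (if mv (lab u) = true then π (lab u) else lab u) =
        (if mv (lab v) = true then π (lab v) else lab v) →
        (within G {x | (if mv (lab x) = true then π (lab x) else lab x) =
          if mv (lab v) = true then π (lab v) else lab v}).Reachable u (lab u) := fun u hu =>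
      (hp.conn u).mono (within_mono fun z (hz : lab z = lab u) => by
        rw [Set.mem_ofPred_eq, hz, hu])
    by_cases hv : mv (lab v) = true
    · obtain ⟨-, x, y, ex, ey, hxy⟩ := cw_pos hW (h _ hv).2
      have mx : (if mv (lab x) = true then π (lab x) else lab x) =
          if mv (lab v) = true then π (lab v) else lab v := by rw [ex]
      have my : (if mv (lab y) = true then π (lab y) else lab y) =
          if mv (lab v) = true then π (lab v) else lab v := by
        rw [ey, if_pos hv, (h _ hv).1, if_neg Bool.false_ne_true]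
      have r1 := sub v rfl
      have r2 := sub x mx
      have r3 := sub y my
      rw [ex] at r2
      rw [ey] at r3
      have r0 : (within G {x | (if mv (lab x) = true then π (lab x) else lab x) =
          if mv (lab v) = true then π (lab v) else lab v}).Adj x y := ⟨hxy, mx, my⟩
      have r4 := r1.trans (r2.symm.trans (r0.reachable.trans r3))
      convert r4 using 1
      exact if_pos hv
    · convert sub v rfl using 1
      exact if_neg hv

lemma cut_merge (hW : Wt G W)
    (h : ∀ a, mv a = true → mv (π a) = false ∧ 0 < cw W lab a (π a)) :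
    cut univ W (fun v => if mv (lab v) = true then π (lab v) else lab v) +
      ∑ a with mv a = true, cw W lab a (π a) ≤ cut univ W lab := by
  have e : ∑ a with mv a = true, cw W lab a (π a) =
      ∑ x, ∑ y, if mv (lab x) = true ∧ lab y = π (lab x) then W x y else 0 := by
    rw [← sum_fiberwise univ lab, sum_filter]
    refine sum_congr rfl fun a _ => ?_
    by_cases ha : mv a = true
    · rw [if_pos ha, cw, if_neg (cw_pos hW (h a ha).2).1]
      refine sum_congr rfl fun x hx => ?_
      rw [(mem_filter.1 hx).2, sum_filter]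
      simp only [ha, true_and]
    · rw [if_neg ha]
      refine (sum_eq_zero fun x hx => sum_eq_zero fun y _ => if_neg fun hc => ha ?_).symm
      rw [← (mem_filter.1 hx).2]
      exact hc.1
  rw [e, cut, cut, ← sum_add_distrib]
  refine sum_le_sum fun x _ => ?_
  rw [← sum_add_distrib]
  refine sum_le_sum fun y _ => ?_
  by_cases hc : mv (lab x) = true ∧ lab y = π (lab x)
  · have h1 : lab x ≠ lab y := hc.2 ▸ (cw_pos hW (h _ hc.1).2).1
    have h2 : (if mv (lab x) = true then π (lab x) else lab x) =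
        if mv (lab y) = true then π (lab y) else lab y := by
      rw [if_pos hc.1, hc.2, (h _ hc.1).1, if_neg Bool.false_ne_true]
    rw [if_pos h2, if_pos hc, if_neg h1, zero_add]
  · rw [if_neg hc, add_zero]
    by_cases h1 : lab x = lab y
    · rw [if_pos h1, if_pos (by rw [h1])]
    · rw [if_neg h1]
      split_ifs <;> simp

end Graph

lemma row_loc {N : ℕ} {C : Set (Inst N)} {t ρ : ℕ} {W : Inst N → Fin N → Fin N → ℕ}
    {lab : Inst N → Fin N → Fin N} (hW : Loc C t W) (hl : Loc C t lab)
    (h : ∀ I ∈ C, Wt I.G (W I) ∧ Part I.G ρ (lab I)) :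
    Loc C (t + ρ + 1) fun I a => cw (W I) (lab I) a := by
  intro I hI J hJ a ha
  funext b
  unfold cw
  refine if_congr Iff.rfl rfl (sum_congr ?_ fun x hx => ?_)
  · ext x
    simp only [mem_filter, mem_univ, true_and]
    exact Loc.fib hl (fun K hK => (h K hK).2.near) hI hJ ha (by omega) x
  · have hx' : lab I x = a :=
      (Loc.fib hl (fun K hK => (h K hK).2.near) hI hJ ha (by omega) x).2 (mem_filter.1 hx).2
    have hn : Near I.G ρ a x := hx' ▸ ((h I hI).2.near x).symm
    rw [← hW.at hI hJ ha hn (by omega), sum_filter, sum_filter]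
    refine sum_congr rfl fun y _ => ?_
    by_cases h0 : W I x y = 0
    · simp [h0]
    · rw [hl.at hI hJ ha (hn.trans (near_of_adj ((h I hI).1.adj x y h0))) (by omega)]

end M64MergeAux

theorem merge : ∃ q : ℕ, ∀ (m N : ℕ) (C : Set (Inst N)) (k t ρ : ℕ)
    (W : Inst N → Fin N → Fin N → ℕ) (lab : Inst N → Fin N → Fin N), N ≤ tower k →
    (∀ I ∈ C, ¬ CliqueMinor I.G m) → Loc C t W → Loc C t lab →
    (∀ I ∈ C, Wt I.G (W I) ∧ Part I.G ρ (lab I)) →
    ∃ lab' : Inst N → Fin N → Fin N, Loc C (t + q * (k + 1) * (ρ + 1)) lab' ∧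
      ∀ I ∈ C, Part I.G (3 * ρ + 1) (lab' I) ∧
        4 * 2 ^ m * cut univ (W I) (lab' I) + cut univ (W I) (lab I) ≤
          4 * 2 ^ m * cut univ (W I) (lab I) := by
  obtain ⟨q, hq⟩ := star
  refine ⟨2 * q + 4, fun m N C k t ρ W lab hN hC hW hl h => ?_⟩
  rcases isEmpty_or_nonempty (Fin N) with hE | hE
  · exact ⟨lab, fun _ _ _ _ v => isEmptyElim v, fun I hI =>
      ⟨(h I hI).2.mono (by omega), by simp [cut]⟩⟩
  have hrow := M64MergeAux.row_loc hW hl h
  have hω : Loc C (t + ρ + 1) fun I a => univ.sup (cw (W I) (lab I) a) :=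
    fun I hI J hJ a ha => congrArg _ (hrow I hI J hJ a ha)
  have hP : Loc C (t + ρ + 1) fun I a b => (univ.sup (cw (W I) (lab I) a) = 0 ∧ b = a) ∨
      (0 < cw (W I) (lab I) a b ∧ cw (W I) (lab I) a b = univ.sup (cw (W I) (lab I) a)) := by
    intro I hI J hJ a ha
    have e : cw (W I) (lab I) a = cw (W J) (lab J) a := hrow I hI J hJ a ha
    simp only [e]
  obtain ⟨π, hπ, hπ'⟩ := Loc.choose hP
  have hs : ∀ I a, (univ.sup (cw (W I) (lab I) a) = 0 ∧ π I a = a) ∨
      (0 < cw (W I) (lab I) a (π I a) ∧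
        cw (W I) (lab I) a (π I a) = univ.sup (cw (W I) (lab I) a)) := fun I a => by
    refine hπ' I a ?_
    by_cases h0 : univ.sup (cw (W I) (lab I) a) = 0
    · exact ⟨a, Or.inl ⟨h0, rfl⟩⟩
    · obtain ⟨b, -, hb⟩ := exists_mem_eq_sup univ univ_nonempty (cw (W I) (lab I) a)
      exact ⟨b, Or.inr ⟨hb ▸ Nat.pos_of_ne_zero h0, hb.symm⟩⟩
  obtain ⟨mv, hmv, hmv'⟩ := hq N C k (t + ρ + 1) (2 * ρ + 1) π _ hN hπ hω
    (fun I hI a => by
      rcases hs I a with h1 | h1
      · rw [h1.2]
        exact near_refl _ _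
      · exact M64MergeAux.cw_near (h I hI).1 (h I hI).2 h1.1)
    (fun I hI a ha => by
      rcases hs I a with h1 | h1
      · exact absurd h1.1 ha
      · exact (M64MergeAux.cw_pos (h I hI).1 h1.1).1.symm)
  have hg : Loc C (t + ρ + 1 + (k + q) * (2 * ρ + 1))
      fun I a => if mv I a = true then π I a else a := fun I hI J hJ a ha => by
    simp only [hmv I hI J hJ a ha, hπ I hI J hJ a (ha.mono (Nat.le_add_right _ _))]
  refine ⟨fun I v => if mv I (lab I v) = true then π I (lab I v) else lab I v,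
    Loc.comp hg hl (fun I hI => (h I hI).2.near) ?_ (Nat.le_add_right _ _), fun I hI => ?_⟩
  · have : (2 * q + 4) * (k + 1) * (ρ + 1) =
        2 * ρ + 1 + (k + q) * (2 * ρ + 1) + (2 * q * k * ρ + 2 * q * k + 2 * k * ρ + 3 * k + q +
          2 * ρ + 3) := by ring
    omega
  have h2 : ∀ a, mv I a = true → 0 < cw (W I) (lab I) a (π I a) ∧
      cw (W I) (lab I) a (π I a) = univ.sup (cw (W I) (lab I) a) := fun a ha =>
    (hs I a).resolve_left fun hc => ((hmv' I hI).1 a ha).1 hc.2
  have h3 : ∀ a, mv I a = true → mv I (π I a) = false ∧ 0 < cw (W I) (lab I) a (π I a) :=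
    fun a ha => ⟨((hmv' I hI).1 a ha).2, (h2 a ha).1⟩
  refine ⟨M64MergeAux.part_merge (h I hI).1 (h I hI).2 h3, ?_⟩
  have h4 := M64MergeAux.cut_merge (h I hI).1 h3
  rw [sum_congr rfl fun a ha => (h2 a (mem_filter.1 ha).2).2] at h4
  have h5 := (cut_le_max (hC I hI) (h I hI).2 (h I hI).1).trans
    (Nat.mul_le_mul_left _ (hmv' I hI).2)
  refine le_trans ?_ (Nat.mul_le_mul_left _ h4)
  rw [mul_add, mul_comm 4, mul_assoc _ 4 (∑ a with mv I a = true, _)]
  exact Nat.add_le_add_left h5 _

end Pool.Agent.Lib.MP_559647_lc.M64
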