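import Pool.Agent.Lib.MP_559647_lc.M64Eps

/-! Local partitions that separate few of a given family of pairs of nearby nodes. -/

namespace Pool.Agent.Lib.MP_559647_lc.M64

open Finset SimpleGraph

namespace PairAux

variable {V : Type} {G : SimpleGraph V} {D : ℕ}

/-- a lazy path with `D` steps from `u` to `z` -/
def LP (G : SimpleGraph V) (D : ℕ) (u z : V) (l : ℕ → V) : Prop :=
  l 0 = u ∧ l D = z ∧ ∀ i < D, l i = l (i + 1) ∨ G.Adj (l i) (l (i + 1))

lemma lp_exists {u z : V} (h : Near G D u z) : ∃ l, LP G D u z l := by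
  obtain ⟨p, hp⟩ := near_iff_walk.1 h
  refine ⟨p.getVert, p.getVert_zero, p.getVert_of_length_le hp, fun i _ => ?_⟩
  rcases lt_or_ge i p.length with hi | hi
  · exact Or.inr (p.adj_getVert_succ hi)
  · exact Or.inl (by rw [p.getVert_of_length_le hi, p.getVert_of_length_le (by omega)])

lemma LP.near {u z : V} {l : ℕ → V} (h : LP G D u z l) : ∀ i ≤ D, Near G i u (l i) := by
  intro i
  induction i with
  | zero => intro _; rw [h.1]; exact near_refl 0 u
  | succ i ih =>
    intro hi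
    rcases h.2.2 i (by omega) with e | e
    · rw [← e]; exact (ih (by omega)).mono (by omega)
    · exact (ih (by omega)).trans (near_of_adj e)

lemma LP.view {N : ℕ} {I J : Inst N} {u z : Fin N} {l : ℕ → Fin N} {s : ℕ}
    (h : LP I.G D u z l) (hv : SameView s u I J) (hs : D ≤ s) : LP J.G D u z l :=
  ⟨h.1, h.2.1, fun i hi => (h.2.2 i hi).imp id
    fun e => (hv.adj_iff (h.near i hi.le) (by omega) _).1 e⟩

lemma exists_step {α : Type} (f : ℕ → α) : ∀ n, f n ≠ f 0 → ∃ i < n, f i ≠ f (i + 1) := by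
  intro n
  induction n with
  | zero => intro h; exact absurd rfl h
  | succ n ih =>
    intro h
    by_cases e : f n = f (n + 1)
    · obtain ⟨i, hi, h'⟩ := ih (by rwa [e])
      exact ⟨i, by omega, h'⟩
    · exact ⟨n, by omega, e⟩

variable [DecidableEq V]

/-- the number of steps from `x` to `y` of the paths that start at one node -/
def stp (D : ℕ) (Z : Finset V) (l : V → ℕ → V) (x y : V) : ℕ :=
  ∑ z ∈ Z, ∑ i ∈ range D, if l z i = x ∧ l z (i + 1) = y ∧ x ≠ y then 1 else 0

lemma stp_ne {Z : Finset V} {l : V → ℕ → V} {u x y : V} (hl : ∀ z ∈ Z, LP G D u z (l z))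
    (h : stp D Z l x y ≠ 0) : G.Adj x y ∧ Near G D x u ∧ Near G D y u := by
  obtain ⟨z, hz, h⟩ := exists_ne_zero_of_sum_ne_zero h
  obtain ⟨i, hi, h⟩ := exists_ne_zero_of_sum_ne_zero h
  have hi := mem_range.1 hi
  split_ifs at h with e
  · obtain ⟨rfl, rfl, e⟩ := e
    exact ⟨((hl z hz).2.2 i hi).resolve_left e, (((hl z hz).near i hi.le).mono hi.le).symm,
      (((hl z hz).near (i + 1) hi).mono hi).symm⟩
  · exact absurd rfl h

variable [Fintype V]

lemma sum_stp (Z : Finset V) (l : V → ℕ → V) (c : V → V → ℕ) :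
    ∑ x, ∑ y, c x y * stp D Z l x y =
      ∑ z ∈ Z, ∑ i ∈ range D, if l z i ≠ l z (i + 1) then c (l z i) (l z (i + 1)) else 0 := by
  simp only [stp, mul_sum]
  rw [sum_congr rfl fun x _ => sum_comm, sum_comm]
  refine sum_congr rfl fun z _ => ?_
  rw [sum_congr rfl fun x _ => sum_comm, sum_comm]
  refine sum_congr rfl fun i _ => ?_
  rw [sum_eq_single (l z i), sum_eq_single (l z (i + 1))]
  · simp
  · intro b _ hb
    simp [hb.symm]
  · simp
  · intro b _ hb
    simp [hb.symm]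
  · simp

lemma tot_stp (Z : Finset V) (l : V → ℕ → V) : ∑ x, ∑ y, stp D Z l x y ≤ D * Z.card := by
  have h := sum_stp (D := D) Z l fun _ _ => 1
  simp only [one_mul] at h
  rw [h, mul_comm, ← smul_eq_mul, ← sum_const]
  refine sum_le_sum fun z _ => ?_
  refine (sum_le_card_nsmul _ _ 1 fun i _ => ?_).trans (by simp)
  split_ifs <;> simp

lemma cut_stp {Z : Finset V} {l : V → ℕ → V} {u : V} (hl : ∀ z ∈ Z, LP G D u z (l z))
    (lab : V → V) : (Z.filter fun z => lab z ≠ lab u).card ≤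
      ∑ x, ∑ y, (if lab x = lab y then 0 else 1) * stp D Z l x y := by
  rw [sum_stp, card_filter]
  refine sum_le_sum fun z hz => ?_
  split_ifs with e
  · obtain ⟨i, hi, h⟩ := exists_step (fun i => lab (l z i)) D
      (by simpa only [(hl z hz).1, (hl z hz).2.1] using e)
    refine le_trans ?_ (single_le_sum (fun _ _ => Nat.zero_le _) (mem_range.2 hi))
    have h' : l z i ≠ l z (i + 1) := fun e' => h (by simp only [e'])
    rw [if_pos h', if_neg h]
  · exact Nat.zero_le _

end PairAux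

open PairAux

theorem pair_cut (m g : ℕ) : ∃ A : ℕ, ∀ (N : ℕ) (C : Set (Inst N)) (k t D : ℕ)
    (Z : Inst N → Fin N → Finset (Fin N)), N ≤ tower k → (∀ I ∈ C, ¬ CliqueMinor I.G (m + 1)) →
    Loc C t Z → (∀ I ∈ C, ∀ u, ∀ z ∈ Z I u, Near I.G D u z) →
    ∃ lab : Inst N → Fin N → Fin N, Loc C (t + A * (k + 1) * (D + 1)) lab ∧
      ∀ I ∈ C, (∀ v, Near I.G (A * (D + 1)) v (lab I v)) ∧
        g * ∑ u, ((Z I u).filter fun z => lab I z ≠ lab I u).card ≤ ∑ u, (Z I u).card := by
  obtain ⟨A, hA⟩ := eps_cut m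
  refine ⟨A * (4 * g + 2) + 2, fun N C k t D Z hN hC hZ hD => ?_⟩
  have : Nonempty (Fin N → ℕ → Fin N) := ⟨fun z _ => z⟩
  have hP : Loc C (t + D) fun I u (l : Fin N → ℕ → Fin N) => ∀ z ∈ Z I u, LP I.G D u z (l z) := by
    intro I hI J hJ v hv
    funext l
    show (∀ z ∈ Z I v, LP I.G D v z (l z)) = ∀ z ∈ Z J v, LP J.G D v z (l z)
    rw [hZ I hI J hJ v (hv.mono (by omega))]
    exact propext ⟨fun h z hz => (h z hz).view hv (by omega),
      fun h z hz => (h z hz).view hv.symm (by omega)⟩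
  obtain ⟨l, hl, hl'⟩ := Loc.choose hP
  have lp : ∀ I ∈ C, ∀ u, ∀ z ∈ Z I u, LP I.G D u z (l I u z) := fun I hI u => hl' I u (by
    have : ∀ z, ∃ p : ℕ → Fin N, z ∈ Z I u → LP I.G D u z p := fun z => by
      by_cases hz : z ∈ Z I u
      · obtain ⟨p, hp⟩ := lp_exists (hD I hI u z hz)
        exact ⟨p, fun _ => hp⟩
      · exact ⟨fun _ => z, fun h => absurd h hz⟩
    choose p hp using this
    exact ⟨p, hp⟩)
  let W : Inst N → Fin N → Fin N → ℕ := fun I x y =>
    ∑ u, (stp D (Z I u) (l I u) x y + stp D (Z I u) (l I u) y x)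
  have far : ∀ I ∈ C, ∀ u x y, ¬ Near I.G D x u →
      stp D (Z I u) (l I u) x y + stp D (Z I u) (l I u) y x = 0 := fun I hI u x y h => by
    have h1 : stp D (Z I u) (l I u) x y = 0 := by
      by_contra e
      exact h (stp_ne (lp I hI u) e).2.1
    have h2 : stp D (Z I u) (l I u) y x = 0 := by
      by_contra e
      exact h (stp_ne (lp I hI u) e).2.2
    rw [h1, h2]
  have hW : Loc C (t + 2 * D) W := by
    intro I hI J hJ x hv
    funext y
    refine sum_congr rfl fun u _ => ?_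
    by_cases h : Near I.G D x u
    · rw [hZ.at hI hJ hv h (by omega), hl.at hI hJ hv h (by omega)]
    · rw [far I hI u x y h, far J hJ u x y fun h' => h ((hv.near_iff (by omega) u).2 h')]
  have hWt : ∀ I ∈ C, Wt I.G (W I) := fun I hI =>
    ⟨fun x y => sum_congr rfl fun u _ => add_comm _ _, fun x y h => by
      obtain ⟨u, -, h⟩ := exists_ne_zero_of_sum_ne_zero h
      by_cases e : stp D (Z I u) (l I u) x y = 0
      · exact (stp_ne (lp I hI u) (by omega)).1.symm
      · exact (stp_ne (lp I hI u) e).1⟩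
  obtain ⟨j, j1, j2⟩ : ∃ j, 2 * g * D ≤ 2 ^ j ∧ 2 ^ j ≤ (4 * g + 2) * (D + 1) := by
    refine ⟨Nat.log 2 (2 * g * D) + 1, (Nat.lt_pow_succ_log_self (by norm_num) _).le, ?_⟩
    rcases Nat.eq_zero_or_pos (2 * g * D) with e | e
    · rw [e]
      simp only [Nat.log_zero_right, zero_add, pow_one]
      nlinarith [Nat.zero_le g, Nat.zero_le D, Nat.zero_le (g * D)]
    · have := Nat.pow_log_le_self 2 e.ne'
      rw [pow_succ]
      nlinarith [Nat.zero_le g, Nat.zero_le D]
  obtain ⟨lab, h1, h2⟩ := hA N C k (t + 2 * D) j W hN hC hW hWt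
  have k1 : A * 2 ^ j ≤ A * (4 * g + 2) * (D + 1) := by
    rw [mul_assoc]
    exact Nat.mul_le_mul_left _ j2
  refine ⟨lab, h1.mono ?_, fun I hI => ⟨fun v => ((h2 I hI).1.near v).mono ?_, ?_⟩⟩
  · have e1 : A * (k + 1) * 2 ^ j ≤ (k + 1) * (A * (4 * g + 2) * (D + 1)) := by
      rw [mul_comm A, mul_assoc]
      exact Nat.mul_le_mul_left _ k1
    have e2 : (A * (4 * g + 2) + 2) * (k + 1) * (D + 1) =
        (k + 1) * (A * (4 * g + 2) * (D + 1)) + 2 * (k * (D + 1)) + 2 * D + 2 := by ring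
    omega
  · rw [add_mul]
    omega
  · have t1 : tot univ (W I) ≤ 2 * D * ∑ u, (Z I u).card := by
      have a1 : ∑ x, ∑ y, ∑ u, stp D (Z I u) (l I u) x y ≤ D * ∑ u, (Z I u).card := by
        rw [sum_congr rfl fun x _ => sum_comm, sum_comm, mul_sum]
        exact sum_le_sum fun u _ => tot_stp _ _
      have a2 : ∑ x, ∑ y, ∑ u, stp D (Z I u) (l I u) y x ≤ D * ∑ u, (Z I u).card := by
        rw [sum_comm]
        exact a1
      simp only [tot, W, sum_add_distrib]
      linarith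
    have t2 : ∑ u, ((Z I u).filter fun z => lab I z ≠ lab I u).card ≤ cut univ (W I) (lab I) := by
      refine (sum_le_sum fun u _ => cut_stp (lp I hI u) (lab I)).trans ?_
      rw [sum_comm]
      refine sum_le_sum fun x _ => ?_
      rw [sum_comm]
      refine sum_le_sum fun y _ => ?_
      split_ifs
      · simp
      · exact sum_le_sum fun u _ => by omega
    have t3 := (h2 I hI).2
    refine Nat.le_of_mul_le_mul_left ?_ (Nat.two_pow_pos j)
    calc 2 ^ j * (g * ∑ u, ((Z I u).filter fun z => lab I z ≠ lab I u).card)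
        ≤ 2 ^ j * (g * cut univ (W I) (lab I)) :=
          Nat.mul_le_mul_left _ (Nat.mul_le_mul_left _ t2)
      _ = g * (2 ^ j * cut univ (W I) (lab I)) := by ring
      _ ≤ g * (2 * D * ∑ u, (Z I u).card) := Nat.mul_le_mul_left _ (t3.trans t1)
      _ = 2 * g * D * ∑ u, (Z I u).card := by ring
      _ ≤ 2 ^ j * ∑ u, (Z I u).card := Nat.mul_le_mul_right _ j1

end Pool.Agent.Lib.MP_559647_lc.M64
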