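import Pool.Agent.Lib.MP_559647_lc.M64Basic
import Pool.Agent.Lib.MP_559647_lc.G56Col

/-! Stars that carry a quarter of the weight of a functional graph. -/

namespace Pool.Agent.Lib.MP_559647_lc.M64

open Finset SimpleGraph

namespace StarAux

section Colours

variable {N : ℕ} {C : Set (Inst N)} {t s : ℕ} {π : Inst N → Fin N → Fin N}

lemma col_step (hπ : Loc C t π) (hn : ∀ I ∈ C, ∀ a, Near I.G s a (π I a)) {u M : ℕ} (hu : t ≤ u)
    {col : Inst N → Fin N → ℕ} (h1 : Loc C u col) (h2 : ∀ I ∈ C, ∀ a, col I a < M)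
    (h3 : ∀ I ∈ C, ∀ a, π I a ≠ a → col I a ≠ col I (π I a)) :
    ∃ col' : Inst N → Fin N → ℕ, Loc C (u + s) col' ∧ (∀ I ∈ C, ∀ a, col' I a < cf M 1) ∧
      ∀ I ∈ C, ∀ a, π I a ≠ a → col' I a ≠ col' I (π I a) := by
  obtain ⟨F, hF1, hF2⟩ := coverfree M 1
  refine ⟨fun I a => F (col I a) (if π I a = a then ∅ else {col I (π I a)}), ?_,
    fun I _ a => hF1 _ _, ?_⟩
  · intro I hI J hJ v hv
    have e1 : col I v = col J v := h1 I hI J hJ v (hv.mono (by omega))
    have e2 : π I v = π J v := hπ I hI J hJ v (hv.mono (by omega))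
    have e3 : col I (π I v) = col J (π J v) :=
      Loc.comp (u := u + s) h1 hπ hn (by omega) (by omega) I hI J hJ v hv
    show F (col I v) (if π I v = v then ∅ else {col I (π I v)}) =
      F (col J v) (if π J v = v then ∅ else {col J (π J v)})
    rw [e3, e1, e2]
  · intro I hI a ha
    show F (col I a) (if π I a = a then ∅ else {col I (π I a)}) ≠ _
    rw [if_neg ha]
    refine hF2 _ (h2 I hI a) _ (by simp) (by simpa using h3 I hI a ha) (fun b hb => ?_) _
      (mem_singleton_self _) _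
    rw [mem_singleton.1 hb]
    exact h2 I hI _

lemma col_iter (hπ : Loc C t π) (hn : ∀ I ∈ C, ∀ a, Near I.G s a (π I a)) (j : ℕ) :
    ∀ (u : ℕ) (col : Inst N → Fin N → ℕ), t ≤ u → Loc C u col →
      (∀ I ∈ C, ∀ a, col I a < 2 ^ (4 * 0 + 16 + 2 * tower j)) →
      (∀ I ∈ C, ∀ a, π I a ≠ a → col I a ≠ col I (π I a)) →
      ∃ col' : Inst N → Fin N → ℕ, Loc C (u + j * s) col' ∧
        (∀ I ∈ C, ∀ a, col' I a < 2 ^ (4 * 0 + 18)) ∧
        ∀ I ∈ C, ∀ a, π I a ≠ a → col' I a ≠ col' I (π I a) := by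
  induction j with
  | zero =>
    intro u col _ h1 h2 h3
    exact ⟨col, h1.mono (by omega), h2, h3⟩
  | succ j ih =>
    intro u col hu h1 h2 h3
    obtain ⟨c1, a1, a2, a3⟩ := col_step hπ hn hu h1 h2 h3
    obtain ⟨c2, b1, b2, b3⟩ := ih (u + s) c1 (by omega) a1
      (fun I hI x => lt_of_lt_of_le (a2 I hI x) (cf_pow_le 0 (tower j))) a3
    exact ⟨c2, b1.mono (by rw [Nat.succ_mul]; omega), b2, b3⟩

lemma exists_col : ∃ Q : ℕ, ∀ (N : ℕ) (C : Set (Inst N)) (k t s : ℕ)
    (π : Inst N → Fin N → Fin N), N ≤ tower k → Loc C t π →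
    (∀ I ∈ C, ∀ a, Near I.G s a (π I a)) →
    ∃ col : Inst N → Fin N → ℕ, Loc C (t + k * s) col ∧ (∀ I ∈ C, ∀ a, col I a < Q) ∧
      ∀ I ∈ C, ∀ a, π I a ≠ a → col I a ≠ col I (π I a) := by
  refine ⟨2 ^ (4 * 0 + 18), fun N C k t s π hN hπ hn => ?_⟩
  refine col_iter hπ hn k t (fun _ x => x.val) le_rfl (fun _ _ _ _ _ _ => rfl) (fun _ _ x => ?_)
    (fun _ _ x hx h => hx (Fin.ext h.symm))
  have h1 : tower k < 2 ^ tower k := Nat.lt_two_pow_self
  have h2 : 2 ^ tower k ≤ 2 ^ (4 * 0 + 16 + 2 * tower k) :=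
    Nat.pow_le_pow_right (by norm_num) (by omega)
  have := x.isLt
  omega

end Colours

section Roles

variable {V : Type} [Fintype V] [DecidableEq V]

/-- the colour classes fix their roles one after the other: 1 undecided, 2 leaf, 0 centre -/
def role (π : V → V) (ω χ : V → ℕ) : ℕ → V → ℕ
  | 0, _ => 1
  | i + 1, a =>
    if χ a = i then
      (if ∑ c with π c = a, ω c * role π ω χ i c ≤ ω a * (2 - role π ω χ i (π a)) then 2 else 0)
    else role π ω χ i a

/-- the potential -/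
def pot (π : V → V) (ω r : V → ℕ) : ℕ := ∑ a, ω a * r a * (2 - r (π a))

variable {π : V → V} {ω χ : V → ℕ}

lemma role_one (i : ℕ) (a : V) (h : i ≤ χ a) : role π ω χ i a = 1 := by
  induction i with
  | zero => rfl
  | succ i ih =>
    rw [role, if_neg (by omega)]
    exact ih (by omega)

lemma role_end (i : ℕ) (a : V) (h : χ a < i) : role π ω χ i a = 0 ∨ role π ω χ i a = 2 := by
  induction i with
  | zero => omega
  | succ i ih =>
    rw [role]
    split_ifs with h1 h2
    · exact Or.inr rfl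
    · exact Or.inl rfl
    · exact ih (by omega)

lemma pot_split (hχ : ∀ a, ω a ≠ 0 → χ a ≠ χ (π a)) (i : ℕ) (r r' : V → ℕ)
    (hr : ∀ a, χ a ≠ i → r' a = r a) :
    pot π ω r' = (∑ a, if χ a ≠ i ∧ χ (π a) ≠ i then ω a * r a * (2 - r (π a)) else 0) +
      ∑ z, if χ z = i then
        r' z * (ω z * (2 - r (π z))) + (2 - r' z) * ∑ c with π c = z, ω c * r c else 0 := by
  have h2 : (∑ z, if χ z = i then (2 - r' z) * ∑ c with π c = z, ω c * r c else 0) =
      ∑ a, if χ (π a) = i then (2 - r' (π a)) * (ω a * r a) else 0 := by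
    rw [← sum_fiberwise univ π fun a => if χ (π a) = i then (2 - r' (π a)) * (ω a * r a) else 0]
    refine sum_congr rfl fun z _ => ?_
    split_ifs with hz
    · rw [mul_sum]
      refine sum_congr rfl fun c hc => ?_
      rw [(mem_filter.1 hc).2, if_pos hz]
    · refine (sum_eq_zero fun c hc => ?_).symm
      rw [(mem_filter.1 hc).2, if_neg hz]
  have h1 : (∑ z, if χ z = i then
        r' z * (ω z * (2 - r (π z))) + (2 - r' z) * ∑ c with π c = z, ω c * r c else 0) =
      (∑ z, if χ z = i then r' z * (ω z * (2 - r (π z))) else 0) +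
        ∑ z, if χ z = i then (2 - r' z) * ∑ c with π c = z, ω c * r c else 0 := by
    rw [← sum_add_distrib]
    refine sum_congr rfl fun z _ => ?_
    split_ifs <;> simp
  rw [h1, h2, ← sum_add_distrib, ← sum_add_distrib, pot]
  refine sum_congr rfl fun a _ => ?_
  by_cases h0 : ω a = 0
  · simp [h0]
  have hne := hχ a h0
  by_cases ha : χ a = i
  · have hb : χ (π a) ≠ i := fun h => hne (ha.trans h.symm)
    rw [if_neg (fun h => h.1 ha), if_pos ha, if_neg hb, hr _ hb]
    ring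
  · by_cases hb : χ (π a) = i
    · rw [if_neg (fun h => h.2 hb), if_neg ha, if_pos hb, hr _ ha]
      ring
    · rw [if_pos ⟨ha, hb⟩, if_neg ha, if_neg hb, hr _ ha, hr _ hb]
      ring

lemma pot_step (hχ : ∀ a, ω a ≠ 0 → χ a ≠ χ (π a)) (i : ℕ) :
    pot π ω (role π ω χ i) ≤ pot π ω (role π ω χ (i + 1)) := by
  rw [pot_split hχ i (role π ω χ i) (role π ω χ i) fun _ _ => rfl,
    pot_split hχ i (role π ω χ i) (role π ω χ (i + 1)) fun a ha => by rw [role, if_neg ha]]
  refine Nat.add_le_add_left (sum_le_sum fun z _ => ?_) _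
  split_ifs with hz
  · rw [role_one i z hz.ge, role, if_pos hz]
    split_ifs with h
    · omega
    · omega
  · exact le_rfl

lemma pot_ge (hχ : ∀ a, ω a ≠ 0 → χ a ≠ χ (π a)) (i : ℕ) :
    ∑ a, ω a ≤ pot π ω (role π ω χ i) := by
  induction i with
  | zero => simp [pot, role]
  | succ i ih => exact ih.trans (pot_step hχ i)

omit [DecidableEq V] in
lemma pot_end {r : V → ℕ} (hr : ∀ a, r a = 0 ∨ r a = 2) :
    pot π ω r = 4 * ∑ a with decide (r a = 2 ∧ r (π a) = 0) = true, ω a := by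
  rw [pot, sum_filter, mul_sum]
  refine sum_congr rfl fun a _ => ?_
  rcases hr a with h1 | h1 <;> rcases hr (π a) with h2 | h2 <;> simp [h1, h2]
  ring

end Roles

lemma role_loc {N : ℕ} {C : Set (Inst N)} {t s u : ℕ} {π : Inst N → Fin N → Fin N}
    {ω χ : Inst N → Fin N → ℕ} (hπ : Loc C t π) (hω : Loc C t ω) (hχ : Loc C u χ) (hu : t ≤ u)
    (hn : ∀ I ∈ C, ∀ a, Near I.G s a (π I a)) (i : ℕ) :
    Loc C (u + i * s) fun I a => role (π I) (ω I) (χ I) i a := by
  induction i with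
  | zero => exact fun _ _ _ _ _ _ => rfl
  | succ i ih =>
    intro I hI J hJ v hv
    have hle : s + (u + i * s) ≤ u + (i + 1) * s := by rw [Nat.succ_mul]; omega
    have e1 : χ I v = χ J v := hχ I hI J hJ v (hv.mono (by omega))
    have e2 : ω I v = ω J v := hω I hI J hJ v (hv.mono (by omega))
    have e3 : role (π I) (ω I) (χ I) i v = role (π J) (ω J) (χ J) i v :=
      ih I hI J hJ v (hv.mono (by omega))
    have e4 : role (π I) (ω I) (χ I) i (π I v) = role (π J) (ω J) (χ J) i (π J v) :=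
      Loc.comp ih hπ hn hle (by omega) I hI J hJ v hv
    have e5 : ∑ c with π I c = v, ω I c * role (π I) (ω I) (χ I) i c =
        ∑ c with π J c = v, ω J c * role (π J) (ω J) (χ J) i c := by
      refine sum_congr (filter_congr fun c _ => Loc.fib hπ hn hI hJ hv (by omega) c)
        fun c hc => ?_
      have hc' : π I c = v := (Loc.fib hπ hn hI hJ hv (by omega) c).2 (mem_filter.1 hc).2
      have hnear : Near I.G s v c := by
        have := hn I hI c
        rw [hc'] at this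
        exact this.symm
      rw [hω.at hI hJ hv hnear (by omega), ih.at hI hJ hv hnear hle]
    show role (π I) (ω I) (χ I) (i + 1) v = role (π J) (ω J) (χ J) (i + 1) v
    rw [role, role, e1, e2, e3, e4, e5]

end StarAux

theorem star : ∃ q : ℕ, ∀ (N : ℕ) (C : Set (Inst N)) (k t s : ℕ) (π : Inst N → Fin N → Fin N)
    (ω : Inst N → Fin N → ℕ), N ≤ tower k → Loc C t π → Loc C t ω →
    (∀ I ∈ C, ∀ a, Near I.G s a (π I a)) → (∀ I ∈ C, ∀ a, ω I a ≠ 0 → π I a ≠ a) →
    ∃ mv : Inst N → Fin N → Bool, Loc C (t + (k + q) * s) mv ∧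
      ∀ I ∈ C, (∀ a, mv I a = true → π I a ≠ a ∧ mv I (π I a) = false) ∧
        ∑ a, ω I a ≤ 4 * ∑ a with mv I a = true, ω I a := by
  obtain ⟨Q, hQ⟩ := StarAux.exists_col
  refine ⟨Q + 1, fun N C k t s π ω hN hπ hω hn h0 => ?_⟩
  obtain ⟨χ, h1, h2, h3⟩ := hQ N C k t s π hN hπ hn
  have hl := StarAux.role_loc hπ hω h1 (by omega) hn Q
  have hle : s + (t + k * s + Q * s) ≤ t + (k + (Q + 1)) * s := le_of_eq (by ring)
  refine ⟨fun I a => decide (StarAux.role (π I) (ω I) (χ I) Q a = 2 ∧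
    StarAux.role (π I) (ω I) (χ I) Q (π I a) = 0), ?_, fun I hI => ⟨fun a ha => ?_, ?_⟩⟩
  · intro I hI J hJ v hv
    have e1 : StarAux.role (π I) (ω I) (χ I) Q v = StarAux.role (π J) (ω J) (χ J) Q v :=
      hl I hI J hJ v (hv.mono (by omega))
    have e2 : StarAux.role (π I) (ω I) (χ I) Q (π I v) =
        StarAux.role (π J) (ω J) (χ J) Q (π J v) :=
      Loc.comp hl hπ hn hle (by omega) I hI J hJ v hv
    simp only [e1, e2]
  · have ha' := of_decide_eq_true ha
    refine ⟨fun h => ?_, decide_eq_false fun h => ?_⟩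
    · rw [h] at ha'
      omega
    · omega
  · rw [← StarAux.pot_end fun a => StarAux.role_end Q a (h2 I hI a)]
    exact StarAux.pot_ge (fun a ha => h3 I hI a (h0 I hI a ha)) Q

end Pool.Agent.Lib.MP_559647_lc.M64
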