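import Pool.Agent.Lib.MP_559647_lc.T20Cfg

/-! Bounded independence of the ends chosen at the highest level in reach. -/

namespace Pool.Agent.Lib.MP_559647_lc.P65

open Finset SimpleGraph M64 T20

variable {V : Type} {G : SimpleGraph V}

theorem bi2 {ι : Type} {k u lam : ℕ} (hk : 0 < k) (F : Finset ι) (x0 : V)
    (e : ι → V) (T : ι → V → Prop) (hw : ∀ i ∈ F, Wk G (lam * (u + 1)) x0 (e i) (T i))
    (hs : ∀ i ∈ F, ∀ j ∈ F, i ≠ j → ¬ Near G (17 * u) (e i) (e j))
    (hP : (2 * (lam + 1) * k) ^ lam < F.card) :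
    ∃ (z : V) (φ : Fin k → ι) (δ : Fin k → ℕ → V), Function.Injective φ ∧
      (∀ n, φ n ∈ F ∧ (∃ p, T (φ n) p ∧ Near G (2 * u) z p) ∧ Lazy G (δ n) ∧
        (∀ c, lam * (u + 1) ≤ c → δ n c = e (φ n)) ∧ Near G (3 * u + 1) z (δ n 0)) ∧
      ∀ n n', n ≠ n' → ∀ a b, ¬ Near G u (δ n a) (δ n' b) := by
  classical
  by_contra hno
  have : Nonempty V := ⟨x0⟩
  choose! γ g1 g2 g3 g4 using hw
  set Λ := lam * (u + 1) with hΛ
  let E : ℕ → ι → ι → Prop := fun a i j =>
    ∃ b c, a * (u + 1) ≤ b ∧ a * (u + 1) ≤ c ∧ Near G u (γ i b) (γ j c)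
  have hsym : ∀ a i j, E a i j → E a j i := fun a i j ⟨b, c, h1, h2, h3⟩ => ⟨c, b, h2, h1, h3.symm⟩
  have key : ∀ m a, a + m = lam → ∀ i ∈ F,
      (F.filter fun j => E a i j).card ≤ (2 * (lam + 1) * k) ^ m := by
    intro m
    induction m with
    | zero =>
      intro a ha i hi
      rw [pow_zero, ← card_singleton i]
      refine card_le_card fun j hj => ?_
      obtain ⟨hj, b, c, h1, h2, h3⟩ := mem_filter.1 hj
      have : a = lam := by omega
      subst this
      rw [g3 i hi b h1, g3 j hj c h2] at h3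
      by_contra hne
      exact hs i hi j hj (fun h => hne (by simp [h])) (h3.mono (by omega))
    | succ m ih =>
      intro a ha i hi
      by_contra hlt
      set D := (2 * (lam + 1) * k) ^ m with hD
      have hD1 : 1 ≤ D := Nat.one_le_pow _ _ (by positivity)
      have haΛ : a * (u + 1) ≤ Λ := Nat.mul_le_mul_right _ (by omega)
      have hE : ∀ j ∈ F.filter fun j => E a i j, ∃ b c, b ≤ Λ ∧ a * (u + 1) ≤ c ∧
          Near G u (γ i b) (γ j c) := by
        intro j hj
        obtain ⟨-, b, c, -, h2, h3⟩ := mem_filter.1 hj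
        rcases le_total b Λ with hb | hb
        · exact ⟨b, c, hb, h2, h3⟩
        · exact ⟨Λ, c, le_rfl, h2, by rw [g3 i hi Λ le_rfl, ← g3 i hi b hb]; exact h3⟩
      choose! b c hb hc hn using hE
      obtain ⟨w, -, hw'⟩ := exists_lt_card_fiber_of_mul_lt_card_of_maps_to
        (s := F.filter fun j => E a i j) (t := range (lam + 1)) (f := fun j => b j / (u + 1))
        (n := (D + 1) * k) (fun j hj => mem_range.2 (Nat.lt_succ_of_le
          (Nat.div_le_of_le_mul (by rw [mul_comm]; exact hb j hj)))) (by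
          rw [card_range]
          refine lt_of_le_of_lt ?_ (not_le.1 hlt)
          rw [pow_succ, ← hD]
          calc (lam + 1) * ((D + 1) * k) ≤ (lam + 1) * ((D + D) * k) := by gcongr
            _ = _ := by ring)
      obtain ⟨I, hI, hcard, hind⟩ := indep (E (a + 1)) (hsym _) D k _ (fun F' hF' ⟨x, hx⟩ =>
        ⟨x, hx, (card_le_card fun y hy => mem_filter.2 ⟨(mem_filter.1 (mem_filter.1
          (hF' (mem_filter.1 hy).1)).1).1, (mem_filter.1 hy).2.2⟩).trans (ih (a + 1) (by omega) x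
          (mem_filter.1 (mem_filter.1 (hF' hx)).1).1)⟩) hw'.le
      obtain ⟨φ, φ1, φ2⟩ := fin_of_card hcard
      have hφ := fun n => mem_filter.1 (hI (φ2 n))
      have hφF := fun n => (mem_filter.1 (hφ n).1).1
      have hz : ∀ n, Near G (2 * u) (γ i (w * (u + 1))) (γ (φ n) (c (φ n))) := fun n => by
        have e1 := Nat.div_add_mod (b (φ n)) (u + 1)
        have e3 := Nat.mod_lt (b (φ n)) (show 0 < u + 1 by omega)
        have e2 : b (φ n) / (u + 1) = w := (hφ n).2
        rw [e2, mul_comm] at e1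
        exact ((g1 i hi).near (j := u) (by omega) (by omega)).trans' (hn _ (hφ n).1) (by omega)
      refine hno ⟨γ i (w * (u + 1)), φ,
        fun n x => γ (φ n) (max (c (φ n)) ((a + 1) * (u + 1)) + x), φ1, fun n => ⟨hφF n,
          ⟨_, g4 _ (hφF n) _, hz n⟩, fun x => g1 _ (hφF n) _,
          fun x hx => g3 _ (hφF n) _ (by omega), ?_⟩, fun n n' hnn x y h =>
          hind _ (φ2 n) _ (φ2 n') (φ1.ne hnn) ⟨_, _, by omega, by omega, h⟩⟩
      have := hc _ (hφ n).1
      have e : (a + 1) * (u + 1) = a * (u + 1) + (u + 1) := by ring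
      exact (hz n).trans' ((g1 _ (hφF n)).near (j := u + 1) (by omega) (by omega)) (by omega)
  obtain ⟨i, hi⟩ : F.Nonempty := card_pos.1 (by omega)
  have := key lam 0 (by omega) i hi
  rw [filter_true_of_mem fun j hj => ⟨0, 0, by omega, by omega, by
    rw [g2 i hi, g2 j hj]; exact near_refl _ _⟩] at this
  omega

/-- every node points to a node of the highest level within distance `r + 2 u`; the images of a
ball of radius `r` contain few far apart points -/
theorem ends_thin {k u lam r : ℕ} (hk : 0 < k) (hl : r + (r + 2 * u) ≤ lam * (u + 1))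
    (t : V → ℕ) (y : V → V) (h1 : ∀ v, Near G (r + 2 * u) v (y v))
    (h2 : ∀ v, lev G k u (lam * (u + 1)) (t v) (y v))
    (h3 : ∀ v s, t v < s → ¬ NearS G (r + 2 * u) v (lev G k u (lam * (u + 1)) s)) (x : V) :
    Thin G (17 * u) ((2 * (lam + 1) * (k + 1)) ^ lam) {p | ∃ v, Near G r x v ∧ y v = p} := by
  classical
  intro F f1 f2
  by_contra hlt
  have : Nonempty V := ⟨x⟩
  choose! w w1 w2 using f1
  have w3 : ∀ i ∈ F, Near G (r + 2 * u) (w i) i := fun i hi => by
    have := h1 (w i)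
    rwa [w2 i hi] at this
  have w4 : ∀ i ∈ F, lev G k u (lam * (u + 1)) (t (w i)) i := fun i hi => by
    have := h2 (w i)
    rwa [w2 i hi] at this
  obtain ⟨z, φ, δ, p1, p2, p3⟩ := bi2 (G := G) (k := k + 1) (u := u) (lam := lam) (by omega) F x id
    (fun i p => Near G r (w i) p ∨
      ∃ c ≤ r + 2 * u, Near G c (w i) p ∧ Near G (r + 2 * u - c) p i)
    (fun i hi => (((wk_right (w1 i hi) le_rfl).mono le_rfl fun _ => Or.inl).trans
      ((wk_geo (w3 i hi)).mono le_rfl fun _ => Or.inr)).mono hl fun _ a => a)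
    f2 (not_le.1 hlt)
  obtain ⟨n0, -, m0⟩ := exists_min_image univ (fun n => t (w (φ n))) univ_nonempty
  have : Nonempty (Fin k) := ⟨⟨0, hk⟩⟩
  obtain ⟨n1, -, m1⟩ := exists_min_image univ (fun n => t (w (φ (n0.succAbove n)))) univ_nonempty
  have hz : lev G k u (lam * (u + 1)) (t (w (φ (n0.succAbove n1))) + 1) z := by
    refine ⟨fun n => δ (n0.succAbove n), fun n => ?_, fun n n' hnn => ?_⟩
    · obtain ⟨a1, -, a3, a4, a5⟩ := p2 (n0.succAbove n)
      refine ⟨a3, fun c hc => (a4 c hc).trans (a4 _ le_rfl).symm, a5, ?_⟩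
      simp only
      rw [a4 _ le_rfl]
      exact lev_anti (m1 n (mem_univ _)) _ (w4 _ a1)
    · have hne := (Fin.succAbove_right_injective (p := n0)).ne hnn
      refine ⟨p3 _ _ hne, ?_⟩
      simp only
      rw [(p2 _).2.2.2.1 _ le_rfl, (p2 _).2.2.2.1 _ le_rfl]
      exact f2 _ (p2 _).1 _ (p2 _).1 (p1.ne hne)
  have key : ∀ n, t (w (φ n)) ≤ t (w (φ (n0.succAbove n1))) → Near G (4 * u) z (φ n) := by
    intro n hn
    have far : ¬ Near G (r + 2 * u) (w (φ n)) z := fun a => h3 _ _ (Nat.lt_succ_of_le hn) ⟨z, hz, a⟩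
    obtain ⟨p, a1 | ⟨c, a1, a2, a3⟩, a4⟩ := (p2 n).2.1
    · exact absurd (a1.trans a4.symm) far
    · by_cases hc : c ≤ r
      · exact absurd (a2.trans' a4.symm (by omega)) far
      · exact a4.trans' a3 (by omega)
  exact f2 _ (p2 n0).1 _ (p2 _).1 (p1.ne (Fin.succAbove_ne n0 n1).symm)
    ((key n0 (m0 _ (mem_univ _))).symm.trans' (key _ le_rfl) (by omega))

end Pool.Agent.Lib.MP_559647_lc.P65
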