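import Pool.Agent.Lib.MP_559647_lc.P65Rad

/-! Counting separated thin walks between disjoint blobs when shallow minors are sparse. -/

namespace Pool.Agent.Lib.MP_559647_lc.P65

open Finset SimpleGraph M64 M64.MaderAux T20

variable {V : Type} {G : SimpleGraph V}

/-- a thin short connector between two blobs -/
def Con (G : SimpleGraph V) (u M s : ℕ) (A : Finset V) (Bl : V → Set V) (p : V × V) (Q : Set V) :
    Prop :=
  p.1 ∈ A ∧ p.2 ∈ A ∧ p.1 ≠ p.2 ∧ Dia G s Q ∧ Thin G u M Q ∧ (∀ b ∈ A, Disjoint Q (Bl b)) ∧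
    Ad G (Bl p.1) Q ∧ Ad G Q (Bl p.2)

theorem core {d u M L ρ : ℕ} (hG : Dens G (ρ + 1 + (L + L)) d) (A : Finset V) (Bl : V → Set V)
    (hBc : ∀ a ∈ A, Rad G ρ (Bl a)) (hBd : ∀ a ∈ A, ∀ b ∈ A, a ≠ b → Disjoint (Bl a) (Bl b))
    {ι : Type} (Lg : Finset ι) (src tgt : ι → V) (γ : ι → ℕ → V)
    (h1 : ∀ l ∈ Lg, src l ∈ A ∧ tgt l ∈ A ∧ src l ≠ tgt l ∧ Lazy G (γ l) ∧ γ l 0 ∈ Bl (src l) ∧
      γ l L ∈ Bl (tgt l) ∧ (∀ c ≤ L, ∀ a ∈ A, γ l c ∈ Bl a → a = src l ∨ a = tgt l) ∧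
      Thin G u M {p | ∃ c ≤ L, γ l c = p})
    (h2 : ∀ l ∈ Lg, ∀ l' ∈ Lg, l ≠ l' → src l = src l' → tgt l ≠ tgt l' ∧
      ∀ c c', 1 ≤ c → 1 ≤ c' → ¬ Near G u (γ l c) (γ l' c')) :
    Lg.card ≤ (d + (d + 1) * ((M + M) * (d * (1 + d)))) * A.card := by
  classical
  rcases Lg.eq_empty_or_nonempty with rfl | ⟨l0, -⟩
  · simp
  have : Nonempty V := ⟨src l0⟩
  obtain ⟨D, Q, q1, q2, q3⟩ := exists_system' A (Con G u (M + M) (L + L) A Bl)
    fun _ _ a => ⟨a.1, a.2.1⟩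
  let S : V → Set V := fun z => Bl z ∪ {x | ∃ p, (p ∈ D ∧ p.1 = z) ∧ x ∈ Q p}
  have S1 : ∀ z ∈ A, Rad G (ρ + 1 + (L + L)) (S z) := fun z hz =>
    rad_attach (hBc z hz) _ _ fun p hp =>
    Or.inr ⟨(q1 p hp.1).2.2.2.1, hp.2 ▸ (q1 p hp.1).2.2.2.2.2.2.1⟩
  have S2 : ∀ z ∈ A, ∀ z' ∈ A, z ≠ z' → Disjoint (S z) (S z') := by
    intro z hz z' hz' hne
    rw [Set.disjoint_left]
    rintro x (a | ⟨p, ⟨a, e⟩, a'⟩) (b | ⟨p', ⟨b, e'⟩, b'⟩)
    · exact Set.disjoint_left.1 (hBd z hz z' hz' hne) a b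
    · exact Set.disjoint_left.1 ((q1 p' b).2.2.2.2.2.1 z hz) b' a
    · exact Set.disjoint_left.1 ((q1 p a).2.2.2.2.2.1 z' hz') a' b
    · exact Set.disjoint_left.1 (q2 p a p' b fun ee => hne (by rw [← e, ← e', ee])) a' b'
  have S3 : ∀ p ∈ D, Ad G (S p.1) (S p.2) := fun p hp =>
    (q1 p hp).2.2.2.2.2.2.2.mono (fun x hx => Or.inr ⟨p, ⟨hp, rfl⟩, hx⟩) Set.subset_union_left
  have hDc : D.card ≤ d * A.card := hG _ S A S1 S2 D fun p hp =>
    ⟨(q1 p hp).1, (q1 p hp).2.1, (q1 p hp).2.2.1, S3 p hp⟩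
  obtain ⟨col, c1, c2⟩ := colour (fun x y => Ad G (S x) (S y)) (fun _ _ a => a.symm) d A
    fun F hF hne => degen _ d F hne (hG _ S F (fun a ha => S1 a (hF ha))
      fun a ha b hb => S2 a (hF ha) b (hF hb))
  have hcut : ∀ l ∈ Lg, ∃ (J : Set V) (x : V), (∃ c, 1 ≤ c ∧ γ l c = x) ∧
      (x ∈ Bl (tgt l) ∨ ∃ p ∈ D, x ∈ Q p) ∧ Thin G u M J ∧ (∀ b ∈ A, Disjoint J (Bl b)) ∧
      (∀ p ∈ D, Disjoint J (Q p)) ∧ ((J = ∅ ∧ Ad G (Bl (src l)) {x}) ∨
        (Dia G L J ∧ Ad G (Bl (src l)) J ∧ Ad G J {x})) := by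
    intro l hl
    obtain ⟨a1, a2, a3, a4, a5, a6, a7, a8⟩ := h1 l hl
    obtain ⟨J, x, b1, b2, b3, b4, b5, b6⟩ := cut_walk' a4 (B := Bl (src l))
      (W := Bl (tgt l) ∪ {x | ∃ p ∈ D, x ∈ Q p}) (by
        rw [Set.disjoint_left]
        rintro x a (b | ⟨p, hp, b⟩)
        · exact Set.disjoint_left.1 (hBd _ a1 _ a2 a3) a b
        · exact Set.disjoint_left.1 ((q1 p hp).2.2.2.2.2.1 _ a1) b a) a5 (Or.inl a6)
    refine ⟨J, x, b1, b2, a8.mono b3 le_rfl, fun b hb => ?_, fun p hp => ?_, b6⟩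
    · rw [Set.disjoint_left]
      intro y hy hy'
      obtain ⟨c, hc, rfl⟩ := b3 hy
      rcases a7 c hc b hb hy' with rfl | rfl
      · exact Set.disjoint_left.1 b4 hy hy'
      · exact Set.disjoint_left.1 b5 hy (Or.inl hy')
    · exact b5.mono_right fun y hy => Or.inr ⟨p, hp, hy⟩
  choose! J x j1 j2 j3 j4 j5 j6 using hcut
  have t1 : (Lg.filter fun l => x l ∈ Bl (tgt l)).card ≤ d * A.card := by
    rw [← card_image_of_injOn (f := fun l => (src l, tgt l)) fun l hl l' hl' e => by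
      by_contra hne
      exact (h2 l (mem_filter.1 hl).1 l' (mem_filter.1 hl').1 hne (congrArg Prod.fst e)).1
        (congrArg Prod.snd e)]
    refine hG _ S A S1 S2 _ fun p hp => ?_
    obtain ⟨l, hl, rfl⟩ := mem_image.1 hp
    obtain ⟨hl, hx⟩ := mem_filter.1 hl
    obtain ⟨a1, a2, a3, -⟩ := h1 l hl
    have hx' : ({x l} : Set V) ⊆ Bl (tgt l) := Set.singleton_subset_iff.2 hx
    refine ⟨a1, a2, a3, ?_⟩
    rcases j6 l hl with ⟨-, b⟩ | ⟨b1, b2, b3⟩
    · exact b.mono Set.subset_union_left (hx'.trans Set.subset_union_left)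
    · exact S3 _ (q3 (src l, tgt l) (J l) ⟨a1, a2, a3, b1.mono (by omega),
        (j3 l hl).mono subset_rfl (by omega),
        j4 l hl, b2, b3.mono subset_rfl hx'⟩ (j5 l hl))
  have hP : ∀ l ∈ Lg.filter fun l => ¬ x l ∈ Bl (tgt l), ∃ p ∈ D, x l ∈ Q p := fun l hl =>
    (j2 l (mem_filter.1 hl).1).resolve_left (mem_filter.1 hl).2
  choose! P p1 p2 using hP
  let R : V ⊕ V × V → Set V := Sum.elim
    (fun z => Bl z ∪ {y | ∃ l, (l ∈ Lg ∧ src l = z) ∧ y ∈ J l}) Q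
  have t2 : ∀ j ∈ range (d + 1), ((Lg.filter fun l => ¬ x l ∈ Bl (tgt l)).filter
      fun l => col (src l) = j).card ≤ (M + M) * (d * (1 + d)) * A.card := by
    intro j _
    set Lj := (Lg.filter fun l => ¬ x l ∈ Bl (tgt l)).filter fun l => col (src l) = j with hLj
    have hm : ∀ l ∈ Lj, l ∈ Lg := fun l hl => (mem_filter.1 (mem_filter.1 hl).1).1
    have u1 := hG _ R ((A.filter fun z => col z = j).disjSum D) (by
        rintro (z | p) hz
        · refine rad_attach (hBc z (mem_filter.1 (inl_mem_disjSum.1 hz)).1) _ _ fun l hl => ?_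
          exact (j6 l hl.1).imp And.left fun a => ⟨a.1.mono (by omega), hl.2 ▸ a.2.1⟩
        · exact (q1 p (inr_mem_disjSum.1 hz)).2.2.2.1.rad.mono (by omega)) (by
        have hq : ∀ z ∈ A, ∀ p ∈ D, Disjoint (R (.inl z)) (R (.inr p)) := by
          intro z hz p hp
          rw [Set.disjoint_left]
          rintro y (a | ⟨l, a, a'⟩) b
          · exact Set.disjoint_left.1 ((q1 p hp).2.2.2.2.2.1 z hz) b a
          · exact Set.disjoint_left.1 (j5 l a.1 p hp) a' b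
        rintro (z | p) hz (z' | p') hz' hne
        · obtain ⟨hz, e⟩ := mem_filter.1 (inl_mem_disjSum.1 hz)
          obtain ⟨hz', e'⟩ := mem_filter.1 (inl_mem_disjSum.1 hz')
          have hne' : z ≠ z' := fun ee => hne (congrArg _ ee)
          rw [Set.disjoint_left]
          rintro y (a | ⟨l, ⟨a, rfl⟩, a'⟩) (b | ⟨l', ⟨b, rfl⟩, b'⟩)
          · exact Set.disjoint_left.1 (hBd z hz z' hz' hne') a b
          · exact Set.disjoint_left.1 (j4 l' b z hz) b' a
          · exact Set.disjoint_left.1 (j4 l a z' hz') a' b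
          · have k1 := (j6 l a).resolve_left fun k => by rw [k.1] at a'; exact a'.elim
            have k2 := (j6 l' b).resolve_left fun k => by rw [k.1] at b'; exact b'.elim
            refine c2 _ hz _ hz' hne' (S3 _ (q3 (src l, src l') (J l ∪ J l') ⟨hz, hz', hne',
              k1.1.union k2.1 a' b', (j3 l a).union (j3 l' b), fun c hc =>
              Set.disjoint_union_left.2 ⟨j4 l a c hc, j4 l' b c hc⟩,
              k1.2.1.mono subset_rfl Set.subset_union_left,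
              k2.2.1.symm.mono Set.subset_union_right subset_rfl⟩ fun c hc =>
              Set.disjoint_union_left.2 ⟨j5 l a c hc, j5 l' b c hc⟩)) (e.trans e'.symm)
        · exact hq z (mem_filter.1 (inl_mem_disjSum.1 hz)).1 p' (inr_mem_disjSum.1 hz')
        · exact (hq z' (mem_filter.1 (inl_mem_disjSum.1 hz')).1 p (inr_mem_disjSum.1 hz)).symm
        · exact q2 p (inr_mem_disjSum.1 hz) p' (inr_mem_disjSum.1 hz')
            fun ee => hne (congrArg _ ee))
      (Lj.image fun l => (Sum.inl (src l), Sum.inr (P l))) (by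
        intro p hp
        obtain ⟨l, hl, rfl⟩ := mem_image.1 hp
        have hx' : ({x l} : Set V) ⊆ Q (P l) :=
          Set.singleton_subset_iff.2 (p2 l (mem_filter.1 hl).1)
        refine ⟨inl_mem_disjSum.2 (mem_filter.2 ⟨(h1 l (hm l hl)).1, (mem_filter.1 hl).2⟩),
          inr_mem_disjSum.2 (p1 l (mem_filter.1 hl).1), Sum.inl_ne_inr, ?_⟩
        rcases j6 l (hm l hl) with ⟨-, b⟩ | ⟨-, -, b⟩
        · exact b.mono Set.subset_union_left hx'
        · exact b.mono (fun y hy => Or.inr ⟨l, ⟨hm l hl, rfl⟩, hy⟩) hx')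
    have u2 := card_le_mul_card_image (s := Lj)
      (f := fun l => ((Sum.inl (src l) : V ⊕ V × V), (Sum.inr (P l) : V ⊕ V × V))) (M + M) (by
        intro p hp
        obtain ⟨l0, hl0, rfl⟩ := mem_image.1 hp
        have hf : ∀ l ∈ Lj.filter fun l => ((Sum.inl (src l) : V ⊕ V × V),
            (Sum.inr (P l) : V ⊕ V × V)) = (Sum.inl (src l0), Sum.inr (P l0)),
            l ∈ Lj ∧ src l = src l0 ∧ P l = P l0 := fun l hl => by
          simpa using hl
        have hfar := fun l hl l' hl' (hne : l ≠ l') => (h2 l (hm l (hf l hl).1) l'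
          (hm l' (hf l' hl').1) hne ((hf l hl).2.1.trans (hf l' hl').2.1.symm)).2
        have hfar' : ∀ l hl l' hl' (_ : l ≠ l'), ¬ Near G u (x l) (x l') := fun l hl l' hl' hne => by
          obtain ⟨c, hc, e⟩ := j1 l (hm l (hf l hl).1)
          obtain ⟨c', hc', e'⟩ := j1 l' (hm l' (hf l' hl').1)
          rw [← e, ← e']
          exact hfar l hl l' hl' hne c c' hc hc'
        rw [← card_image_of_injOn (f := x) fun l hl l' hl' e => by
          by_contra hne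
          exact hfar' l hl l' hl' hne (e ▸ near_refl _ _)]
        refine (q1 _ (p1 l0 (mem_filter.1 hl0).1)).2.2.2.2.1 _ (fun y hy => ?_)
          fun y hy y' hy' hne => ?_
        · obtain ⟨l, hl, rfl⟩ := mem_image.1 hy
          exact (hf l hl).2.2 ▸ p2 l (mem_filter.1 (hf l hl).1).1
        · obtain ⟨l, hl, rfl⟩ := mem_image.1 hy
          obtain ⟨l', hl', rfl⟩ := mem_image.1 hy'
          exact hfar' l hl l' hl' fun e => hne (congrArg x e))
    rw [card_disjSum] at u1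
    have u3 : (A.filter fun z => col z = j).card ≤ A.card := card_filter_le _ _
    calc _ ≤ (M + M) * (d * (A.card + d * A.card)) :=
          u2.trans (Nat.mul_le_mul_left _ (u1.trans (Nat.mul_le_mul_left _ (add_le_add u3 hDc))))
      _ = _ := by ring
  have t3 := card_eq_sum_card_fiberwise (s := Lg.filter fun l => ¬ x l ∈ Bl (tgt l))
    (t := range (d + 1)) (f := fun l => col (src l)) fun l _ => mem_coe.2 (mem_range.2 (c1 _))
  have t4 := sum_le_card_nsmul _ _ _ t2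
  rw [← t3, card_range, smul_eq_mul] at t4
  rw [← card_filter_add_card_filter_not (s := Lg) (fun l => x l ∈ Bl (tgt l))]
  calc _ ≤ d * A.card + (d + 1) * ((M + M) * (d * (1 + d)) * A.card) := add_le_add t1 t4
    _ = _ := by ring

end Pool.Agent.Lib.MP_559647_lc.P65
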