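import Pool.Agent.Lib.MP_559647_lc.V55Defs

/-! Shallow minors, expansion, hereditary classes of graphs. -/

namespace Pool.Agent.Lib.MP_559647_lc

/-- `B` induces a subgraph of radius at most `s`. -/
def Shallow {V : Type} (G : SimpleGraph V) (s : ℕ) (B : Set V) : Prop :=
  ∃ c : B, ∀ x : B, (G.induce B).edist c x ≤ s

/-- For every `s`, every minor `H` of `G` of depth `s` (disjoint branch sets of radius at most `s`,
joined by an edge of `G` for each edge of `H`) has at most `g s` times as many edges as vertices. -/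
def Expansion {V : Type} (g : ℕ → ℕ) (G : SimpleGraph V) : Prop :=
  ∀ (s m : ℕ) (B : Fin m → Set V) (H : SimpleGraph (Fin m)), (∀ i, Shallow G s (B i)) →
    (∀ i j, i ≠ j → Disjoint (B i) (B j)) →
    (∀ i j, H.Adj i j → ∃ x ∈ B i, ∃ y ∈ B j, G.Adj x y) → H.edgeSet.ncard ≤ g s * m

/-- The class is closed under induced subgraphs, renaming and adding isolated vertices. -/
def Hereditary (Gr : (N : ℕ) → SimpleGraph (Fin N) → Prop) : Prop :=
  ∀ (N M : ℕ) (G : SimpleGraph (Fin N)) (H : SimpleGraph (Fin M)) (ψ : Fin M → Fin N),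
    Set.InjOn ψ H.support →
    (∀ i ∈ H.support, ∀ k ∈ H.support, H.Adj i k ↔ G.Adj (ψ i) (ψ k)) → Gr N G → Gr M H

end Pool.Agent.Lib.MP_559647_lc
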