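import Pool.Agent.Lib.MP_559647_lc.Derand

/-!
Derandomisation along a partition: each part met by a ball multiplies the conditional failure
probability by at most the number of nodes that a part influences.
-/

namespace Pool.Agent.Lib.MP_559647_lc.P65

open MeasureTheory Finset
open scoped ENNReal

variable {N : ℕ} {Ω : Type} [MeasurableSpace Ω] (μ : Measure Ω)
  (r : ℕ) (c : Inst N → Fin N → Fin N) (col : Inst N → Fin N → ℕ)
  (f : Inst N → (Fin N → Ω) → Fin N → ℝ≥0∞) (M : ℕ)

/-- good values for the cluster of colour `j` and centre `z` -/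
def GoodM (I : Inst N) (j : ℕ) (a : Fin N → Ω) (z : Fin N) (y : Fin N → Ω) : Prop :=
  ∀ u ∈ infl r c col I j z,
    condE μ r col f I (j + 1) u (fun x => if col I x = j ∧ c I x = z then y x else a x) ≤
      M * condE μ r col f I j u a

/-- the seeds after stage `j` -/
noncomputable def seedsM (o : Ω) (I : Inst N) : ℕ → Fin N → Ω
  | 0 => fun _ => o
  | j + 1 => fun x => if col I x = j then
      @Classical.epsilon (Fin N → Ω) ⟨fun _ => o⟩
        (GoodM μ r c col f M I j (seedsM o I j) (c I x)) x
      else seedsM o I j x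

variable {μ r c col f M}

lemma le_of_inv_mul {q x : ℝ≥0∞} {M : ℕ} (hM : 0 < M) (h : q⁻¹ * x ≤ M) : x ≤ M * q := by
  rcases eq_or_ne q 0 with rfl | h0
  · rcases eq_or_ne x 0 with rfl | hx
    · exact zero_le
    · rw [ENNReal.inv_zero, ENNReal.top_mul hx] at h
      exact absurd (top_le_iff.1 h) (ENNReal.natCast_ne_top M)
  rcases eq_or_ne q ⊤ with rfl | h1
  · rw [ENNReal.mul_top (by exact_mod_cast hM.ne')]
    exact le_top
  · calc x = q * (q⁻¹ * x) := by rw [← mul_assoc, ENNReal.mul_inv_cancel h0 h1, one_mul]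
      _ ≤ q * M := mul_le_mul_right h _
      _ = _ := mul_comm _ _

lemma exists_goodM [IsProbabilityMeasure μ] (hf : LocalWith r f)
    (hm : ∀ I u, Measurable fun a => f I a u) (I : Inst N)
    (hsep : ∀ v w, col I v = col I w → Near I.G (2 * r) v w → c I v = c I w) (hM : 0 < M)
    (j : ℕ) (a : Fin N → Ω) (z : Fin N) (hz : (infl r c col I j z).card ≤ M) :
    ∃ y, GoodM μ r c col f M I j a z y := by
  classical
  let q : Fin N → ℝ≥0∞ := fun u => condE μ r col f I j u a
  have e : ∀ i u b, condE μ r col (fun I b u => (q u)⁻¹ * f I b u) I i u b =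
      (q u)⁻¹ * condE μ r col f I i u b := fun i u b =>
    lintegral_const_mul _ ((hm I u).comp measurable_updateFinset)
  obtain ⟨y, hy⟩ := exists_goodVal (μ := μ) (f := fun I b u => (q u)⁻¹ * f I b u)
    (fun I J a b v h1 h2 => by simp only [hf I J a b v h1 h2])
    (fun I u => (hm I u).const_mul _) I hsep j a z
  unfold GoodVal at hy
  simp only [e] at hy
  refine ⟨y, fun u hu => le_of_inv_mul hM ?_⟩
  refine (single_le_sum (f := fun u => (q u)⁻¹ * condE μ r col f I (j + 1) u
    (fun x => if col I x = j ∧ c I x = z then y x else a x)) (fun _ _ => zero_le) hu).trans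
    (hy.trans ((sum_le_card_nsmul _ _ 1 fun u _ => ENNReal.inv_mul_le_one _).trans ?_))
  rw [nsmul_one]
  exact_mod_cast hz

lemma seedsM_loc {C : Set (Inst N)} {T1 : ℕ} {rad : ℕ → ℕ} (hc : Loc C T1 c)
    (hcol : Loc C T1 col) (hf : LocalWith r f)
    (hrad : ∀ I ∈ C, ∀ v, Near I.G (rad (col I v)) v (c I v)) (o : Ω) (j : ℕ) :
    Loc C (T1 + ∑ i ∈ range j, (2 * rad i + 2 * r)) fun I v => seedsM μ r c col f M o I j v := by
  induction j with
  | zero => intro I _ J _ v _; rfl
  | succ j ih =>
    intro I hI J hJ v hv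
    rw [Finset.sum_range_succ] at hv
    set τ := T1 + ∑ i ∈ range j, (2 * rad i + 2 * r) with hτ
    have hT : T1 ≤ τ := Nat.le_add_right _ _
    have hv' : SameView (τ + (2 * rad j + 2 * r)) v I J := by
      rw [hτ, add_assoc]; exact hv
    have e1 : col I v = col J v := hcol I hI J hJ v (hv'.mono (by omega))
    have e2 : c I v = c J v := hc I hI J hJ v (hv'.mono (by omega))
    have e3 := ih I hI J hJ v (hv'.mono (by omega))
    simp only [seedsM]
    simp only at e3
    by_cases hcv : col I v = j
    swap
    · rw [if_neg hcv, if_neg (e1 ▸ hcv), e3]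
    rw [if_pos hcv, if_pos (e1 ▸ hcv), ← e2]
    set z := c I v with hz
    have key : ∀ {I J : Inst N}, I ∈ C → J ∈ C → SameView (τ + (2 * rad j + 2 * r)) v I J →
        col I v = j → c I v = z → ∀ x, col I x = j → c I x = z →
        Near I.G (2 * rad j) v x ∧ col J x = j ∧ c J x = z := by
      intro I J hI hJ hv h1 h2 x h3 h4
      have a1 := hrad I hI v
      have a2 := hrad I hI x
      rw [h1, h2] at a1
      rw [h3, h4] at a2
      have a3 : Near I.G (2 * rad j) v x := a1.trans' a2.symm (by omega)
      exact ⟨a3, hcol.at hI hJ hv a3 (by omega) ▸ h3, hc.at hI hJ hv a3 (by omega) ▸ h4⟩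
    have hW : ∀ x, (col I x = j ∧ c I x = z) ↔ (col J x = j ∧ c J x = z) := fun x =>
      ⟨fun h => (key hI hJ hv' hcv rfl x h.1 h.2).2,
        fun h => (key hJ hI hv'.symm (e1 ▸ hcv) e2.symm x h.1 h.2).2⟩
    have hnear : ∀ u ∈ infl r c col I j z, Near I.G (2 * rad j + r) v u := by
      intro u hu
      simp only [infl, mem_filter, mem_univ, true_and] at hu
      obtain ⟨x, hx, h1, h2⟩ := hu
      exact (key hI hJ hv' hcv rfl x h1 h2).1.trans hx.symm
    have hX : infl r c col I j z = infl r c col J j z := by
      ext u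
      simp only [infl, mem_filter, mem_univ, true_and]
      constructor
      · rintro ⟨x, hx, h⟩
        have b1 := (key hI hJ hv' hcv rfl x h.1 h.2).1.trans hx.symm
        exact ⟨x, ((hv'.shift b1 (t := r) (by omega)).near_iff le_rfl x).1 hx, (hW x).1 h⟩
      · rintro ⟨x, hx, h⟩
        have b1 := (key hJ hI hv'.symm (e1 ▸ hcv) e2.symm x h.1 h.2).1.trans hx.symm
        exact ⟨x, ((hv'.symm.shift b1 (t := r) (by omega)).near_iff le_rfl x).1 hx, (hW x).2 h⟩
    have hG : GoodM μ r c col f M I j (seedsM μ r c col f M o I j) z =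
        GoodM μ r c col f M J j (seedsM μ r c col f M o J j) z := by
      funext y
      unfold GoodM
      rw [← hX]
      have hs : ∀ u ∈ infl r c col I j z, ∀ x, Near I.G r u x →
          seedsM μ r c col f M o I j x = seedsM μ r c col f M o J j x := by
        intro u hu x hx
        exact ih.at hI hJ hv' ((hnear u hu).trans hx) (by omega)
      refine propext (forall₂_congr fun u hu => ?_)
      rw [condE_view hcol hf hI hJ (hv'.shift (hnear u hu) (by omega)) _ _ _ (hs u hu),
        condE_view hcol hf hI hJ (hv'.shift (hnear u hu) (by omega)) (j + 1) _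
        (fun x => if col J x = j ∧ c J x = z then y x else seedsM μ r c col f M o J j x)
        fun x hx => by simp only [hW x, hs u hu x hx]]
    rw [hG]

open Classical in
theorem derandM [IsProbabilityMeasure μ] {C : Set (Inst N)} {T1 K ρ P : ℕ}
    (hc : Loc C T1 c) (hcol : Loc C T1 col) (hK : ∀ I ∈ C, ∀ v, col I v < K)
    (hrad : ∀ I ∈ C, ∀ v, Near I.G ρ v (c I v))
    (hsep : ∀ I ∈ C, ∀ v w, col I v = col I w → Near I.G (2 * r) v w → c I v = c I w)
    (hM : ∀ I ∈ C, ∀ z, ∀ F : Finset (Fin N), (∀ u ∈ F, Near I.G (ρ + r) z u) → F.card ≤ M)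
    (hP : ∀ I ∈ C, ∀ u, ∀ F : Finset ℕ, (∀ j ∈ F, ∃ x, Near I.G r u x ∧ col I x = j) → F.card ≤ P)
    (hf : LocalWith r f) (hm : ∀ I u, Measurable fun a => f I a u) :
    ∃ w : Inst N → Fin N → Ω, Loc C (T1 + K * (2 * ρ + 2 * r)) w ∧
      ∀ I ∈ C, ∀ u, f I (w I) u ≤ (M : ℝ≥0∞) ^ P * ∫⁻ a, f I a u ∂(Measure.pi fun _ : Fin N => μ) := by
  obtain ⟨o⟩ : Nonempty Ω := nonempty_of_isProbabilityMeasure μ
  have hl := seedsM_loc (μ := μ) (M := M) (rad := fun _ => ρ) hc hcol hf hrad o K
  rw [Finset.sum_const, Finset.card_range, smul_eq_mul] at hl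
  refine ⟨fun I v => seedsM μ r c col f M o I K v, hl, fun I hI u => ?_⟩
  have hM0 : 0 < M := hM I hI u {u} fun x hx => mem_singleton.1 hx ▸ near_refl _ _
  have key : ∀ j, condE μ r col f I j u (seedsM μ r c col f M o I j) ≤
      (M : ℝ≥0∞) ^ ((range j).filter fun i => ∃ x, Near I.G r u x ∧ col I x = i).card *
        condE μ r col f I 0 u (seedsM μ r c col f M o I 0) := by
    intro j
    induction j with
    | zero => simp
    | succ j ih =>
      rw [range_add_one, filter_insert]
      split_ifs with h
      · obtain ⟨x0, h1, h2⟩ := h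
        rw [card_insert_of_notMem (by simp), pow_succ', mul_assoc]
        refine le_trans ?_ (mul_le_mul_right ih _)
        have hg := @Classical.epsilon_spec (Fin N → Ω)
          (GoodM μ r c col f M I j (seedsM μ r c col f M o I j) (c I x0))
          (exists_goodM hf hm I (hsep I hI) hM0 j _ _ (hM I hI (c I x0) _ fun v hv => by
            simp only [infl, mem_filter, mem_univ, true_and] at hv
            obtain ⟨x, a1, -, a2⟩ := hv
            exact (a2 ▸ (hrad I hI x).symm).trans a1.symm))
        refine le_trans (le_of_eq (condE_dep hf I (j + 1) u _ _ fun x hx => ?_))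
          (hg u (by simp only [infl, mem_filter, mem_univ, true_and]; exact ⟨x0, h1, h2, rfl⟩))
        simp only [seedsM]
        by_cases hcx : col I x = j
        · have : c I x = c I x0 := hsep I hI x x0 (by omega) (hx.symm.trans' h1 (by omega))
          rw [if_pos hcx, if_pos ⟨hcx, this⟩, this]
        · rw [if_neg hcx, if_neg (fun h => hcx h.1)]
      · refine le_trans (le_of_eq ?_) ih
        have hu' : ∀ x, Near I.G r u x → col I x ≠ j := fun x hx hc => h ⟨x, hx, hc⟩
        have h1 : undet r col I (j + 1) u = undet r col I j u := by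
          ext x
          simp only [undet, mem_filter, mem_univ, true_and]
          constructor
          · rintro ⟨h1, h2⟩
            exact ⟨h1, by omega⟩
          · rintro ⟨h1, h2⟩
            have := hu' x h1
            exact ⟨h1, by omega⟩
        have h2 : condE μ r col f I (j + 1) u = condE μ r col f I j u := by
          funext b
          unfold condE
          rw [h1]
        rw [h2]
        refine condE_dep hf I j u _ _ fun x hx => ?_
        simp only [seedsM]
        rw [if_neg (hu' x hx)]
  refine le_trans (le_of_eq ?_) ((key K).trans (mul_le_mul' (pow_le_pow_right₀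
    (by exact_mod_cast hM0) (hP I hI u _ fun j hj => (mem_filter.1 hj).2)) (le_of_eq ?_)))
  · have : undet r col I K u = ∅ := by
      ext x
      have := hK I hI x
      simp only [undet, mem_filter, mem_univ, true_and, notMem_empty, iff_false, not_and]
      omega
    unfold condE
    rw [this, lmarginal_empty]
  · rw [lintegral_eq_lmarginal_univ (seedsM μ r c col f M o I 0),
      lmarg_filter (B := fun x => Near I.G r u x) (hm I u) (f_dep hf I u)]
    unfold condE
    congr 1
    ext x
    simp [undet]

end Pool.Agent.Lib.MP_559647_lc.P65
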