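import Pool.Agent.Lib.MP_559647_lc.T20Walk

/-! Hubs, their levels, and bounded independence away from hubs. -/

namespace Pool.Agent.Lib.MP_559647_lc.T20

open Finset SimpleGraph M64

variable {V : Type} {G : SimpleGraph V}

/-- `k` separated walks start near `z` and end in `Y` -/
def Hub (G : SimpleGraph V) (k u Λ : ℕ) (Y : V → Prop) (z : V) : Prop :=
  ∃ γ : Fin k → ℕ → V, (∀ i, Lazy G (γ i) ∧ (∀ c, Λ ≤ c → γ i c = γ i Λ) ∧
    Near G (3 * u + 1) z (γ i 0) ∧ Y (γ i Λ)) ∧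
    ∀ i j, i ≠ j → (∀ a b, ¬ Near G u (γ i a) (γ j b)) ∧ ¬ Near G (17 * u) (γ i Λ) (γ j Λ)

lemma Hub.mono {k u Λ : ℕ} {Y Y' : V → Prop} {z : V} (h : Hub G k u Λ Y z)
    (hY : ∀ x, Y x → Y' x) : Hub G k u Λ Y' z := by
  obtain ⟨γ, h1, h2⟩ := h
  exact ⟨γ, fun i => ⟨(h1 i).1, (h1 i).2.1, (h1 i).2.2.1, hY _ (h1 i).2.2.2⟩, h2⟩

/-- the levels of hubs -/
def lev (G : SimpleGraph V) (k u Λ : ℕ) : ℕ → V → Prop
  | 0 => fun _ => True
  | t + 1 => Hub G k u Λ (lev G k u Λ t)

lemma lev_succ {k u Λ : ℕ} : ∀ t x, lev G k u Λ (t + 1) x → lev G k u Λ t x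
  | 0, _, _ => trivial
  | t + 1, _, h => Hub.mono h (lev_succ t)

lemma lev_anti {k u Λ s t : ℕ} (hst : s ≤ t) (x : V) (h : lev G k u Λ t x) : lev G k u Λ s x := by
  induction t, hst using Nat.le_induction with
  | base => exact h
  | succ t _ ih => exact ih (lev_succ t x h)

lemma fin_of_card {ι : Type} {I : Finset ι} {k : ℕ} (h : I.card = k) :
    ∃ φ : Fin k → ι, Function.Injective φ ∧ ∀ n, φ n ∈ I :=
  ⟨fun n => ((equivFinOfCardEq h).symm n).1,
    Subtype.val_injective.comp (equivFinOfCardEq h).symm.injective,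
    fun n => ((equivFinOfCardEq h).symm n).2⟩

theorem bi {ι : Type} {k u lam : ℕ} (hk : 2 ≤ k) (Y : V → Prop) (F : Finset ι) (x0 : V)
    (e : ι → V) (T : ι → V → Prop)
    (hw : ∀ i ∈ F, Wk G (lam * (u + 1)) x0 (e i) (T i) ∧ Y (e i))
    (hs : ∀ i ∈ F, ∀ j ∈ F, i ≠ j → ¬ Near G (17 * u) (e i) (e j))
    (hP : (2 * (lam + 1) * k) ^ lam < F.card) :
    ∃ i ∈ F, ∃ z, T i z ∧ Hub G k u (lam * (u + 1)) Y z ∧
      ∃ j ∈ F, j ≠ i ∧ ∃ p, T j p ∧ Near G (2 * u) z p := by
  classical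
  by_contra hno
  have : Nonempty V := ⟨x0⟩
  have hw1 := fun i hi => (hw i hi).1
  choose! γ g1 g2 g3 g4 using hw1
  set Λ := lam * (u + 1) with hΛ
  let E : ℕ → ι → ι → Prop := fun a i j =>
    ∃ b c, a * (u + 1) ≤ b ∧ a * (u + 1) ≤ c ∧ Near G u (γ i b) (γ j c)
  have hsym : ∀ a i j, E a i j → E a j i := fun a i j ⟨b, c, h1, h2, h3⟩ => ⟨c, b, h2, h1, h3.symm⟩
  have key : ∀ m a, a + m = lam → ∀ i ∈ F,
      (F.filter fun j => E a i j).card ≤ (2 * (lam + 1) * k) ^ m := by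
    intro m
    induction m with
    | zero =>
      intro a ha i hi
      rw [pow_zero, ← card_singleton i]
      refine card_le_card fun j hj => ?_
      obtain ⟨hj, b, c, h1, h2, h3⟩ := mem_filter.1 hj
      have : a = lam := by omega
      subst this
      rw [g3 i hi b h1, g3 j hj c h2] at h3
      by_contra hne
      exact hs i hi j hj (fun h => hne (by simp [h])) (h3.mono (by omega))
    | succ m ih =>
      intro a ha i hi
      by_contra hlt
      set D := (2 * (lam + 1) * k) ^ m with hD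
      have hD1 : 1 ≤ D := Nat.one_le_pow _ _ (by positivity)
      have haΛ : a * (u + 1) ≤ Λ := Nat.mul_le_mul_right _ (by omega)
      have hE : ∀ j ∈ F.filter fun j => E a i j, ∃ b c, b ≤ Λ ∧ a * (u + 1) ≤ c ∧
          Near G u (γ i b) (γ j c) := by
        intro j hj
        obtain ⟨-, b, c, -, h2, h3⟩ := mem_filter.1 hj
        rcases le_total b Λ with hb | hb
        · exact ⟨b, c, hb, h2, h3⟩
        · exact ⟨Λ, c, le_rfl, h2, by rw [g3 i hi Λ le_rfl, ← g3 i hi b hb]; exact h3⟩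
      choose! b c hb hc hn using hE
      obtain ⟨w, -, hw'⟩ := exists_lt_card_fiber_of_mul_lt_card_of_maps_to
        (s := F.filter fun j => E a i j) (t := range (lam + 1)) (f := fun j => b j / (u + 1))
        (n := (D + 1) * k) (fun j hj => mem_range.2 (Nat.lt_succ_of_le
          (Nat.div_le_of_le_mul (by rw [mul_comm]; exact hb j hj)))) (by
          rw [card_range]
          refine lt_of_le_of_lt ?_ (not_le.1 hlt)
          rw [pow_succ, ← hD]
          calc (lam + 1) * ((D + 1) * k) ≤ (lam + 1) * ((D + D) * k) := by gcongr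
            _ = _ := by ring)
      obtain ⟨I, hI, hcard, hind⟩ := indep (E (a + 1)) (hsym _) D k _ (fun F' hF' ⟨x, hx⟩ =>
        ⟨x, hx, (card_le_card fun y hy => mem_filter.2 ⟨(mem_filter.1 (mem_filter.1
          (hF' (mem_filter.1 hy).1)).1).1, (mem_filter.1 hy).2.2⟩).trans (ih (a + 1) (by omega) x
          (mem_filter.1 (mem_filter.1 (hF' hx)).1).1)⟩) hw'.le
      obtain ⟨φ, φ1, φ2⟩ := fin_of_card hcard
      have hφ := fun n => mem_filter.1 (hI (φ2 n))
      have hφF := fun n => (mem_filter.1 (hφ n).1).1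
      have hz : ∀ n, Near G (2 * u) (γ i (w * (u + 1))) (γ (φ n) (c (φ n))) := fun n => by
        have e1 := Nat.div_add_mod (b (φ n)) (u + 1)
        have e3 := Nat.mod_lt (b (φ n)) (show 0 < u + 1 by omega)
        have e2 : b (φ n) / (u + 1) = w := (hφ n).2
        rw [e2, mul_comm] at e1
        exact ((g1 i hi).near (j := u) (by omega) (by omega)).trans' (hn _ (hφ n).1) (by omega)
      refine hno ⟨i, hi, γ i (w * (u + 1)), g4 i hi _,
        ⟨fun n x => γ (φ n) (max (c (φ n)) ((a + 1) * (u + 1)) + x), fun n => ⟨fun x =>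
          g1 _ (hφF n) _, fun x hx => ?_, ?_, ?_⟩, fun n n' hnn => ⟨fun x y h => ?_, ?_⟩⟩, ?_⟩
      · simp only
        rw [g3 _ (hφF n) _ (by omega), g3 _ (hφF n) _ (by omega)]
      · have := hc _ (hφ n).1
        have e : (a + 1) * (u + 1) = a * (u + 1) + (u + 1) := by ring
        exact (hz n).trans' ((g1 _ (hφF n)).near (j := u + 1) (by omega) (by omega)) (by omega)
      · simp only
        rw [g3 _ (hφF n) _ (by omega)]
        exact (hw _ (hφF n)).2
      · exact hind _ (φ2 n) _ (φ2 n') (φ1.ne hnn) ⟨_, _, by omega, by omega, h⟩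
      · simp only
        rw [g3 _ (hφF n) _ (by omega), g3 _ (hφF n') _ (by omega)]
        exact hs _ (hφF n) _ (hφF n') (φ1.ne hnn)
      · by_cases h0 : φ ⟨0, by omega⟩ = i
        · refine ⟨φ ⟨1, by omega⟩, hφF _, fun h1 => ?_, _, g4 _ (hφF _) _, hz _⟩
          have := φ1 (h0.trans h1.symm)
          simp at this
        · exact ⟨_, hφF _, h0, _, g4 _ (hφF _) _, hz _⟩
  obtain ⟨i, hi⟩ : F.Nonempty := card_pos.1 (by omega)
  have := key lam 0 (by omega) i hi
  rw [filter_true_of_mem fun j hj => ⟨0, 0, by omega, by omega, by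
    rw [g2 i hi, g2 j hj]; exact near_refl _ _⟩] at this
  omega

/-- away from the next level, few far apart ends can be reached -/
lemma bi_le {ι : Type} {k u lam t : ℕ} (hk : 2 ≤ k) (F : Finset ι) (x0 : V) (e : ι → V)
    (hw : ∀ i ∈ F, Wk G (lam * (u + 1)) x0 (e i)
      (fun z => ¬ lev G k u (lam * (u + 1)) (t + 1) z) ∧ lev G k u (lam * (u + 1)) t (e i))
    (hs : ∀ i ∈ F, ∀ j ∈ F, i ≠ j → ¬ Near G (17 * u) (e i) (e j)) :
    F.card ≤ (2 * (lam + 1) * k) ^ lam := by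
  by_contra h
  obtain ⟨i, -, z, h1, h2, -⟩ := bi hk _ F x0 e _ hw hs (not_le.1 h)
  exact h1 h2

end Pool.Agent.Lib.MP_559647_lc.T20
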