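import Pool.Agent.Lib.MP_559647_lc.T20Core
import Pool.Agent.Lib.MP_559647_lc.T20BI

/-! The levels of hubs shrink geometrically. -/

namespace Pool.Agent.Lib.MP_559647_lc.T20

open Finset SimpleGraph M64 M64.MaderAux M64.M64SparseAux

variable {V : Type} {G : SimpleGraph V}

lemma act {ι : Type} [DecidableEq V] (A : Finset V) (Lg : Finset ι) (M T : ι → Finset V) (m : ℕ)
    (h : ∀ l ∈ Lg, T l ⊆ M l ∧ M l ⊆ A ∧ (M l).card ≤ m) :
    ∃ A' ⊆ A, Lg.card ≤ 2 ^ m * (Lg.filter fun l => A' ∩ M l = T l).card := by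
  obtain ⟨A', hA', hle⟩ := exists_le_of_sum_le (s := A.powerset) (f := fun _ => Lg.card)
    (g := fun A' => 2 ^ m * (Lg.filter fun l => A' ∩ M l = T l).card) ⟨∅, by simp⟩ (by
      rw [← mul_sum, sum_const, card_powerset, smul_eq_mul]
      simp only [card_filter]
      rw [sum_comm, mul_sum, mul_comm, ← smul_eq_mul]
      refine card_nsmul_le_sum _ _ _ fun l hl => ?_
      obtain ⟨h1, h2, h3⟩ := h l hl
      rw [← card_filter]
      have a1 : 2 ^ (A \ M l).card ≤ (A.powerset.filter fun A' => A' ∩ M l = T l).card := by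
        rw [← card_powerset]
        refine card_le_card_of_injOn (fun X => X ∪ T l) (fun X hX => ?_) fun X hX X' hX' e => ?_
        · have hX : X ⊆ A \ M l := mem_powerset.1 hX
          refine mem_coe.2 (mem_filter.2 ⟨mem_powerset.2 (union_subset (hX.trans sdiff_subset)
            (h1.trans h2)), ?_⟩)
          ext y
          simp only [mem_inter, mem_union]
          exact ⟨fun a => a.1.resolve_left fun b => (mem_sdiff.1 (hX b)).2 a.2,
            fun a => ⟨Or.inr a, h1 a⟩⟩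
        · have hX : X ⊆ A \ M l := mem_powerset.1 hX
          have hX' : X' ⊆ A \ M l := mem_powerset.1 hX'
          have e : X ∪ T l = X' ∪ T l := e
          ext y
          constructor
          · exact fun a => (mem_union.1 (e ▸ mem_union_left _ a)).resolve_right
              fun b => (mem_sdiff.1 (hX a)).2 (h1 b)
          · exact fun a => (mem_union.1 (e.symm ▸ mem_union_left _ a)).resolve_right
              fun b => (mem_sdiff.1 (hX' a)).2 (h1 b)
      have a2 := card_sdiff_add_card_eq_card h2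
      calc 2 ^ A.card ≤ 2 ^ (m + (A \ M l).card) := Nat.pow_le_pow_right (by norm_num) (by omega)
        _ ≤ _ := by rw [pow_add]; exact Nat.mul_le_mul_left _ a1)
  exact ⟨A', mem_powerset.1 hA', hle⟩

lemma pairs_dir {ι : Type} (Rel : ι → ι → Prop) (D : ℕ) (F : Finset ι)
    (h : ∀ j, ∀ I : Finset ι, (∀ i ∈ I, Rel i j) → I.card ≤ D) (W : Finset (ι × ι))
    (hW : ∀ p ∈ W, p.1 ∈ F ∧ p.2 ∈ F ∧ p.1 ≠ p.2 ∧ (Rel p.1 p.2 ∨ Rel p.2 p.1)) :
    W.card ≤ (D + D) * F.card := by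
  classical
  have a : W ⊆ (F.biUnion fun j => (F.filter fun i => Rel i j).image fun i => (i, j)) ∪
      F.biUnion fun j => (F.filter fun i => Rel i j).image fun i => (j, i) := by
    intro p hp
    obtain ⟨h1, h2, -, h3 | h3⟩ := hW p hp
    · exact mem_union_left _ (mem_biUnion.2 ⟨_, h2, mem_image.2 ⟨_, mem_filter.2 ⟨h1, h3⟩, rfl⟩⟩)
    · exact mem_union_right _ (mem_biUnion.2 ⟨_, h1, mem_image.2 ⟨_, mem_filter.2 ⟨h2, h3⟩, rfl⟩⟩)
  refine (card_le_card a).trans ((card_union_le _ _).trans ?_)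
  rw [add_mul, mul_comm D]
  exact add_le_add (card_biUnion_le_card_mul _ _ _ fun j _ =>
      card_image_le.trans (h j _ fun i hi => (mem_filter.1 hi).2))
    (card_biUnion_le_card_mul _ _ _ fun j _ =>
      card_image_le.trans (h j _ fun i hi => (mem_filter.1 hi).2))

lemma conn_bl (r : ℕ) (v : V) : Conn G (bl G r v) :=
  conn_of_root (x := v) (near_refl _ _) fun _ hx => (near_within subset_rfl hx).reachable.symm

/-- one step in front of a walk -/
def cons (p : V) (γ : ℕ → V) : ℕ → V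
  | 0 => p
  | c + 1 => γ c

/-- the loss in the comparison of two consecutive levels -/
def cH (h lam : ℕ) : ℕ :=
  2 ^ (lam + 7 + 1) * (2 ^ h + (2 ^ h + 1) * ((lam + 7 + 1 + (lam + 7 + 1)) * (2 ^ h * (1 + 2 ^ h))))

theorem lemH {h k u lam K : ℕ} (hG : ¬ CliqueMinor G h) (hk : (2 * lam + 3) * (K * cH h lam) < k)
    (Y : V → Prop) (Z : Finset V) (hZ : ∀ z ∈ Z, Y z ∧ Hub G k u (lam * (u + 1)) Y z)
    (hs : ∀ x ∈ Z, ∀ y ∈ Z, x ≠ y → ¬ Near G (7 * u) x y) :
    ∃ A : Finset V, (∀ a ∈ A, Y a) ∧ (∀ x ∈ A, ∀ y ∈ A, x ≠ y → ¬ Near G (7 * u) x y) ∧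
      K * Z.card ≤ A.card := by
  classical
  rcases Z.eq_empty_or_nonempty with rfl | ⟨z0, -⟩
  · exact ⟨∅, by simp, by simp, by simp⟩
  have : Nonempty V := ⟨z0⟩
  set Λ := lam * (u + 1) with hΛ
  have hZ2 := fun z hz => (hZ z hz).2
  choose! γ g1 g2 using hZ2
  obtain ⟨A, a1, a2, a3, a4⟩ := exists_net (Near G (7 * u)) (fun _ _ a => a.symm)
    (near_refl _) Z (Z ∪ (Z ×ˢ univ).image fun l : V × Fin k => γ l.1 l.2 Λ) subset_union_left hs
  have a5 : ∀ z ∈ Z, ∀ i, ∃ a ∈ A, Near G (7 * u) (γ z i Λ) a := fun z hz i =>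
    a4 _ (mem_union_right _ (mem_image.2 ⟨(z, i), mem_product.2 ⟨hz, mem_univ _⟩, rfl⟩))
  choose! a a6 a7 using a5
  have ainj : ∀ z ∈ Z, ∀ i j, i ≠ j → a z i ≠ a z j := fun z hz i j hij e =>
    (g2 z hz i j hij).2 ((a7 z hz i).trans' (e ▸ (a7 z hz j).symm) (by omega))
  refine ⟨A, fun x hx => ?_, a3, ?_⟩
  · rcases mem_union.1 (a2 hx) with b | b
    · exact (hZ x b).1
    · obtain ⟨l, hl, rfl⟩ := mem_image.1 b
      exact (g1 _ (mem_product.1 hl).1 _).2.2.2
  let Rel : V → Fin k → Fin k → Prop := fun z i j => ∃ c, Near G (8 * u) (γ z i Λ) (γ z j c)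
  have hI : ∀ z ∈ Z, ∃ I : Finset (Fin k), I.card = K * cH h lam ∧ (∀ i ∈ I, a z i ≠ z) ∧
      ∀ i ∈ I, ∀ j ∈ I, i ≠ j → ¬ (Rel z i j ∨ Rel z j i) := by
    intro z hz
    obtain ⟨I, b1, b2, b3⟩ := indep (fun i j => Rel z i j ∨ Rel z j i) (fun _ _ a => a.symm)
      (lam + 1 + (lam + 1)) (K * cH h lam) (univ.filter fun i => a z i ≠ z) (fun F _ hne =>
        degen _ _ F hne (pairs_dir (Rel z) (lam + 1) F fun j I hI => by
          refine block (g1 z hz j).1 I (fun i => γ z i Λ) (8 * u) u lam (fun i hi => ?_)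
            fun i _ i' _ hne hn => (g2 z hz i i' hne).2 (hn.mono (by omega))
          obtain ⟨c, hc⟩ := hI i hi
          rcases le_total c Λ with h' | h'
          · exact ⟨c, h', hc⟩
          · exact ⟨Λ, le_rfl, (g1 z hz j).2.1 c h' ▸ hc⟩)) (by
        have b1 := card_filter_add_card_filter_not (s := univ) fun i => a z i ≠ z
        have b2 : (univ.filter fun i => ¬ a z i ≠ z).card ≤ 1 := card_le_one.2 fun i hi j hj => by
          by_contra hne
          exact ainj z hz i j hne ((not_not.1 (mem_filter.1 hi).2).trans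
            (not_not.1 (mem_filter.1 hj).2).symm)
        rw [card_univ, Fintype.card_fin] at b1
        rw [show lam + 1 + (lam + 1) + 1 = 2 * lam + 3 by ring]
        omega)
    exact ⟨I, b2, fun i hi => (mem_filter.1 (b1 hi)).2, b3⟩
  choose! I i1 i2 i3 using hI
  have hδ : ∀ z ∈ Z, ∀ i, ∃ Γ : ℕ → V, Lazy G Γ ∧ Near G (3 * u) z (Γ 0) ∧
      Γ ((lam + 7) * (u + 1)) = a z i ∧
      ∀ c, 1 ≤ c → (∃ c', Γ c = γ z i c') ∨ Near G (7 * u) (γ z i Λ) (Γ c) := by
    intro z hz i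
    obtain ⟨b1, b2, b3, -⟩ := g1 z hz i
    obtain ⟨δ, d1, d2, d3, d4⟩ := Wk.trans (G := G) (L := Λ) (p := γ z i 0) (q := γ z i Λ)
      (T := fun p => (∃ c', p = γ z i c') ∨ Near G (7 * u) (γ z i Λ) p)
      ⟨γ z i, b1, rfl, b2, fun c => Or.inl ⟨c, rfl⟩⟩
      ((wk_left (a7 z hz i) le_rfl).mono le_rfl fun _ => Or.inr)
    obtain ⟨π, e1, e2, e3⟩ := geo b3
    have e4 : (lam + 7) * (u + 1) = (Λ + 7 * u + 6) + 1 := by rw [hΛ]; ring
    refine ⟨cons (π (3 * u)) δ, fun c => ?_, e2 ▸ e1.near (by omega) (by omega), ?_, fun c hc => ?_⟩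
    · cases c with
      | zero =>
        have := e1 (3 * u)
        rw [e3 (3 * u + 1) le_rfl, ← d2] at this
        exact this
      | succ c => exact d1 c
    · rw [e4]
      exact d3 _ (by omega)
    · obtain ⟨c, rfl⟩ := Nat.exists_eq_add_of_le' hc
      exact d4 c
  choose! Γ d1 d2 d3 d4 using hδ
  set L := (lam + 7) * (u + 1) with hL
  let M : (Σ _ : V, Fin k) → Finset V := fun l =>
    A.filter fun b => ∃ c ≤ L, Near G (3 * u) b (Γ l.1 l.2 c)
  obtain ⟨A', hA', hle⟩ := act A (Z.sigma I) M (fun l => {l.1, a l.1 l.2}) (lam + 7 + 1) (by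
    intro l hl
    have hz := (mem_sigma.1 hl).1
    refine ⟨insert_subset (mem_filter.2 ⟨a1 hz, 0, by omega, d2 _ hz _⟩) (singleton_subset_iff.2
      (mem_filter.2 ⟨a6 _ hz _, L, le_rfl, d3 _ hz _ ▸ near_refl _ _⟩)), filter_subset _ _, ?_⟩
    exact block (d1 _ hz l.2) _ id (3 * u) u (lam + 7) (fun b hb => (mem_filter.1 hb).2)
      fun b hb b' hb' hne hn => a3 b (mem_filter.1 hb).1 b' (mem_filter.1 hb').1 hne
        (hn.mono (by omega)))
  have hc := core (u := u) (M := lam + 7 + 1) (L := L) hG A' (bl G (3 * u))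
    (fun b _ => conn_bl _ b) (fun b hb b' hb' hne => Set.disjoint_left.2 fun x h1 h2 =>
      a3 b (hA' hb) b' (hA' hb') hne (Near.trans' h1 (Near.symm h2) (by omega)))
    ((Z.sigma I).filter fun l => A' ∩ M l = {l.1, a l.1 l.2}) (fun l => l.1) (fun l => a l.1 l.2)
    (fun l => Γ l.1 l.2) (by
      intro l hl
      obtain ⟨hl, e⟩ := mem_filter.1 hl
      obtain ⟨hz, hi⟩ := mem_sigma.1 hl
      refine ⟨(mem_inter.1 (e ▸ mem_insert_self _ _)).1,
        (mem_inter.1 (e ▸ mem_insert_of_mem (mem_singleton_self _))).1, (i2 _ hz _ hi).symm,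
        d1 _ hz _, d2 _ hz _, d3 _ hz _ ▸ near_refl _ _, fun c hc b hb hn => ?_,
        (d1 _ hz _).thin u (lam + 7)⟩
      have : b ∈ A' ∩ M l := mem_inter.2 ⟨hb, mem_filter.2 ⟨hA' hb, c, hc, hn⟩⟩
      rw [e] at this
      simpa using this) (by
      rintro ⟨z, i⟩ hl ⟨z', j⟩ hl' hne (rfl : z = z')
      obtain ⟨hz, hi⟩ := mem_sigma.1 (mem_filter.1 hl).1
      have hj := (mem_sigma.1 (mem_filter.1 hl').1).2
      have hij : i ≠ j := fun e => hne (e ▸ rfl)
      refine ⟨ainj z hz i j hij, fun c c' hc hc' hn => ?_⟩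
      rcases d4 z hz i c hc with ⟨b, e⟩ | e <;> rcases d4 z hz j c' hc' with ⟨b', e'⟩ | e'
      · exact (g2 z hz i j hij).1 b b' (e ▸ e' ▸ hn)
      · exact i3 z hz i hi j hj hij (Or.inr ⟨b, e ▸ e'.trans' hn.symm (by omega)⟩)
      · exact i3 z hz i hi j hj hij (Or.inl ⟨b', e' ▸ e.trans' hn (by omega)⟩)
      · exact (g2 z hz i j hij).2 ((e.trans hn).trans' e'.symm (by omega)))
  rw [card_sigma, sum_congr rfl i1, sum_const, smul_eq_mul] at hle
  have hpos : 0 < cH h lam := by unfold cH; positivity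
  refine Nat.le_of_mul_le_mul_right ?_ hpos
  calc K * Z.card * cH h lam = Z.card * (K * cH h lam) := by ring
    _ ≤ _ := hle.trans (Nat.mul_le_mul_left _ (hc.trans (Nat.mul_le_mul_left _ (card_le_card hA'))))
    _ = _ := by unfold cH; ring

lemma lev_empty {N h k u lam K n j : ℕ} (I : Inst N) (hI : I.S.card ≤ n)
    (hG : ¬ CliqueMinor I.G h) (hk : (2 * lam + 3) * (K * cH h lam) < k) (hk2 : 2 ≤ k)
    (hn : n < K ^ j) (z : Fin N) : ¬ lev I.G k u (lam * (u + 1)) (j + 1) z := by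
  have key : ∀ i, ∀ Z : Finset (Fin N), (∀ z ∈ Z, lev I.G k u (lam * (u + 1)) (i + 1) z) →
      (∀ x ∈ Z, ∀ y ∈ Z, x ≠ y → ¬ Near I.G (7 * u) x y) → K ^ i * Z.card ≤ n := by
    intro i
    induction i with
    | zero =>
      intro Z hZ _
      rw [pow_zero, one_mul]
      refine (card_le_card fun z hz => ?_).trans hI
      obtain ⟨γ, h1, h2⟩ := hZ z hz
      by_contra hS
      have : ∀ i, γ i 0 = z := fun i => by
        obtain ⟨p, -⟩ := near_iff_walk.1 (h1 i).2.2.1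
        cases p with
        | nil => rfl
        | cons a _ => exact absurd (I.mem_of_adj _ _ a) hS
      refine (h2 ⟨0, by omega⟩ ⟨1, by omega⟩ (by simp)).1 0 0 ?_
      rw [this, this]
      exact near_refl _ _
    | succ i ih =>
      intro Z hZ hs
      obtain ⟨A, a1, a2, a3⟩ := lemH hG hk _ Z (fun z hz => ⟨lev_succ _ _ (hZ z hz), hZ z hz⟩) hs
      refine le_trans ?_ (ih A a1 a2)
      rw [pow_succ, mul_assoc]
      exact Nat.mul_le_mul_left _ a3
  intro hz
  have := key j {z} (by simpa using hz) (by simp)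
  rw [card_singleton] at this
  omega

end Pool.Agent.Lib.MP_559647_lc.T20
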