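import Pool.Agent.Lib.MP_559647_lc.G56Push
import Pool.Agent.Lib.MP_559647_lc.P65Defs

/-! Running an algorithm for `n`-node instances of a hereditary class on a large instance. -/

namespace Pool.Agent.Lib.MP_559647_lc.P65

open MeasureTheory Finset
open scoped ENNReal

variable {N M n : ℕ} (hn : 0 < n) (hM : n ≤ M)

section Proper

variable {H : ℕ} {I : Inst N}
  (hp : ∀ x y, x ≠ y → Near I.G (2 * H) x y → fc hn hM I x ≠ fc hn hM I y)

lemma push_supp {u : Fin N} {i : Fin M} (hi : i ∈ (push hn hM H I u).G.support) :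
    fc hn hM I (psi hn hM H I u i) = i := by
  obtain ⟨k, -, y, -, hy, -, -, rfl, -⟩ := hi
  exact psi_spec hn hM hy

include hp

lemma push_psi {u : Fin N} {i k : Fin M} (h : (push hn hM H I u).G.Adj i k) :
    I.G.Adj (psi hn hM H I u i) (psi hn hM H I u k) := by
  obtain ⟨-, y, z, hy, hz, hyz, rfl, rfl⟩ := h
  rwa [psi_fc hn hM hp hy, psi_fc hn hM hp hz]

omit hp in
lemma push_inj (u : Fin N) : Set.InjOn (psi hn hM H I u) (push hn hM H I u).G.support :=
  fun i hi k hk e => by rw [← push_supp hn hM hi, e, push_supp hn hM hk]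

lemma push_deg {Δ : ℕ} (hd : Deg Δ I) (u : Fin N) : Deg Δ (push hn hM H I u) := fun i =>
  (Set.ncard_le_ncard_of_injOn (psi hn hM H I u) (fun _ hk => push_psi hn hM hp hk)
    ((push_inj hn hM u).mono fun _ hk => (SimpleGraph.mem_support _).2 ⟨i, SimpleGraph.Adj.symm hk⟩) (Set.toFinite _)).trans
    (hd (psi hn hM H I u i))

lemma push_gr {Gr : (N : ℕ) → SimpleGraph (Fin N) → Prop} (hGr : Hereditary Gr) (hg : Gr N I.G)
    (u : Fin N) : Gr M (push hn hM H I u).G :=
  hGr N M I.G _ (psi hn hM H I u) (push_inj hn hM u) (fun i hi k hk => ⟨push_psi hn hM hp,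
    fun a => ⟨fun e => a.ne (congrArg _ e), _, _, psi_near hn hM I u i, psi_near hn hM I u k, a,
      push_supp hn hM hi, push_supp hn hM hk⟩⟩) hg

end Proper

include hn hM in
theorem push_her {R p Δ : ℕ} {Gr : (N : ℕ) → SimpleGraph (Fin N) → Prop} (hGr : Hereditary Gr)
    {L : Set ℕ}
    {acc : (N : ℕ) → Inst N → (Fin N → ℕ) → Fin N → Prop} (hacc : Checker p acc)
    {Ω : Type} [MeasurableSpace Ω] {μ : Measure Ω} [IsProbabilityMeasure μ]
    {A : Inst M → (Fin M → Ω) → Fin M → ℕ} (hA : LocalWith R A)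
    (hm : ∀ I v, Measurable fun x => A I x v)
    (hs : ∀ I : Inst M, I.S.card = n → Deg Δ I → Gr M I.G → (∀ x ∈ I.S, I.inp x ∈ L) →
      (Measure.pi fun _ => μ) {x | ¬ ∀ v ∈ I.S, acc M I (A I x) v} ≤ 1 / n) :
    ∃ (f : Inst N → (Fin N → Ω) → Fin N → ℝ≥0∞) (A' : Inst N → (Fin N → Ω) → Fin N → ℕ),
      LocalWith (R + p + 1) f ∧ (∀ I u, Measurable fun x => f I x u) ∧ LocalWith (R + p + 1) A' ∧
      ∀ (I : Inst N) (κ : Fin N → ℕ), Deg Δ I → Gr N I.G → (∀ x ∈ I.S, I.inp x ∈ L) → (∀ x, κ x < n) →
        (∀ x y, x ≠ y → Near I.G (2 * (R + p)) x y → κ x ≠ κ y) → ∀ u ∈ I.S,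
          ∫⁻ x, f (lab I κ) x u ∂(Measure.pi fun _ : Fin N => μ) ≤ 1 / n ∧
          ∀ w, f (lab I κ) w u < 1 → acc N I (A' (lab I κ) w) u := by
  classical
  set H := R + p with hH
  let E : Inst M → Fin M → Set (Fin M → Ω) := fun J i => {b | ¬ acc M J (A J b) i}
  have hE : ∀ J i, MeasurableSet (E J i) := by
    intro J i
    have h1 : Measurable fun b => A J b := measurable_pi_lambda _ (hm J)
    exact h1 (Set.to_countable {o : Fin M → ℕ | ¬ acc M J o i}).measurableSet
  have hE' : ∀ (I : Inst N) u, MeasurableSet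
      {x : Fin N → Ω | (fun i => x (psi hn hM H I u i)) ∈ E (push hn hM H I u) (fc hn hM I u)} :=
    fun I u => (measurable_pi_lambda _ fun i => measurable_pi_apply _) (hE _ _)
  refine ⟨fun I x u => Set.indicator
      {x | (fun i => x (psi hn hM H I u i)) ∈ E (push hn hM H I u) (fc hn hM I u)} 1 x,
    fun I x u => A (push hn hM H I u) (fun i => x (psi hn hM H I u i)) (fc hn hM I u),
    fun I J x x' u hv hx => ?_, fun I u => measurable_one.indicator (hE' I u),
    fun I J x x' u hv hx => ?_, fun I κ hd hg hL hκ hprop u hu => ?_⟩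
  · have e : (fun i => x (psi hn hM H I u i)) = fun i => x' (psi hn hM H I u i) :=
      funext fun i => hx _ ((psi_near hn hM I u i).mono (Nat.le_succ H))
    simp only [Set.indicator, Set.mem_ofPred_eq, Pi.one_apply]
    rw [← push_view hn hM hv, ← psi_view hn hM hv, ← fc_view hn hM hv (near_refl _ _), e]
  · have e : (fun i => x (psi hn hM H I u i)) = fun i => x' (psi hn hM H I u i) :=
      funext fun i => hx _ ((psi_near hn hM I u i).mono (Nat.le_succ H))
    simp only
    rw [← push_view hn hM hv, ← psi_view hn hM hv, ← fc_view hn hM hv (near_refl _ _), e]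
  · have hp : ∀ x y, x ≠ y → Near (lab I κ).G (2 * H) x y →
        fc hn hM (lab I κ) x ≠ fc hn hM (lab I κ) y := by
      intro x y hxy hn' e
      have := congrArg Fin.val e
      simp only [fc, lab, Nat.unpair_pair, Nat.mod_eq_of_lt (hκ _)] at this
      exact hprop x y hxy hn' this
    set J := push hn hM H (lab I κ) u with hJ
    constructor
    · rw [lintegral_indicator_one (hE' _ _), meas_rename (μ := μ)
        (D := fun k => Near J.G H (fc hn hM (lab I κ) u) k) ?_ (hE _ _) ?_]
      · refine le_trans (measure_mono fun b hb => ?_) (hs J ?_ (push_deg hn hM hp hd u)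
          (push_gr hn hM hp hGr hg u) ?_)
        · intro h
          refine hb (h _ ?_)
          simp only [hJ, push, mem_filter, mem_univ, true_and, fc]
          exact Nat.mod_lt _ hn
        · simp only [hJ, push]
          rw [Fin.card_filter_val_lt, min_eq_right hM]
        · intro i _
          show (Nat.unpair (Nat.pair (I.inp (psi hn hM H (lab I κ) u i)) _)).1 ∈ L
          rw [Nat.unpair_pair]
          exact hL _ (I.mem_of_reachable (psi_near hn hM (lab I κ) u i).reachable hu)
      · intro i k hi hk e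
        obtain ⟨y, -, hy, rfl⟩ := push_lift hn hM hp (near_refl H u) hi
        obtain ⟨z, -, hz, rfl⟩ := push_lift hn hM hp (near_refl H u) hk
        rw [psi_fc hn hM hp hy, psi_fc hn hM hp hz] at e
        rw [e]
      · intro b b' hb h1 h2
        refine h1 ((hacc M M J _ _ J _ _ (isoView_refl p fun i hi => ?_)).1 h2)
        exact hA J J b b' i (sameView_refl _ _ _) fun k hk => hb k (hi.trans' hk (by omega))
    · intro w hw
      have h1 : acc M J (A J fun i => w (psi hn hM H (lab I κ) u i)) (fc hn hM (lab I κ) u) := by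
        by_contra h
        have h2 : w ∈ {x : Fin N → Ω | (fun i => x (psi hn hM H (lab I κ) u i)) ∈
          E (push hn hM H (lab I κ) u) (fc hn hM (lab I κ) u)} := h
        simp only [Set.indicator_of_mem h2, Pi.one_apply, lt_self_iff_false] at hw
      refine (hacc N M I _ u J _ _ ⟨fc hn hM (lab I κ), rfl, fun x hx y hy e => ?_,
        fun x hx => ?_, fun x hx => ⟨?_, ?_⟩⟩).2 h1
      · exact fc_inj hn hM hp (u := u) (Near.mono hx (by omega)) (Near.mono hy (by omega)) e
      · obtain ⟨s, hs, hx⟩ := edist_lt_iff.1 hx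
        have h3 := push_adj_of hn hM hp (u := u) (y := x) hx (by omega : s < H)
        exact ⟨fun y hy => (h3 _).2 ⟨y, hy, rfl⟩, fun y' hy' => (h3 _).1 hy'⟩
      · show (Nat.unpair ((lab I κ).inp (psi hn hM H (lab I κ) u (fc hn hM (lab I κ) x)))).1 = _
        rw [psi_fc hn hM hp (Near.mono hx (by omega))]
        simp [lab]
      · obtain ⟨h3, h4⟩ := push_same hn hM hp (u := u) (x := x) (j := p) (t := R) hx (by omega)
        exact (hA _ _ _ _ _ h3 fun k hk => by rw [h4 k hk]).symm

end Pool.Agent.Lib.MP_559647_lc.P65
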