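import Pool.Agent.Lib.MP_559647_lc.Basic

/-!
Lazy walks, their number, and the halving of a walk with a set of owned nodes.
-/

namespace Pool.Agent.Lib.MP_559647_lc

open Finset

variable {N : ℕ} {G : SimpleGraph (Fin N)}

open Classical in
/-- the ball of radius `t` around `v` -/
noncomputable def ball (G : SimpleGraph (Fin N)) (t : ℕ) (v : Fin N) : Finset (Fin N) :=
  univ.filter fun x => Near G t v x

lemma mem_ball {t : ℕ} {v x : Fin N} : x ∈ ball G t v ↔ Near G t v x := by
  classical
  simp [ball]

lemma near_succ {t : ℕ} {v x : Fin N} (h : Near G (t + 1) v x) :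
    ∃ y, Near G t v y ∧ Near G 1 y x := by
  obtain ⟨p, hp⟩ := near_iff_walk.1 h.symm
  cases p with
  | nil => exact ⟨_, near_refl _ _, near_refl _ _⟩
  | cons hab q =>
    exact ⟨_, Near.symm (near_iff_walk.2 ⟨q, by simpa using hp⟩), (near_of_adj hab).symm⟩

lemma near_one_iff {x y : Fin N} : Near G 1 x y ↔ x = y ∨ G.Adj x y := by
  constructor
  · intro h
    obtain ⟨p, hp⟩ := near_iff_walk.1 h
    cases p with
    | nil => exact Or.inl rfl
    | cons hab q =>
      have h0 : q.length = 0 := by simpa using hp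
      exact Or.inr (SimpleGraph.Walk.eq_of_length_eq_zero h0 ▸ hab)
  · rintro (rfl | h)
    · exact near_refl _ _
    · exact near_of_adj h

lemma ball_card {D : ℕ} (hD : ∀ x, (ball G 1 x).card ≤ D) (t : ℕ) (v : Fin N) :
    (ball G t v).card ≤ D ^ t := by
  induction t with
  | zero =>
    rw [pow_zero]
    exact card_le_one.2 fun a ha b hb =>
      (near_zero_iff.1 (mem_ball.1 ha)).symm.trans (near_zero_iff.1 (mem_ball.1 hb))
  | succ t ih =>
    have : ball G (t + 1) v ⊆ (ball G t v).biUnion (ball G 1) := by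
      intro x hx
      obtain ⟨y, h1, h2⟩ := near_succ (mem_ball.1 hx)
      exact mem_biUnion.2 ⟨y, mem_ball.2 h1, mem_ball.2 h2⟩
    refine (card_le_card this).trans ((card_biUnion_le_card_mul _ _ D fun x _ => hD x).trans ?_)
    rw [pow_succ]
    exact Nat.mul_le_mul_right _ ih

lemma chain_near_head : ∀ (w : List (Fin N)) (x : Fin N), List.IsChain (Near G 1) (x :: w) →
    ∀ z ∈ w, Near G w.length x z := by
  intro w
  induction w with
  | nil => intro x _ z hz; simp at hz
  | cons y w ih =>
    intro x h z hz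
    rw [List.isChain_cons_cons] at h
    rcases List.mem_cons.1 hz with rfl | hz
    · exact h.1.mono (by simp)
    · exact h.1.trans' (ih y h.2 z hz) (by simp [add_comm])

lemma chain_near : ∀ (w : List (Fin N)), List.IsChain (Near G 1) w →
    ∀ y ∈ w, ∀ z ∈ w, Near G w.length y z := by
  intro w
  induction w with
  | nil => intro _ y hy; simp at hy
  | cons x w ih =>
    intro h y hy z hz
    rcases List.mem_cons.1 hy with rfl | hy' <;> rcases List.mem_cons.1 hz with rfl | hz'
    · exact near_refl _ _
    · exact (chain_near_head w _ h z hz').mono (by simp)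
    · exact (chain_near_head w _ h y hy').symm.mono (by simp)
    · exact (ih h.tail y hy' z hz').mono (by simp)

lemma chain_view {I J : Inst N} : ∀ (w : List (Fin N)) (x : Fin N) (t : ℕ), SameView t x I J →
    w.length ≤ t → List.IsChain (Near I.G 1) (x :: w) → List.IsChain (Near J.G 1) (x :: w) := by
  intro w
  induction w with
  | nil => intro x t _ _ _; simp
  | cons y w ih =>
    intro x t hv ht h
    rw [List.isChain_cons_cons] at h ⊢
    simp only [List.length_cons] at ht
    exact ⟨(hv.near_iff (by omega) y).1 h.1,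
      ih y (t - 1) (hv.shift h.1 (by omega)) (by omega) h.2⟩

/-- all lists of a given length -/
noncomputable def lists (N m : ℕ) : Finset (List (Fin N)) := (List.finite_length_eq (Fin N) m).toFinset

lemma mem_lists {m : ℕ} {w : List (Fin N)} : w ∈ lists N m ↔ w.length = m := by simp [lists]

open Classical in
lemma chains_card {D : ℕ} (hD : ∀ x, (ball G 1 x).card ≤ D) (m : ℕ) : ∀ x : Fin N,
    ((lists N m).filter fun w => List.IsChain (Near G 1) (x :: w)).card ≤ D ^ m := by
  induction m with
  | zero =>
    intro x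
    rw [pow_zero]
    refine card_le_one.2 fun a ha b hb => ?_
    rw [List.length_eq_zero_iff.1 (mem_lists.1 (mem_filter.1 ha).1),
      List.length_eq_zero_iff.1 (mem_lists.1 (mem_filter.1 hb).1)]
  | succ m ih =>
    intro x
    have : ((lists N (m + 1)).filter fun w => List.IsChain (Near G 1) (x :: w)) ⊆
        (ball G 1 x).biUnion fun y =>
          ((lists N m).filter fun w => List.IsChain (Near G 1) (y :: w)).image (List.cons y) := by
      intro w hw
      obtain ⟨h1, h2⟩ := mem_filter.1 hw
      cases w with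
      | nil => simp [mem_lists] at h1
      | cons y w =>
        rw [List.isChain_cons_cons] at h2
        refine mem_biUnion.2 ⟨y, mem_ball.2 h2.1, mem_image.2 ⟨w, mem_filter.2 ⟨?_, h2.2⟩, rfl⟩⟩
        simpa [mem_lists] using h1
    refine (card_le_card this).trans ((card_biUnion_le_card_mul _ _ (D ^ m) fun y _ =>
      card_image_le.trans (ih y)).trans ?_)
    rw [pow_succ']
    exact Nat.mul_le_mul_right _ (hD x)

/-- the two halves of a walk with a set of owned nodes -/
def half (b : Bool) (σ : List (Fin N) × Finset (Fin N)) : List (Fin N) × Finset (Fin N) :=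
  match b with
  | false => (σ.1.take (σ.1.length / 2), σ.2 ∩ (σ.1.take (σ.1.length / 2)).toFinset)
  | true => (σ.1.drop (σ.1.length / 2), σ.2 \ (σ.1.take (σ.1.length / 2)).toFinset)

/-- a lazy walk of `m` nodes with a set of owned nodes -/
def Obj (G : SimpleGraph (Fin N)) (m : ℕ) (σ : List (Fin N) × Finset (Fin N)) : Prop :=
  σ.1.length = m ∧ List.IsChain (Near G 1) σ.1 ∧ σ.2 ⊆ σ.1.toFinset

open Classical in
/-- the objects of twice the length with a given half -/
noncomputable def pars (G : SimpleGraph (Fin N)) (b : Bool) (ω : List (Fin N) × Finset (Fin N)) :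
    Finset (List (Fin N) × Finset (Fin N)) :=
  (lists N (2 * ω.1.length) ×ˢ univ).filter fun σ => Obj G (2 * ω.1.length) σ ∧ half b σ = ω

lemma mem_pars {b : Bool} {ω σ : List (Fin N) × Finset (Fin N)} :
    σ ∈ pars G b ω ↔ Obj G (2 * ω.1.length) σ ∧ half b σ = ω := by
  classical
  simp only [pars, mem_filter, mem_product, mem_lists, mem_univ, and_true]
  exact ⟨fun h => h.2, fun h => ⟨h.1.1, h⟩⟩

lemma half_sub (b : Bool) (σ : List (Fin N) × Finset (Fin N)) :
    (half b σ).2 ⊆ σ.2 ∧ ∀ z ∈ (half b σ).1, z ∈ σ.1 := by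
  cases b
  · exact ⟨inter_subset_left, fun z hz => List.mem_of_mem_take hz⟩
  · exact ⟨sdiff_subset, fun z hz => List.mem_of_mem_drop hz⟩

lemma half_obj {m : ℕ} {σ : List (Fin N) × Finset (Fin N)} (h : Obj G (2 * m) σ) (b : Bool) :
    Obj G m (half b σ) := by
  obtain ⟨h1, h2, h3⟩ := h
  cases b
  · exact ⟨by simp [half, h1]; omega, h2.take _, inter_subset_right⟩
  · refine ⟨by simp [half, h1]; omega, h2.drop _, fun z hz => ?_⟩
    obtain ⟨a1, a2⟩ := mem_sdiff.1 hz
    have a3 := List.mem_toFinset.1 (h3 a1)
    rw [← List.take_append_drop (σ.1.length / 2) σ.1, List.mem_append] at a3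
    exact List.mem_toFinset.2 (a3.resolve_left fun h => a2 (List.mem_toFinset.2 h))

lemma half_union (σ : List (Fin N) × Finset (Fin N)) :
    σ.2 = (half false σ).2 ∪ (half true σ).2 ∧ Disjoint (half false σ).2 (half true σ).2 :=
  ⟨by rw [union_comm]; exact (sdiff_union_inter _ _).symm, disjoint_sdiff_inter _ _ |>.symm⟩

lemma pars_card {D : ℕ} (hD : ∀ x, (ball G 1 x).card ≤ D) (b : Bool)
    {ω : List (Fin N) × Finset (Fin N)} {y : Fin N} (hy : y ∈ ω.1) :
    (pars G b ω).card ≤ (2 * D ^ 2) ^ (2 * ω.1.length) := by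
  classical
  have hpos : 0 < ω.1.length := List.length_pos_of_mem hy
  set m := 2 * ω.1.length with hm
  have hD1 : 1 ≤ D := le_trans (card_pos.2 ⟨y, mem_ball.2 (near_refl _ _)⟩) (hD y)
  have : pars G b ω ⊆ (ball G m y).biUnion fun x =>
      ((lists N (m - 1)).filter fun w => List.IsChain (Near G 1) (x :: w)).biUnion fun w =>
        {x :: w} ×ˢ (x :: w).toFinset.powerset := by
    rintro ⟨u, S⟩ hσ
    obtain ⟨⟨h1, h2, h3⟩, h4⟩ := mem_pars.1 hσ
    have hyu : y ∈ u := (half_sub b (u, S)).2 y (h4.symm ▸ hy)
    cases u with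
    | nil => simp at hyu
    | cons x w =>
      have h5 := chain_near _ h2 y hyu x (by simp)
      simp only at h1
      rw [h1] at h5
      refine mem_biUnion.2 ⟨x, mem_ball.2 h5, mem_biUnion.2 ⟨w, mem_filter.2 ⟨?_, h2⟩, ?_⟩⟩
      · rw [mem_lists]
        simp only [List.length_cons] at h1
        omega
      · exact mem_product.2 ⟨mem_singleton_self _, mem_powerset.2 h3⟩
  refine (card_le_card this).trans ((card_biUnion_le_card_mul _ _ (D ^ m * 2 ^ m) fun x _ =>
    (card_biUnion_le_card_mul _ _ (2 ^ m) fun w hw => ?_).trans ?_).trans ?_)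
  · rw [card_product, card_singleton, one_mul, card_powerset]
    refine Nat.pow_le_pow_right (by norm_num) ((List.toFinset_card_le _).trans ?_)
    have := mem_lists.1 (mem_filter.1 hw).1
    simp only [List.length_cons]
    omega
  · exact Nat.mul_le_mul_right _ ((chains_card hD _ x).trans (Nat.pow_le_pow_right hD1 (by omega)))
  · calc (ball G m y).card * (D ^ m * 2 ^ m) ≤ D ^ m * (D ^ m * 2 ^ m) :=
          Nat.mul_le_mul_right _ (ball_card hD m y)
      _ = (2 * D ^ 2) ^ m := by ring

lemma obj_view {I J : Inst N} {m t : ℕ} {y : Fin N} (hv : SameView t y I J) (ht : 2 * m ≤ t)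
    {σ : List (Fin N) × Finset (Fin N)} (hy : y ∈ σ.1) (h : Obj I.G m σ) : Obj J.G m σ := by
  obtain ⟨u, S⟩ := σ
  obtain ⟨h1, h2, h3⟩ := h
  refine ⟨h1, ?_, h3⟩
  cases u with
  | nil => simp
  | cons x w =>
    have h5 := chain_near _ h2 y hy x (by simp)
    simp only at h1
    rw [h1] at h5
    simp only [List.length_cons] at h1
    exact chain_view w x m (hv.shift h5 (by omega)) (by omega) h2

lemma pars_view {I J : Inst N} {t : ℕ} {y : Fin N} (hv : SameView t y I J) (b : Bool)
    {ω : List (Fin N) × Finset (Fin N)} (hy : y ∈ ω.1) (ht : 4 * ω.1.length ≤ t) :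
    pars I.G b ω = pars J.G b ω := by
  ext σ
  rw [mem_pars, mem_pars]
  constructor
  · rintro ⟨h1, h2⟩
    exact ⟨obj_view hv (by omega) ((half_sub b σ).2 y (h2.symm ▸ hy)) h1, h2⟩
  · rintro ⟨h1, h2⟩
    exact ⟨obj_view hv.symm (by omega) ((half_sub b σ).2 y (h2.symm ▸ hy)) h1, h2⟩

/-- A set whose nodes are reached from `v` inside the set is covered by a short lazy walk. -/
lemma cover {S : Finset (Fin N)} {v : Fin N} (hv : v ∈ S)
    (hS : ∀ u ∈ S, Relation.ReflTransGen (fun x y => G.Adj x y ∧ y ∈ S) v u) {m : ℕ}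
    (hm : 2 * S.card ≤ m) : ∃ w : List (Fin N), Obj G m (v :: w, S) := by
  have key : ∀ k, k + 1 ≤ S.card → ∃ w : List (Fin N), List.IsChain (Near G 1) (v :: w) ∧
      w.length ≤ 2 * k ∧ (v :: w).toFinset ⊆ S ∧ k + 1 ≤ (v :: w).toFinset.card := by
    intro k
    induction k with
    | zero => intro _; exact ⟨[], by simp, by simp, by simpa using hv, by simp⟩
    | succ k ih =>
      intro hk
      obtain ⟨w, h1, h2, h3, h4⟩ := ih (by omega)
      by_cases hc : k + 2 ≤ (v :: w).toFinset.card
      · exact ⟨w, h1, by omega, h3, hc⟩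
      obtain ⟨u, hu, hu'⟩ : ∃ u ∈ S, u ∉ (v :: w).toFinset := by
        by_contra hcon
        push Not at hcon
        have := card_le_card (show S ⊆ (v :: w).toFinset from hcon)
        omega
      obtain ⟨x, y, hx, hy, hxy, hyS⟩ : ∃ x y, x ∈ v :: w ∧ y ∉ v :: w ∧ G.Adj x y ∧ y ∈ S := by
        have h5 := hS u hu
        rw [List.mem_toFinset] at hu'
        clear hu
        induction h5 with
        | refl => exact absurd (by simp) hu'
        | @tail b c _ hbc ih' =>
          by_cases hb : b ∈ v :: w
          · exact ⟨b, c, hb, hu', hbc.1, hbc.2⟩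
          · exact ih' hb
      obtain ⟨w1, w2, hw⟩ := List.append_of_mem hx
      have hch : List.IsChain (Near G 1) (w1 ++ x :: y :: x :: w2) := by
        rw [hw, List.isChain_split] at h1
        rw [List.isChain_split, List.isChain_cons_cons, List.isChain_cons_cons]
        exact ⟨h1.1, near_of_adj hxy, near_of_adj hxy.symm, h1.2⟩
      have hfs : (w1 ++ x :: y :: x :: w2).toFinset = insert y (v :: w).toFinset := by
        rw [hw]
        ext z
        simp only [List.toFinset_append, List.toFinset_cons, mem_union, mem_insert,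
          List.mem_toFinset]
        tauto
      obtain ⟨w', hw'⟩ : ∃ w', w1 ++ x :: y :: x :: w2 = v :: w' := by
        cases w1 with
        | nil =>
          obtain rfl : v = x := by simpa using congrArg List.head? hw
          exact ⟨_, rfl⟩
        | cons a w1 =>
          obtain rfl : v = a := by simpa using congrArg List.head? hw
          exact ⟨_, rfl⟩
      have hl := congrArg List.length hw
      have hl' := congrArg List.length hw'
      simp only [List.length_cons, List.length_append] at hl hl'
      refine ⟨w', hw' ▸ hch, by omega, ?_, ?_⟩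
      · rw [← hw', hfs]
        exact insert_subset hyS h3
      · rw [← hw', hfs, card_insert_of_notMem (fun h => hy (List.mem_toFinset.1 h))]
        omega
  have hpos : 0 < S.card := card_pos.2 ⟨v, hv⟩
  obtain ⟨w, h1, h2, h3, h4⟩ := key (S.card - 1) (by omega)
  have h5 : (v :: w).toFinset = S := eq_of_subset_of_card_le h3 (by omega)
  have grow : ∀ j, ∃ w' : List (Fin N), Obj G (w.length + 1 + j) (v :: w', S) := by
    intro j
    induction j with
    | zero => exact ⟨w, by simp, h1, h5.ge⟩
    | succ j ih =>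
      obtain ⟨w', a1, a2, a3⟩ := ih
      refine ⟨v :: w', by simp only [List.length_cons] at a1 ⊢; omega,
        List.isChain_cons_cons.2 ⟨near_refl _ _, a2⟩, a3.trans fun z hz => ?_⟩
      simpa using hz
  obtain ⟨w', hw'⟩ := grow (m - (w.length + 1))
  exact ⟨w', by rwa [show w.length + 1 + (m - (w.length + 1)) = m by omega] at hw'⟩

end Pool.Agent.Lib.MP_559647_lc
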