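import Pool.Agent.Lib.MP_559647_lc.P65Ply
import Pool.Agent.Lib.MP_559647_lc.P65Der
import Pool.Agent.Lib.MP_559647_lc.P65Push
import Pool.Agent.Lib.MP_559647_lc.G56Main
import Pool.Agent.Lib.MP_559647_lc.V55Walk

/-! The speed-up to logarithmic time with explicit parameters. -/

namespace Pool.Agent.Lib.MP_559647_lc.P65

open MeasureTheory Finset T20
open scoped ENNReal

lemma deg_card {N Δ : ℕ} {I : Inst N} (h : Deg Δ I) (t : ℕ) (v : Fin N) (F : Finset (Fin N))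
    (hF : ∀ u ∈ F, Near I.G t v u) : F.card ≤ (Δ + 1) ^ t := by
  refine (card_le_card fun u hu => mem_ball.2 (hF u hu)).trans (ball_card (fun v => ?_) t v)
  have : (ball I.G 1 v : Set (Fin N)) ⊆ insert v (I.G.neighborSet v) := fun z hz =>
    (near_one_iff.1 (mem_ball.1 hz)).imp Eq.symm id
  rw [← Set.ncard_coe_finset]
  exact (Set.ncard_le_ncard this (Set.toFinite _)).trans ((Set.ncard_insert_le _ _).trans
    (Nat.succ_le_succ (h v)))

lemma clus' {N t β r b k : ℕ} {C : Set (Inst N)} (hN : N ≤ tower k)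
    {ctr : Inst N → Fin N → Fin N} (hc : Loc C t ctr) (h1 : ∀ I ∈ C, ∀ v, Near I.G β v (ctr I v))
    (hdeg : ∀ I ∈ C, ∀ c, ∀ F : Finset (Fin N), (∀ c' ∈ F, Near I.G (β + r + β) c c') →
      F.card ≤ 2 ^ b) :
    ∃ col : Inst N → Fin N → ℕ,
      Loc C (β + (k * (β + r + β) + (β + r + t))) (fun I v => col I (ctr I v)) ∧ ∀ I ∈ C,
      (∀ v, col I v < 2 ^ (4 * b + 18)) ∧
      ∀ v w, col I (ctr I v) = col I (ctr I w) → Near I.G r v w → ctr I v = ctr I w := by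
  have hD : ∀ I ∈ C, ∀ c c', (∃ v v', Near I.G r v v' ∧ ctr I v = c ∧ ctr I v' = c') →
      Near I.G (β + r + β) c c' := fun I hI c c' ⟨v, v', a3, a4, a5⟩ =>
    a4 ▸ a5 ▸ ((h1 I hI v).symm.trans a3).trans (h1 I hI v')
  obtain ⟨col, c1, c2, c3⟩ := linial (t := β + r + t) (D := β + r + β) hN
    (Rel := fun I c c' => ∃ v v', Near I.G r v v' ∧ ctr I v = c ∧ ctr I v' = c')
    (loc_of_imp fun I hI J hJ c hv c' ⟨v, v', a3, a4, a5⟩ => by
      have n1 : Near I.G β c v := a4 ▸ (h1 I hI v).symm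
      have n2 := n1.trans a3
      exact ⟨v, v', (M64.near_view hv n1 (by omega) _).1 a3, hc.at hI hJ hv n1 (by omega) ▸ a4,
        hc.at hI hJ hv n2 le_rfl ▸ a5⟩) hD
    fun I hI c F hF => hdeg I hI c F fun c' h => hD I hI c c' (hF c' h).2
  refine ⟨col, M64.Loc.comp c1 hc h1 le_rfl (by omega), fun I hI => ⟨c2 I hI, fun v w e hn => ?_⟩⟩
  by_contra hne
  exact c3 I hI _ _ hne ⟨v, w, hn, rfl, rfl⟩ e

theorem main {Δ p R n₀ s P b : ℕ} {g : ℕ → ℕ} (hs : 160 * (R + p + 1) ≤ s)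
    (hP : ∏ i ∈ range (Nat.log 2 (R + p + 1) + 1), ((g (s / 2 ^ i) + 2) ^ 109) ^ 70 ≤ P)
    (h1 : ((Δ + 1) ^ (4 * (R + p + 1) + (R + p + 1))) ^ P < n₀)
    (h2 : (Δ + 1) ^ (2 * (R + p)) ≤ 2 ^ b) (h3 : 2 ^ (4 * b + 18) ≤ n₀) :
    ∃ K : ℕ, ∀ (Gr : (N : ℕ) → SimpleGraph (Fin N) → Prop), Hereditary Gr →
      (∀ N G, Gr N G → Expansion g G) → ∀ (L : Set ℕ)
      (acc : (N : ℕ) → Inst N → (Fin N → ℕ) → Fin N → Prop), Checker p acc →
      ∀ (M : ℕ), n₀ ≤ M → ∀ (Ω : Type) [MeasurableSpace Ω] (μ : Measure Ω)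
        [IsProbabilityMeasure μ] (A : Inst M → (Fin M → Ω) → Fin M → ℕ), LocalWith R A →
        (∀ I v, Measurable fun x => A I x v) →
        (∀ I : Inst M, I.S.card = n₀ → Deg Δ I → Gr M I.G → (∀ x ∈ I.S, I.inp x ∈ L) →
          (Measure.pi fun _ => μ) {x | ¬ ∀ v ∈ I.S, acc M I (A I x) v} ≤ 1 / (n₀ : ℝ≥0∞)) →
        ∀ n k N : ℕ, N ≤ tower k → ∃ B : Inst N → Fin N → ℕ,
          DetLocal (K * (Nat.log 2 n + k + 1)) B ∧ ∀ I : Inst N, I.S.card ≤ n → Deg Δ I →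
            Gr N I.G → (∀ x ∈ I.S, I.inp x ∈ L) → ∀ v ∈ I.S, acc N I (B I) v := by
  classical
  set r := R + p + 1 with hr
  set E := 2 ^ (4 * (Δ + 1) ^ (4 * r + 2 * r + 4 * r) + 18) with hE
  refine ⟨340 * r + E * (10 * r), fun Gr hGr hg L acc hacc M hM Ω _ μ _ A hA hAm hf n k N hN => ?_⟩
  have hn : 0 < n₀ := lt_of_lt_of_le (by positivity) h3
  obtain ⟨f, A', f1, f2, f3, f4⟩ := push_her (N := N) hn hM hGr hacc hA hAm hf
  let C0 : Set (Inst N) := {I | I.S.card ≤ n ∧ Deg Δ I ∧ Gr N I.G}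
  obtain ⟨κ, k1, k2, k3⟩ := colour_iter (C := C0) (D := 2 * (R + p)) (b := b) hN
    fun I hI x Y hY => (deg_card hI.2.1 _ x Y hY).trans h2
  let C1 : Set (Inst N) := {J | ∃ I ∈ C0, J = lab I (κ I)}
  have hC1 : ∀ J ∈ C1, J ∈ C0 := by rintro _ ⟨I, hI, rfl⟩; exact hI
  obtain ⟨c, c1, c2⟩ := scales (C := C1) (g := g) (Nat.lt_pow_succ_log_self (by norm_num) n)
    (fun J hJ => ⟨(hC1 J hJ).1, hg _ _ (hC1 J hJ).2.2⟩) _ r s
    (Nat.lt_pow_succ_log_self (by norm_num) r) hs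
  obtain ⟨col, d1, d2⟩ := clus' (r := 2 * r) (b := (Δ + 1) ^ (4 * r + 2 * r + 4 * r)) hN c1
    (fun J hJ => (c2 J hJ).1) fun J hJ z F hF =>
      (deg_card (hC1 J hJ).2.1 _ z F hF).trans Nat.lt_two_pow_self.le
  obtain ⟨w, w1, w2⟩ := derandM (μ := μ) (K := E) (P := P) (c1.mono (by omega)) d1
    (fun J hJ v => (d2 J hJ).1 _) (fun J hJ => (c2 J hJ).1) (fun J hJ => (d2 J hJ).2)
    (fun J hJ => deg_card (hC1 J hJ).2.1 _) (fun J hJ u F hF => by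
      refine le_trans (card_le_card (t := (univ.filter fun z => ∃ v, Near J.G r u v ∧
        c J v = z).image (col J)) fun j hj => ?_) (card_image_le.trans
        (((c2 J hJ).2 u _ fun z hz => (mem_filter.1 hz).2).trans hP))
      obtain ⟨x, a1, a2⟩ := hF j hj
      exact mem_image.2 ⟨c J x, mem_filter.2 ⟨mem_univ _, x, a1, rfl⟩, a2⟩) f1 f2
  set T := 4 * r + (k * (4 * r + 2 * r + 4 * r) + (4 * r + 2 * r +
    160 * ((Nat.log 2 n).succ + 1) * r)) + E * (2 * (4 * r) + 2 * r) with hT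
  have hloc : Loc C0 (k * (2 * (R + p)) + T + r) fun I v =>
      A' (lab I (κ I)) (w (lab I (κ I))) v := by
    intro I hI J hJ v hv
    have hv' : SameView (r + T) v (lab I (κ I)) (lab J (κ J)) :=
      lab_view hv (by omega) fun x hx => k1.at hI hJ hv hx (by omega)
    exact f3 _ _ _ _ v (hv'.mono (by omega)) fun x hx =>
      w1.at ⟨I, hI, rfl⟩ ⟨J, hJ, rfl⟩ hv' hx le_rfl
  obtain ⟨B, b1, b2⟩ := hloc.extend
  refine ⟨B, fun I J v hv => b1 I trivial J trivial v (hv.mono ?_), fun I a1 a2 a3 hL v hv => ?_⟩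
  · have e1 : k * (2 * (R + p)) ≤ k * (2 * r) := Nat.mul_le_mul_left _ (by omega)
    have e2 : E * (10 * r) ≤ E * (10 * r) * (Nat.log 2 n + k + 1) :=
      Nat.le_mul_of_pos_right _ (by omega)
    rw [hT, Nat.succ_eq_add_one]
    nlinarith [Nat.zero_le (Nat.log 2 n * r), Nat.zero_le (k * r)]
  have hI : I ∈ C0 := ⟨a1, a2, a3⟩
  have e : B I = A' (lab I (κ I)) (w (lab I (κ I))) :=
    funext fun x => b2 I I hI x (sameView_refl _ _ _)
  have hm' := f4 I (κ I) a2 a3 hL (fun x => lt_of_lt_of_le (k2 I hI x) h3) (k3 I hI) v hv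
  rw [e]
  refine hm'.2 _ (lt_of_le_of_lt ((w2 _ ⟨I, hI, rfl⟩ v).trans (mul_le_mul_right hm'.1 _)) ?_)
  rw [mul_one_div, ENNReal.div_lt_iff (Or.inl (by exact_mod_cast hn.ne'))
    (Or.inl (ENNReal.natCast_ne_top n₀)), one_mul]
  exact_mod_cast h1

end Pool.Agent.Lib.MP_559647_lc.P65
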