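import Pool.Agent.Lib.MP_559647_lc.T20Cfg
import Pool.Agent.Lib.MP_559647_lc.G56Col

/-! Local tools: colouring a local relation, ruling sets by digits, representatives, clusters. -/

namespace Pool.Agent.Lib.MP_559647_lc.T20

open Finset SimpleGraph M64

variable {N : ℕ} {C : Set (Inst N)}

lemma loc_of_imp {t : ℕ} {α : Type} {P : Inst N → Fin N → α → Prop}
    (h : ∀ I ∈ C, ∀ J ∈ C, ∀ v, SameView t v I J → ∀ a, P I v a → P J v a) : Loc C t P :=
  fun I hI J hJ v hv => funext fun a => propext ⟨h I hI J hJ v hv a, h J hJ I hI v hv.symm a⟩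

lemma loc_of_imp' {t : ℕ} {P : Inst N → Fin N → Prop}
    (h : ∀ I ∈ C, ∀ J ∈ C, ∀ v, SameView t v I J → P I v → P J v) : Loc C t P :=
  fun I hI J hJ v hv => propext ⟨h I hI J hJ v hv, h J hJ I hI v hv.symm⟩

lemma nearS_loc {t b : ℕ} {Y : Inst N → Fin N → Prop} (hY : Loc C t Y) :
    Loc C (b + t) fun I v => NearS I.G b v (Y I) :=
  loc_of_imp' fun _ hI _ hJ _ hv ⟨y, h1, h2⟩ =>
    ⟨y, hY.at hI hJ hv h2 le_rfl ▸ h1, (hv.near_iff (by omega) y).1 h2⟩

lemma point {t : ℕ} (b : ℕ) {Y : Inst N → Fin N → Prop} (hY : Loc C t Y) :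
    ∃ ctr : Inst N → Fin N → Fin N, Loc C (b + t) ctr ∧
      ∀ I x, Near I.G b x (ctr I x) ∧ (NearS I.G b x (Y I) → Y I (ctr I x)) := by
  rcases isEmpty_or_nonempty (Fin N) with hN | hN
  · exact ⟨fun _ x => x, fun _ _ _ _ _ _ => rfl, fun _ x => hN.elim x⟩
  obtain ⟨g, g1, g2⟩ := Loc.choose (C := C) (t := b + t)
    (P := fun I x y => Near I.G b x y ∧ (NearS I.G b x (Y I) → Y I y))
    (loc_of_imp fun I hI J hJ v hv y ⟨h1, h2⟩ => ⟨(hv.near_iff (by omega) y).1 h1, fun h =>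
      hY.at hI hJ hv h1 le_rfl ▸ h2 ((nearS_loc hY I hI J hJ v hv).mpr h)⟩)
  refine ⟨g, g1, fun I x => g2 I x ?_⟩
  by_cases h : NearS I.G b x (Y I)
  · obtain ⟨y, h1, h2⟩ := h
    exact ⟨y, h2, fun _ => h1⟩
  · exact ⟨x, near_refl _ _, fun h' => absurd h' h⟩

lemma linial_step {t D M Δ : ℕ} {Rel : Inst N → Fin N → Fin N → Prop} {col : Inst N → Fin N → ℕ}
    (hR : Loc C t Rel) (hcol : Loc C t col) (hM : ∀ I ∈ C, ∀ x, col I x < M)
    (hD : ∀ I ∈ C, ∀ x y, Rel I x y → Near I.G D x y)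
    (hprop : ∀ I ∈ C, ∀ x y, x ≠ y → Rel I x y → col I x ≠ col I y)
    (hdeg : ∀ I ∈ C, ∀ x, ∀ Y : Finset (Fin N), (∀ y ∈ Y, y ≠ x ∧ Rel I x y) → Y.card ≤ Δ) :
    ∃ col' : Inst N → Fin N → ℕ, Loc C (D + t) col' ∧ (∀ I ∈ C, ∀ x, col' I x < cf M Δ) ∧
      ∀ I ∈ C, ∀ x y, x ≠ y → Rel I x y → col' I x ≠ col' I y := by
  classical
  obtain ⟨F, hF1, hF2⟩ := coverfree M Δ
  let nb : Inst N → Fin N → Finset (Fin N) := fun I x => univ.filter fun y => y ≠ x ∧ Rel I x y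
  have hnb : ∀ I x y, y ∈ nb I x ↔ y ≠ x ∧ Rel I x y := fun I x y => by simp [nb]
  refine ⟨fun I x => F (col I x) ((nb I x).image (col I)), ?_, fun I _ x => hF1 _ _, ?_⟩
  · intro I hI J hJ v hv
    have h1 : nb I v = nb J v := by
      ext y
      rw [hnb, hnb, hR I hI J hJ v (hv.mono (by omega))]
    have h2 : (nb I v).image (col I) = (nb J v).image (col J) := by
      rw [← h1]
      exact Finset.image_congr fun y hy =>
        hcol.at hI hJ hv (hD I hI _ _ ((hnb I v y).1 hy).2) le_rfl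
    simp only
    rw [h2, hcol I hI J hJ v (hv.mono (by omega))]
  · intro I hI x y hxy hn
    refine hF2 _ (hM I hI x) _ ?_ ?_ ?_ _ ?_ _
    · exact Finset.card_image_le.trans (hdeg I hI x _ fun z hz => (hnb I x z).1 hz)
    · intro hm
      obtain ⟨z, hz, he⟩ := Finset.mem_image.1 hm
      exact hprop I hI x z ((hnb I x z).1 hz).1.symm ((hnb I x z).1 hz).2 he.symm
    · intro b hb
      obtain ⟨z, _, he⟩ := Finset.mem_image.1 hb
      exact he ▸ hM I hI z
    · exact Finset.mem_image.2 ⟨y, (hnb I x y).2 ⟨hxy.symm, hn⟩, rfl⟩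

lemma linial {t D b k : ℕ} (hN : N ≤ tower k) {Rel : Inst N → Fin N → Fin N → Prop}
    (hR : Loc C t Rel) (hD : ∀ I ∈ C, ∀ x y, Rel I x y → Near I.G D x y)
    (hdeg : ∀ I ∈ C, ∀ x, ∀ Y : Finset (Fin N), (∀ y ∈ Y, y ≠ x ∧ Rel I x y) → Y.card ≤ 2 ^ b) :
    ∃ col : Inst N → Fin N → ℕ, Loc C (k * D + t) col ∧ (∀ I ∈ C, ∀ x, col I x < 2 ^ (4 * b + 18)) ∧
      ∀ I ∈ C, ∀ x y, x ≠ y → Rel I x y → col I x ≠ col I y := by
  have key : ∀ (j s : ℕ) (col : Inst N → Fin N → ℕ), t ≤ s → Loc C s col →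
      (∀ I ∈ C, ∀ x, col I x < 2 ^ (4 * b + 16 + 2 * tower j)) →
      (∀ I ∈ C, ∀ x y, x ≠ y → Rel I x y → col I x ≠ col I y) →
      ∃ col' : Inst N → Fin N → ℕ, Loc C (j * D + s) col' ∧
        (∀ I ∈ C, ∀ x, col' I x < 2 ^ (4 * b + 18)) ∧
        ∀ I ∈ C, ∀ x y, x ≠ y → Rel I x y → col' I x ≠ col' I y := by
    intro j
    induction j with
    | zero => exact fun s col _ h1 h2 h3 => ⟨col, h1.mono (by omega), h2, h3⟩
    | succ j ih =>
      intro s col hs h1 h2 h3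
      obtain ⟨c1, a1, a2, a3⟩ := linial_step (hR.mono hs) h1 h2 hD h3 hdeg
      obtain ⟨c2, b1, b2, b3⟩ := ih (D + s) c1 (by omega) a1
        (fun I hI x => lt_of_lt_of_le (a2 I hI x) (cf_pow_le b (tower j))) a3
      exact ⟨c2, b1.mono (by rw [Nat.succ_mul]; omega), b2, b3⟩
  refine key k t (fun _ x => x.val) le_rfl (fun _ _ _ _ _ _ => rfl) (fun _ _ x => ?_)
    (fun _ _ x y hxy _ h => hxy (Fin.ext h))
  have h1 : tower k < 2 ^ tower k := Nat.lt_two_pow_self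
  have h2 : 2 ^ tower k ≤ 2 ^ (4 * b + 16 + 2 * tower k) :=
    Nat.pow_le_pow_right (by norm_num) (by omega)
  have := x.isLt
  omega

lemma rule {t : ℕ} (D : ℕ) {M : ℕ} {X : Inst N → Fin N → Prop} {col : Inst N → Fin N → ℕ}
    (hX : Loc C t X) (hcol : Loc C t col) (hM : ∀ I ∈ C, ∀ x, col I x < M) :
    ∃ Y : Inst N → Fin N → Prop, Loc C (M * D + t) Y ∧ ∀ I ∈ C, (∀ x, Y I x → X I x) ∧
      (∀ x y, Y I x → Y I y → Near I.G D x y → col I x = col I y) ∧
      ∀ x, X I x → NearS I.G D x (Y I) := by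
  have hloc : ∀ j, Loc C (j * D + t) fun I x => greedy D X col I j x := by
    intro j
    induction j with
    | zero => intro I _ J _ v _; rfl
    | succ j ih =>
      refine loc_of_imp' fun I hI J hJ v hv => ?_
      have hv' : SameView (D + (j * D + t)) v I J := hv.mono (by rw [Nat.succ_mul]; omega)
      rintro (h | ⟨h1, h2, h3⟩)
      · exact Or.inl ((ih I hI J hJ v (hv'.mono (by omega))).mp h)
      · refine Or.inr ⟨hX I hI J hJ v (hv'.mono (by omega)) ▸ h1,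
          hcol I hI J hJ v (hv'.mono (by omega)) ▸ h2, fun y hy hn => ?_⟩
        have hn' := (hv'.near_iff (by omega) y).2 hn
        exact h3 y ((ih.at hI hJ hv' hn' le_rfl).mpr hy) hn'
  refine ⟨fun I x => greedy D X col I M x, hloc M, fun I hI => ?_⟩
  have hsub : ∀ j x, greedy D X col I j x → X I x := by
    intro j
    induction j with
    | zero => intro x h; exact h.elim
    | succ j ih =>
      rintro x (h | h)
      · exact ih x h
      · exact h.1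
  have hsep : ∀ j x y, greedy D X col I j x → greedy D X col I j y → Near I.G D x y →
      col I x = col I y := by
    intro j
    induction j with
    | zero => intro x y h; exact h.elim
    | succ j ih =>
      rintro x y (h | h) (h' | h') hn
      · exact ih x y h h' hn
      · exact absurd hn.symm (h'.2.2 x h)
      · exact absurd hn (h.2.2 y h')
      · exact h.2.1.trans h'.2.1.symm
  have hdom : ∀ j x, X I x → col I x < j → ∃ y, greedy D X col I j y ∧ Near I.G D x y := by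
    intro j
    induction j with
    | zero => intro x _ h; omega
    | succ j ih =>
      intro x hx hc
      rcases (Nat.lt_succ_iff.1 hc).eq_or_lt with h | h
      · by_cases hh : ∀ y, greedy D X col I j y → ¬ Near I.G D x y
        · exact ⟨x, Or.inr ⟨hx, h, hh⟩, near_refl _ _⟩
        · push Not at hh
          obtain ⟨y, hy, hn⟩ := hh
          exact ⟨y, Or.inl hy, hn⟩
      · obtain ⟨y, hy, hn⟩ := ih x hx h
        exact ⟨y, Or.inl hy, hn⟩
  exact ⟨hsub M, hsep M, fun x hx => hdom M x hx (hM I hI x)⟩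

/-- a decomposition of the class `C` at scale `r` for the nodes in `X`, found in `t` rounds -/
def Dcp (C : Set (Inst N)) (X : Inst N → Fin N → Prop) (r t B ρ : ℕ) : Prop :=
  ∃ (c : Inst N → Fin N → Fin N) (col : Inst N → Fin N → ℕ), Loc C t c ∧ Loc C t col ∧
    ∀ I ∈ C, (∀ v, col I v < B) ∧ (∀ v, Near I.G ρ v (c I v)) ∧
      ∀ v w, X I v → X I w → col I v = col I w → Near I.G r v w → c I v = c I w

lemma Dcp.mono {X : Inst N → Fin N → Prop} {r t B ρ t' B' ρ' : ℕ} (h : Dcp C X r t B ρ)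
    (h1 : t ≤ t') (h2 : B ≤ B') (h3 : ρ ≤ ρ') : Dcp C X r t' B' ρ' := by
  obtain ⟨c, col, a1, a2, a3⟩ := h
  exact ⟨c, col, a1.mono h1, a2.mono h1, fun I hI => ⟨fun v => ((a3 I hI).1 v).trans_le h2,
    fun v => ((a3 I hI).2.1 v).mono h3, (a3 I hI).2.2⟩⟩

lemma key {t D B ρ s : ℕ} (S : ℕ) {R : Inst N → Fin N → Prop} {y : Inst N → Fin N → Fin N}
    (hR : Loc C t R) (hy : Loc C t y) (h1 : ∀ I ∈ C, ∀ x, Near I.G D x (y I x))
    (hd : Dcp C (fun _ _ => True) s t B ρ) :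
    ∃ R' : Inst N → Fin N → Prop, Loc C (2 * (D + ρ) + (B * S + (D + t))) R' ∧ ∀ I ∈ C,
      (∀ x, R' I x → R I x) ∧ (∀ x, R I x → NearS I.G (S + 2 * (D + ρ)) x (R' I)) ∧
      ∀ x x' x'', R' I x → R' I x' → R' I x'' → Near I.G S x x' → Near I.G S x x'' →
        Near I.G s (y I x') (y I x'') → x' = x'' := by
  classical
  obtain ⟨c, col, hc, hcol, h2⟩ := hd
  have l1 : Loc C (D + t) fun I x => col I (y I x) := Loc.comp hcol hy h1 le_rfl (by omega)
  have l2 : Loc C (D + t) fun I x => c I (y I x) := Loc.comp hc hy h1 le_rfl (by omega)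
  obtain ⟨Y, y1, y2⟩ := rule S (hR.mono (Nat.le_add_left t D)) l1 fun I hI x => (h2 I hI).1 _
  have hn : ∀ I ∈ C, ∀ x x', c I (y I x') = c I (y I x) → Near I.G (2 * (D + ρ)) x x' :=
    fun I hI x x' e => ((h1 I hI x).trans ((h2 I hI).2.1 _)).trans'
      (e ▸ ((h1 I hI x').trans ((h2 I hI).2.1 _)).symm) (by omega)
  refine ⟨fun I x => Y I x ∧ ∀ x', Y I x' → c I (y I x') = c I (y I x) → x ≤ x',
    loc_of_imp' fun I hI J hJ v hv ⟨a1, a2⟩ => ⟨y1 I hI J hJ v (hv.mono (by omega)) ▸ a1,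
      fun x hx e => ?_⟩, fun I hI => ⟨fun x hx => (y2 I hI).1 x hx.1, fun x hx => ?_,
      fun x x' x'' a b b' n1 n2 n3 => ?_⟩⟩
  · have n1 := hn J hJ v x e
    refine a2 x (y1.at hJ hI hv.symm n1 le_rfl ▸ hx) ?_
    exact ((l2.at hJ hI hv.symm n1 (by omega)).symm.trans e).trans
      (l2 I hI J hJ v (hv.mono (by omega))).symm
  · obtain ⟨z, z1, z2⟩ := (y2 I hI).2.2 x hx
    obtain ⟨w, w1, w2⟩ := exists_min_image (univ.filter fun w => Y I w ∧ c I (y I w) = c I (y I z))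
      id ⟨z, by simp [z1]⟩
    have w3 := (mem_filter.1 w1).2
    exact ⟨w, ⟨w3.1, fun x' a b => w2 x' (mem_filter.2 ⟨mem_univ _, a, b.trans w3.2⟩)⟩,
      z2.trans (hn I hI z w w3.2)⟩
  · have e := (h2 I hI).2.2 _ _ trivial trivial (((y2 I hI).2.1 x x' a.1 b.1 n1).symm.trans
      ((y2 I hI).2.1 x x'' a.1 b'.1 n2)) n3
    exact le_antisymm (b.2 x'' b'.1 e.symm) (b'.2 x' b.1 e)

lemma clus {t β r b k : ℕ} (hN : N ≤ tower k) {Z : Inst N → Fin N → Prop}
    {ctr : Inst N → Fin N → Fin N} (hZ : Loc C t Z) (hc : Loc C t ctr)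
    (h1 : ∀ I ∈ C, ∀ v, Near I.G β v (ctr I v))
    (hdeg : ∀ I ∈ C, ∀ c, ∀ F : Finset (Fin N), (∀ c' ∈ F, c' ≠ c ∧ ∃ v v', Z I v ∧ Z I v' ∧
      Near I.G r v v' ∧ ctr I v = c ∧ ctr I v' = c') → F.card ≤ 2 ^ b) :
    Dcp C Z r (β + (k * (β + r + β) + (β + r + t))) (2 ^ (4 * b + 18)) β := by
  obtain ⟨col, c1, c2, c3⟩ := linial (t := β + r + t) (D := β + r + β) hN
    (Rel := fun I c c' => ∃ v v', Z I v ∧ Z I v' ∧ Near I.G r v v' ∧ ctr I v = c ∧ ctr I v' = c')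
    (loc_of_imp fun I hI J hJ c hv c' ⟨v, v', a1, a2, a3, a4, a5⟩ => by
      have n1 : Near I.G β c v := a4 ▸ (h1 I hI v).symm
      have n2 := n1.trans a3
      exact ⟨v, v', hZ.at hI hJ hv n1 (by omega) ▸ a1, hZ.at hI hJ hv n2 le_rfl ▸ a2,
        (near_view hv n1 (by omega) _).1 a3, hc.at hI hJ hv n1 (by omega) ▸ a4,
        hc.at hI hJ hv n2 le_rfl ▸ a5⟩)
    (fun I hI c c' ⟨v, v', _, _, a3, a4, a5⟩ =>
      a4 ▸ a5 ▸ ((h1 I hI v).symm.trans a3).trans (h1 I hI v')) hdeg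
  refine ⟨ctr, fun I v => col I (ctr I v), hc.mono (by omega), Loc.comp c1 hc h1 le_rfl (by omega),
    fun I hI => ⟨fun v => c2 I hI _, h1 I hI, fun v w hv hw e hn => ?_⟩⟩
  by_contra hne
  exact c3 I hI _ _ hne ⟨v, w, hv, hw, hn, rfl, rfl⟩ e

lemma lev_loc (k u Λ t : ℕ) : Loc C (t * (20 * u + 1 + Λ)) fun I => lev I.G k u Λ t := by
  induction t with
  | zero => intro I _ J _ v _; rfl
  | succ t ih =>
    refine loc_of_imp' fun I hI J hJ z hz ⟨γ, h1, h2⟩ => ?_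
    rw [Nat.succ_mul] at hz
    have hn : ∀ i c, Near I.G (3 * u + 1 + Λ) z (γ i c) := fun i c => by
      rcases le_total c Λ with h | h
      · exact (h1 i).2.2.1.trans ((h1 i).1.near (by omega) (by omega))
      · rw [(h1 i).2.1 c h]
        exact (h1 i).2.2.1.trans ((h1 i).1.near (by omega) (by omega))
    refine ⟨γ, fun i => ⟨fun c => ?_, (h1 i).2.1, (hz.near_iff (by omega) _).1 (h1 i).2.2.1,
      (ih.at hI hJ hz (hn i Λ) (by omega)).mp (h1 i).2.2.2⟩, fun i j hij => ⟨fun a b h =>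
      (h2 i j hij).1 a b ((near_view hz (hn i a) (by omega) _).2 h), fun h =>
      (h2 i j hij).2 ((near_view hz (hn i Λ) (by omega) _).2 h)⟩⟩
    rcases lt_or_ge c Λ with h | h
    · exact ((h1 i).1 c).imp id (hz.adj_iff ((h1 i).2.2.1.trans
        ((h1 i).1.near (j := c) (b := c) (by omega) (by omega))) (by omega) _).1
    · left
      rw [(h1 i).2.1 c h, (h1 i).2.1 (c + 1) (by omega)]

open Classical in
/-- the instance induced on `U` whose input labels mark the set `X` -/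
noncomputable def sub (I : Inst N) (U X : Fin N → Prop) : Inst N :=
  ⟨I.S, within I.G {x | U x}, fun x => if X x then 1 else 0, fun u v h => I.mem_of_adj u v h.1⟩

lemma sub_inp {I : Inst N} {U X : Fin N → Prop} {x : Fin N} : (sub I U X).inp x = 1 ↔ X x := by
  simp [sub]

lemma loc_sub {α : Type} {t s : ℕ} {U X : Inst N → Fin N → Prop} (hU : Loc C s U) (hX : Loc C s X)
    {f : Inst N → Fin N → α} (hf : Loc ((fun I => sub I (U I) (X I)) '' C) t f) :
    Loc C (t + s) fun I => f (sub I (U I) (X I)) := by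
  intro I hI J hJ v hv
  refine hf _ ⟨I, hI, rfl⟩ _ ⟨J, hJ, rfl⟩ v ⟨fun x y hx => ?_, fun x hx => ?_⟩
  · obtain ⟨a, ha, hx⟩ := edist_lt_iff.1 hx
    have hx' : Near I.G a v x := Near.le within_le hx
    have e1 := hv.adj_iff hx' (by omega) y
    have e2 := hU.at hI hJ hv hx' (by omega)
    constructor
    · exact fun h => ⟨e1.1 h.1, e2.mp h.2.1,
        (hU.at hI hJ hv (hx'.trans (near_of_adj h.1)) (by omega)).mp h.2.2⟩
    · exact fun h => ⟨e1.2 h.1, e2.mpr h.2.1,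
        (hU.at hI hJ hv (hx'.trans (near_of_adj (e1.2 h.1))) (by omega)).mpr h.2.2⟩
  · have hx' : Near I.G t v x := Near.le within_le hx
    have e := hX.at hI hJ hv hx' le_rfl
    simp only [sub]
    by_cases h : X I x
    · rw [if_pos h, if_pos (e.mp h)]
    · rw [if_neg h, if_neg fun h' => h (e.mpr h')]

lemma minor_le {V : Type} {G H : SimpleGraph V} {h : ℕ} (a : CliqueMinor G h) (hle : G ≤ H) :
    CliqueMinor H h := by
  obtain ⟨B, h1, h2⟩ := a
  refine ⟨B, fun i => (h1 i).mono fun _ _ a => hle a, fun i j hij => ⟨(h2 i j hij).1, ?_⟩⟩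
  obtain ⟨x, hx, y, hy, a⟩ := (h2 i j hij).2
  exact ⟨x, hx, y, hy, hle a⟩

end Pool.Agent.Lib.MP_559647_lc.T20
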