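import Pool.Agent.Lib.MP_559647_lc.P65BI
import Pool.Agent.Lib.MP_559647_lc.P65H
import Pool.Agent.Lib.MP_559647_lc.T20Loc

/-! A local partition into parts of small weak radius such that every ball meets few parts. -/

namespace Pool.Agent.Lib.MP_559647_lc.P65

open Finset SimpleGraph M64 T20

variable {N : ℕ} {C : Set (Inst N)}

/-- parts of weak radius `ρ`, found in `t` rounds; a ball of radius `r` meets at most `f` parts -/
def Ply (C : Set (Inst N)) (r t ρ f : ℕ) : Prop :=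
  ∃ c : Inst N → Fin N → Fin N, Loc C t c ∧ ∀ I ∈ C, (∀ v, Near I.G ρ v (c I v)) ∧
    ∀ x, ∀ F : Finset (Fin N), (∀ z ∈ F, ∃ v, Near I.G r x v ∧ c I v = z) → F.card ≤ f

lemma Ply.mono {r t ρ f t' ρ' f' : ℕ} (h : Ply C r t ρ f) (h1 : t ≤ t') (h2 : ρ ≤ ρ')
    (h3 : f ≤ f') : Ply C r t' ρ' f' := by
  obtain ⟨c, a1, a2⟩ := h
  exact ⟨c, a1.mono h1, fun I hI => ⟨fun v => ((a2 I hI).1 v).mono h2,
    fun x F hF => ((a2 I hI).2 x F hF).trans h3⟩⟩

lemma ends {k u lam r j : ℕ} (hk : 0 < k) (hl : r + (r + 2 * u) ≤ lam * (u + 1))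
    (he : ∀ I ∈ C, ∀ z, ¬ lev I.G k u (lam * (u + 1)) (j + 1) z) :
    ∃ y : Inst N → Fin N → Fin N, Loc C (r + 2 * u + j * (20 * u + 1 + lam * (u + 1))) y ∧
      ∀ I ∈ C, (∀ v, Near I.G (r + 2 * u) v (y I v)) ∧ ∀ x, Thin I.G (17 * u)
        ((2 * (lam + 1) * (k + 1)) ^ lam) {p | ∃ v, Near I.G r x v ∧ y I v = p} := by
  classical
  rcases isEmpty_or_nonempty (Fin N) with hN | hN
  · exact ⟨fun _ x => x, fun _ _ _ _ _ _ => rfl, fun _ _ => ⟨fun x => hN.elim x, fun x => hN.elim x⟩⟩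
  set Λ := lam * (u + 1) with hΛ
  have hl' : ∀ s ≤ j, Loc C (j * (20 * u + 1 + Λ)) fun I => lev I.G k u Λ s := fun s hs =>
    (lev_loc k u Λ s).mono (Nat.mul_le_mul_right _ hs)
  obtain ⟨y, y1, y2⟩ := Loc.choose (C := C) (t := r + 2 * u + j * (20 * u + 1 + Λ))
    (P := fun I v p => Near I.G (r + 2 * u) v p ∧ ∃ t ≤ j, lev I.G k u Λ t p ∧
      ∀ s, t < s → s ≤ j → ¬ NearS I.G (r + 2 * u) v (lev I.G k u Λ s))
    (loc_of_imp fun I hI J hJ v hv p ⟨h1, t, h2, h3, h4⟩ => ⟨(hv.near_iff (by omega) p).1 h1, t, h2,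
      ((hl' t h2).at hI hJ hv h1 le_rfl).mp h3, fun s a b c =>
        h4 s a b ((nearS_loc (hl' s b) I hI J hJ v hv).mpr c)⟩)
  refine ⟨y, y1, fun I hI => ?_⟩
  have y3 := fun v => y2 I v (by
    obtain ⟨p, a, b⟩ := Nat.findGreatest_spec (m := 0) (n := j)
      (P := fun t => NearS I.G (r + 2 * u) v (lev I.G k u Λ t)) (Nat.zero_le _)
      ⟨v, trivial, near_refl _ _⟩
    exact ⟨p, b, _, Nat.findGreatest_le _, a, fun s h1 h2 => Nat.findGreatest_is_greatest h1 h2⟩)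
  have y4 := fun v => (y3 v).2
  choose t t1 t2 t3 using y4
  refine ⟨fun v => (y3 v).1, ends_thin hk hl t (y I) (fun v => (y3 v).1) t2 fun v s hs => ?_⟩
  rcases le_or_gt s j with h | h
  · exact t3 v s hs h
  · exact fun ⟨z, hz, _⟩ => he I hI z (lev_anti h z hz)

lemma ply_step {r s μ t t' ρ f P : ℕ} {y : Inst N → Fin N → Fin N} (hy : Loc C t' y)
    (h : ∀ I ∈ C, (∀ v, Near I.G μ v (y I v)) ∧
      ∀ x, Thin I.G s P {p | ∃ v, Near I.G r x v ∧ y I v = p})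
    (hp : Ply C s t ρ f) : Ply C r (μ + t + t') (μ + ρ) (P * f) := by
  classical
  obtain ⟨c, c1, c2⟩ := hp
  refine ⟨fun I v => c I (y I v), Loc.comp c1 hy (fun I hI => (h I hI).1) (by omega) (by omega),
    fun I hI => ⟨fun v => ((h I hI).1 v).trans ((c2 I hI).1 _), fun x F hF => ?_⟩⟩
  obtain ⟨A, -, a2, a3, a4⟩ := exists_net (Near I.G s) (fun _ _ a => a.symm) (near_refl _) ∅
    (univ.filter fun p => ∃ v, Near I.G r x v ∧ y I v = p) (empty_subset _) (by simp)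
  have a5 : F ⊆ A.biUnion fun a => F.filter fun z => ∃ v, Near I.G s a v ∧ c I v = z := by
    intro z hz
    obtain ⟨v, h1, h2⟩ := hF z hz
    obtain ⟨a, b1, b2⟩ := a4 (y I v) (mem_filter.2 ⟨mem_univ _, v, h1, rfl⟩)
    exact mem_biUnion.2 ⟨a, b1, mem_filter.2 ⟨hz, _, b2.symm, h2⟩⟩
  refine (card_le_card a5).trans ((card_biUnion_le_card_mul _ _ f fun a _ =>
    (c2 I hI).2 a _ fun z hz => (mem_filter.1 hz).2).trans (Nat.mul_le_mul_right _ ?_))
  exact (h I hI).2 x A (fun p hp => (mem_filter.1 (a2 hp)).2) a3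

lemma const_le (d : ℕ) :
    2 * (70 + 1) * ((2 * 70 + 3) * (2 * cD (2 * d + 1) 70) + 2 + 1) ≤ (d + 2) ^ 109 := by
  obtain ⟨x, hx⟩ : ∃ x, x = d + 2 := ⟨_, rfl⟩
  have h1 : 2 * d + 1 + 1 ≤ x ^ 2 := by rw [hx]; nlinarith
  have h2 : 2 ≤ x := by omega
  have h3 : 1 ≤ x ^ 2 := by omega
  have h4 : x ^ 2 ≤ x ^ 6 := Nat.pow_le_pow_right (by omega) (by norm_num)
  have h5 : cD (2 * d + 1) 70 ≤ 2 ^ 78 * (157 * x ^ 6) := by
    unfold cD
    refine Nat.mul_le_mul_left _ ?_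
    calc _ ≤ x ^ 6 + x ^ 2 * (156 * (x ^ 2 * x ^ 2)) := by gcongr <;> omega
      _ = _ := by ring
  have h6 : 2 ^ 103 ≤ x ^ 103 := Nat.pow_le_pow_left h2 _
  rw [← hx, show 109 = 103 + 6 from rfl, pow_add]
  refine le_trans ?_ (Nat.mul_le_mul_right _ h6)
  omega

theorem scales {g : ℕ → ℕ} {n j : ℕ} (hn : n < 2 ^ j)
    (hC : ∀ I ∈ C, I.S.card ≤ n ∧ Expansion g I.G) (m : ℕ) : ∀ r s, r < 2 ^ m → 160 * r ≤ s →
      Ply C r (160 * (j + 1) * r) (4 * r) (∏ i ∈ range m, ((g (s / 2 ^ i) + 2) ^ 109) ^ 70) := by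
  have base : ∀ f, 1 ≤ f → Ply C 0 (160 * (j + 1) * 0) (4 * 0) f := fun f hf =>
    ⟨fun _ v => v, fun _ _ _ _ _ _ => rfl, fun I _ => ⟨fun v => near_refl _ v, fun x F hF =>
      le_trans (card_le_one.2 fun a ha b hb => by
        obtain ⟨v, h1, rfl⟩ := hF a ha
        obtain ⟨w, h2, rfl⟩ := hF b hb
        exact (near_zero_iff.1 h1).symm.trans (near_zero_iff.1 h2)) hf⟩⟩
  induction m with
  | zero =>
    intro r s hr _
    obtain rfl : r = 0 := by simpa using hr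
    exact base _ (by simp)
  | succ m ih =>
    intro r s hr hs
    rcases Nat.eq_zero_or_pos r with rfl | h0
    · exact base _ (Nat.succ_le_of_lt (prod_pos fun i _ => by positivity))
    obtain ⟨u, u1, u2⟩ : ∃ u, 34 * u ≤ r ∧ r < 34 * (u + 1) :=
      ⟨r / 34, Nat.mul_div_le r 34, Nat.lt_mul_div_succ r (by norm_num)⟩
    obtain ⟨k, hk⟩ : ∃ k, k = (2 * 70 + 3) * (2 * cD (2 * g s + 1) 70) + 2 := ⟨_, rfl⟩
    obtain ⟨y, y1, y2⟩ := ends (C := C) (k := k) (u := u) (lam := 70) (r := r) (j := j) (by omega)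
      (by omega) fun I hI => P65.lev_empty (d := 2 * g s + 1) (K := 2) I (hC I hI).1 (by omega)
        ((dens_of (hC I hI).2 s).mono (by omega) (by omega)) (by omega) (by omega) hn
    refine (ply_step y1 y2 (ih (17 * u) (s / 2) (by rw [pow_succ] at hr; omega) (by omega))).mono
      ?_ (by omega) ?_
    · have a1 : j * (20 * u + 1 + 70 * (u + 1)) ≤ j * (74 * r) := Nat.mul_le_mul_left _ (by omega)
      have a2 : 80 * (j + 1) * (34 * u) ≤ 80 * (j + 1) * r := Nat.mul_le_mul_left _ u1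
      nlinarith
    · rw [prod_range_succ', mul_comm]
      refine Nat.mul_le_mul (le_of_eq (prod_congr rfl fun i _ => ?_)) ?_
      · rw [Nat.div_div_eq_div_mul, pow_succ' 2 i]
      · rw [pow_zero, Nat.div_one, hk]
        exact Nat.pow_le_pow_left (const_le _) _

end Pool.Agent.Lib.MP_559647_lc.P65
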