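import Pool.Agent.Lib.MP_559647_lc.T20Core
import Pool.Agent.Lib.MP_559647_lc.P65Defs

/-! Sets of bounded strong radius and the density of shallow minors. -/

namespace Pool.Agent.Lib.MP_559647_lc.P65

open Finset SimpleGraph M64 M64.MaderAux T20

variable {V : Type} {G : SimpleGraph V}

/-- radius at most `s` inside the set -/
def Rad (G : SimpleGraph V) (s : ℕ) (B : Set V) : Prop :=
  ∃ c ∈ B, ∀ x ∈ B, Near (within G B) s c x

/-- diameter at most `s` inside the set -/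
def Dia (G : SimpleGraph V) (s : ℕ) (B : Set V) : Prop :=
  B.Nonempty ∧ ∀ x ∈ B, ∀ y ∈ B, Near (within G B) s x y

lemma Rad.mono {s t : ℕ} {B : Set V} (h : Rad G s B) (hst : s ≤ t) : Rad G t B := by
  obtain ⟨c, hc, h⟩ := h
  exact ⟨c, hc, fun x hx => (h x hx).mono hst⟩

lemma Dia.mono {s t : ℕ} {B : Set V} (h : Dia G s B) (hst : s ≤ t) : Dia G t B :=
  ⟨h.1, fun x hx y hy => (h.2 x hx y hy).mono hst⟩

lemma Dia.rad {s : ℕ} {B : Set V} (h : Dia G s B) : Rad G s B := by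
  obtain ⟨⟨c, hc⟩, h⟩ := h
  exact ⟨c, hc, h c hc⟩

lemma Dia.union {s : ℕ} {B B' : Set V} (h : Dia G s B) (h' : Dia G s B') {z : V} (hz : z ∈ B)
    (hz' : z ∈ B') : Dia G (s + s) (B ∪ B') := by
  have key : ∀ x ∈ B ∪ B', Near (within G (B ∪ B')) s x z := by
    rintro x (hx | hx)
    · exact Near.le (within_mono Set.subset_union_left) (h.2 x hx z hz)
    · exact Near.le (within_mono Set.subset_union_right) (h'.2 x hx z hz')
  exact ⟨⟨z, Or.inl hz⟩, fun x hx y hy => (key x hx).trans (key y hy).symm⟩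

lemma rad_attach {ι : Type} {ρ s : ℕ} {B : Set V} (hB : Rad G ρ B) (P : ι → Prop) (J : ι → Set V)
    (hJ : ∀ i, P i → J i = ∅ ∨ (Dia G s (J i) ∧ Ad G B (J i))) :
    Rad G (ρ + 1 + s) (B ∪ {x | ∃ i, P i ∧ x ∈ J i}) := by
  obtain ⟨r, hr, h⟩ := hB
  refine ⟨r, Or.inl hr, ?_⟩
  rintro v (hv | ⟨i, hi, hv⟩)
  · exact (Near.le (within_mono Set.subset_union_left) (h v hv)).mono (by omega)
  · rcases hJ i hi with e | ⟨c, x, hx, y, hy, a⟩
    · rw [e] at hv; exact hv.elim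
    · have e : J i ⊆ B ∪ {x | ∃ i, P i ∧ x ∈ J i} := fun z hz => Or.inr ⟨i, hi, hz⟩
      exact ((Near.le (within_mono Set.subset_union_left) (h x hx)).trans
        (near_of_adj (G := within G _) ⟨a, Or.inl hx, e hy⟩)).trans
        (Near.le (within_mono e) (c.2 y hy v hv))

lemma lazy_dia {γ : ℕ → V} (h : Lazy G γ) {a b L : ℕ} (hab : a ≤ b) (hL : b ≤ L) :
    Dia G L {p | ∃ c, a ≤ c ∧ c ≤ b ∧ γ c = p} := by
  have key : ∀ c c', a ≤ c → c ≤ c' → c' ≤ b →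
      Near (within G {p | ∃ c, a ≤ c ∧ c ≤ b ∧ γ c = p}) L (γ c) (γ c') := by
    intro c c' h1 h2 h3
    obtain ⟨j, rfl⟩ := Nat.exists_eq_add_of_le h2
    exact (h.within (T := {p | ∃ c, a ≤ c ∧ c ≤ b ∧ γ c = p}) j
      fun x h4 h5 => ⟨x, by omega, by omega, rfl⟩).mono (by omega)
  refine ⟨⟨_, a, le_rfl, hab, rfl⟩, ?_⟩
  rintro _ ⟨c, h1, h2, rfl⟩ _ ⟨c', h3, h4, rfl⟩
  rcases le_total c c' with e | e
  · exact key c c' h1 e h4
  · exact (key c' c h3 e h2).symm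

lemma Rad.shallow {s : ℕ} {B : Set V} (h : Rad G s B) : Shallow G s B := by
  obtain ⟨c, hc, h⟩ := h
  have key : ∀ {u v : V} (p : (within G B).Walk u v) (hu : u ∈ B) (hv : v ∈ B),
      Near (G.induce B) p.length ⟨u, hu⟩ ⟨v, hv⟩ := by
    intro u v p
    induction p with
    | nil => intro _ _; exact near_refl _ _
    | cons a _ ih =>
      intro hu hv
      exact (near_of_adj (G := G.induce B) (v := ⟨_, hu⟩) (x := ⟨_, a.2.2⟩) a.1).trans'
        (ih _ hv) (by simp [add_comm])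
  refine ⟨⟨c, hc⟩, fun x => ?_⟩
  obtain ⟨p, hp⟩ := near_iff_walk.1 (h x x.2)
  exact (key p hc x.2).mono hp

/-- disjoint sets of radius at most `s` have at most `d` adjacent sets on average -/
def Dens (G : SimpleGraph V) (s d : ℕ) : Prop :=
  ∀ (ι : Type) (S : ι → Set V) (F : Finset ι), (∀ a ∈ F, Rad G s (S a)) →
    (∀ a ∈ F, ∀ b ∈ F, a ≠ b → Disjoint (S a) (S b)) → ∀ W : Finset (ι × ι),
      (∀ p ∈ W, p.1 ∈ F ∧ p.2 ∈ F ∧ p.1 ≠ p.2 ∧ Ad G (S p.1) (S p.2)) → W.card ≤ d * F.card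

lemma Dens.mono {s s' d d' : ℕ} (h : Dens G s d) (hs : s' ≤ s) (hd : d ≤ d') : Dens G s' d' :=
  fun ι S F h1 h2 W h3 =>
    (h ι S F (fun a ha => (h1 a ha).mono hs) h2 W h3).trans (Nat.mul_le_mul_right _ hd)

lemma dens_of {g : ℕ → ℕ} (h : Expansion g G) (s : ℕ) : Dens G s (2 * g s) := by
  classical
  intro ι S F h1 h2 W h3
  obtain ⟨φ, φ1, φ2, φ3⟩ : ∃ φ : Fin F.card → ι, Function.Injective φ ∧ (∀ n, φ n ∈ F) ∧
      ∀ a ∈ F, ∃ n, φ n = a :=
    ⟨fun n => (F.equivFin.symm n).1, Subtype.val_injective.comp F.equivFin.symm.injective,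
      fun n => (F.equivFin.symm n).2, fun a ha => ⟨F.equivFin ⟨a, ha⟩, by simp⟩⟩
  let H : SimpleGraph (Fin F.card) :=
    { Adj := fun i j => i ≠ j ∧ Ad G (S (φ i)) (S (φ j))
      symm := ⟨fun _ _ a => ⟨a.1.symm, a.2.symm⟩⟩
      loopless := ⟨fun _ a => a.1 rfl⟩ }
  have a1 := h s F.card (fun i => S (φ i)) H (fun i => (h1 _ (φ2 i)).shallow)
    (fun i j hij => h2 _ (φ2 i) _ (φ2 j) (φ1.ne hij)) fun i j a => a.2
  have a2 := H.two_mul_card_edgeFinset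
  rw [← Set.ncard_coe_finset, coe_edgeFinset] at a2
  have a3 : W ⊆ (univ.filter fun q : Fin F.card × Fin F.card => H.Adj q.1 q.2).image
      fun q => (φ q.1, φ q.2) := by
    intro p hp
    obtain ⟨b1, b2, b3, b4⟩ := h3 p hp
    obtain ⟨i, hi⟩ := φ3 _ b1
    obtain ⟨j, hj⟩ := φ3 _ b2
    refine mem_image.2 ⟨(i, j), mem_filter.2 ⟨mem_univ _, fun e => b3 ?_, ?_⟩, by simp [hi, hj]⟩
    · rw [← hi, ← hj]; exact congrArg φ e
    · simpa only [hi, hj] using b4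
  refine (card_le_card a3).trans (card_image_le.trans ?_)
  rw [mul_assoc]
  exact le_trans (le_of_eq a2.symm) (Nat.mul_le_mul_left _ a1)

lemma cut_walk' {γ : ℕ → V} (h : Lazy G γ) {B W : Set V} (hd : Disjoint B W) {L : ℕ}
    (h0 : γ 0 ∈ B) (hL : γ L ∈ W) : ∃ (J : Set V) (x : V), (∃ c, 1 ≤ c ∧ γ c = x) ∧ x ∈ W ∧
      J ⊆ {p | ∃ c ≤ L, γ c = p} ∧ Disjoint J B ∧ Disjoint J W ∧
      ((J = ∅ ∧ Ad G B {x}) ∨ (Dia G L J ∧ Ad G B J ∧ Ad G J {x})) := by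
  classical
  have hex : ∃ c, γ c ∈ W := ⟨L, hL⟩
  set i1 := Nat.find hex with hi1
  have a1 : γ i1 ∈ W := Nat.find_spec hex
  have a2 : ∀ c < i1, γ c ∉ W := fun c hc => Nat.find_min hex hc
  have a3 : i1 ≤ L := Nat.find_min' hex hL
  set i0 := Nat.findGreatest (fun c => γ c ∈ B) i1 with hi0
  have b1 : γ i0 ∈ B := Nat.findGreatest_spec (P := fun c => γ c ∈ B) (Nat.zero_le i1) h0
  have b2 : ∀ c, i0 < c → c ≤ i1 → γ c ∉ B := fun c h1 h2 =>
    Nat.findGreatest_is_greatest (P := fun c => γ c ∈ B) h1 h2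
  have b3 : i0 < i1 := lt_of_le_of_ne (Nat.findGreatest_le _) fun e =>
    Set.disjoint_left.1 hd b1 (e ▸ a1)
  refine ⟨{p | ∃ c, i0 + 1 ≤ c ∧ c ≤ i1 - 1 ∧ γ c = p}, γ i1, ⟨i1, by omega, rfl⟩, a1,
    ?_, ?_, ?_, ?_⟩
  · rintro p ⟨c, -, h2, e⟩
    exact ⟨c, by omega, e⟩
  · rw [Set.disjoint_left]
    rintro p ⟨c, h1, h2, rfl⟩
    exact b2 c (by omega) (by omega)
  · rw [Set.disjoint_left]
    rintro p ⟨c, h1, h2, rfl⟩
    exact a2 c (by omega)
  have ad0 : G.Adj (γ i0) (γ (i0 + 1)) :=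
    (h i0).resolve_left fun e => b2 (i0 + 1) (by omega) (by omega) (e ▸ b1)
  rcases eq_or_lt_of_le (Nat.succ_le_of_lt b3) with e | e
  · left
    refine ⟨Set.eq_empty_of_forall_notMem ?_, _, b1, _, rfl, e ▸ ad0⟩
    rintro p ⟨c, h1, h2, -⟩
    omega
  · right
    refine ⟨lazy_dia h (by omega) (by omega), ⟨_, b1, _, ⟨i0 + 1, le_rfl, by omega, rfl⟩, ad0⟩,
      γ (i1 - 1), ⟨i1 - 1, by omega, le_rfl, rfl⟩, _, rfl, ?_⟩
    have := h (i1 - 1)
    rw [show i1 - 1 + 1 = i1 by omega] at this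
    exact this.resolve_left fun e => a2 (i1 - 1) (by omega) (e ▸ a1)

lemma exists_system' (A : Finset V) (Cn : V × V → Set V → Prop)
    (hA : ∀ p Q, Cn p Q → p.1 ∈ A ∧ p.2 ∈ A) :
    ∃ (D : Finset (V × V)) (Q : V × V → Set V), (∀ p ∈ D, Cn p (Q p)) ∧
      (∀ p ∈ D, ∀ q ∈ D, p ≠ q → Disjoint (Q p) (Q q)) ∧
      ∀ p Q', Cn p Q' → (∀ q ∈ D, Disjoint Q' (Q q)) → p ∈ D := by
  classical
  obtain ⟨D, hD, hmax⟩ := exists_max_image ((A ×ˢ A).powerset.filter fun D =>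
    ∃ Q : V × V → Set V, (∀ p ∈ D, Cn p (Q p)) ∧
      ∀ p ∈ D, ∀ q ∈ D, p ≠ q → Disjoint (Q p) (Q q)) card
    ⟨∅, mem_filter.2 ⟨by simp, fun _ => ∅, by simp, by simp⟩⟩
  obtain ⟨a1, Q, a2, a3⟩ := mem_filter.1 hD
  refine ⟨D, Q, a2, a3, fun p Q' h1 h2 => ?_⟩
  by_contra hp
  have hu : ∀ q ∈ D, Function.update Q p Q' q = Q q := fun q hq =>
    Function.update_of_ne (fun e : q = p => hp (e ▸ hq)) _ _
  have := hmax (insert p D) (mem_filter.2 ⟨mem_powerset.2 (insert_subset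
    (mem_product.2 (hA _ _ h1)) (mem_powerset.1 a1)), Function.update Q p Q', fun q hq => by
      rcases mem_insert.1 hq with e | hq'
      · rw [e, Function.update_self]; exact h1
      · rw [hu q hq']; exact a2 q hq', fun q hq q' hq' hne => by
      rcases mem_insert.1 hq with e | h3 <;> rcases mem_insert.1 hq' with e' | h4
      · exact absurd (e.trans e'.symm) hne
      · rw [e, Function.update_self, hu q' h4]; exact h2 q' h4
      · rw [e', Function.update_self, hu q h3]; exact (h2 q h3).symm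
      · rw [hu q h3, hu q' h4]; exact a3 q h3 q' h4 hne⟩)
  rw [card_insert_of_notMem hp] at this
  omega

end Pool.Agent.Lib.MP_559647_lc.P65
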