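import Pool.Agent.Lib.MP_559647_lc.Cluster

/-!
Choice of the parameters.
-/

namespace Pool.Agent.Lib.MP_559647_lc

lemma cube_le (a : ℕ) : a ^ 3 ≤ 4 ^ a := by
  have h : ∀ b : ℕ, (b + 2) ^ 3 ≤ 4 ^ (b + 2) := by
    intro b
    induction b with
    | zero => norm_num
    | succ b ih =>
      have : (b + 1 + 2) ^ 3 ≤ 4 * (b + 2) ^ 3 := by nlinarith [Nat.zero_le b, Nat.zero_le (b ^ 2), Nat.zero_le (b ^ 3)]
      calc (b + 1 + 2) ^ 3 ≤ 4 * (b + 2) ^ 3 := this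
        _ ≤ 4 * 4 ^ (b + 2) := by omega
        _ = 4 ^ (b + 1 + 2) := by ring
  match a with
  | 0 => norm_num
  | 1 => norm_num
  | b + 2 => exact h b

lemma cf_le {M Δ e : ℕ} (hΔ : 1 ≤ Δ) (he : Nat.log 2 M + 1 ≤ e) : cf M Δ ≤ 16 * (Δ * e) ^ 2 := by
  unfold cf
  have h1 : Δ * (Nat.log 2 M + 1) ≤ Δ * e := Nat.mul_le_mul_left _ he
  have h2 : 1 ≤ Δ * e := Nat.mul_pos hΔ (by omega)
  have h3 : Δ * (Nat.log 2 M + 1) + 1 ≤ 2 * (Δ * e) := by omega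
  calc 4 * (Δ * (Nat.log 2 M + 1) + 1) ^ 2 ≤ 4 * (2 * (Δ * e)) ^ 2 :=
        Nat.mul_le_mul_left _ (Nat.pow_le_pow_left h3 2)
    _ = 16 * (Δ * e) ^ 2 := by ring

lemma log_le_of_le_pow {M e : ℕ} (h : M ≤ 2 ^ e) : Nat.log 2 M ≤ e := by
  have := Nat.log_mono_right (b := 2) h
  rwa [Nat.log_pow (by norm_num)] at this

theorem params (c : ℕ) : ∃ C : ℕ, ∀ n N : ℕ, 2 ≤ n → N ≤ n ^ c → ∃ k L : ℕ, 1 ≤ k ∧ n < k ^ L ∧
    (10 * numCol N k + 64 * L + 33) * (Nat.log 2 (Nat.log 2 n) + 1) ≤ C * Nat.log 2 n := by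
  refine ⟨10 * (16 * 104 ^ 2 * (45 + 2 * c) ^ 2 * 8 * 256) + 64 * 25 + 66, fun n N hn hN => ?_⟩
  set l := Nat.log 2 n with hl
  set m := Nat.log 2 l with hm
  have hl1 : 1 ≤ l := Nat.le_log_of_pow_le (by norm_num) (by simpa using hn)
  have hnl : n < 2 ^ (l + 1) := Nat.lt_pow_succ_log_self (by norm_num) n
  have hlm : l < 2 ^ (m + 1) := Nat.lt_pow_succ_log_self (by norm_num) l
  have hml : 2 ^ m ≤ l := Nat.pow_log_le_self 2 (by omega)
  have hml' : m ≤ l := le_trans (Nat.lt_two_pow_self).le hml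
  set a := m / 8 + 1 with ha
  have ha1 : 1 ≤ a := by omega
  have ha2 : m + 1 ≤ 8 * a := by omega
  have ha3 : 8 * a ≤ m + 8 := by omega
  set L := (l + 1) / a + 1 with hL
  have hL1 : l + 1 ≤ a * L := by
    have := Nat.lt_mul_div_succ (l + 1) (show 0 < a by omega)
    exact this.le
  have hL2 : a * L ≤ l + 1 + a := by
    have := Nat.mul_div_le (l + 1) a
    rw [hL, mul_add]
    omega
  refine ⟨2 ^ a, L, Nat.one_le_two_pow, ?_, ?_⟩
  · rw [← pow_mul]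
    exact lt_of_lt_of_le hnl (Nat.pow_le_pow_right (by norm_num) hL1)
  set k := 2 ^ a with hk
  set Δ := 8 * (13 * k ^ 3) with hΔ
  have hk1 : 1 ≤ k := Nat.one_le_two_pow
  have hΔ1 : 1 ≤ Δ := by
    have : 1 ≤ k ^ 3 := Nat.one_le_pow _ _ hk1
    omega
  have hΔ2 : Δ ≤ 2 ^ (7 + 3 * a) := by
    have : k ^ 3 = 2 ^ (3 * a) := by rw [hk, ← pow_mul, mul_comm]
    rw [pow_add, ← this]
    omega
  have hN1 : Nat.log 2 N + 1 ≤ 2 ^ (c + 1 + (m + 1)) := by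
    have h1 : N ≤ 2 ^ ((l + 1) * c) := by
      rw [pow_mul]
      exact hN.trans (Nat.pow_le_pow_left hnl.le c)
    have h2 := log_le_of_le_pow h1
    have h3 : c < 2 ^ c := Nat.lt_two_pow_self
    have h4 : (l + 1) * c + 1 ≤ (2 * c + 1) * l := by nlinarith
    have h5 : (2 * c + 1) * l ≤ 2 ^ (c + 1) * 2 ^ (m + 1) :=
      Nat.mul_le_mul (by rw [pow_succ]; omega) hlm.le
    rw [pow_add 2 (c + 1)]
    omega
  have hM1 : cf N Δ ≤ 2 ^ (4 + (7 + 3 * a + (c + 1 + (m + 1))) * 2) := by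
    refine (cf_le hΔ1 hN1).trans ?_
    rw [pow_add 2 4, pow_mul, pow_add 2 (7 + 3 * a)]
    exact Nat.mul_le_mul (by norm_num) (Nat.pow_le_pow_left (Nat.mul_le_mul_right _ hΔ2) 2)
  have hM2 : Nat.log 2 (cf N Δ) + 1 ≤ (45 + 2 * c) * a := by
    have := log_le_of_le_pow hM1
    nlinarith
  have hK : numCol N k ≤ 16 * (Δ * ((45 + 2 * c) * a)) ^ 2 := cf_le hΔ1 hM2
  have hk8 : k ^ 8 ≤ 256 * l := by
    rw [hk, ← pow_mul]
    calc 2 ^ (a * 8) ≤ 2 ^ (8 + m) := Nat.pow_le_pow_right (by norm_num) (by omega)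
      _ = 256 * 2 ^ m := by rw [pow_add]; norm_num
      _ ≤ 256 * l := by omega
  have ha4 : a ^ 3 ≤ k ^ 2 := by
    rw [hk, ← pow_mul, mul_comm, pow_mul]
    exact cube_le a
  have e1 : numCol N k * (m + 1) ≤ 16 * 104 ^ 2 * (45 + 2 * c) ^ 2 * 8 * 256 * l := by
    calc numCol N k * (m + 1) ≤ 16 * (Δ * ((45 + 2 * c) * a)) ^ 2 * (8 * a) :=
          Nat.mul_le_mul hK ha2
      _ = 16 * 104 ^ 2 * (45 + 2 * c) ^ 2 * 8 * (k ^ 6 * a ^ 3) := by rw [hΔ]; ring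
      _ ≤ 16 * 104 ^ 2 * (45 + 2 * c) ^ 2 * 8 * (k ^ 6 * k ^ 2) :=
          Nat.mul_le_mul_left _ (Nat.mul_le_mul_left _ ha4)
      _ = 16 * 104 ^ 2 * (45 + 2 * c) ^ 2 * 8 * k ^ 8 := by ring
      _ ≤ 16 * 104 ^ 2 * (45 + 2 * c) ^ 2 * 8 * (256 * l) := Nat.mul_le_mul_left _ hk8
      _ = _ := by ring
  have e2 : L * (m + 1) ≤ 25 * l := by
    calc L * (m + 1) ≤ L * (8 * a) := Nat.mul_le_mul_left _ ha2
      _ = 8 * (a * L) := by ring
      _ ≤ 25 * l := by omega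
  calc (10 * numCol N k + 64 * L + 33) * (m + 1)
      = 10 * (numCol N k * (m + 1)) + 64 * (L * (m + 1)) + 33 * (m + 1) := by ring
    _ ≤ 10 * (16 * 104 ^ 2 * (45 + 2 * c) ^ 2 * 8 * 256 * l) + 64 * (25 * l) + 66 * l := by
        omega
    _ = _ := by ring

lemma real_bound {n T E : ℕ} (hn : 3 ≤ n)
    (h : T * (Nat.log 2 (Nat.log 2 n) + 1) ≤ E * Nat.log 2 n) :
    (T : ℝ) ≤ 2 * E * (Real.log n / Real.log (Real.log n)) := by
  set l := Nat.log 2 n with hl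
  set m := Nat.log 2 l with hm
  have hnl : n < 2 ^ (l + 1) := Nat.lt_pow_succ_log_self (by norm_num) n
  have hlm : l < 2 ^ (m + 1) := Nat.lt_pow_succ_log_self (by norm_num) l
  have hln : 2 ^ l ≤ n := Nat.pow_log_le_self 2 (by omega)
  have hn3 : (3 : ℝ) ≤ n := by exact_mod_cast hn
  have l2 := Real.log_two_gt_d9
  have l2' := Real.log_two_lt_d9
  have h1 : 1 < Real.log n := by
    rw [Real.lt_log_iff_exp_lt (by linarith)]
    have := Real.exp_one_lt_d9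
    linarith
  have h2 : 0 < Real.log (Real.log n) := Real.log_pos h1
  have h3 : Real.log n ≤ 2 ^ (m + 1) := by
    have a1 : Real.log n ≤ Real.log (2 ^ (l + 1)) :=
      Real.log_le_log (by linarith) (by exact_mod_cast hnl.le)
    rw [Real.log_pow] at a1
    have a2 : ((l + 1 : ℕ) : ℝ) ≤ 2 ^ (m + 1) := by exact_mod_cast hlm
    have a3 : (0 : ℝ) ≤ ((l + 1 : ℕ) : ℝ) := Nat.cast_nonneg _
    nlinarith
  have h4 : Real.log (Real.log n) ≤ ((m + 1 : ℕ) : ℝ) := by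
    have a1 := Real.log_le_log (by linarith) h3
    rw [Real.log_pow] at a1
    have a3 : (0 : ℝ) ≤ ((m + 1 : ℕ) : ℝ) := Nat.cast_nonneg _
    nlinarith
  have h5 : (l : ℝ) ≤ 2 * Real.log n := by
    have a1 : Real.log (2 ^ l) ≤ Real.log n :=
      Real.log_le_log (by positivity) (by exact_mod_cast hln)
    rw [Real.log_pow] at a1
    have a3 : (0 : ℝ) ≤ l := Nat.cast_nonneg _
    nlinarith
  have h6 : (T : ℝ) * ((m + 1 : ℕ) : ℝ) ≤ E * l := by exact_mod_cast h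
  rw [← mul_div_assoc, le_div_iff₀ h2]
  have hT : (0 : ℝ) ≤ T := Nat.cast_nonneg _
  have hE : (0 : ℝ) ≤ E := Nat.cast_nonneg _
  calc (T : ℝ) * Real.log (Real.log n) ≤ T * ((m + 1 : ℕ) : ℝ) := mul_le_mul_of_nonneg_left h4 hT
    _ ≤ E * l := h6
    _ ≤ E * (2 * Real.log n) := mul_le_mul_of_nonneg_left h5 hE
    _ = _ := by ring

end Pool.Agent.Lib.MP_559647_lc
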