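import Pool.Agent.Lib.MP_559647_lc.T20Main

/-! It is enough that the balls have no complete minor. -/

namespace Pool.Agent.Lib.MP_559647_lc.T20

open Finset SimpleGraph M64

lemma minor_induce {V : Type} {G : SimpleGraph V} {U : Set V} {h : ℕ}
    (a : CliqueMinor (within G U) (h + 2)) : CliqueMinor (G.induce U) (h + 2) := by
  obtain ⟨B, h1, h2⟩ := a
  have hU : ∀ i, ∀ z ∈ B i, z ∈ U := by
    intro i z hz
    obtain ⟨j, hj⟩ := exists_ne i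
    obtain ⟨x, hx, y, -, a⟩ := (h2 i j hj.symm).2
    exact mem_of_reach (((h1 i).preconnected ⟨x, hx⟩ ⟨z, hz⟩).map
      (Embedding.induce (G := within G U) (B i)).toHom) a.2.1
  refine ⟨fun i => Subtype.val ⁻¹' B i, fun i => ?_, fun i j hij => ⟨(h2 i j hij).1.preimage _, ?_⟩⟩
  · exact Connected.map (G := (within G U).induce (B i))
      (H := (G.induce U).induce (Subtype.val ⁻¹' B i))
      ⟨fun x => ⟨⟨x.1, hU i _ x.2⟩, x.2⟩, fun a => a.1⟩ (fun x => ⟨⟨x.1.1, x.2⟩, rfl⟩) (h1 i)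
  · obtain ⟨x, hx, y, hy, a⟩ := (h2 i j hij).2
    exact ⟨⟨x, a.2.1⟩, hx, ⟨y, a.2.2⟩, hy, a.1⟩

/-- the ball of radius `T` around `v` as an instance -/
def res {N : ℕ} (I : Inst N) (T : ℕ) (v : Fin N) : Inst N :=
  ⟨I.S, within I.G {x | I.G.edist v x ≤ T}, I.inp, fun u v h => I.mem_of_adj u v h.1⟩

lemma res_view {N : ℕ} (I : Inst N) (T : ℕ) (v : Fin N) : SameView T v I (res I T v) := by
  refine ⟨fun x y hx => ⟨fun a => ⟨a, hx.le, ?_⟩, fun a => a.1⟩, fun _ _ => rfl⟩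
  obtain ⟨s, hs, hx⟩ := edist_lt_iff.1 hx
  exact hx.trans' (near_of_adj a) hs

theorem decomp_ball (h : ℕ) : ∃ A, ∀ n, 2 ≤ n → ∃ X, 1 ≤ X ∧
    X * (Nat.log 2 (Nat.log 2 n) + 1) ≤ A * Nat.log 2 n ∧
    ∀ (N kk r T : ℕ) (C : Set (Inst N)), N ≤ tower kk → r + A * (X + kk) * r ≤ T →
      (∀ I ∈ C, I.S.card ≤ n ∧ ∀ v, ¬ CliqueMinor (I.G.induce {x | I.G.edist v x ≤ T}) h) →
      Dcp C (fun _ _ => True) r (A * (X + kk) * r) X (A * r) := by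
  obtain ⟨A, hA⟩ := decomp (h + 2) (by omega)
  refine ⟨A, fun n hn => ?_⟩
  obtain ⟨X, x1, x2, x3⟩ := hA n hn
  refine ⟨X, x1, x2, fun N kk r T C hN hT hC => ?_⟩
  obtain ⟨c, col, a1, a2, a3⟩ := x3 N kk r {J | ∃ I ∈ C, ∃ v, J = res I T v} hN (by
    rintro _ ⟨I, hI, v, rfl⟩
    exact ⟨(hC I hI).1, fun e =>
      (hC I hI).2 v (CliqueMinor.pred (CliqueMinor.pred (minor_induce e)))⟩)
  obtain ⟨c', c1, c2⟩ := a1.extend
  obtain ⟨col', d1, d2⟩ := a2.extend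
  refine ⟨c', col', fun I _ J _ => c1 I trivial J trivial, fun I _ J _ => d1 I trivial J trivial,
    fun I hI => ⟨fun v => ?_, fun v => ?_, fun v w _ _ e hn => ?_⟩⟩
  · rw [d2 I _ ⟨I, hI, v, rfl⟩ v ((res_view I T v).mono (by omega))]
    exact (a3 _ ⟨I, hI, v, rfl⟩).1 v
  · rw [c2 I _ ⟨I, hI, v, rfl⟩ v ((res_view I T v).mono (by omega))]
    exact Near.le within_le ((a3 _ ⟨I, hI, v, rfl⟩).2.1 v)
  · have v1 := (res_view I T v).mono (t := A * (X + kk) * r) (by omega)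
    have v2 := (res_view I T v).shift hn hT
    rw [d2 I _ ⟨I, hI, v, rfl⟩ v v1, d2 I _ ⟨I, hI, v, rfl⟩ w v2] at e
    rw [c2 I _ ⟨I, hI, v, rfl⟩ v v1, c2 I _ ⟨I, hI, v, rfl⟩ w v2]
    exact (a3 _ ⟨I, hI, v, rfl⟩).2.2 v w trivial trivial e
      (((res_view I T v).near_iff (by omega) w).1 hn)

end Pool.Agent.Lib.MP_559647_lc.T20
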