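import Pool.Agent.Lib.MP_559647_lc.T20H

/-! Complete bipartite minors with representatives, and how one chop adds a branch set. -/

namespace Pool.Agent.Lib.MP_559647_lc.T20

open Finset SimpleGraph M64 M64.MaderAux M64.M64SparseAux

variable {V : Type} {G : SimpleGraph V}

/-- `p` is within distance `b` of the set `Y` -/
def NearS (G : SimpleGraph V) (b : ℕ) (p : V) (Y : V → Prop) : Prop := ∃ y, Y y ∧ Near G b p y

lemma NearS.mono {b b' : ℕ} {p : V} {Y Y' : V → Prop} (h : NearS G b p Y) (hb : b ≤ b')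
    (hY : ∀ y, Y y → Y' y) : NearS G b' p Y' := by
  obtain ⟨y, h1, h2⟩ := h
  exact ⟨y, hY y h1, h2.mono hb⟩

lemma NearS.of_near {a b c : ℕ} {p q : V} {Y : V → Prop} (h : NearS G b q Y) (hp : Near G a p q)
    (hc : a + b ≤ c) : NearS G c p Y := by
  obtain ⟨y, h1, h2⟩ := h
  exact ⟨y, h1, hp.trans' h2 hc⟩

/-- `n` fat connected sets around cores near a core, and `i` connected sets adjacent to all -/
def Cfg (G : SimpleGraph V) (X : V → Prop) (i n a D : ℕ) : Prop :=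
  ∃ (x0 : V) (x : Fin n → V) (R : Fin n → Set V) (B : Fin i → Set V), X x0 ∧
    (∀ j, X (x j) ∧ Near G D x0 (x j) ∧ Conn G (R j) ∧ ∀ p, Near G a (x j) p → p ∈ R j) ∧
    (∀ j j', j ≠ j' → Disjoint (R j) (R j')) ∧
    (∀ l, Conn G (B l) ∧ ∀ j, Disjoint (B l) (R j) ∧ Ad G (B l) (R j)) ∧
    ∀ l l', l ≠ l' → Disjoint (B l) (B l')

lemma cfg_top {X : V → Prop} {h a D : ℕ} (c : Cfg G X h h a D) : CliqueMinor G h := by
  obtain ⟨x0, x, R, B, -, c1, c2, c3, c4⟩ := c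
  refine cliqueMinor_of (fun l => B l ∪ R l) (fun l => ?_) fun l l' hl => ⟨?_, ?_⟩
  · obtain ⟨p, hp, q, hq, a⟩ := ((c3 l).2 l).2
    exact (c3 l).1.union (c1 l).2.2.1 hp hq (Or.inr a)
  · exact Set.disjoint_union_left.2 ⟨Set.disjoint_union_right.2 ⟨c4 l l' hl, ((c3 l).2 l').1⟩,
      Set.disjoint_union_right.2 ⟨((c3 l').2 l).1.symm, c2 l l' hl⟩⟩
  · exact ((c3 l).2 l').2.mono Set.subset_union_left Set.subset_union_right

lemma cfg_base {X : V → Prop} {n a D : ℕ} (h : ¬ Cfg G X 0 n a D) {c : V} (hc : X c)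
    (F : Finset V) (h1 : ∀ y ∈ F, X y ∧ Near G D c y)
    (h2 : ∀ x ∈ F, ∀ y ∈ F, x ≠ y → ¬ Near G (2 * a) x y) : F.card ≤ n := by
  by_contra hlt
  obtain ⟨I, hI, hcard⟩ := exists_subset_card_eq (not_le.1 hlt).le
  obtain ⟨φ, φ1, φ2⟩ := fin_of_card hcard
  exact h ⟨c, φ, fun j => bl G a (φ j), Fin.elim0, hc, fun j => ⟨(h1 _ (hI (φ2 j))).1,
    (h1 _ (hI (φ2 j))).2, conn_bl _ _, fun _ hp => hp⟩, fun j j' hne => Set.disjoint_left.2
    fun p a1 a2 => h2 _ (hI (φ2 j)) _ (hI (φ2 j')) (φ1.ne hne)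
      (Near.trans' a1 (Near.symm a2) (by omega)), fun l => l.elim0, fun l => l.elim0⟩

lemma Conn.le {H : SimpleGraph V} {S : Set V} (h : Conn G S) (hle : G ≤ H) : Conn H S :=
  ⟨h.1, fun u hu v hv => Reachable.mono (G := within G S) (G' := within H S)
    (fun _ _ a => ⟨hle a.1, a.2⟩) (h.2 u hu v hv)⟩

lemma Conn.sub {S U : Set V} (h : Conn (within G U) S) {x : V} (hx : x ∈ S) (hU : x ∈ U) :
    S ⊆ U := fun v hv => mem_of_reach ((h.2 x hx v hv).mono within_le) hU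

lemma climb {Y : V → Prop} {μ g a : ℕ} {x : V} (ha : a ≤ μ) (h1 : ¬ NearS G μ x Y)
    (h2 : NearS G (μ + g) x Y) : ∃ y, Y y ∧
      Wk G (μ + g) x y (fun p => ∀ b, NearS G b p Y → Near G b p y) ∧
      ∃ p q, Near (within G {p | ¬ NearS G (μ - a) p Y}) (a + g) x p ∧ G.Adj p q ∧
        NearS G (μ - a) q Y ∧ (within G {p | NearS G (μ - a) p Y}).Reachable q y := by
  classical
  have hex : ∃ δ, NearS G δ x Y := ⟨_, h2⟩
  set δ := Nat.find hex with hδ
  obtain ⟨y, hy, hn⟩ : NearS G δ x Y := Nat.find_spec hex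
  have hmin : ∀ b, NearS G b x Y → δ ≤ b := fun b hb => Nat.find_min' hex hb
  have d1 : μ < δ := not_le.1 fun h => h1 ⟨y, hy, hn.mono h⟩
  have d2 := hmin _ h2
  obtain ⟨π, p1, p2, p3⟩ := geo hn
  have e1 : ∀ c b, NearS G b (π c) Y → δ ≤ c + b := fun c b hb =>
    hmin _ (hb.of_near (p2 ▸ p1.near (j := c) (by omega) (by omega)) le_rfl)
  have e2 : ∀ c b, δ ≤ c + b → Near G b (π c) y := fun c b hb => by
    rcases le_total c δ with h | h
    · exact p3 δ le_rfl ▸ p1.near (by omega) (by omega)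
    · exact p3 c h ▸ near_refl _ _
  obtain ⟨c, hc⟩ : ∃ c, c + 1 + (μ - a) = δ := ⟨δ - (μ - a) - 1, by omega⟩
  have e3 : NearS G (μ - a) (π (c + 1)) Y := ⟨y, hy, e2 _ _ (by omega)⟩
  refine ⟨y, hy, ⟨π, p1, p2, fun c hc => p3 c (by omega), fun c b hb => e2 c b (e1 c b hb)⟩,
    π c, π (c + 1), ?_, (p1 c).resolve_left fun e => ?_, e3, ?_⟩
  · have := p1.within (T := {p | ¬ NearS G (μ - a) p Y}) (a := 0) c fun c' _ h' hb => by
      have := e1 _ _ hb
      omega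
    rw [p2, zero_add] at this
    exact this.mono (by omega)
  · have := e1 c _ (e ▸ e3)
    omega
  · have := p1.within (T := {p | NearS G (μ - a) p Y}) (a := c + 1) (μ - a) fun c' h' _ =>
      ⟨y, hy, e2 _ _ (by omega)⟩
    rw [p3 _ hc.ge] at this
    exact this.reachable

theorem cfg_step {X X' Y : V → Prop} {k u lam i n a g μ D : ℕ} (hk : 2 ≤ k) (hn : 1 ≤ n)
    (hμ : a + 17 * u ≤ μ) (hΛ : D + (μ + g) ≤ lam * (u + 1))
    (hY : ∀ z, Hub G k u (lam * (u + 1)) Y z → Y z)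
    (hX : ∀ x, X' x → X x ∧ ¬ NearS G μ x Y ∧ NearS G (μ + g) x Y)
    (c : Cfg (within G {p | ¬ NearS G (μ - a) p Y}) X' i (n * (2 * (lam + 1) * k) ^ lam) (a + g) D) :
    Cfg G X (i + 1) n a D := by
  classical
  set U : Set V := {p | ¬ NearS G (μ - a) p Y} with hU
  set P := (2 * (lam + 1) * k) ^ lam with hP
  obtain ⟨x0, x, R, B, c0, c1, c2, c3, c4⟩ := c
  have hball : ∀ v, X' v → bl G a v ⊆ U := fun v hv p hp hs =>
    (hX v hv).2.1 (hs.of_near hp (by omega))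
  have hxU : ∀ v, X' v → v ∈ U := fun v hv => hball v hv (near_refl _ _)
  have hR : ∀ j, R j ⊆ U := fun j =>
    Conn.sub (c1 j).2.2.1 ((c1 j).2.2.2 _ (near_refl _ _)) (hxU _ (c1 j).1)
  have hcl := fun j => climb (by omega : a ≤ μ) (hX _ (c1 j).1).2.1 (hX _ (c1 j).1).2.2
  choose y y1 y2 p q p1 p2 p3 p4 using hcl
  obtain ⟨J, -, -, j1, j2⟩ := exists_net (fun j j' => Near G (17 * u) (y j) (y j'))
    (fun _ _ a => a.symm) (fun _ => near_refl _ _) ∅ univ (empty_subset _) (by simp)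
  have hJ : J.card ≤ P := by
    by_contra hlt
    obtain ⟨j, hj, z, z1, z2, j', hj', hne, w, w1, w2⟩ := bi hk Y J x0 y
      (fun j p => ∀ b ≤ μ - a, NearS G b p Y → Near G b p (y j)) (fun j _ => ⟨by
        refine (Wk.trans (L := D) (q := x j) ?_ ((y2 j).mono le_rfl fun z hz b _ => hz b)).mono
          hΛ fun _ h => h
        obtain ⟨ω, w1, w2, w3⟩ := geo (c1 j).2.1
        exact ⟨ω, w1.le within_le, w2, w3, fun c b hb hs => absurd (hs.mono hb fun _ h => h)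
          (w1.mem (w2 ▸ hxU _ c0) c)⟩, y1 j⟩) j1 (not_le.1 hlt)
    have a1 := z1 0 (by omega) ⟨z, hY z z2, near_refl _ _⟩
    have a2 := w1 (2 * u) (by omega) ⟨z, hY z z2, w2.symm⟩
    exact j1 j hj j' hj' hne.symm ((a1.symm.trans w2).trans' a2 (by omega))
  choose! ρ r1 r2 using j2
  have hP1 : 1 ≤ P := Nat.one_le_pow _ _ (by positivity)
  have j0 : Fin (n * P) := ⟨0, Nat.mul_pos hn hP1⟩
  obtain ⟨j, -, hj⟩ := exists_le_card_fiber_of_mul_le_card_of_maps_to (s := univ) (t := J) (f := ρ)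
    (n := n) r1 ⟨_, r1 j0 (mem_univ _)⟩ (by
      rw [card_univ, Fintype.card_fin, mul_comm]
      exact Nat.mul_le_mul_left _ hJ)
  obtain ⟨I, hI, hcard⟩ := exists_subset_card_eq hj
  obtain ⟨φ, φ1, φ2⟩ := fin_of_card hcard
  have hyj : ∀ j, y j ∈ {p | NearS G (μ - a) p Y} := fun j => ⟨_, y1 j, near_refl _ _⟩
  have hB0 : Disjoint (cmp G {p | NearS G (μ - a) p Y} (y j)) U :=
    Set.disjoint_left.2 fun v hv hv' => hv' hv.1
  have hB : ∀ l, B l ⊆ U := fun l => by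
    obtain ⟨v, hv, w, -, a⟩ := ((c3 l).2 j0).2
    exact Conn.sub (c3 l).1 hv a.2.1
  refine ⟨x0, fun m => x (φ m), fun m => R (φ m),
    Fin.cons (cmp G {p | NearS G (μ - a) p Y} (y j)) B, (hX _ c0).1, fun m => ⟨(hX _ (c1 _).1).1,
    Near.le within_le (c1 _).2.1, Conn.le (c1 _).2.2.1 within_le, fun v hv => (c1 _).2.2.2 v
      ((near_within (hball _ (c1 _).1) hv).mono (by omega))⟩, fun m m' hm => c2 _ _ (φ1.ne hm),
    fun l => ?_, fun l l' => ?_⟩
  · refine Fin.cases ⟨cmp_conn (hyj j), fun m => ⟨hB0.mono_right (hR _), q (φ m), ⟨p3 _, ?_⟩,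
      p (φ m), (c1 _).2.2.2 _ (p1 _), (p2 _).symm⟩⟩ (fun l => ⟨Conn.le (c3 l).1 within_le,
      fun m => ⟨((c3 l).2 _).1, ?_⟩⟩) l
    · have h1 := r2 (φ m) (mem_univ _)
      rw [(mem_filter.1 (hI (φ2 m))).2] at h1
      refine Reachable.trans ?_ (p4 _).symm
      exact (near_within (r := 17 * u) (T := {p | NearS G (μ - a) p Y})
        (fun v hv => ⟨_, y1 j, (Near.symm hv).mono (by omega)⟩) h1.symm).reachable
    · obtain ⟨v, hv, w, hw, a⟩ := ((c3 l).2 (φ m)).2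
      exact ⟨v, hv, w, hw, a.1⟩
  · refine Fin.cases ?_ (fun l => ?_) l <;> refine Fin.cases ?_ (fun l' => ?_) l'
    · exact fun h => absurd rfl h
    · exact fun _ => hB0.mono_right (hB l')
    · exact fun _ => (hB0.mono_right (hB l)).symm
    · exact fun h => c4 l l' fun e => h (congrArg _ e)

end Pool.Agent.Lib.MP_559647_lc.T20
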