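import Pool.Agent.Lib.MP_559647_lc.T20Net

/-! The recursion on the number of chops and on the scale. -/

namespace Pool.Agent.Lib.MP_559647_lc.T20

open Finset SimpleGraph M64 M64.M64SparseAux

variable {N : ℕ} {k u lam T b kk B Q : ℕ}

lemma round {e t1 t2 : ℕ} (h : t1 < t2) (h1 : 2 ^ e ∣ t1) (h2 : 2 ^ e ∣ t2) :
    ∃ t, t1 ≤ t ∧ t ≤ t2 ∧ 2 ^ (e + 1) ∣ t := by
  obtain ⟨a, rfl⟩ := h1
  obtain ⟨c, rfl⟩ := h2
  have hac : a < c := Nat.lt_of_mul_lt_mul_left h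
  rcases Nat.even_or_odd' a with ⟨m, rfl | rfl⟩
  · exact ⟨_, le_rfl, h.le, m, by ring⟩
  · exact ⟨2 ^ e * (2 * m + 1 + 1), Nat.mul_le_mul_left _ (by omega), Nat.mul_le_mul_left _ hac,
      m + 1, by ring⟩

lemma digits_inj {M e e' x x' : ℕ} (hx : x < M) (hx' : x' < M) (h : e * M + x = e' * M + x') :
    e = e' ∧ x = x' := by
  have hM : 0 < M := by omega
  have := congrArg (· / M) h
  simp only [Nat.mul_comm _ M, Nat.mul_add_div hM, Nat.div_eq_of_lt hx, Nat.div_eq_of_lt hx'] at this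
  have e1 : e = e' := by omega
  subst e1
  omega

theorem chop (h : Par N k u lam T b kk B Q) {hh n ts ρ r S D μ g am β : ℕ}
    (hT : ∀ I : Inst N, I.S.card ≤ n → ¬ CliqueMinor I.G hh →
      ∀ z, ¬ lev I.G k u (lam * (u + 1)) T z)
    (hd : ∀ C : Set (Inst N), (∀ I ∈ C, I.S.card ≤ n ∧ ¬ CliqueMinor I.G hh) →
      Dcp C (fun _ _ => True) (17 * u) ts B ρ)
    (hg : 17 * u + 2 * ρ ≤ g) (hr : r ≤ g) (hΛ1 : 2 * (μ + g) + r ≤ lam * (u + 1))
    (hS : 2 * am ≤ S) (hD : 2 * (5 * S + 2 * ρ) + r ≤ D) (hΛ2 : D + (μ + g) ≤ lam * (u + 1))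
    (hμ : am + 17 * u ≤ μ) (hβ1 : μ + g ≤ β) (hβ2 : 5 * S + 2 * ρ ≤ β) (i : ℕ) :
    ∀ (a n0 : ℕ) (C : Set (Inst N)), r ≤ a → a + i * g ≤ am → 1 ≤ n0 →
      n0 * ((2 * (lam + 1) * k) ^ lam) ^ i ≤ 2 ^ b →
      (∀ I ∈ C, I.S.card ≤ n ∧ ¬ CliqueMinor I.G hh ∧ ¬ Cfg I.G (core1 I) i n0 a D) →
      Dcp C core1 r (ts + 11 * Q + i * (3 * Q)) (2 ^ (4 * b + 18) * (Nat.log 2 T + 2) ^ i) β := by
  classical
  induction i with
  | zero =>
    intro a n0 C _ ha _ hn hC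
    exact (dcp_base h (fun I hI => hT I (hC I hI).1 (hC I hI).2.1)
      (hd C fun I hI => ⟨(hC I hI).1, (hC I hI).2.1⟩) (a := a) (by omega) hD (by omega)
      (by simpa using hn) fun I hI => (hC I hI).2.2).mono (by omega) (by simp) hβ2
  | succ i ih =>
    intro a n0 C hra ha hn0 hn hC
    set Λ := lam * (u + 1) with hΛ
    set M := 2 ^ (4 * b + 18) * (Nat.log 2 T + 2) ^ i with hM
    rw [Nat.succ_mul] at ha
    have q1 := h.one
    have hi : (i + 1) * (3 * Q) = i * (3 * Q) + 3 * Q := by ring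
    have : Nonempty (Inst N → Fin N → Fin N) := ⟨fun _ x => x⟩
    have hP1 : 1 ≤ (2 * (lam + 1) * k) ^ lam := Nat.one_le_pow _ _ (by have := h.hk; positivity)
    let W : ℕ → Inst N → Fin N → Prop := fun t I v =>
      ¬ NearS I.G μ v (lev I.G k u Λ t) ∧ NearS I.G (μ + g) v (lev I.G k u Λ t)
    let Z : ℕ → Inst N → Fin N → Prop := fun t I v =>
      NearS I.G μ v (lev I.G k u Λ t) ∧ ¬ NearS I.G (μ + g) v (lev I.G k u Λ (t + 1))
    let U : ℕ → Inst N → Fin N → Prop := fun t I v => ¬ NearS I.G (μ - a) v (lev I.G k u Λ t)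
    let X : ℕ → Inst N → Fin N → Prop := fun t I v => core1 I v ∧ W t I v
    have hl : ∀ x ≤ μ + g, ∀ t ≤ T, Loc C (3 * Q) fun I v => NearS I.G x v (lev I.G k u Λ t) :=
      fun x hx t ht => (nearS_loc (h.lev ht)).mono (by omega)
    have hW : ∀ t ≤ T, Loc C (3 * Q) (W t) := fun t ht I hI J hJ v hv => by
      have e1 := hl μ (by omega) t ht I hI J hJ v hv
      have e2 := hl (μ + g) le_rfl t ht I hI J hJ v hv
      simp only [W] at e1 e2 ⊢
      rw [e1, e2]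
    have hZ : ∀ t < T, Loc C (3 * Q) (Z t) := fun t ht I hI J hJ v hv => by
      have e1 := hl μ (by omega) t ht.le I hI J hJ v hv
      have e2 := hl (μ + g) le_rfl (t + 1) ht I hI J hJ v hv
      simp only [Z] at e1 e2 ⊢
      rw [e1, e2]
    have hU : ∀ t ≤ T, Loc C (3 * Q) (U t) := fun t ht I hI J hJ v hv =>
      congrArg Not (hl (μ - a) (by omega) t ht I hI J hJ v hv)
    have hX : ∀ t ≤ T, Loc C (3 * Q) (X t) := fun t ht I hI J hJ v hv => by
      simp only [X, hW t ht I hI J hJ v hv, core1_loc _ I hI J hJ v hv]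
    have d0 := fun t (ht : t < T) => dcp_zero h ht
      (hd C fun I hI => ⟨(hC I hI).1, (hC I hI).2.1⟩) hg hr hΛ1
    choose! c0 l0 a1 a2 a3 using d0
    have d1 := fun t => ih (a + g) (n0 * (2 * (lam + 1) * k) ^ lam)
      ((fun I => sub I (U t I) (X t I)) '' C) (by omega) (by omega) (Nat.mul_pos hn0 hP1)
      (by rwa [mul_assoc, ← pow_succ']) (by
        rintro _ ⟨I, hI, rfl⟩
        exact ⟨(hC I hI).1, fun e => (hC I hI).2.1 (minor_le e within_le), fun e =>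
          (hC I hI).2.2 (cfg_step h.hk hn0 (by omega) hΛ2 (lev_succ t)
            (fun x hx => sub_inp.1 hx) e)⟩)
    choose c1 l1 b1 b2 b3 using d1
    obtain ⟨p, p1, p2⟩ := Loc.choose (C := C) (t := 3 * Q)
      (P := fun I v (p : ℕ × ℕ) => (p.2 = 0 ∧ p.1 < T ∧ Z p.1 I v) ∨ ∃ e, p.2 = e + 1 ∧ p.1 ≤ T ∧
        W p.1 I v ∧ 2 ^ e ∣ p.1 ∧ ∀ t ≤ T, W t I v → ¬ 2 ^ (e + 1) ∣ t)
      (by
        rcases isEmpty_or_nonempty (Fin N) with hN | hN
        · exact fun _ _ _ _ v => hN.elim v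
        refine loc_of_imp fun I hI J hJ v hv p => ?_
        rintro (⟨f1, f2, f3⟩ | ⟨e, f1, f2, f3, f4, f5⟩)
        · exact Or.inl ⟨f1, f2, (hZ _ f2 I hI J hJ v hv).mp f3⟩
        · exact Or.inr ⟨e, f1, f2, (hW _ f2 I hI J hJ v hv).mp f3, f4, fun t ht hw =>
            f5 t ht ((hW _ ht I hI J hJ v hv).mpr hw)⟩)
    have hW0 : ∀ t I v, W t I v → 0 < t := fun t I v hw => Nat.pos_of_ne_zero fun e =>
      hw.1 (e ▸ ⟨v, trivial, near_refl _ _⟩)
    have p3 := fun I hI v => p2 I v (by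
      obtain ⟨t, t1, t2, t3⟩ := exists_lev (hT I (hC I hI).1 (hC I hI).2.1) μ v
      by_cases t4 : NearS I.G (μ + g) v (lev I.G k u Λ (t + 1))
      · have hex : ∃ e, ∀ t ≤ T, W t I v → ¬ 2 ^ e ∣ t := ⟨T, fun t ht hw hdv => by
          have := Nat.le_of_dvd (hW0 t I v hw) hdv
          have : T < 2 ^ T := Nat.lt_two_pow_self
          omega⟩
        have e1 := Nat.find_spec hex
        have e2 : Nat.find hex ≠ 0 := fun e => e1 (t + 1) t1 ⟨t3, t4⟩ (by simp [e])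
        obtain ⟨e, he⟩ := Nat.exists_eq_succ_of_ne_zero e2
        have e3 := Nat.find_min hex (show e < Nat.find hex by omega)
        push Not at e3
        obtain ⟨t', f1, f2, f3⟩ := e3
        exact ⟨(t', e + 1), Or.inr ⟨e, rfl, f1, f2, f3, by rw [he] at e1; exact e1⟩⟩
      · exact ⟨(t, 0), Or.inl ⟨rfl, t1, t2, t4⟩⟩)
    have hM1 : 2 ^ (4 * b + 18) ≤ M := Nat.le_mul_of_pos_right _ (by positivity)
    have hloc : ∀ {α : Type} (f0 f1 : ℕ → Inst N → Fin N → α),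
        (∀ t < T, Loc C (ts + 7 * Q) (f0 t)) → (∀ t, Loc ((fun I => sub I (U t I) (X t I)) '' C)
          (ts + 11 * Q + i * (3 * Q)) (f1 t)) → Loc C (ts + 11 * Q + (i + 1) * (3 * Q))
          fun I v => if (p I v).2 = 0 then f0 (p I v).1 I v
            else f1 (p I v).1 (sub I (U (p I v).1 I) (X (p I v).1 I)) v := by
      intro α f0 f1 h0 h1 I hI J hJ v hv
      rw [hi] at hv
      have e := p1 I hI J hJ v (hv.mono (by omega))
      simp only [← e]
      rcases p3 I hI v with ⟨g1, g2, -⟩ | ⟨e', g1, g2, -⟩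
      · rw [if_pos g1, if_pos g1]
        exact h0 _ g2 I hI J hJ v (hv.mono (by omega))
      · rw [if_neg (by omega), if_neg (by omega)]
        exact loc_sub (hU _ g2) (hX _ g2) (h1 _) I hI J hJ v (hv.mono (by omega))
    have hlt : ∀ I ∈ C, ∀ v, (if (p I v).2 = 0 then l0 (p I v).1 I v
        else l1 (p I v).1 (sub I (U (p I v).1 I) (X (p I v).1 I)) v) < M := by
      intro I hI v
      rcases p3 I hI v with ⟨g1, g2, -⟩ | ⟨e', g1, g2, -⟩
      · rw [if_pos g1]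
        exact ((a3 _ g2 I hI).1 v).trans_le hM1
      · rw [if_neg (by omega)]
        exact (b3 _ _ ⟨I, hI, rfl⟩).1 v
    refine ⟨_, fun I v => (p I v).2 * M + (if (p I v).2 = 0 then l0 (p I v).1 I v
        else l1 (p I v).1 (sub I (U (p I v).1 I) (X (p I v).1 I)) v), hloc c0 c1 a1 b1,
      fun I hI J hJ v hv => ?_, fun I hI => ⟨fun v => ?_, fun v => ?_, fun v w hv hw e hn => ?_⟩⟩
    · have e := hloc l0 l1 a2 b2 I hI J hJ v hv
      rw [hi] at hv
      simp only at e ⊢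
      rw [e, p1 I hI J hJ v (hv.mono (by omega))]
    · have e1 := hlt I hI v
      have e2 : (p I v).2 ≤ Nat.log 2 T + 1 := by
        rcases p3 I hI v with ⟨g1, -⟩ | ⟨e', g1, g2, g3, g4, -⟩
        · omega
        · have := Nat.le_log_of_pow_le (by norm_num) ((Nat.le_of_dvd (hW0 _ I v g3) g4).trans g2)
          omega
      have e3 := Nat.mul_le_mul_right M e2
      rw [pow_succ (Nat.log 2 T + 2), ← mul_assoc, ← hM]
      refine lt_of_lt_of_le (Nat.add_lt_add_of_le_of_lt e3 e1) (le_of_eq (by ring))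
    · rcases p3 I hI v with ⟨g1, g2, -⟩ | ⟨e', g1, g2, -⟩
      · simp only [if_pos g1]
        exact ((a3 _ g2 I hI).2.1 v).mono hβ1
      · simp only [if_neg (show ¬ (p I v).2 = 0 by omega)]
        exact Near.le within_le ((b3 _ _ ⟨I, hI, rfl⟩).2.1 v)
    obtain ⟨e1, e2⟩ := digits_inj (hlt I hI v) (hlt I hI w) e
    have k0 : ∀ x y s t, Near I.G r x y → Z s I x → Z t I y → ¬ s < t := fun x y s t n1 z1 z2 hst =>
      z1.2 ((z2.1.mono le_rfl (lev_anti hst)).of_near n1 (by omega))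
    have k1 : ∀ x y s t e, Near I.G r x y → t ≤ T → W s I x → W t I y → 2 ^ e ∣ s → 2 ^ e ∣ t →
        (∀ t ≤ T, W t I x → ¬ 2 ^ (e + 1) ∣ t) → (∀ t ≤ T, W t I y → ¬ 2 ^ (e + 1) ∣ t) →
        ¬ s < t := by
      intro x y s t e n1 ht w1 w2 s1 s2 m1 m2 hst
      obtain ⟨t', f1, f2, f3⟩ := round hst s1 s2
      have g1 : NearS I.G μ y (lev I.G k u Λ t') := by
        by_contra g
        exact m2 t' (by omega) ⟨g, w2.2.mono le_rfl (lev_anti f2)⟩ f3
      exact m1 t' (by omega) ⟨fun g => w1.1 (g.mono le_rfl (lev_anti f1)),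
        g1.of_near n1 (by omega)⟩ f3
    rcases p3 I hI v with ⟨g1, g2, g3⟩ | ⟨e', g1, g2, g3, g4, g5⟩ <;>
      rcases p3 I hI w with ⟨f1, f2, f3⟩ | ⟨e'', f1, f2, f3, f4, f5⟩
    · have := k0 v w _ _ hn g3 f3
      have := k0 w v _ _ hn.symm f3 g3
      have e3 : (p I w).1 = (p I v).1 := by omega
      simp only [if_pos g1, if_pos f1, e3] at e2 f3 ⊢
      exact (a3 _ g2 I hI).2.2 v w g3 f3 e2 hn
    · omega
    · omega
    · obtain rfl : e' = e'' := by omega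
      have := k1 v w _ _ e' hn f2 g3 f3 g4 f4 g5 f5
      have := k1 w v _ _ e' hn.symm g2 f3 g3 f4 g4 f5 g5
      have e3 : (p I w).1 = (p I v).1 := by omega
      simp only [if_neg (show ¬ (p I v).2 = 0 by omega), if_neg (show ¬ (p I w).2 = 0 by omega),
        e3] at e2 f3 ⊢
      refine (b3 _ _ ⟨I, hI, rfl⟩).2.2 v w (sub_inp.2 ⟨hv, g3⟩) (sub_inp.2 ⟨hw, f3⟩) e2 ?_
      exact near_within (fun x hx hs => g3.1 (hs.of_near hx (by omega))) hn

end Pool.Agent.Lib.MP_559647_lc.T20
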