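import Pool.Agent.Lib.MP_559647_lc.T20Chop

/-! The recursion on the scale and the choice of the parameters. -/

namespace Pool.Agent.Lib.MP_559647_lc.T20

open Finset SimpleGraph M64 M64.M64SparseAux

lemma scales {N h k K lam b kk n j : ℕ} (h1 : 1 ≤ h)
    (hlam : lam = (63 * h + 30) * (17 * (30 * h + 12))) (hk : (2 * lam + 3) * (K * cH h lam) < k)
    (hk2 : 2 ≤ k) (hn : n < K ^ j) (hN : N ≤ tower kk)
    (hb : h * ((2 * (lam + 1) * k) ^ lam) ^ h ≤ 2 ^ b) {B W : ℕ}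
    (hB : B = 2 ^ (4 * b + 18) * (Nat.log 2 (j + 1) + 2) ^ h)
    (hW : W = (j + 1 + B + kk + 2 ^ (4 * b + 18)) * lam) (r : ℕ) :
    ∀ C : Set (Inst N), (∀ I ∈ C, I.S.card ≤ n ∧ ¬ CliqueMinor I.G h) →
      Dcp C (fun _ _ => True) r (2 * (11 + 3 * h) * W * r) B ((30 * h + 12) * r) := by
  induction r using Nat.strong_induction_on with
  | h r ih =>
    intro C hC
    rcases Nat.eq_zero_or_pos r with rfl | hr
    · exact ⟨fun _ v => v, fun _ _ => 0, fun _ _ _ _ _ _ => rfl, fun _ _ _ _ _ _ => rfl,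
        fun I _ => ⟨fun _ => by rw [hB]; positivity, fun v => near_refl _ v,
          fun v w _ _ _ hn => near_zero_iff.1 hn⟩⟩
    set c2 := 17 * (30 * h + 12) with hc2
    set u := r / c2 with hu
    have u1 : c2 * u ≤ r := Nat.mul_div_le r c2
    have u2 : r < c2 * (u + 1) := Nat.lt_mul_div_succ r (by omega)
    have u3 : (30 * h + 12) * (17 * u) ≤ r := by rw [hc2] at u1; nlinarith
    have u4 : 2 * (17 * u) ≤ r := by nlinarith
    have u5 : (63 * h + 30) * r ≤ lam * (u + 1) := by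
      rw [hlam, mul_assoc]
      exact Nat.mul_le_mul_left _ u2.le
    have hP1 : 1 ≤ (2 * (lam + 1) * k) ^ lam := Nat.one_le_pow _ _ (by positivity)
    have par : Par N k u lam (j + 1) b kk B (W * r) := ⟨hk2, hN,
      le_trans ((Nat.le_self_pow (by omega) _).trans (Nat.le_mul_of_pos_left _ h1)) hb,
      by rw [hlam]; nlinarith, by
        rw [hW, mul_assoc]
        exact Nat.mul_le_mul_left _ (Nat.mul_le_mul_left _ (by omega))⟩
    have e1 : (63 * h + 30) * r = 63 * (h * r) + 30 * r := by ring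
    have e2 : (30 * h + 12) * r = 30 * (h * r) + 12 * r := by ring
    have e3 : h * (3 * r) = 3 * (h * r) := by ring
    obtain ⟨c, col, a1, a2, a3⟩ := chop par (hh := h) (n := n)
      (ts := 2 * (11 + 3 * h) * W * (17 * u)) (ρ := r) (r := r) (S := 2 * (r + 3 * (h * r)))
      (D := 60 * (h * r) + 25 * r) (μ := 2 * r + 3 * (h * r)) (g := 3 * r) (am := r + 3 * (h * r))
      (β := (30 * h + 12) * r) (fun I hI hG => lev_empty I hI hG hk hk2 hn)
      (fun C hC => (ih (17 * u) (by omega) C hC).mono le_rfl le_rfl u3) (by omega) (by omega)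
      (by omega) le_rfl (by omega) (by omega) (by omega) (by omega) (by omega) h r h
      ((fun I => sub I (fun _ => True) (fun _ => True)) '' C) le_rfl (by omega) h1 hb (by
        rintro _ ⟨I, hI, rfl⟩
        have : ¬ CliqueMinor (sub I (fun _ => True) (fun _ => True)).G h :=
          fun e => (hC I hI).2 (minor_le e within_le)
        exact ⟨(hC I hI).1, this, fun e => this (cfg_top e)⟩)
    have ht : 2 * (11 + 3 * h) * W * (17 * u) + 11 * (W * r) + h * (3 * (W * r)) + 0 ≤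
        2 * (11 + 3 * h) * W * r := by
      have := Nat.mul_le_mul_left ((11 + 3 * h) * W) u4
      nlinarith
    have hl : Loc C 0 fun _ _ => True := fun _ _ _ _ _ _ => rfl
    exact ⟨_, _, (loc_sub hl hl a1).mono ht, (loc_sub hl hl a2).mono ht, fun I hI =>
      ⟨fun v => hB ▸ (a3 _ ⟨I, hI, rfl⟩).1 v, fun v => Near.le within_le ((a3 _ ⟨I, hI, rfl⟩).2.1 v),
      fun v w _ _ e hn => (a3 _ ⟨I, hI, rfl⟩).2.2 v w (sub_inp.2 trivial) (sub_inp.2 trivial) e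
        (near_within (fun _ _ => trivial) hn)⟩⟩

lemma poly_le (d y : ℕ) : (y + 1) ^ (d + 1) ≤ (d + 1) ^ (d + 1) * 2 ^ y := by
  have h1 : y + 1 ≤ (d + 1) * 2 ^ (y / (d + 1)) :=
    (Nat.lt_mul_div_succ y (Nat.succ_pos d)).trans_le (Nat.mul_le_mul_left _ Nat.lt_two_pow_self)
  refine (Nat.pow_le_pow_left h1 _).trans ?_
  rw [mul_pow, ← pow_mul]
  exact Nat.mul_le_mul_left _ (Nat.pow_le_pow_right (by norm_num) (Nat.div_mul_le_self _ _))

lemma numbers (h lam c : ℕ) (h1 : 1 ≤ h) (hl : 1 ≤ lam) : ∃ A, ∀ n, 2 ≤ n → ∃ m j b, n < (2 ^ m) ^ j ∧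
    h * ((c * 2 ^ m) ^ lam) ^ h ≤ 2 ^ b ∧
    (j + 1 + 2 ^ (4 * b + 18) * (Nat.log 2 (j + 1) + 2) ^ h + 2 ^ (4 * b + 18)) *
      (Nat.log 2 (Nat.log 2 n) + 1) ≤ A * Nat.log 2 n := by
  set b0 := h * (c ^ lam) ^ h with hb0
  set γ := 8 * (lam * h) with hγ
  have hγ1 : 0 < γ := by positivity
  refine ⟨2 * γ + 2 + 2 * (2 ^ (4 * b0 + 18 + 4 * (lam * h)) * (5 ^ (h + 1) * (h + 1) ^ (h + 1))),
    fun n hn => ?_⟩
  set L := Nat.log 2 n with hL
  set l := Nat.log 2 L with hl'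
  have L1 : 1 ≤ L := Nat.le_log_of_pow_le (by norm_num) (by simpa using hn)
  have L2 : n < 2 ^ (L + 1) := Nat.lt_pow_succ_log_self (by norm_num) n
  have L3 : 2 ^ l ≤ L := Nat.pow_log_le_self 2 (by omega)
  have L4 : L < 2 ^ (l + 1) := Nat.lt_pow_succ_log_self (by norm_num) L
  have L5 : l < 2 ^ l := Nat.lt_two_pow_self
  obtain ⟨z, z1, m2⟩ : ∃ z, l < γ * (z + 1) ∧ γ * z ≤ l :=
    ⟨l / γ, Nat.lt_mul_div_succ l hγ1, Nat.mul_div_le l γ⟩
  obtain ⟨m, hm⟩ : ∃ m, m = z + 1 := ⟨_, rfl⟩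
  have m1 : l < γ * m := hm ▸ z1
  obtain ⟨j, j0, j1⟩ : ∃ j, L + 1 < m * (j + 1) ∧ m * j ≤ L + 1 :=
    ⟨(L + 1) / m, Nat.lt_mul_div_succ _ (by omega), Nat.mul_div_le _ m⟩
  refine ⟨m, j + 1, b0 + m * (lam * h), ?_, ?_, ?_⟩
  · rw [← pow_mul]
    exact L2.trans_le (Nat.pow_le_pow_right (by norm_num) j0.le)
  · rw [mul_pow, mul_pow, ← mul_assoc, ← hb0, pow_add 2 b0, ← pow_mul, ← pow_mul]
    exact Nat.mul_le_mul_right _ Nat.lt_two_pow_self.le
  have j2 : j ≤ L + 1 := (Nat.le_mul_of_pos_left _ (by omega)).trans j1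
  have a1 : (j + 1 + 1) * (l + 1) ≤ (2 * γ + 2) * L := by
    have : j * (l + 1) ≤ γ * (2 * L) :=
      calc j * (l + 1) ≤ j * (γ * m) := Nat.mul_le_mul_left _ m1
        _ = γ * (m * j) := by ring
        _ ≤ _ := Nat.mul_le_mul_left _ (by omega)
    nlinarith
  have a2 : Nat.log 2 (j + 1 + 1) + 2 ≤ l + 4 := by
    have : Nat.log 2 (j + 1 + 1) < l + 3 := Nat.log_lt_of_lt_pow (by omega) (by
      rw [pow_succ] at L4
      rw [pow_add]
      omega)
    omega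
  have m4 : γ * z = 2 * (4 * (lam * h) * z) := by rw [hγ]; ring
  obtain ⟨y, hy⟩ : ∃ y, 4 * (lam * h) * z + y = l := ⟨l - 4 * (lam * h) * z, by omega⟩
  have a3 : l + 4 ≤ 5 * (y + 1) := by omega
  set CL := 2 ^ (4 * (b0 + m * (lam * h)) + 18) with hCL
  have a4 : CL * (l + 4) ^ (h + 1) ≤
      2 ^ (4 * b0 + 18 + 4 * (lam * h)) * (5 ^ (h + 1) * (h + 1) ^ (h + 1)) * L :=
    calc CL * (l + 4) ^ (h + 1) ≤ CL * (5 ^ (h + 1) * ((h + 1) ^ (h + 1) * 2 ^ y)) := by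
          refine Nat.mul_le_mul_left _ ((Nat.pow_le_pow_left a3 _).trans ?_)
          rw [mul_pow]
          exact Nat.mul_le_mul_left _ (poly_le h y)
      _ = 2 ^ (4 * b0 + 18 + 4 * (lam * h)) * (5 ^ (h + 1) * (h + 1) ^ (h + 1)) *
          2 ^ (4 * (lam * h) * z + y) := by rw [hCL, hm]; ring
      _ ≤ _ := by rw [hy]; exact Nat.mul_le_mul_left _ L3
  have a5 : (Nat.log 2 (j + 1 + 1) + 2) ^ h * (l + 1) ≤ (l + 4) ^ (h + 1) := by
    rw [pow_succ]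
    exact Nat.mul_le_mul (Nat.pow_le_pow_left a2 _) (by omega)
  have a6 : l + 1 ≤ (l + 4) ^ (h + 1) := le_trans (by omega) (Nat.le_self_pow (by omega) (l + 4))
  have a7 := Nat.mul_le_mul_left CL a5
  have a8 := Nat.mul_le_mul_left CL a6
  nlinarith

theorem decomp (h : ℕ) (h1 : 1 ≤ h) : ∃ A, ∀ n, 2 ≤ n → ∃ X, 1 ≤ X ∧
    X * (Nat.log 2 (Nat.log 2 n) + 1) ≤ A * Nat.log 2 n ∧
    ∀ (N kk r : ℕ) (C : Set (Inst N)), N ≤ tower kk →
      (∀ I ∈ C, I.S.card ≤ n ∧ ¬ CliqueMinor I.G h) →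
      Dcp C (fun _ _ => True) r (A * (X + kk) * r) X (A * r) := by
  obtain ⟨lam, hlam⟩ : ∃ lam, lam = (63 * h + 30) * (17 * (30 * h + 12)) := ⟨_, rfl⟩
  obtain ⟨c, hc⟩ : ∃ c, c = cH h lam := ⟨_, rfl⟩
  obtain ⟨A, hA⟩ := numbers h lam (2 * (lam + 1) * ((2 * lam + 3) * c + 2)) h1
    (Nat.succ_le_of_lt (by rw [hlam]; positivity))
  refine ⟨A + 2 * (11 + 3 * h) * lam + (30 * h + 12), fun n hn => ?_⟩
  obtain ⟨m, j, b, a1, a2, a3⟩ := hA n hn
  have h2 : 1 ≤ 2 ^ m := Nat.one_le_two_pow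
  have key := fun (N kk : ℕ) (hN : N ≤ tower kk) => scales (k := ((2 * lam + 3) * c + 2) * 2 ^ m)
    (K := 2 ^ m) (b := b) h1 hlam
    (by rw [← hc, add_mul _ 2, mul_comm (2 ^ m), ← mul_assoc]; omega)
    ((Nat.le_add_left 2 _).trans (Nat.le_mul_of_pos_right _ h2)) a1 hN
    (by rw [← mul_assoc (2 * (lam + 1))]; exact a2) rfl rfl
  generalize 2 ^ (4 * b + 18) * (Nat.log 2 (j + 1) + 2) ^ h = B at a3 key
  generalize 2 ^ (4 * b + 18) = E at a3 key
  refine ⟨j + 1 + B + E, by omega, a3.trans (Nat.mul_le_mul_right _ (by omega)),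
    fun N kk r C hN hC => (key N kk hN r C hC).mono (Nat.mul_le_mul_right _ ?_) (by omega)
    (Nat.mul_le_mul_right _ (by omega))⟩
  rw [mul_comm _ lam, ← mul_assoc]
  exact Nat.mul_le_mul (by omega) (by omega)

end Pool.Agent.Lib.MP_559647_lc.T20
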