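import Pool.Agent.Lib.MP_559647_lc.T20Loc

/-! Decompositions between two levels and in sets of bounded independence. -/

namespace Pool.Agent.Lib.MP_559647_lc.T20

open Finset SimpleGraph M64

variable {N : ℕ} {C : Set (Inst N)} {k u lam T b kk B Q : ℕ}

/-- the standing assumptions on the parameters -/
structure Par (N k u lam T b kk B Q : ℕ) : Prop where
  hk : 2 ≤ k
  hN : N ≤ tower kk
  hP : (2 * (lam + 1) * k) ^ lam ≤ 2 ^ b
  hu : 20 * u + 1 ≤ lam * (u + 1)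
  hQ : (T + B + kk + 2 ^ (4 * b + 18)) * (lam * (u + 1)) ≤ Q

lemma Par.le (h : Par N k u lam T b kk B Q) (x y : ℕ) (hx : x ≤ T + B + kk)
    (hy : y ≤ lam * (u + 1)) : x * y ≤ Q := (Nat.mul_le_mul (le_add_right hx) hy).trans h.hQ

lemma Par.le' (h : Par N k u lam T b kk B Q) (y : ℕ) (hy : y ≤ lam * (u + 1)) :
    2 ^ (4 * b + 18) * y ≤ Q := (Nat.mul_le_mul (Nat.le_add_left _ _) hy).trans h.hQ

lemma Par.one (h : Par N k u lam T b kk B Q) : lam * (u + 1) ≤ Q :=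
  (Nat.le_mul_of_pos_left _ (by positivity)).trans (h.le' _ le_rfl)

lemma Par.lev (h : Par N k u lam T b kk B Q) {t : ℕ} (ht : t ≤ T) :
    Loc C (2 * Q) fun I => lev I.G k u (lam * (u + 1)) t := by
  refine (lev_loc k u _ t).mono ?_
  have := h.le t (20 * u + 1) (by omega) h.hu
  have := h.le t _ (by omega) le_rfl
  rw [mul_add]
  omega

lemma exists_lev {V : Type} {G : SimpleGraph V} {Λ : ℕ} (hT : ∀ z, ¬ lev G k u Λ T z) (a : ℕ)
    (x : V) : ∃ t < T, NearS G a x (lev G k u Λ t) ∧ ¬ NearS G a x (lev G k u Λ (t + 1)) := by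
  by_contra hn
  push Not at hn
  have : ∀ t ≤ T, NearS G a x (lev G k u Λ t) := fun t => by
    induction t with
    | zero => exact fun _ => ⟨x, trivial, near_refl _ _⟩
    | succ t ih => exact fun ht => hn t (by omega) (ih (by omega))
  obtain ⟨y, hy, -⟩ := this T le_rfl
  exact hT y hy

lemma dcp_zero (h : Par N k u lam T b kk B Q) {ts ρ r μ g t : ℕ} (ht : t < T)
    (hd : Dcp C (fun _ _ => True) (17 * u) ts B ρ) (hg : 17 * u + 2 * ρ ≤ g) (hr : r ≤ g)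
    (hΛ : 2 * (μ + g) + r ≤ lam * (u + 1)) :
    Dcp C (fun I v => NearS I.G μ v (lev I.G k u (lam * (u + 1)) t) ∧
      ¬ NearS I.G (μ + g) v (lev I.G k u (lam * (u + 1)) (t + 1))) r (ts + 7 * Q)
      (2 ^ (4 * b + 18)) (μ + g) := by
  have q1 := h.one
  have q2 := h.le B (17 * u) (by omega) (by omega)
  have q3 := h.le kk (μ + g + r + (μ + g)) (by omega) (by omega)
  obtain ⟨R, r1, r2⟩ := key (t := ts + 2 * Q) (D := 0) (17 * u) ((h.lev ht.le).mono (by omega))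
    (y := fun _ x => x) (fun _ _ _ _ _ _ => rfl) (fun _ _ x => near_refl _ x)
    (hd.mono (by omega) le_rfl le_rfl)
  obtain ⟨ctr, c1, c2⟩ := point (μ + g) r1
  refine (clus (t := ts + 5 * Q) h.hN ?_ (c1.mono (by omega)) (fun I _ v => (c2 I v).1) ?_).mono
    (by omega) le_rfl le_rfl
  · intro I hI J hJ v hv
    have e1 := nearS_loc (b := μ) (h.lev ht.le) I hI J hJ v (hv.mono (by omega))
    have e2 := nearS_loc (b := μ + g) (h.lev (t := t + 1) ht) I hI J hJ v (hv.mono (by omega))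
    simp only at e1 e2 ⊢
    rw [e1, e2]
  · intro I hI c F hF
    have hR : ∀ c' ∈ F, R I c' := fun c' hc' => by
      obtain ⟨-, v, v', -, ⟨⟨y, y1, y2⟩, -⟩, -, -, rfl⟩ := hF c' hc'
      exact (c2 I v').2 (((r2 I hI).2.1 y y1).of_near y2 (by omega))
    refine (bi_le (t := t) h.hk F c id (fun c' hc' => ⟨?_, (r2 I hI).1 _ (hR c' hc')⟩)
      fun x hx y hy hne hn => hne ((r2 I hI).2.2 x x y (hR x hx) (hR x hx) (hR y hy)
        (near_refl _ _) hn hn)).trans h.hP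
    obtain ⟨-, v, v', a1, a2, a3, rfl, rfl⟩ := hF c' hc'
    refine ((((wk_right (c2 I v).1.symm le_rfl).trans (wk_left (b := μ + g) a3 (by omega))).mono
      le_rfl fun z hz hl => a1.2 ⟨z, hl, hz⟩).trans ((wk_left (c2 I v').1 le_rfl).mono le_rfl
      fun z hz hl => a2.2 ⟨z, hl, hz⟩)).mono (by omega) fun _ h => h

/-- the marked nodes -/
def core1 (I : Inst N) (x : Fin N) : Prop := I.inp x = 1

lemma core1_loc (t : ℕ) : Loc C t core1 := fun I _ J _ v hv => by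
  simp only [core1, hv.2 v (near_refl _ _)]

lemma dcp_base (h : Par N k u lam T b kk B Q) {ts ρ r S a D n : ℕ}
    (hT : ∀ I ∈ C, ∀ z, ¬ lev I.G k u (lam * (u + 1)) T z)
    (hd : Dcp C (fun _ _ => True) (17 * u) ts B ρ) (hS : 2 * a ≤ S)
    (hD : 2 * (5 * S + 2 * ρ) + r ≤ D) (hΛ : D ≤ lam * (u + 1)) (hn : n ≤ 2 ^ b)
    (hC : ∀ I ∈ C, ¬ Cfg I.G (core1 I) 0 n a D) :
    Dcp C core1 r (ts + 11 * Q) (2 ^ (4 * b + 18)) (5 * S + 2 * ρ) := by
  rcases isEmpty_or_nonempty (Fin N) with hN | hN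
  · exact ⟨fun _ x => x, fun _ _ => 0, fun _ _ _ _ _ _ => rfl, fun _ _ _ _ _ _ => rfl,
      fun _ _ => ⟨fun v => hN.elim v, fun v => hN.elim v, fun v => hN.elim v⟩⟩
  set Λ := lam * (u + 1) with hΛ'
  have q1 := h.one
  have q2 := h.le T S (by omega) (by omega)
  have q3 := h.le B S (by omega) (by omega)
  have q4 := h.le kk S (by omega) (by omega)
  have q5 := h.le' S (by omega)
  have q6 := h.le kk (5 * S + 2 * ρ + r + (5 * S + 2 * ρ)) (by omega) (by omega)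
  obtain ⟨p, p1, p2⟩ := Loc.choose (C := C) (t := S + 2 * Q)
    (P := fun I x (p : ℕ × Fin N) => p.1 < T ∧ lev I.G k u Λ p.1 p.2 ∧ Near I.G S x p.2 ∧
      ¬ NearS I.G S x (lev I.G k u Λ (p.1 + 1)))
    (loc_of_imp fun I hI J hJ v hv p ⟨a1, a2, a3, a4⟩ => ⟨a1,
      ((h.lev a1.le).at hI hJ hv a3 le_rfl).mp a2, (hv.near_iff (by omega) _).1 a3, fun a5 =>
      a4 ((nearS_loc (h.lev (t := p.1 + 1) a1) I hI J hJ v hv).mpr a5)⟩)
  have p3 := fun I hI x => p2 I x (by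
    obtain ⟨t, t1, ⟨y, y1, y2⟩, t2⟩ := exists_lev (hT I hI) S x
    exact ⟨(t, y), t1, y1, y2, t2⟩)
  obtain ⟨R0, a1, a2⟩ := rule S (core1_loc (S + 2 * Q)) (col := fun I x => (p I x).1)
    (fun I hI J hJ v hv => congrArg Prod.fst (p1 I hI J hJ v hv)) fun I hI x => (p3 I hI x).1
  obtain ⟨R1, b1, b2⟩ := key (t := ts + S + 3 * Q) S (a1.mono (by omega))
    (y := fun I x => (p I x).2)
    (fun I hI J hJ v hv => congrArg Prod.snd (p1 I hI J hJ v (hv.mono (by omega))))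
    (fun I hI x => (p3 I hI x).2.2.1) (hd.mono (by omega) le_rfl le_rfl)
  have b1' := b1.mono (s := ts + 4 * S + 2 * ρ + 4 * Q) (by omega)
  obtain ⟨col, c1, c2, c3⟩ := linial (t := ts + 5 * S + 2 * ρ + 4 * Q) (D := S) (b := b) h.hN
    (Rel := fun I x y => R1 I x ∧ R1 I y ∧ Near I.G S x y)
    (loc_of_imp fun I hI J hJ v hv y ⟨d1, d2, d3⟩ => ⟨b1' I hI J hJ v (hv.mono (by omega)) ▸ d1,
      b1'.at hI hJ hv d3 (by omega) ▸ d2, (hv.near_iff (by omega) _).1 d3⟩)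
    (fun _ _ _ _ a => a.2.2) (fun I hI x F hF => by
      have e : ∀ y ∈ F, (p I x).1 = (p I y).1 := fun y hy => (a2 I hI).2.1 x y
        ((b2 I hI).1 _ (hF y hy).2.1) ((b2 I hI).1 _ (hF y hy).2.2.1) (hF y hy).2.2.2
      refine (bi_le (t := (p I x).1) h.hk F x (fun y => (p I y).2) (fun y hy =>
        ⟨?_, e y hy ▸ (p3 I hI y).2.1⟩) fun y hy y' hy' hne hn => hne ((b2 I hI).2.2 x y y'
          (hF y hy).2.1 (hF y hy).2.2.1 (hF y' hy').2.2.1 (hF y hy).2.2.2 (hF y' hy').2.2.2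
          hn)).trans h.hP
      exact ((wk_right (hF y hy).2.2.2 le_rfl).trans (wk_left (p3 I hI y).2.2.1 le_rfl)).mono
        (by omega) fun z hz hl => (p3 I hI y).2.2.2 ⟨z, e y hy ▸ hl, hz⟩)
  obtain ⟨R2, d1, d2⟩ := rule S (b1'.mono (by omega)) c1 c2
  obtain ⟨ctr, e1, e2⟩ := point (5 * S + 2 * ρ) d1
  refine (clus (t := ts + 9 * Q) h.hN (core1_loc _) (e1.mono (by omega))
    (fun I _ v => (e2 I v).1) fun I hI c F hF => ?_).mono (by omega) le_rfl le_rfl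
  have hR : ∀ v, core1 I v → R2 I (ctr I v) := fun v hv => (e2 I v).2 (by
    obtain ⟨x, x1, x2⟩ := (a2 I hI).2.2 v hv
    obtain ⟨y, y1, y2⟩ := (b2 I hI).2.1 x x1
    exact ((d2 I hI).2.2 y y1).of_near (x2.trans y2) (by omega))
  have hX : ∀ v, R2 I v → core1 I v := fun v hv =>
    (a2 I hI).1 _ ((b2 I hI).1 _ ((d2 I hI).1 _ hv))
  have hR' : ∀ c' ∈ F, R2 I c' := fun c' hc' => by
    obtain ⟨-, v, v', -, f, -, -, rfl⟩ := hF c' hc'
    exact hR _ f
  rcases F.eq_empty_or_nonempty with rfl | ⟨c0, hc0⟩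
  · simp
  refine (cfg_base (hC I hI) (c := c) ?_ F (fun c' hc' => ⟨hX _ (hR' c' hc'), ?_⟩)
    fun x hx y hy hne hn => ?_).trans hn
  · obtain ⟨-, v, v', f, -, -, rfl, -⟩ := hF c0 hc0
    exact hX _ (hR _ f)
  · obtain ⟨-, v, v', -, -, f, rfl, rfl⟩ := hF c' hc'
    exact ((e2 I v).1.symm.trans f).trans' (e2 I v').1 (by omega)
  · have hn' := hn.mono hS
    exact c3 I hI x y hne ⟨(d2 I hI).1 _ (hR' x hx), (d2 I hI).1 _ (hR' y hy), hn'⟩
      ((d2 I hI).2.1 x y (hR' x hx) (hR' y hy) hn')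

end Pool.Agent.Lib.MP_559647_lc.T20
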