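import Pool.Agent.Lib.MP_559647_lc.M64Mader
import Pool.Agent.Lib.MP_559647_lc.M64Sparse

/-! Lazy walks, packing along a walk, colourings of degenerate relations. -/

namespace Pool.Agent.Lib.MP_559647_lc.T20

open Finset SimpleGraph M64

variable {V : Type} {G : SimpleGraph V} {γ : ℕ → V}

/-- a walk that may wait -/
def Lazy (G : SimpleGraph V) (γ : ℕ → V) : Prop :=
  ∀ c, γ c = γ (c + 1) ∨ G.Adj (γ c) (γ (c + 1))

lemma Lazy.le {H : SimpleGraph V} (h : Lazy G γ) (hle : G ≤ H) : Lazy H γ :=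
  fun c => (h c).imp id fun a => hle a

lemma Lazy.near_add (h : Lazy G γ) (a j : ℕ) : Near G j (γ a) (γ (a + j)) := by
  induction j with
  | zero => exact near_refl _ _
  | succ j ih =>
    rcases h (a + j) with e | e
    · rw [← add_assoc, ← e]; exact ih.mono (by omega)
    · exact ih.trans (near_of_adj e)

lemma Lazy.near (h : Lazy G γ) {a b j : ℕ} (h1 : a ≤ b + j) (h2 : b ≤ a + j) :
    Near G j (γ a) (γ b) := by
  rcases le_total a b with hab | hab
  · obtain ⟨i, rfl⟩ := Nat.exists_eq_add_of_le hab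
    exact (h.near_add a i).mono (by omega)
  · obtain ⟨i, rfl⟩ := Nat.exists_eq_add_of_le hab
    exact (h.near_add b i).symm.mono (by omega)

lemma Lazy.within (h : Lazy G γ) {T : Set V} {a : ℕ} (j : ℕ)
    (hT : ∀ c, a ≤ c → c ≤ a + j → γ c ∈ T) : Near (within G T) j (γ a) (γ (a + j)) := by
  induction j with
  | zero => exact near_refl _ _
  | succ j ih =>
    have ih' := ih fun c h1 h2 => hT c h1 (by omega)
    rcases h (a + j) with e | e
    · rw [← add_assoc, ← e]; exact ih'.mono (by omega)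
    · exact ih'.trans (near_of_adj (G := M64.within G T)
        ⟨e, hT _ (by omega) (by omega), hT _ (by omega) (by omega)⟩)

lemma Lazy.conn (h : Lazy G γ) {a b : ℕ} (hab : a ≤ b) :
    Conn G {p | ∃ c, a ≤ c ∧ c ≤ b ∧ γ c = p} := by
  refine conn_of_root (x := γ a) ⟨a, le_rfl, hab, rfl⟩ ?_
  rintro v ⟨c, h1, h2, rfl⟩
  obtain ⟨j, rfl⟩ := Nat.exists_eq_add_of_le h1
  exact (h.within (T := {p | ∃ c, a ≤ c ∧ c ≤ b ∧ γ c = p}) j
    fun c h3 h4 => ⟨c, h3, by omega, rfl⟩).reachable.symm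

lemma Lazy.mem {T : Set V} (h : Lazy (M64.within G T) γ) (h0 : γ 0 ∈ T) (c : ℕ) : γ c ∈ T :=
  mem_of_reach (by simpa using (h.near_add 0 c).reachable) h0

lemma geo {L : ℕ} {p q : V} (h : Near G L p q) :
    ∃ γ, Lazy G γ ∧ γ 0 = p ∧ ∀ c, L ≤ c → γ c = q := by
  obtain ⟨w, hw⟩ := near_iff_walk.1 h
  refine ⟨w.getVert, fun c => ?_, w.getVert_zero, fun c hc => w.getVert_of_length_le (hw.trans hc)⟩
  rcases lt_or_ge c w.length with hc | hc
  · exact Or.inr (w.adj_getVert_succ hc)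
  · left
    rw [w.getVert_of_length_le hc, w.getVert_of_length_le (by omega)]

/-- concatenation at time `L` -/
def cat (L : ℕ) (γ δ : ℕ → V) (c : ℕ) : V := if c ≤ L then γ c else δ (c - L)

lemma Lazy.cat {δ : ℕ → V} {L : ℕ} (h : Lazy G γ) (h' : Lazy G δ) (e : γ L = δ 0) :
    Lazy G (cat L γ δ) := by
  intro c
  unfold T20.cat
  rcases lt_trichotomy c L with hc | rfl | hc
  · rw [if_pos hc.le, if_pos (by omega)]; exact h c
  · rw [if_pos le_rfl, if_neg (by omega), e, show c + 1 - c = 0 + 1 by omega]; exact h' 0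
  · rw [if_neg (by omega), if_neg (by omega), show c + 1 - L = c - L + 1 by omega]; exact h' _

/-- a walk of length at most `L` from `p` to `q` all of whose points satisfy `T` -/
def Wk (G : SimpleGraph V) (L : ℕ) (p q : V) (T : V → Prop) : Prop :=
  ∃ γ, Lazy G γ ∧ γ 0 = p ∧ (∀ c, L ≤ c → γ c = q) ∧ ∀ c, T (γ c)

lemma Wk.mono {L L' : ℕ} {p q : V} {T T' : V → Prop} (h : Wk G L p q T) (hL : L ≤ L')
    (hT : ∀ z, T z → T' z) : Wk G L' p q T' := by
  obtain ⟨γ, a, b, c, d⟩ := h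
  exact ⟨γ, a, b, fun x hx => c x (hL.trans hx), fun x => hT _ (d x)⟩

lemma Wk.trans {L L' : ℕ} {p q w : V} {T : V → Prop} (h : Wk G L p q T) (h' : Wk G L' q w T) :
    Wk G (L + L') p w T := by
  obtain ⟨γ, a, b, c, d⟩ := h
  obtain ⟨δ, a', b', c', d'⟩ := h'
  refine ⟨cat L γ δ, a.cat a' ((c L le_rfl).trans b'.symm), by simp [cat, b], fun x hx => ?_,
    fun x => ?_⟩
  · unfold cat
    split_ifs with hl
    · rw [c x (by omega), ← b']
      exact c' 0 (by omega)
    · exact c' _ (by omega)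
  · unfold cat
    split_ifs
    · exact d _
    · exact d' _

lemma wk_geo {L : ℕ} {p q : V} (h : Near G L p q) :
    Wk G L p q fun z => ∃ c ≤ L, Near G c p z ∧ Near G (L - c) z q := by
  obtain ⟨γ, a, b, c⟩ := geo h
  refine ⟨γ, a, b, c, fun x => ?_⟩
  rcases le_total x L with hx | hx
  · exact ⟨x, hx, b ▸ a.near (by omega) (by omega), c L le_rfl ▸ a.near (by omega) (by omega)⟩
  · exact ⟨L, le_rfl, c x hx ▸ h, c x hx ▸ near_refl _ _⟩

lemma wk_left {L b : ℕ} {p q : V} (h : Near G L p q) (hb : L ≤ b) :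
    Wk G L p q fun z => Near G b p z :=
  (wk_geo h).mono le_rfl fun _ ⟨_, h1, h2, _⟩ => h2.mono (by omega)

lemma wk_right {L b : ℕ} {p q : V} (h : Near G L p q) (hb : L ≤ b) :
    Wk G L p q fun z => Near G b q z :=
  (wk_geo h).mono le_rfl fun _ ⟨_, _, _, h2⟩ => h2.symm.mono (by omega)

lemma block {ι : Type} (h : Lazy G γ) (F : Finset ι) (p : ι → V) (b u M : ℕ)
    (h1 : ∀ i ∈ F, ∃ c ≤ M * (u + 1), Near G b (p i) (γ c))
    (h2 : ∀ i ∈ F, ∀ j ∈ F, i ≠ j → ¬ Near G (2 * b + u) (p i) (p j)) : F.card ≤ M + 1 := by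
  choose! f hf1 hf2 using h1
  rw [← card_range (M + 1)]
  refine card_le_card_of_injOn (fun i => f i / (u + 1)) (fun i hi => ?_) fun i hi j hj e => ?_
  · simp only [coe_range, Set.mem_Iio]
    exact Nat.lt_succ_of_le (Nat.div_le_of_le_mul (by rw [mul_comm]; exact hf1 i hi))
  · by_contra hne
    have e1 := Nat.div_add_mod (f i) (u + 1)
    have e2 := Nat.div_add_mod (f j) (u + 1)
    have e3 := Nat.mod_lt (f i) (show 0 < u + 1 by omega)
    have e4 := Nat.mod_lt (f j) (show 0 < u + 1 by omega)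
    simp only at e
    rw [e] at e1
    exact h2 i hi j hj hne (((hf2 i hi).trans (h.near (j := u) (by omega) (by omega))).trans'
      (hf2 j hj).symm (by omega))

/-- at most `M` points of `Q` are pairwise more than `u` apart -/
def Thin (G : SimpleGraph V) (u M : ℕ) (Q : Set V) : Prop :=
  ∀ F : Finset V, (∀ x ∈ F, x ∈ Q) → (∀ x ∈ F, ∀ y ∈ F, x ≠ y → ¬ Near G u x y) → F.card ≤ M

lemma Thin.mono {u M M' : ℕ} {Q Q' : Set V} (h : Thin G u M Q) (hQ : Q' ⊆ Q) (hM : M ≤ M') :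
    Thin G u M' Q' := fun F h1 h2 => (h F (fun x hx => hQ (h1 x hx)) h2).trans hM

lemma Thin.union {u M M' : ℕ} {Q Q' : Set V} (h : Thin G u M Q) (h' : Thin G u M' Q') :
    Thin G u (M + M') (Q ∪ Q') := by
  classical
  intro F h1 h2
  rw [← card_filter_add_card_filter_not (s := F) (fun x => x ∈ Q)]
  refine add_le_add (h _ (fun x hx => (mem_filter.1 hx).2) fun x hx y hy =>
    h2 x (mem_filter.1 hx).1 y (mem_filter.1 hy).1) (h' _ (fun x hx => ?_) fun x hx y hy =>
    h2 x (mem_filter.1 hx).1 y (mem_filter.1 hy).1)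
  exact (h1 x (mem_filter.1 hx).1).resolve_left (mem_filter.1 hx).2

lemma Lazy.thin (h : Lazy G γ) (u M : ℕ) :
    Thin G u (M + 1) {p | ∃ c ≤ M * (u + 1), γ c = p} := by
  intro F h1 h2
  refine block h F id 0 u M (fun i hi => ?_) (by simpa using h2)
  obtain ⟨c, hc, e⟩ := h1 i hi
  exact ⟨c, hc, e ▸ near_refl _ _⟩

section Col

variable {ι : Type}

open Classical in
lemma colour (E : ι → ι → Prop) (hs : ∀ x y, E x y → E y x) (D : ℕ) (F : Finset ι)
    (h : ∀ F' ⊆ F, F'.Nonempty → ∃ x ∈ F', (F'.filter fun y => y ≠ x ∧ E x y).card ≤ D) :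
    ∃ col : ι → ℕ, (∀ x, col x < D + 1) ∧ ∀ x ∈ F, ∀ y ∈ F, x ≠ y → E x y → col x ≠ col y := by
  induction F using Finset.strongInduction with
  | H F ih =>
    rcases F.eq_empty_or_nonempty with rfl | hne
    · exact ⟨fun _ => 0, fun _ => Nat.succ_pos _, by simp⟩
    obtain ⟨x, hx, hD⟩ := h F Subset.rfl hne
    obtain ⟨col, c1, c2⟩ := ih (F.erase x) (erase_ssubset hx) fun F' hF' =>
      h F' (hF'.trans (erase_subset _ _))
    obtain ⟨j, hj, hj'⟩ := exists_mem_notMem_of_card_lt_card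
      (s := (F.filter fun y => y ≠ x ∧ E x y).image col) (t := range (D + 1))
      (by rw [card_range]; exact Nat.lt_succ_of_le (card_image_le.trans hD))
    have hj2 : ∀ y ∈ F, y ≠ x → E x y → j ≠ col y := fun y hy h1 h2 e =>
      hj' (mem_image.2 ⟨y, mem_filter.2 ⟨hy, h1, h2⟩, e.symm⟩)
    refine ⟨Function.update col x j, fun y => ?_, fun y hy z hz hyz hE => ?_⟩
    · rcases eq_or_ne y x with rfl | hy
      · simpa using hj
      · rw [Function.update_of_ne hy]; exact c1 y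
    · rcases eq_or_ne y x with rfl | hy'
      · rw [Function.update_self, Function.update_of_ne hyz.symm]
        exact hj2 z hz hyz.symm hE
      · rcases eq_or_ne z x with rfl | hz'
        · rw [Function.update_self, Function.update_of_ne hy']
          exact (hj2 y hy hy' (hs _ _ hE)).symm
        · rw [Function.update_of_ne hy', Function.update_of_ne hz']
          exact c2 y (mem_erase.2 ⟨hy', hy⟩) z (mem_erase.2 ⟨hz', hz⟩) hyz hE

open Classical in
lemma indep (E : ι → ι → Prop) (hs : ∀ x y, E x y → E y x) (D k : ℕ) (F : Finset ι)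
    (h : ∀ F' ⊆ F, F'.Nonempty → ∃ x ∈ F', (F'.filter fun y => y ≠ x ∧ E x y).card ≤ D)
    (hk : (D + 1) * k ≤ F.card) :
    ∃ I ⊆ F, I.card = k ∧ ∀ x ∈ I, ∀ y ∈ I, x ≠ y → ¬ E x y := by
  obtain ⟨col, c1, c2⟩ := colour E hs D F h
  obtain ⟨j, -, hj⟩ := exists_le_card_fiber_of_mul_le_card_of_maps_to (s := F)
    (t := range (D + 1)) (f := col) (n := k) (fun x _ => mem_range.2 (c1 x)) (by simp)
    (by rwa [card_range])
  obtain ⟨I, hI, hc⟩ := exists_subset_card_eq hj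
  refine ⟨I, hI.trans (filter_subset _ _), hc, fun x hx y hy hxy hE => ?_⟩
  have a := mem_filter.1 (hI hx)
  have b := mem_filter.1 (hI hy)
  exact c2 x a.1 y b.1 hxy hE (a.2.trans b.2.symm)

/-- a largest separated subfamily dominates -/
lemma exists_net (E : ι → ι → Prop) (hs : ∀ x y, E x y → E y x) (hr : ∀ x, E x x)
    (Z F : Finset ι) (hZ : Z ⊆ F) (hsep : ∀ x ∈ Z, ∀ y ∈ Z, x ≠ y → ¬ E x y) :
    ∃ A, Z ⊆ A ∧ A ⊆ F ∧ (∀ x ∈ A, ∀ y ∈ A, x ≠ y → ¬ E x y) ∧ ∀ x ∈ F, ∃ a ∈ A, E x a := by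
  classical
  obtain ⟨A, hA, hmax⟩ := exists_max_image
    (F.powerset.filter fun A => Z ⊆ A ∧ ∀ x ∈ A, ∀ y ∈ A, x ≠ y → ¬ E x y) card
    ⟨Z, mem_filter.2 ⟨mem_powerset.2 hZ, Subset.rfl, hsep⟩⟩
  obtain ⟨a1, a2, a3⟩ := mem_filter.1 hA
  refine ⟨A, a2, mem_powerset.1 a1, a3, fun x hx => ?_⟩
  by_contra hn
  push Not at hn
  have hxA : x ∉ A := fun h => hn x h (hr x)
  have := hmax (insert x A) (mem_filter.2 ⟨mem_powerset.2 (insert_subset hx (mem_powerset.1 a1)),
    a2.trans (subset_insert _ _), fun y hy z hz hyz hE => by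
      rcases mem_insert.1 hy with e | hy' <;> rcases mem_insert.1 hz with e' | hz'
      · exact hyz (e.trans e'.symm)
      · exact hn z hz' (e ▸ hE)
      · exact hn y hy' (e' ▸ hs _ _ hE)
      · exact a3 y hy' z hz' hyz hE⟩)
  rw [card_insert_of_notMem hxA] at this
  omega

end Col

end Pool.Agent.Lib.MP_559647_lc.T20
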