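import Pool.Agent.Lib.MP_559647_lc.Basic

/-!
Exponentially discounted branch weights in a forest.
-/

namespace Pool.Agent.Lib.MP_559647_lc

open Finset SimpleGraph

section Geo

variable {V : Type} {G : SimpleGraph V}

lemma near_getVert {a b : V} (p : G.Walk a b) (i k : ℕ) :
    Near G k (p.getVert i) (p.getVert (i + k)) := by
  induction k with
  | zero => exact near_refl _ _
  | succ k ih =>
    by_cases h : i + k < p.length
    · exact ih.trans (near_of_adj (p.adj_getVert_succ h))
    · rw [p.getVert_of_length_le (show p.length ≤ i + (k + 1) by omega)]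
      rw [p.getVert_of_length_le (show p.length ≤ i + k by omega)] at ih
      exact ih.mono (by omega)

lemma geodesic_length (hG : G.IsAcyclic) {a b : V} (p : G.Walk a b) (hp : p.IsPath) :
    p.length = G.dist a b := by
  obtain ⟨q, hq, hl⟩ := (show G.Reachable a b from ⟨p⟩).exists_path_of_dist
  have := (hG.subsingleton_path a b).elim ⟨p, hp⟩ ⟨q, hq⟩
  have h2 : p = q := congrArg Subtype.val this
  rw [h2, hl]

lemma support_split {a b z : V} (p : G.Walk a b) (hz : z ∈ p.support) :
    ∃ i j, i + j = p.length ∧ Near G i a z ∧ Near G j z b := by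
  obtain ⟨i, hi, hl⟩ := Walk.mem_support_iff_exists_getVert.1 hz
  refine ⟨i, p.length - i, by omega, ?_, ?_⟩
  · have := near_getVert p 0 i
    rwa [p.getVert_zero, zero_add, hi] at this
  · have := near_getVert p i (p.length - i)
    rwa [hi, p.getVert_of_length_le (by omega)] at this

lemma dist_through (hG : G.IsAcyclic) {x w y t : V} (hwy : G.Adj w y) (hx : G.Reachable x w)
    (h1 : G.dist x w < G.dist x y) (ht : G.Reachable y t) (h2 : G.dist y t < G.dist w t) :
    G.dist x t = G.dist x y + G.dist y t := by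
  obtain ⟨p, hp, hpl⟩ := hx.exists_path_of_dist
  obtain ⟨q, hq, hql⟩ := ht.exists_path_of_dist
  have hxy : G.dist x y ≤ G.dist x w + 1 := ((near_dist hx).trans (near_of_adj hwy)).dist_le
  have hpath : (p.append (Walk.cons hwy q)).IsPath := by
    rw [Walk.isPath_def, Walk.support_append, Walk.support_cons, List.tail_cons,
      List.nodup_append]
    refine ⟨hp.support_nodup, hq.support_nodup, fun z hz z' hz' hzz => ?_⟩
    subst hzz
    obtain ⟨i, j, hij, a1, a2⟩ := support_split p hz
    obtain ⟨i', j', hij', b1, b2⟩ := support_split q hz'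
    have c1 := (a1.trans b1.symm).dist_le
    have c2 := (a2.symm.trans b2).dist_le
    omega
  have := geodesic_length hG _ hpath
  simp only [Walk.length_append, Walk.length_cons] at this
  omega

lemma near_of_between (hG : G.IsAcyclic) {x y y' t : V} (hy : G.Reachable x y)
    (hy' : G.Reachable x y') (ht : G.Reachable y t) (ht' : G.Reachable y' t)
    (h1 : G.dist x t = G.dist x y + G.dist y t) (h2 : G.dist x t = G.dist x y' + G.dist y' t)
    (hle : G.dist x y ≤ G.dist x y') : Near G (G.dist x y' - G.dist x y) y y' := by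
  obtain ⟨a, ha⟩ := hy.exists_walk_length_eq_dist
  obtain ⟨b, hb⟩ := ht.exists_walk_length_eq_dist
  obtain ⟨a', ha'⟩ := hy'.exists_walk_length_eq_dist
  obtain ⟨b', hb'⟩ := ht'.exists_walk_length_eq_dist
  have p1 : (a.append b).IsPath :=
    Walk.isPath_of_length_eq_dist _ (by rw [Walk.length_append]; omega)
  have p2 : (a'.append b').IsPath :=
    Walk.isPath_of_length_eq_dist _ (by rw [Walk.length_append]; omega)
  have he : a.append b = a'.append b' :=
    congrArg Subtype.val ((hG.subsingleton_path x t).elim ⟨_, p1⟩ ⟨_, p2⟩)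
  have e1 : (a.append b).getVert a.length = y := by simp [Walk.getVert_append]
  have e2 : (a'.append b').getVert a'.length = y' := by simp [Walk.getVert_append]
  have := near_getVert (a.append b) a.length (a'.length - a.length)
  rw [e1, show a.length + (a'.length - a.length) = a'.length by omega, he, e2, ha, ha'] at this
  exact this

lemma exists_parent {x y : V} (hr : G.Reachable x y) (hne : x ≠ y) :
    ∃ w, G.Adj w y ∧ G.Reachable x w ∧ G.dist x w < G.dist x y := by
  obtain ⟨p, hp⟩ := hr.exists_walk_length_eq_dist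
  have hpos := hr.pos_dist_of_ne hne
  have h1 := p.adj_getVert_succ (i := p.length - 1) (by omega)
  rw [p.getVert_of_length_le (i := p.length - 1 + 1) (by omega)] at h1
  have h2 := near_getVert p 0 (p.length - 1)
  rw [p.getVert_zero, zero_add] at h2
  exact ⟨_, h1, h2.reachable, lt_of_le_of_lt h2.dist_le (by omega)⟩

end Geo

section Weights

variable {V : Type} [Fintype V]

open Classical in
/-- the nodes that are closer to `w` than to `y` -/
noncomputable def side (G : SimpleGraph V) (y w : V) : Finset V :=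
  univ.filter fun t => G.Reachable w t ∧ G.dist w t < G.dist y t

open Classical in
/-- the component of `x` -/
noncomputable def comp (G : SimpleGraph V) (x : V) : Finset V :=
  univ.filter fun t => G.Reachable x t

/-- discounted weight of the branch entered by going from `y` to `w` -/
noncomputable def psi (θ : ℝ) (G : SimpleGraph V) (y w : V) : ℝ :=
  ∑ t ∈ side G y w, θ ^ G.dist w t

/-- the same, truncated at depth `T` -/
noncomputable def psiT (θ : ℝ) (T : ℕ) (G : SimpleGraph V) (y w : V) : ℝ :=
  ∑ t ∈ (side G y w).filter (fun t => G.dist w t ≤ T), θ ^ G.dist w t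

/-- discounted weight of the component seen from `x` -/
noncomputable def Phi (θ : ℝ) (G : SimpleGraph V) (x : V) : ℝ :=
  ∑ t ∈ comp G x, θ ^ G.dist x t

variable {G : SimpleGraph V} {θ : ℝ}

lemma mem_side {y w t : V} : t ∈ side G y w ↔ G.Reachable w t ∧ G.dist w t < G.dist y t := by
  simp [side]

lemma mem_comp {x t : V} : t ∈ comp G x ↔ G.Reachable x t := by
  simp [comp]

lemma dist_of_mem_side {y w t : V} (h : G.Adj y w) (ht : t ∈ side G y w) :
    G.dist y t = G.dist w t + 1 := by
  obtain ⟨h1, h2⟩ := mem_side.1 ht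
  have := ((near_of_adj h).trans (near_dist h1)).dist_le
  omega

lemma psi_nonneg (h0 : 0 < θ) (y w : V) : 0 ≤ psi θ G y w :=
  Finset.sum_nonneg fun _ _ => by positivity

lemma Phi_split (hG : G.IsAcyclic) {y w : V} (h : G.Adj y w) :
    Phi θ G y = psi θ G w y + θ * psi θ G y w := by
  classical
  have hu : comp G y = side G w y ∪ side G y w := by
    ext t
    simp only [mem_union, mem_side, mem_comp]
    constructor
    · intro ht
      have hne := hG.dist_ne_of_adj h ht.symm
      rw [dist_comm (u := t), dist_comm (u := t)] at hne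
      rcases Nat.lt_or_gt_of_ne hne with h1 | h1
      · exact Or.inl ⟨ht, h1⟩
      · exact Or.inr ⟨h.symm.reachable.trans ht, h1⟩
    · rintro (h1 | h1)
      · exact h1.1
      · exact h.reachable.trans h1.1
  have hd : Disjoint (side G w y) (side G y w) := by
    rw [Finset.disjoint_left]
    intro t h1 h2
    have := (mem_side.1 h1).2
    have := (mem_side.1 h2).2
    omega
  unfold Phi psi
  rw [hu, Finset.sum_union hd, Finset.mul_sum]
  congr 1
  refine Finset.sum_congr rfl fun t ht => ?_
  rw [dist_of_mem_side h ht, pow_succ, mul_comm]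

lemma psi_path (hG : G.IsAcyclic) (h0 : 0 < θ) {a b c : V} (hab : G.Adj a b) (hbc : G.Adj b c)
    (hac : a ≠ c) : θ * psi θ G b c ≤ psi θ G a b := by
  have d1 : G.dist a b = 1 := dist_eq_one_iff_adj.2 hab
  have d2 : G.dist a b < G.dist a c := by
    have h1 := hG.dist_ne_of_adj hbc hab.reachable
    have h2 := (hab.reachable.trans hbc.reachable).pos_dist_of_ne hac
    omega
  have hsub : side G b c ⊆ side G a b := by
    intro t ht
    have h3 := dist_of_mem_side hbc ht
    obtain ⟨h1, h2⟩ := mem_side.1 ht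
    have := dist_through hG hbc hab.reachable d2 h1 h2
    exact mem_side.2 ⟨hbc.reachable.trans h1, by omega⟩
  unfold psi
  rw [Finset.mul_sum]
  refine le_trans (le_of_eq (Finset.sum_congr rfl fun t ht => ?_))
    (Finset.sum_le_sum_of_subset_of_nonneg hsub fun _ _ _ => by positivity)
  rw [dist_of_mem_side hbc ht, pow_succ, mul_comm]

lemma psiT_le (h0 : 0 < θ) (T : ℕ) (y w : V) : psiT θ T G y w ≤ psi θ G y w :=
  Finset.sum_le_sum_of_subset_of_nonneg (Finset.filter_subset _ _) fun _ _ _ => by positivity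

lemma one_le_psiT (h0 : 0 < θ) (T : ℕ) {y w : V} (h : G.Adj y w) : 1 ≤ psiT θ T G y w := by
  have hw : w ∈ (side G y w).filter (fun t => G.dist w t ≤ T) := by
    rw [mem_filter, mem_side, SimpleGraph.dist_self, dist_eq_one_iff_adj.2 h]
    exact ⟨⟨Reachable.refl _, by omega⟩, by omega⟩
  have := Finset.single_le_sum (f := fun t => θ ^ G.dist w t) (fun _ _ => by positivity) hw
  simpa [psiT] using this

lemma psi_le (h0 : 0 < θ) (h1 : θ ≤ 1) {n T : ℕ} (hn : ∀ v, (comp G v).card ≤ n)
    (hT : n * θ ^ T ≤ 1) {y w : V} (h : G.Adj y w) : psi θ G y w ≤ 2 * psiT θ T G y w := by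
  have h2 := one_le_psiT h0 T h
  have h3 : psi θ G y w = psiT θ T G y w +
      ∑ t ∈ (side G y w).filter (fun t => ¬ G.dist w t ≤ T), θ ^ G.dist w t :=
    (Finset.sum_filter_add_sum_filter_not _ _ _).symm
  have h4 : ∑ t ∈ (side G y w).filter (fun t => ¬ G.dist w t ≤ T), θ ^ G.dist w t ≤
      ((side G y w).filter (fun t => ¬ G.dist w t ≤ T)).card • θ ^ T := by
    refine Finset.sum_le_card_nsmul _ _ _ fun t ht => ?_
    exact pow_le_pow_of_le_one h0.le h1 (by have := (mem_filter.1 ht).2; omega)
  have h5 : ((side G y w).filter (fun t => ¬ G.dist w t ≤ T)).card ≤ n := by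
    refine le_trans (Finset.card_le_card fun t ht => ?_) (hn w)
    exact mem_comp.2 (mem_side.1 (mem_filter.1 ht).1).1
  have h6 : (((side G y w).filter (fun t => ¬ G.dist w t ≤ T)).card : ℝ) * θ ^ T ≤ n * θ ^ T :=
    mul_le_mul_of_nonneg_right (by exact_mod_cast h5) (by positivity)
  rw [nsmul_eq_mul] at h4
  linarith

lemma one_le_Phi (h0 : 0 < θ) (x : V) : 1 ≤ Phi θ G x := by
  have := Finset.single_le_sum (f := fun t => θ ^ G.dist x t) (fun _ _ => by positivity)
    (mem_comp.2 (Reachable.refl x) : x ∈ comp G x)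
  simpa [Phi] using this

lemma Phi_le (h0 : 0 < θ) (h1 : θ ≤ 1) {n : ℕ} (hn : ∀ v, (comp G v).card ≤ n) (x : V) :
    Phi θ G x ≤ n := by
  have := Finset.sum_le_card_nsmul (comp G x) (fun t => θ ^ G.dist x t) 1
    fun t _ => pow_le_one₀ h0.le h1
  rw [nsmul_eq_mul, mul_one] at this
  exact this.trans (by exact_mod_cast hn x)

lemma Phi_shift (h0 : 0 < θ) (h1 : θ ≤ 1) {x y : V} (h : G.Reachable x y) :
    θ ^ G.dist x y * Phi θ G x ≤ Phi θ G y := by
  have he : comp G x = comp G y := by
    ext t
    simp only [mem_comp]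
    exact ⟨fun ht => h.symm.trans ht, fun ht => h.trans ht⟩
  unfold Phi
  rw [Finset.mul_sum, ← he]
  refine Finset.sum_le_sum fun t ht => ?_
  rw [← pow_add]
  exact pow_le_pow_of_le_one h0.le h1
    ((near_dist h).symm.trans (near_dist (mem_comp.1 ht))).dist_le

/-- the edge from `y` to `w` leads to a much heavier branch -/
def Orient (θ : ℝ) (T k : ℕ) (G : SimpleGraph V) (y w : V) : Prop :=
  G.Adj y w ∧ 6 * k * psiT θ T G w y < psiT θ T G y w

/-- a node without an outgoing edge -/
def Sink (θ : ℝ) (T k : ℕ) (G : SimpleGraph V) (y : V) : Prop := ∀ w, ¬ Orient θ T k G y w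

open Classical in
/-- a chosen outgoing edge -/
noncomputable def ptr (θ : ℝ) (T k : ℕ) (G : SimpleGraph V) (y : V) : V :=
  if Sink θ T k G y then y else @Classical.epsilon V ⟨y⟩ (Orient θ T k G y)

variable {T k n : ℕ} {q : ℝ}

lemma ptr_of_sink {y : V} (h : Sink θ T k G y) : ptr θ T k G y = y := by
  unfold ptr
  rw [if_pos h]

lemma orient_ptr {y : V} (h : ¬ Sink θ T k G y) : Orient θ T k G y (ptr θ T k G y) := by
  unfold ptr
  rw [if_neg h]
  unfold Sink at h
  push Not at h
  exact Classical.epsilon_spec h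

lemma near_ptr (y : V) : Near G 1 y (ptr θ T k G y) := by
  by_cases h : Sink θ T k G y
  · rw [ptr_of_sink h]
    exact near_refl _ _
  · exact near_of_adj (orient_ptr h).1

lemma near_iterate (j : ℕ) (y : V) : Near G j y ((ptr θ T k G)^[j] y) := by
  induction j with
  | zero => exact near_refl _ _
  | succ j ih =>
    rw [Function.iterate_succ_apply']
    exact ih.trans (near_ptr _)

/-- the standing assumptions on the parameters -/
structure Par (G : SimpleGraph V) (θ q : ℝ) (T k n : ℕ) : Prop where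
  acyc : G.IsAcyclic
  hq : 1 ≤ q
  hθ : θ * q ^ 2 = 1
  hk : q ^ 4 ≤ k
  hn : ∀ v, (comp G v).card ≤ n
  hT : n * θ ^ T ≤ 1

lemma Par.pos (P : Par G θ q T k n) : 0 < θ := by
  have h1 := P.hq
  have h2 := P.hθ
  by_contra h
  push Not at h
  have : θ * q ^ 2 ≤ 0 := mul_nonpos_of_nonpos_of_nonneg h (by positivity)
  linarith

lemma Par.le_one (P : Par G θ q T k n) : θ ≤ 1 := by
  have h1 := P.hq
  have h2 := P.hθ
  have h3 := P.pos
  have h4 : 1 ≤ q ^ 2 := one_le_pow₀ h1
  nlinarith

lemma Par.q_le (P : Par G θ q T k n) : q ≤ k :=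
  le_trans (le_self_pow₀ P.hq (by norm_num)) P.hk

lemma Par.orient_lt (P : Par G θ q T k n) {y w : V} (h : Orient θ T k G y w) :
    3 * k * psi θ G w y < psi θ G y w := by
  have h1 := psi_le P.pos P.le_one P.hn P.hT h.1.symm
  have h2 := psiT_le (G := G) P.pos T y w
  have h3 := h.2
  have h4 : (0 : ℝ) ≤ k := Nat.cast_nonneg k
  nlinarith

lemma Par.Phi_grow (P : Par G θ q T k n) {y w : V} (h : Orient θ T k G y w) :
    q * Phi θ G y ≤ Phi θ G w := by
  rw [Phi_split P.acyc h.1, Phi_split P.acyc h.1.symm]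
  have h1 := P.orient_lt h
  have h2 := psi_nonneg (G := G) P.pos w y
  have h3 := P.q_le
  have h4 := P.hq
  have h5 := P.hθ
  set a := psi θ G y w
  set b := psi θ G w y
  have h6 : 3 * q * b ≤ a := by nlinarith
  have h7 : q ^ 2 * (q * (b + θ * a)) ≤ q ^ 2 * (a + θ * b) := by
    have e1 : q ^ 2 * (q * (b + θ * a)) = q ^ 3 * b + q * a * (θ * q ^ 2) := by ring
    have e2 : q ^ 2 * (a + θ * b) = q ^ 2 * a + b * (θ * q ^ 2) := by ring
    rw [e1, e2, h5]
    have e3 : 0 ≤ (q - 1) * (q * a - (q ^ 2 + q + 1) * b) := by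
      apply mul_nonneg (by linarith)
      have : (q ^ 2 + q + 1) * b ≤ 3 * q ^ 2 * b :=
        mul_le_mul_of_nonneg_right (by nlinarith) h2
      nlinarith
    nlinarith
  exact le_of_mul_le_mul_left h7 (by positivity)

lemma Par.ptr_adj (P : Par G θ q T k n) {x y : V} (hxy : G.Adj x y) (hx : ¬ Sink θ T k G x)
    (hy : ¬ Sink θ T k G y) : ptr θ T k G x = y ∨ ptr θ T k G y = x := by
  by_contra hcon
  push Not at hcon
  have ox := orient_ptr hx
  have oy := orient_ptr hy
  set x' := ptr θ T k G x
  set y' := ptr θ T k G y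
  have a1 := P.orient_lt ox
  have a2 := P.orient_lt oy
  have b1 := psi_path P.acyc P.pos ox.1.symm hxy hcon.1
  have b2 := psi_path P.acyc P.pos hxy oy.1 hcon.2.symm
  have b3 := psi_path P.acyc P.pos oy.1.symm hxy.symm hcon.2
  have b4 := psi_path P.acyc P.pos hxy.symm ox.1 hcon.1.symm
  have h0 := P.pos
  have hk : 1 ≤ k * θ ^ 2 := by
    have h1 := P.hk
    have h2 : θ ^ 2 * q ^ 4 = 1 := by
      have : θ ^ 2 * q ^ 4 = (θ * q ^ 2) ^ 2 := by ring
      rw [this, P.hθ]; norm_num
    have h3 : θ ^ 2 * q ^ 4 ≤ θ ^ 2 * k := mul_le_mul_of_nonneg_left h1 (by positivity)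
    linarith
  have hk0 : (0 : ℝ) ≤ k := Nat.cast_nonneg k
  have key : ∀ A B C D : ℝ, 0 ≤ D → 3 * k * B < A → θ * C ≤ B → θ * D ≤ C → D < A := by
    intro A B C D hD h1 h2 h3
    have e1 : θ * (θ * D) ≤ B := le_trans (mul_le_mul_of_nonneg_left h3 h0.le) h2
    have e2 : k * (θ * (θ * D)) ≤ k * B := mul_le_mul_of_nonneg_left e1 hk0
    have e3 : D ≤ k * (θ * (θ * D)) := by nlinarith
    have e4 : 0 ≤ k * B := le_trans hD (e3.trans e2)
    nlinarith
  have c1 := key _ _ _ _ (psi_nonneg h0 _ _) a1 b1 b2
  have c2 := key _ _ _ _ (psi_nonneg h0 _ _) a2 b3 b4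
  linarith

lemma Par.sink_iterate (P : Par G θ q T k n) {D : ℕ} (hD : n < q ^ D) (v : V) :
    Sink θ T k G ((ptr θ T k G)^[D] v) := by
  have key : ∀ j, Sink θ T k G ((ptr θ T k G)^[j] v) ∨
      q ^ j ≤ Phi θ G ((ptr θ T k G)^[j] v) := by
    intro j
    induction j with
    | zero => exact Or.inr (by simpa using one_le_Phi P.pos v)
    | succ j ih =>
      rw [Function.iterate_succ_apply']
      by_cases hs : Sink θ T k G ((ptr θ T k G)^[j] v)
      · left
        rwa [ptr_of_sink hs]
      · right
        have h1 := P.Phi_grow (orient_ptr hs)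
        have h2 := ih.resolve_left hs
        have h3 := P.hq
        rw [pow_succ]
        nlinarith
  refine (key D).resolve_right fun h => ?_
  have := Phi_le P.pos P.le_one P.hn ((ptr θ T k G)^[D] v)
  linarith

lemma Par.iterate_eq (P : Par G θ q T k n) {D h : ℕ} (hD : n < q ^ D) {v w : V}
    (hvw : Near G (2 * h) v w) (hv : ∀ y, Sink θ T k G y → ¬ Near G h v y)
    (hw : ∀ y, Sink θ T k G y → ¬ Near G h w y) :
    (ptr θ T k G)^[D + 1] v = (ptr θ T k G)^[D + 1] w := by
  obtain ⟨p, hp⟩ := near_iff_walk.1 hvw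
  have hns : ∀ i, i ≤ p.length → ¬ Sink θ T k G (p.getVert i) := by
    intro i hi hs
    have a1 := near_getVert p 0 i
    rw [p.getVert_zero, zero_add] at a1
    have a2 := near_getVert p i (p.length - i)
    rw [p.getVert_of_length_le (i := i + (p.length - i)) (by omega)] at a2
    by_cases hih : i ≤ h
    · exact hv _ hs (a1.mono hih)
    · exact hw _ hs (a2.symm.mono (by omega))
  have step : ∀ x y, ptr θ T k G x = y →
      (ptr θ T k G)^[D + 1] x = (ptr θ T k G)^[D + 1] y := by
    intro x y hxy
    rw [Function.iterate_succ_apply, hxy, Function.iterate_succ_apply',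
      ptr_of_sink (P.sink_iterate hD y)]
  have key : ∀ i, i ≤ p.length →
      (ptr θ T k G)^[D + 1] v = (ptr θ T k G)^[D + 1] (p.getVert i) := by
    intro i
    induction i with
    | zero => intro _; rw [p.getVert_zero]
    | succ i ih =>
      intro hi
      rw [ih (by omega)]
      rcases P.ptr_adj (p.adj_getVert_succ (by omega)) (hns i (by omega)) (hns (i + 1) hi)
        with h1 | h1
      · exact step _ _ h1
      · exact (step _ _ h1).symm
  rw [key p.length le_rfl, p.getVert_length]

lemma Par.packing (P : Par G θ q T k n) {ρ : ℕ} (hρ : 1 ≤ k * θ ^ ρ) (h D : ℕ) (hD : D ≤ ρ)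
    (x : V) (Y : Finset V) (hY : ∀ y ∈ Y, Sink θ T k G y ∧ Near G D x y)
    (hsep : ∀ y ∈ Y, ∀ y' ∈ Y, y ≠ y' → ¬ Near G h y y') :
    Y.card ≤ (D / (h + 1) + 1) * (13 * k ^ 3) := by
  classical
  have h0 := P.pos
  have h1 := P.le_one
  have hk1 : (1 : ℝ) ≤ k := P.hq.trans P.q_le
  let B : V → Finset V := fun y =>
    univ.filter fun t => G.Reachable y t ∧ G.dist x t = G.dist x y + G.dist y t
  have hw : ∀ y ∈ Y, Phi θ G x ≤ 13 * k ^ 3 * ∑ t ∈ B y, θ ^ G.dist x t := by
    intro y hy
    obtain ⟨hs, hn⟩ := hY y hy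
    by_cases hxy : x = y
    · subst hxy
      have : B x = comp G x := by
        ext t
        simp [B, mem_comp]
      rw [this]
      have h2 := one_le_Phi (G := G) h0 x
      have h3 : (1 : ℝ) ≤ k ^ 3 := one_le_pow₀ hk1
      unfold Phi at *
      nlinarith
    · obtain ⟨w, hwy, hxw, hlt⟩ := exists_parent hn.reachable hxy
      have a1 : θ ^ G.dist x y * psi θ G w y ≤ ∑ t ∈ B y, θ ^ G.dist x t := by
        unfold psi
        rw [Finset.mul_sum]
        refine le_trans (le_of_eq (Finset.sum_congr rfl fun t ht => ?_))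
          (Finset.sum_le_sum_of_subset_of_nonneg (s := side G w y) (fun t ht => ?_)
            fun _ _ _ => by positivity)
        · rw [dist_through P.acyc hwy hxw hlt (mem_side.1 ht).1 (mem_side.1 ht).2, pow_add]
        · simp only [B, mem_filter, mem_univ, true_and]
          exact ⟨(mem_side.1 ht).1,
            dist_through P.acyc hwy hxw hlt (mem_side.1 ht).1 (mem_side.1 ht).2⟩
      have a2 : psiT θ T G y w ≤ 6 * k * psiT θ T G w y := by
        by_contra hc
        exact hs w ⟨hwy.symm, lt_of_not_ge hc⟩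
      have a3 := psi_le h0 h1 P.hn P.hT hwy.symm
      have a4 := psiT_le (G := G) h0 T w y
      have a5 := Phi_split (θ := θ) P.acyc hwy.symm
      have a6 := psi_nonneg (G := G) h0 w y
      have a7 := psi_nonneg (G := G) h0 y w
      have a8 : Phi θ G y ≤ 13 * k * psi θ G w y := by
        have : θ * psi θ G y w ≤ psi θ G y w := by nlinarith
        nlinarith
      have a9 := Phi_shift h0 h1 hn.reachable
      have a10 : 1 ≤ k * θ ^ G.dist x y :=
        hρ.trans (mul_le_mul_of_nonneg_left
          (pow_le_pow_of_le_one h0.le h1 (hn.dist_le.trans hD)) (by positivity))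
      have a11 := one_le_Phi (G := G) h0 x
      set e := θ ^ G.dist x y
      have he : 0 < e := by positivity
      calc Phi θ G x ≤ (k * e) * Phi θ G x := by nlinarith
        _ = k * (e * Phi θ G x) := by ring
        _ ≤ k * (13 * k * psi θ G w y) := mul_le_mul_of_nonneg_left (a9.trans a8) (by positivity)
        _ = 13 * k ^ 2 * psi θ G w y := by ring
        _ ≤ 13 * k ^ 2 * ((k * e) * psi θ G w y) :=
          mul_le_mul_of_nonneg_left (by nlinarith) (by positivity)
        _ = 13 * k ^ 3 * (e * psi θ G w y) := by ring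
        _ ≤ _ := mul_le_mul_of_nonneg_left a1 (by positivity)
  have hband : ∀ b, (Y.filter fun y => G.dist x y / (h + 1) = b).card ≤ 13 * k ^ 3 := by
    intro b
    set Yb := Y.filter fun y => G.dist x y / (h + 1) = b with hYb
    have hdisj : (Yb : Set V).PairwiseDisjoint B := by
      have aux : ∀ y ∈ Yb, ∀ y' ∈ Yb, y ≠ y' → G.dist x y ≤ G.dist x y' →
          ∀ t, t ∈ B y → t ∈ B y' → False := by
        intro y hy y' hy' hne hle t ht ht'
        simp only [B, mem_filter, mem_univ, true_and] at ht ht'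
        obtain ⟨m1, m2⟩ := mem_filter.1 hy
        obtain ⟨m1', m2'⟩ := mem_filter.1 hy'
        have := near_of_between P.acyc (hY y m1).2.reachable (hY y' m1').2.reachable ht.1 ht'.1
          ht.2 ht'.2 hle
        refine hsep y m1 y' m1' hne (this.mono ?_)
        have e1 := Nat.div_add_mod (G.dist x y) (h + 1)
        have e2 := Nat.div_add_mod (G.dist x y') (h + 1)
        have e3 := Nat.mod_lt (G.dist x y') (show h + 1 > 0 by omega)
        rw [m2] at e1
        rw [m2'] at e2
        omega
      intro y hy y' hy' hne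
      rw [Function.onFun, Finset.disjoint_left]
      intro t ht ht'
      rcases le_total (G.dist x y) (G.dist x y') with hle | hle
      · exact aux y hy y' hy' hne hle t ht ht'
      · exact aux y' hy' y hy hne.symm hle t ht' ht
    have s1 : ∑ y ∈ Yb, ∑ t ∈ B y, θ ^ G.dist x t ≤ Phi θ G x := by
      rw [← Finset.sum_biUnion hdisj]
      refine Finset.sum_le_sum_of_subset_of_nonneg (fun t ht => ?_) fun _ _ _ => by positivity
      obtain ⟨y, hy, ht⟩ := mem_biUnion.1 ht
      simp only [B, mem_filter, mem_univ, true_and] at ht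
      exact mem_comp.2 ((hY y (mem_filter.1 hy).1).2.reachable.trans ht.1)
    have s2 : Yb.card • Phi θ G x ≤ ∑ y ∈ Yb, 13 * k ^ 3 * ∑ t ∈ B y, θ ^ G.dist x t :=
      Finset.card_nsmul_le_sum _ _ _ fun y hy => hw y (mem_filter.1 hy).1
    rw [← Finset.mul_sum, nsmul_eq_mul] at s2
    have s3 : (Yb.card : ℝ) * Phi θ G x ≤ 13 * k ^ 3 * Phi θ G x :=
      s2.trans (mul_le_mul_of_nonneg_left s1 (by positivity))
    have s4 := le_of_mul_le_mul_right s3 (lt_of_lt_of_le one_pos (one_le_Phi h0 x))
    exact_mod_cast s4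
  have := Finset.card_le_mul_card_image_of_maps_to (s := Y) (t := range (D / (h + 1) + 1))
    (f := fun y => G.dist x y / (h + 1))
    (fun y hy => mem_range.2 (Nat.lt_succ_of_le (Nat.div_le_div_right (hY y hy).2.dist_le)))
    (13 * k ^ 3) fun b _ => hband b
  rw [card_range] at this
  rwa [mul_comm]

end Weights

end Pool.Agent.Lib.MP_559647_lc
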