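import Pool.Agent.Lib.MP_559647_lc.G56Defs

/-!
Degree bounds and algorithms that answer a query after a bounded number of adaptive probes.
-/

namespace Pool.Agent.Lib.MP_559647_lc

/-- Every node has at most `Δ` neighbours. -/
def Deg {N : ℕ} (Δ : ℕ) (I : Inst N) : Prop := ∀ v, (I.G.neighborSet v).ncard ≤ Δ

/-- Probing the identifier `u` returns the same answer in `I` and `J`: whether `u` is a node, its
input label and the identifiers of its neighbours. -/
def Agree {N : ℕ} (I J : Inst N) (u : Fin N) : Prop :=
  (u ∈ I.S ↔ u ∈ J.S) ∧ I.inp u = J.inp u ∧ ∀ z, I.G.Adj u z ↔ J.G.Adj u z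

/-- A deterministic algorithm with `t` adaptive probes: on the query `v` it probes the identifiers
`pr I v 0, pr I v 1, ...`, near `v` or not; each probe is determined by `v` and the earlier
answers, and the output by `v` and the first `t` answers. -/
def Probes {N : ℕ} (t : ℕ) (B : Inst N → Fin N → ℕ) : Prop :=
  ∃ pr : Inst N → Fin N → ℕ → Fin N, ∀ I J v,
    (∀ j, (∀ i < j, Agree I J (pr I v i)) → pr I v j = pr J v j) ∧
      ((∀ i < t, Agree I J (pr I v i)) → B I v = B J v)

/-- As `Probes`, and every probed identifier is the query `v` or a neighbour of an identifier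
probed earlier. -/
def Volume {N : ℕ} (t : ℕ) (B : Inst N → Fin N → ℕ) : Prop :=
  ∃ pr : Inst N → Fin N → ℕ → Fin N, ∀ I J v,
    (∀ j, (∀ i < j, Agree I J (pr I v i)) → pr I v j = pr J v j) ∧
      ((∀ i < t, Agree I J (pr I v i)) → B I v = B J v) ∧
      ∀ j, pr I v j = v ∨ ∃ i < j, I.G.Adj (pr I v i) (pr I v j)

end Pool.Agent.Lib.MP_559647_lc
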