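import Pool.Agent.Lib.MP_559647_lc.V55Defs
import Pool.Agent.Lib.MP_559647_lc.V55Walk

/-!
Small instances built from a set of nodes renamed by new identifiers, and the exploration of such
an instance by a probe algorithm.
-/

namespace Pool.Agent.Lib.MP_559647_lc

open Finset

lemma Inst.ext' {M : ℕ} {X Y : Inst M} (h1 : X.S = Y.S) (h2 : ∀ i k, X.G.Adj i k ↔ Y.G.Adj i k)
    (h3 : ∀ i, X.inp i = Y.inp i) : X = Y := by
  have hG : X.G = Y.G := by ext i k; exact h2 i k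
  have hi : X.inp = Y.inp := funext h3
  cases X
  cases Y
  simp only at hG hi h1
  subst hG hi h1
  rfl

section Mk

variable {M n : ℕ} (hM : n ≤ M) (l0 : ℕ) {κ : Type}

open Classical in
/-- the nodes of `U` renamed by `y`, padded by isolated nodes to `n` nodes -/
noncomputable def mkI (U : Finset κ) (adj : κ → κ → Prop) (lb : κ → ℕ) (y : κ → Fin n) : Inst M where
  S := univ.filter fun i => i.val < n
  G :=
    { Adj := fun i k => i ≠ k ∧ ∃ a ∈ U, ∃ b ∈ U, adj a b ∧ adj b a ∧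
        Fin.castLE hM (y a) = i ∧ Fin.castLE hM (y b) = k
      symm := ⟨fun _ _ ⟨h, a, ha, b, hb, h1, h2, e1, e2⟩ => ⟨h.symm, b, hb, a, ha, h2, h1, e2, e1⟩⟩
      loopless := ⟨fun _ h => h.1 rfl⟩ }
  inp := fun i => if ∃ a ∈ U, Fin.castLE hM (y a) = i then
    (U.filter fun a => Fin.castLE hM (y a) = i).sup lb else l0
  mem_of_adj := by
    rintro _ k ⟨-, a, -, b, -, -, -, rfl, -⟩
    simp

lemma mkI_adj (U : Finset κ) (adj : κ → κ → Prop) (lb : κ → ℕ) (y : κ → Fin n) (i k : Fin M) :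
    (mkI hM l0 U adj lb y).G.Adj i k ↔ i ≠ k ∧ ∃ a ∈ U, ∃ b ∈ U, adj a b ∧ adj b a ∧
      Fin.castLE hM (y a) = i ∧ Fin.castLE hM (y b) = k := Iff.rfl

open Classical in
lemma mkI_inp (U : Finset κ) (adj : κ → κ → Prop) (lb : κ → ℕ) (y : κ → Fin n) (i : Fin M) :
    (mkI hM l0 U adj lb y).inp i = if ∃ a ∈ U, Fin.castLE hM (y a) = i then
      (U.filter fun a => Fin.castLE hM (y a) = i).sup lb else l0 := rfl

lemma mkI_card (U : Finset κ) (adj : κ → κ → Prop) (lb : κ → ℕ) (y : κ → Fin n) :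
    (mkI hM l0 U adj lb y).S.card = n := by
  simp only [mkI]
  rw [Fin.card_filter_val_lt, min_eq_right hM]

lemma mkI_congr {U : Finset κ} {adj adj' : κ → κ → Prop} {lb lb' : κ → ℕ} {y y' : κ → Fin n}
    (h1 : ∀ a ∈ U, ∀ b, adj a b ↔ adj' a b) (h2 : ∀ a ∈ U, lb a = lb' a)
    (h3 : ∀ a ∈ U, y a = y' a) : mkI hM l0 U adj lb y = mkI hM l0 U adj' lb' y' := by
  classical
  refine Inst.ext' rfl (fun i k => ?_) fun i => ?_
  · rw [mkI_adj, mkI_adj]
    refine and_congr_right fun _ => exists_congr fun a => and_congr_right fun ha =>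
      exists_congr fun b => and_congr_right fun hb => ?_
    rw [h1 a ha, h1 b hb, h3 a ha, h3 b hb]
  · rw [mkI_inp, mkI_inp]
    have e : (U.filter fun a => Fin.castLE hM (y a) = i) =
        U.filter fun a => Fin.castLE hM (y' a) = i := filter_congr fun a ha => by rw [h3 a ha]
    refine if_congr (exists_congr fun a => and_congr_right fun ha => by rw [h3 a ha]) ?_ rfl
    rw [e]
    exact sup_congr rfl fun a ha => h2 a (mem_filter.1 ha).1

lemma mkI_map {κ' : Type} [Fintype κ'] {ψ : κ' → κ} {U : Finset κ} (hU : ∀ a, a ∈ U ↔ ∃ c, ψ c = a)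
    (adj : κ → κ → Prop) (lb : κ → ℕ) (y : κ → Fin n) :
    mkI hM l0 U adj lb y =
      mkI hM l0 univ (fun a b => adj (ψ a) (ψ b)) (fun a => lb (ψ a)) (fun a => y (ψ a)) := by
  classical
  refine Inst.ext' rfl (fun i k => ?_) fun i => ?_
  · rw [mkI_adj, mkI_adj]
    refine and_congr_right fun _ => ⟨?_, ?_⟩
    · rintro ⟨a, ha, b, hb, h⟩
      obtain ⟨a, rfl⟩ := (hU a).1 ha
      obtain ⟨b, rfl⟩ := (hU b).1 hb
      exact ⟨a, mem_univ _, b, mem_univ _, h⟩
    · rintro ⟨a, -, b, -, h⟩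
      exact ⟨_, (hU _).2 ⟨a, rfl⟩, _, (hU _).2 ⟨b, rfl⟩, h⟩
  · rw [mkI_inp, mkI_inp]
    refine if_congr ⟨?_, ?_⟩ ?_ rfl
    · rintro ⟨a, ha, h⟩
      obtain ⟨a, rfl⟩ := (hU a).1 ha
      exact ⟨a, mem_univ _, h⟩
    · rintro ⟨a, -, h⟩
      exact ⟨_, (hU _).2 ⟨a, rfl⟩, h⟩
    · have e : (U.filter fun a => Fin.castLE hM (y a) = i) =
          (univ.filter fun a => Fin.castLE hM (y (ψ a)) = i).image ψ := by
        ext a
        simp only [mem_filter, mem_image, mem_univ, true_and, hU]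
        constructor
        · rintro ⟨⟨c, rfl⟩, h⟩
          exact ⟨c, h, rfl⟩
        · rintro ⟨c, h, rfl⟩
          exact ⟨⟨c, rfl⟩, h⟩
      rw [e, sup_image]
      rfl

end Mk

section Fake

variable {N M n : ℕ} (hM : n ≤ M) (l0 : ℕ)

/-- the instance induced on `U`, renamed by `x` -/
noncomputable def fake (I : Inst N) (x : Fin N → Fin n) (U : Finset (Fin N)) : Inst M :=
  mkI hM l0 U I.G.Adj I.inp x

variable {I : Inst N} {x : Fin N → Fin n} {U W : Finset (Fin N)}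

lemma fake_inp (hx : Set.InjOn x U) {y : Fin N} (hy : y ∈ U) :
    (fake hM l0 I x U).inp (Fin.castLE hM (x y)) = I.inp y := by
  classical
  unfold fake
  rw [mkI_inp, if_pos ⟨y, hy, rfl⟩]
  have : (U.filter fun a => Fin.castLE hM (x a) = Fin.castLE hM (x y)) = {y} := by
    ext a
    simp only [mem_filter, mem_singleton, Fin.castLE_inj]
    exact ⟨fun h => hx h.1 hy h.2, by rintro rfl; exact ⟨hy, rfl⟩⟩
  rw [this, sup_singleton]

lemma fake_adj (hx : Set.InjOn x U) {y : Fin N} (hy : y ∈ U) (k : Fin M) :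
    (fake hM l0 I x U).G.Adj (Fin.castLE hM (x y)) k ↔
      ∃ z ∈ U, I.G.Adj y z ∧ Fin.castLE hM (x z) = k := by
  unfold fake
  rw [mkI_adj]
  constructor
  · rintro ⟨-, a, ha, b, hb, h1, -, e1, e2⟩
    obtain rfl := hx ha hy (Fin.castLE_inj.1 e1)
    exact ⟨b, hb, h1, e2⟩
  · rintro ⟨z, hz, h1, rfl⟩
    exact ⟨fun e => h1.ne (hx hy hz (Fin.castLE_inj.1 e)), y, hy, z, hz, h1, h1.symm, rfl, rfl⟩

lemma fake_far {i : Fin M} (hi : ∀ a ∈ U, Fin.castLE hM (x a) ≠ i) :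
    (fake hM l0 I x U).inp i = l0 ∧ ∀ k, ¬ (fake hM l0 I x U).G.Adj i k := by
  unfold fake
  refine ⟨by rw [mkI_inp, if_neg fun ⟨a, ha, h⟩ => hi a ha h], fun k => ?_⟩
  rintro ⟨-, a, ha, b, -, -, -, e, -⟩
  exact hi a ha e

lemma fake_deg {Δ : ℕ} (hx : Set.InjOn x U) (hI : Deg Δ I) : Deg Δ (fake hM l0 I x U) := by
  intro i
  by_cases h : ∃ a ∈ U, Fin.castLE hM (x a) = i
  · obtain ⟨y, hy, rfl⟩ := h
    refine le_trans ?_ (hI y)
    refine le_trans (Set.ncard_le_ncard (t := (fun z => Fin.castLE hM (x z)) '' I.G.neighborSet y)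
      (fun k hk => ?_) (Set.toFinite _)) (Set.ncard_image_le (Set.toFinite _))
    obtain ⟨z, -, h1, h2⟩ := (fake_adj hM l0 hx hy k).1 hk
    exact ⟨z, h1, h2⟩
  · have : (fake hM l0 I x U).G.neighborSet i = ∅ :=
      Set.eq_empty_of_forall_notMem (fake_far hM l0 fun a ha e => h ⟨a, ha, e⟩).2
    rw [this, Set.ncard_empty]
    exact Nat.zero_le _

lemma fake_lab {L : Set ℕ} (hx : Set.InjOn x U) (h0 : l0 ∈ L) (hL : ∀ y ∈ U, I.inp y ∈ L) (i : Fin M) :
    (fake hM l0 I x U).inp i ∈ L := by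
  by_cases h : ∃ a ∈ U, Fin.castLE hM (x a) = i
  · obtain ⟨y, hy, rfl⟩ := h
    rw [fake_inp hM l0 hx hy]
    exact hL y hy
  · rw [(fake_far hM l0 fun a ha e => h ⟨a, ha, e⟩).1]
    exact h0

lemma fake_agree_full (hx : Set.InjOn x W) (hU : U ⊆ W) {y : Fin N} (hy : y ∈ U)
    (hn : ∀ z, I.G.Adj y z → z ∈ U) :
    Agree (fake hM l0 I x W) (fake hM l0 I x U) (Fin.castLE hM (x y)) := by
  have hx' : Set.InjOn x U := hx.mono hU
  refine ⟨Iff.rfl, by rw [fake_inp hM l0 hx (hU hy), fake_inp hM l0 hx' hy], fun k => ?_⟩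
  rw [fake_adj hM l0 hx (hU hy), fake_adj hM l0 hx' hy]
  exact ⟨fun ⟨z, _, h1, h2⟩ => ⟨z, hn z h1, h1, h2⟩, fun ⟨z, hz, h⟩ => ⟨z, hU hz, h⟩⟩

lemma fake_agree_far (hU : U ⊆ W) {i : Fin M} (hi : ∀ a ∈ W, Fin.castLE hM (x a) ≠ i) :
    Agree (fake hM l0 I x W) (fake hM l0 I x U) i := by
  have h1 := fake_far hM l0 (I := I) hi
  have h2 := fake_far hM l0 (I := I) fun a (ha : a ∈ U) => hi a (hU ha)
  exact ⟨Iff.rfl, h1.1.trans h2.1.symm, fun k => iff_of_false (h1.2 k) (h2.2 k)⟩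

end Fake

section Conn

variable {N : ℕ} {G : SimpleGraph (Fin N)}

/-- all nodes of `U` are reached from `v` inside `U` -/
def Conn (G : SimpleGraph (Fin N)) (v : Fin N) (U : Finset (Fin N)) : Prop :=
  v ∈ U ∧ ∀ u ∈ U, Relation.ReflTransGen (fun a b => G.Adj a b ∧ b ∈ U) v u

lemma rtg_mono {U U' : Finset (Fin N)} (h : U ⊆ U') {v u : Fin N}
    (hr : Relation.ReflTransGen (fun a b => G.Adj a b ∧ b ∈ U) v u) :
    Relation.ReflTransGen (fun a b => G.Adj a b ∧ b ∈ U') v u := by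
  induction hr with
  | refl => exact Relation.ReflTransGen.refl
  | tail _ hab ih => exact ih.tail ⟨hab.1, h hab.2⟩

lemma conn_single (v : Fin N) : Conn G v {v} :=
  ⟨mem_singleton_self _, fun _ hu => mem_singleton.1 hu ▸ Relation.ReflTransGen.refl⟩

lemma Conn.union {v y : Fin N} {U U' : Finset (Fin N)} (h : Conn G v U) (h' : Conn G y U')
    (hy : y ∈ U) : Conn G v (U ∪ U') := by
  refine ⟨mem_union_left _ h.1, fun u hu => ?_⟩
  rcases mem_union.1 hu with hu | hu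
  · exact rtg_mono subset_union_left (h.2 u hu)
  · exact (rtg_mono subset_union_left (h.2 y hy)).trans (rtg_mono subset_union_right (h'.2 u hu))

lemma conn_ball (t : ℕ) (v : Fin N) : Conn G v (ball G t v) := by
  refine ⟨mem_ball.2 (near_refl _ _), ?_⟩
  induction t with
  | zero => intro u hu; exact near_zero_iff.1 (mem_ball.1 hu) ▸ Relation.ReflTransGen.refl
  | succ t ih =>
    intro u hu
    obtain ⟨y, h1, h2⟩ := near_succ (mem_ball.1 hu)
    have h3 := rtg_mono (U' := ball G (t + 1) v)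
      (fun z hz => mem_ball.2 ((mem_ball.1 hz).mono (by omega))) (ih y (mem_ball.2 h1))
    rcases near_one_iff.1 h2 with rfl | h2
    · exact h3
    · exact h3.tail ⟨h2, hu⟩

lemma exists_path (t : ℕ) {v : Fin N} : ∀ z, Near G t v z →
    ∃ P : Finset (Fin N), Conn G v P ∧ z ∈ P ∧ P.card ≤ t + 1 := by
  induction t with
  | zero =>
    intro z hz
    exact ⟨{v}, conn_single v, by simp [near_zero_iff.1 hz], by simp⟩
  | succ t ih =>
    intro z hz
    obtain ⟨y, h1, h2⟩ := near_succ hz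
    obtain ⟨P, a1, a2, a3⟩ := ih y h1
    rcases near_one_iff.1 h2 with rfl | h2
    · exact ⟨P, a1, a2, by omega⟩
    · refine ⟨insert z P, ⟨mem_insert_of_mem a1.1, fun u hu => ?_⟩, mem_insert_self _ _,
        (card_insert_le _ _).trans (by omega)⟩
      rcases mem_insert.1 hu with rfl | hu
      · exact (rtg_mono (subset_insert _ _) (a1.2 y a2)).tail ⟨h2, mem_insert_self _ _⟩
      · exact rtg_mono (subset_insert _ _) (a1.2 u hu)

end Conn

lemma explore {N M n D : ℕ} (hM : n ≤ M) (l0 : ℕ) {I : Inst N} {x : Fin N → Fin n}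
    {W : Finset (Fin N)} (hx : Set.InjOn x W) (hD : ∀ y, (ball I.G 1 y).card ≤ D)
    {pr : Inst M → Fin M → ℕ → Fin M}
    (hpr : ∀ J J' v j, (∀ i < j, Agree J J' (pr J v i)) → pr J v j = pr J' v j)
    {t : ℕ} {v : Fin N} (hW : ball I.G t v ⊆ W) (j : ℕ) (hj : j ≤ t) :
    (∃ U, Conn I.G v U ∧ U.card ≤ 1 + D * t ∧ ∃ z ∈ W, z ∉ U ∧
      ∃ i < t, pr (fake hM l0 I x U) (Fin.castLE hM (x v)) i = Fin.castLE hM (x z)) ∨
    ∃ U, Conn I.G v U ∧ U.card ≤ 1 + D * j ∧ U ⊆ ball I.G j v ∧ ∀ U', U ⊆ U' → U' ⊆ W →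
      ∀ i < j, Agree (fake hM l0 I x W) (fake hM l0 I x U')
        (pr (fake hM l0 I x W) (Fin.castLE hM (x v)) i) := by
  induction j with
  | zero =>
    exact Or.inr ⟨{v}, conn_single v, by simp, by simpa using mem_ball.2 (near_refl _ _),
      fun _ _ _ i hi => by omega⟩
  | succ j ih =>
    rcases ih (by omega) with h | ⟨U, h1, h2, h3, h4⟩
    · exact Or.inl h
    have hb : ball I.G j v ⊆ ball I.G (j + 1) v := fun z hz =>
      mem_ball.2 ((mem_ball.1 hz).mono (by omega))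
    have hb' : ball I.G (j + 1) v ⊆ W := fun z hz => hW (mem_ball.2 ((mem_ball.1 hz).mono hj))
    have hUW : U ⊆ W := h3.trans (hb.trans hb')
    have e := hpr _ _ _ j (h4 U subset_rfl hUW)
    by_cases hc : ∃ y ∈ W, Fin.castLE hM (x y) = pr (fake hM l0 I x W) (Fin.castLE hM (x v)) j
    · obtain ⟨y, hy, hy'⟩ := hc
      by_cases hyU : y ∈ U
      · refine Or.inr ⟨U ∪ ball I.G 1 y, h1.union (conn_ball 1 y) hyU,
          (card_union_le _ _).trans ?_, union_subset (h3.trans hb) fun z hz =>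
            mem_ball.2 ((mem_ball.1 (h3 hyU)).trans (mem_ball.1 hz)), fun U' a1 a2 i hi => ?_⟩
        · have := hD y
          rw [Nat.mul_succ]
          omega
        · rcases (Nat.lt_succ_iff.1 hi).eq_or_lt with rfl | hi
          · rw [← hy']
            exact fake_agree_full hM l0 hx a2 (a1 (mem_union_left _ hyU)) fun z hz =>
              a1 (mem_union_right _ (mem_ball.2 (near_of_adj hz)))
          · exact h4 U' (subset_union_left.trans a1) a2 i hi
      · refine Or.inl ⟨U, h1, h2.trans ?_, y, hy, hyU, j, by omega, by rw [← e, hy']⟩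
        exact Nat.add_le_add_left (Nat.mul_le_mul_left _ (by omega)) _
    · refine Or.inr ⟨U, h1, h2.trans ?_, h3.trans hb, fun U' a1 a2 i hi => ?_⟩
      · exact Nat.add_le_add_left (Nat.mul_le_mul_left _ (by omega)) _
      · rcases (Nat.lt_succ_iff.1 hi).eq_or_lt with rfl | hi
        · exact fake_agree_far hM l0 a2 fun a ha h => hc ⟨a, ha, h⟩
        · exact h4 U' a1 a2 i hi

end Pool.Agent.Lib.MP_559647_lc
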