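import Pool.Agent.Lib.MP_559647_lc.V55Pot
import Pool.Agent.Lib.MP_559647_lc.V55Walk

/-!
A local lemma for events that live on short walks: the variables are fixed colour by colour, each
node keeping the mass of its own one-node object from growing.
-/

namespace Pool.Agent.Lib.MP_559647_lc

open MeasureTheory Finset
open scoped ENNReal

variable {N : ℕ} {Ω : Type} [MeasurableSpace Ω]

/-- valid objects at depth `d` below walks of `2 ^ J` nodes -/
def okAt (G : SimpleGraph (Fin N)) (J d : ℕ) (σ : List (Fin N) × Finset (Fin N)) : Prop :=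
  d ≤ J ∧ Obj G (2 ^ (J - d)) σ

lemma okAt_par {G : SimpleGraph (Fin N)} {J d : ℕ} {b : Bool} {ω σ : List (Fin N) × Finset (Fin N)}
    (h : okAt G J (d + 1) ω) (hσ : σ ∈ pars G b ω) :
    okAt G J d σ ∧ ω.2 ⊆ σ.2 ∧ ∀ z ∈ ω.1, z ∈ σ.1 := by
  obtain ⟨h1, rfl⟩ := mem_pars.1 hσ
  refine ⟨⟨by have := h.1; omega, ?_⟩, half_sub b σ⟩
  rw [h.2.1, ← pow_succ', show J - (d + 1) + 1 = J - d by have := h.1; omega] at h1
  exact h1

lemma okAt_near {G : SimpleGraph (Fin N)} {J d : ℕ} {σ : List (Fin N) × Finset (Fin N)}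
    (h : okAt G J d σ) {y z : Fin N} (hy : y ∈ σ.1) (hz : z ∈ σ.1) : Near G (2 ^ J) y z :=
  (chain_near _ h.2.2.1 y hy z hz).mono
    (h.2.1 ▸ Nat.pow_le_pow_right (by norm_num) (Nat.sub_le _ _))

lemma reach_near {G : SimpleGraph (Fin N)} {J : ℕ} {y z : Fin N} (d : ℕ) :
    ∀ ω, okAt G J d ω → y ∈ ω.1 → reach Prod.snd (pars G) d ω z → Near G (2 ^ J) y z := by
  induction d with
  | zero => intro ω h hy hz; exact okAt_near h hy (List.mem_toFinset.1 (h.2.2.2 hz))
  | succ d ih =>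
    rintro ω h hy ⟨b, σ, hσ, hz⟩
    exact ih σ (okAt_par h hσ).1 ((okAt_par h hσ).2.2 y hy) hz

lemma okAt_leaf (G : SimpleGraph (Fin N)) (J : ℕ) (y : Fin N) : okAt G J J ([y], {y}) :=
  ⟨le_rfl, by simp, by simp, by simp⟩

variable (μ : Measure Ω) (J : ℕ) (col : Inst N → Fin N → ℕ)
  (F : Inst N → List (Fin N) × Finset (Fin N) → (Fin N → Ω) → ℝ≥0∞)

/-- the value `x` at `y` does not increase the mass of the one-node object -/
def GoodX (I : Inst N) (s : ℕ) (a : Fin N → Ω) (y : Fin N) (x : Ω) : Prop :=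
  mass μ Prod.snd (pars I.G) (col I) (F I) J ([y], {y}) (s + 1) (Function.update a y x) ≤
    mass μ Prod.snd (pars I.G) (col I) (F I) J ([y], {y}) s a

/-- the values after the colours below `s` have acted -/
noncomputable def vals (o : Ω) (I : Inst N) : ℕ → Fin N → Ω
  | 0 => fun _ => o
  | s + 1 => fun y => if col I y = s then
      @Classical.epsilon Ω ⟨o⟩ (GoodX μ J col F I s (vals o I s) y) else vals o I s y

variable {μ J col F}

lemma vals_stable (o : Ω) (I : Inst N) {z : Fin N} {s : ℕ} (hz : col I z < s) (k : ℕ) :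
    vals μ J col F o I (s + k) z = vals μ J col F o I s z := by
  induction k with
  | zero => rfl
  | succ k ih =>
    rw [← ih, ← add_assoc]
    simp only [vals]
    rw [if_neg (by omega)]

lemma vals_loc {C : Set (Inst N)} {r : ℕ}
    (hF : ∀ I σ a b, (∀ z ∈ σ.2, a z = b z) → F I σ a = F I σ b)
    (hl : ∀ I ∈ C, ∀ I' ∈ C, ∀ σ, Obj I.G (2 ^ J) σ → ∀ y ∈ σ.1, SameView r y I I' →
      F I σ = F I' σ) (o : Ω) {I I' : Inst N} (hI : I ∈ C) (hI' : I' ∈ C) (s : ℕ) :
    ∀ y, SameView (2 * 2 ^ J + r + s * 2 ^ J) y I I' →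
      (∀ z, Near I.G (2 * 2 ^ J + r + s * 2 ^ J) y z → col I z = col I' z) →
      vals μ J col F o I s y = vals μ J col F o I' s y := by
  induction s with
  | zero => intro v _ _; rfl
  | succ s ih =>
    intro y hv hc
    rw [add_one_mul, ← add_assoc] at hv hc
    have e1 : col I y = col I' y := hc y (near_refl _ _)
    have hs' : ∀ z, Near I.G (2 ^ J) y z → vals μ J col F o I s z = vals μ J col F o I' s z :=
      fun z hz => ih z (hv.shift hz (by omega)) fun u hu => hc u (hz.trans' hu (by omega))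
    have e2 := hs' y (near_refl _ _)
    simp only [vals]
    rw [← e1, ← e2]
    have hm : mass μ Prod.snd (pars I.G) (col I) (F I) J ([y], {y}) =
        mass μ Prod.snd (pars I'.G) (col I') (F I') J ([y], {y}) := by
      refine mass_congr (nr := fun d ω => okAt I.G J d ω ∧ y ∈ ω.1) (fun σ h => ?_)
        (fun d ω b h => ⟨?_, fun σ hσ => ⟨(okAt_par h.1 hσ).1, (okAt_par h.1 hσ).2.2 y h.2⟩⟩)
        (fun d ω h z hz => ?_) J _ ⟨okAt_leaf _ _ _, by simp⟩
      · exact hl I hI I' hI' σ h.1.2 y h.2 (hv.mono (by omega))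
      · refine pars_view hv b h.2 ?_
        have h1 := h.1.2.1
        have h2 := h.1.1
        have h3 : 2 * 2 ^ (J - (d + 1)) ≤ 2 ^ J := by
          rw [← pow_succ']
          exact Nat.pow_le_pow_right (by norm_num) (by omega)
        omega
      · exact hc z ((okAt_near h.1 h.2 (List.mem_toFinset.1 (h.1.2.2.2 hz))).mono (by omega))
    have hs : ∀ z, reach Prod.snd (pars I.G) J ([y], {y}) z →
        vals μ J col F o I s z = vals μ J col F o I' s z := fun z hz =>
      hs' z (reach_near J _ (okAt_leaf _ _ _) (by simp) hz)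
    have hG : GoodX μ J col F I s (vals μ J col F o I s) y =
        GoodX μ J col F I' s (vals μ J col F o I' s) y := by
      funext x
      unfold GoodX
      rw [← hm, mass_dep (hF I) J _ s _ (vals μ J col F o I' s) fun z hz _ => hs z hz,
        mass_dep (hF I) J _ (s + 1) _ (Function.update (vals μ J col F o I' s) y x) fun z hz _ => by
          by_cases h : z = y
          · subst h; simp
          · rw [Function.update_of_ne h, Function.update_of_ne h, hs z hz]]
    rw [hG]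

section Bound

variable [IsProbabilityMeasure μ] {I : Inst N} {K D : ℕ} {q : ℝ≥0∞}
  (hK : ∀ v, col I v < K) (hp : ∀ x y, x ≠ y → Near I.G (2 ^ J) x y → col I x ≠ col I y)
  (hD : ∀ x, (ball I.G 1 x).card ≤ D)
  (hF : ∀ σ a b, (∀ z ∈ σ.2, a z = b z) → F I σ a = F I σ b) (hm : ∀ σ, Measurable (F I σ))
  (hq : q ≠ ⊤) (hb : ∀ σ a, F I σ a ≤ q)

omit [MeasurableSpace Ω] [IsProbabilityMeasure μ] in
include hp in
lemma okAt_inj (d : ℕ) (σ : List (Fin N) × Finset (Fin N)) (h : okAt I.G J d σ) :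
    ∀ y ∈ σ.2, ∀ z ∈ σ.2, col I y = col I z → y = z := by
  intro y hy z hz e
  by_contra hne
  exact hp y z hne (okAt_near h (List.mem_toFinset.1 (h.2.2.2 hy))
    (List.mem_toFinset.1 (h.2.2.2 hz))) e

include hK hp hF hm in
lemma vals_good (o : Ω) (y : Fin N) :
    mass μ Prod.snd (pars I.G) (col I) (F I) J ([y], {y}) (col I y + 1) (vals μ J col F o I K) ≤
      mass μ Prod.snd (pars I.G) (col I) (F I) J ([y], {y}) (col I y) (vals μ J col F o I K) := by
  have hpar : ∀ d b ω σ, okAt I.G J (d + 1) ω → σ ∈ pars I.G b ω → okAt I.G J d σ ∧ ω.2 ⊆ σ.2 :=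
    fun d b ω σ h hσ => ⟨(okAt_par h hσ).1, (okAt_par h hσ).2.1⟩
  have hex : ∃ x, GoodX μ J col F I (col I y) (vals μ J col F o I (col I y)) y x := by
    obtain ⟨x, hx⟩ := exists_le_lintegral (μ := μ) (f := fun x =>
      mass μ Prod.snd (pars I.G) (col I) (F I) J ([y], {y}) (col I y + 1)
        (Function.update (vals μ J col F o I (col I y)) y x))
      ((mass_meas hm J _ _).comp (measurable_update _)).aemeasurable
    exact ⟨x, hx.trans (mass_super (ok := okAt I.G J) (okAt_inj hp) hpar hF hm J _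
      (okAt_leaf _ _ _) y (by simp) _)⟩
  have hg := @Classical.epsilon_spec Ω _ hex
  have st : ∀ z s, col I z < s → s ≤ K → vals μ J col F o I K z = vals μ J col F o I s z := by
    intro z s h1 h2
    obtain ⟨k, rfl⟩ := Nat.exists_eq_add_of_le h2
    exact vals_stable o I h1 k
  rw [mass_dep hF J _ (col I y) _ (vals μ J col F o I (col I y))
    fun z _ hz => st z _ hz (hK y).le]
  refine le_trans (le_of_eq (mass_dep hF J _ _ _ _ fun z hz hc => ?_)) hg
  by_cases h : z = y
  · subst h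
    rw [Function.update_self, st z (col I z + 1) (by omega) (hK z)]
    simp [vals]
  · have : col I y ≠ col I z := fun e => h (reach_inj (ok := okAt I.G J) (okAt_inj hp) hpar J _
      (okAt_leaf _ _ _) y (by simp) z hz e).symm
    rw [Function.update_of_ne h, st z _ (by omega) (hK y).le]

include hD in
omit [IsProbabilityMeasure μ] in
lemma init_le {d : ℕ} {ω : List (Fin N) × Finset (Fin N)} {y : Fin N} (hy : y ∈ ω.1)
    (a : Fin N → Ω) : mass μ Prod.snd (pars I.G) (col I) (F I) (d + 1) ω 0 a ≤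
      ((4 * D ^ 2 : ℕ) : ℝ≥0∞) ^ (2 * ω.1.length) := by
  rw [mass_init]
  have h1 := pars_card hD false hy
  have h2 := pars_card hD true hy
  have hpos : 0 < ω.1.length := List.length_pos_of_mem hy
  have hD1 : 1 ≤ D := le_trans (card_pos.2 ⟨y, mem_ball.2 (near_refl _ _)⟩) (hD y)
  have h3 : 1 ≤ (2 * D ^ 2) ^ (2 * ω.1.length) := Nat.one_le_pow _ _ (by positivity)
  have h4 : 2 ^ 2 ≤ 2 ^ (2 * ω.1.length) := Nat.pow_le_pow_right (by norm_num) (by omega)
  have h5 : (4 * D ^ 2) ^ (2 * ω.1.length) =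
      2 ^ (2 * ω.1.length) * (2 * D ^ 2) ^ (2 * ω.1.length) := by
    rw [← mul_pow]; congr 1; ring
  have h6 : 1 + ((pars I.G true ω).card + (pars I.G false ω).card) ≤
      (4 * D ^ 2) ^ (2 * ω.1.length) := by
    rw [h5]; nlinarith
  rw [Fintype.sum_bool]
  exact_mod_cast h6

include hp hq hb in
lemma split_le {d e : ℕ} (hde : e + 1 + d = J) {σ : List (Fin N) × Finset (Fin N)}
    (h : okAt I.G J d σ) (s : ℕ) (a : Fin N → Ω) :
    (∀ b, okAt I.G J (d + 1) (half b σ)) ∧
    mass μ Prod.snd (pars I.G) (col I) (F I) d σ s a ≤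
      mass μ Prod.snd (pars I.G) (col I) (F I) d σ 0 a *
        (mass μ Prod.snd (pars I.G) (col I) (F I) (d + 1) (half false σ) s a *
          mass μ Prod.snd (pars I.G) (col I) (F I) (d + 1) (half true σ) s a) := by
  have h1 : Obj I.G (2 * 2 ^ e) σ := by
    have := h.2
    rwa [show J - d = e + 1 by omega, pow_succ'] at this
  have h2 : ∀ b, σ ∈ pars I.G b (half b σ) := fun b =>
    mem_pars.2 ⟨by rw [(half_obj h1 b).1]; exact h1, rfl⟩
  refine ⟨fun b => ⟨by omega, by rw [show J - (d + 1) = e by omega]; exact half_obj h1 b⟩, ?_⟩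
  exact mass_split (okAt_inj hp d σ h) (fun s => mass_ne_top hq hb d σ s a) (h2 false) (h2 true)
    (half_union σ).1 (half_union σ).2 s

include hK hp hD hF hm hq hb in
lemma level_le (o : Ω) (s e : ℕ) : ∀ d ω, e + (d + 1) = J → okAt I.G J (d + 1) ω →
    mass μ Prod.snd (pars I.G) (col I) (F I) (d + 1) ω s (vals μ J col F o I K) ≤
      ((4 * D ^ 2 : ℕ) : ℝ≥0∞) ^ ((e + 1) * 2 ^ (e + 1)) := by
  induction e with
  | zero =>
    rintro d ⟨w, S⟩ hd h
    have h1 := h.2.1
    rw [show J - (d + 1) = 0 by omega, pow_zero] at h1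
    obtain ⟨y, rfl⟩ := List.length_eq_one_iff.1 h1
    refine (mass_leaf (fun z hz => ?_) s).trans (init_le hD (y := y) (by simp) _)
    have h2 : S ⊆ {y} := by simpa using h.2.2.2
    obtain rfl : z = y := mem_singleton.1 (h2 hz)
    obtain rfl : S = {z} := h2.antisymm (by simpa using hz)
    obtain rfl : d + 1 = J := by omega
    exact vals_good hK hp hF hm o z
  | succ e ih =>
    intro d ω hd h
    obtain ⟨h1, h2⟩ := split_le (μ := μ) hp hq hb (e := e) (by omega) h s (vals μ J col F o I K)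
    have hl : ω.1.length = 2 ^ (e + 1) := by rw [h.2.1]; congr 1; omega
    obtain ⟨y, hy⟩ := List.exists_mem_of_length_pos (l := ω.1) (by rw [hl]; positivity)
    refine h2.trans ((mul_le_mul' (init_le hD hy _) (mul_le_mul' (ih _ _ (by omega) (h1 false))
      (ih _ _ (by omega) (h1 true)))).trans (le_of_eq ?_))
    rw [← pow_add, ← pow_add, hl]
    congr 1
    ring

end Bound

theorem conn_lll [IsProbabilityMeasure μ] {C : Set (Inst N)} {K e r D : ℕ} {q : ℝ≥0∞}
    (hK : ∀ I ∈ C, ∀ v, col I v < K)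
    (hp : ∀ I ∈ C, ∀ x y, x ≠ y → Near I.G (2 ^ (e + 1)) x y → col I x ≠ col I y)
    (hD : ∀ I ∈ C, ∀ x, (ball I.G 1 x).card ≤ D)
    (hF : ∀ I σ a b, (∀ z ∈ σ.2, a z = b z) → F I σ a = F I σ b) (hm : ∀ I σ, Measurable (F I σ))
    (hq : q ≠ ⊤) (hb : ∀ I σ a, F I σ a ≤ q)
    (hl : ∀ I ∈ C, ∀ I' ∈ C, ∀ σ, Obj I.G (2 ^ (e + 1)) σ → ∀ y ∈ σ.1, SameView r y I I' →
      F I σ = F I' σ) :
    ∃ x : Inst N → Fin N → Ω, (∀ I ∈ C, ∀ I' ∈ C, ∀ y,
        SameView (2 * 2 ^ (e + 1) + r + K * 2 ^ (e + 1)) y I I' →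
        (∀ z, Near I.G (2 * 2 ^ (e + 1) + r + K * 2 ^ (e + 1)) y z → col I z = col I' z) →
        x I y = x I' y) ∧
      ∀ I ∈ C, ∀ σ, Obj I.G (2 ^ (e + 1)) σ → 1 + F I σ (x I) ≤
        (1 + lmarginal (fun _ => μ) σ.2 (F I σ) (x I)) *
          ((4 * D ^ 2 : ℕ) : ℝ≥0∞) ^ ((e + 1) * 2 ^ (e + 2)) := by
  obtain ⟨o⟩ : Nonempty Ω := nonempty_of_isProbabilityMeasure μ
  refine ⟨fun I v => vals μ (e + 1) col F o I K v, fun I hI I' hI' => vals_loc hF hl o hI hI' K,
    fun I hI σ hσ => ?_⟩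
  obtain ⟨h1, h2⟩ := split_le (μ := μ) (col := col) (hp I hI) hq (hb I) (e := e) (d := 0) rfl
    (σ := σ) ⟨by omega, hσ⟩ K (vals μ (e + 1) col F o I K)
  have h3 := fun b => level_le (μ := μ) (hK I hI) (hp I hI) (hD I hI) (hF I) (hm I) hq (hb I) o K
    e 0 _ rfl (h1 b)
  have h4 := h2.trans (mul_le_mul_right (mul_le_mul' (h3 false) (h3 true)) _)
  rw [mass_zero, mass_zero, filter_eq_empty_iff.2 (fun y _ => by have := hK I hI y; omega),
    lmarginal_empty, filter_true_of_mem (fun _ _ => Nat.zero_le _), ← pow_add] at h4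
  refine h4.trans (le_of_eq ?_)
  congr 2
  ring

end Pool.Agent.Lib.MP_559647_lc
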