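import Pool.Agent.Lib.MP_559647_lc.V55Fake
import Pool.Agent.Lib.MP_559647_lc.G56Meas

/-!
Random identifiers: guessing one is unlikely, and one shared seed is good for all small shapes.
-/

namespace Pool.Agent.Lib.MP_559647_lc

open MeasureTheory Finset
open scoped ENNReal

variable {M n : ℕ} (hM : n ≤ M) {ν : Measure (Fin n)} [IsProbabilityMeasure ν] {ε : ℝ≥0∞}

lemma guess {ι : Type} [Fintype ι] [DecidableEq ι] (hν : ∀ c, ν {c} ≤ ε) (z : ι)
    {g : (ι → Fin n) → Fin M} (hg : ∀ x c, g (Function.update x z c) = g x) :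
    (Measure.pi fun _ : ι => ν) {x | g x = Fin.castLE hM (x z)} ≤ ε := by
  rw [← lintegral_indicator_one (Set.toFinite _).measurableSet]
  refine (lintegral_le_of_lmarginal_le (g := fun _ => ε) {z} (measurable_of_finite _)
    measurable_const fun x => ?_).trans (by simp)
  rw [lmarginal_singleton, lmarginal_singleton]
  simp only [lintegral_const, measure_univ, mul_one]
  have e : (fun c => Set.indicator {x : ι → Fin n | g x = Fin.castLE hM (x z)} (1 : (ι → Fin n) → ℝ≥0∞)
      (Function.update x z c)) = Set.indicator {c | g x = Fin.castLE hM c} 1 := by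
    funext c
    simp only [Set.indicator, Set.mem_ofPred_eq, hg, Function.update_self, Pi.one_apply]
  rw [e, lintegral_indicator_one (Set.toFinite _).measurableSet]
  by_cases h : ∃ c, g x = Fin.castLE hM c
  · obtain ⟨c, hc⟩ := h
    refine le_trans (measure_mono fun c' hc' => ?_) (hν c)
    exact Fin.castLE_inj.1 (hc'.symm.trans hc)
  · exact (measure_mono (t := ∅) fun c hc => h ⟨c, hc⟩).trans (by simp)

lemma avg_bound {Ω Y : Type} [MeasurableSpace Ω] {μ : Measure Ω} [Fintype Y] [MeasurableSpace Y]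
    [MeasurableSingletonClass Y] (ρ : Measure Y) [IsProbabilityMeasure ρ] {E : Ω → Y → Prop}
    (hm : ∀ y, MeasurableSet {ω | E ω y}) (hε : ∀ y, μ {ω | E ω y} ≤ ε) :
    Measurable (fun ω => ρ {y | E ω y}) ∧ ∫⁻ ω, ρ {y | E ω y} ∂μ ≤ ε := by
  have e : (fun ω => ρ {y | E ω y}) =
      fun ω => ∑ y, Set.indicator {ω | E ω y} (1 : Ω → ℝ≥0∞) ω * ρ {y} := by
    funext ω
    rw [← lintegral_indicator_one (Set.toFinite _).measurableSet, lintegral_fintype]
    rfl
  have hm' : ∀ y, Measurable fun ω => Set.indicator {ω | E ω y} (1 : Ω → ℝ≥0∞) ω * ρ {y} :=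
    fun y => (measurable_one.indicator (hm y)).mul_const _
  rw [e]
  refine ⟨Finset.measurable_sum _ fun y _ => hm' y, ?_⟩
  rw [lintegral_finsetSum _ fun y _ => hm' y]
  calc ∑ y, ∫⁻ ω, Set.indicator {ω | E ω y} (1 : Ω → ℝ≥0∞) ω * ρ {y} ∂μ ≤ ∑ y, ε * ρ {y} := by
        refine sum_le_sum fun y _ => ?_
        rw [lintegral_mul_const _ (measurable_one.indicator (hm y)), lintegral_indicator_one (hm y)]
        exact mul_le_mul_left (hε y) _
    _ = ε := by rw [← lintegral_fintype (fun _ => ε)]; simp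

lemma small_card (m Δ : ℕ) :
    (univ.filter fun s : Finset (Fin m) => s.card ≤ Δ).card ≤ (m + 1) ^ Δ := by
  induction Δ with
  | zero =>
    rw [pow_zero]
    refine card_le_one.2 fun a ha b hb => ?_
    rw [card_eq_zero.1 (Nat.le_zero.1 (mem_filter.1 ha).2),
      card_eq_zero.1 (Nat.le_zero.1 (mem_filter.1 hb).2)]
  | succ Δ ih =>
    have : (univ.filter fun s : Finset (Fin m) => s.card ≤ Δ + 1) ⊆ insert ∅
        (univ.biUnion fun a => (univ.filter fun s : Finset (Fin m) => s.card ≤ Δ).image (insert a)) := by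
      intro s hs
      rcases s.eq_empty_or_nonempty with rfl | ⟨a, ha⟩
      · exact mem_insert_self _ _
      · refine mem_insert_of_mem (mem_biUnion.2 ⟨a, mem_univ _, mem_image.2 ⟨s.erase a, ?_,
          insert_erase ha⟩⟩)
        have := (mem_filter.1 hs).2
        rw [mem_filter, card_erase_of_mem ha]
        exact ⟨mem_univ _, by omega⟩
    refine (card_le_card this).trans ((card_insert_le _ _).trans ?_)
    have h1 := card_biUnion_le_card_mul (univ : Finset (Fin m)) (fun a =>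
      (univ.filter fun s : Finset (Fin m) => s.card ≤ Δ).image (insert a)) ((m + 1) ^ Δ)
      fun a _ => card_image_le.trans ih
    rw [card_univ, Fintype.card_fin] at h1
    have h2 : 1 ≤ (m + 1) ^ Δ := Nat.one_le_pow _ _ (by omega)
    rw [pow_succ]
    nlinarith

/-- neighbour lists and labels on `m` nodes -/
def shapes (m Δ : ℕ) (L : Finset ℕ) : Finset (Fin m → Finset (Fin m) × ℕ) :=
  Fintype.piFinset fun _ => (univ.filter fun s : Finset (Fin m) => s.card ≤ Δ) ×ˢ L

lemma shapes_card {m T : ℕ} (hm : m ≤ T) (Δ : ℕ) (L : Finset ℕ) :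
    (shapes m Δ L).card ≤ ((T + 1) ^ Δ * (L.card + 1)) ^ T := by
  unfold shapes
  rw [Fintype.card_piFinset_const, card_product]
  refine (Nat.pow_le_pow_left (Nat.mul_le_mul ((small_card m Δ).trans
    (Nat.pow_le_pow_left (Nat.succ_le_succ hm) _)) (Nat.le_succ _)) _).trans ?_
  exact Nat.pow_le_pow_right (by positivity) hm

/-- the instance with a given shape and given identifiers -/
noncomputable def build (l0 : ℕ) {m : ℕ} (s : Fin m → Finset (Fin m) × ℕ) (y : Fin m → Fin n) :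
    Inst M := mkI hM l0 univ (fun a b => b ∈ (s a).1) (fun a => (s a).2) y

lemma choose_seed {Ω : Type} [MeasurableSpace Ω] {μ : Measure Ω} [IsProbabilityMeasure μ]
    {E : Ω → Inst M → Prop} (hm : ∀ J, MeasurableSet {ω | E ω J}) (hε : ∀ J, μ {ω | E ω J} ≤ ε)
    (l0 T Δ : ℕ) (L : Finset ℕ) : ∃ ω, ∀ m ≤ T, ∀ s ∈ shapes m Δ L,
      (Measure.pi fun _ : Fin m => ν) {y | E ω (build hM l0 s y)} ≤
        (((T + 1) * ((T + 1) ^ Δ * (L.card + 1)) ^ T : ℕ) : ℝ≥0∞) * ε := by
  have key := fun m (s : Fin m → Finset (Fin m) × ℕ) => avg_bound (μ := μ)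
    (Measure.pi fun _ : Fin m => ν) (E := fun ω y => E ω (build hM l0 s y)) (fun y => hm _)
    (fun y => hε _)
  have hm2 : ∀ m, Measurable fun ω => ∑ s ∈ shapes m Δ L,
      (Measure.pi fun _ : Fin m => ν) {y | E ω (build hM l0 s y)} :=
    fun m => Finset.measurable_sum _ fun s _ => (key m s).1
  obtain ⟨ω, hω⟩ := exists_le_lintegral (μ := μ) (f := fun ω => ∑ m ∈ range (T + 1),
    ∑ s ∈ shapes m Δ L, (Measure.pi fun _ : Fin m => ν) {y | E ω (build hM l0 s y)})
    (Finset.measurable_sum _ fun m _ => hm2 m).aemeasurable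
  refine ⟨ω, fun m hmT s hs => le_trans ?_ (hω.trans ?_)⟩
  · refine le_trans ?_ (single_le_sum (f := fun m => ∑ s ∈ shapes m Δ L,
      (Measure.pi fun _ : Fin m => ν) {y | E ω (build hM l0 s y)}) (fun _ _ => zero_le)
      (mem_range.2 (Nat.lt_succ_of_le hmT)))
    exact single_le_sum (f := fun s => (Measure.pi fun _ : Fin m => ν) {y | E ω (build hM l0 s y)})
      (fun _ _ => zero_le) hs
  · rw [lintegral_finsetSum _ fun m _ => hm2 m]
    refine (sum_le_card_nsmul _ _ (((((T + 1) ^ Δ * (L.card + 1)) ^ T : ℕ) : ℝ≥0∞) * ε)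
      fun m hm' => ?_).trans (le_of_eq ?_)
    · rw [lintegral_finsetSum _ fun s _ => (key m s).1]
      refine (sum_le_card_nsmul _ _ ε fun s _ => (key m s).2).trans ?_
      rw [nsmul_eq_mul]
      exact mul_le_mul_left (by exact_mod_cast shapes_card (Nat.lt_succ_iff.1 (mem_range.1 hm')) Δ L) _
    · rw [card_range, nsmul_eq_mul, ← mul_assoc, ← Nat.cast_mul]

lemma fail_prob {N T Δ l0 : ℕ} {L : Finset ℕ} {E : Inst M → Prop}
    (h : ∀ m ≤ T, ∀ s ∈ shapes m Δ L, (Measure.pi fun _ : Fin m => ν) {y | E (build hM l0 s y)} ≤ ε)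
    {I : Inst N} (hI : Deg Δ I) {S : Finset (Fin N)} (hS : S.card ≤ T) (hL : ∀ y ∈ S, I.inp y ∈ L) :
    (Measure.pi fun _ : Fin N => ν) {x | E (fake hM l0 I x S)} ≤ ε := by
  classical
  let ψ : Fin S.card → Fin N := S.orderEmbOfFin rfl
  have hψ : Function.Injective ψ := (S.orderEmbOfFin rfl).injective
  have hU : ∀ a, a ∈ S ↔ ∃ c, ψ c = a := fun a => by
    rw [← mem_coe, ← range_orderEmbOfFin S rfl]
    rfl
  let s : Fin S.card → Finset (Fin S.card) × ℕ := fun a =>
    (univ.filter fun b => I.G.Adj (ψ a) (ψ b), I.inp (ψ a))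
  have hs : s ∈ shapes S.card Δ L := by
    refine Fintype.mem_piFinset.2 fun a => mem_product.2 ⟨mem_filter.2 ⟨mem_univ _, ?_⟩,
      hL _ ((hU _).2 ⟨a, rfl⟩)⟩
    refine le_trans ?_ (hI (ψ a))
    rw [← Set.ncard_coe_finset]
    exact Set.ncard_le_ncard_of_injOn ψ (fun b hb => (mem_filter.1 hb).2) hψ.injOn (Set.toFinite _)
  have e : ∀ x : Fin N → Fin n, fake hM l0 I x S = build hM l0 s fun a => x (ψ a) := by
    intro x
    unfold fake build
    rw [mkI_map hM l0 hU]
    exact mkI_congr hM l0 (fun a _ b => by simp [s]) (fun _ _ => rfl) fun _ _ => rfl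
  have h1 := h _ hS s hs
  rw [← map_comp_inj (μ := ν) hψ, Measure.map_apply (measurable_of_finite _)
    (Set.toFinite _).measurableSet] at h1
  simp only [e]
  exact h1

lemma hit_prob {N T t l0 : ℕ} (hν : ∀ c, ν {c} ≤ ε) (pr : Inst M → Fin M → ℕ → Fin M) (I : Inst N)
    {S : Finset (Fin N)} (hS : S.card ≤ T) :
    (Measure.pi fun _ : Fin N => ν) {x | ∃ U ⊆ S, ∃ v ∈ U, ∃ z ∈ S, z ∉ U ∧ ∃ j ≤ t,
      pr (fake hM l0 I x U) (Fin.castLE hM (x v)) j = Fin.castLE hM (x z)} ≤
      ((2 ^ T * (T * (T * (t + 1))) : ℕ) : ℝ≥0∞) * ε := by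
  classical
  let X := (S.powerset ×ˢ S ×ˢ S ×ˢ range (t + 1)).filter fun q => q.2.1 ∈ q.1 ∧ q.2.2.1 ∉ q.1
  refine le_trans (measure_mono (t := ⋃ q ∈ X, {x | pr (fake hM l0 I x q.1)
    (Fin.castLE hM (x q.2.1)) q.2.2.2 = Fin.castLE hM (x q.2.2.1)}) ?_)
    ((measure_biUnion_finset_le _ _).trans ((sum_le_card_nsmul _ _ ε fun q hq => ?_).trans ?_))
  · rintro x ⟨U, hU, v, hv, z, hz, hzU, j, hj, h⟩
    refine Set.mem_iUnion₂.2 ⟨(U, v, z, j), ?_, h⟩
    simp only [X, mem_filter, mem_product, mem_powerset, mem_range]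
    exact ⟨⟨hU, hU hv, hz, by omega⟩, hv, hzU⟩
  · obtain ⟨h1, h2⟩ := (mem_filter.1 hq).2
    refine guess hM hν _ fun x c => ?_
    have a1 : ∀ a ∈ q.1, Function.update x q.2.2.1 c a = x a := fun a ha =>
      Function.update_of_ne (by rintro rfl; exact h2 ha) _ _
    rw [a1 _ h1]
    congr 1
    exact mkI_congr hM l0 (fun _ _ _ => Iff.rfl) (fun _ _ => rfl) a1
  · rw [nsmul_eq_mul]
    refine mul_le_mul_left ?_ _
    have : X.card ≤ 2 ^ T * (T * (T * (t + 1))) := by
      refine (card_filter_le _ _).trans ?_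
      rw [card_product, card_product, card_product, card_powerset, card_range]
      gcongr
      norm_num
    exact_mod_cast this

end Pool.Agent.Lib.MP_559647_lc
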