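import Pool.Agent.Lib.MP_559647_lc.V55Defs
import Pool.Agent.Lib.MP_559647_lc.V55Walk

/-!
From a set of nodes that can be discovered step by step to a connected probe algorithm, and a
distance colouring that needs few probes (colour reduction along parent pointers).
-/

namespace Pool.Agent.Lib.MP_559647_lc

open Finset

variable {N : ℕ}

/-- labels and neighbours agree on `P` -/
def Agr (I J : Inst N) (P : Finset (Fin N)) : Prop :=
  ∀ u ∈ P, I.inp u = J.inp u ∧ ∀ z, I.G.Adj u z ↔ J.G.Adj u z

lemma Agr.trans_iff {I J K : Inst N} {P : Finset (Fin N)} (h : Agr I J P) : Agr I K P ↔ Agr J K P :=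
  ⟨fun h' u hu => ⟨(h u hu).1.symm.trans (h' u hu).1,
      fun z => ((h u hu).2 z).symm.trans ((h' u hu).2 z)⟩,
    fun h' u hu => ⟨(h u hu).1.trans (h' u hu).1, fun z => ((h u hu).2 z).trans ((h' u hu).2 z)⟩⟩

lemma agr_refl (I : Inst N) (P : Finset (Fin N)) : Agr I I P := fun _ _ => ⟨rfl, fun _ => Iff.rfl⟩

lemma Agr.view {I J : Inst N} {P : Finset (Fin N)} (h : Agr I J P) {s : ℕ} {c : Fin N}
    (hb : ball I.G s c ⊆ P) : SameView s c I J :=
  ⟨fun x y hx => (h x (hb (mem_ball.2 hx.le))).2 y, fun x hx => (h x (hb (mem_ball.2 hx))).1⟩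

lemma SameView.ball_eq {I J : Inst N} {s t : ℕ} {c : Fin N} (h : SameView t c I J) (hs : s ≤ t) :
    ball I.G s c = ball J.G s c := by
  ext z
  rw [mem_ball, mem_ball]
  exact h.near_iff hs z

section Strat

variable (C : Set (Inst N)) (R : Inst N → Fin N → Finset (Fin N))

/-- `u` may be probed next and is known to be needed -/
def Need (I : Inst N) (v : Fin N) (P : Finset (Fin N)) (u : Fin N) : Prop :=
  (u = v ∨ ∃ y ∈ P, I.G.Adj y u) ∧ ∀ J ∈ C, Agr I J P → u ∈ R J v

open Classical in
/-- the next probe -/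
noncomputable def nxt (I : Inst N) (v : Fin N) (P : Finset (Fin N)) : Fin N :=
  if h : ∃ u, Need C R I v P u ∧ u ∉ P then Classical.choose h else v

/-- the set probed in the first `j` steps -/
noncomputable def seen (I : Inst N) (v : Fin N) : ℕ → Finset (Fin N)
  | 0 => ∅
  | j + 1 => insert (nxt C R I v (seen I v j)) (seen I v j)

variable {C R}

lemma nxt_congr {I J : Inst N} {P : Finset (Fin N)} (h : Agr I J P) (v : Fin N) :
    nxt C R I v P = nxt C R J v P := by
  have : Need C R I v P = Need C R J v P := by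
    funext u
    unfold Need
    refine propext (and_congr (or_congr_right (exists_congr fun y => and_congr_right fun hy =>
      (h y hy).2 u)) (forall₂_congr fun K _ => ?_))
    rw [h.trans_iff]
  unfold nxt
  rw [this]

lemma mem_seen {I : Inst N} {v u : Fin N} (j : ℕ) :
    u ∈ seen C R I v j ↔ ∃ i < j, nxt C R I v (seen C R I v i) = u := by
  induction j with
  | zero => simp [seen]
  | succ j ih =>
    rw [seen, mem_insert, ih]
    constructor
    · rintro (rfl | ⟨i, hi, h⟩)
      · exact ⟨j, by omega, rfl⟩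
      · exact ⟨i, by omega, h⟩
    · rintro ⟨i, hi, h⟩
      rcases (Nat.lt_succ_iff.1 hi).eq_or_lt with rfl | hi
      · exact Or.inl h.symm
      · exact Or.inr ⟨i, hi, h⟩

lemma seen_congr {I J : Inst N} {v : Fin N} (j : ℕ) (h : Agr I J (seen C R I v j)) :
    seen C R I v j = seen C R J v j := by
  induction j with
  | zero => rfl
  | succ j ih =>
    have h' : Agr I J (seen C R I v j) := fun u hu => h u (mem_insert_of_mem hu)
    rw [seen, seen, ← ih h', nxt_congr h']

lemma nxt_conn (I : Inst N) (v : Fin N) (P : Finset (Fin N)) :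
    nxt C R I v P = v ∨ ∃ y ∈ P, I.G.Adj y (nxt C R I v P) := by
  unfold nxt
  split_ifs with h
  · exact (Classical.choose_spec h).1.1
  · exact Or.inl rfl

lemma seen_near (I : Inst N) (v : Fin N) (j : ℕ) : ∀ u ∈ seen C R I v j, ∃ s < j, Near I.G s v u := by
  induction j with
  | zero => intro u hu; simp [seen] at hu
  | succ j ih =>
    intro u hu
    rcases mem_insert.1 hu with rfl | hu
    · rcases nxt_conn (C := C) (R := R) I v (seen C R I v j) with h | ⟨y, hy, h⟩
      · exact ⟨0, by omega, by rw [h]; exact near_refl _ _⟩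
      · obtain ⟨s, hs, h'⟩ := ih y hy
        exact ⟨s + 1, by omega, h'.trans (near_of_adj h)⟩
    · obtain ⟨s, hs, h'⟩ := ih u hu
      exact ⟨s, by omega, h'⟩

theorem vol_of_cert {t : ℕ} {f : Inst N → Fin N → ℕ} (hc : ∀ I ∈ C, ∀ v, (R I v).card ≤ t)
    (hcl : ∀ I ∈ C, ∀ v P, (∀ u, Need C R I v P u → u ∈ P) → R I v ⊆ P)
    (hf : ∀ I ∈ C, ∀ J ∈ C, ∀ v, Agr I J (R I v) → f I v = f J v) :
    ∃ B : Inst N → Fin N → ℕ, Volume t B ∧ DetLocal t B ∧ ∀ I ∈ C, ∀ v, B I v = f I v := by
  classical
  let pick : (Inst N → Prop) → Fin N → ℕ := fun Q v =>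
    if h : ∃ J, Q J then f (Classical.choose h) v else 0
  let B : Inst N → Fin N → ℕ := fun I v => pick (fun K => K ∈ C ∧ Agr I K (seen C R I v t)) v
  have hB : ∀ I J v, Agr I J (seen C R I v t) → B I v = B J v := by
    intro I J v h
    have : (fun K => K ∈ C ∧ Agr I K (seen C R I v t)) =
        fun K => K ∈ C ∧ Agr J K (seen C R J v t) := by
      funext K
      rw [← seen_congr t h, h.trans_iff]
    simp only [B]
    rw [this]
  refine ⟨B, ⟨fun I v j => nxt C R I v (seen C R I v j), fun I J v => ?_⟩, fun I J v hv => ?_,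
    fun I hI v => ?_⟩
  · have key : ∀ j, (∀ i < j, Agree I J (nxt C R I v (seen C R I v i))) →
        Agr I J (seen C R I v j) := fun j h u hu => by
      obtain ⟨i, hi, rfl⟩ := (mem_seen j).1 hu
      exact (h i hi).2
    refine ⟨fun j h => ?_, fun h => hB I J v (key t h), fun j => ?_⟩
    · simp only
      rw [← seen_congr j (key j h), nxt_congr (key j h)]
    · refine (nxt_conn I v _).imp_right fun ⟨y, hy, h⟩ => ?_
      obtain ⟨i, hi, rfl⟩ := (mem_seen j).1 hy
      exact ⟨i, hi, h⟩
  · refine hB I J v fun u hu => ?_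
    obtain ⟨s, hs, h⟩ := seen_near I v t u hu
    exact ⟨hv.2 u (h.mono hs.le), hv.adj_iff h hs⟩
  · have inv : ∀ j, R I v ⊆ seen C R I v j ∨
        (seen C R I v j ⊆ R I v ∧ (seen C R I v j).card = j) := by
      intro j
      induction j with
      | zero => exact Or.inr ⟨empty_subset _, rfl⟩
      | succ j ih =>
        rcases ih with h | ⟨h1, h2⟩
        · exact Or.inl (h.trans (subset_insert _ _))
        by_cases h : ∃ u, Need C R I v (seen C R I v j) u ∧ u ∉ seen C R I v j
        · have e : nxt C R I v (seen C R I v j) = Classical.choose h := dif_pos h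
          have hs := Classical.choose_spec h
          rw [← e] at hs
          exact Or.inr ⟨insert_subset (hs.1.2 I hI (agr_refl _ _)) h1,
            by rw [seen, card_insert_of_notMem hs.2, h2]⟩
        · exact Or.inl ((hcl I hI v _ fun u hu => by_contra fun hn => h ⟨u, hu, hn⟩).trans
            (subset_insert _ _))
    have hR : R I v ⊆ seen C R I v t := by
      rcases inv t with h | ⟨h1, h2⟩
      · exact h
      · exact (eq_of_subset_of_card_le h1 (by rw [h2]; exact hc I hI v)).ge
    have hex : ∃ J, J ∈ C ∧ Agr I J (seen C R I v t) := ⟨I, hI, agr_refl _ _⟩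
    have hs := Classical.choose_spec hex
    simp only [B, pick]
    rw [dif_pos hex]
    exact (hf I hI _ hs.1 v fun u hu => hs.2 u (hR hu)).symm

lemma ball_closed {I : Inst N} {v c : Fin N} {P : Finset (Fin N)}
    (hP : ∀ u, Need C R I v P u → u ∈ P) (hc : c ∈ P) {s : ℕ}
    (h : ∀ J ∈ C, Agr I J P → ball J.G s c ⊆ R J v) : ball I.G s c ⊆ P := by
  have key : ∀ r ≤ s, ball I.G r c ⊆ P := by
    intro r
    induction r with
    | zero => intro _ u hu; exact near_zero_iff.1 (mem_ball.1 hu) ▸ hc
    | succ r ih =>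
      intro hr u hu
      obtain ⟨y, h1, h2⟩ := near_succ (mem_ball.1 hu)
      have hy := ih (by omega) (mem_ball.2 h1)
      rcases near_one_iff.1 h2 with rfl | h2
      · exact hy
      · refine hP u ⟨Or.inr ⟨y, hy, h2⟩, fun J hJ ha => h J hJ ha (mem_ball.2 ?_)⟩
        exact (((ha.view (ih (by omega))).near_iff le_rfl y).1 h1).trans'
          (near_of_adj (((ha y hy).2 u).1 h2)) hr
  exact key s le_rfl

end Strat

section CV

open Classical in
/-- one step of colour reduction -/
noncomputable def cv (a b : ℕ) : ℕ :=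
  if h : ∃ j, a.testBit j ≠ b.testBit j then 2 * Nat.find h + (a.testBit (Nat.find h)).toNat
  else (a.testBit 0).toNat

lemma cv_ne {a b : ℕ} (h : a ≠ b) (c : ℕ) : cv a b ≠ cv b c := by
  have hex : ∃ j, a.testBit j ≠ b.testBit j := by
    by_contra hn
    exact h (Nat.eq_of_testBit_eq fun j => by_contra fun hj => hn ⟨j, hj⟩)
  have hs := Nat.find_spec hex
  unfold cv
  rw [dif_pos hex]
  generalize Nat.find hex = j at hs
  have key : ∀ i, 2 * j + (a.testBit j).toNat ≠ 2 * i + (b.testBit i).toNat := by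
    intro i e
    have h1 := Bool.toNat_le (a.testBit j)
    have h2 := Bool.toNat_le (b.testBit i)
    obtain rfl : j = i := by omega
    revert hs e
    cases a.testBit j <;> cases b.testBit j <;> simp
  split_ifs
  · exact key _
  · simpa using key 0

lemma cv_lt {a b m : ℕ} (hm : 0 < m) (ha : a < 2 ^ m) (hb : b < 2 ^ m) : cv a b < 2 * m := by
  unfold cv
  split_ifs with h
  · have hs := Nat.find_spec h
    have h1 := Bool.toNat_le (a.testBit (Nat.find h))
    have h2 : Nat.find h < m := by
      by_contra hn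
      have h3 : 2 ^ m ≤ 2 ^ Nat.find h := Nat.pow_le_pow_right (by norm_num) (by omega)
      rw [Nat.testBit_lt_two_pow (lt_of_lt_of_le ha h3),
        Nat.testBit_lt_two_pow (lt_of_lt_of_le hb h3)] at hs
      exact hs rfl
    omega
  · have h1 := Bool.toNat_le (a.testBit 0)
    omega

/-- iterated colour reduction along a pointer -/
noncomputable def cvs (g : Fin N → Fin N) : ℕ → Fin N → ℕ
  | 0 => fun z => z.val
  | s + 1 => fun z => cv (cvs g s z) (cvs g s (g z))

lemma cvs_ne (g : Fin N → Fin N) (s : ℕ) {z : Fin N} (h : z ≠ g z) : cvs g s z ≠ cvs g s (g z) := by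
  induction s with
  | zero => exact fun e => h (Fin.ext e)
  | succ s ih => exact cv_ne ih _

lemma cvs_lt (g : Fin N → Fin N) {k : ℕ} (hN : N ≤ tower k) (s : ℕ) :
    ∀ j, s + j = k → ∀ z, cvs g s z < 2 ^ (tower j + 3) := by
  induction s with
  | zero =>
    intro j hj z
    obtain rfl : j = k := by omega
    exact lt_of_lt_of_le (lt_of_lt_of_le z.isLt hN) (Nat.lt_two_pow_self.le.trans
      (Nat.pow_le_pow_right (by norm_num) (by omega)))
  | succ s ih =>
    intro j hj z
    refine lt_of_lt_of_le (cv_lt (by omega) (ih (j + 1) (by omega) z) (ih (j + 1) (by omega) _)) ?_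
    have : 1 ≤ 2 ^ tower j := Nat.one_le_two_pow
    rw [tower, pow_add]
    omega

lemma cvs_congr {g g' : Fin N → Fin N} (s : ℕ) : ∀ z, (∀ m ≤ s, g^[m] z = g'^[m] z) →
    cvs g s z = cvs g' s z := by
  induction s with
  | zero => intro z _; rfl
  | succ s ih =>
    intro z h
    have h1 : g z = g' z := h 1 (by omega)
    simp only [cvs]
    rw [ih z fun m hm => h m (by omega), ih (g z) fun m hm => by
      have := h (m + 1) (by omega)
      rwa [Function.iterate_succ_apply, Function.iterate_succ_apply, ← h1] at this, h1]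

/-- the `i`-th node of the ball of radius `T` -/
noncomputable def ptr (T : ℕ) (I : Inst N) (i : ℕ) (z : Fin N) : Fin N :=
  (ball I.G T z).toList.getD i z

lemma ptr_mem (T : ℕ) (I : Inst N) (i : ℕ) (z : Fin N) : ptr T I i z ∈ ball I.G T z := by
  unfold ptr
  by_cases h : i < (ball I.G T z).toList.length
  · rw [List.getD_eq_getElem _ _ h]
    exact mem_toList.1 (List.getElem_mem h)
  · rw [List.getD_eq_default _ _ (by omega)]
    exact mem_ball.2 (near_refl _ _)

lemma ptr_iter {T s i : ℕ} {I J : Inst N} {P : Finset (Fin N)} (h : Agr I J P) {z : Fin N}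
    (hb : ∀ m < s, ball I.G T ((ptr T I i)^[m] z) ⊆ P) :
    ∀ m ≤ s, (ptr T I i)^[m] z = (ptr T J i)^[m] z := by
  intro m
  induction m with
  | zero => intro _; rfl
  | succ m ih =>
    intro hm
    rw [Function.iterate_succ_apply', Function.iterate_succ_apply', ← ih (by omega)]
    have e := (h.view (hb m (by omega))).ball_eq le_rfl
    generalize (ptr T I i)^[m] z = c at e
    unfold ptr
    rw [e]

/-- the distance colouring -/
noncomputable def vcol (T d k : ℕ) (I : Inst N) (z : Fin N) : ℕ :=
  (finFunctionFinEquiv fun i : Fin d =>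
    (⟨cvs (ptr T I i) k z % 16, Nat.mod_lt _ (by norm_num)⟩ : Fin 16)).val

lemma vcol_lt (T d k : ℕ) (I : Inst N) (z : Fin N) : vcol T d k I z < 16 ^ d := Fin.isLt _

lemma vcol_ne {T d k : ℕ} (hN : N ≤ tower k) {I : Inst N} {y z : Fin N}
    (hd : (ball I.G T y).card ≤ d) (hyz : y ≠ z) (h : Near I.G T y z) :
    vcol T d k I y ≠ vcol T d k I z := by
  intro e
  obtain ⟨i, hi, hz⟩ := List.getElem_of_mem (mem_toList.2 (mem_ball.2 h))
  have hid : i < d := by rw [length_toList] at hi; omega
  have h1 : ptr T I i y = z := by unfold ptr; rw [List.getD_eq_getElem _ _ hi, hz]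
  have h2 := congrArg Fin.val (congrFun (finFunctionFinEquiv.injective (Fin.ext e)) ⟨i, hid⟩)
  have h3 : ∀ u, cvs (ptr T I i) k u < 16 := fun u => cvs_lt (ptr T I i) hN k 0 rfl u
  simp only [Nat.mod_eq_of_lt (h3 _)] at h2
  exact cvs_ne (ptr T I i) k (z := y) (by rwa [h1]) (by rwa [h1])

/-- the nodes that determine the view and the colours within distance `ρ` -/
noncomputable def vset (T d k ρ : ℕ) (I : Inst N) (v : Fin N) : Finset (Fin N) :=
  ball I.G ρ v ∪ (ball I.G ρ v ×ˢ range d ×ˢ range (k + 1)).biUnion fun q =>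
    ball I.G T ((ptr T I q.2.1)^[q.2.2] q.1)

lemma vset_sub {T d k ρ i m : ℕ} {I : Inst N} {v z : Fin N} (hz : z ∈ ball I.G ρ v) (hi : i < d)
    (hm : m ≤ k) : ball I.G T ((ptr T I i)^[m] z) ⊆ vset T d k ρ I v := fun _ hu =>
  mem_union_right _ (mem_biUnion.2 ⟨(z, i, m), mem_product.2 ⟨hz, mem_product.2
    ⟨mem_range.2 hi, mem_range.2 (by simpa using Nat.lt_succ_of_le hm)⟩⟩, hu⟩)

theorem vol_col {C : Set (Inst N)} {D T d k ρ : ℕ} (hD : ∀ I ∈ C, ∀ x, (ball I.G 1 x).card ≤ D)
    {f : Inst N → Fin N → ℕ} (hf : ∀ I ∈ C, ∀ J ∈ C, ∀ v, SameView ρ v I J →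
      (∀ z, Near I.G ρ v z → vcol T d k I z = vcol T d k J z) → f I v = f J v) :
    ∃ B : Inst N → Fin N → ℕ, Volume (D ^ ρ * (1 + d * D ^ T) * (k + 1)) B ∧
      DetLocal (D ^ ρ * (1 + d * D ^ T) * (k + 1)) B ∧ ∀ I ∈ C, ∀ v, B I v = f I v := by
  refine vol_of_cert (R := vset T d k ρ) (fun I hI v => ?_) (fun I hI v P hP => ?_)
    fun I hI J hJ v h => ?_
  · have a1 := ball_card (hD I hI) ρ v
    refine (card_union_le _ _).trans ((add_le_add a1 ((card_biUnion_le_card_mul _ _ (D ^ T)
      fun q _ => ball_card (hD I hI) T _).trans (Nat.mul_le_mul_right _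
        (?_ : _ ≤ D ^ ρ * (d * (k + 1)))))).trans ?_)
    · rw [card_product, card_product, card_range, card_range]
      exact Nat.mul_le_mul_right _ a1
    · nlinarith [Nat.zero_le (D ^ ρ * k)]
  · have h0 : v ∈ P := hP v ⟨Or.inl rfl, fun J _ _ => mem_union_left _ (mem_ball.2 (near_refl _ _))⟩
    have h1 : ball I.G ρ v ⊆ P := ball_closed hP h0 fun J _ _ => subset_union_left
    refine union_subset h1 (biUnion_subset.2 ?_)
    rintro ⟨z, i, m⟩ hq
    simp only [mem_product, mem_range] at hq
    obtain ⟨hz, hi, hm⟩ := hq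
    have key : ∀ s ≤ k + 1, ∀ m < s, ball I.G T ((ptr T I i)^[m] z) ⊆ P := by
      intro s
      induction s with
      | zero => intro _ m hm; omega
      | succ s ih =>
        intro hs m hm
        rcases (Nat.lt_succ_iff.1 hm).eq_or_lt with rfl | hm
        swap
        · exact ih (by omega) m hm
        refine ball_closed hP ?_ fun J _ ha => ?_
        · cases m with
          | zero => exact h1 hz
          | succ m =>
            rw [Function.iterate_succ_apply']
            exact ih (by omega) m (by omega) (ptr_mem _ _ _ _)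
        · rw [ptr_iter ha (ih (by omega)) m le_rfl]
          exact vset_sub ((ha.view h1).ball_eq le_rfl ▸ hz) hi (by omega)
    exact key _ le_rfl m hm
  · refine hf I hI J hJ v (h.view subset_union_left) fun z hz => ?_
    unfold vcol
    congr 2
    funext i
    congr 2
    exact cvs_congr k z (ptr_iter h fun m hm => vset_sub (mem_ball.2 hz) i.isLt hm.le)

end CV

end Pool.Agent.Lib.MP_559647_lc
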