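import Pool.Agent.Lib.MP_559647_lc.V55LLL
import Pool.Agent.Lib.MP_559647_lc.V55Prob
import Pool.Agent.Lib.MP_559647_lc.V55Vol
import Pool.Agent.Lib.MP_559647_lc.Derand

/-!
The speed-up for probe algorithms with explicit parameters: the new identifiers are the variables
of the local lemma on walks.
-/

namespace Pool.Agent.Lib.MP_559647_lc

open MeasureTheory Finset
open scoped ENNReal

lemma Deg.ball_le {N Δ : ℕ} {I : Inst N} (h : Deg Δ I) (v : Fin N) :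
    (ball I.G 1 v).card ≤ Δ + 1 := by
  have : (ball I.G 1 v : Set (Fin N)) ⊆ insert v (I.G.neighborSet v) := fun z hz =>
    (near_one_iff.1 (mem_ball.1 hz)).imp Eq.symm id
  rw [← Set.ncard_coe_finset]
  exact (Set.ncard_le_ncard this (Set.toFinite _)).trans ((Set.ncard_insert_le _ _).trans
    (Nat.succ_le_succ (h v)))

lemma Conn.mem {N : ℕ} {I : Inst N} {v y : Fin N} {S : Finset (Fin N)} (h : Conn I.G v S)
    (hv : v ∈ I.S) (hy : y ∈ S) : y ∈ I.S := by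
  rcases (h.2 y hy).cases_tail with rfl | ⟨c, -, hc⟩
  · exact hv
  · exact I.mem_of_adj _ _ hc.1.symm

/-- a probe meets a node of `S` outside the explored part, or the instance on `S` is bad -/
def Bad {N M n : ℕ} (hM : n ≤ M) (l0 t : ℕ) (pr : Inst M → Fin M → ℕ → Fin M) (E : Inst M → Prop)
    (I : Inst N) (S : Finset (Fin N)) (x : Fin N → Fin n) : Prop :=
  (∃ U ⊆ S, ∃ v ∈ U, ∃ z ∈ S, z ∉ U ∧ ∃ j ≤ t,
    pr (fake hM l0 I x U) (Fin.castLE hM (x v)) j = Fin.castLE hM (x z)) ∨ E (fake hM l0 I x S)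

lemma bad_congr {N M n : ℕ} {hM : n ≤ M} {l0 t : ℕ} {pr : Inst M → Fin M → ℕ → Fin M}
    {E : Inst M → Prop} {I I' : Inst N} {S : Finset (Fin N)} {x x' : Fin N → Fin n}
    (h1 : ∀ a ∈ S, ∀ b, I.G.Adj a b ↔ I'.G.Adj a b) (h2 : ∀ a ∈ S, I.inp a = I'.inp a)
    (h3 : ∀ a ∈ S, x a = x' a) : Bad hM l0 t pr E I S x ↔ Bad hM l0 t pr E I' S x' := by
  have e : ∀ U ⊆ S, fake hM l0 I x U = fake hM l0 I' x' U := fun U hU =>
    mkI_congr hM l0 (fun a ha => h1 a (hU ha)) (fun a ha => h2 a (hU ha)) fun a ha => h3 a (hU ha)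
  unfold Bad
  rw [e S subset_rfl]
  refine or_congr_left (exists_congr fun U => and_congr_right fun hU => exists_congr fun v =>
    and_congr_right fun hv => exists_congr fun z => and_congr_right fun hz => ?_)
  rw [e U hU, h3 v (hU hv), h3 z hz]

theorem avoid {N M n Δ e k l0 t Q : ℕ} (hM : n ≤ M) (hn : 0 < n) (hN : N ≤ tower k) {L : Finset ℕ}
    (pr : Inst M → Fin M → ℕ → Fin M) {E : Inst M → Prop}
    {ν : Measure (Fin n)} [IsProbabilityMeasure ν] (hν : ∀ c, ν {c} ≤ 1 / (n : ℝ≥0∞))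
    (hE : ∀ m ≤ 2 ^ (e + 1), ∀ s ∈ shapes m Δ L,
      (Measure.pi fun _ : Fin m => ν) {y | E (build hM l0 s y)} ≤ (Q : ℝ≥0∞) * (1 / (n : ℝ≥0∞)))
    (h3 : 2 * (4 * (Δ + 1) ^ 2) ^ ((e + 1) * 2 ^ (e + 2)) *
      (2 ^ 2 ^ (e + 1) * (2 ^ (e + 1) * (2 ^ (e + 1) * (t + 1))) + Q) ≤ n) :
    ∃ x : Inst N → Fin N → Fin n, (∀ I, Deg Δ I → ∀ I', Deg Δ I' → ∀ y,
        SameView (2 * 2 ^ (e + 1) + (2 ^ (e + 1) + 1) +
          16 ^ (Δ + 1) ^ 2 ^ (e + 1) * 2 ^ (e + 1)) y I I' →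
        (∀ z, Near I.G (2 * 2 ^ (e + 1) + (2 ^ (e + 1) + 1) +
          16 ^ (Δ + 1) ^ 2 ^ (e + 1) * 2 ^ (e + 1)) y z →
          vcol (2 ^ (e + 1)) ((Δ + 1) ^ 2 ^ (e + 1)) k I z =
            vcol (2 ^ (e + 1)) ((Δ + 1) ^ 2 ^ (e + 1)) k I' z) → x I y = x I' y) ∧
      ∀ I, Deg Δ I → (∀ y ∈ I.S, I.inp y ∈ L) → ∀ v ∈ I.S, ∀ S, Conn I.G v S →
        2 * S.card ≤ 2 ^ (e + 1) → ¬ Bad hM l0 t pr E I S (x I) := by
  classical
  set T := 2 ^ (e + 1) with hT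
  set β := (4 * (Δ + 1) ^ 2) ^ ((e + 1) * 2 ^ (e + 2)) with hβ
  let F : Inst N → List (Fin N) × Finset (Fin N) → (Fin N → Fin n) → ℝ≥0∞ := fun I σ =>
    Set.indicator {x | Bad hM l0 t pr E I σ.2 x} fun _ => ((2 * β : ℕ) : ℝ≥0∞)
  have hF : ∀ I σ a b, (∀ z ∈ σ.2, a z = b z) → F I σ a = F I σ b := by
    intro I σ a b h
    simp only [F, Set.indicator, Set.mem_ofPred_eq]
    exact if_congr (bad_congr (fun _ _ _ => Iff.rfl) (fun _ _ => rfl) h) rfl rfl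
  obtain ⟨x, x1, x2⟩ := conn_lll (μ := ν) (F := F) (r := T + 1) (q := ((2 * β : ℕ) : ℝ≥0∞))
    (C := {I : Inst N | Deg Δ I}) (col := vcol T ((Δ + 1) ^ T) k) (fun I _ => vcol_lt _ _ _ I)
    (fun I hI x y => vcol_ne hN (ball_card (Deg.ball_le hI) T x))
    (fun I hI => Deg.ball_le hI) hF (fun I σ => measurable_of_finite _) (ENNReal.natCast_ne_top _)
    (fun I σ a => Set.indicator_le_self _ _ a) fun I _ I' _ σ hσ y hy hv => by
      have hn : ∀ a ∈ σ.2, Near I.G T y a := fun a ha =>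
        (chain_near _ hσ.2.1 y hy a (List.mem_toFinset.1 (hσ.2.2 ha))).mono hσ.1.le
      funext a
      simp only [F, Set.indicator, Set.mem_ofPred_eq]
      exact if_congr (bad_congr (fun a ha => hv.adj_iff (hn a ha) (by omega))
        (fun a ha => hv.2 a ((hn a ha).mono (Nat.le_succ _))) fun _ _ => rfl) rfl rfl
  refine ⟨x, x1, fun I hI hL v hv S hS hc hb => ?_⟩
  obtain ⟨w, hw⟩ := cover hS.1 hS.2 hc
  have h4 := x2 I hI _ hw
  have h5 : F I (v :: w, S) (x I) = ((2 * β : ℕ) : ℝ≥0∞) := 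
    Set.indicator_of_mem (s := {x | Bad hM l0 t pr E I S x}) hb _
  have h6 : lmarginal (fun _ => ν) S (F I (v :: w, S)) (x I) ≤ 1 := by
    have a1 := lmarg_filter (μ := ν) (B := fun z => z ∈ S) (measurable_of_finite _)
      (hF I (v :: w, S)) univ
    rw [filter_mem_eq_inter, univ_inter] at a1
    rw [← a1, ← lintegral_eq_lmarginal_univ, lintegral_indicator_const
      (Set.toFinite _).measurableSet]
    have a2 := hit_prob hM (l0 := l0) (t := t) hν pr I (S := S) (T := T) (by omega)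
    have a3 := fail_prob hM hE hI (S := S) (by omega) fun y hy => hL y (hS.mem hv hy)
    refine (mul_le_mul_right ((measure_union_le _ _).trans (add_le_add a2 a3)) _).trans ?_
    rw [← add_mul, ← mul_assoc, ← Nat.cast_add, ← Nat.cast_mul, mul_one_div]
    exact ENNReal.div_le_of_le_mul (by rw [one_mul]; exact_mod_cast h3)
  rw [h5] at h4
  have h7 := h4.trans (mul_le_mul_left (add_le_add_right h6 1) _)
  have h8 : 1 + 2 * β ≤ 2 * β := by
    rw [← Nat.cast_pow, one_add_one_eq_two] at h7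
    exact_mod_cast h7
  omega

theorem core55 {Δ p l n t e : ℕ} (h1 : 2 * ((Δ + 1) ^ p * (2 + (Δ + 1) * t)) ≤ 2 ^ (e + 1))
    (h2 : 2 * (2 + (Δ + 1) * t + 2 * (t + p)) ≤ 2 ^ (e + 1))
    (h3 : 2 * (4 * (Δ + 1) ^ 2) ^ ((e + 1) * 2 ^ (e + 2)) *
      (2 ^ 2 ^ (e + 1) * (2 ^ (e + 1) * (2 ^ (e + 1) * (t + 1))) +
        (2 ^ (e + 1) + 1) * ((2 ^ (e + 1) + 1) ^ Δ * (l + 1)) ^ 2 ^ (e + 1)) ≤ n) :
    ∃ K : ℕ, ∀ (L : Finset ℕ), L.card ≤ l →
      ∀ (acc : (N : ℕ) → Inst N → (Fin N → ℕ) → Fin N → Prop), Checker p acc →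
      ∀ (M : ℕ), n ≤ M → ∀ (Ω : Type) [MeasurableSpace Ω] (μ : Measure Ω)
        [IsProbabilityMeasure μ] (A : Ω → Inst M → Fin M → ℕ), (∀ ω, Probes t (A ω)) →
        (∀ I v, Measurable fun ω => A ω I v) →
        (∀ I : Inst M, I.S.card = n → Deg Δ I → (∀ x ∈ I.S, I.inp x ∈ L) →
          μ {ω | ¬ ∀ v ∈ I.S, acc M I (A ω I) v} ≤ 1 / (n : ℝ≥0∞)) →
        ∀ k N : ℕ, N ≤ tower k → ∃ B : Inst N → Fin N → ℕ, Volume (K * (k + 1)) B ∧
          DetLocal (K * (k + 1)) B ∧ ∀ I : Inst N, Deg Δ I → (∀ x ∈ I.S, I.inp x ∈ L) → ∀ v ∈ I.S, acc N I (B I) v := by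
  classical
  set ρ := 2 * 2 ^ (e + 1) + (2 ^ (e + 1) + 1) + 16 ^ (Δ + 1) ^ 2 ^ (e + 1) * 2 ^ (e + 1) with hρ
  refine ⟨(Δ + 1) ^ (ρ + (t + 1)) * (1 + (Δ + 1) ^ 2 ^ (e + 1) * (Δ + 1) ^ 2 ^ (e + 1)),
    fun L hl acc hacc M hM Ω _ μ _ A hA hAm hs k N hN => ?_⟩
  rcases L.eq_empty_or_nonempty with rfl | ⟨l0, h0⟩
  · exact ⟨fun _ _ => 0, ⟨fun _ v _ => v, fun _ _ _ => ⟨fun _ _ => rfl, fun _ => rfl,
      fun _ => Or.inl rfl⟩⟩, fun _ _ _ _ => rfl, fun I _ hL v hv => absurd (hL v hv) (by simp)⟩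
  have hn : 0 < n := lt_of_lt_of_le (by positivity) h3
  have : Nonempty (Fin n) := ⟨⟨0, hn⟩⟩
  let ν : Measure (Fin n) := ProbabilityTheory.uniformOn Set.univ
  have hν : ∀ c, ν {c} ≤ 1 / (n : ℝ≥0∞) := fun c => by
    simp [ν, ProbabilityTheory.uniformOn_univ]
  let E : Ω → Inst M → Prop := fun ω J => (J.S.card = n ∧ Deg Δ J ∧ ∀ x ∈ J.S, J.inp x ∈ L) ∧
    ¬ ∀ v ∈ J.S, acc M J (A ω J) v
  obtain ⟨ω, hω⟩ := choose_seed hM (ν := ν) (μ := μ) (E := E) (ε := 1 / (n : ℝ≥0∞))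
    (fun J => (MeasurableSet.const _).inter (measurable_pi_lambda _ (hAm J)
      (Set.to_countable {o : Fin M → ℕ | ¬ ∀ v ∈ J.S, acc M J o v}).measurableSet))
    (fun J => by
      by_cases h : J.S.card = n ∧ Deg Δ J ∧ ∀ x ∈ J.S, J.inp x ∈ L
      · exact (measure_mono fun ω hω => hω.2).trans (hs J h.1 h.2.1 h.2.2)
      · exact (measure_mono (t := ∅) fun ω hω => h hω.1).trans (by simp)) l0 (2 ^ (e + 1)) Δ L
  obtain ⟨pr, hpr⟩ := hA ω
  obtain ⟨x, x1, x2⟩ := avoid (N := N) (t := t) hM hn hN (fun J i j => if j < t then pr J i j else i)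
    hν hω (le_trans (by gcongr) h3)
  obtain ⟨B, b0, b1, b2⟩ := vol_col (C := {I : Inst N | Deg Δ I}) (T := 2 ^ (e + 1))
    (d := (Δ + 1) ^ 2 ^ (e + 1)) (k := k) (ρ := ρ + (t + 1)) (fun I hI => Deg.ball_le hI)
    (f := fun I v => A ω (fake hM l0 I (x I) (ball I.G t v)) (Fin.castLE hM (x I v)))
    fun I hI J hJ v hv hc => by
      have e2 : ∀ a ∈ ball I.G t v, x I a = x J a := fun a ha =>
        x1 I hI J hJ a (hv.shift (mem_ball.1 ha) (by omega)) fun z hz =>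
          hc z ((mem_ball.1 ha).trans' hz (by omega))
      have e3 : fake hM l0 I (x I) (ball I.G t v) = fake hM l0 J (x J) (ball I.G t v) :=
        mkI_congr hM l0 (fun a ha => hv.adj_iff (mem_ball.1 ha) (by omega))
          (fun a ha => (hv.mono (by omega : t ≤ _)).2 a (mem_ball.1 ha)) e2
      rw [← hv.ball_eq (by omega : t ≤ _), e3, e2 v (mem_ball.2 (near_refl _ _))]
  refine ⟨B, b0, b1, fun I hI hL u hu => ?_⟩
  have hD := Deg.ball_le hI
  have hS : ∀ y, Near I.G (t + p) u y → y ∈ I.S := fun y hy => I.mem_of_reachable hy.reachable hu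
  have hx : Set.InjOn (x I) (ball I.G (t + p) u) := by
    intro y hy z hz hyz
    by_contra hne
    obtain ⟨P, a1, a2, a3⟩ := exists_path _ z ((mem_ball.1 hy).symm.trans (mem_ball.1 hz))
    refine x2 I hI hL y (hS y (mem_ball.1 hy)) P a1 (by omega) (Or.inl ⟨{y}, by simpa using a1.1, y,
      mem_singleton_self _, z, a2, fun h => hne (mem_singleton.1 h).symm, t, le_rfl, ?_⟩)
    simp [hyz]
  have hb : ∀ v, Near I.G p u v → ball I.G t v ⊆ ball I.G (t + p) u := fun v hv z hz =>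
    mem_ball.2 (hv.trans' (mem_ball.1 hz) (by omega))
  have hU : ∀ v, Near I.G p u v → ∃ U, Conn I.G v U ∧ U.card ≤ 1 + (Δ + 1) * t ∧ U ⊆ ball I.G t v ∧
      ∀ U', U ⊆ U' → U' ⊆ ball I.G (t + p) u →
        A ω (fake hM l0 I (x I) (ball I.G (t + p) u)) (Fin.castLE hM (x I v)) =
          A ω (fake hM l0 I (x I) U') (Fin.castLE hM (x I v)) := by
    intro v hv
    rcases explore hM l0 hx hD (fun J J' v => (hpr J J' v).1) (hb v hv) t le_rfl with
      ⟨U, a1, a2, z, hz, hzU, i, hi, h⟩ | ⟨U, a1, a2, a3, a4⟩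
    · obtain ⟨P, c1, c2, c3⟩ := exists_path _ z (hv.symm.trans (mem_ball.1 hz))
      have c4 := card_union_le U P
      refine absurd (Or.inl ⟨U, subset_union_left, v, a1.1, z, mem_union_right _ c2, hzU, i, hi.le,
        ?_⟩) (x2 I hI hL v (hS v (hv.mono (by omega))) _ (a1.union c1 a1.1) (by omega))
      simp only [if_pos hi, h]
    · exact ⟨U, a1, a2, a3, fun U' c1 c2 => (hpr _ _ _).2 (a4 U' c1 c2)⟩
  choose! U u1 u2 u3 u4 using hU
  set S := ball I.G p u ∪ (ball I.G p u).biUnion U with hSdef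
  have s1 : ∀ v, Near I.G p u v → U v ⊆ S := fun v hv z hz =>
    mem_union_right _ (mem_biUnion.2 ⟨v, mem_ball.2 hv, hz⟩)
  have s2 : S ⊆ ball I.G (t + p) u := union_subset
    (fun z hz => mem_ball.2 ((mem_ball.1 hz).mono (by omega))) (biUnion_subset.2 fun v hv =>
      (u3 v (mem_ball.1 hv)).trans (hb v (mem_ball.1 hv)))
  have s3 : Conn I.G u S := by
    refine ⟨mem_union_left _ (mem_ball.2 (near_refl _ _)), fun z hz => ?_⟩
    rcases mem_union.1 hz with hz | hz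
    · exact rtg_mono subset_union_left ((conn_ball p u).2 z hz)
    · obtain ⟨v, hv, hz⟩ := mem_biUnion.1 hz
      exact (rtg_mono subset_union_left ((conn_ball p u).2 v hv)).trans
        (rtg_mono (s1 v (mem_ball.1 hv)) ((u1 v (mem_ball.1 hv)).2 z hz))
  have s4 : 2 * S.card ≤ 2 ^ (e + 1) := by
    have a1 := ball_card hD p u
    have a2 := card_biUnion_le_card_mul (ball I.G p u) U _ fun v hv => u2 v (mem_ball.1 hv)
    have a3 : S.card ≤ _ := card_union_le (ball I.G p u) ((ball I.G p u).biUnion U)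
    have a4 := Nat.mul_le_mul_right (1 + (Δ + 1) * t) a1
    refine le_trans (Nat.mul_le_mul_left 2 ?_) h1
    rw [show 2 + (Δ + 1) * t = 1 + (1 + (Δ + 1) * t) by omega, mul_add, mul_one]
    omega
  have hxS : Set.InjOn (x I) S := hx.mono s2
  have s5 : ∀ i ∈ (fake hM l0 I (x I) S).S,
      acc M (fake hM l0 I (x I) S) (A ω (fake hM l0 I (x I) S)) i := by
    by_contra h
    exact x2 I hI hL u hu S s3 s4 (Or.inr ⟨⟨mkI_card hM l0 _ _ _ _, fake_deg hM l0 hxS hI,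
      fun i _ => fake_lab hM l0 (L := L) hxS h0 (fun y hy => hL y (s3.mem hu hy)) i⟩, h⟩)
  have s6 : ∀ z, Near I.G p u z → z ∈ S := fun z hz => mem_union_left _ (mem_ball.2 hz)
  refine (hacc N M I _ u _ _ _ ⟨fun y => Fin.castLE hM (x I y), rfl, fun y hy z hz h =>
    hxS (s6 y hy) (s6 z hz) (Fin.castLE_inj.1 h), fun y hy => ?_, fun y hy => ⟨?_, ?_⟩⟩).2
    (s5 _ (by simp [fake, mkI]))
  · obtain ⟨s, hs', hy⟩ := edist_lt_iff.1 hy
    have a1 := fake_adj hM l0 (I := I) hxS (s6 y (hy.mono hs'.le))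
    exact ⟨fun z hz => (a1 _).2 ⟨z, s6 z (hy.trans' (near_of_adj hz) hs'), hz, rfl⟩,
      fun k hk => ((a1 k).1 hk).imp fun z hz => hz.2⟩
  · exact fake_inp hM l0 hxS (s6 y hy)
  · rw [b2 I hI y, ← u4 y hy S (s1 y hy) s2,
      u4 y hy _ (u3 y hy) (hb y hy)]

end Pool.Agent.Lib.MP_559647_lc
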