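import Mathlib

/-!
Choice of the walk length.
-/

namespace Pool.Agent.Lib.MP_559647_lc

lemma params55 (Δ p l : ℕ) : ∃ C : ℕ, ∀ t : ℕ, ∃ e : ℕ,
    2 * ((Δ + 1) ^ p * (2 + (Δ + 1) * t)) ≤ 2 ^ (e + 1) ∧
    2 * (2 + (Δ + 1) * t + 2 * (t + p)) ≤ 2 ^ (e + 1) ∧
    2 * (4 * (Δ + 1) ^ 2) ^ ((e + 1) * 2 ^ (e + 2)) *
      (2 ^ 2 ^ (e + 1) * (2 ^ (e + 1) * (2 ^ (e + 1) * (t + 1))) +
        (2 ^ (e + 1) + 1) * ((2 ^ (e + 1) + 1) ^ Δ * (l + 1)) ^ 2 ^ (e + 1)) ≤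
      (t + 2) ^ (C * (t + 1)) := by
  set D := Δ + 1 with hD
  set c := 2 * (D ^ p * (2 + D)) + 2 * (4 + D + 2 * p) with hc
  set a := 2 * c + 2 with ha
  set E := 4 * D ^ 2 with hE
  refine ⟨(2 + 2 * a * E + (1 + 3 * a) + (a + (a * Δ + l))) * (2 * c), fun t => ?_⟩
  have hc0 : 0 < c := by positivity
  refine ⟨Nat.log 2 (c * (t + 1)), ?_⟩
  set e := Nat.log 2 (c * (t + 1)) with he
  have h1 : c * (t + 1) < 2 ^ (e + 1) := Nat.lt_pow_succ_log_self (by norm_num) _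
  have h2 : 2 ^ (e + 1) ≤ 2 * c * (t + 1) := by
    have := Nat.pow_log_le_self 2 (x := c * (t + 1)) (by positivity)
    rw [pow_succ', mul_assoc]
    exact Nat.mul_le_mul_left 2 this
  have hE' : E ^ ((e + 1) * 2 ^ (e + 2)) ≤ (2 ^ (e + 1)) ^ (E * (2 * 2 ^ (e + 1))) := by
    rw [← pow_succ', pow_mul, pow_mul]
    refine Nat.pow_le_pow_left ?_ _
    rw [← pow_mul, mul_comm, pow_mul]
    exact Nat.pow_le_pow_left Nat.lt_two_pow_self.le _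
  generalize 2 ^ (e + 1) = T at *
  refine ⟨le_trans ?_ h1.le, le_trans ?_ h1.le, ?_⟩
  · calc 2 * (D ^ p * (2 + D * t)) ≤ 2 * (D ^ p * ((2 + D) * (t + 1))) := by gcongr; nlinarith
      _ = 2 * (D ^ p * (2 + D)) * (t + 1) := by ring
      _ ≤ _ := Nat.mul_le_mul_right _ (Nat.le_add_right _ _)
  · calc 2 * (2 + D * t + 2 * (t + p)) ≤ 2 * (4 + D + 2 * p) * (t + 1) := by nlinarith
      _ ≤ _ := Nat.mul_le_mul_right _ (Nat.le_add_left _ _)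
  set z := t + 2 with hz
  have hz2 : 2 ≤ z := by omega
  have hT1 : 1 ≤ T := by nlinarith
  have pw : ∀ x y : ℕ, x ≤ y → z ^ x ≤ z ^ y := fun x y h => Nat.pow_le_pow_right (by omega) h
  have two : ∀ x : ℕ, 2 ^ x ≤ z ^ x := fun x => Nat.pow_le_pow_left hz2 x
  have hTz : T + 1 ≤ z ^ a := by
    have b1 : 2 * c + 1 ≤ z ^ (2 * c + 1) := Nat.lt_two_pow_self.le.trans (two _)
    calc T + 1 ≤ (2 * c + 1) * z := by nlinarith
      _ ≤ z ^ (2 * c + 1) * z := Nat.mul_le_mul_right _ b1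
      _ = z ^ a := by rw [ha]; ring
  have hT : T ≤ z ^ a := by omega
  have b1 : E ^ ((e + 1) * 2 ^ (e + 2)) ≤ z ^ (2 * a * E * T) := by
    refine hE'.trans ((Nat.pow_le_pow_left hT _).trans (le_of_eq ?_))
    rw [← pow_mul]
    congr 1
    ring
  have b2 : 2 ^ T * (T * (T * (t + 1))) ≤ z ^ ((1 + 3 * a) * T) := by
    have d1 : t + 1 ≤ z ^ a := le_trans (by omega) (Nat.le_self_pow (by omega) z)
    calc 2 ^ T * (T * (T * (t + 1))) ≤ z ^ T * (z ^ a * (z ^ a * z ^ a)) := by gcongr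
      _ = z ^ (T + 3 * a) := by ring
      _ ≤ _ := pw _ _ (by nlinarith)
  have b3 : (T + 1) * ((T + 1) ^ Δ * (l + 1)) ^ T ≤ z ^ ((a + (a * Δ + l)) * T) := by
    have d1 : l + 1 ≤ z ^ l := le_trans Nat.lt_two_pow_self (two l)
    calc (T + 1) * ((T + 1) ^ Δ * (l + 1)) ^ T ≤ z ^ a * ((z ^ a) ^ Δ * z ^ l) ^ T := by gcongr
      _ = z ^ (a + (a * Δ + l) * T) := by ring
      _ ≤ _ := pw _ _ (by nlinarith)
  have b4 : 2 ^ T * (T * (T * (t + 1))) + (T + 1) * ((T + 1) ^ Δ * (l + 1)) ^ T ≤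
      z * z ^ (((1 + 3 * a) + (a + (a * Δ + l))) * T) := by
    have d1 := b2.trans (pw _ (((1 + 3 * a) + (a + (a * Δ + l))) * T)
      (Nat.mul_le_mul_right _ (Nat.le_add_right _ _)))
    have d2 := b3.trans (pw _ (((1 + 3 * a) + (a + (a * Δ + l))) * T)
      (Nat.mul_le_mul_right _ (Nat.le_add_left _ _)))
    exact (add_le_add d1 d2).trans (by rw [← two_mul]; exact Nat.mul_le_mul_right _ hz2)
  calc _ ≤ z * z ^ (2 * a * E * T) * (z * z ^ (((1 + 3 * a) + (a + (a * Δ + l))) * T)) := by gcongr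
    _ = z ^ (2 + (2 * a * E + (1 + 3 * a) + (a + (a * Δ + l))) * T) := by ring
    _ ≤ z ^ ((2 + 2 * a * E + (1 + 3 * a) + (a + (a * Δ + l))) * T) := pw _ _ (by nlinarith)
    _ ≤ _ := pw _ _ (by rw [mul_assoc _ (2 * c)]; exact Nat.mul_le_mul_left _ h2)

end Pool.Agent.Lib.MP_559647_lc
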