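import Mathlib

/-!
A hierarchy of potentials. Objects own variables; every object below the top level sums, over its
parents, the relative growth of the parent's mass caused by the variables the object owns.
-/

namespace Pool.Agent.Lib.MP_559647_lc

open MeasureTheory Finset
open scoped ENNReal

variable {ι O Ω : Type} [DecidableEq ι] [MeasurableSpace Ω] (μ : Measure Ω)
  (own : O → Finset ι) (par : Bool → O → Finset O) (col : ι → ℕ) (F : O → (ι → Ω) → ℝ≥0∞)

/-- the mass of an object at depth `d` once the colours below `s` are fixed -/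
noncomputable def mass : ℕ → O → ℕ → (ι → Ω) → ℝ≥0∞
  | 0 => fun σ s a => 1 + lmarginal (fun _ => μ) ((own σ).filter fun y => s ≤ col y) (F σ) a
  | d + 1 => fun ω s a => 1 + ∑ b : Bool, ∑ σ ∈ par b ω,
      ∏ y ∈ (own ω).filter (fun y => col y < s),
        mass d σ (col y + 1) a / mass d σ (col y) a

/-- the variables owned by a top ancestor -/
def reach : ℕ → O → ι → Prop
  | 0 => fun σ z => z ∈ own σ
  | d + 1 => fun ω z => ∃ b, ∃ σ ∈ par b ω, reach d σ z

variable {μ own par col F}

lemma mass_zero (σ : O) (s : ℕ) (a : ι → Ω) : mass μ own par col F 0 σ s a =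
    1 + lmarginal (fun _ => μ) ((own σ).filter fun y => s ≤ col y) (F σ) a := rfl

lemma mass_succ (d : ℕ) (ω : O) (s : ℕ) (a : ι → Ω) : mass μ own par col F (d + 1) ω s a =
    1 + ∑ b : Bool, ∑ σ ∈ par b ω, ∏ y ∈ (own ω).filter (fun y => col y < s),
      mass μ own par col F d σ (col y + 1) a / mass μ own par col F d σ (col y) a := rfl

lemma one_le_mass (d : ℕ) (ω : O) (s : ℕ) (a : ι → Ω) : 1 ≤ mass μ own par col F d ω s a := by
  cases d <;> exact le_self_add

lemma mass_ne_zero (d : ℕ) (ω : O) (s : ℕ) (a : ι → Ω) : mass μ own par col F d ω s a ≠ 0 :=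
  (lt_of_lt_of_le one_pos (one_le_mass d ω s a)).ne'

lemma lmarg_le [IsProbabilityMeasure μ] {f : (ι → Ω) → ℝ≥0∞} {q : ℝ≥0∞} (h : ∀ a, f a ≤ q)
    (s : Finset ι) (a : ι → Ω) : lmarginal (fun _ => μ) s f a ≤ q := by
  unfold lmarginal
  refine (lintegral_mono fun y => h _).trans ?_
  simp

lemma le_lmarg [IsProbabilityMeasure μ] {f : (ι → Ω) → ℝ≥0∞} {q : ℝ≥0∞} (s : Finset ι)
    (a : ι → Ω) (h : ∀ b, (∀ x, x ∉ s → a x = b x) → q ≤ f b) :
    q ≤ lmarginal (fun _ => μ) s f a := by
  unfold lmarginal
  refine le_trans (by simp) (lintegral_mono (f := fun _ => q) fun y => h _ fun x hx => ?_)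
  simp [Function.updateFinset, hx]

lemma mass_ne_top [IsProbabilityMeasure μ] {q : ℝ≥0∞} (hq : q ≠ ⊤) (h : ∀ σ a, F σ a ≤ q) (d : ℕ) :
    ∀ (ω : O) (s : ℕ) (a : ι → Ω), mass μ own par col F d ω s a ≠ ⊤ := by
  induction d with
  | zero =>
    intro ω s a
    exact ENNReal.add_ne_top.2 ⟨ENNReal.one_ne_top, ne_top_of_le_ne_top hq (lmarg_le (h ω) _ a)⟩
  | succ d ih =>
    intro ω s a
    refine ENNReal.add_ne_top.2 ⟨ENNReal.one_ne_top, ?_⟩
    refine ENNReal.sum_ne_top.2 fun b _ => ENNReal.sum_ne_top.2 fun σ _ => ?_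
    exact ENNReal.prod_ne_top fun y _ => ENNReal.div_ne_top (ih _ _ _) (mass_ne_zero _ _ _ _)

lemma mass_meas [IsProbabilityMeasure μ] (hm : ∀ σ, Measurable (F σ)) (d : ℕ) :
    ∀ (ω : O) (s : ℕ), Measurable (mass μ own par col F d ω s) := by
  induction d with
  | zero => intro ω s; exact measurable_const.add ((hm ω).lmarginal _)
  | succ d ih =>
    intro ω s
    have e : mass μ own par col F (d + 1) ω s = fun a => 1 + ∑ b : Bool, ∑ σ ∈ par b ω,
        ∏ y ∈ (own ω).filter (fun y => col y < s),
          mass μ own par col F d σ (col y + 1) a / mass μ own par col F d σ (col y) a := rfl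
    rw [e]
    apply Measurable.const_add
    apply Finset.measurable_sum
    intro b _
    apply Finset.measurable_sum
    intro σ _
    apply Finset.measurable_prod
    intro y _
    exact (ih σ (col y + 1)).div (ih σ (col y))

lemma mass_dep (hF : ∀ σ a b, (∀ z ∈ own σ, a z = b z) → F σ a = F σ b) (d : ℕ) :
    ∀ (ω : O) (s : ℕ) (a b : ι → Ω), (∀ z, reach own par d ω z → col z < s → a z = b z) →
      mass μ own par col F d ω s a = mass μ own par col F d ω s b := by
  induction d with
  | zero =>
    intro ω s a b h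
    rw [mass_zero, mass_zero]
    congr 1
    unfold lmarginal
    refine lintegral_congr fun y => hF _ _ _ fun z hz => ?_
    simp only [Function.updateFinset]
    split_ifs with h1
    · rfl
    · refine h z hz ?_
      by_contra h2
      exact h1 (mem_filter.2 ⟨hz, by omega⟩)
  | succ d ih =>
    intro ω s a b h
    rw [mass_succ, mass_succ]
    congr 1
    refine sum_congr rfl fun c _ => sum_congr rfl fun σ hσ => prod_congr rfl fun y hy => ?_
    have hy' := (mem_filter.1 hy).2
    rw [ih σ _ a b fun z hz hc => h z ⟨c, σ, hσ, hz⟩ (by omega),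
      ih σ (col y) a b fun z hz hc => h z ⟨c, σ, hσ, hz⟩ (by omega)]

lemma mass_idle (d : ℕ) (ω : O) (s : ℕ) (a : ι → Ω) (h : ∀ y ∈ own ω, col y ≠ s) :
    mass μ own par col F d ω (s + 1) a = mass μ own par col F d ω s a := by
  cases d with
  | zero =>
    rw [mass_zero, mass_zero]
    congr 2
    exact filter_congr fun y hy => by have := h y hy; omega
  | succ d =>
    rw [mass_succ, mass_succ]
    have : (own ω).filter (fun y => col y < s + 1) = (own ω).filter (fun y => col y < s) :=
      filter_congr fun y hy => by have := h y hy; omega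
    rw [this]

lemma filter_step {S : Finset ι} (hinj : ∀ y ∈ S, ∀ z ∈ S, col y = col z → y = z) {y : ι}
    (hy : y ∈ S) : S.filter (fun z => col z < col y + 1) =
      insert y (S.filter fun z => col z < col y) := by
  ext z
  simp only [mem_filter, mem_insert]
  constructor
  · rintro ⟨h1, h2⟩
    rcases (Nat.lt_succ_iff.1 h2).eq_or_lt with h | h
    · exact Or.inl (hinj z h1 y hy h)
    · exact Or.inr ⟨h1, h⟩
  · rintro (rfl | ⟨h1, h2⟩)
    · exact ⟨hy, by omega⟩
    · exact ⟨h1, by omega⟩

section Valid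

variable [IsProbabilityMeasure μ] {ok : ℕ → O → Prop}
  (hinj : ∀ d σ, ok d σ → ∀ y ∈ own σ, ∀ z ∈ own σ, col y = col z → y = z)
  (hpar : ∀ d b ω σ, ok (d + 1) ω → σ ∈ par b ω → ok d σ ∧ own ω ⊆ own σ)
  (hF : ∀ σ a b, (∀ z ∈ own σ, a z = b z) → F σ a = F σ b) (hm : ∀ σ, Measurable (F σ))

omit [MeasurableSpace Ω] [IsProbabilityMeasure μ] [DecidableEq ι] in
include hinj hpar in
lemma reach_inj (d : ℕ) : ∀ ω, ok d ω → ∀ y ∈ own ω, ∀ z, reach own par d ω z →
    col y = col z → y = z := by
  induction d with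
  | zero => intro ω h y hy z hz; exact hinj 0 ω h y hy z hz
  | succ d ih =>
    rintro ω h y hy z ⟨b, σ, hσ, hz⟩
    exact ih σ (hpar d b ω σ h hσ).1 y ((hpar d b ω σ h hσ).2 hy) z hz

include hinj hpar hF hm in
lemma mass_super (d : ℕ) : ∀ ω, ok d ω → ∀ y ∈ own ω, ∀ a : ι → Ω,
    ∫⁻ x, mass μ own par col F d ω (col y + 1) (Function.update a y x) ∂μ ≤
      mass μ own par col F d ω (col y) a := by
  induction d with
  | zero =>
    intro ω h y hy a
    simp only [mass_zero]
    have e : (own ω).filter (fun z => col y ≤ col z) =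
        insert y ((own ω).filter fun z => col y + 1 ≤ col z) := by
      ext z
      simp only [mem_filter, mem_insert]
      constructor
      · rintro ⟨h1, h2⟩
        rcases h2.eq_or_lt with h3 | h3
        · exact Or.inl (hinj 0 ω h y hy z h1 h3).symm
        · exact Or.inr ⟨h1, h3⟩
      · rintro (rfl | ⟨h1, h2⟩)
        · exact ⟨hy, le_rfl⟩
        · exact ⟨h1, by omega⟩
    rw [lintegral_add_left measurable_const, e, lmarginal_insert _ (hm ω) (by simp)]
    simp
  | succ d ih =>
    intro ω h y hy a
    have hu : ∀ σ r x, r ≤ col y → mass μ own par col F d σ r (Function.update a y x) =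
        mass μ own par col F d σ r a := fun σ r x hr =>
      mass_dep hF d σ r _ _ fun z _ hz => Function.update_of_ne (by rintro rfl; omega) _ _
    have hmx : ∀ σ, Measurable fun x =>
        mass μ own par col F d σ (col y + 1) (Function.update a y x) := fun σ =>
      (mass_meas hm d σ _).comp (measurable_update a)
    have e : ∀ x, mass μ own par col F (d + 1) ω (col y + 1) (Function.update a y x) =
        1 + ∑ b : Bool, ∑ σ ∈ par b ω,
          mass μ own par col F d σ (col y + 1) (Function.update a y x) *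
            ((mass μ own par col F d σ (col y) a)⁻¹ *
              ∏ z ∈ (own ω).filter (fun z => col z < col y),
                mass μ own par col F d σ (col z + 1) a / mass μ own par col F d σ (col z) a) := by
      intro x
      rw [mass_succ, filter_step (hinj _ ω h) hy]
      congr 1
      refine sum_congr rfl fun b _ => sum_congr rfl fun σ _ => ?_
      rw [prod_insert (by simp), hu σ _ x le_rfl, div_eq_mul_inv, mul_assoc]
      congr 2
      refine prod_congr rfl fun z hz => ?_
      have := (mem_filter.1 hz).2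
      rw [hu σ _ x (by omega), hu σ _ x (by omega)]
    simp only [e]
    rw [lintegral_add_left measurable_const, mass_succ, lintegral_finsetSum _ fun b _ =>
      Finset.measurable_sum _ fun σ _ => (hmx σ).mul_const _]
    refine add_le_add (by simp) (sum_le_sum fun b _ => ?_)
    rw [lintegral_finsetSum _ fun σ _ => (hmx σ).mul_const _]
    refine sum_le_sum fun σ hσ => ?_
    rw [lintegral_mul_const _ (hmx σ), ← mul_assoc]
    have h1 := ih σ (hpar d b ω σ h hσ).1 y ((hpar d b ω σ h hσ).2 hy) a
    refine le_trans (mul_le_mul_left ?_ _) (one_mul _).le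
    exact (mul_le_mul_left h1 _).trans (ENNReal.mul_inv_le_one _)

omit [IsProbabilityMeasure μ] in
lemma mass_tele {d : ℕ} {σ : O} (hi : ∀ y ∈ own σ, ∀ z ∈ own σ, col y = col z → y = z)
    {a : ι → Ω} (hfin : ∀ s, mass μ own par col F d σ s a ≠ ⊤) (s : ℕ) :
    mass μ own par col F d σ s a = mass μ own par col F d σ 0 a *
      ∏ y ∈ (own σ).filter (fun y => col y < s),
        mass μ own par col F d σ (col y + 1) a / mass μ own par col F d σ (col y) a := by
  induction s with
  | zero => simp
  | succ s ih =>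
    by_cases h : ∃ y ∈ own σ, col y = s
    · obtain ⟨y, hy, rfl⟩ := h
      rw [filter_step hi hy, prod_insert (by simp), mul_left_comm, ← ih,
        ENNReal.div_mul_cancel (mass_ne_zero _ _ _ _) (hfin _)]
    · have h' : ∀ y ∈ own σ, col y ≠ s := fun y hy e => h ⟨y, hy, e⟩
      have : (own σ).filter (fun y => col y < s + 1) = (own σ).filter (fun y => col y < s) :=
        filter_congr fun y hy => by have := h' y hy; omega
      rw [mass_idle d σ s a h', this, ← ih]

omit [IsProbabilityMeasure μ] in
lemma mass_split {d : ℕ} {σ ω ω' : O} (hi : ∀ y ∈ own σ, ∀ z ∈ own σ, col y = col z → y = z)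
    {a : ι → Ω} (hfin : ∀ s, mass μ own par col F d σ s a ≠ ⊤) (h1 : σ ∈ par false ω)
    (h2 : σ ∈ par true ω') (hu : own σ = own ω ∪ own ω') (hd : Disjoint (own ω) (own ω')) (s : ℕ) :
    mass μ own par col F d σ s a ≤ mass μ own par col F d σ 0 a *
      (mass μ own par col F (d + 1) ω s a * mass μ own par col F (d + 1) ω' s a) := by
  have key : ∀ b τ, σ ∈ par b τ → ∏ y ∈ (own τ).filter (fun y => col y < s),
      mass μ own par col F d σ (col y + 1) a / mass μ own par col F d σ (col y) a ≤
      mass μ own par col F (d + 1) τ s a := by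
    intro b τ hτ
    rw [mass_succ]
    refine le_trans ?_ le_add_self
    refine le_trans ?_ (single_le_sum (f := fun b => ∑ σ ∈ par b τ,
      ∏ y ∈ (own τ).filter (fun y => col y < s),
        mass μ own par col F d σ (col y + 1) a / mass μ own par col F d σ (col y) a)
      (fun _ _ => zero_le) (mem_univ b))
    exact single_le_sum (f := fun σ => ∏ y ∈ (own τ).filter (fun y => col y < s),
      mass μ own par col F d σ (col y + 1) a / mass μ own par col F d σ (col y) a)
      (fun _ _ => zero_le) hτ
  rw [mass_tele hi hfin s, hu, filter_union, prod_union (disjoint_filter_filter hd)]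
  exact mul_le_mul_right (mul_le_mul' (key _ _ h1) (key _ _ h2)) _

omit [IsProbabilityMeasure μ] in
lemma mass_init (d : ℕ) (ω : O) (a : ι → Ω) : mass μ own par col F (d + 1) ω 0 a =
    1 + ∑ b : Bool, ((par b ω).card : ℝ≥0∞) := by
  rw [mass_succ]
  simp

omit [IsProbabilityMeasure μ] in
lemma mass_leaf {d : ℕ} {ω : O} {a : ι → Ω}
    (h : ∀ y ∈ own ω, mass μ own par col F d ω (col y + 1) a ≤ mass μ own par col F d ω (col y) a)
    (s : ℕ) : mass μ own par col F d ω s a ≤ mass μ own par col F d ω 0 a := by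
  induction s with
  | zero => exact le_rfl
  | succ s ih =>
    by_cases h1 : ∃ y ∈ own ω, col y = s
    · obtain ⟨y, hy, rfl⟩ := h1
      exact (h y hy).trans ih
    · rw [mass_idle d ω s a fun y hy e => h1 ⟨y, hy, e⟩]
      exact ih

end Valid

lemma mass_congr {par' : Bool → O → Finset O} {col' : ι → ℕ} {F' : O → (ι → Ω) → ℝ≥0∞}
    {nr : ℕ → O → Prop} (h0 : ∀ σ, nr 0 σ → F σ = F' σ)
    (h1 : ∀ d ω b, nr (d + 1) ω → par b ω = par' b ω ∧ ∀ σ ∈ par b ω, nr d σ)
    (h2 : ∀ d ω, nr d ω → ∀ z ∈ own ω, col z = col' z) (d : ℕ) :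
    ∀ ω, nr d ω → mass μ own par col F d ω = mass μ own par' col' F' d ω := by
  induction d with
  | zero =>
    intro ω h
    funext s a
    rw [mass_zero, mass_zero, h0 ω h]
    congr 2
    exact filter_congr fun y hy => by rw [h2 0 ω h y hy]
  | succ d ih =>
    intro ω h
    funext s a
    rw [mass_succ, mass_succ]
    congr 1
    refine sum_congr rfl fun b _ => ?_
    rw [← (h1 d ω b h).1]
    refine sum_congr rfl fun σ hσ => ?_
    rw [← ih σ ((h1 d ω b h).2 σ hσ)]
    refine prod_congr (filter_congr fun y hy => by rw [h2 _ ω h y hy]) fun y hy => ?_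
    rw [h2 _ ω h y (mem_filter.1 hy).1]

end Pool.Agent.Lib.MP_559647_lc
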