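import Pool.Agent.Lib.MP_559647_lc.W55Step
import Pool.Agent.Lib.MP_559647_lc.V55Pot
import Pool.Agent.Lib.MP_559647_lc.V55Vol

/-!
A local lemma for events on small subtrees of a forest: the variables are fixed colour by colour,
and the chain potential of every root and the budget of every node never grow.
-/

namespace Pool.Agent.Lib.MP_559647_lc

open MeasureTheory Finset
open scoped ENNReal

variable {N : ℕ} {Ω : Type} [MeasurableSpace Ω]

lemma exists_le_sum {μ : Measure Ω} [IsProbabilityMeasure μ] {ι : Type} (X : Finset ι) {l : ι → ℝ}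
    (hl : ∀ i ∈ X, 0 ≤ l i) {f : ι → Ω → ℝ≥0∞} {m : ι → ℝ≥0∞} (hf : ∀ i, Measurable (f i))
    (h1 : ∀ i x, f i x ≠ ⊤) (h2 : ∀ i, m i ≠ ⊤) (h : ∀ i ∈ X, ∫⁻ x, f i x ∂μ ≤ m i) :
    ∃ x, ∑ i ∈ X, l i * (f i x).toReal ≤ ∑ i ∈ X, l i * (m i).toReal := by
  obtain ⟨x, hx⟩ := exists_le_lintegral (μ := μ) (f := fun x => ∑ i ∈ X, ENNReal.ofReal (l i) * f i x)
    (Finset.measurable_sum _ fun i _ => (hf i).const_mul _).aemeasurable
  rw [lintegral_finsetSum _ fun i _ => (hf i).const_mul _] at hx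
  have h3 := hx.trans (sum_le_sum (g := fun i => ENNReal.ofReal (l i) * m i) fun i hi => by
    rw [lintegral_const_mul _ (hf i)]
    exact mul_le_mul_right (h i hi) _)
  have h4 := ENNReal.toReal_mono (ENNReal.sum_ne_top.2 fun i _ =>
    ENNReal.mul_ne_top ENNReal.ofReal_ne_top (h2 i)) h3
  rw [ENNReal.toReal_sum fun i _ => ENNReal.mul_ne_top ENNReal.ofReal_ne_top (h2 i),
    ENNReal.toReal_sum fun i _ => ENNReal.mul_ne_top ENNReal.ofReal_ne_top (h1 i x)] at h4
  refine ⟨x, (sum_congr rfl fun i hi => ?_).trans_le (h4.trans_eq (sum_congr rfl fun i hi => ?_))⟩ <;>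
    rw [ENNReal.toReal_mul, ENNReal.toReal_ofReal (hl i hi)]

lemma prod_le_pow {T : ℕ} {z : ℕ → ℝ} {B : ℝ} (hB : 0 < B) (hz : ∀ s, 0 ≤ z s)
    (h : ∑ s ∈ range T, z s ≤ T * B) : ∏ s ∈ range T, z s ≤ B ^ T := by
  have h1 : ∏ s ∈ range T, z s ≤ ∏ s ∈ range T, (B * Real.exp (z s / B - 1)) :=
    prod_le_prod (fun s _ => hz s) fun s _ => by
      have := Real.add_one_le_exp (z s / B - 1)
      rw [sub_add_cancel, div_le_iff₀ hB] at this
      linarith
  rw [prod_mul_distrib, prod_const, card_range, ← Real.exp_sum] at h1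
  refine h1.trans (mul_le_of_le_one_right (pow_pos hB T).le (Real.exp_le_one_iff.2 ?_))
  rw [sum_sub_distrib, ← sum_div, sum_const, card_range, nsmul_eq_mul, mul_one, sub_nonpos,
    div_le_iff₀ hB]
  exact h

variable (μ : Measure Ω) (T : ℕ) (col : Inst N → Fin N → ℕ)
  (F : Inst N → Finset (Fin N) → (Fin N → Ω) → ℝ≥0∞)

/-- the mass of a set once the colours below `s` are fixed -/
noncomputable def mA (I : Inst N) (s : ℕ) (a : Fin N → Ω) (S : Finset (Fin N)) : ℝ≥0∞ :=
  mass μ id (fun _ _ => ∅) (col I) (F I) 0 S s a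

/-- the potential of a root in a state -/
noncomputable def Pot (I : Inst N) (s : ℕ) (σ : Fin N → Ω × (ℕ → Fin N → ℝ)) : ℕ → Fin N → ℝ :=
  Phi I.G T (fun c v u => (σ v).2 c u) fun S => (mA μ col F I s (fun v => (σ v).1) S).toReal

/-- the total budget of a node -/
noncomputable def bud (G : SimpleGraph (Fin N)) (v : Fin N) (h : ℕ → Fin N → ℝ) : ℝ :=
  ∑ c ∈ range (3 * T), ∑ u ∈ ball G 1 v, h c u

open Classical in
/-- the state after the node `y` has acted -/
noncomputable def upd (G : SimpleGraph (Fin N)) (y : Fin N) (σ τ : Fin N → Ω × (ℕ → Fin N → ℝ)) :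
    Fin N → Ω × (ℕ → Fin N → ℝ) := fun v =>
  (if v = y then (τ v).1 else (σ v).1, if Near G (3 * T) y v then (τ v).2 else (σ v).2)

/-- the action `τ` of `y` increases no potential and no budget -/
def Good (I : Inst N) (s : ℕ) (σ : Fin N → Ω × (ℕ → Fin N → ℝ)) (y : Fin N)
    (τ : Fin N → Ω × (ℕ → Fin N → ℝ)) : Prop :=
  (∀ v c u, 0 < (τ v).2 c u) ∧ (∀ s' < T, ∀ r, Near I.G (5 * T) y r →
    Pot μ T col F I (s + 1) (upd T I.G y σ τ) s' r ≤ Pot μ T col F I s σ s' r) ∧
    ∀ v, Near I.G (3 * T) y v → bud T I.G v (τ v).2 ≤ bud T I.G v (σ v).2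

open Classical in
/-- the state after the colours below `s` have acted -/
noncomputable def st (o : Ω) (I : Inst N) : ℕ → Fin N → Ω × (ℕ → Fin N → ℝ)
  | 0 => fun _ => (o, fun _ _ => 1)
  | s + 1 => fun v =>
    (if col I v = s then (@epsilon _ ⟨st o I s⟩ (Good μ T col F I s (st o I s) v) v).1
      else (st o I s v).1,
    if ∃ y, Near I.G (3 * T) v y ∧ col I y = s then
      (@epsilon _ ⟨st o I s⟩ (Good μ T col F I s (st o I s)
        (@epsilon _ ⟨v⟩ fun y => Near I.G (3 * T) v y ∧ col I y = s)) v).2 else (st o I s v).2)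

variable {μ T col F} (hF : ∀ I S a b, (∀ z ∈ S, a z = b z) → F I S a = F I S b)
  (hl : ∀ I I' y, ∀ S ∈ sets I.G T y, SameView (2 * T + 1) y I I' → F I S = F I' S)

include hF hl in
lemma pot_congr {I I' : Inst N} {r : Fin N} (hv : SameView (2 * T + 1) r I I')
    {σ σ' : Fin N → Ω × (ℕ → Fin N → ℝ)} {s s1 : ℕ}
    (hc : ∀ z, Near I.G (2 * T) r z → (s ≤ col I z ↔ s1 ≤ col I' z) ∧ σ z = σ' z) (s' : ℕ) :
    Pot μ T col F I s σ s' r = Pot μ T col F I' s1 σ' s' r := by
  unfold Pot Phi
  rw [← sets_view hv (Nat.lt_succ_self _)]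
  refine sum_congr rfl fun S hS => ?_
  have hn : ∀ z ∈ S, Near I.G (2 * T) r z := fun z hz => (mem_sets.1 hS).1.near (mem_sets.1 hS).2 hz
  unfold nw
  beta_reduce
  congr 1
  · unfold mA
    rw [mass_zero, mass_zero, ← hl I I' r S hS hv,
      filter_congr (s := id S) fun z hz => (hc z (hn z hz)).1]
    congr 2
    unfold lmarginal
    refine lintegral_congr fun y => hF _ _ _ _ fun z hz => ?_
    simp only [Function.updateFinset, (hc z (hn z hz)).2]
  · refine prod_congr rfl fun z hz => ?_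
    rw [(hc z (hn z hz)).2, hv.dist_eq ((hn z hz).mono (Nat.le_succ _)),
      par_view hv (hn z hz) (Nat.lt_succ_self _)]

include hF hl in
lemma good_view {I I' : Inst N} {y : Fin N} (hv : SameView (7 * T + 1) y I I')
    {σ σ' : Fin N → Ω × (ℕ → Fin N → ℝ)}
    (hc : ∀ z, Near I.G (7 * T) y z → col I z = col I' z ∧ σ z = σ' z) (s : ℕ) :
    Good μ T col F I s σ y = Good μ T col F I' s σ' y := by
  classical
  funext τ
  refine propext (and_congr_right fun _ => and_congr (forall₂_congr fun s' _ =>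
    forall_congr' fun r => ?_) (forall_congr' fun v => ?_))
  · rw [← hv.near_iff (by omega)]
    refine imp_congr_right fun hr => ?_
    have hc' := fun z (hz : Near I.G (2 * T) r z) => hc z (hr.trans' hz (by omega))
    rw [pot_congr hF hl (hv.shift hr (by omega)) (σ' := σ') (s1 := s)
      fun z hz => ⟨by rw [(hc' z hz).1], (hc' z hz).2⟩,
      pot_congr hF hl (hv.shift hr (by omega)) (σ' := upd T I'.G y σ' τ) (s1 := s + 1)
        fun z hz => ⟨by rw [(hc' z hz).1], by
          simp only [upd, (hc' z hz).2]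
          exact Prod.ext rfl (if_congr (hv.near_iff (by omega) z) rfl rfl)⟩]
  · rw [← hv.near_iff (by omega)]
    refine imp_congr_right fun hr => ?_
    unfold bud
    rw [(hc v (hr.mono (by omega))).2, (hv.shift hr (t := 1) (by omega)).ball_eq le_rfl]

include hF hl in
lemma st_loc (o : Ω) {I I' : Inst N} (s : ℕ) : ∀ v, SameView (1 + s * (10 * T)) v I I' →
    (∀ z, Near I.G (1 + s * (10 * T)) v z → col I z = col I' z) →
    st μ T col F o I s v = st μ T col F o I' s v := by
  induction s with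
  | zero => intro v _ _; rfl
  | succ s ih =>
    intro v hv hc
    rw [add_one_mul, ← add_assoc] at hv hc
    have h1 : ∀ z, Near I.G (10 * T) v z → st μ T col F o I s z = st μ T col F o I' s z :=
      fun z hz => ih z (hv.shift hz (by omega)) fun u hu => hc u (hz.trans' hu (by omega))
    have h2 : ∀ y, Near I.G (3 * T) v y → Good μ T col F I s (st μ T col F o I s) y =
        Good μ T col F I' s (st μ T col F o I' s) y := fun y hy =>
      good_view hF hl (hv.shift hy (by omega)) (fun z hz => ⟨hc z (hy.trans' hz (by omega)),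
        h1 z (hy.trans' hz (by omega))⟩) s
    have h3 : (fun y => Near I'.G (3 * T) v y ∧ col I' y = s) =
        fun y => Near I.G (3 * T) v y ∧ col I y = s := by
      funext y
      rw [← propext (hv.near_iff (by omega) y)]
      exact propext (and_congr_right fun hy => by rw [hc y (hy.mono (by omega))])
    simp only [st]
    rw [← hc v (near_refl _ _), ← h1 v (near_refl _ _), ← h2 v (near_refl _ _)]
    congr 1
    have h4 := iff_of_eq (congrArg Exists h3)
    by_cases h : ∃ y, Near I.G (3 * T) v y ∧ col I y = s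
    · rw [if_pos h, if_pos (h4.2 h), h3, h2 _ (Classical.epsilon_spec h).1]
    · rw [if_neg h, if_neg (mt h4.1 h)]

section Bound

variable [IsProbabilityMeasure μ] {I : Inst N} {D : ℕ} {q : ℝ≥0∞} (hG : I.G.IsAcyclic)
  (hp : ∀ x y, x ≠ y → Near I.G (10 * T) x y → col I x ≠ col I y)
  (hm : ∀ S, Measurable (F I S)) (hq : q ≠ ⊤) (hb : ∀ S a, F I S a ≤ q)

include hq hb in
lemma mA_pos (s : ℕ) (a : Fin N → Ω) (S : Finset (Fin N)) : 0 < (mA μ col F I s a S).toReal :=
  ENNReal.toReal_pos (mass_ne_zero _ _ _ _) (mass_ne_top hq hb _ _ _ _)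

include hF hG hp hm hq hb in
lemma good_exists {σ : Fin N → Ω × (ℕ → Fin N → ℝ)} (hσ : ∀ v c u, 0 < (σ v).2 c u) (y : Fin N) :
    ∃ τ, Good μ T col F I (col I y) σ y τ := by
  classical
  obtain ⟨lam, h1, h2⟩ := step_main (T := T) hG (g := fun c v u => (σ v).2 c u)
    (fun c v u => hσ v c u) (mA_pos (μ := μ) (col := col) hq hb (col I y) fun v => (σ v).1) y
  obtain ⟨x, hx⟩ := exists_le_sum (μ := μ) ((range (3 * T)).sigma fun c => atc I.G T c y)
    (l := fun i => lam i.1 i.2 / (mA μ col F I (col I y) (fun v => (σ v).1) i.2.2.1).toReal)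
    (fun i hi => div_nonneg (h1 _ _ (mem_sigma.1 hi).2) ENNReal.toReal_nonneg)
    (f := fun i x => mA μ col F I (col I y + 1) (Function.update (fun v => (σ v).1) y x) i.2.2.1)
    (m := fun i => mA μ col F I (col I y) (fun v => (σ v).1) i.2.2.1)
    (fun i => (mass_meas hm 0 _ _).comp (measurable_update _))
    (fun _ _ => mass_ne_top hq hb _ _ _ _) (fun _ => mass_ne_top hq hb _ _ _ _) fun i hi => by
      obtain ⟨-, a2, a3, -⟩ := mem_atc.1 (mem_sigma.1 hi).2
      refine mass_super (ok := fun _ S => ∀ y ∈ S, ∀ z ∈ S, col I y = col I z → y = z)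
        (fun _ _ h => h) (fun _ _ _ _ _ h => absurd h (notMem_empty _)) (hF I) hm 0 _
        (fun a ha b hb e => by_contra fun hn => hp a b hn
          ((a2.1.near a2.2 ha).symm.trans' (a2.1.near a2.2 hb) (by omega)) e) y a3 _
  obtain ⟨g', a1, a2, a3, a4, a5⟩ := h2 (fun S => if y ∈ S then
    (mA μ col F I (col I y + 1) (Function.update (fun v => (σ v).1) y x) S).toReal else
      (mA μ col F I (col I y) (fun v => (σ v).1) S).toReal)
    (fun S => by split_ifs <;> exact mA_pos hq hb _ _ _) fun S hS => if_neg hS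
  refine ⟨fun v => (x, fun c u => g' c v u), fun v c u => a1 c v u, fun s' hs r hr => ?_,
    fun v _ => ?_⟩
  · refine le_of_eq (Eq.trans ?_ (a3 s' hs r))
    have e1 : (fun c v u => (upd T I.G y σ (fun v => (x, fun c u => g' c v u)) v).2 c u) = g' := by
      funext c v u
      simp only [upd]
      split_ifs with h
      · rfl
      · exact (a2 c v u h).symm
    have e2 : (fun v => (upd T I.G y σ (fun v => (x, fun c u => g' c v u)) v).1) =
        Function.update (fun v => (σ v).1) y x := by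
      funext v
      simp only [upd, Function.update_apply]
    unfold Pot Phi
    rw [e1, e2]
    refine sum_congr rfl fun S hS => ?_
    unfold nw
    beta_reduce
    congr 1
    split_ifs with h
    · rfl
    · unfold mA
      rw [mass_idle (own := id) 0 S _ _ fun z hz e => hp y z (fun e' => h (e' ▸ hz))
        (hr.trans' ((mem_sets.1 hS).1.near (mem_sets.1 hS).2 hz) (by omega)) e.symm,
        mass_dep (own := id) (hF I) 0 S _ _ _ fun z hz _ =>
          Function.update_of_ne (fun e' : z = y => h (e' ▸ hz)) _ _]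
  · show ∑ c ∈ range (3 * T), Psi I.G g' c v ≤
      ∑ c ∈ range (3 * T), Psi I.G (fun c v u => (σ v).2 c u) c v
    by_cases h : v = y
    swap
    · exact (sum_congr rfl fun c _ => a4 c v h).le
    rw [h, sum_congr rfl fun c _ => a5 c, sum_add_distrib, add_le_iff_nonpos_right, sum_sigma']
    rw [← sub_nonpos, ← sum_sub_distrib] at hx
    refine (sum_congr rfl fun i hi => ?_).trans_le hx
    have := mA_pos (μ := μ) (col := col) hq hb (col I y) (fun v => (σ v).1) i.2.2.1
    simp only [if_pos (mem_atc.1 (mem_sigma.1 hi).2).2.2.1]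
    field_simp

include hF hl hG hp hm hq hb in
lemma st_inv (o : Ω) (s : ℕ) : (∀ v c u, 0 < (st μ T col F o I s v).2 c u) ∧
    (∀ s' < T, ∀ r, Pot μ T col F I s (st μ T col F o I s) s' r ≤
      Pot μ T col F I 0 (st μ T col F o I 0) s' r) ∧
    ∀ v, bud T I.G v (st μ T col F o I s v).2 ≤ bud T I.G v fun _ _ => 1 := by
  classical
  induction s with
  | zero => exact ⟨fun _ _ _ => one_pos, fun _ _ _ => le_rfl, fun _ => le_rfl⟩
  | succ s ih =>
    obtain ⟨i1, i2, i3⟩ := ih
    have hg : ∀ y, col I y = s → Good μ T col F I s (st μ T col F o I s) y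
        (@Classical.epsilon _ ⟨st μ T col F o I s⟩ (Good μ T col F I s (st μ T col F o I s) y)) := by
      rintro y rfl
      exact Classical.epsilon_spec (good_exists hF hG hp hm hq hb i1 y)
    have hu : ∀ x y, col I x = s → col I y = s → Near I.G (10 * T) x y → x = y :=
      fun x y h1 h2 h => by_contra fun hn => hp x y hn h (h1.trans h2.symm)
    refine ⟨fun v c u => ?_, fun s' hs r => le_trans ?_ (i2 s' hs r), fun v => le_trans ?_ (i3 v)⟩
    · simp only [st]
      split_ifs with h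
      · exact (hg _ (Classical.epsilon_spec h).2).1 _ _ _
      · exact i1 _ _ _
    · by_cases h : ∃ y, Near I.G (5 * T) y r ∧ col I y = s
      · obtain ⟨y, h1, h2⟩ := h
        refine le_trans (le_of_eq (pot_congr hF hl (sameView_refl _ _ _) (fun z hz => ⟨Iff.rfl, ?_⟩)
          s')) ((hg y h2).2.1 s' hs r h1)
        have h3 : ∀ y', Near I.G (3 * T) z y' ∧ col I y' = s → y' = y := fun y' h' =>
          (hu y y' h2 h'.2 ((h1.trans hz).trans' h'.1 (by omega))).symm
        simp only [st, upd]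
        congr 1
        · by_cases h4 : z = y
          · rw [if_pos h4, if_pos (h4 ▸ h2), h4]
          · rw [if_neg h4, if_neg fun e => h4 (h3 z ⟨near_refl _ _, e⟩)]
        · by_cases h4 : Near I.G (3 * T) y z
          · have h5 : ∃ y, Near I.G (3 * T) z y ∧ col I y = s := ⟨y, h4.symm, h2⟩
            rw [if_pos h4, if_pos h5, h3 _ (Classical.epsilon_spec h5)]
          · rw [if_neg h4, if_neg fun ⟨y', h'⟩ => h4 (h3 y' h' ▸ h'.1.symm)]
      · refine le_of_eq (pot_congr hF hl (sameView_refl _ _ _) (fun z hz => ?_) s')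
        have h1 : ¬ ∃ y, Near I.G (3 * T) z y ∧ col I y = s := fun ⟨y, h1, h2⟩ =>
          h ⟨y, (hz.trans' h1 (by omega)).symm, h2⟩
        have h2 : col I z ≠ s := fun e => h1 ⟨z, near_refl _ _, e⟩
        exact ⟨by omega, by simp only [st, if_neg h1, if_neg h2]⟩
    · simp only [st]
      split_ifs with h
      · exact (hg _ (Classical.epsilon_spec h).2).2.2 v (Classical.epsilon_spec h).1.symm
      · exact le_rfl

end Bound

include hF hl in
theorem tree_lll [IsProbabilityMeasure μ] {C : Set (Inst N)} {K D : ℕ} {q : ℝ≥0∞}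
    (hG : ∀ I ∈ C, I.G.IsAcyclic) (hK : ∀ I v, col I v < K)
    (hp : ∀ I ∈ C, ∀ x y, x ≠ y → Near I.G (10 * T) x y → col I x ≠ col I y)
    (hD : ∀ I ∈ C, ∀ x, (ball I.G 1 x).card ≤ D) (hm : ∀ I S, Measurable (F I S))
    (hq : q ≠ ⊤) (hb : ∀ I S a, F I S a ≤ q) :
    ∃ x : Inst N → Fin N → Ω, (∀ I I' y, SameView (1 + K * (10 * T)) y I I' →
        (∀ z, Near I.G (1 + K * (10 * T)) y z → col I z = col I' z) → x I y = x I' y) ∧
      ∀ I ∈ C, ∀ r, (∀ S ∈ sets I.G T r, ∀ a, lmarginal (fun _ => μ) S (F I S) a ≤ 1) →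
        ∀ S ∈ sets I.G T r, 1 + F I S (x I) ≤ ((2 * (12 * D ^ 3) ^ T : ℕ) : ℝ≥0∞) := by
  obtain ⟨o⟩ : Nonempty Ω := nonempty_of_isProbabilityMeasure μ
  refine ⟨fun I v => (st μ T col F o I K v).1,
    fun I I' y h1 h2 => congrArg Prod.fst (st_loc hF hl o K y h1 h2), fun I hI r h S hS => ?_⟩
  obtain ⟨i1, i2, i3⟩ := st_inv (μ := μ) hF hl (hG I hI) (hp I hI) (hm I) hq (hb I) o K
  obtain ⟨hc, hT⟩ := mem_sets.1 hS
  have hT0 : T ≠ 0 := by have := card_pos.2 ⟨r, hc.1⟩; omega
  have hD1 : 1 ≤ D := le_trans (card_pos.2 ⟨r, mem_ball.2 (near_refl _ _)⟩) (hD I hI r)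
  have hD' : (1 : ℝ) ≤ 3 * D := by exact_mod_cast (by omega : 1 ≤ 3 * D)
  set σ := st μ T col F o I K with hσ
  set A := (mA μ col F I K (fun v => (σ v).1) S).toReal with hA
  have h0 : ∀ s', Pot μ T col F I 0 (st μ T col F o I 0) s' r ≤ 2 * (4 * D ^ 2) ^ T := by
    intro s'
    unfold Pot Phi
    refine (sum_le_card_nsmul _ _ 2 fun S' hS' => ?_).trans ?_
    · simp only [nw, st, prod_const_one, div_one, mA, mass_zero, id]
      rw [filter_true_of_mem fun _ _ => Nat.zero_le _]
      refine ENNReal.toReal_le_of_le_ofReal (by norm_num) ((add_le_add_right (h S' hS' _) 1).trans ?_)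
      norm_num [one_add_one_eq_two]
    · rw [nsmul_eq_mul, mul_comm]
      exact mul_le_mul_of_nonneg_left (by exact_mod_cast sets_card (hD I hI) T r) (by norm_num)
  have h1 : ∀ s' ∈ range T, A ≤ 2 * (4 * D ^ 2) ^ T *
      ∏ v ∈ S, (σ v).2 (s' + I.G.dist r v) (par I.G r v) := by
    intro s' hs
    rw [← div_le_iff₀ (prod_pos fun v _ => i1 v _ _)]
    refine le_trans ?_ ((i2 s' (mem_range.1 hs) r).trans (h0 s'))
    exact single_le_sum (f := fun S => nw I.G (fun c v u => (σ v).2 c u)
      (fun S => (mA μ col F I K (fun v => (σ v).1) S).toReal) r S s')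
      (fun S' _ => div_nonneg ENNReal.toReal_nonneg (prod_nonneg fun v _ => (i1 v _ _).le)) hS
  have h2 : ∀ v ∈ S, ∏ s' ∈ range T, (σ v).2 (s' + I.G.dist r v) (par I.G r v) ≤ (3 * D) ^ T := by
    intro v hv
    refine prod_le_pow (by linarith) (fun s' => (i1 v _ _).le) (le_trans ?_ ((i3 v).trans ?_))
    · have a1 := (hc.near hT hv).dist_le
      rw [← sum_image (g := fun s' => s' + I.G.dist r v) (f := fun c => (σ v).2 c (par I.G r v))
        fun a _ b _ e => Nat.add_right_cancel e]
      refine (sum_le_sum_of_subset_of_nonneg (t := range (3 * T)) (fun c hc => ?_)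
        fun c _ _ => (i1 v _ _).le).trans (sum_le_sum fun c _ =>
          single_le_sum (fun u _ => (i1 v c u).le) (mem_ball.2 (par_near r v)))
      obtain ⟨s', hs, rfl⟩ := mem_image.1 hc
      have := mem_range.1 hs
      exact mem_range.2 (by omega)
    · have a1 : ((ball I.G 1 v).card : ℝ) ≤ D := by exact_mod_cast hD I hI v
      simp only [bud, sum_const, card_range, nsmul_eq_mul, mul_one]
      push_cast
      nlinarith [(Nat.cast_nonneg T : (0 : ℝ) ≤ T)]
  have h3 : A ^ T ≤ (2 * (12 * D ^ 3) ^ T) ^ T := by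
    have a1 := prod_le_prod (fun _ _ => (ENNReal.toReal_nonneg : 0 ≤ A)) h1
    rw [prod_const, card_range, prod_mul_distrib, prod_const, card_range, prod_comm] at a1
    have a2 := prod_le_prod (fun v _ => prod_nonneg fun s' _ => (i1 v _ _).le) h2
    rw [prod_const] at a2
    have a3 : ((3 * D : ℝ) ^ T) ^ S.card ≤ ((3 * D) ^ T) ^ T :=
      pow_le_pow_right₀ (one_le_pow₀ hD') hT
    refine a1.trans ((mul_le_mul_of_nonneg_left (a2.trans a3) (by positivity)).trans (le_of_eq ?_))
    rw [← mul_pow, mul_assoc, ← mul_pow]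
    congr 3
    ring
  have h4 := (pow_le_pow_iff_left₀ ENNReal.toReal_nonneg (by positivity) hT0).1 h3
  have h5 : mA μ col F I K (fun v => (σ v).1) S = 1 + F I S fun v => (σ v).1 := by
    rw [mA, mass_zero, filter_eq_empty_iff.2 (fun y _ => by have := hK I y; omega), lmarginal_empty]
  rw [← h5, ← ENNReal.ofReal_natCast]
  refine (ENNReal.le_ofReal_iff_toReal_le (mass_ne_top hq (hb I) _ _ _ _) (by positivity)).2 ?_
  exact_mod_cast h4

end Pool.Agent.Lib.MP_559647_lc
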