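import Pool.Agent.Lib.MP_559647_lc.W55Tree
import Pool.Agent.Lib.MP_559647_lc.V55Prob

/-!
Small subtrees embed in one universal tree, so there are only exponentially many shapes.
-/

namespace Pool.Agent.Lib.MP_559647_lc

open MeasureTheory Finset
open scoped ENNReal

section Addr

variable {N : ℕ} (G : SimpleGraph (Fin N)) (D : ℕ) (r : Fin N)

/-- the address of a node at distance `d` from the root -/
noncomputable def ad : ℕ → Fin N → ℕ
  | 0 => fun _ => 1
  | d + 1 => fun v => D * ad d (par G r v) + (ball G 1 (par G r v)).toList.idxOf v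

/-- the address of a node -/
noncomputable def addr (v : Fin N) : ℕ := ad G D r (G.dist r v) v

variable {G D r} (hD : ∀ x, (ball G 1 x).card ≤ D)

lemma addr_root : addr G D r r = 1 := by simp [addr, ad]

include hD in
lemma addr_step {v : Fin N} (h : G.Reachable r v) (hv : v ≠ r) :
    addr G D r v = D * addr G D r (par G r v) + (ball G 1 (par G r v)).toList.idxOf v ∧
      (ball G 1 (par G r v)).toList.idxOf v < D := by
  refine ⟨by rw [addr, ← (par_spec h hv).2]; rfl, lt_of_lt_of_le (List.idxOf_lt_length_iff.2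
    (mem_toList.2 (mem_ball.2 (par_near r v).symm))) ?_⟩
  rw [length_toList]
  exact hD _

include hD in
lemma addr_bound (hD2 : 2 ≤ D) (d : ℕ) : ∀ v, G.Reachable r v → G.dist r v = d →
    1 ≤ addr G D r v ∧ addr G D r v < D ^ (d + 1) := by
  induction d with
  | zero =>
    intro v h hd
    rw [← h.dist_eq_zero_iff.1 hd, addr_root]
    exact ⟨le_rfl, by rw [zero_add, pow_one]; omega⟩
  | succ d ih =>
    intro v h hd
    have hv : v ≠ r := by
      rintro rfl
      simp at hd
    obtain ⟨h1, h2⟩ := par_spec h hv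
    obtain ⟨h3, h4⟩ := ih _ (h.trans h1.reachable) (by omega)
    obtain ⟨h5, h6⟩ := addr_step hD h hv
    rw [h5, pow_succ']
    constructor <;> nlinarith

include hD in
lemma addr_div {v : Fin N} (h : G.Reachable r v) (hv : v ≠ r) :
    addr G D r v / D = addr G D r (par G r v) := by
  obtain ⟨h1, h2⟩ := addr_step hD h hv
  rw [h1, Nat.mul_add_div (by omega), Nat.div_eq_of_lt h2, add_zero]

include hD in
lemma addr_inj (hD2 : 2 ≤ D) (d : ℕ) : ∀ v u, G.Reachable r v → G.Reachable r u → G.dist r v = d →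
    addr G D r v = addr G D r u → v = u := by
  have key : ∀ u, G.Reachable r u → addr G D r u = 1 → u = r := fun u h e => by_contra fun hu => by
    have h1 := addr_div hD h hu
    have h2 := (addr_bound hD hD2 _ _ (h.trans (par_spec h hu).1.reachable) rfl).1
    rw [e, Nat.div_eq_of_lt (by omega)] at h1
    omega
  induction d with
  | zero =>
    intro v u h h' hd e
    obtain rfl := h.dist_eq_zero_iff.1 hd
    exact (key u h' (e.symm.trans addr_root)).symm
  | succ d ih =>
    intro v u h h' hd e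
    have hv : v ≠ r := by
      rintro rfl
      simp at hd
    have hu : u ≠ r := by
      rintro rfl
      exact hv (key v h (e.trans addr_root))
    obtain ⟨h1, h2⟩ := par_spec h hv
    have h3 := ih _ _ (h.trans h1.reachable) (h'.trans (par_spec h' hu).1.reachable) (by omega)
      (by rw [← addr_div hD h hv, ← addr_div hD h' hu, e])
    rw [(addr_step hD h hv).1, (addr_step hD h' hu).1, ← h3, add_right_inj] at e
    exact (List.idxOf_inj (mem_toList.2 (mem_ball.2 (par_near r v).symm))).1 e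

include hD in
lemma addr_adj (hD2 : 2 ≤ D) (hG : G.IsAcyclic) {v u : Fin N} (h : G.Reachable r v)
    (h' : G.Reachable r u) : G.Adj v u ↔ addr G D r v ≠ addr G D r u ∧
      (addr G D r v / D = addr G D r u ∨ addr G D r u / D = addr G D r v) := by
  have key : ∀ v u, G.Reachable r v → G.Reachable r u → addr G D r v / D = addr G D r u →
      G.Adj v u := by
    intro v u h h' e
    have hv : v ≠ r := by
      rintro rfl
      have := (addr_bound hD hD2 _ _ h' rfl).1
      rw [addr_root, Nat.div_eq_of_lt (by omega)] at e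
      omega
    have h1 := (par_spec h hv).1
    rwa [addr_inj hD hD2 _ _ _ (h.trans h1.reachable) h' rfl ((addr_div hD h hv).symm.trans e)] at h1
  refine ⟨fun ha => ⟨fun e => ha.ne (addr_inj hD hD2 _ _ _ h h' rfl e), ?_⟩,
    fun ha => ha.2.elim (key _ _ h h') fun e => (key _ _ h' h e).symm⟩
  refine (par_or hG h ha).imp (fun e => ?_) fun e => ?_
  · rw [addr_div hD h fun e' => ha.ne (((par_eq_self h).2 e').symm.trans e), e]
  · rw [addr_div hD h' fun e' => ha.ne (e.symm.trans ((par_eq_self h').2 e')), e]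

end Addr

/-- the universal tree -/
def heap (D K : ℕ) : SimpleGraph (Fin K) := SimpleGraph.fromRel fun i k => i.val / D = k.val

lemma heap_ball {D : ℕ} (hD : 0 < D) (K : ℕ) (i : Fin K) : (ball (heap D K) 1 i).card ≤ D + 2 := by
  have : (ball (heap D K) 1 i).image Fin.val ⊆
      insert i.val (insert (i.val / D) (Ico (D * i.val) (D * i.val + D))) := by
    intro k' hk'
    obtain ⟨k, hk, rfl⟩ := mem_image.1 hk'
    rcases near_one_iff.1 (mem_ball.1 hk) with rfl | h
    · exact mem_insert_self _ _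
    · refine mem_insert_of_mem (mem_insert.2 (((SimpleGraph.fromRel_adj _ _ _).1 h).2.imp Eq.symm
        fun e => ?_))
      have h1 := Nat.div_add_mod k.val D
      have h2 := Nat.mod_lt k.val hD
      rw [e] at h1
      exact mem_Ico.2 (by omega)
  rw [← card_image_of_injective _ Fin.val_injective]
  refine (card_le_card this).trans ((card_insert_le _ _).trans ?_)
  have := card_insert_le (i.val / D) (Ico (D * i.val) (D * i.val + D))
  rw [Nat.card_Ico] at this
  omega

/-- the universal tree with labels -/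
def uni (D K : ℕ) (lb : Fin K → ℕ) : Inst K := ⟨univ, heap D K, lb, fun _ _ _ => mem_univ _⟩

/-- small subtrees of the universal tree with labels -/
noncomputable def tsh (D T K : ℕ) [NeZero K] (L : Finset ℕ) : Finset (Finset (Fin K) × (Fin K → ℕ)) :=
  (sets (heap D K) T (Fin.ofNat K 1)).biUnion fun S =>
    {S} ×ˢ Fintype.piFinset fun z => if z ∈ S then L else {0}

lemma tsh_card {D : ℕ} (hD : 0 < D) (T K : ℕ) [NeZero K] (L : Finset ℕ) :
    (tsh D T K L).card ≤ (4 * (D + 2) ^ 2 * (L.card + 1)) ^ T := by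
  rw [mul_pow]
  refine (card_biUnion_le_card_mul _ _ ((L.card + 1) ^ T) fun S hS => ?_).trans
    (Nat.mul_le_mul_right _ (sets_card (heap_ball hD K) T _))
  rw [card_product, card_singleton, one_mul, Fintype.card_piFinset]
  simp only [apply_ite card, card_singleton, prod_ite_mem, univ_inter, prod_const]
  exact (Nat.pow_le_pow_left (Nat.le_succ _) _).trans
    (Nat.pow_le_pow_right (Nat.succ_pos _) (mem_sets.1 hS).2)

variable {M n : ℕ} (hM : n ≤ M) {ν : Measure (Fin n)} [IsProbabilityMeasure ν] {ε : ℝ≥0∞}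

lemma seed_all {Ω ι Y : Type} [MeasurableSpace Ω] {μ : Measure Ω} [IsProbabilityMeasure μ]
    [Fintype Y] [MeasurableSpace Y] [MeasurableSingletonClass Y] (ρ : Measure Y)
    [IsProbabilityMeasure ρ] {E : Ω → Inst M → Prop} (hm : ∀ J, MeasurableSet {ω | E ω J})
    (hε : ∀ J, μ {ω | E ω J} ≤ ε) (X : Finset ι) (b : ι → Y → Inst M) :
    ∃ ω, ∀ i ∈ X, ρ {y | E ω (b i y)} ≤ X.card * ε := by
  have key := fun i => avg_bound (μ := μ) ρ (E := fun ω y => E ω (b i y)) (fun y => hm _)
    (fun y => hε _)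
  obtain ⟨ω, hω⟩ := exists_le_lintegral (μ := μ) (f := fun ω => ∑ i ∈ X, ρ {y | E ω (b i y)})
    (Finset.measurable_sum _ fun i _ => (key i).1).aemeasurable
  refine ⟨ω, fun i hi => (single_le_sum (f := fun i => ρ {y | E ω (b i y)}) (fun _ _ => zero_le)
    hi).trans (hω.trans ?_)⟩
  rw [lintegral_finsetSum _ fun i _ => (key i).1, ← nsmul_eq_mul]
  exact sum_le_card_nsmul _ _ ε fun i _ => (key i).2

lemma tree_fail {N T D l0 : ℕ} [NeZero (D ^ (2 * T + 1))] {L : Finset ℕ} {E : Inst M → Prop}
    (h : ∀ s ∈ tsh D T (D ^ (2 * T + 1)) L, (Measure.pi fun _ => ν)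
      {y | E (fake hM l0 (uni D _ s.2) y s.1)} ≤ ε) (hD2 : 2 ≤ D)
    {I : Inst N} (hG : I.G.IsAcyclic) (hD : ∀ x, (ball I.G 1 x).card ≤ D) {r : Fin N}
    {S : Finset (Fin N)} (hS : S ∈ sets I.G T r) (hL : ∀ y ∈ S, I.inp y ∈ L) :
    (Measure.pi fun _ : Fin N => ν) {x | E (fake hM l0 I x S)} ≤ ε := by
  classical
  obtain ⟨hc, hT⟩ := mem_sets.1 hS
  let φ : Fin N → Fin (D ^ (2 * T + 1)) := fun v => Fin.ofNat _ (addr I.G D r v)
  have h1 : ∀ v ∈ S, (φ v).val = addr I.G D r v := fun v hv =>
    Nat.mod_eq_of_lt ((addr_bound hD hD2 _ v (hc.reachable hv) rfl).2.trans_le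
      (Nat.pow_le_pow_right (by omega) (Nat.succ_le_succ (hc.near hT hv).dist_le)))
  have h2 : ∀ v u, v ∈ S → u ∈ S → φ v = φ u → v = u := fun v u hv hu e =>
    addr_inj hD hD2 _ _ _ (hc.reachable hv) (hc.reachable hu) rfl (by rw [← h1 v hv, ← h1 u hu, e])
  have h3 : ∀ v ∈ S, ∀ u ∈ S, (heap D _).Adj (φ v) (φ u) ↔ I.G.Adj v u := fun v hv u hu => by
    rw [addr_adj hD hD2 hG (hc.reachable hv) (hc.reachable hu), ← h1 v hv, ← h1 u hu, heap,
      SimpleGraph.fromRel_adj, Ne, Ne, Fin.ext_iff]
  let lb : Fin (D ^ (2 * T + 1)) → ℕ := fun z => if h : ∃ v ∈ S, φ v = z then I.inp h.choose else 0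
  have h4 : ∀ v ∈ S, lb (φ v) = I.inp v := fun v hv => by
    have h : ∃ u ∈ S, φ u = φ v := ⟨v, hv, rfl⟩
    simp only [lb, dif_pos h, h2 _ _ h.choose_spec.1 hv h.choose_spec.2]
  have h5 : (S.image φ, lb) ∈ tsh D T (D ^ (2 * T + 1)) L := by
    have e : Fin.ofNat _ 1 = φ r := by simp only [φ, addr_root]
    refine mem_biUnion.2 ⟨S.image φ, mem_sets.2 ⟨⟨e ▸ mem_image_of_mem _ hc.1, fun z hz => ?_⟩,
      card_image_le.trans hT⟩, mem_product.2 ⟨mem_singleton_self _, Fintype.mem_piFinset.2 fun z => ?_⟩⟩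
    · obtain ⟨v, hv, rfl⟩ := mem_image.1 hz
      have := hc.2 v hv
      rw [e]
      induction this with
      | refl => exact Relation.ReflTransGen.refl
      | @tail b c hb hbc ih =>
        have hbS : b ∈ S := by
          rcases hb.cases_tail with rfl | ⟨_, -, h1⟩
          · exact hc.1
          · exact h1.2
        exact (ih hbS (mem_image_of_mem _ hbS)).tail ⟨(h3 b hbS c hv).2 hbc.1, hz⟩
    · split_ifs with hz
      · obtain ⟨v, hv, rfl⟩ := mem_image.1 hz
        show lb (φ v) ∈ L
        rw [h4 v hv]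
        exact hL v hv
      · exact mem_singleton.2 (dif_neg fun h => hz (mem_image.2 h))
  have e : ∀ y, fake hM l0 (uni D _ lb) y (S.image φ) = fake hM l0 I (fun v => y (φ v)) S := by
    intro y
    unfold fake
    rw [mkI_map hM l0 (ψ := fun v : S => φ v) fun a => by simp,
      mkI_map hM l0 (U := S) (ψ := fun v : S => v.1) fun a => by simp]
    exact mkI_congr hM l0 (fun a _ b => h3 _ a.2 _ b.2) (fun a _ => h4 _ a.2) fun _ _ => rfl
  have h6 := h _ h5
  simp only [e] at h6
  rwa [← meas_rename (μ := ν) (D := (· ∈ S)) h2 (E := {x | E (fake hM l0 I x S)})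
    (Set.toFinite _).measurableSet fun b b' hb hE => by
      rwa [Set.mem_ofPred_eq, fake, ← mkI_congr hM l0 (fun _ _ _ => Iff.rfl) (fun _ _ => rfl) hb]]

end Pool.Agent.Lib.MP_559647_lc
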