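import Pool.Agent.Lib.MP_559647_lc.W55Tree

/-!
One step of the chain potential on a forest: the masses of the sets through a node `y` change, the
change is pushed back along the edges that point to `y`, and only the budget of `y` is affected.
-/

namespace Pool.Agent.Lib.MP_559647_lc

open Finset SimpleGraph

variable {N : ℕ} (G : SimpleGraph (Fin N)) (T : ℕ)

/-- normalised mass of the set `S` with root `r` and offset `s` -/
noncomputable def nw (g : ℕ → Fin N → Fin N → ℝ) (A : Finset (Fin N) → ℝ) (r : Fin N)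
    (S : Finset (Fin N)) (s : ℕ) : ℝ := A S / ∏ v ∈ S, g (s + G.dist r v) v (par G r v)

/-- root potential -/
noncomputable def Phi (g : ℕ → Fin N → Fin N → ℝ) (A : Finset (Fin N) → ℝ) (s : ℕ) (r : Fin N) : ℝ :=
  ∑ S ∈ sets G T r, nw G g A r S s

/-- budget of a node in one class -/
noncomputable def Psi (g : ℕ → Fin N → Fin N → ℝ) (c : ℕ) (v : Fin N) : ℝ :=
  ∑ u ∈ ball G 1 v, g c v u

open Classical in
/-- copies (root, set, offset) that hold `v` in class `c` -/
noncomputable def atc (c : ℕ) (v : Fin N) : Finset (Fin N × Finset (Fin N) × ℕ) :=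
  (univ ×ˢ univ ×ˢ range T).filter fun κ =>
    κ.2.1 ∈ sets G T κ.1 ∧ v ∈ κ.2.1 ∧ κ.2.2 + G.dist κ.1 v = c

/-- those with parent `u` -/
noncomputable def grp (c : ℕ) (v u : Fin N) : Finset (Fin N × Finset (Fin N) × ℕ) :=
  (atc G T c v).filter fun κ => par G κ.1 v = u

variable {G T}

lemma mem_atc {c : ℕ} {v : Fin N} {κ : Fin N × Finset (Fin N) × ℕ} : κ ∈ atc G T c v ↔
    κ.2.2 < T ∧ (Conn G κ.1 κ.2.1 ∧ κ.2.1.card ≤ T) ∧ v ∈ κ.2.1 ∧ κ.2.2 + G.dist κ.1 v = c := by
  classical
  simp [atc, mem_sets]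

lemma mem_grp {c : ℕ} {v u : Fin N} {κ : Fin N × Finset (Fin N) × ℕ} :
    κ ∈ grp G T c v u ↔ κ ∈ atc G T c v ∧ par G κ.1 v = u := mem_filter

lemma atc_lt {c : ℕ} {v : Fin N} {κ : Fin N × Finset (Fin N) × ℕ} (h : κ ∈ atc G T c v) :
    c < 3 * T := by
  obtain ⟨h1, h2, h3, h4⟩ := mem_atc.1 h
  have := (h2.1.near h2.2 h3).dist_le
  omega

lemma sum_root {s : ℕ} (hs : s < T) (r : Fin N) (f : Fin N × Finset (Fin N) × ℕ → ℝ) :
    ∑ κ ∈ grp G T s r r, f κ = ∑ S ∈ sets G T r, f (r, S, s) := by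
  classical
  have : grp G T s r r = (sets G T r).image fun S => (r, S, s) := by
    ext ⟨r', S, s'⟩
    simp only [mem_grp, mem_atc, mem_image, mem_sets, Prod.mk.injEq]
    constructor
    · rintro ⟨⟨-, h2, h3, h4⟩, h5⟩
      obtain rfl := (par_eq_self (h2.1.reachable h3)).1 h5
      exact ⟨S, h2, rfl, rfl, by simpa using h4.symm⟩
    · rintro ⟨S, h, rfl, rfl, rfl⟩
      exact ⟨⟨hs, h, h.1.1, by simp⟩, par_self _⟩
  rw [this, sum_image fun _ _ _ _ h => by simpa using h]

lemma grp_up (hG : G.IsAcyclic) {c : ℕ} {v' v : Fin N} {κ : Fin N × Finset (Fin N) × ℕ}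
    (h : κ ∈ grp G T (c + 1) v' v) (hv : v ≠ v') : κ ∈ atc G T c v ∧ par G κ.1 v ≠ v' := by
  obtain ⟨h0, rfl⟩ := mem_grp.1 h
  obtain ⟨h1, h2, h3, h4⟩ := mem_atc.1 h0
  have hr := h2.1.reachable h3
  have h5 := (par_spec hr fun e => hv ((par_eq_self hr).2 e)).2
  have h6 := h2.1.par_mem hG h3
  refine ⟨mem_atc.2 ⟨h1, h2, h6, by omega⟩, fun e => ?_⟩
  by_cases h7 : par G κ.1 v' = κ.1
  · rw [h7, par_self] at e
    exact hv (h7.trans e)
  · have := (par_spec (h2.1.reachable h6) h7).2
    rw [e] at this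
    omega

section Weights

variable (G T) (g : ℕ → Fin N → Fin N → ℝ) (w Y : Fin N × Finset (Fin N) × ℕ → ℝ) (y : Fin N)

/-- the weight a copy brings to the node `v` -/
noncomputable def upw : ℕ → Fin N × Finset (Fin N) × ℕ → Fin N → ℝ
  | 0 => fun κ _ => w κ
  | c + 1 => fun κ v => if par G κ.1 v = v then w κ else
      g c (par G κ.1 v) (par G κ.1 (par G κ.1 v)) * upw c κ (par G κ.1 v) /
        ∑ κ' ∈ grp G T c (par G κ.1 v) (par G κ.1 (par G κ.1 v)), upw c κ' (par G κ.1 v)

/-- the weight of a copy at the node `v` -/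
noncomputable def om (c : ℕ) (κ : Fin N × Finset (Fin N) × ℕ) (v : Fin N) : ℝ :=
  g c v (par G κ.1 v) * upw G T g w c κ v / ∑ κ' ∈ grp G T c v (par G κ.1 v), upw G T g w c κ' v

/-- weighted mean over a group, one for the empty group -/
noncomputable def avg (c : ℕ) (v u : Fin N) (f : Fin N × Finset (Fin N) × ℕ → ℝ) : ℝ :=
  if grp G T c v u = ∅ then 1 else
    (∑ κ ∈ grp G T c v u, upw G T g w c κ v * f κ) / ∑ κ ∈ grp G T c v u, upw G T g w c κ v

/-- the correction factor of a copy seen from a node at distance `i` from `y` -/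
noncomputable def fn : ℕ → ℕ → Fin N → Fin N × Finset (Fin N) × ℕ → ℝ
  | 0 => fun _ _ κ => Y κ
  | i + 1 => fun c v κ => if par G y v ∈ κ.2.1 then fn i (c + 1) (par G y v) κ /
      avg G T g w (c + 1) (par G y v) v (fn i (c + 1) (par G y v)) else 1

/-- the option `u` at `v` does not point towards `y` -/
def md (v u : Fin N) : Prop := G.Reachable y v ∧ (v = y ∨ u ≠ par G y v)

open Classical in
/-- the factor applied to `g c v u` -/
noncomputable def fac (c : ℕ) (v u : Fin N) : ℝ :=
  if md G y v u then avg G T g w c v u (fn G T g w Y y (G.dist y v) c v) else 1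

variable {G T g w Y y} (hG : G.IsAcyclic) (hg : ∀ c v u, 0 < g c v u) (hw : ∀ κ, 0 < w κ)
  (hY : ∀ κ, 0 < Y κ)

lemma fac_yes {c : ℕ} {v u : Fin N} (h : md G y v u) :
    fac G T g w Y y c v u = avg G T g w c v u (fn G T g w Y y (G.dist y v) c v) := if_pos h

lemma fac_no {c : ℕ} {v u : Fin N} (h : ¬ md G y v u) : fac G T g w Y y c v u = 1 := if_neg h

include hG hg hw in
lemma upw_pos (c : ℕ) : ∀ v, ∀ κ ∈ atc G T c v, 0 < upw G T g w c κ v := by
  induction c with
  | zero => intro v κ _; exact hw κ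
  | succ c ih =>
    intro v κ h
    simp only [upw]
    split_ifs with h1
    · exact hw κ
    · have h2 := (grp_up hG (mem_grp.2 ⟨h, rfl⟩) h1).1
      exact div_pos (mul_pos (hg _ _ _) (ih _ κ h2)) (sum_pos (fun κ' h' => ih _ κ' (mem_grp.1 h').1)
        ⟨κ, mem_grp.2 ⟨h2, rfl⟩⟩)

lemma upw_root {c : ℕ} {v : Fin N} {κ : Fin N × Finset (Fin N) × ℕ} (h : par G κ.1 v = v) :
    upw G T g w c κ v = w κ := by
  cases c with
  | zero => rfl
  | succ c => simp only [upw, if_pos h]

lemma upw_child {c : ℕ} {v' v : Fin N} {κ : Fin N × Finset (Fin N) × ℕ} (h : par G κ.1 v' = v)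
    (hv : v ≠ v') : upw G T g w (c + 1) κ v' = om G T g w c κ v := by
  subst h
  simp only [upw, if_neg hv, om]

include hG hg hw in
lemma grp_pos {c : ℕ} {v u : Fin N} (h : grp G T c v u ≠ ∅) :
    0 < ∑ κ ∈ grp G T c v u, upw G T g w c κ v :=
  sum_pos (fun κ h' => upw_pos hG hg hw c v κ (mem_grp.1 h').1) (nonempty_iff_ne_empty.2 h)

include hG hg hw in
lemma avg_pos (c : ℕ) (v u : Fin N) {f : Fin N × Finset (Fin N) × ℕ → ℝ} (hf : ∀ κ, 0 < f κ) :
    0 < avg G T g w c v u f := by
  unfold avg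
  split_ifs with h
  · exact one_pos
  · exact div_pos (sum_pos (fun κ h' => mul_pos (upw_pos hG hg hw c v κ (mem_grp.1 h').1) (hf κ))
      (nonempty_iff_ne_empty.2 h)) (grp_pos hG hg hw h)

include hG hg hw hY in
lemma fn_pos (i : ℕ) : ∀ c v κ, 0 < fn G T g w Y y i c v κ := by
  induction i with
  | zero => intro _ _ κ; exact hY κ
  | succ i ih =>
    intro c v κ
    simp only [fn]
    split_ifs
    · exact div_pos (ih _ _ _) (avg_pos hG hg hw _ _ _ (ih _ _))
    · exact one_pos

include hG hg hw hY in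
lemma fac_pos (c : ℕ) (v u : Fin N) : 0 < fac G T g w Y y c v u := by
  unfold fac
  split_ifs
  · exact avg_pos hG hg hw _ _ _ (fn_pos hG hg hw hY _ _ _)
  · exact one_pos

include hG hg hw in
lemma avg_bal (c : ℕ) (v u : Fin N) {f : Fin N × Finset (Fin N) × ℕ → ℝ} (hf : ∀ κ, 0 < f κ) :
    ∑ κ ∈ grp G T c v u, upw G T g w c κ v * (f κ / avg G T g w c v u f) =
      ∑ κ ∈ grp G T c v u, upw G T g w c κ v := by
  by_cases h : grp G T c v u = ∅
  · simp [h]
  · have h1 := avg_pos (T := T) hG hg hw c v u hf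
    have h2 := grp_pos hG hg hw h
    simp only [← mul_div_assoc]
    rw [← sum_div, div_eq_iff h1.ne', avg, if_neg h]
    field_simp

include hG hg hw in
lemma g_avg (c : ℕ) (v u : Fin N) (f : Fin N × Finset (Fin N) × ℕ → ℝ) :
    g c v u * avg G T g w c v u f =
      g c v u + ∑ κ ∈ grp G T c v u, om G T g w c κ v * (f κ - 1) := by
  by_cases h : grp G T c v u = ∅
  · simp [h, avg]
  · have h2 := grp_pos hG hg hw h
    have e : ∑ κ ∈ grp G T c v u, om G T g w c κ v * (f κ - 1) =
        ∑ κ ∈ grp G T c v u, g c v u / (∑ κ ∈ grp G T c v u, upw G T g w c κ v) *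
          (upw G T g w c κ v * f κ - upw G T g w c κ v) := by
      refine sum_congr rfl fun κ hκ => ?_
      rw [om, (mem_grp.1 hκ).2]
      ring
    rw [e, ← mul_sum, sum_sub_distrib, avg, if_neg h]
    field_simp
    ring

lemma md_next {v : Fin N} (h : G.Reachable y v) (hv : v ≠ y) : md G y (par G y v) v := by
  obtain ⟨h1, h2⟩ := par_spec h hv
  refine ⟨h.trans h1.reachable, or_iff_not_imp_left.2 fun h3 e => ?_⟩
  have := (par_spec (h.trans h1.reachable) h3).2
  rw [← e] at this
  omega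

include hG in
lemma grp_down {c : ℕ} {v : Fin N} {κ : Fin N × Finset (Fin N) × ℕ} (h : κ ∈ atc G T c v)
    (hm : md G y v (par G κ.1 v)) (hv : v ≠ y) (hn : par G y v ∈ κ.2.1) :
    κ ∈ grp G T (c + 1) (par G y v) v := by
  obtain ⟨h1, h2, h3, h4⟩ := mem_atc.1 h
  have ha := (par_spec hm.1 hv).1
  have e := (par_or hG (h2.1.reachable h3) ha).resolve_left (hm.2.resolve_left hv)
  have hr := h2.1.reachable hn
  have h5 := (par_spec hr fun e' => ha.ne (e.symm.trans ((par_eq_self hr).2 e'))).2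
  rw [e] at h5
  exact mem_grp.2 ⟨mem_atc.2 ⟨h1, h2, hn, by omega⟩, e⟩

include hG hg hw in
lemma avg_far (i : ℕ) : ∀ c v u, 3 * T ≤ c + i → G.dist y v = i → md G y v u →
    (∀ κ ∈ grp G T c v u, fn G T g w Y y i c v κ = 1) ∧
      avg G T g w c v u (fn G T g w Y y i c v) = 1 := by
  have key : ∀ i c v u, (∀ κ ∈ grp G T c v u, fn G T g w Y y i c v κ = 1) →
      avg G T g w c v u (fn G T g w Y y i c v) = 1 := by
    intro i c v u h
    unfold avg
    split_ifs with h1
    · rfl
    · rw [sum_congr rfl fun κ hκ => by rw [h κ hκ, mul_one], div_self (grp_pos hG hg hw h1).ne']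
  induction i with
  | zero =>
    intro c v u hc _ _
    have : ∀ κ ∈ grp G T c v u, fn G T g w Y y 0 c v κ = 1 := fun κ hκ => by
      have := atc_lt (mem_grp.1 hκ).1
      omega
    exact ⟨this, key _ _ _ _ this⟩
  | succ i ih =>
    intro c v u hc hd hm
    have hv : v ≠ y := by
      rintro rfl
      simp at hd
    have h1 := ih (c + 1) (par G y v) v (by omega) (by have := (par_spec hm.1 hv).2; omega)
      (md_next hm.1 hv)
    have : ∀ κ ∈ grp G T c v u, fn G T g w Y y (i + 1) c v κ = 1 := fun κ hκ => by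
      simp only [fn]
      split_ifs with h2
      · rw [h1.2, h1.1 κ (grp_down hG (mem_grp.1 hκ).1 ((mem_grp.1 hκ).2.symm ▸ hm) hv h2), div_one]
      · rfl
    exact ⟨this, key _ _ _ _ this⟩

include hG hg hw hY in
lemma psi_other {v : Fin N} (hv : v ≠ y) (c : ℕ) :
    Psi G (fun c v u => g c v u * fac G T g w Y y c v u) c v = Psi G g c v := by
  classical
  unfold Psi
  by_cases hr : G.Reachable y v
  swap
  · exact sum_congr rfl fun u _ => by simp only [fac, if_neg fun h : md G y v u => hr h.1, mul_one]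
  obtain ⟨ha, hd⟩ := par_spec hr hv
  rw [← add_sum_erase _ _ (mem_ball.2 (par_near y v)), ← add_sum_erase _ _ (mem_ball.2 (par_near y v))]
  beta_reduce
  rw [fac_no (fun h => (h.2.resolve_left hv) rfl), mul_one,
    sum_congr rfl fun u hu => by
      rw [fac_yes ⟨hr, Or.inr (ne_of_mem_erase hu)⟩, g_avg hG hg hw],
    sum_add_distrib, add_right_inj, add_eq_left]
  have e : ∀ u ∈ (ball G 1 v).erase (par G y v), grp G T c v u =
      ((atc G T c v).filter fun κ => par G κ.1 v ≠ par G y v).filter fun κ => par G κ.1 v = u := by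
    intro u hu
    rw [filter_filter]
    exact filter_congr fun κ _ => ⟨fun h => ⟨h ▸ ne_of_mem_erase hu, h⟩, fun h => h.2⟩
  rw [sum_congr rfl fun u hu => by rw [e u hu], sum_fiberwise_of_maps_to fun κ hκ =>
    mem_erase.2 ⟨(mem_filter.1 hκ).2, mem_ball.2 (par_near _ _)⟩, ← hd,
    ← sum_subset (s₁ := grp G T (c + 1) (par G y v) v)
      (fun κ hκ => mem_filter.2 (grp_up hG hκ ha.ne)) fun κ hκ hn => by
        have : par G y v ∉ κ.2.1 := fun h =>
          hn (grp_down hG (mem_filter.1 hκ).1 ⟨hr, Or.inr (mem_filter.1 hκ).2⟩ hv h)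
        simp only [fn, if_neg this, sub_self, mul_zero]]
  have h3 := avg_bal (T := T) hG hg hw (c + 1) (par G y v) v
    (fn_pos (T := T) (y := y) hG hg hw hY (G.dist y (par G y v)) (c + 1) (par G y v))
  rw [← sub_eq_zero, ← sum_sub_distrib] at h3
  refine Eq.trans (sum_congr rfl fun κ hκ => ?_) h3
  simp only [fn, if_pos (mem_atc.1 (mem_grp.1 hκ).1).2.2.1, upw_child (mem_grp.1 hκ).2 ha.ne]
  ring

include hG hg hw in
lemma psi_self (c : ℕ) : Psi G (fun c v u => g c v u * fac G T g w Y y c v u) c y =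
    Psi G g c y + ∑ κ ∈ atc G T c y, om G T g w c κ y * (Y κ - 1) := by
  classical
  unfold Psi
  beta_reduce
  rw [sum_congr rfl fun u _ => by rw [fac_yes ⟨Reachable.refl _, Or.inl rfl⟩, g_avg hG hg hw],
    sum_add_distrib, add_right_inj]
  simp only [SimpleGraph.dist_self, fn, grp]
  exact sum_fiberwise_of_maps_to (fun κ _ => mem_ball.2 (par_near _ _)) _

section Spine

variable {r : Fin N} {S : Finset (Fin N)} (hS : Conn G r S)
include hG hS

lemma spine_up {z : Fin N} (hz : z ∈ S) (hm : md G y z (par G r z)) (hr : z ≠ r) :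
    par G r z ∈ S ∧ md G y (par G r z) (par G r (par G r z)) ∧ par G y (par G r z) = z ∧
      G.dist y (par G r z) = G.dist y z + 1 ∧ G.dist r (par G r z) + 1 = G.dist r z := by
  obtain ⟨ha, hd⟩ := par_spec (hS.reachable hz) hr
  have h1 : par G y (par G r z) = z := by
    refine (par_or hG hm.1 ha).resolve_left fun e => ?_
    rcases hm.2 with rfl | h
    · exact ha.ne ((par_self _).symm.trans e)
    · exact h e.symm
  have h2 : par G r z ≠ y := fun e => ha.ne ((h1.symm.trans (by rw [e, par_self])).trans e.symm)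
  have h3 := hm.1.trans ha.reachable
  have h4 := (par_spec h3 h2).2
  have h5 := hS.par_mem hG hz
  rw [h1] at h4
  refine ⟨h5, ⟨h3, Or.inr ?_⟩, h1, h4.symm, hd⟩
  rw [h1]
  intro e
  by_cases h6 : par G r z = r
  · rw [h6, par_self] at e
    exact hr e.symm
  · have := (par_spec (hS.reachable h5) h6).2
    rw [e] at this
    omega

lemma spine_depth (n : ℕ) : ∀ z ∈ S, md G y z (par G r z) → G.dist r z = n →
    G.dist y r = n + G.dist y z := by
  induction n with
  | zero =>
    intro z hz _ hd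
    rw [((hS.reachable hz).dist_eq_zero_iff).1 hd, zero_add]
  | succ n ih =>
    intro z hz hm hd
    obtain ⟨h1, h2, -, h4, h5⟩ := spine_up hG hS hz hm (by rintro rfl; simp at hd)
    have := ih _ h1 h2 (by omega)
    omega

lemma spine_uniq (n : ℕ) : ∀ z ∈ S, ∀ z' ∈ S, md G y z (par G r z) → md G y z' (par G r z') →
    G.dist r z = n → G.dist y z = G.dist y z' → z = z' := by
  induction n with
  | zero =>
    intro z hz z' hz' hm hm' hd e
    have h1 := spine_depth hG hS _ z hz hm rfl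
    have h2 := spine_depth hG hS _ z' hz' hm' rfl
    rw [← ((hS.reachable hz).dist_eq_zero_iff).1 hd,
      ← ((hS.reachable hz').dist_eq_zero_iff).1 (by omega)]
  | succ n ih =>
    intro z hz z' hz' hm hm' hd e
    have h1 := spine_depth hG hS _ z hz hm rfl
    have h2 := spine_depth hG hS _ z' hz' hm' rfl
    obtain ⟨a1, a2, a3, a4, a5⟩ := spine_up hG hS hz hm (by rintro rfl; simp at hd)
    obtain ⟨b1, b2, b3, b4, -⟩ := spine_up hG hS hz' hm' (by
      rintro rfl
      rw [SimpleGraph.dist_self] at h2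
      omega)
    rw [← a3, ← b3, ih _ a1 _ b1 a2 b2 (by omega) (by omega)]

lemma spine_next {v : Fin N} (hv : v ∈ S) (hm : md G y v (par G r v)) (j : ℕ) :
    ∀ z ∈ S, md G y z (par G r z) → G.dist y z + j + 1 = G.dist y v → par G y v ∈ S := by
  have h0 := spine_depth hG hS _ v hv hm rfl
  induction j with
  | zero =>
    intro z hz hz' hd
    obtain ⟨a1, a2, a3, a4, -⟩ := spine_up hG hS hz hz' (by rintro rfl; omega)
    rw [← spine_uniq hG hS _ _ a1 v hv a2 hm rfl (by omega), a3]
    exact hz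
  | succ j ih =>
    intro z hz hz' hd
    obtain ⟨a1, a2, -, a4, -⟩ := spine_up hG hS hz hz' (by rintro rfl; omega)
    exact ih _ a1 a2 (by omega)

lemma spine_prod {v : Fin N} (hv : v ∈ S) (hm : md G y v (par G r v)) (φ : Fin N → ℝ)
    (hφ : ∀ z, ¬ md G y z (par G r z) → φ z = 1) :
    ∏ z ∈ S.filter (fun z => G.dist y z < G.dist y v + 1), φ z =
      φ v * ∏ z ∈ S.filter (fun z => G.dist y z < G.dist y v), φ z := by
  classical
  rw [← prod_insert (by simp)]
  refine (prod_subset (fun z hz => ?_) fun z hz hn => hφ z fun h => hn ?_).symm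
  · rcases mem_insert.1 hz with rfl | hz
    · exact mem_filter.2 ⟨hv, by omega⟩
    · exact mem_filter.2 ⟨(mem_filter.1 hz).1, by have := (mem_filter.1 hz).2; omega⟩
  · obtain ⟨h1, h2⟩ := mem_filter.1 hz
    rcases (Nat.lt_succ_iff.1 h2).eq_or_lt with e | e
    · exact mem_insert.2 (Or.inl (spine_uniq hG hS _ z h1 v hv h hm rfl e))
    · exact mem_insert_of_mem (mem_filter.2 ⟨h1, e⟩)

end Spine

include hG hg hw hY in
lemma fn_prod {r : Fin N} {S : Finset (Fin N)} {s : ℕ} (hs : s < T) (hS : S ∈ sets G T r)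
    (h1 : y ∉ S → Y (r, S, s) = 1) (i : ℕ) : ∀ v ∈ S, md G y v (par G r v) → G.dist y v = i →
    fn G T g w Y y i (s + G.dist r v) v (r, S, s) * ∏ z ∈ S.filter (fun z => G.dist y z < i),
      fac G T g w Y y (s + G.dist r z) z (par G r z) = Y (r, S, s) := by
  have hc := (mem_sets.1 hS).1
  induction i with
  | zero => intro v _ _ _; simp [fn]
  | succ i ih =>
    intro v hv hm hd
    have hvy : v ≠ y := by
      rintro rfl
      simp at hd
    have hd' : G.dist y (par G y v) = i := by have := (par_spec hm.1 hvy).2; omega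
    simp only [fn]
    split_ifs with h
    · have h2 := grp_down (κ := (r, S, s)) hG (mem_atc.2 ⟨hs, mem_sets.1 hS, hv, rfl⟩) hm hvy h
      have h3 : par G r (par G y v) = v := (mem_grp.1 h2).2
      have h4 : s + G.dist r (par G y v) = s + G.dist r v + 1 := (mem_atc.1 (mem_grp.1 h2).1).2.2.2
      have h5 : md G y (par G y v) (par G r (par G y v)) := h3.symm ▸ md_next hm.1 hvy
      have h6 := ih _ h h5 hd'
      have h7 := spine_prod hG hc h h5 (fun z => fac G T g w Y y (s + G.dist r z) z (par G r z))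
        fun z hz => if_neg hz
      rw [hd'] at h7
      rw [h7, ← h6, h4, h3, fac, if_pos (md_next hm.1 hvy), hd']
      have h8 := avg_pos (T := T) hG hg hw (s + G.dist r v + 1) (par G y v) v
        (fn_pos (T := T) (y := y) hG hg hw hY i (s + G.dist r v + 1) (par G y v))
      field_simp
    · have h2 : ∀ z ∈ S, md G y z (par G r z) → ¬ G.dist y z < i + 1 := fun z hz hz' hlt =>
        h (spine_next hG hc hv hm (i - G.dist y z) z hz hz' (by omega))
      rw [h1 fun hy => h2 y hy ⟨Reachable.refl _, Or.inl rfl⟩ (by simp), one_mul]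
      exact prod_eq_one fun z hz => if_neg fun hz' => h2 z (mem_filter.1 hz).1 hz' (mem_filter.1 hz).2

end Weights

theorem step_main (hG : G.IsAcyclic) {g : ℕ → Fin N → Fin N → ℝ} (hg : ∀ c v u, 0 < g c v u)
    {A : Finset (Fin N) → ℝ} (hA : ∀ S, 0 < A S) (y : Fin N) :
    ∃ lam : ℕ → Fin N × Finset (Fin N) × ℕ → ℝ, (∀ c, ∀ κ ∈ atc G T c y, 0 ≤ lam c κ) ∧
      ∀ A' : Finset (Fin N) → ℝ, (∀ S, 0 < A' S) → (∀ S, y ∉ S → A' S = A S) →
        ∃ g' : ℕ → Fin N → Fin N → ℝ, (∀ c v u, 0 < g' c v u) ∧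
          (∀ c v u, ¬ Near G (3 * T) y v → g' c v u = g c v u) ∧
          (∀ s < T, ∀ r, Phi G T g' A' s r = Phi G T g A s r) ∧
          (∀ c v, v ≠ y → Psi G g' c v = Psi G g c v) ∧
          ∀ c, Psi G g' c y = Psi G g c y +
            ∑ κ ∈ atc G T c y, lam c κ * (A' κ.2.1 / A κ.2.1 - 1) := by
  classical
  let w : Fin N × Finset (Fin N) × ℕ → ℝ := fun κ => nw G g A κ.1 κ.2.1 κ.2.2
  have hw : ∀ κ, 0 < w κ := fun κ => div_pos (hA _) (prod_pos fun _ _ => hg _ _ _)
  refine ⟨fun c κ => om G T g w c κ y, fun c κ hκ => (div_pos (mul_pos (hg _ _ _)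
    (upw_pos hG hg hw c y κ hκ)) (grp_pos hG hg hw (nonempty_iff_ne_empty.1
      ⟨κ, mem_grp.2 ⟨hκ, rfl⟩⟩))).le, fun A' hA' hy => ?_⟩
  let Y : Fin N × Finset (Fin N) × ℕ → ℝ := fun κ => A' κ.2.1 / A κ.2.1
  have hY : ∀ κ, 0 < Y κ := fun κ => div_pos (hA' _) (hA _)
  refine ⟨fun c v u => g c v u * fac G T g w Y y c v u,
    fun c v u => mul_pos (hg _ _ _) (fac_pos hG hg hw hY _ _ _), fun c v u hn => ?_,
    fun s hs r => ?_, fun c v hv => psi_other hG hg hw hY hv c, psi_self hG hg hw⟩
  · simp only [fac]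
    split_ifs with h
    · rw [(avg_far hG hg hw _ c v u (by
        by_contra h'
        exact hn ((near_dist h.1).mono (by omega))) rfl h).2, mul_one]
    · exact mul_one _
  · unfold Phi
    by_cases hr : G.Reachable y r
    swap
    · refine sum_congr rfl fun S hS => ?_
      have h1 : ∀ v ∈ S, ¬ G.Reachable y v := fun v hv h =>
        hr (h.trans ((mem_sets.1 hS).1.reachable hv).symm)
      unfold nw
      rw [hy S fun h => h1 y h (Reachable.refl _)]
      congr 1
      exact prod_congr rfl fun v hv => by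
        simp only [fac, if_neg fun h : md G y v _ => h1 v hv h.1, mul_one]
    have hm : md G y r (par G r r) := ⟨hr, or_iff_not_imp_left.2 fun h => by
      rw [par_self]; exact (par_spec hr h).1.ne⟩
    have h3 := avg_bal (T := T) hG hg hw s r r (fn_pos (T := T) (y := y) hG hg hw hY (G.dist y r) s r)
    rw [sum_root hs, sum_root hs] at h3
    simp only [upw_root (κ := (r, _, s)) (par_self r)] at h3
    refine Eq.trans (sum_congr rfl fun S hS => ?_) h3
    have hc := (mem_sets.1 hS).1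
    have h4 := fn_prod (w := w) (Y := Y) hG hg hw hY hs hS
      (fun h => by simp only [Y]; rw [hy S h, div_self (hA S).ne']) _ r hc.1 hm rfl
    have h5 := spine_prod hG hc hc.1 hm (fun z => fac G T g w Y y (s + G.dist r z) z (par G r z))
      fun z hz => if_neg hz
    have h6 : ∏ z ∈ S.filter (fun z => G.dist y z < G.dist y r + 1),
        fac G T g w Y y (s + G.dist r z) z (par G r z) =
        ∏ z ∈ S, fac G T g w Y y (s + G.dist r z) z (par G r z) :=
      prod_subset (filter_subset _ _) fun z hz hn => if_neg fun h => hn (mem_filter.2 ⟨hz, by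
        have := spine_depth hG hc _ z hz h rfl
        omega⟩)
    rw [SimpleGraph.dist_self, add_zero] at h4 h5
    have h7 : fac G T g w Y y s r (par G r r) = avg G T g w s r r (fn G T g w Y y (G.dist y r) s r) := by
      rw [fac, if_pos hm, par_self]
    have h8 := fac_pos (T := T) (y := y) hG hg hw hY s r (par G r r)
    have h9 : 0 < ∏ z ∈ S.filter (fun z => G.dist y z < G.dist y r),
        fac G T g w Y y (s + G.dist r z) z (par G r z) := prod_pos fun _ _ => fac_pos hG hg hw hY _ _ _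
    have h10 : 0 < ∏ v ∈ S, g (s + G.dist r v) v (par G r v) := prod_pos fun _ _ => hg _ _ _
    have h11 := hA S
    show A' S / ∏ v ∈ S, (g (s + G.dist r v) v (par G r v) *
      fac G T g w Y y (s + G.dist r v) v (par G r v)) =
        A S / (∏ v ∈ S, g (s + G.dist r v) v (par G r v)) * _
    rw [prod_mul_distrib, ← h6, h5, ← h7, eq_div_of_mul_eq h9.ne' h4]
    simp only [Y]
    field_simp

end Pool.Agent.Lib.MP_559647_lc
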