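import Pool.Agent.Lib.MP_559647_lc.V55Fake

/-!
Parents in a forest.
-/

namespace Pool.Agent.Lib.MP_559647_lc

open Finset SimpleGraph

variable {N : ℕ} {G : SimpleGraph (Fin N)}

open Classical in
/-- the neighbour of `v` towards `r`, or `v` itself -/
noncomputable def par (G : SimpleGraph (Fin N)) (r v : Fin N) : Fin N :=
  if ∃ u, G.Adj v u ∧ G.dist r u + 1 = G.dist r v then
    @Classical.epsilon _ ⟨v⟩ (fun u => G.Adj v u ∧ G.dist r u + 1 = G.dist r v) else v

lemma par_self (r : Fin N) : par G r r = r := by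
  unfold par
  rw [if_neg]
  rintro ⟨u, -, h⟩
  simp at h

lemma par_spec {r v : Fin N} (h : G.Reachable r v) (hv : v ≠ r) :
    G.Adj v (par G r v) ∧ G.dist r (par G r v) + 1 = G.dist r v := by
  have hex : ∃ u, G.Adj v u ∧ G.dist r u + 1 = G.dist r v := by
    have h0 := h.pos_dist_of_ne hv.symm
    obtain ⟨k, hk⟩ : ∃ k, G.dist r v = k + 1 := ⟨G.dist r v - 1, by omega⟩
    obtain ⟨u, h1, h2⟩ := near_succ (hk ▸ near_dist h)
    have h3 := h1.dist_le
    rcases near_one_iff.1 h2 with rfl | h2
    · omega
    · have h4 := ((near_dist h1.reachable).trans (near_of_adj h2)).dist_le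
      exact ⟨u, h2.symm, by omega⟩
  unfold par
  rw [if_pos hex]
  exact Classical.epsilon_spec hex

lemma par_near (r v : Fin N) : Near G 1 v (par G r v) := by
  unfold par
  split_ifs with h
  · exact near_of_adj (Classical.epsilon_spec h).1
  · exact near_refl _ _

lemma par_eq_self {r v : Fin N} (h : G.Reachable r v) : par G r v = v ↔ v = r :=
  ⟨fun e => by_contra fun hv => (par_spec h hv).1.ne e.symm, fun e => e ▸ par_self _⟩

lemma par_unique (hG : G.IsAcyclic) {r v u : Fin N} (h : G.Reachable r v) (hu : G.Adj v u)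
    (hd : G.dist r u + 1 = G.dist r v) : par G r v = u := by
  have hv : v ≠ r := by
    rintro rfl
    simp at hd
  obtain ⟨h1, h2⟩ := par_spec h hv
  obtain ⟨p, -, hp⟩ := (h.trans hu.reachable).exists_path_of_dist
  obtain ⟨q, -, hq⟩ := (h.trans h1.reachable).exists_path_of_dist
  have a1 := (p.concat hu.symm).isPath_of_length_eq_dist (by rw [Walk.length_concat]; omega)
  have a2 := (q.concat h1.symm).isPath_of_length_eq_dist (by rw [Walk.length_concat]; omega)
  have e := Subtype.mk.inj ((hG.subsingleton_path r v).elim ⟨_, a1⟩ ⟨_, a2⟩)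
  have := congrArg Walk.penultimate e
  simpa using this.symm

lemma par_or (hG : G.IsAcyclic) {r v u : Fin N} (h : G.Reachable r v) (hu : G.Adj v u) :
    par G r v = u ∨ par G r u = v := by
  rcases hG.dist_eq_dist_add_one_of_adj_of_reachable r hu h with e | e
  · exact Or.inl (par_unique hG h hu e.symm)
  · exact Or.inr (par_unique hG (h.trans hu.reachable) hu.symm e.symm)

lemma Conn.reachable {r v : Fin N} {S : Finset (Fin N)} (h : Conn G r S) (hv : v ∈ S) :
    G.Reachable r v := by
  have := h.2 v hv
  clear hv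
  induction this with
  | refl => rfl
  | tail _ hab ih => exact ih.trans hab.1.reachable

lemma Conn.par_mem (hG : G.IsAcyclic) {r v : Fin N} {S : Finset (Fin N)} (h : Conn G r S)
    (hv : v ∈ S) : par G r v ∈ S := by
  have key : ∀ k, (par G r)^[k] v ∈ S := by
    have := h.2 v hv
    induction this with
    | refl => intro k; rw [Function.iterate_fixed (par_self r)]; exact hv
    | @tail b c hb hbc ih =>
      have hbS : b ∈ S := by
        rcases hb.cases_tail with rfl | ⟨_, -, h1⟩
        · exact h.1
        · exact h1.2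
      intro k
      rcases par_or hG (h.reachable hbS) hbc.1 with e | e
      · rw [← e, ← Function.iterate_succ_apply]
        exact ih hbS _
      · cases k with
        | zero => exact hv
        | succ k => rw [Function.iterate_succ_apply, e]; exact ih hbS k
  exact key 1

lemma Conn.near {r v : Fin N} {S : Finset (Fin N)} (h : Conn G r S) {T : ℕ} (hT : S.card ≤ T)
    (hv : v ∈ S) : Near G (2 * T) r v := by
  obtain ⟨w, hw⟩ := cover h.1 h.2 (Nat.mul_le_mul_left 2 hT)
  exact (chain_near _ hw.2.1 r (by simp) v (List.mem_toFinset.1 (hw.2.2 hv))).mono hw.1.le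

lemma Conn.view {I J : Inst N} {r : Fin N} {S : Finset (Fin N)} (h : Conn I.G r S) {T t : ℕ}
    (hT : S.card ≤ T) (hv : SameView t r I J) (ht : 2 * T < t) : Conn J.G r S := by
  refine ⟨h.1, fun u hu => ?_⟩
  have := h.2 u hu
  clear hu
  induction this with
  | refl => exact Relation.ReflTransGen.refl
  | tail _ hab ih => exact ih.tail ⟨((hv.adj_iff (h.near hT hab.2) ht _).1 hab.1.symm).symm, hab.2⟩

lemma par_view {I J : Inst N} {r v : Fin N} {s t : ℕ} (hv : SameView t r I J)
    (h : Near I.G s r v) (ht : s < t) : par I.G r v = par J.G r v := by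
  have : (fun u => I.G.Adj v u ∧ I.G.dist r u + 1 = I.G.dist r v) =
      fun u => J.G.Adj v u ∧ J.G.dist r u + 1 = J.G.dist r v := by
    funext u
    rw [← propext (hv.adj_iff h ht u), ← hv.dist_eq (h.mono ht.le)]
    exact propext (and_congr_right fun hu => by
      rw [hv.dist_eq (h.trans' (near_of_adj hu) ht)])
  classical
  unfold par
  exact if_congr (iff_of_eq (congrArg Exists this)) (congrArg (@Classical.epsilon _ ⟨v⟩) this) rfl

open Classical in
/-- connected sets of at most `T` nodes that contain `r` -/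
noncomputable def sets (G : SimpleGraph (Fin N)) (T : ℕ) (r : Fin N) : Finset (Finset (Fin N)) :=
  univ.filter fun S => Conn G r S ∧ S.card ≤ T

lemma mem_sets {T : ℕ} {r : Fin N} {S : Finset (Fin N)} :
    S ∈ sets G T r ↔ Conn G r S ∧ S.card ≤ T := by
  classical
  simp [sets]

lemma sets_view {I J : Inst N} {r : Fin N} {T t : ℕ} (hv : SameView t r I J) (ht : 2 * T < t) :
    sets I.G T r = sets J.G T r := by
  ext S
  rw [mem_sets, mem_sets]
  exact and_congr_left fun hT => ⟨fun h => h.view hT hv ht, fun h => h.view hT hv.symm ht⟩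

lemma sets_card {D : ℕ} (hD : ∀ x, (ball G 1 x).card ≤ D) (T : ℕ) (r : Fin N) :
    (sets G T r).card ≤ (4 * D ^ 2) ^ T := by
  classical
  have hD1 : 1 ≤ D := le_trans (card_pos.2 ⟨r, mem_ball.2 (near_refl _ _)⟩) (hD r)
  have : sets G T r ⊆ ((lists N (2 * T - 1)).filter
      fun w => List.IsChain (Near G 1) (r :: w) ∧ w.length + 1 = 2 * T).biUnion
        fun w => (r :: w).toFinset.powerset := by
    intro S hS
    obtain ⟨h1, h2⟩ := mem_sets.1 hS
    obtain ⟨w, a1, a2, a3⟩ := cover h1.1 h1.2 (Nat.mul_le_mul_left 2 h2)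
    simp only [List.length_cons] at a1
    exact mem_biUnion.2 ⟨w, mem_filter.2 ⟨mem_lists.2 (by omega), a2, a1⟩, mem_powerset.2 a3⟩
  refine (card_le_card this).trans ((card_biUnion_le_card_mul _ _ (2 ^ (2 * T)) fun w hw => ?_).trans
    ?_)
  · rw [card_powerset]
    refine Nat.pow_le_pow_right (by norm_num) ((List.toFinset_card_le _).trans ?_)
    simpa using (mem_filter.1 hw).2.2.le
  · calc _ ≤ D ^ (2 * T) * 2 ^ (2 * T) := Nat.mul_le_mul_right _ (((card_le_card
          (monotone_filter_right _ fun w _ h => h.1)).trans (chains_card hD _ r)).trans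
          (Nat.pow_le_pow_right hD1 (by omega)))
      _ = (4 * D ^ 2) ^ T := by rw [← mul_pow, pow_mul]; congr 1; ring

end Pool.Agent.Lib.MP_559647_lc
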