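import Pool.Agent.Lib.MP_559647_lc.X55Spec

/-!
In a well-formed box all flags are forced and no escape is available.
-/

namespace Pool.Agent.Lib.MP_559647_lc

lemma mod_succ_bit (n k : ℕ) : n % 2 ^ (k + 1) = n % 2 ^ k + if n.testBit k then 2 ^ k else 0 := by
  rw [Nat.mod_pow_succ, Nat.testBit_eq_decide_div_mod_eq]
  rcases Nat.mod_two_eq_zero_or_one (n / 2 ^ k) with h | h <;> simp [h]

lemma dvd_succ_bit (n k : ℕ) : 2 ^ (k + 1) ∣ n ↔ 2 ^ k ∣ n ∧ ¬ n.testBit k := by
  rw [Nat.dvd_iff_mod_eq_zero, Nat.dvd_iff_mod_eq_zero, mod_succ_bit]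
  split_ifs with h <;> simp [h]

lemma bit_succ (n k : ℕ) : (n + 1).testBit k ↔ ¬ (n.testBit k ↔ 2 ^ k ∣ n + 1) := by
  rw [Nat.testBit_eq_decide_div_mod_eq, Nat.testBit_eq_decide_div_mod_eq, Nat.succ_div]
  split_ifs with h <;> simp only [h, decide_eq_true_eq, iff_true, iff_false, not_not] <;> omega

lemma down_ind {P : ℕ → Prop} {T : ℕ} (h : ∀ i < T, P i → ∃ j, i < j ∧ j < T ∧ P j) :
    ∀ i < T, ¬ P i := by
  intro i hi
  induction hn : T - i using Nat.strong_induction_on generalizing i with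
  | _ n ih =>
    intro hp
    obtain ⟨j, h1, h2, h3⟩ := h i hi hp
    exact ih (T - j) (by omega) j h2 rfl h3

variable {V : Type}

/-- a box of `L` columns, `T` rows and `s` bits whose pointers name the values `π` -/
structure Box (f : Dir → V → V) (mk : V → Prop) (L T s : ℕ) (π : ℕ → ℕ → ℕ) (e : ℕ → ℕ → ℕ → V) :
    Prop where
  hs : T ≤ 2 ^ s
  hL : L + 2 ≤ T
  eq : ∀ {g g' i i' k k'}, g < L → g' < L → i < T → i' < T → k < s → k' < s →
    (e g i k = e g' i' k' ↔ g = g' ∧ i = i' ∧ k = k')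
  U : ∀ {g i k}, g < L → i < T → k < s → f dU (e g i k) = e g (i - 1) k
  D : ∀ {g i k}, g < L → i < T → k < s → f dD (e g i k) = e g (if i + 1 < T then i + 1 else i) k
  R : ∀ {g i k}, g + 1 < L → i < T → k < s → f dR (e g i k) = e (g + 1) i k
  Y : ∀ {g i k}, g < L → i < T → k < s → f dY (e g i k) = e g i (k - 1)
  X : ∀ {g i k}, g < L → i < T → k < s → f dX (e g i k) = e g i (if k + 1 < s then k + 1 else k)
  P : ∀ {g i}, g < L → 0 < i → i < T → (π g i < i ∧ ∀ k < s, f dV (e g i k) = e g (π g i) k) ∨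
    ∃ j, 0 < j ∧ j < i ∧ π g j = π g i ∧
      ∀ k < s, f dV (e g i k) = e g i k ∧ f dC (e g i k) = e g j k
  P' : ∀ {g i} (τ : Fin 5), g < L → i < T → τ = 3 ∨ τ = 4 →
    ∃ j, i ≤ j ∧ j < T ∧ f (τ, true) (e g i 0) = e g j 0
  M : ∀ {g i}, g < L → i < T → (mk (e g i 0) ↔ i = g + 2)

variable {f : Dir → V → V} {mk : V → Prop} {L T s : ℕ} {π : ℕ → ℕ → ℕ} {e : ℕ → ℕ → ℕ → V}
  {o : Fl → V → Prop} (B : Box f mk L T s π e)
  (H : ∀ {g i k}, g < L → i < T → k < s → Spec f mk o (e g i k)) {g : ℕ} (hg : g < L)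
include B

lemma Box.pos : 0 < s := by
  by_contra h
  have h1 := B.hs
  have h2 := B.hL
  rw [show s = 0 by omega] at h1
  omega

include H hg

lemma Box.nomis {τ : Fin 5} {g' i i' : ℕ} (hg' : g' < L) (hi : i < T) (hi' : i' < T)
    (hne : ¬ (g' = g ∧ i' = i)) (h : ∀ k < s, f (τ, false) (e g i k) = e g' i' k) (k : ℕ) :
    k < s → ¬ o (.mis τ) (e g i k) := by
  have ok : ∀ k < s, okd f τ (e g i k) := fun k hk => ⟨by
    rw [h k hk, Ne, B.eq hg' hg hi' hi hk hk]; tauto, by
    rw [h k hk, B.Y hg hi hk, B.Y hg' hi' hk, h _ (by omega)]⟩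
  induction k with
  | zero =>
    intro hk hm
    exact ((H hg hi hk).mis τ hm).elim (fun h => h (ok _ hk)) fun h => h.1 (B.Y hg hi hk)
  | succ k ih =>
    intro hk hm
    refine ((H hg hi hk).mis τ hm).elim (fun h => h (ok _ hk)) fun h => ih (by omega) ?_
    simpa [B.Y hg hi hk] using h.2

lemma Box.nomisU {i k : ℕ} (hi : i + 1 < T) (hk : k < s) : ¬ o (.mis 0) (e g (i + 1) k) :=
  B.nomis H hg hg hi (by omega : i < T) (by omega) (fun _ hk => B.U hg hi hk) k hk

lemma Box.in_left {i : ℕ} (hi : i < T) {k' : ℕ} (k : ℕ) :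
    k < s → k' ≤ k → o .inn (e g i k) → o .inn (e g i k') := by
  induction k with
  | zero => intro _ h; rw [Nat.le_zero.1 h]; exact id
  | succ k ih =>
    intro hk h hin
    rcases h.eq_or_lt with rfl | h
    · exact hin
    · exact ih (by omega) (by omega) (by simpa [B.Y hg hi hk] using (H hg hi hk).in1 hin)

lemma Box.in_up {k : ℕ} (hk : k < s) {i' : ℕ} (i : ℕ) :
    i < T → i' ≤ i → o .inn (e g i k) → o .inn (e g i' k) := by
  induction i with
  | zero => intro _ h; rw [Nat.le_zero.1 h]; exact id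
  | succ i ih =>
    intro hi h hin
    rcases h.eq_or_lt with rfl | h
    · exact hin
    · exact ih (by omega) (by omega) (by
        simpa [B.U hg hi hk] using ((H hg hi hk).in2 hin).resolve_left (B.nomisU H hg hi hk))

lemma Box.row {i : ℕ} (hi : i < T) (k : ℕ) : k < s → o .inn (e g i k) →
    (o .rt (e g i k) ↔ i = 0) ∧ (o .tv (e g i k) ↔ f dV (e g i 0) ≠ e g i 0) := by
  induction k with
  | zero =>
    intro hk hin
    refine ⟨?_, ((H hg hi hk).tv hin).1 (B.Y hg hi hk)⟩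
    rw [((H hg hi hk).rt hin).1 (B.Y hg hi hk), B.U hg hi hk, B.eq hg hg (by omega) hi hk hk]
    omega
  | succ k ih =>
    intro hk hin
    rw [((H hg hi hk).rt hin).2, ((H hg hi hk).tv hin).2, B.Y hg hi hk]
    exact ih (by omega) (B.in_left H hg hi _ hk (by omega) hin)

lemma Box.bits (i : ℕ) : i < T → ∀ k < s, o .inn (e g i k) →
    (o .zz (e g i k) ↔ 2 ^ k ∣ i) ∧ (o .xb (e g i k) ↔ i.testBit k) := by
  have key : ∀ i < T, (∀ k < s, o .inn (e g i k) → (o .zz (e g i k) ↔ 2 ^ k ∣ i) →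
      (o .xb (e g i k) ↔ i.testBit k)) → ∀ k < s, o .inn (e g i k) →
      (o .zz (e g i k) ↔ 2 ^ k ∣ i) ∧ (o .xb (e g i k) ↔ i.testBit k) := by
    intro i hi h k
    induction k with
    | zero =>
      intro hk hin
      have := iff_of_true (((H hg hi hk).zz hin).1 (B.Y hg hi hk)) (one_dvd i)
      exact ⟨this, h _ hk hin this⟩
    | succ k ih =>
      intro hk hin
      have h1 := ih (by omega) (B.in_left H hg hi _ hk (by omega) hin)
      have h2 := ((H hg hi hk).zz hin).2 (by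
        rw [B.Y hg hi hk, Ne, B.eq hg hg hi hi (by omega) hk]; omega)
      rw [B.Y hg hi hk, Nat.add_sub_cancel, h1.1, h1.2, ← dvd_succ_bit] at h2
      exact ⟨h2, h _ hk hin h2⟩
  induction i with
  | zero =>
    intro hi
    exact key 0 hi fun k hk hin _ => iff_of_false (((H hg hi hk).xb hin).1
      ((B.row H hg hi k hk hin).1.2 rfl)) (by simp)
  | succ i ih =>
    intro hi
    refine key _ hi fun k hk hin hz => ?_
    rw [((H hg hi hk).xb hin).2.resolve_left (B.nomisU H hg hi hk), B.U hg hi hk, hz,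
      Nat.add_sub_cancel, (ih (by omega) k hk (B.in_up H hg hk _ hi (by omega) hin)).2, bit_succ]

lemma Box.nohi {k : ℕ} (hk : k < s) (i : ℕ) : i < T → ¬ o .hi (e g i k) := by
  induction i with
  | zero =>
    exact fun hi h => ((H hg hi hk).hi h).2.2.1 ((B.row H hg hi k hk ((H hg hi hk).hi h).1).1.2 rfl)
  | succ i ih =>
    intro hi h
    obtain ⟨h1, h2, -, h4⟩ := (H hg hi hk).hi h
    have h5 : ¬ k + 1 < s := fun h => by
      rw [B.X hg hi hk, if_pos h, B.eq hg hg hi hi h hk] at h2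
      omega
    rw [B.U hg hi hk, B.X hg (by omega) hk, if_neg h5] at h4
    rcases h4 with h4 | h4 | h4 | h4
    · exact B.nomisU H hg hi hk h4
    · exact h4 rfl
    · exact ih (by omega) h4
    · rw [(B.bits H hg _ hi k hk h1).1, (B.bits H hg _ hi k hk h1).2, ← dvd_succ_bit,
        show k + 1 = s by omega] at h4
      have := Nat.le_of_dvd (by omega) h4
      have := B.hs
      omega

omit H in
lemma Box.down {i : ℕ} (hi : i < T) {P : V → Prop}
    (h : f dD (e g i 0) ≠ e g i 0 ∧ P (f dD (e g i 0))) : i + 1 < T ∧ P (e g (i + 1) 0) := by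
  rw [B.D hg hi B.pos] at h
  split_ifs at h with h1
  · exact ⟨h1, h.2⟩
  · exact absurd rfl h.1

lemma Box.noex {b : Bool} (h : ∀ i < T, ¬ bad f mk o b (e g i 0)) {i : ℕ} (hi : i < T) (k : ℕ) :
    k < s → ¬ o (.ex b) (e g i k) := by
  have h1 : ∀ i < T, ¬ o (.cu b) (e g i 0) := by
    intro i
    induction i with
    | zero =>
      exact fun hi hc => ((H hg hi B.pos).cu b hc).elim (h _ hi) fun h => h.1 (B.U hg hi B.pos)
    | succ i ih =>
      exact fun hi hc => ((H hg hi B.pos).cu b hc).elim (h _ hi)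
        fun h => ih (by omega) (by simpa [B.U hg hi B.pos] using h.2)
  have h2 : ∀ i < T, ¬ o (.cd b) (e g i 0) := down_ind fun i hi hc =>
    ⟨i + 1, by omega, B.down hg hi (((H hg hi B.pos).cd b hc).resolve_left (h _ hi))⟩
  induction k with
  | zero =>
    exact fun hk hc => ((H hg hi hk).ex b hc).elim (fun h => h.1 (B.Y hg hi hk))
      fun h => h.2.elim (h1 i hi) (h2 i hi)
  | succ k ih =>
    intro hk hc
    rcases (H hg hi hk).ex b hc with h3 | h3
    · exact ih (by omega) (by simpa [B.Y hg hi hk] using h3.2)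
    · rw [B.Y hg hi hk, B.eq hg hg hi hi (by omega) hk] at h3
      omega

lemma Box.nobadP {i : ℕ} (hi : i < T) : ¬ bad f mk o true (e g i 0) := by
  have hk := B.pos
  have h1 : ∀ i < T, o .inn (e g i 0) → ∀ j, o (.col j) (e g i 0) ↔ o (.col j) (e g 0 0) := by
    intro i
    induction i with
    | zero => exact fun _ _ _ => Iff.rfl
    | succ i ih =>
      intro hi hin j
      rw [(H hg hi hk).col hin (B.Y hg hi hk), B.U hg hi hk]
      exact ih (by omega) (B.in_up H hg hk _ hi (by omega) hin) j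
  have h2 : ∀ i < T, ¬ (o .cl (e g i 0) ∨ o .fl (e g i 0)) := by
    refine down_ind fun i hi hc => ?_
    have a1 : ∀ τ : Fin 5, τ = 3 ∨ τ = 4 → f (τ, true) (e g i 0) ≠ e g i 0 ∧
        o .cl (f (τ, true) (e g i 0)) →
        ∃ j, i < j ∧ j < T ∧ (o .cl (e g j 0) ∨ o .fl (e g j 0)) := fun τ hτ h => by
      obtain ⟨j, a1, a2, a3⟩ := B.P' τ hg hi hτ
      rw [a3] at h
      exact ⟨j, lt_of_le_of_ne a1 (by rintro rfl; exact h.1 rfl), a2, Or.inl h.2⟩
    have a2 := fun h => (B.down hg hi (P := o .fl) h).imp_right (Or.inr (a := o .cl (e g (i + 1) 0)))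
    rcases hc with hc | hc
    · exact ⟨i + 1, by omega, a2 ((H hg hi hk).cl hc)⟩
    · rcases (H hg hi hk).fl hc with h | h | h
      · exact a1 3 (Or.inl rfl) h
      · exact a1 4 (Or.inr rfl) h
      · exact ⟨i + 1, by omega, a2 h⟩
  rintro (⟨h, -⟩ | ⟨-, a1, a2, a3⟩)
  · simp at h
  have h0 : 0 < i := Nat.pos_of_ne_zero (by rintro rfl; exact a1 (B.U hg hi hk))
  have h3 : ∀ j < i, ¬ off o (e g i 0) (e g j 0) := fun j hj h => by
    have := B.in_up H hg hk i hi hj.le a2
    exact h.elim (fun h => h this) fun ⟨c, h⟩ => h ((h1 i hi a2 c).trans (h1 j (by omega) this c).symm)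
  rcases B.P hg h0 hi with ⟨b1, b2⟩ | ⟨j, -, b1, -, b2⟩
  · rw [b2 0 hk] at a3
    rcases a3 with h | h | h
    · exact h3 _ b1 h.2
    · rw [B.eq hg hg (by omega) hi hk hk] at h
      omega
    · exact h2 i hi (Or.inl h)
  · rw [(b2 0 hk).1, (b2 0 hk).2, B.eq hg hg (b1.trans hi) hi hk hk] at a3
    rcases a3 with h | ⟨-, h | h⟩ | h
    · exact h.1 rfl
    · exact b1.ne h.2.1
    · exact h3 _ b1 h
    · exact h2 i hi (Or.inl h)

lemma Box.val {k : ℕ} (hk : k < s) (i : ℕ) : 0 < i → i < T → o .inn (e g i k) →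
    (o .pb (e g i k) ↔ (π g i).testBit k) := by
  induction i using Nat.strong_induction_on with
  | _ i ih =>
    intro h0 hi hin
    obtain ⟨h1, h2⟩ := B.row H hg hi k hk hin
    obtain ⟨h3, h4⟩ := (((H hg hi hk).pp hin).resolve_left fun h => h0.ne' (h1.1 h)).resolve_left
      (B.noex H hg (fun i hi => B.nobadP H hg hi) hi k hk)
    rcases B.P hg h0 hi with ⟨b1, b2⟩ | ⟨j, b0, b1, b3, b2⟩
    · rw [(h3 (h2.2 (by rw [b2 0 B.pos, Ne, B.eq hg hg (by omega) hi B.pos B.pos]; omega))).resolve_left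
        (B.nomis H hg hg hi (by omega) (by omega) b2 k hk), b2 k hk]
      exact (B.bits H hg _ (by omega) k hk (B.in_up H hg hk i hi b1.le hin)).2
    · rw [(h4 fun h => h2.1 h (b2 0 B.pos).1).resolve_left
        (B.nomis H hg hg hi (by omega : j < T) (by omega) (fun k hk => (b2 k hk).2) k hk),
        (b2 k hk).2, ← b3]
      exact ih j b1 b0 (by omega) (B.in_up H hg hk i hi b1.le hin)

omit hg in
lemma Box.same {i k : ℕ} (hi : i < T) (hk : k < s) (g : ℕ) : g < L →
    (o .inn (e g i k) ↔ o .inn (e 0 i k)) ∧ (o .hb (e g i k) ↔ o .hb (e 0 i k)) := by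
  induction g with
  | zero => exact fun _ => ⟨Iff.rfl, Iff.rfl⟩
  | succ g ih =>
    intro hg'
    have hg : g < L := by omega
    have h0 := B.pos
    have hL := B.hL
    have h1 := ((H hg hi hk).hh.resolve_left (B.nomis H hg hg' hi hi (by omega)
      (fun k hk => B.R hg' hi hk) k hk)).resolve_left (B.noex H hg (fun i hi => ?_) hi k hk)
    · rw [B.R hg' hi hk] at h1
      exact ⟨h1.1.symm.trans (ih hg).1, h1.2.symm.trans (ih hg).2⟩
    rintro (⟨-, h⟩ | ⟨h, -⟩)
    swap
    · simp at h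
    have a1 : i - 1 < T := by omega
    have a2 : (if i + 1 < T then i + 1 else i) < T := by split_ifs <;> omega
    refine h ?_
    simp only [okR, B.R hg' hi h0, B.U hg hi h0, B.U hg' hi h0, B.R hg' a1 h0, B.D hg hi h0,
      B.D hg' hi h0, Ne, B.eq hg' hg hi hi h0 h0, B.eq hg hg a1 hi h0 h0, B.eq hg' hg' a1 hi h0 h0,
      B.eq hg hg a2 hi h0 h0, B.eq hg' hg' a2 hi h0 h0, B.M hg' hi, B.M hg a1, B.M hg hi]
    split_ifs <;> simp <;> omega

theorem Box.wit : ∃ i k, 0 < i ∧ i < T ∧ k < s ∧ o .inn (e 0 i k) ∧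
    ¬ (o .hb (e 0 i k) ↔ (π g i).testBit k) := by
  by_contra hc
  have h0 := B.pos
  have hL := B.hL
  have h1 : ∀ i, 0 < i → i < T → ¬ o .wr (e g i 0) := fun i a1 hi => by
    refine down_ind (P := fun k => o .wr (e g i k)) (fun k hk h => ?_) 0 h0
    obtain ⟨a2, a3 | a3 | a3⟩ := (H hg hi hk).wr h
    · exact absurd ⟨i, k, a1, hi, hk, (B.same H hi hk g hg).1.1 a2, by
        rwa [← (B.same H hi hk g hg).2, ← B.val H hg hk i a1 hi a2]⟩ hc
    · exact absurd a3 (B.nohi H hg hk i hi)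
    · rw [B.X hg hi hk] at a3
      split_ifs at a3 with a4
      · exact ⟨k + 1, by omega, a4, a3.2⟩
      · exact absurd rfl a3.1
  have h2 : ∀ i < T, ¬ o .w (e g i 0) := down_ind fun i hi h =>
    ⟨i + 1, by omega, B.down hg hi (((H hg hi h0).w h).resolve_left fun h =>
      h1 i (Nat.pos_of_ne_zero (by rintro rfl; exact h.2 (B.U hg hi h0))) hi h.1)⟩
  have h3 : ∀ i < g + 3, ¬ o .nm (e g i 0) := down_ind fun i hi h => by
    obtain ⟨a1, a2⟩ := (H hg (by omega) h0).nm h
    rw [B.M hg (by omega)] at a1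
    rw [B.D hg (by omega) h0, if_pos (by omega), B.eq hg hg (by omega) (by omega) h0 h0] at a2
    exact ⟨i + 1, by omega, by omega, a2.resolve_left (by omega)⟩
  have hT : 0 < T := by omega
  rcases ((H hg hT h0).root (B.Y hg hT h0) (B.U hg hT h0)).2 with h | h | h | h | h
  · exact h2 0 hT h
  · exact B.noex H hg (fun i hi => B.nobadP H hg hi) hT 0 h0 h
  · exact h3 0 (by omega) h
  · rw [B.M hg hT] at h
    omega
  · rw [B.D hg hT h0, if_pos (by omega), B.M hg (by omega)] at h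
    omega

theorem Box.small {i : ℕ} (h0 : 0 < i) (hi : i < T) :
    ∃ j < i, ∀ k < s, o .inn (e g i k) → (o .hb (e g i k) ↔ j.testBit k) := by
  classical
  have ext : ∀ j k, j < 2 ^ k → ∀ b : Prop, ∀ k' ≤ k,
      ((j + if b then 2 ^ k else 0).testBit k' ↔ if k' = k then b else j.testBit k') := by
    intro j k hj b k' hk'
    rcases hk'.eq_or_lt with rfl | hk'
    · by_cases hb : b
      · simp [hb, add_comm j, Nat.testBit_two_pow_add_eq, Nat.testBit_lt_two_pow hj]
      · simp [hb, Nat.testBit_lt_two_pow hj]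
    · by_cases hb : b
      · simp [hb, add_comm j, Nat.testBit_two_pow_add_gt hk', hk'.ne]
      · simp [hb, hk'.ne]
  have key : ∀ k, ∃ j < 2 ^ k, (∀ k' < k, (o .hb (e g i k') ↔ j.testBit k')) ∧
      (0 < k → k ≤ s → o .inn (e g i (k - 1)) → o .lt (e g i (k - 1)) → j < i % 2 ^ k) := by
    intro k
    induction k with
    | zero => exact ⟨0, by simp, by simp, by simp⟩
    | succ k ih =>
      obtain ⟨j, a1, a2, a3⟩ := ih
      refine ⟨j + if o .hb (e g i k) then 2 ^ k else 0, by split_ifs <;> omega, fun k' hk' => ?_,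
        fun _ hk hin hl => ?_⟩
      · rw [ext j k a1 _ k' (by omega)]
        split_ifs with h
        · rw [h]
        · exact a2 k' (by omega)
      · rw [Nat.add_sub_cancel] at hin hl
        have a4 := (B.bits H hg i hi k hk hin).2
        rw [mod_succ_bit]
        rcases (H hg hi hk).lt hl with h | ⟨b1, b2, b3⟩
        · rw [if_neg h.1, if_pos (a4.1 h.2)]
          omega
        · rw [B.Y hg hi hk] at b2 b3
          have := a3 (Nat.pos_of_ne_zero (by rintro rfl; exact b2 rfl)) (by omega)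
            (B.in_left H hg hi k hk (by omega) hin) b3
          rw [if_congr (b1.trans a4) rfl rfl]
          omega
  by_cases h : o .inn (e g i 0)
  swap
  · exact ⟨0, h0, fun k hk hin => absurd (B.in_left H hg hi k hk (by omega) hin) h⟩
  obtain ⟨K, a1, a2, a3⟩ : ∃ K < s, o .inn (e g i K) ∧ ¬ (K + 1 < s ∧ o .inn (e g i (K + 1))) := by
    by_contra hc
    refine down_ind (P := fun k => o .inn (e g i k)) (fun k hk hin => ?_) 0 B.pos h
    have := by_contra fun h' => hc ⟨k, hk, hin, h'⟩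
    exact ⟨k + 1, by omega, this⟩
  obtain ⟨j, -, b2, b3⟩ := key (K + 1)
  have a4 := (H hg hi a1).last a2 (by
    rw [B.X hg hi a1]
    split_ifs with h1
    · exact Or.inr fun h2 => a3 ⟨h1, h2⟩
    · exact Or.inl rfl)
  refine ⟨j, (b3 (by omega) a1 a2 ((a4.resolve_right fun h => h.elim (B.nohi H hg a1 i hi) fun h =>
    h0.ne' ((B.row H hg hi K a1 a2).1.1 h)))).trans_le (Nat.mod_le _ _), fun k hk hin => b2 k ?_⟩
  by_contra hc
  exact a3 ⟨by omega, B.in_left H hg hi k hk (by omega) hin⟩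

end Pool.Agent.Lib.MP_559647_lc
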