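import Pool.Agent.Lib.MP_559647_lc.X55Cnt
import Pool.Agent.Lib.MP_559647_lc.X55Low

/-!
The algorithm: every node reads a bounded part of its row and of its column.
-/

namespace Pool.Agent.Lib.MP_559647_lc

open Function

/-- what is recorded about a row -/
structure Row (V : Type) where
  /-- its head -/
  nd : V
  /-- the target of its pointer -/
  tg : V
  /-- the pointer names a value -/
  tv : Prop
  /-- marked -/
  ma : Prop
  /-- last row -/
  fx : Prop

/-- what a node knows -/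
structure Dat (V : Type) where
  /-- bit index -/
  k : ℕ
  /-- row index -/
  i : ℕ
  /-- chosen value -/
  h : ℕ
  /-- colour -/
  cl : ℕ
  /-- column -/
  c : ℕ → Row V
  /-- head -/
  hy : Prop
  /-- last bit -/
  hx : Prop
  /-- no mark below -/
  nm : Prop
  /-- defect above -/
  cu : Prop
  /-- defect below -/
  cd : Prop
  /-- defect seen from the head -/
  ex : Prop
  /-- misaligned -/
  mis : Fin 5 → Prop

section

variable {V : Type} (m : ℕ) (ω : ℕ → ℕ) (c : ℕ → Row V)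

/-- the last row -/
noncomputable def cH : ℕ := lst (fun j => (c j).fx) m

/-- the earlier row that is the target -/
noncomputable def cJ (i : ℕ) : ℕ := lst (fun j => (c j).nd = (c i).tg) i

open Classical in
/-- the value named by the pointers -/
noncomputable def cP (i : ℕ) : ℕ :=
  if cJ c i < i then (if (c i).tv then cJ c i else cP (cJ c i)) else 0
termination_by i

/-- the first row with a broken pointer -/
noncomputable def cE : ℕ := lst (fun j => 0 < j ∧ j ≤ cH m c ∧ cJ c j = j) m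

/-- the first marked row -/
noncomputable def cD : ℕ := lst (fun j => (c j).ma) (cH m c + 1)

/-- a witness row -/
def cW (j : ℕ) : Prop := 0 < j ∧ j < m ∧ j ≤ cH m c ∧ (cH m c < m → j = cD m c ∧ 2 ≤ j) ∧
  (¬ cH m c < m → ω j ≠ cP c j)

/-- the target of the broken pointer is further down -/
def cT (i : ℕ) : Prop := ∃ j, i ≤ j ∧ j ≤ cH m c ∧ j < m ∧ (c j).nd = (c (cE m c)).tg

lemma cP_le (i : ℕ) : cP c i ≤ i - 1 := by
  induction i using Nat.strong_induction_on with
  | _ i ih =>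
    rw [cP]
    split_ifs with h1 h2
    · omega
    · have := ih _ h1
      omega
    · omega

/-- the flags -/
def flg (x : Dat V) : Fl → Prop
  | .inn => x.k < m ∧ x.i < m
  | .rt => x.i = 0
  | .tv => (x.c x.i).tv
  | .xb => x.i.testBit x.k
  | .zz => 2 ^ x.k ∣ x.i
  | .hb => (x.k < m ∧ x.i < m) ∧ x.h.testBit x.k
  | .pb => (cP x.c x.i).testBit x.k
  | .hi => (x.k < m ∧ x.i < m) ∧ x.hx ∧ 2 ^ (x.k + 1) ≤ x.i
  | .lt => (x.k < m ∧ x.i < m) ∧ x.h % 2 ^ (x.k + 1) < x.i % 2 ^ (x.k + 1)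
  | .w => x.hy ∧ x.i < m ∧ ∃ j, x.i ≤ j ∧ cW m ω x.c j
  | .wr => (x.k < m ∧ x.i < m) ∧ 0 < x.i ∧ x.h ≠ cP x.c x.i ∧ x.h % 2 ^ x.k = cP x.c x.i % 2 ^ x.k
  | .nm => x.nm
  | .cl => x.hy ∧ x.i < m ∧ x.i = cE m x.c ∧ cT m x.c (x.i + 1)
  | .fl => x.hy ∧ x.i < m ∧ cE m x.c < x.i ∧ cT m x.c x.i
  | .mis τ => x.mis τ
  | .ex false => x.ex
  | .ex true => (x.k < m ∧ x.i < m) ∧ cE m x.c < m
  | .cu false => x.cu
  | .cu true => x.hy ∧ x.i < m ∧ cE m x.c ≤ x.i
  | .cd false => x.cd
  | .cd true => x.hy ∧ x.i < m ∧ cE m x.c < m ∧ x.i ≤ cE m x.c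
  | .col j => x.cl = j

end

section

variable {V : Type} (f : Dir → V → V) (mk : V → Prop) (m : ℕ) (ω : ℕ → ℕ) (clr : V → ℕ)

/-- bit index -/
noncomputable def kk (z : V) : ℕ := cnt (f dY) m z

/-- head of the row -/
def hd (z : V) : V := (f dY)^[m] z

/-- row index -/
noncomputable def ii (a : V) : ℕ := cnt (f dU) m a

/-- root of the column -/
def rt (a : V) : V := (f dU)^[m] a

open Classical in
/-- target of the pointer -/
noncomputable def tg (a : V) : V := if f dV a ≠ a then f dV a else f dC a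

/-- the record of a row -/
noncomputable def rowOf (a : V) : Row V := ⟨a, tg f a, f dV a ≠ a, mk a, f dD a = a⟩

/-- the records of a column -/
noncomputable def col (ρ : V) (j : ℕ) : Row V := rowOf f mk (sq (f dD) m ρ j)

/-- the named value of a row -/
noncomputable def pv (a : V) : ℕ := cP (col f mk m (rt f m a)) (ii f m a)

/-- the node on the diagonal -/
def sh (d i : ℕ) (a : V) : V := if d ≤ i then (f dR)^[i - d] a else (f dL)^[d - i] a

open Classical in
/-- the value chosen from the data -/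
noncomputable def hf (c : ℕ → Row V) (i p : ℕ) : ℕ :=
  if cH m c < m then (if cD m c ≤ cH m c ∧ 2 ≤ i ∧ p = 0 then 1 else 0) else ω i

/-- the chosen value of a row -/
noncomputable def hv (a : V) : ℕ := hf m ω (col f mk m (rt f m a)) (ii f m a)
  (pv f mk m (sh f (cD m (col f mk m (rt f m a))) (ii f m a) a))

/-- the column reached by the broken pointer -/
noncomputable def gam (ρ : V) : V :=
  if cE m (col f mk m ρ) < m then rt f m (tg f (sq (f dD) m ρ (cE m (col f mk m ρ)))) else ρ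

/-- defect above -/
def cuv (a : V) : Prop := anyS (f dU) m (fun w => ¬ okR f mk w) a

/-- defect below -/
def cdv (a : V) : Prop := ∃ j, j + ii f m a ≤ m ∧ ¬ okR f mk (sq (f dD) m a j)

/-- the knowledge of a node -/
noncomputable def dat (z : V) : Dat V :=
  ⟨kk f m z, ii f m (hd f m z), hv f mk m ω (hd f m z), clr (rt f m (hd f m z)),
    col f mk m (rt f m (hd f m z)), f dY z = z, f dX z = z,
    cnt (f dD) m z < m ∧ ¬ anyS (f dD) m mk z, cuv f mk m z, cdv f mk m z,
    kk f m z < m ∧ (cuv f mk m (hd f m z) ∨ cdv f mk m (hd f m z)),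
    fun τ => anyS (f dY) m (fun w => ¬ okd f τ w) z⟩

/-- the output flags -/
def out (F : Fl) (z : V) : Prop := flg m ω (dat f mk m ω clr z) F

end

variable {V : Type} {f : Dir → V → V} {mk : V → Prop} {m : ℕ} {ω : ℕ → ℕ} {clr : V → ℕ}
  {z a ρ : V} {j : ℕ}

lemma hd_head (h : f dY z = z) : hd f m z = z := iterate_fixed h m

lemma hd_Y (h : kk f m z < m) : hd f m (f dY z) = hd f m z := end_next' h

lemma col_eq (h : j ≤ m) : col f mk m ρ j = rowOf f mk ((f dD)^[j] ρ) := by rw [col, sq_of_le h]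

lemma cH_col : cH m (col f mk m ρ) = cnt (f dD) m ρ := rfl

lemma hv_lt (hω : ∀ i, 0 < i → i < m → ω i < i) (h0 : 0 < ii f m a) (h : ii f m a < m) :
    hv f mk m ω a < ii f m a := by
  have := hω _ h0 h
  unfold hv hf
  split_ifs <;> omega

variable (H1 : ∀ d v, f d v ≠ v → f d.inv (f d v) = v)
  (H2 : ∀ d : Dir, d.1 ≠ 2 → ∀ v, f dY v = v ↔ f dY (f d v) = f d v)

include H2 in
lemma head_iter {d : Dir} (hd : d.1 ≠ 2) (h : f dY a = a) (j : ℕ) :
    f dY ((f d)^[j] a) = (f d)^[j] a := by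
  induction j with
  | zero => exact h
  | succ j ih => rw [iterate_succ_apply']; exact (H2 d hd _).1 ih

include H2 in
lemma nomis {τ : Fin 5} (hτ : τ ≠ 2) (h : ¬ anyS (f dY) m (fun w => ¬ okd f τ w) z) :
    kk f m (f (τ, false) z) = kk f m z ∧ hd f m (f (τ, false) z) = f (τ, false) (hd f m z) ∧
      f (τ, false) (hd f m z) ≠ hd f m z := by
  have h1 : ∀ j ≤ m, okd f τ ((f dY)^[j] z) := fun j hj =>
    by_contra fun h' => h (anyS_iff.2 ⟨j, hj, h'⟩)
  exact ⟨align_cnt (fun j hj => (h1 j hj.le).2) fun j _ => H2 (τ, false) hτ _,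
    align (fun j hj => (h1 j hj.le).2) m le_rfl, (h1 m le_rfl).1⟩

include H1

lemma up_down (h : ii f m a < m) : f dU (rt f m a) = rt f m a ∧
    ii f m a ≤ cnt (f dD) m (rt f m a) ∧
    ∀ j ≤ ii f m a, (f dD)^[j] (rt f m a) = (f dU)^[ii f m a - j] a := by
  have e : rt f m a = (f dU)^[ii f m a] a := iter_stab h h.le
  refine ⟨end_fix h, ?_, fun j hj => ?_⟩ <;> rw [e]
  · exact back_cnt (H1 dU) le_rfl
  · exact back (H1 dU) le_rfl j hj

lemma rt_row (h : ii f m a < m) : (f dD)^[ii f m a] (rt f m a) = a := by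
  simpa using (up_down H1 h).2.2 _ le_rfl

lemma col_ii (h : ii f m a < m) : col f mk m (rt f m a) (ii f m a) = rowOf f mk a := by
  rw [col_eq h.le, rt_row H1 h]

lemma down_up (h : f dU ρ = ρ) (hj : j ≤ cnt (f dD) m ρ) (hm : j < m) :
    ii f m ((f dD)^[j] ρ) = j ∧ rt f m ((f dD)^[j] ρ) = ρ := by
  have e : (f dU)^[j] ((f dD)^[j] ρ) = ρ := by simpa using back (g' := f dU) (H1 dD) hj j le_rfl
  have e1 : ii f m ((f dD)^[j] ρ) = j :=
    le_antisymm (cnt_le_of (by rw [e, h])) (back_cnt (g' := f dU) (H1 dD) hj)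
  refine ⟨e1, (iter_stab (e1.trans_lt hm) (e1.trans_lt hm).le).trans ?_⟩
  rwa [show cnt (f dU) m ((f dD)^[j] ρ) = j from e1]

lemma down_step (h : ii f m a + 1 < m) (h' : ii f m a < cnt (f dD) m (rt f m a)) :
    f dD a ≠ a ∧ ii f m (f dD a) = ii f m a + 1 ∧ rt f m (f dD a) = rt f m a := by
  have h1 := cnt_min h'
  have h2 := down_up H1 (up_down H1 (by omega : ii f m a < m)).1 h' h
  rw [iterate_succ_apply', rt_row H1 (by omega)] at h2
  rw [rt_row H1 (by omega)] at h1
  exact ⟨h1, h2⟩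

lemma next_bit (h : kk f m z < m) (hx : f dX z ≠ z) :
    kk f m (f dX z) = min (kk f m z + 1) m ∧ hd f m (f dX z) = hd f m z := by
  have e : f dY (f dX z) = z := H1 dX z hx
  have h1 := cnt_step (g := f dY) (n := m) (z := f dX z) (by rw [e]; exact hx.symm)
  have h2 := end_next (g := f dY) (n := m) (z := f dX z) (by rwa [e])
  rw [e] at h1 h2
  exact ⟨h1, h2.symm⟩

omit H1 in
lemma strip1 (h : ¬ cuv f mk m a) : ii f m (f dR a) = ii f m a ∧
    rt f m (f dR a) = f dR (rt f m a) := by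
  have h1 : ∀ j ≤ m, okR f mk ((f dU)^[j] a) := fun j hj =>
    by_contra fun h' => h (anyS_iff.2 ⟨j, hj, h'⟩)
  exact ⟨align_cnt (fun j hj => (h1 j hj.le).2.1) fun j hj => (h1 j hj.le).2.2.1,
    align (fun j hj => (h1 j hj.le).2.1) m le_rfl⟩

lemma strip2 (hi : ii f m a < m) (h : ¬ cuv f mk m a) (h' : ¬ cdv f mk m a) :
    hv f mk m ω (f dR a) = hv f mk m ω a := by
  obtain ⟨e1, e2⟩ := strip1 h
  obtain ⟨u1, u2, u3⟩ := up_down H1 hi
  have u4 := rt_row H1 hi
  have h0 : f dR a ≠ a := (by_contra fun h' => h (anyS_iff.2 ⟨0, m.zero_le, h'⟩) : okR f mk a).1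
  unfold hv
  rw [e1, e2]
  generalize rt f m a = ρ at *
  have h1 : ∀ j ≤ m, okR f mk ((f dD)^[j] ρ) := fun j hj => by
    by_contra h2
    by_cases h3 : j ≤ ii f m a
    · exact h (anyS_iff.2 ⟨_, by omega, u3 j h3 ▸ h2⟩)
    · refine h' ⟨j - ii f m a, by omega, ?_⟩
      rwa [sq_of_le (by omega), ← congrArg (f dD)^[j - ii f m a] u4, ← iterate_add_apply,
        Nat.sub_add_cancel (by omega)]
  have h2 : ∀ j < m, f dD (f dR ((f dD)^[j] ρ)) = f dR (f dD ((f dD)^[j] ρ)) := fun j hj => by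
    by_cases h3 : f dD ((f dD)^[j] ρ) = (f dD)^[j] ρ
    · rw [h3, (h1 j hj.le).2.2.2.1.1 h3]
    · have a1 := h1 (j + 1) hj
      have a2 : f dU (f dD _) = _ := H1 dD _ h3
      rw [iterate_succ_apply'] at a1
      have a3 : f dD (f dU _) = _ := H1 dU _ (mt a1.2.2.1.2 (by rw [a2]; exact Ne.symm h3))
      rwa [a1.2.1, a2] at a3
  have h3 : cH m (col f mk m (f dR ρ)) = cH m (col f mk m ρ) :=
    align_cnt h2 fun j hj => (h1 j hj.le).2.2.2.1
  unfold hf
  rw [h3]
  refine if_ctx_congr Iff.rfl (fun hs => ?_) fun _ => rfl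
  rw [cH_col] at hs ⊢
  have h4 : ∀ j ≤ cnt (f dD) m ρ, (col f mk m (f dR ρ) j).ma ↔
      0 < j ∧ (col f mk m ρ (j - 1)).ma := fun j hj => by
    rw [col_eq (by omega), col_eq (by omega), align h2 j (by omega)]
    refine (h1 j (by omega)).2.2.2.2.1.trans ?_
    cases j with
    | zero => simp [u1]
    | succ j =>
      have a1 := cnt_min (Nat.lt_of_succ_le hj)
      have a2 : f dU (f dD _) = _ := H1 dD _ a1
      rw [iterate_succ_apply', a2]
      simp [rowOf, a1.symm]
  have h5 : cD m (col f mk m ρ) ≠ cnt (f dD) m ρ := fun e => by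
    have a1 := lst_spec (P := fun j => (col f mk m ρ j).ma) (e.trans_lt (Nat.lt_succ_self _))
    rw [show lst _ _ = _ from e, col_eq hs.le] at a1
    exact (h1 _ hs.le).2.2.2.2.2 ⟨cnt_fix hs, a1⟩
  have h6 : cD m (col f mk m ρ) ≤ cnt (f dD) m ρ + 1 := lst_le _ _
  have h7 : cD m (col f mk m (f dR ρ)) = min (cD m (col f mk m ρ) + 1) (cnt (f dD) m ρ + 1) := by
    rw [cD, h3, cH_col]
    refine lst_eq (min_le_right _ _) (fun a1 => ?_) fun j hj => ?_
    · rw [h4 _ (by omega), min_eq_left (by omega)]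
      exact ⟨by omega, lst_spec (P := fun j => (col f mk m ρ j).ma) (n := cnt (f dD) m ρ + 1)
        (show cD m _ < _ by omega)⟩
    · rw [h4 _ (by omega)]
      exact fun a1 => lst_min (P := fun j => (col f mk m ρ j).ma) (n := cnt (f dD) m ρ + 1)
        (show _ < cD m _ by omega) a1.2
  generalize cD m (col f mk m ρ) = d at *
  by_cases h8 : d ≤ cnt (f dD) m ρ
  · rw [h7, min_eq_left (by omega)]
    have : sh f (d + 1) (ii f m a) (f dR a) = sh f d (ii f m a) a := by
      unfold sh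
      split_ifs with a1 a2 a2
      · rw [← iterate_succ_apply, show (ii f m a - (d + 1)).succ = ii f m a - d by omega]
      · omega
      · rw [show d + 1 - ii f m a = 1 by omega, show ii f m a - d = 0 by omega]
        exact H1 dR a h0
      · rw [show d + 1 - ii f m a = d - ii f m a + 1 by omega, iterate_succ_apply]
        exact congrArg _ (H1 dR a h0)
    rw [this]
    exact if_congr (and_congr_left' (by omega)) rfl rfl
  · rw [if_neg (by omega), if_neg (by omega)]

end Pool.Agent.Lib.MP_559647_lc
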