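import Pool.Agent.Lib.MP_559647_lc.X55Emb
import Pool.Agent.Lib.MP_559647_lc.X55Low

/-!
The box as a graph, and the deterministic lower bound.
-/

namespace Pool.Agent.Lib.MP_559647_lc

open Finset

/-- the last earlier row with the same value, or zero -/
def cp (π : ℕ → ℕ) (i : ℕ) : ℕ := Nat.findGreatest (fun j => π j = π i) (i - 1)

/-- the row reached by a move -/
def im (π : ℕ → ℕ) (τ : Fin 5) (i : ℕ) : ℕ :=
  if τ = 0 then i - 1 else if τ = 3 then (if cp π i = 0 ∧ π i < i then π i else i)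
  else if τ = 4 then (if cp π i = 0 then i else cp π i) else i

lemma cp_le (π : ℕ → ℕ) (i : ℕ) : cp π i ≤ i - 1 := Nat.findGreatest_le _

lemma cp_val {π : ℕ → ℕ} {i : ℕ} (h : cp π i ≠ 0) : π (cp π i) = π i :=
  Nat.findGreatest_of_ne_zero (P := fun j => π j = π i) rfl h

lemma le_cp {π : ℕ → ℕ} {i j : ℕ} (h : j < i) (e : π j = π i) : j ≤ cp π i :=
  Nat.le_findGreatest (by omega) e

lemma im_le (π : ℕ → ℕ) (τ : Fin 5) (i : ℕ) : im π τ i ≤ i := by
  have := cp_le π i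
  unfold im
  split_ifs <;> omega

lemma im_inj (π : ℕ → ℕ) (τ : Fin 5) {i j : ℕ}
    (hi : im π τ i ≠ i) (hj : im π τ j ≠ j) (h : im π τ i = im π τ j) : i = j := by
  wlog hij : i < j generalizing i j
  · exact (Nat.lt_or_eq_of_le (not_lt.1 hij)).elim (fun h' => (this hj hi h.symm h').symm) Eq.symm
  have a1 := cp_le π i
  have a2 := cp_val (π := π) (i := i)
  have a3 := cp_val (π := π) (i := j)
  have a4 := le_cp (π := π) hij
  unfold im at hi hj h
  split_ifs at hi hj h <;> first | omega | skip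
  rw [← h] at a3
  omega

variable {L T s : ℕ}

/-- the moves in the box -/
def bsc (π : ℕ → ℕ → ℕ) (τ : Fin 5) (a : Fin L × Fin T × Fin s) : Fin L × Fin T × Fin s :=
  (if h : τ = 1 ∧ a.1.val + 1 < L then ⟨_, h.2⟩ else a.1,
    ⟨im (π a.1) τ a.2.1, (im_le _ _ _).trans_lt a.2.1.2⟩,
    ⟨if τ = 2 then a.2.2.val - 1 else a.2.2, by have := a.2.2.2; split_ifs <;> omega⟩)

lemma bsc_eq (π : ℕ → ℕ → ℕ) (τ : Fin 5) (a b : Fin L × Fin T × Fin s) : bsc π τ a = b ↔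
    (if τ = 1 ∧ a.1.val + 1 < L then a.1.val + 1 else a.1) = b.1 ∧ im (π a.1) τ a.2.1 = b.2.1 ∧
      (if τ = 2 then a.2.2.val - 1 else a.2.2) = b.2.2 := by
  simp only [bsc, Prod.ext_iff, Fin.ext_iff]
  split_ifs <;> rfl

lemma im_id (π : ℕ → ℕ) {τ : Fin 5} (h : τ = 1 ∨ τ = 2) (i : ℕ) : im π τ i = i := by
  rcases h with rfl | rfl <;> simp [im]

lemma bsc_inj (π : ℕ → ℕ → ℕ) (τ : Fin 5)
    (a b : Fin L × Fin T × Fin s) (ha : bsc π τ a ≠ a) (hb : bsc π τ b ≠ b)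
    (h : bsc π τ a = bsc π τ b) : a = b := by
  rw [Ne, bsc_eq] at ha hb
  rw [bsc_eq] at h
  have e := (bsc_eq π τ b _).1 rfl
  rw [← e.1, ← e.2.1, ← e.2.2] at h
  simp only [Prod.ext_iff, Fin.ext_iff]
  by_cases h1 : τ = 1 ∨ τ = 2
  · rw [im_id _ h1] at ha hb h
    rw [im_id _ h1] at h
    rcases h1 with rfl | rfl <;> simp at ha hb h <;> [split_ifs at h; skip] <;> omega
  · have h2 : τ ≠ 1 := fun h => h1 (Or.inl h)
    have h3 : τ ≠ 2 := fun h => h1 (Or.inr h)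
    simp only [h2, h3, false_and, if_false, true_and, and_true] at ha hb h
    exact ⟨h.1, im_inj _ τ ha (h.1 ▸ hb) (h.2.1.trans (by rw [h.1])), h.2.2⟩

lemma bsc_head (π : ℕ → ℕ → ℕ) (τ : Fin 5) (h : τ ≠ 2) (a : Fin L × Fin T × Fin s) :
    bsc π 2 a = a ↔ bsc π 2 (bsc π τ a) = bsc π τ a := by
  have e := (bsc_eq π τ a _).1 rfl
  rw [bsc_eq, bsc_eq, im_id _ (Or.inr rfl), im_id _ (Or.inr rfl), ← e.2.2]
  simp [h]

variable {N : ℕ} (y : (Fin L × Fin T × Fin s) × Option Dir ↪ Fin N) (v₀ : Fin N)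

/-- the marked nodes -/
def bmk (a : Fin L × Fin T × Fin s) : Prop := a.2.1.val = a.1.val + 2 ∧ a.2.2.val = 0

/-- the node at a position -/
def be (g i k : ℕ) : Fin N :=
  if h : g < L ∧ i < T ∧ k < s then y ((⟨g, h.1⟩, ⟨i, h.2.1⟩, ⟨k, h.2.2⟩), none) else v₀

lemma be_eq {g i k : ℕ} (hg : g < L) (hi : i < T) (hk : k < s) :
    be y v₀ g i k = y ((⟨g, hg⟩, ⟨i, hi⟩, ⟨k, hk⟩), none) := dif_pos ⟨hg, hi, hk⟩

lemma box_ok {π : ℕ → ℕ → ℕ} (hπ : ∀ g i, 0 < i → i < T → π g i < i) (hs : T ≤ 2 ^ s)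
    (hL : L + 2 ≤ T) :
    Box (mv (ptrI y (bsc π) bmk)) (fun z => (ptrI y (bsc π) bmk).inp z = 1) L T s π (be y v₀) := by
  have fw : ∀ τ {g i k g' i' k' : ℕ}, g < L → i < T → k < s → g' < L → i' < T → k' < s →
      (if τ = 1 ∧ g + 1 < L then g + 1 else g) = g' → im (π g) τ i = i' →
      (if τ = 2 then k - 1 else k) = k' →
      mv (ptrI y (bsc π) bmk) (τ, false) (be y v₀ g i k) = be y v₀ g' i' k' := by
    intro τ g i k g' i' k' hg hi hk hg' hi' hk' e1 e2 e3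
    rw [be_eq y v₀ hg hi hk, be_eq y v₀ hg' hi' hk', mv_fw (bsc_inj π) (bsc_head π),
      (bsc_eq π τ _ (⟨g', hg'⟩, ⟨i', hi'⟩, ⟨k', hk'⟩)).2 ⟨e1, e2, e3⟩]
  have bw : ∀ τ, τ ≠ 1 → ∀ {g i k i' k' : ℕ}, g < L → i < T → k < s → i' < T → k' < s →
      ((im (π g) τ i' = i ∧ (if τ = 2 then k' - 1 else k') = k ∧ ¬ (i = i' ∧ k = k')) ∨
      (i' = i ∧ k' = k ∧ ∀ i' < T, ∀ k' < s, im (π g) τ i' = i →
        (if τ = 2 then k' - 1 else k') = k → i' = i ∧ k' = k)) →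
      mv (ptrI y (bsc π) bmk) (τ, true) (be y v₀ g i k) = be y v₀ g i' k' := by
    intro τ hτ g i k i' k' hg hi hk hi' hk' h
    rw [be_eq y v₀ hg hi hk, be_eq y v₀ hg hi' hk']
    refine mv_bw (bsc_inj π) (bsc_head π) τ (h.imp (fun h => ⟨(bsc_eq π τ _ _).2
      ⟨by simp [hτ], h.1, h.2.1⟩, by simpa using h.2.2⟩) fun h => ⟨by simp [h.1, h.2.1], ?_⟩)
    rintro ⟨⟨g', _⟩, ⟨j, hj⟩, ⟨l, hl⟩⟩ hc
    rw [bsc_eq] at hc
    simp only [hτ, false_and, if_false] at hc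
    obtain ⟨rfl, h1, h2⟩ := hc
    simpa using h.2.2 j hj l hl h1 h2
  have h0 : 0 < s := Nat.pos_of_ne_zero (by rintro rfl; omega)
  refine ⟨hs, hL, fun hg hg' hi hi' hk hk' => ?_, fun hg hi hk => ?_, fun {g i k} hg hi hk => ?_,
    fun hg hi hk => ?_, fun hg hi hk => ?_, fun {g i k} hg hi hk => ?_, fun {g i} hg h1 hi => ?_,
    fun {g i} τ hg hi hτ => ?_, fun hg hi => ?_⟩
  · simp [be_eq y v₀ hg hi hk, be_eq y v₀ hg' hi' hk']
  · exact fw 0 hg hi hk hg (by omega) hk (by simp) (by simp [im]) (by simp)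
  · refine bw 0 (by simp) hg hi hk (by split_ifs <;> omega) hk ?_
    clear fw bw
    by_cases h1 : i + 1 < T <;> simp [im, h1]
    omega
  · exact fw 1 (by omega) hi hk hg hi hk (by simp [hg]) (by simp [im]) (by simp)
  · exact fw 2 hg hi hk hg hi (by omega) (by simp) (by simp [im]) (by simp)
  · refine bw 2 (by simp) hg hi hk hi (by split_ifs <;> omega) ?_
    clear fw bw
    by_cases h1 : k + 1 < s <;> simp [im, h1]
    omega
  · have a1 := cp_le (π g) i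
    have a2 := hπ g i h1 hi
    by_cases h : cp (π g) i = 0
    · exact Or.inl ⟨a2, fun k hk =>
        fw 3 hg hi hk hg (by omega) hk (by simp) (by simp [im, h, a2]) (by simp)⟩
    · exact Or.inr ⟨_, Nat.pos_of_ne_zero h, by omega, cp_val h, fun k hk =>
        ⟨fw 3 hg hi hk hg hi hk (by simp) (by simp [im, h]) (by simp),
          fw 4 hg hi hk hg (by omega) hk (by simp) (by simp [im, h]) (by simp)⟩⟩
  · have a1 : τ ≠ 1 := by rcases hτ with rfl | rfl <;> simp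
    have a2 : τ ≠ 2 := by rcases hτ with rfl | rfl <;> simp
    by_cases h : ∃ j < T, im (π g) τ j = i ∧ j ≠ i
    · obtain ⟨j, b1, b2, b3⟩ := h
      exact ⟨j, b2 ▸ im_le _ _ _, b1, bw τ a1 hg hi h0 b1 h0
        (Or.inl ⟨b2, by simp, fun h => b3 h.1.symm⟩)⟩
    · exact ⟨i, le_rfl, hi, bw τ a1 hg hi h0 hi h0 (Or.inr ⟨rfl, rfl, fun j hj l _ b1 b2 =>
        ⟨by_contra fun b3 => h ⟨j, hj, b1, b3⟩, by simpa [a2] using b2⟩⟩)⟩
  · simp [be_eq y v₀ hg hi h0, ptrI_main, bmk]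

/-- more isolated nodes -/
def pad (I : Inst N) (Z : Finset (Fin N)) : Inst N :=
  ⟨I.S ∪ Z, I.G, I.inp, fun u v h => mem_union_left _ (I.mem_of_adj u v h)⟩

lemma mv_pad (I : Inst N) (Z : Finset (Fin N)) : mv (pad I Z) = mv I := funext fun d => funext fun _ =>
  (SameView.iso (t := 7) (I := I) (J := pad I Z) ⟨fun _ _ _ => Iff.rfl, fun _ _ => rfl⟩).mv_eq d
    (near_refl _ _) le_rfl

lemma ptrI_inp {W : Type} [Fintype W] (y : W × Option Dir ↪ Fin N) (sc : Fin 5 → W → W)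
    (mk : W → Prop) (x : Fin N) : (ptrI y sc mk).inp x ∈ range 12 := by
  by_cases h : ∃ p, y p = x
  · obtain ⟨p, rfl⟩ := h
    exact ptrI_lab _ (mem_map_of_mem _ (mem_univ _))
  · simp only [ptrI, Function.extend_apply' _ _ _ h]
    simp

theorem lower55 {r s n N : ℕ} (hs : r + 3 ≤ 2 ^ s) (hn : 11 * (r + 3) ^ 2 * s ≤ n) (hN : n ≤ N)
    {B : Inst N → Fin N → ℕ} (hB : DetLocal r B) : ∃ I : Inst N, I.S.card = n ∧ Deg 10 I ∧
      (∀ x ∈ I.S, I.inp x ∈ range 12) ∧ ¬ ∀ v ∈ I.S, accX N I (B I) v := by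
  by_contra hc
  have h0 : 0 < s := Nat.pos_of_ne_zero (by rintro rfl; omega)
  have hcard : Fintype.card ((Fin (r + 1) × Fin (r + 3) × Fin s) × Option Dir) ≤ n := by
    refine le_trans ?_ hn
    simp only [Fintype.card_prod, Fintype.card_fin, Fintype.card_option, Fintype.card_bool]
    nlinarith [Nat.zero_le (r * s)]
  let y : (Fin (r + 1) × Fin (r + 3) × Fin s) × Option Dir ↪ Fin N :=
    (Fintype.equivFin _).toEmbedding.trans (Fin.castLEEmb (hcard.trans hN))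
  obtain ⟨Z, z1, -, z2⟩ := exists_subsuperset_card_eq (subset_univ (univ.map y))
    (n := n) (by simpa using hcard) (by simpa using hN)
  let v₀ := y ((0, 0, ⟨0, h0⟩), none)
  let I := fun π => pad (ptrI y (bsc π) bmk) Z
  have H : ∀ π {g i k}, g < r + 1 → i < r + 3 → k < s → Spec (mv (ptrI y (bsc π) bmk))
      (fun z => (ptrI y (bsc π) bmk).inp z = 1) (fun F z => dec (B (I π) z) F) (be y v₀ g i k) := by
    intro π g i k hg hi hk
    have := by_contra fun h => hc ⟨I π, by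
      simp only [I, pad, ptrI, union_eq_right.2 z1, z2], ptrI_deg (mk := bmk) (bsc_inj π),
        fun x _ => ptrI_inp y (bsc π) bmk x, h⟩
    rw [← mv_pad _ Z]
    exact (this _ (mem_union_left _ (by
      rw [be_eq y v₀ hg hi hk]; exact mem_map_of_mem _ (mem_univ _)))).2
  have B0 := box_ok y v₀ (π := fun _ _ => 0) (fun _ _ h _ => h) hs le_rfl
  choose! j j1 j2 using fun i (h : 0 < i ∧ i < r + 3) =>
    B0.small (H _) (Nat.succ_pos r) h.1 h.2
  let π : ℕ → ℕ → ℕ := fun g i => if g = r then j i else 0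
  have B1 := box_ok y v₀ (π := π) (fun g i h1 h2 => by
    simp only [π]
    split_ifs
    · exact j1 i ⟨h1, h2⟩
    · exact h1) hs le_rfl
  obtain ⟨i, k, a1, a2, a3, a4, a5⟩ := B1.wit (H _) (Nat.lt_succ_self r)
  have e : B (I fun _ _ => 0) (be y v₀ 0 i k) = B (I π) (be y v₀ 0 i k) := by
    rw [be_eq y v₀ (Nat.succ_pos r) a2 a3]
    refine hB _ _ _ (ptrI_view (mk := bmk) (φ := fun a => a.1.val) (fun d a b h => ?_)
      (fun d a b h => ?_) rfl)
    · rcases h.2 with h | h <;> have := ((bsc_eq _ _ _ _).1 h.2).1 <;> split_ifs at this <;> omega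
    · have b1 : π a.1 = fun _ => 0 := funext fun _ => if_neg h.ne
      refine and_congr_right fun _ => or_congr (by simp only [bsc_eq, b1])
        (and_congr_right fun _ => ?_)
      by_cases b2 : b.1.val = r
      · simp only [bsc_eq, b2, lt_irrefl, and_false, if_false, h.ne', false_and]
      · have b3 : π b.1 = fun _ => 0 := funext fun _ => if_neg b2
        simp only [bsc_eq, b3]
  rw [← e] at a4 a5
  exact a5 (by simpa [π] using j2 i ⟨a1, a2⟩ k a3 a4)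

end Pool.Agent.Lib.MP_559647_lc
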