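import Pool.Agent.Lib.MP_559647_lc.X55Vol

/-!
Counting steps along the orbit of a map, with a budget.
-/

namespace Pool.Agent.Lib.MP_559647_lc

open Function

open Classical in
/-- the first index with the property, or `n` -/
noncomputable def lst (P : ℕ → Prop) (n : ℕ) : ℕ := Nat.find (⟨n, Or.inl rfl⟩ : ∃ j, j = n ∨ P j)

section

variable {P Q : ℕ → Prop} {n j c : ℕ}

lemma lst_le (P : ℕ → Prop) (n : ℕ) : lst P n ≤ n := by
  classical exact Nat.find_min' _ (Or.inl rfl)

lemma lst_le_of (h : P j) : lst P n ≤ j := by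
  classical exact Nat.find_min' _ (Or.inr h)

lemma lst_spec (h : lst P n < n) : P (lst P n) := by
  classical exact (Nat.find_spec (⟨n, Or.inl rfl⟩ : ∃ j, j = n ∨ P j)).resolve_left h.ne

lemma lst_min (h : j < lst P n) : ¬ P j := fun hp => absurd (lst_le_of hp) (not_le.2 h)

lemma lst_eq (h1 : c ≤ n) (h2 : c < n → P c) (h3 : ∀ j < c, ¬ P j) : lst P n = c := by
  refine le_antisymm ?_ (not_lt.1 fun h => h3 _ h (lst_spec (h.trans_le h1)))
  rcases h1.eq_or_lt with rfl | h
  · exact lst_le _ _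
  · exact lst_le_of (h2 h)

lemma lst_congr (h : ∀ j < n, P j ↔ Q j) : lst P n = lst Q n :=
  lst_eq (lst_le _ _) (fun h1 => (h _ h1).2 (lst_spec h1))
    fun j hj hp => lst_min hj ((h j (hj.trans_le (lst_le _ _))).1 hp)

end

variable {V : Type} {g g' t : V → V} {n j l c : ℕ} {z : V} {P : V → Prop}

lemma sq_of_le (h : j ≤ n) : sq g n z j = g^[j] z := by rw [sq, min_eq_left h]

/-- the number of steps until a fixed point, at most `n` -/
noncomputable def cnt (g : V → V) (n : ℕ) (z : V) : ℕ := lst (fun j => g (sq g n z j) = sq g n z j) n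

/-- some node among the first iterates has the property -/
def anyS (g : V → V) (n : ℕ) (P : V → Prop) (z : V) : Prop := ∃ j, P (sq g n z j)

lemma anyS_iff : anyS g n P z ↔ ∃ j ≤ n, P (g^[j] z) :=
  ⟨fun ⟨j, h⟩ => ⟨min j n, min_le_right _ _, h⟩, fun ⟨j, h, h'⟩ => ⟨j, by rwa [sq_of_le h]⟩⟩

lemma anyS.step (h : anyS g n P z) : P z ∨ (g z ≠ z ∧ anyS g n P (g z)) := by
  obtain ⟨j, h1, h2⟩ := anyS_iff.1 h
  by_cases h3 : g z = z
  · exact Or.inl (by rwa [iterate_fixed h3] at h2)
  · cases j with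
    | zero => exact Or.inl h2
    | succ j => exact Or.inr ⟨h3, anyS_iff.2 ⟨j, by omega, h2⟩⟩

lemma cnt_le (g : V → V) (n : ℕ) (z : V) : cnt g n z ≤ n := lst_le _ _

lemma cnt_fix (h : cnt g n z < n) : g (g^[cnt g n z] z) = g^[cnt g n z] z := by
  have := lst_spec h
  rwa [sq_of_le (lst_le _ _)] at this

lemma cnt_min (h : j < cnt g n z) : g (g^[j] z) ≠ g^[j] z := by
  have := lst_min h
  rwa [sq_of_le (h.le.trans (lst_le _ _))] at this

lemma cnt_le_of (h : g (g^[j] z) = g^[j] z) : cnt g n z ≤ j := not_lt.1 fun h' => cnt_min h' h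

lemma cnt_eq (h1 : c ≤ n) (h2 : c < n → g (g^[c] z) = g^[c] z)
    (h3 : ∀ j < c, g (g^[j] z) ≠ g^[j] z) : cnt g n z = c :=
  lst_eq h1 (by rwa [sq_of_le h1]) fun j hj => by
    rw [sq_of_le (hj.le.trans h1)]
    exact h3 j hj

lemma cnt_zero (h : g z = z) : cnt g n z = 0 := Nat.le_zero.1 (cnt_le_of (j := 0) h)

lemma cnt_zero_iff (hn : 0 < n) : cnt g n z = 0 ↔ g z = z :=
  ⟨fun h => by simpa [h] using cnt_fix (h.trans_lt hn), cnt_zero⟩

lemma cnt_step (h : g z ≠ z) : cnt g n z = min (cnt g n (g z) + 1) n := by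
  refine cnt_eq (min_le_right _ _) (fun h1 => ?_) fun j hj => ?_
  · rw [min_eq_left (by omega)]
    exact cnt_fix (by omega)
  · cases j with
    | zero => exact h
    | succ j => exact cnt_min (n := n) (z := g z) (by omega)

lemma cnt_next (g : V → V) (n : ℕ) (z : V) :
    cnt g n (g z) ≤ cnt g n z ∧ cnt g n z ≤ cnt g n (g z) + 1 := by
  by_cases h : g z = z
  · rw [h]
    omega
  · have := cnt_step (n := n) h
    have := cnt_le g n (g z)
    omega

lemma iter_stab (h : cnt g n z < n) (hj : cnt g n z ≤ j) : g^[j] z = g^[cnt g n z] z := by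
  obtain ⟨l, rfl⟩ := Nat.exists_eq_add_of_le' hj
  rw [iterate_add_apply, iterate_fixed (cnt_fix h)]

lemma end_fix (h : cnt g n z < n) : g (g^[n] z) = g^[n] z := by
  rw [iter_stab h h.le, cnt_fix h]

lemma end_next (h : cnt g n (g z) < n) : g^[n] (g z) = g^[n] z := by
  obtain ⟨n, rfl⟩ : ∃ l, n = l + 1 := ⟨n - 1, by omega⟩
  rw [iter_stab h h.le, iterate_succ_apply, iter_stab h (by omega : _ ≤ n)]

lemma end_next' (h : cnt g n z < n) : g^[n] (g z) = g^[n] z :=
  end_next ((cnt_next g n z).1.trans_lt h)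

lemma align (h : ∀ j < n, g (t (g^[j] z)) = t (g (g^[j] z))) : ∀ j ≤ n, g^[j] (t z) = t (g^[j] z) := by
  intro j
  induction j with
  | zero => exact fun _ => rfl
  | succ j ih =>
    intro hj
    rw [iterate_succ_apply', iterate_succ_apply', ih (by omega), h j hj]

lemma align_cnt (h : ∀ j < n, g (t (g^[j] z)) = t (g (g^[j] z)))
    (h' : ∀ j < n, g (g^[j] z) = g^[j] z ↔ g (t (g^[j] z)) = t (g^[j] z)) :
    cnt g n (t z) = cnt g n z :=
  lst_congr fun j hj => by rw [sq_of_le hj.le, sq_of_le hj.le, align h j hj.le, h' j hj]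

variable (hg : ∀ v, g v ≠ v → g' (g v) = v)
include hg

lemma back (hj : j ≤ cnt g n z) (l : ℕ) : l ≤ j → g'^[l] (g^[j] z) = g^[j - l] z := by
  induction l with
  | zero => exact fun _ => rfl
  | succ l ih =>
    intro hl
    rw [iterate_succ_apply', ih (by omega), show j - l = j - (l + 1) + 1 by omega,
      iterate_succ_apply', hg _ (cnt_min (n := n) (by omega))]

lemma back_cnt (hj : j ≤ cnt g n z) : j ≤ cnt g' n (g^[j] z) := by
  by_contra h
  rw [not_le] at h
  have h1 := cnt_fix (h.trans_le (hj.trans (cnt_le _ _ _)))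
  rw [← iterate_succ_apply' g', back hg hj _ h, back hg hj _ h.le,
    show j - cnt g' n (g^[j] z) = j - (cnt g' n (g^[j] z)).succ + 1 by omega,
    iterate_succ_apply'] at h1
  exact cnt_min (n := n) (by omega) h1.symm

end Pool.Agent.Lib.MP_559647_lc
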