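import Pool.Agent.Lib.MP_559647_lc.X55Ok
import Pool.Agent.Lib.MP_559647_lc.V55Main

/-!
The number of probes and the failure probability of the algorithm.
-/

namespace Pool.Agent.Lib.MP_559647_lc

open Function MeasureTheory
open scoped ENNReal Nat

variable {N : ℕ} {α : Type} {m u : ℕ}

/-- degree at most ten -/
def D10 (N : ℕ) : Set (Inst N) := {I | Deg 10 I}

/-- the size of a ball of radius ten -/
def c55 : ℕ := 11 ^ 10

/-- the marked nodes -/
def mrk (I : Inst N) (z : Fin N) : Prop := I.inp z = 1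

lemma vc_l {g : Inst N → Fin N → α} (hg : ∀ I J v, (∀ d, mv I d v = mv J d v) →
    (∀ d d', mv I d (mv J d' v) = mv J d (mv J d' v)) → I.inp v = J.inp v →
    (∀ d, I.inp (mv J d v) = J.inp (mv J d v)) → g I v = g J v) : VC (D10 N) c55 g := by
  refine vc_loc (fun I hI => Deg.ball_le hI) fun I J v h => ?_
  have h1 : ∀ d, mv I d v = mv J d v := fun d => (h.iso.walk_eq [d] (by simp)).symm
  refine hg I J v h1 (fun d d' => ?_) (h.2 v (near_refl _ _)) fun d => h.2 _ ?_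
  · rw [← h1 d']
    exact (h.iso.walk_eq [d, d'] (by simp)).symm.trans (congrArg _ (h1 d').symm)
  · rw [← h1 d]
    exact (mv_near I d v).mono (by norm_num)

lemma vn_l {g : Inst N → Fin N → Fin N} (hg : ∀ I J v, (∀ d, mv I d v = mv J d v) → g I v = g J v)
    (hn : ∀ I v, Near I.G 3 v (g I v)) : VN (D10 N) c55 g :=
  vn_loc (fun I hI => Deg.ball_le hI) (fun I J v h => hg I J v fun d =>
    (h.iso.walk_eq [d] (by simp)).symm) fun I v => (hn I v).mono (by norm_num)

lemma n_mv (d : Dir) : VN (D10 N) c55 fun I v => mv I d v :=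
  vn_l (fun _ _ _ h => h d) fun I v => mv_near I d v

variable (hu : (m + 1) * c55 ≤ u)
include hu

lemma c55_le : 0 < c55 ∧ c55 ≤ u :=
  ⟨Nat.pow_pos (by norm_num), (Nat.le_mul_of_pos_left _ m.succ_pos).trans hu⟩

lemma v_seq (d : Dir) {g : Inst N → Fin N → α} (hg : VC (D10 N) c55 g) :
    VC (D10 N) (2 * u) fun I v j => g I (sq (mv I d) m v j) :=
  ((n_mv d).seq hg m).mono (by rw [mul_add]; omega)

lemma n_it (d : Dir) {n : ℕ} (hn : n ≤ m + 1) : VN (D10 N) (2 * u) fun I v => (mv I d)^[n] v :=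
  ((n_mv d).iter n).mono (by have := c55_le hu; have := Nat.mul_le_mul_right c55 hn; omega)

lemma v_cnt (d : Dir) : VC (D10 N) (2 * u) fun I v => cnt (mv I d) m v :=
  (v_seq hu d (g := fun I v => mv I d v = v) (vc_l fun _ _ _ h _ _ _ => by rw [h])).map
    fun s => lst s m

lemma v_okR (d : Dir) : VC (D10 N) (2 * u) fun I v j => okR (mv I) (mrk I) (sq (mv I d) m v j) :=
  v_seq hu d (g := fun I v => okR (mv I) (mrk I) v)
    (vc_l fun _ _ _ h1 h2 _ h4 => by simp only [okR, mrk, *])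

lemma v_col : VC (D10 N) (2 * u) fun I v => col (mv I) (mrk I) m v :=
  v_seq hu dD (g := fun I v => rowOf (mv I) (mrk I) v)
    (vc_l fun _ _ _ h1 _ h3 _ => by rw [rowOf, rowOf, tg, tg, mrk, mrk, h1 dV, h1 dC, h1 dD, h3])

lemma v_ci : VC (D10 N) (6 * u) fun I v => (col (mv I) (mrk I) m (rt (mv I) m v), ii (mv I) m v) :=
  (((n_it hu dU m.le_succ).move (v_col hu)).pair (v_cnt hu dU)).mono (by omega)

lemma v_hv (ω : ℕ → ℕ) : VC (D10 N) (20 * u) fun I v => hv (mv I) (mrk I) m ω v := by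
  have h1 : VC (D10 N) (6 * u) fun I v => (⟨(cD m (col (mv I) (mrk I) m (rt (mv I) m v)),
      ii (mv I) m v), (lst_le _ _).trans (Nat.succ_le_succ (lst_le _ _)), cnt_le _ _ _⟩ :
      {x : ℕ × ℕ // x.1 ≤ m + 1 ∧ x.2 ≤ m}) :=
    (v_ci hu).dep fun _ _ _ e => Subtype.ext (congrArg (fun x => (cD m x.1, x.2)) e)
  have h2 := VN.bind h1 (t' := 2 * u) (k := fun x I v => sh (mv I) x.1.1 x.1.2 v) fun x => by
    have := x.2
    unfold sh
    split_ifs
    · exact n_it hu dR (by omega)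
    · exact n_it hu dL (by omega)
  exact (((v_ci hu).pair (h2.move ((v_ci hu).map fun x => cP x.1 x.2))).map
    fun x => hf m ω x.1.1 x.1.2 x.2).mono (by omega)

lemma n_gam : VN (D10 N) (7 * u) fun I v => gam (mv I) (mrk I) m v := by
  have h0 := c55_le hu
  have h1 : VN (D10 N) c55 fun I v => tg (mv I) v :=
    vn_l (fun _ _ _ h => by rw [tg, tg, h dV, h dC]) fun I v => by
      unfold tg
      split_ifs <;> exact mv_near I _ v
  refine (VN.bind ((v_col hu).map (cE m)) (t' := 5 * u) (k := fun e I v =>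
    if e < m then rt (mv I) m (tg (mv I) (sq (mv I dD) m v e)) else v) fun e => ?_).mono (by omega)
  split_ifs
  · exact (((n_it hu dD ((min_le_right e m).trans m.le_succ)).comp h1).comp
      (n_it hu dU m.le_succ)).mono (by omega)
  · exact (vn_id 0).mono (by omega)

lemma v_clr (k : ℕ) :
    VC (D10 N) (8 * ((k + 1) * u)) fun I v => cvs (gam (mv I) (mrk I) m) k v :=
  (((n_gam hu).seq (vn_id 0).val k).dep fun _ _ v e => cvs_congr k v fun j hj => by
    simpa only [sq_of_le hj] using congrFun e j).mono (by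
      have := c55_le hu
      rw [mul_left_comm]
      exact Nat.mul_le_mul_left _ (by omega))

lemma v_dat (ω : ℕ → ℕ) (k : ℕ) : VC (D10 N) (80 * ((k + 1) * u)) fun I v =>
    dat (mv I) (mrk I) m ω (cvs (gam (mv I) (mrk I) m) k) v := by
  have h0 : u ≤ (k + 1) * u := Nat.le_mul_of_pos_left _ k.succ_pos
  have h6 := c55_le hu
  have h1 : VC (D10 N) (6 * u) fun I v => (cuv (mv I) (mrk I) m v, cdv (mv I) (mrk I) m v) :=
    ((((v_okR hu dU).pair (v_okR hu dD)).pair (v_cnt hu dU)).map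
      fun x => (∃ j, ¬ x.1.1 j, ∃ j, j + x.2 ≤ m ∧ ¬ x.1.2 j)).mono (by omega)
  have h2 := (n_it hu dY m.le_succ).move ((((v_ci hu).pair (v_hv hu ω)).pair h1).pair
    ((n_it hu dU m.le_succ).move (v_clr hu k)))
  have h3 := v_seq hu dY (g := fun (I : Inst N) v τ => okd (mv I) τ v)
    (vc_l fun _ _ _ h1 h2 _ _ => by simp only [okd, h1, h2])
  have h4 := v_seq hu dD (g := fun (I : Inst N) v => mrk I v)
    (vc_l fun _ _ _ _ _ h _ => by simp only [mrk, h])
  have h5 := vc_l (g := fun (I : Inst N) v => (mv I dY v = v, mv I dX v = v))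
    fun _ _ _ h _ _ _ => by simp only [h]
  refine VC.mono (VC.dep ((((((h2.pair h1).pair h3).pair h4).pair h5).pair (v_cnt hu dY)).pair
    (v_cnt hu dD)) fun I J v e => ?_) (by omega)
  simp only [Prod.mk.injEq] at e
  obtain ⟨⟨⟨⟨⟨⟨⟨⟨⟨⟨e1, e2⟩, e3⟩, e4, e5⟩, e6⟩, e7, e8⟩, e9⟩, e10⟩, e11, e12⟩, e13⟩, e14⟩ := e
  have e15 : ∀ τ, anyS (mv I dY) m (fun w => ¬ okd (mv I) τ w) v =
      anyS (mv J dY) m (fun w => ¬ okd (mv J) τ w) v := fun τ =>
    congrArg (fun s : ℕ → Fin 5 → Prop => ∃ l, ¬ s l τ) e9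
  have e16 : anyS (mv I dD) m (mrk I) v = anyS (mv J dD) m (mrk J) v :=
    congrArg (fun s : ℕ → Prop => ∃ l, s l) e10
  unfold dat hd kk
  rw [e1, e2, e3, e4, e5, e7, e8, e11, e12, e13, e14, e16, funext e15]
  exact congrArg (fun x => Dat.mk _ _ _ x _ _ _ _ _ _ _ _) e6

omit hu

theorem upper55 (m k M : ℕ) (hM : M ≤ tower k) : ∃ (Ω : Type) (_ : MeasurableSpace Ω)
    (μ : Measure Ω) (_ : IsProbabilityMeasure μ) (A : Ω → Inst M → Fin M → ℕ),
    (∀ ω, Volume (160 * c55 * (m + 1) * (k + 1)) (A ω) ∧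
      DetLocal (160 * c55 * (m + 1) * (k + 1)) (A ω)) ∧
    (∀ I v, Measurable fun ω => A ω I v) ∧ ∀ I : Inst M, Deg 10 I →
      μ {ω | ¬ ∀ v ∈ I.S, accX M I (A ω I) v} ≤ I.S.card / (m ! : ℝ≥0∞) := by
  classical
  let Ω := (i : Fin m) → Fin (i + 1)
  let s : Ω → ℕ → ℕ := fun ω j => if h : j - 1 < m then (ω ⟨j - 1, h⟩).val else 0
  choose A a1 a2 using fun ω : Ω => VC.volume ((((v_dat (N := M) (m := m + 1) le_rfl (s ω) k).map
    fun x => enc (flg (m + 1) (s ω) x))).mono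
      (t' := 160 * c55 * (m + 1) * (k + 1)) (by nlinarith [Nat.zero_le (m * k * c55), Nat.zero_le (m * c55)]))
  let _ : MeasurableSpace Ω := ⊤
  have : DiscreteMeasurableSpace Ω := ⟨fun _ => trivial⟩
  refine ⟨Ω, ⊤, (PMF.uniformOfFintype Ω).toMeasure, inferInstance, A, a1,
    fun _ _ => Measurable.of_discrete, fun I hI => ?_⟩
  let F : Fin M → Set Ω := fun ρ =>
    {ω | ∀ j, 0 < j → j < m + 1 → s ω j = cP (col (mv I) (mrk I) (m + 1) ρ) j}
  have h1 : {ω | ¬ ∀ v ∈ I.S, accX M I (A ω I) v} ⊆ ⋃ ρ ∈ I.S, F ρ := by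
    intro ω hω
    by_contra hc
    refine hω fun v _ => ⟨by rw [a2 ω I hI]; exact enc_lt _, ?_⟩
    simp only [a2 ω I hI, dec_enc]
    refine spec_out (fun d v => mv_inv) (fun d hd v => mv_head I hd v) m.succ_pos
      (fun i h0 hi => ?_) (fun ρ h => cvs_ne _ k (z := ρ) h.symm) (cvs_lt _ hM k 0 rfl) (fun ρ h => ?_) v
    · have := (ω ⟨i - 1, by omega⟩).2
      simp only [s, dif_pos (show i - 1 < m by omega)] at this ⊢
      omega
    · by_contra h2
      refine hc (Set.mem_biUnion (x := ρ) (by_contra fun h3 => h ?_) fun j b1 b2 =>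
        by_contra fun h3 => h2 ⟨j, b1, b2, h3⟩)
      rw [cnt_zero (mv_out h3 _)]
      exact m.succ_pos
  have h2 : ∀ ρ, (PMF.uniformOfFintype Ω).toMeasure (F ρ) ≤ (m ! : ℝ≥0∞)⁻¹ := by
    intro ρ
    rcases (F ρ).eq_empty_or_nonempty with h | ⟨ω, h⟩
    · simp [h]
    have : F ρ ⊆ {ω} := fun ω' h' => funext fun i => Fin.ext (by
      simpa [s] using (h' (i + 1) (by omega) (by omega)).trans (h (i + 1) (by omega) (by omega)).symm)
    refine (measure_mono this).trans (le_of_eq ?_)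
    rw [PMF.toMeasure_apply_singleton _ _ (measurableSet_singleton _), PMF.uniformOfFintype_apply]
    simp only [Ω, Fintype.card_pi, Fintype.card_fin, Fin.prod_univ_eq_prod_range (· + 1) m,
      Finset.prod_range_add_one_eq_factorial]
  refine (measure_mono h1).trans ((measure_biUnion_finset_le _ _).trans
    ((Finset.sum_le_card_nsmul _ _ _ fun ρ _ => h2 ρ).trans (le_of_eq ?_)))
  rw [nsmul_eq_mul, div_eq_mul_inv]

end Pool.Agent.Lib.MP_559647_lc
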