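import Pool.Agent.Lib.MP_559647_lc.X55Mv
import Pool.Agent.Lib.MP_559647_lc.V55Defs

/-!
A finite pointer structure as a labelled graph of degree at most ten.
-/

namespace Pool.Agent.Lib.MP_559647_lc

open Finset

variable {N : ℕ} {W : Type} (y : W × Option Dir ↪ Fin N) (sc : Fin 5 → W → W) (mk : W → Prop)

/-- a pointer between two different nodes -/
def lnk (d : Dir) (a b : W) : Prop :=
  a ≠ b ∧ ((d.2 = false ∧ sc d.1 a = b) ∨ (d.2 = true ∧ sc d.1 b = a))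

lemma lnk.symm {sc : Fin 5 → W → W} {d : Dir} {a b : W} (h : lnk sc d a b) : lnk sc d.inv b a :=
  ⟨h.1.symm, h.2.symm.imp (fun h => ⟨by simp [Dir.inv, h.1], h.2⟩)
    fun h => ⟨by simp [Dir.inv, h.1], h.2⟩⟩

/-- nodes with their ports -/
def portG : SimpleGraph (W × Option Dir) where
  Adj p q := (p.1 = q.1 ∧ p.2 = none ∧ q.2 ≠ none) ∨ (p.1 = q.1 ∧ q.2 = none ∧ p.2 ≠ none) ∨
    ∃ d, p.2 = some d ∧ q.2 = some d.inv ∧ lnk sc d p.1 q.1
  symm := ⟨by
    rintro p q (h | h | ⟨d, h1, h2, h3⟩)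
    · exact Or.inr (Or.inl ⟨h.1.symm, h.2⟩)
    · exact Or.inl ⟨h.1.symm, h.2⟩
    · exact Or.inr (Or.inr ⟨d.inv, h2, by rw [Dir.inv_inv, h1], h3.symm⟩)⟩
  loopless := ⟨by
    rintro p (h | h | ⟨d, -, -, h⟩)
    · exact h.2.2 h.2.1
    · exact h.2.2 h.2.1
    · exact h.1 rfl⟩

open Classical in
/-- the instance -/
noncomputable def ptrI [Fintype W] : Inst N where
  S := univ.map y
  G := (portG sc).map y
  inp := Function.extend y (fun p => p.2.elim (if mk p.1 then 1 else 0) plab) fun _ => 0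
  mem_of_adj := by
    intro u v h
    obtain ⟨p, q, -, rfl, -⟩ := (SimpleGraph.map_adj _ _ _ _).1 h
    exact mem_map_of_mem _ (mem_univ _)

variable {y sc mk} [Fintype W]

open Classical in
lemma ptrI_main (a : W) : (ptrI y sc mk).inp (y (a, none)) = if mk a then 1 else 0 := by
  simp only [ptrI, y.injective.extend_apply, Option.elim]

lemma ptrI_port (a : W) (d : Dir) : (ptrI y sc mk).inp (y (a, some d)) = plab d := by
  simp only [ptrI, y.injective.extend_apply, Option.elim]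

lemma ptrI_lt (a : W) : (ptrI y sc mk).inp (y (a, none)) < 2 := by
  rw [ptrI_main]
  split_ifs <;> simp

lemma plab_inj : Function.Injective plab := by decide

lemma plab_ge : ∀ d, 2 ≤ plab d ∧ plab d < 12 := by decide

lemma ptrI_adj (p : W × Option Dir) (u : Fin N) :
    (ptrI y sc mk).G.Adj (y p) u ↔ ∃ q, (portG sc).Adj p q ∧ y q = u := by
  refine (SimpleGraph.map_adj _ _ _ _).trans ⟨?_, fun ⟨q, h1, h2⟩ => ⟨p, q, h1, rfl, h2⟩⟩
  rintro ⟨p', q, h1, h2, h3⟩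
  exact ⟨q, y.injective h2 ▸ h1, h3⟩

lemma nb_main (a : W) (u : Fin N) :
    (ptrI y sc mk).G.Adj (y (a, none)) u ↔ ∃ d, y (a, some d) = u := by
  rw [ptrI_adj]
  constructor
  · rintro ⟨⟨b, q⟩, h | h | ⟨d, h, -⟩, rfl⟩
    · obtain ⟨d, rfl⟩ := Option.ne_none_iff_exists'.1 h.2.2
      exact ⟨d, by rw [show a = b from h.1]⟩
    · exact absurd rfl h.2.2
    · simp at h
  · rintro ⟨d, rfl⟩
    exact ⟨(a, some d), Or.inl ⟨rfl, rfl, by simp⟩, rfl⟩

lemma nb_port (a : W) (d : Dir) (u : Fin N) : (ptrI y sc mk).G.Adj (y (a, some d)) u ↔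
    y (a, none) = u ∨ ∃ b, lnk sc d a b ∧ y (b, some d.inv) = u := by
  rw [ptrI_adj]
  constructor
  · rintro ⟨⟨b, q⟩, h | h | ⟨d', h1, h2, h3⟩, rfl⟩
    · simp at h
    · exact Or.inl (by rw [show a = b from h.1, show q = none from h.2.1])
    · obtain rfl : d = d' := by simpa using h1
      exact Or.inr ⟨b, h3, by rw [show q = _ from h2]⟩
  · rintro (rfl | ⟨b, h, rfl⟩)
    · exact ⟨(a, none), Or.inr (Or.inl ⟨rfl, rfl, by simp⟩), rfl⟩
    · exact ⟨(b, some d.inv), Or.inr (Or.inr ⟨d, rfl, rfl, h⟩), rfl⟩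

lemma ptrI_lab : ∀ x ∈ (ptrI y sc mk).S, (ptrI y sc mk).inp x ∈ range 12 := by
  intro x hx
  obtain ⟨⟨a, _ | d⟩, -, rfl⟩ := mem_map.1 hx
  · exact mem_range.2 ((ptrI_lt a).trans (by norm_num))
  · exact mem_range.2 (ptrI_port a d ▸ (plab_ge d).2)

lemma ptrI_view {sc' : Fin 5 → W → W} {φ : W → ℕ} {r : ℕ} (h1 : ∀ d a b, lnk sc d a b → φ b ≤ φ a + 1)
    (h2 : ∀ d a b, φ a < r → (lnk sc d a b ↔ lnk sc' d a b)) {v : W} (hv : φ v = 0) :
    SameView r (y (v, none)) (ptrI y sc mk) (ptrI y sc' mk) := by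
  have key : ∀ j x, Near (ptrI y sc mk).G j (y (v, none)) x → ∃ p, y p = x ∧ φ p.1 ≤ j := by
    intro j
    induction j with
    | zero => exact fun x hx => ⟨_, near_zero_iff.1 hx, hv.le⟩
    | succ j ih =>
      intro x hx
      obtain ⟨z, a1, a2⟩ := near_succ hx
      obtain ⟨p, rfl, a3⟩ := ih z a1
      rcases near_one_iff.1 a2 with rfl | a2
      · exact ⟨p, rfl, by omega⟩
      · obtain ⟨q, h | h | ⟨d, -, -, h⟩, rfl⟩ := (ptrI_adj p x).1 a2
        · exact ⟨q, rfl, by rw [← h.1]; omega⟩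
        · exact ⟨q, rfl, by rw [← h.1]; omega⟩
        · exact ⟨q, rfl, (h1 _ _ _ h).trans (by omega)⟩
  refine ⟨fun x u hx => ?_, fun _ _ => rfl⟩
  obtain ⟨j, hj, hx⟩ := edist_lt_iff.1 hx
  obtain ⟨⟨a, _ | d⟩, rfl, h3⟩ := key j x hx
  · rw [nb_main, nb_main]
  · rw [nb_port, nb_port]
    simp only [h2 d a _ (lt_of_le_of_lt h3 hj)]

variable (hs : ∀ τ a b, sc τ a ≠ a → sc τ b ≠ b → sc τ a = sc τ b → a = b)
include hs

omit [Fintype W] in
lemma lnk.uniq {d : Dir} {a b b' : W} (h : lnk sc d a b) (h' : lnk sc d a b') : b' = b := by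
  rcases h.2 with h1 | h1 <;> rcases h'.2 with h2 | h2
  · rw [← h1.2, h2.2]
  · simp [h1.1] at h2
  · simp [h1.1] at h2
  · exact hs _ _ _ (h2.2 ▸ h'.1) (h1.2 ▸ h.1) (h2.2.trans h1.2.symm)

lemma ptrI_deg : Deg 10 (ptrI y sc mk) := by
  classical
  intro u
  by_cases h : ∃ p, y p = u
  · obtain ⟨⟨a, _ | d⟩, rfl⟩ := h
    · refine (Set.ncard_le_ncard (t := (fun d => y (a, some d)) '' Set.univ)
        (fun u hu => by obtain ⟨d, h⟩ := (nb_main (mk := mk) a u).1 hu; exact ⟨d, trivial, h⟩) (Set.toFinite _)).trans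
        ((Set.ncard_image_le (Set.toFinite _)).trans (by simp))
    · refine (Set.ncard_le_ncard (t := insert (y (a, none)) {u | ∃ b, lnk sc d a b ∧
        y (b, some d.inv) = u}) (fun u hu => ((nb_port (mk := mk) a d u).1 hu).imp Eq.symm id)
        (Set.toFinite _)).trans ((Set.ncard_insert_le _ _).trans ?_)
      have := (Set.ncard_le_one (s := {u | ∃ b, lnk sc d a b ∧ y (b, some d.inv) = u})
        (Set.toFinite _)).2 (by
          rintro _ ⟨b, h1, rfl⟩ _ ⟨b', h2, rfl⟩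
          rw [h1.uniq hs h2])
      omega
  · have : (ptrI y sc mk).G.neighborSet u = ∅ := Set.eq_empty_of_forall_notMem fun v hv => by
      obtain ⟨p, q, -, h1, -⟩ := (SimpleGraph.map_adj _ _ _ _).1 hv
      exact h ⟨p, h1⟩
    simp [this]

omit hs in
lemma lk_main (a : W) (d : Dir) :
    Lk (· < 2) (· = plab d) (ptrI y sc mk) (y (a, none)) (y (a, some d)) := by
  refine ⟨(nb_main _ _).2 ⟨d, rfl⟩, ptrI_lt a, ptrI_port a d, fun u hu hq => ?_, fun u hu hq => ?_⟩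
  · obtain ⟨d', rfl⟩ := (nb_main _ _).1 hu
    rw [plab_inj ((ptrI_port a d').symm.trans hq)]
  · rcases (nb_port _ _ _).1 hu with h | ⟨b, -, rfl⟩
    · exact h.symm
    · have := (plab_ge d.inv).1
      simp only [ptrI_port] at hq
      omega

lemma arc_iff (d : Dir) (a : W) (u : Fin N) :
    Arc d (ptrI y sc mk) (y (a, none)) u ↔ ∃ b, lnk sc d a b ∧ y (b, none) = u := by
  have key : ∀ d a b, lnk sc d a b → ∀ u, (ptrI y sc mk).G.Adj (y (a, some d)) u →
      (ptrI y sc mk).inp u = plab d.inv → u = y (b, some d.inv) := by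
    intro d a b h u hu hq
    rcases (nb_port _ _ _).1 hu with rfl | ⟨b', h1, rfl⟩
    · have := (plab_ge d.inv).1
      have := ptrI_lt (y := y) (sc := sc) (mk := mk) a
      omega
    · rw [h.uniq hs h1]
  constructor
  · rintro ⟨-, x, z, h1, h2, h3⟩
    obtain rfl := (lk_main a d).uniq h1
    rcases (nb_port _ _ _).1 h2.1 with rfl | ⟨b, h, rfl⟩
    · have := (plab_ge d.inv).1
      have := ptrI_lt (y := y) (sc := sc) (mk := mk) a
      have := h2.2.2.1
      omega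
    · exact ⟨b, h, ((lk_main b d.inv).symm.uniq h3).symm⟩
  · rintro ⟨b, h, rfl⟩
    refine ⟨fun e => h.1 (congrArg Prod.fst (y.injective e)).symm, _, _, lk_main a d,
      ⟨(nb_port _ _ _).2 (Or.inr ⟨b, h, rfl⟩), ptrI_port _ _, ptrI_port _ _, key d a b h,
        fun u hu hq => ?_⟩, (lk_main b d.inv).symm⟩
    have := key _ _ _ h.symm u hu (by rwa [Dir.inv_inv])
    rwa [Dir.inv_inv] at this

lemma mv0_lnk {d : Dir} {a b : W} (h : lnk sc d a b) :
    mv0 (ptrI y sc mk) d (y (a, none)) = y (b, none) := mv0_arc ((arc_iff hs d a _).2 ⟨b, h, rfl⟩)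

lemma mv0_fix {d : Dir} {a : W} (h : ∀ b, ¬ lnk sc d a b) :
    mv0 (ptrI y sc mk) d (y (a, none)) = y (a, none) :=
  ((mv0_cases _ d _).resolve_left fun h' => by
    obtain ⟨b, h1, -⟩ := (arc_iff hs d a _).1 h'
    exact h b h1).1

lemma mv0_fw (τ : Fin 5) (a : W) :
    mv0 (ptrI y sc mk) (τ, false) (y (a, none)) = y (sc τ a, none) := by
  by_cases h : sc τ a = a
  · rw [h]
    exact mv0_fix hs fun b hb => hb.2.elim (fun h' => hb.1 (h.symm.trans h'.2)) fun h' => by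
      simp at h'
  · exact mv0_lnk hs ⟨Ne.symm h, Or.inl ⟨rfl, rfl⟩⟩

variable (hh : ∀ τ, τ ≠ 2 → ∀ a, sc 2 a = a ↔ sc 2 (sc τ a) = sc τ a)
include hh

lemma mv_main (d : Dir) (a : W) :
    mv (ptrI y sc mk) d (y (a, none)) = mv0 (ptrI y sc mk) d (y (a, none)) := by
  refine if_pos (or_iff_not_imp_left.2 fun hd => ?_)
  by_cases h : ∃ b, lnk sc d a b
  · obtain ⟨b, h⟩ := h
    rw [mv0_lnk hs h, mv0_fw hs, mv0_fw hs]
    simp only [EmbeddingLike.apply_eq_iff_eq, Prod.mk.injEq, and_true]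
    rcases h.2 with ⟨-, rfl⟩ | ⟨-, rfl⟩
    · exact hh _ hd _
    · exact (hh _ hd _).symm
  · rw [mv0_fix hs fun b hb => h ⟨b, hb⟩]

lemma mv_fw (τ : Fin 5) (a : W) :
    mv (ptrI y sc mk) (τ, false) (y (a, none)) = y (sc τ a, none) := by
  rw [mv_main hs hh, mv0_fw hs]

lemma mv_bw (τ : Fin 5) {a b : W} (h : (sc τ b = a ∧ a ≠ b) ∨ (b = a ∧ ∀ c, sc τ c = a → c = a)) :
    mv (ptrI y sc mk) (τ, true) (y (a, none)) = y (b, none) := by
  rw [mv_main hs hh]
  rcases h with h | ⟨rfl, h⟩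
  · exact mv0_lnk hs ⟨h.2, Or.inr ⟨rfl, h.1⟩⟩
  · exact mv0_fix hs fun c hc => hc.2.elim (fun h' => by simp at h') fun h' => hc.1 (h c h'.2).symm

end Pool.Agent.Lib.MP_559647_lc
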