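import Pool.Agent.Lib.MP_559647_lc.V55Walk
import Pool.Agent.Lib.MP_559647_lc.G56Defs

/-!
Five invertible moves read from a labelled graph.
-/

namespace Pool.Agent.Lib.MP_559647_lc

variable {N N' : ℕ}

/-- directions: a kind of pointer, followed forwards or backwards -/
abbrev Dir := Fin 5 × Bool

/-- the opposite direction -/
def Dir.inv (d : Dir) : Dir := (d.1, !d.2)

lemma Dir.inv_inv (d : Dir) : d.inv.inv = d := by simp [Dir.inv]

/-- the label of a port -/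
def plab (d : Dir) : ℕ := 2 + 2 * d.1.val + d.2.toNat

/-- `a` and `b` are adjacent and each is the only neighbour of the other of its kind -/
def Lk (P Q : ℕ → Prop) (I : Inst N) (a b : Fin N) : Prop :=
  I.G.Adj a b ∧ P (I.inp a) ∧ Q (I.inp b) ∧ (∀ b', I.G.Adj a b' → Q (I.inp b') → b' = b) ∧
    ∀ a', I.G.Adj b a' → P (I.inp a') → a' = a

lemma Lk.symm {P Q : ℕ → Prop} {I : Inst N} {a b : Fin N} (h : Lk P Q I a b) : Lk Q P I b a :=
  ⟨h.1.symm, h.2.2.1, h.2.1, h.2.2.2.2, h.2.2.2.1⟩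

lemma Lk.uniq {P Q : ℕ → Prop} {I : Inst N} {a b b' : Fin N} (h : Lk P Q I a b)
    (h' : Lk P Q I a b') : b' = b := h.2.2.2.1 b' h'.1 h'.2.2.1

/-- a pointer from `v` to `u` through two ports -/
def Arc (d : Dir) (I : Inst N) (v u : Fin N) : Prop :=
  u ≠ v ∧ ∃ x y, Lk (· < 2) (· = plab d) I v x ∧ Lk (· = plab d) (· = plab d.inv) I x y ∧
    Lk (· = plab d.inv) (· < 2) I y u

lemma Arc.symm {d : Dir} {I : Inst N} {v u : Fin N} (h : Arc d I v u) : Arc d.inv I u v := by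
  obtain ⟨h0, x, y, h1, h2, h3⟩ := h
  exact ⟨h0.symm, y, x, h3.symm, by rw [Dir.inv_inv]; exact h2.symm,
    by rw [Dir.inv_inv]; exact h1.symm⟩

lemma Arc.uniq {d : Dir} {I : Inst N} {v u u' : Fin N} (h : Arc d I v u) (h' : Arc d I v u') :
    u' = u := by
  obtain ⟨-, x, y, h1, h2, h3⟩ := h
  obtain ⟨-, x', y', a1, a2, a3⟩ := h'
  obtain rfl := h1.uniq a1
  obtain rfl := h2.uniq a2
  exact h3.uniq a3

lemma Arc.near {d : Dir} {I : Inst N} {v u : Fin N} (h : Arc d I v u) : Near I.G 3 v u := by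
  obtain ⟨-, x, y, h1, h2, h3⟩ := h
  exact ((near_of_adj h1.1).trans (near_of_adj h2.1)).trans (near_of_adj h3.1)

open Classical in
/-- follow the pointer, or stay -/
noncomputable def mv0 (I : Inst N) (d : Dir) (v : Fin N) : Fin N :=
  if h : ∃ u, Arc d I v u then h.choose else v

lemma mv0_arc {d : Dir} {I : Inst N} {v u : Fin N} (h : Arc d I v u) : mv0 I d v = u := by
  have h' : ∃ u, Arc d I v u := ⟨u, h⟩
  rw [mv0, dif_pos h']
  exact h.uniq h'.choose_spec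

lemma mv0_cases (I : Inst N) (d : Dir) (v : Fin N) :
    Arc d I v (mv0 I d v) ∨ (mv0 I d v = v ∧ ∀ u, ¬ Arc d I v u) := by
  by_cases h : ∃ u, Arc d I v u
  · obtain ⟨u, h⟩ := h
    exact Or.inl (mv0_arc h ▸ h)
  · exact Or.inr ⟨dif_neg h, fun u hu => h ⟨u, hu⟩⟩

lemma mv0_near (I : Inst N) (d : Dir) (v : Fin N) : Near I.G 3 v (mv0 I d v) := by
  rcases mv0_cases I d v with h | h
  · exact h.near
  · rw [h.1]
    exact near_refl _ _

lemma mv0_inv {I : Inst N} {d : Dir} {v : Fin N} (h : mv0 I d v ≠ v) :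
    mv0 I d.inv (mv0 I d v) = v := mv0_arc ((mv0_cases I d v).resolve_right fun h' => h h'.1).symm

open Classical in
/-- moves that do not run along a row are kept only between two heads or two other nodes -/
noncomputable def mv (I : Inst N) (d : Dir) (v : Fin N) : Fin N :=
  if d.1 = 2 ∨ (mv0 I (2, false) v = v ↔ mv0 I (2, false) (mv0 I d v) = mv0 I d v) then mv0 I d v
  else v

lemma mv_near (I : Inst N) (d : Dir) (v : Fin N) : Near I.G 3 v (mv I d v) := by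
  unfold mv
  split_ifs
  · exact mv0_near I d v
  · exact near_refl _ _

lemma mv_row (I : Inst N) (b : Bool) (v : Fin N) : mv I (2, b) v = mv0 I (2, b) v :=
  if_pos (Or.inl rfl)

lemma mv_inv {I : Inst N} {d : Dir} {v : Fin N} (h : mv I d v ≠ v) :
    mv I d.inv (mv I d v) = v := by
  by_cases h1 : d.1 = 2 ∨ (mv0 I (2, false) v = v ↔ mv0 I (2, false) (mv0 I d v) = mv0 I d v)
  · have e : mv I d v = mv0 I d v := if_pos h1
    rw [e] at h ⊢
    rw [mv, mv0_inv h]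
    exact if_pos (h1.imp id Iff.symm)
  · exact absurd (if_neg h1) h

lemma mv_head (I : Inst N) {d : Dir} (hd : d.1 ≠ 2) (v : Fin N) :
    mv I (2, false) v = v ↔ mv I (2, false) (mv I d v) = mv I d v := by
  rw [mv_row, mv_row]
  by_cases h1 : mv0 I (2, false) v = v ↔ mv0 I (2, false) (mv0 I d v) = mv0 I d v
  · rwa [show mv I d v = mv0 I d v from if_pos (Or.inr h1)]
  · rw [show mv I d v = v from if_neg fun h => h.elim hd h1]

lemma mv_out {I : Inst N} {v : Fin N} (hv : v ∉ I.S) (d : Dir) : mv I d v = v := by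
  have : mv0 I d v = v := ((mv0_cases I d v).resolve_left fun ⟨_, x, _, h, _⟩ =>
    hv (I.mem_of_adj _ _ h.1)).1
  rw [mv, this, ite_self]

/-- `φ` maps the radius-`t` view of `v` in `I` isomorphically into `J` -/
def Iso (φ : Fin N → Fin N') (t : ℕ) (I : Inst N) (v : Fin N) (J : Inst N') : Prop :=
  Set.InjOn φ {x | I.G.edist v x ≤ t} ∧
    (∀ x, I.G.edist v x < t → (∀ y, I.G.Adj x y → J.G.Adj (φ x) (φ y)) ∧
      ∀ y', J.G.Adj (φ x) y' → ∃ y, I.G.Adj x y ∧ φ y = y') ∧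
    ∀ x, I.G.edist v x ≤ t → J.inp (φ x) = I.inp x

lemma SameView.iso {t : ℕ} {v : Fin N} {I J : Inst N} (h : SameView t v I J) : Iso id t I v J :=
  ⟨Set.injOn_id _, fun x hx => ⟨fun y hy => (h.1 x y hx).1 hy,
    fun y hy => ⟨y, (h.1 x y hx).2 hy, rfl⟩⟩, fun x hx => (h.2 x hx).symm⟩

section Iso

variable {φ : Fin N → Fin N'} {t : ℕ} {I : Inst N} {v : Fin N} {J : Inst N'} (h : Iso φ t I v J)
include h

lemma Iso.lk {P Q : ℕ → Prop} {j : ℕ} {a : Fin N} (ha : Near I.G j v a) (hj : j + 2 ≤ t)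
    (b' : Fin N') : Lk P Q J (φ a) b' ↔ ∃ b, Lk P Q I a b ∧ φ b = b' := by
  have e1 := h.2.1 a (edist_lt_iff.2 ⟨j, by omega, ha⟩)
  have n1 : ∀ b, I.G.Adj a b → Near I.G (j + 1) v b := fun b hb => ha.trans (near_of_adj hb)
  have e2 := fun b hb => h.2.1 b (edist_lt_iff.2 ⟨j + 1, by omega, n1 b hb⟩)
  have n0 : Near I.G t v a := ha.mono (by omega)
  have n2 : ∀ b, I.G.Adj a b → Near I.G t v b := fun b hb => (n1 b hb).mono (by omega)
  have n3 : ∀ b c, I.G.Adj a b → I.G.Adj b c → Near I.G t v c := fun b c hb hc =>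
    (n1 b hb).trans' (near_of_adj hc) hj
  constructor
  · rintro ⟨h1, h2, h3, h4, h5⟩
    obtain ⟨b, hb, rfl⟩ := e1.2 b' h1
    refine ⟨b, ⟨hb, h.2.2 a n0 ▸ h2, h.2.2 b (n2 b hb) ▸ h3, fun c hc hq => ?_, fun c hc hq => ?_⟩,
      rfl⟩
    · exact h.1 (n2 c hc) (n2 b hb) (h4 _ (e1.1 c hc) ((h.2.2 c (n2 c hc)).symm ▸ hq))
    · exact h.1 (n3 b c hb hc) n0 (h5 _ ((e2 b hb).1 c hc) ((h.2.2 c (n3 b c hb hc)).symm ▸ hq))
  · rintro ⟨b, ⟨hb, h2, h3, h4, h5⟩, rfl⟩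
    refine ⟨e1.1 b hb, (h.2.2 a n0).symm ▸ h2, (h.2.2 b (n2 b hb)).symm ▸ h3, fun c hc hq => ?_,
      fun c hc hq => ?_⟩
    · obtain ⟨c', hc', rfl⟩ := e1.2 c hc
      rw [h4 c' hc' (h.2.2 c' (n2 c' hc') ▸ hq)]
    · obtain ⟨c', hc', rfl⟩ := (e2 b hb).2 c hc
      rw [h5 c' hc' (h.2.2 c' (n3 b c' hb hc') ▸ hq)]

lemma Iso.arc {d : Dir} {j : ℕ} {a : Fin N} (ha : Near I.G j v a) (hj : j + 4 ≤ t)
    (u' : Fin N') : Arc d J (φ a) u' ↔ ∃ u, Arc d I a u ∧ φ u = u' := by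
  constructor
  · rintro ⟨h0, x', y', a1, a2, a3⟩
    obtain ⟨x, h1, rfl⟩ := (h.lk ha (by omega) _).1 a1
    have hx := ha.trans (near_of_adj h1.1)
    obtain ⟨y, h2, rfl⟩ := (h.lk hx (by omega) _).1 a2
    obtain ⟨u, h3, rfl⟩ := (h.lk (hx.trans (near_of_adj h2.1)) (by omega) _).1 a3
    exact ⟨u, ⟨fun e => h0 (congrArg φ e), x, y, h1, h2, h3⟩, rfl⟩
  · rintro ⟨u, hu, rfl⟩
    have hn := hu.near
    obtain ⟨h0, x, y, h1, h2, h3⟩ := hu
    have hx := ha.trans (near_of_adj h1.1)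
    exact ⟨fun e => h0 (h.1 (ha.trans' hn (by omega)) (ha.mono (by omega)) e), φ x, φ y,
      (h.lk ha (by omega) _).2 ⟨x, h1, rfl⟩, (h.lk hx (by omega) _).2 ⟨y, h2, rfl⟩,
      (h.lk (hx.trans (near_of_adj h2.1)) (by omega) _).2 ⟨u, h3, rfl⟩⟩

lemma Iso.mv0_eq (d : Dir) {j : ℕ} {a : Fin N} (ha : Near I.G j v a) (hj : j + 4 ≤ t) :
    mv0 J d (φ a) = φ (mv0 I d a) := by
  rcases mv0_cases I d a with h1 | h1
  · exact mv0_arc ((h.arc ha hj _).2 ⟨_, h1, rfl⟩)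
  · rw [h1.1]
    refine ((mv0_cases J d (φ a)).resolve_left fun h2 => ?_).1
    obtain ⟨u, hu, -⟩ := (h.arc ha hj _).1 h2
    exact h1.2 u hu

lemma Iso.mv_eq (d : Dir) {j : ℕ} {a : Fin N} (ha : Near I.G j v a) (hj : j + 7 ≤ t) :
    mv J d (φ a) = φ (mv I d a) := by
  have h1 := ha.trans (mv0_near I d a)
  have e : ∀ {x y : Fin N}, Near I.G t v x → Near I.G t v y → (φ x = φ y ↔ x = y) :=
    fun hx hy => ⟨fun e => h.1 hx hy e, congrArg φ⟩
  unfold mv
  rw [h.mv0_eq d ha (by omega), h.mv0_eq _ ha (by omega), h.mv0_eq _ h1 (by omega), apply_ite φ]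
  exact if_congr (or_congr_right (iff_congr
    (e (ha.trans' (mv0_near I _ a) (by omega)) (ha.mono (by omega)))
    (e (h1.trans' (mv0_near I _ _) (by omega)) (h1.mono (by omega))))) rfl rfl

end Iso

/-- follow a word of moves -/
def walk {V : Type} (f : Dir → V → V) (z : V) : List Dir → V
  | [] => z
  | d :: w => f d (walk f z w)

lemma walk_near (I : Inst N) (v : Fin N) (w : List Dir) :
    Near I.G (3 * w.length) v (walk (mv I) v w) := by
  induction w with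
  | nil => exact near_refl _ _
  | cons d w ih => exact ih.trans (mv_near I d _)

lemma Iso.walk_eq {φ : Fin N → Fin N'} {I : Inst N} {v : Fin N} {J : Inst N'} (h : Iso φ 10 I v J)
    (w : List Dir) (hw : w.length ≤ 2) : walk (mv J) (φ v) w = φ (walk (mv I) v w) := by
  induction w with
  | nil => rfl
  | cons d w ih =>
    simp only [List.length_cons] at hw
    simp only [walk]
    rw [ih (by omega), h.mv_eq d (walk_near I v w) (by omega)]

end Pool.Agent.Lib.MP_559647_lc
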