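import Pool.Agent.Lib.MP_559647_lc.X55Alg

/-!
With a good seed the flags of the algorithm obey the rules at every node.
-/

namespace Pool.Agent.Lib.MP_559647_lc

open Function

variable {V : Type} {f : Dir → V → V} {mk : V → Prop} {m : ℕ} {ω : ℕ → ℕ} {clr : V → ℕ} {z : V}
  (H1 : ∀ d v, f d v ≠ v → f d.inv (f d v) = v)
  (H2 : ∀ d : Dir, d.1 ≠ 2 → ∀ v, f dY v = v ↔ f dY (f d v) = f d v)

lemma kk_Y (h : kk f m z < m) (hz : f dY z ≠ z) : kk f m z = kk f m (f dY z) + 1 := by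
  have := cnt_step (n := m) hz
  unfold kk at *
  omega

lemma ii_U (h : ii f m z < m) (hz : f dU z ≠ z) : ii f m z = ii f m (f dU z) + 1 := by
  have := cnt_step (n := m) hz
  unfold ii at *
  omega

lemma tg_head (H2 : ∀ d : Dir, d.1 ≠ 2 → ∀ v, f dY v = v ↔ f dY (f d v) = f d v)
    (h : f dY z = z) : f dY (tg f z) = tg f z := by
  unfold tg
  split_ifs
  · exact (H2 dV (by simp) z).1 h
  · exact (H2 dC (by simp) z).1 h

include H1 H2

lemma ok_pp (h : out f mk m ω clr .inn z) : out f mk m ω clr .rt z ∨ out f mk m ω clr (.ex true) z ∨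
    ((out f mk m ω clr .tv z → out f mk m ω clr (.mis 3) z ∨
      (out f mk m ω clr .pb z ↔ out f mk m ω clr .xb (f dV z))) ∧
    (¬ out f mk m ω clr .tv z → out f mk m ω clr (.mis 4) z ∨
      (out f mk m ω clr .pb z ↔ out f mk m ω clr .pb (f dC z)))) := by
  simp only [out, flg, dat] at h ⊢
  refine or_iff_not_imp_left.2 fun h0 => or_iff_not_imp_left.2 fun hE => ?_
  obtain ⟨u1, u2, -⟩ := up_down H1 h.2
  have u3 := col_ii (mk := mk) H1 h.2
  have a1 : cJ (col f mk m (rt f m (hd f m z))) (ii f m (hd f m z)) < ii f m (hd f m z) :=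
    lt_of_le_of_ne (lst_le _ _) fun e => hE ⟨h, (lst_le_of ⟨by omega, u2, e⟩).trans_lt h.2⟩
  have a2 := lst_spec a1
  have a3 := down_up H1 u1 (a1.le.trans u2) (a1.trans h.2)
  change (col _ _ _ _ (cJ _ _)).nd = _ at a2
  rw [col_eq (a1.trans h.2).le, u3] at a2
  change _ = tg f _ at a2
  simp only [rowOf] at a2
  rw [a2] at a3
  rw [cP, if_pos a1, u3]
  simp only [rowOf]
  refine ⟨fun ht => or_iff_not_imp_left.2 fun hm => ?_, fun ht => or_iff_not_imp_left.2 fun hm => ?_⟩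
  · obtain ⟨b1, b2, -⟩ := nomis H2 (by simp) hm
    rw [tg, if_pos ht] at a3
    rw [if_pos ht, b1, b2, a3.1]
  · obtain ⟨b1, b2, -⟩ := nomis H2 (by simp) hm
    rw [tg, if_neg ht] at a3
    rw [if_neg ht, b1, b2, a3.1, a3.2]

lemma ok_bad (hc : ∀ ρ, gam f mk m ρ ≠ ρ → clr ρ ≠ clr (gam f mk m ρ)) (hc' : ∀ ρ, clr ρ < 16)
    (hy : f dY z = z) (hi : ii f m z < m) (hE : ii f m z = cE m (col f mk m (rt f m z))) :
    bad f mk (out f mk m ω clr) true z := by
  obtain ⟨a1, a2, a3⟩ := lst_spec (hE.symm.trans_lt hi)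
  change 0 < cE _ _ at a1
  change cJ _ (cE _ _) = cE _ _ at a3
  rw [← hE] at a1 a3
  have k0 : kk f m z = 0 := cnt_zero hy
  have t1 := tg_head H2 hy
  have key : tg f z ≠ z → off (out f mk m ω clr) z (tg f z) ∨ out f mk m ω clr .cl z := by
    intro ht
    simp only [off, out, flg, dat, hd_head hy, hd_head t1]
    refine or_iff_not_imp_left.2 fun h => ?_
    simp only [not_or, not_not, not_exists] at h
    obtain ⟨⟨-, b1⟩, b2⟩ := h
    have b3 : gam f mk m (rt f m z) = rt f m (tg f z) := by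
      rw [gam, ← hE, if_pos hi, sq_of_le hi.le, rt_row H1 hi]
    have b4 : rt f m (tg f z) = rt f m z := by
      by_contra b4
      exact hc _ (b3 ▸ b4) (b3 ▸ ((b2 ⟨_, hc' (rt f m z)⟩).1 rfl).symm)
    have b5 : (col f mk m (rt f m z) (ii f m (tg f z))).nd =
        (col f mk m (rt f m z) (ii f m z)).tg := by
      rw [col_ii H1 hi, ← b4, col_ii H1 b1]
      rfl
    refine ⟨hy, hi, hE, ii f m (tg f z), ?_, b4 ▸ (up_down H1 b1).2.1, b1, hE ▸ b5⟩
    have b6 : ii f m z ≤ ii f m (tg f z) := a3.ge.trans (lst_le_of b5)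
    refine lt_of_le_of_ne b6 fun e => ht ?_
    rw [← rt_row H1 b1, b4, ← e, rt_row H1 hi]
  refine Or.inr ⟨rfl, fun h => a1.ne' (cnt_zero h), by
    simp only [out, flg, dat, hd_head hy]; omega, ?_⟩
  unfold tg at key
  split_ifs at key with h
  · exact (key h).imp (fun h' => ⟨h, h'⟩) Or.inr
  · by_cases h1 : f dC z = z
    · exact Or.inr (Or.inl ⟨not_not.1 h, Or.inl h1⟩)
    · exact Or.inr ((key h1).imp (fun h' => ⟨not_not.1 h, Or.inr h'⟩) id)

lemma ok_fl (h : out f mk m ω clr .fl z) :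
    (f (3, true) z ≠ z ∧ out f mk m ω clr .cl (f (3, true) z)) ∨
    (f (4, true) z ≠ z ∧ out f mk m ω clr .cl (f (4, true) z)) ∨
    (f dD z ≠ z ∧ out f mk m ω clr .fl (f dD z)) := by
  obtain ⟨hy, h⟩ := h
  simp only [dat, hd_head hy] at h hy
  obtain ⟨hi, hE, j, a1, a2, a3, a4⟩ := h
  obtain ⟨u1, u2, -⟩ := up_down H1 hi
  rcases a1.eq_or_lt with rfl | a1
  · have b1 := down_up H1 u1 (hE.le.trans u2) (hE.trans hi)
    have b2 := head_iter H2 (d := dD) (by simp) (head_iter H2 (d := dU) (by simp) hy m)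
      (cE m (col f mk m (rt f m z)))
    have b3 := a4
    rw [col_ii H1 hi, col_eq (hE.trans hi).le] at b3
    change f dY (_^[_] (rt f m z)) = _^[_] (rt f m z) at b2
    simp only [rowOf] at b3
    generalize (f dD)^[cE m (col f mk m (rt f m z))] (rt f m z) = b at b1 b2 b3
    have b4 : b ≠ z := by
      rintro rfl
      omega
    have b5 : out f mk m ω clr .cl b := by
      simp only [out, flg, dat, hd_head b2, b1.1, b1.2]
      exact ⟨b2, hE.trans hi, trivial, _, hE, a2, a3, a4⟩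
    unfold tg at b3
    split_ifs at b3 with b6
    · have b7 : f (3, true) (f dV b) = b := H1 dV b b6
      rw [← b3] at b7
      exact Or.inl (by rw [b7]; exact ⟨b4, b5⟩)
    · have b7 : f (4, true) (f dC b) = b := H1 dC b (b3 ▸ b4.symm)
      rw [← b3] at b7
      exact Or.inr (Or.inl (by rw [b7]; exact ⟨b4, b5⟩))
  · obtain ⟨b1, b2, b3⟩ := down_step H1 (by omega) (a1.trans_le a2)
    have b4 := (H2 dD (by simp) z).1 hy
    refine Or.inr (Or.inr ⟨b1, ?_⟩)
    simp only [out, flg, dat, hd_head b4, b2, b3]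
    exact ⟨b4, by omega, by omega, j, a1, a2, a3, a4⟩

omit H1 H2 in
lemma wit_ne (h : cW m ω (col f mk m (rt f m z)) (ii f m z)) :
    hv f mk m ω z ≠ cP (col f mk m (rt f m z)) (ii f m z) := by
  obtain ⟨-, -, a1, a2, a3⟩ := h
  unfold hv hf
  split_ifs with h1 h2
  · rw [← (a2 h1).1, sh, if_pos le_rfl, Nat.sub_self] at h2
    exact fun e => absurd (e.trans h2.2.2) one_ne_zero
  · rw [← (a2 h1).1, sh, if_pos le_rfl, Nat.sub_self] at h2
    exact fun e => h2 ⟨a1, (a2 h1).2, e.symm⟩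
  · exact a3 h1

theorem spec_out (hm : 0 < m) (hω : ∀ i, 0 < i → i < m → ω i < i)
    (hc : ∀ ρ, gam f mk m ρ ≠ ρ → clr ρ ≠ clr (gam f mk m ρ)) (hc' : ∀ ρ, clr ρ < 16)
    (good : ∀ ρ, ¬ cnt (f dD) m ρ < m → ∃ j, 0 < j ∧ j < m ∧ ω j ≠ cP (col f mk m ρ) j) (z : V) :
    Spec f mk (out f mk m ω clr) z := by
  have hY := cnt_next (f dY) m z
  refine ⟨fun h => ?_, fun h => ?_, fun hy hu => ?_, fun h => ?_, fun h => ?_,
    fun τ h => anyS.step (P := fun w => ¬ okd f τ w) h, fun h => ?_, fun h => ?_, fun h => ?_, fun h => ?_, fun h h' => ?_, ?_,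
    ok_pp H1 H2, fun b h => ?_, fun b h => ?_, fun b h => ?_, fun h hy j => ?_, fun h => ?_,
    ok_fl H1 H2, fun h => ?_, fun h => ?_, fun h => ?_⟩
  · simp only [out, flg, dat] at h ⊢
    exact ⟨hY.1.trans_lt h.1, by rw [hd_Y h.1]; exact h.2⟩
  · simp only [out, flg, dat] at h ⊢
    refine or_iff_not_imp_left.2 fun h1 => ?_
    obtain ⟨b1, b2, -⟩ := nomis H2 (by simp) h1
    rw [b1, b2]
    exact ⟨h.1, (cnt_next _ _ _).1.trans_lt h.2⟩
  · have k0 : kk f m z = 0 := cnt_zero hy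
    have i0 : ii f m z = 0 := cnt_zero hu
    have r0 : rt f m z = z := iterate_fixed hu m
    simp only [out, flg, dat, hd_head hy, k0, i0, r0]
    refine ⟨by omega, ?_⟩
    by_cases h1 : cnt (f dD) m z < m
    swap
    · obtain ⟨j, a1, a2, a3⟩ := good z h1
      exact Or.inl ⟨hy, by omega, j, j.zero_le, a1, a2, a2.le.trans (not_lt.1 h1),
        fun h => absurd h h1, fun _ => a3⟩
    by_cases h2 : cD m (col f mk m z) < cnt (f dD) m z + 1
    · have a1 := lst_spec (P := fun j => (col f mk m z j).ma) h2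
      change (col f mk m z (cD m (col f mk m z))).ma at a1
      by_cases h3 : 2 ≤ cD m (col f mk m z)
      · exact Or.inl ⟨hy, by omega, _, Nat.zero_le _, by omega, by omega, Nat.le_of_lt_succ h2,
          fun _ => ⟨rfl, h3⟩, fun h => absurd h1 h⟩
      · rw [col_eq (by omega)] at a1
        obtain a2 | a2 : cD m (col f mk m z) = 0 ∨ cD m (col f mk m z) = 1 := by omega
        · exact Or.inr (Or.inr (Or.inr (Or.inl (by rwa [a2] at a1))))
        · exact Or.inr (Or.inr (Or.inr (Or.inr (by rwa [a2] at a1))))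
    · refine Or.inr (Or.inr (Or.inl ⟨h1, fun h => h2 ?_⟩))
      obtain ⟨j, a1, a2⟩ := anyS_iff.1 h
      by_cases a3 : j ≤ cnt (f dD) m z
      · exact Nat.lt_succ_of_le ((lst_le_of (by rwa [col_eq a1])).trans a3)
      · rw [iter_stab h1 (by omega)] at a2
        exact Nat.lt_succ_of_le (lst_le_of (by rwa [col_eq h1.le]))
  · simp only [out, flg, dat] at h ⊢
    exact ⟨fun hy => by rw [hd_head hy]; exact cnt_zero_iff (by omega), by rw [hd_Y h.1]⟩
  · simp only [out, flg, dat] at h ⊢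
    refine ⟨fun hy => ?_, by rw [hd_Y h.1]⟩
    rw [col_ii H1 h.2, hd_head hy]
    rfl
  · simp only [out, flg, dat] at h ⊢
    refine ⟨fun h0 => by simp [h0], or_iff_not_imp_left.2 fun h1 => ?_⟩
    obtain ⟨b1, b2, b3⟩ := nomis H2 (by simp) h1
    rw [b1, b2, ii_U h.2 b3, bit_succ]
  · simp only [out, flg, dat] at h ⊢
    refine ⟨fun hy => by simp [show kk f m z = 0 from cnt_zero hy], fun hy => ?_⟩
    rw [hd_Y h.1, kk_Y h.1 hy, dvd_succ_bit]
  · simp only [out, flg, dat] at h ⊢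
    obtain ⟨h, h1, h2⟩ := h
    refine ⟨h, h1, by have := Nat.two_pow_pos (kk f m z + 1); omega,
      or_iff_not_imp_left.2 fun h3 => or_iff_not_imp_left.2 fun h4 => ?_⟩
    obtain ⟨b1, b2, b3⟩ := nomis H2 (by simp) h3
    have b4 := ii_U h.2 b3
    rw [b1, b2, ← dvd_succ_bit]
    rcases h2.eq_or_lt with h2 | h2
    · exact Or.inr (h2 ▸ dvd_rfl)
    · exact Or.inl ⟨⟨h.1, (cnt_next _ _ _).1.trans_lt h.2⟩, not_not.1 h4,
        Nat.le_of_lt_succ (h2.trans_eq b4)⟩
  · simp only [out, flg, dat] at h ⊢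
    obtain ⟨h, h1⟩ := h
    rw [mod_succ_bit, mod_succ_bit (ii f m _)] at h1
    have a1 := Nat.mod_lt (ii f m (hd f m z)) (Nat.two_pow_pos (kk f m z))
    have a2 : hv f mk m ω (hd f m z) % 2 ^ kk f m z < ii f m (hd f m z) % 2 ^ kk f m z →
        f dY z ≠ z ∧ (kk f m (f dY z) < m ∧ ii f m (hd f m (f dY z)) < m) ∧
          hv f mk m ω (hd f m (f dY z)) % 2 ^ (kk f m (f dY z) + 1) <
            ii f m (hd f m (f dY z)) % 2 ^ (kk f m (f dY z) + 1) := fun a2 => by
      have a3 : f dY z ≠ z := fun hy => by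
        rw [show kk f m z = 0 from cnt_zero hy] at a2
        omega
      rw [hd_Y h.1, ← kk_Y h.1 a3]
      exact ⟨a3, ⟨hY.1.trans_lt h.1, h.2⟩, a2⟩
    split_ifs at h1 with h2 h3 h3
    · exact Or.inr ⟨iff_of_true ⟨h, h2⟩ h3, a2 (by omega)⟩
    · omega
    · exact Or.inl ⟨fun h => h2 h.2, h3⟩
    · exact Or.inr ⟨iff_of_false (fun h => h2 h.2) h3, a2 (by omega)⟩
  · simp only [out, flg, dat] at h h' ⊢
    refine or_iff_not_imp_right.2 fun h1 => ⟨h, ?_⟩
    have a1 := hv_lt (mk := mk) hω (Nat.pos_of_ne_zero fun e => h1 (Or.inr e)) h.2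
    have a2 : ii f m (hd f m z) < 2 ^ (kk f m z + 1) := by
      by_cases hx : f dX z = z
      · exact not_le.1 fun e => h1 (Or.inl ⟨h, hx, e⟩)
      · have a3 := h'.resolve_left hx
        obtain ⟨b1, b2⟩ := next_bit H1 h.1 hx
        rw [b1, b2] at a3
        have := Nat.lt_two_pow_self (n := kk f m z + 1)
        omega
    rwa [Nat.mod_eq_of_lt a2, Nat.mod_eq_of_lt (a1.trans a2)]
  · simp only [out, flg, dat]
    refine or_iff_not_imp_left.2 fun h1 => or_iff_not_imp_left.2 fun h2 => ?_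
    obtain ⟨b1, b2, -⟩ := nomis H2 (by simp) h1
    rw [b1, b2]
    by_cases h3 : kk f m z < m
    swap
    · simp [h3]
    have b3 := not_or.1 fun h => h2 ⟨h3, h⟩
    rw [(strip1 b3.1).1]
    exact ⟨Iff.rfl, and_congr_right fun h => by rw [strip2 H1 h.2 b3.1 b3.2]⟩
  · by_cases hy : f dY z = z
    · refine Or.inr ⟨hy, ?_⟩
      cases b <;> simp only [out, flg, dat, hd_head hy] at h ⊢
      · exact h.2
      · exact (le_total _ _).imp (fun e => ⟨hy, h.1.2, e⟩) fun e => ⟨hy, h.1.2, h.2, e⟩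
    · refine Or.inl ⟨hy, ?_⟩
      cases b <;> simp only [out, flg, dat] at h ⊢
      · exact ⟨hY.1.trans_lt h.1, by rw [hd_Y h.1]; exact h.2⟩
      · rw [hd_Y h.1.1]
        exact ⟨⟨hY.1.trans_lt h.1.1, h.1.2⟩, h.2⟩
  · cases b
    · exact (anyS.step (P := fun w => ¬ okR f mk w) h).imp_left fun h => Or.inl ⟨rfl, h⟩
    · obtain ⟨hy, h⟩ := h
      simp only [dat, hd_head hy] at h hy
      rcases h.2.eq_or_lt with h1 | h1
      · exact Or.inl (ok_bad H1 H2 hc hc' hy h.1 h1.symm)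
      · have a1 : f dU z ≠ z := fun e => by
          rw [show ii f m z = 0 from cnt_zero e] at h1
          omega
        have a2 := (H2 dU (by simp) z).1 hy
        have a3 := ii_U h.1 a1
        refine Or.inr ⟨a1, ?_⟩
        simp only [out, flg, dat, hd_head a2, show rt f m (f dU z) = rt f m z from end_next' h.1]
        exact ⟨a2, by omega, by omega⟩
  · cases b
    · obtain ⟨j, a1, a2⟩ := h
      rw [sq_of_le (by omega)] at a2
      by_cases a3 : f dD z = z
      · exact Or.inl (Or.inl ⟨rfl, by rwa [iterate_fixed a3] at a2⟩)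
      cases j with
      | zero => exact Or.inl (Or.inl ⟨rfl, a2⟩)
      | succ j =>
        have a4 := (cnt_next (f dU) m (f dD z)).2
        rw [show f dU (f dD z) = z from H1 dD z a3] at a4
        refine Or.inr ⟨a3, j, by unfold ii at *; omega, ?_⟩
        rwa [sq_of_le (by omega)]
    · obtain ⟨hy, h⟩ := h
      simp only [dat, hd_head hy] at h hy
      rcases h.2.2.eq_or_lt with h1 | h1
      · exact Or.inl (ok_bad H1 H2 hc hc' hy h.1 h1)
      · obtain ⟨b1, b2, b3⟩ := down_step H1 (by omega) (h1.trans_le (lst_spec h.2.1).2.1)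
        have b4 := (H2 dD (by simp) z).1 hy
        refine Or.inr ⟨b1, ?_⟩
        simp only [out, flg, dat, hd_head b4, b2, b3]
        exact ⟨b4, by omega, by omega, by omega⟩
  · simp only [out, flg, dat, hd_head hy, hd_head ((H2 dU (by simp) z).1 hy)] at h ⊢
    rw [show rt f m (f dU z) = rt f m z from end_next' h.2]
  · obtain ⟨hy, h⟩ := h
    simp only [dat, hd_head hy] at h hy
    obtain ⟨hi, hE, j, a1, a2, a3, a4⟩ := h
    obtain ⟨b1, b2, b3⟩ := down_step H1 (by omega) (lt_of_lt_of_le a1 a2)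
    have b4 := (H2 dD (by simp) z).1 hy
    refine ⟨b1, ?_⟩
    simp only [out, flg, dat, hd_head b4, b2, b3]
    exact ⟨b4, by omega, by omega, j, a1, a2, a3, a4⟩
  · obtain ⟨hy, h⟩ := h
    simp only [dat, hd_head hy] at h hy
    obtain ⟨hi, j, a1, a2⟩ := h
    rcases a1.eq_or_lt with rfl | a1
    · refine Or.inl ⟨?_, fun e => a2.1.ne' (cnt_zero e)⟩
      simp only [out, flg, dat, hd_head hy, show kk f m z = 0 from cnt_zero hy]
      exact ⟨by omega, a2.1, wit_ne a2, by omega⟩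
    · obtain ⟨b1, b2, b3⟩ := down_step H1 (by have := a2.2.1; omega) (a1.trans_le a2.2.2.1)
      have b4 := (H2 dD (by simp) z).1 hy
      refine Or.inr ⟨b1, ?_⟩
      simp only [out, flg, dat, hd_head b4, b2, b3]
      exact ⟨b4, by have := a2.2.1; omega, j, a1, a2⟩
  · simp only [out, flg, dat] at h ⊢
    obtain ⟨h, h0, h1, h2⟩ := h
    refine ⟨h, or_iff_not_imp_left.2 fun h3 => ?_⟩
    rw [not_not, and_iff_right h] at h3
    have a1 : hv f mk m ω (hd f m z) % 2 ^ (kk f m z + 1) = cP (col f mk m (rt f m (hd f m z)))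
        (ii f m (hd f m z)) % 2 ^ (kk f m z + 1) := by
      rw [mod_succ_bit, mod_succ_bit (cP _ _), h2, if_congr h3 rfl rfl]
    have a2 : 2 ^ (kk f m z + 1) ≤ ii f m (hd f m z) := not_lt.1 fun e => by
      have := cP_le (col f mk m (rt f m (hd f m z))) (ii f m (hd f m z))
      rw [Nat.mod_eq_of_lt ((hv_lt hω h0 h.2).trans e), Nat.mod_eq_of_lt (by omega)] at a1
      exact h1 a1
    by_cases hx : f dX z = z
    · exact Or.inl ⟨h, hx, a2⟩
    · obtain ⟨b1, b2⟩ := next_bit H1 h.1 hx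
      have := Nat.lt_two_pow_self (n := kk f m z + 1)
      rw [min_eq_left (by omega)] at b1
      rw [b1, b2]
      exact Or.inr ⟨hx, ⟨by omega, h.2⟩, h0, h1, a1⟩
  · obtain ⟨h1, h2⟩ := h
    refine ⟨fun h => h2 (anyS_iff.2 ⟨0, m.zero_le, h⟩), Or.inr
      ⟨(cnt_next _ _ _).1.trans_lt h1, fun h => h2 ?_⟩⟩
    obtain ⟨j, a1, a2⟩ := anyS_iff.1 h
    rcases a1.eq_or_lt with rfl | a1
    · exact anyS_iff.2 ⟨j, le_rfl, by rwa [end_next' h1] at a2⟩
    · exact anyS_iff.2 ⟨j + 1, a1, a2⟩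

end Pool.Agent.Lib.MP_559647_lc
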