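import Pool.Agent.Lib.MP_559647_lc.X55Mv

/-!
The labelling problem: columns of binary rows, equal values along the chain of columns, and in
every column a row whose value differs from the value named by its pointer.
-/

namespace Pool.Agent.Lib.MP_559647_lc

/-- the output flags -/
inductive Fl
  | inn | rt | tv | xb | zz | hb | pb | hi | lt | w | wr | nm | cl | fl
  | mis (τ : Fin 5) | ex (b : Bool) | cu (b : Bool) | cd (b : Bool) | col (j : Fin 16)
  deriving DecidableEq, Fintype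

/-- up -/
abbrev dU : Dir := (0, false)
/-- down -/
abbrev dD : Dir := (0, true)
/-- right -/
abbrev dR : Dir := (1, false)
/-- left -/
abbrev dL : Dir := (1, true)
/-- previous bit -/
abbrev dY : Dir := (2, false)
/-- next bit -/
abbrev dX : Dir := (2, true)
/-- value pointer -/
abbrev dV : Dir := (3, false)
/-- copy pointer -/
abbrev dC : Dir := (4, false)

section

variable {V : Type} (f : Dir → V → V) (mk : V → Prop) (o : Fl → V → Prop)

/-- the move exists and commutes with the step along the row -/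
def okd (τ : Fin 5) (z : V) : Prop :=
  f (τ, false) z ≠ z ∧ f dY (f (τ, false) z) = f (τ, false) (f dY z)

/-- the column to the right looks the same here, with the marks moved down by one -/
def okR (a : V) : Prop :=
  f dR a ≠ a ∧ f dU (f dR a) = f dR (f dU a) ∧ (f dU a = a ↔ f dU (f dR a) = f dR a) ∧
    (f dD a = a ↔ f dD (f dR a) = f dR a) ∧ (mk (f dR a) ↔ f dU a ≠ a ∧ mk (f dU a)) ∧
    ¬ (f dD a = a ∧ mk a)

/-- the target is not in the used part of the column -/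
def off (z t : V) : Prop := ¬ o .inn t ∨ ∃ j, ¬ (o (.col j) z ↔ o (.col j) t)

/-- a local defect -/
def bad (b : Bool) (z : V) : Prop := (b = false ∧ ¬ okR f mk z) ∨
  (b = true ∧ f dU z ≠ z ∧ o .inn z ∧ ((f dV z ≠ z ∧ off o z (f dV z)) ∨
    (f dV z = z ∧ (f dC z = z ∨ off o z (f dC z))) ∨ o .cl z))

/-- the rules at one node -/
structure Spec (z : V) : Prop where
  in1 : o .inn z → o .inn (f dY z)
  in2 : o .inn z → o (.mis 0) z ∨ o .inn (f dU z)
  root : f dY z = z → f dU z = z →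
    o .inn z ∧ (o .w z ∨ o (.ex true) z ∨ o .nm z ∨ mk z ∨ mk (f dD z))
  rt : o .inn z → (f dY z = z → (o .rt z ↔ f dU z = z)) ∧ (o .rt z ↔ o .rt (f dY z))
  tv : o .inn z → (f dY z = z → (o .tv z ↔ f dV z ≠ z)) ∧ (o .tv z ↔ o .tv (f dY z))
  mis : ∀ τ, o (.mis τ) z → ¬ okd f τ z ∨ (f dY z ≠ z ∧ o (.mis τ) (f dY z))
  xb : o .inn z → (o .rt z → ¬ o .xb z) ∧
    (o (.mis 0) z ∨ (o .xb z ↔ ¬ (o .xb (f dU z) ↔ o .zz z)))
  zz : o .inn z → (f dY z = z → o .zz z) ∧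
    (f dY z ≠ z → (o .zz z ↔ o .zz (f dY z) ∧ ¬ o .xb (f dY z)))
  hi : o .hi z → o .inn z ∧ f dX z = z ∧ ¬ o .rt z ∧ (o (.mis 0) z ∨
    f dX (f dU z) ≠ f dU z ∨ o .hi (f dU z) ∨ (o .zz z ∧ ¬ o .xb z))
  lt : o .lt z → (¬ o .hb z ∧ o .xb z) ∨ ((o .hb z ↔ o .xb z) ∧ f dY z ≠ z ∧ o .lt (f dY z))
  last : o .inn z → (f dX z = z ∨ ¬ o .inn (f dX z)) → o .lt z ∨ o .hi z ∨ o .rt z
  hh : o (.mis 1) z ∨ o (.ex false) z ∨
    ((o .inn z ↔ o .inn (f dR z)) ∧ (o .hb z ↔ o .hb (f dR z)))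
  pp : o .inn z → o .rt z ∨ o (.ex true) z ∨
    ((o .tv z → o (.mis 3) z ∨ (o .pb z ↔ o .xb (f dV z))) ∧
      (¬ o .tv z → o (.mis 4) z ∨ (o .pb z ↔ o .pb (f dC z))))
  ex : ∀ b, o (.ex b) z → (f dY z ≠ z ∧ o (.ex b) (f dY z)) ∨
    (f dY z = z ∧ (o (.cu b) z ∨ o (.cd b) z))
  cu : ∀ b, o (.cu b) z → bad f mk o b z ∨ (f dU z ≠ z ∧ o (.cu b) (f dU z))
  cd : ∀ b, o (.cd b) z → bad f mk o b z ∨ (f dD z ≠ z ∧ o (.cd b) (f dD z))
  col : o .inn z → f dY z = z → ∀ j, o (.col j) z ↔ o (.col j) (f dU z)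
  cl : o .cl z → f dD z ≠ z ∧ o .fl (f dD z)
  fl : o .fl z → (f (3, true) z ≠ z ∧ o .cl (f (3, true) z)) ∨
    (f (4, true) z ≠ z ∧ o .cl (f (4, true) z)) ∨ (f dD z ≠ z ∧ o .fl (f dD z))
  w : o .w z → (o .wr z ∧ f dU z ≠ z) ∨ (f dD z ≠ z ∧ o .w (f dD z))
  wr : o .wr z → o .inn z ∧ (¬ (o .hb z ↔ o .pb z) ∨ o .hi z ∨ (f dX z ≠ z ∧ o .wr (f dX z)))
  nm : o .nm z → ¬ mk z ∧ (f dD z = z ∨ o .nm (f dD z))

end

lemma Spec.transfer {V V' : Type} {f : Dir → V → V} {mk : V → Prop} {o : Fl → V → Prop} {z : V}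
    {f' : Dir → V' → V'} {mk' : V' → Prop} {o' : Fl → V' → Prop} {z' : V'}
    (E : ∀ w w' : List Dir, w.length ≤ 2 → w'.length ≤ 2 →
      (walk f z w = walk f z w' ↔ walk f' z' w = walk f' z' w'))
    (M : ∀ w : List Dir, w.length ≤ 2 → (mk (walk f z w) ↔ mk' (walk f' z' w)))
    (O : ∀ F (w : List Dir), w.length ≤ 2 → (o F (walk f z w) ↔ o' F (walk f' z' w)))
    (h : Spec f mk o z) : Spec f' mk' o' z' := by
  have e1 : ∀ a, f a z = z ↔ f' a z' = z' := fun a => E [a] [] (by simp) (by simp)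
  have e2 : ∀ a b, f a (f b z) = f b z ↔ f' a (f' b z') = f' b z' :=
    fun a b => E [a, b] [b] (by simp) (by simp)
  have e3 : ∀ a b c d, f a (f b z) = f c (f d z) ↔ f' a (f' b z') = f' c (f' d z') :=
    fun a b c d => E [a, b] [c, d] (by simp) (by simp)
  have m0 : mk z ↔ mk' z' := M [] (by simp)
  have m1 : ∀ a, mk (f a z) ↔ mk' (f' a z') := fun a => M [a] (by simp)
  have o0 : ∀ F, o F z ↔ o' F z' := fun F => O F [] (by simp)
  have o1 : ∀ F a, o F (f a z) ↔ o' F (f' a z') := fun F a => O F [a] (by simp)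
  obtain ⟨h1, h2, h3, h4, h5, h6, h7, h8, h9, h10, h11, h12, h13, h14, h15, h16, h17, h18, h19, h20,
    h21, h22⟩ := h
  simp only [okd, okR, off, bad, ne_eq, e1, e2, e3, m0, m1, o0, o1] at *
  exact ⟨h1, h2, h3, h4, h5, h6, h7, h8, h9, h10, h11, h12, h13, h14, h15, h16, h17, h18, h19, h20,
    h21, h22⟩

/-- the number of outputs -/
noncomputable def nq : ℕ := Nat.card (Fl → Prop)

open Classical in
/-- the flags coded by an output -/
noncomputable def dec (c : ℕ) : Fl → Prop :=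
  if h : c < nq then (Finite.equivFin (Fl → Prop)).symm ⟨c, h⟩ else fun _ => False

/-- the code of a set of flags -/
noncomputable def enc (x : Fl → Prop) : ℕ := (Finite.equivFin (Fl → Prop) x).val

lemma enc_lt (x : Fl → Prop) : enc x < nq := Fin.isLt _

lemma dec_enc (x : Fl → Prop) : dec (enc x) = x := by
  rw [dec, dif_pos (enc_lt x)]
  exact Equiv.symm_apply_apply _ x

/-- the checker -/
def accX (N : ℕ) (I : Inst N) (o : Fin N → ℕ) (v : Fin N) : Prop :=
  o v < nq ∧ Spec (mv I) (fun z => I.inp z = 1) (fun F z => dec (o z) F) v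

lemma checker_accX : Checker 10 accX := by
  rintro N N' I o v J o' w ⟨φ, rfl, h1, h2, h3⟩
  have h : Iso φ 10 I v J := ⟨h1, h2, fun x hx => (h3 x hx).1⟩
  have hn : ∀ w : List Dir, w.length ≤ 2 → Near I.G 10 v (walk (mv I) v w) :=
    fun w hw => (walk_near I v w).mono (by omega)
  have E : ∀ w w' : List Dir, w.length ≤ 2 → w'.length ≤ 2 →
      (walk (mv I) v w = walk (mv I) v w' ↔ walk (mv J) (φ v) w = walk (mv J) (φ v) w') := by
    intro w w' hw hw'
    rw [h.walk_eq w hw, h.walk_eq w' hw']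
    exact ⟨congrArg φ, fun e => h1 (hn w hw) (hn w' hw') e⟩
  have M : ∀ w : List Dir, w.length ≤ 2 →
      (I.inp (walk (mv I) v w) = 1 ↔ J.inp (walk (mv J) (φ v) w) = 1) := by
    intro w hw
    rw [h.walk_eq w hw, (h3 _ (hn w hw)).1]
  have O : ∀ F (w : List Dir), w.length ≤ 2 →
      (dec (o (walk (mv I) v w)) F ↔ dec (o' (walk (mv J) (φ v) w)) F) := by
    intro F w hw
    rw [h.walk_eq w hw, (h3 _ (hn w hw)).2]
  exact and_congr (by rw [(h3 v (near_refl _ _)).2]) ⟨Spec.transfer E M O, Spec.transfer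
    (fun w w' a b => (E w w' a b).symm) (fun w a => (M w a).symm) fun F w a => (O F w a).symm⟩

end Pool.Agent.Lib.MP_559647_lc
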