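import Pool.Agent.Lib.MP_559647_lc.V55Vol

/-!
Values and nodes that can be found with few connected probes, and how to compose them.
-/

namespace Pool.Agent.Lib.MP_559647_lc

open Finset

variable {N : ℕ} (C : Set (Inst N))

/-- small sets of nodes that can be discovered step by step -/
def Cert (t : ℕ) (R : Inst N → Fin N → Finset (Fin N)) : Prop :=
  ∀ I ∈ C, ∀ v, (R I v).card ≤ t ∧ v ∈ R I v ∧ ∀ (P : Finset (Fin N)) (Q : Inst N → Finset (Fin N)),
    (∀ J ∈ C, Agr I J P → R J v ⊆ Q J) → v ∈ P →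
    (∀ u, (∃ y ∈ P, I.G.Adj y u) → (∀ J ∈ C, Agr I J P → u ∈ Q J) → u ∈ P) → R I v ⊆ P

/-- `f` is determined by the answers on `R` -/
def Det {α : Type} (R : Inst N → Fin N → Finset (Fin N)) (f : Inst N → Fin N → α) : Prop :=
  ∀ I ∈ C, ∀ J ∈ C, ∀ v, Agr I J (R I v) → f I v = f J v

/-- a value found with `t` probes -/
def VC {α : Type} (t : ℕ) (f : Inst N → Fin N → α) : Prop := ∃ R, Cert C t R ∧ Det C R f

/-- a node found with `t` probes -/
def VN (t : ℕ) (g : Inst N → Fin N → Fin N) : Prop :=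
  ∃ R, Cert C t R ∧ Det C R g ∧ ∀ I ∈ C, ∀ v, g I v ∈ R I v

variable {C} {α β : Type} {t t' : ℕ}

lemma cert_comp {R : Inst N → Fin N → Finset (Fin N)} {R' : α → Inst N → Fin N → Finset (Fin N)}
    {f : Inst N → Fin N → α} {g : Inst N → Fin N → Fin N} (h : Cert C t R) (hf : Det C R f)
    (hg : Det C R g) (hm : ∀ I ∈ C, ∀ v, g I v ∈ R I v) (h' : ∀ a, Cert C t' (R' a)) :
    Cert C (t + t') fun I v => R I v ∪ R' (f I v) I (g I v) := by
  intro I hI v
  obtain ⟨a1, a2, a3⟩ := h I hI v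
  obtain ⟨b1, -, b3⟩ := h' (f I v) I hI (g I v)
  refine ⟨(card_union_le _ _).trans (add_le_add a1 b1), mem_union_left _ a2,
    fun P Q h1 h2 h3 => ?_⟩
  have h4 := a3 P Q (fun J hJ ha => subset_union_left.trans (h1 J hJ ha)) h2 h3
  refine union_subset h4 (b3 P Q (fun J hJ ha => ?_) (h4 (hm I hI v)) h3)
  have h5 : Agr I J (R I v) := fun u hu => ha u (h4 hu)
  rw [hf I hI J hJ v h5, hg I hI J hJ v h5]
  exact subset_union_right.trans (h1 J hJ ha)

lemma det_comp {R : Inst N → Fin N → Finset (Fin N)} {R' : α → Inst N → Fin N → Finset (Fin N)}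
    {f : Inst N → Fin N → α} {g : Inst N → Fin N → Fin N} {k : α → Inst N → Fin N → β}
    (hf : Det C R f) (hg : Det C R g) (hk : ∀ a, Det C (R' a) (k a)) :
    Det C (fun I v => R I v ∪ R' (f I v) I (g I v)) fun I v => (f I v, k (f I v) I (g I v)) := by
  intro I hI J hJ v ha
  have h5 : Agr I J (R I v) := fun u hu => ha u (mem_union_left _ hu)
  simp only
  rw [hk _ I hI J hJ _ fun u hu => ha u (mem_union_right _ hu), hf I hI J hJ v h5,
    hg I hI J hJ v h5]

lemma VC.dep {f : Inst N → Fin N → α} {g : Inst N → Fin N → β} (h : VC C t f)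
    (hg : ∀ I J v, f I v = f J v → g I v = g J v) : VC C t g := by
  obtain ⟨R, h1, h2⟩ := h
  exact ⟨R, h1, fun I hI J hJ v ha => hg I J v (h2 I hI J hJ v ha)⟩

lemma VC.map {f : Inst N → Fin N → α} (h : VC C t f) (F : α → β) : VC C t fun I v => F (f I v) :=
  h.dep fun _ _ _ e => congrArg F e

lemma VC.mono {f : Inst N → Fin N → α} (h : VC C t f) (ht : t ≤ t') : VC C t' f := by
  obtain ⟨R, h1, h2⟩ := h
  exact ⟨R, fun I hI v => ⟨(h1 I hI v).1.trans ht, (h1 I hI v).2⟩, h2⟩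

lemma VN.mono {g : Inst N → Fin N → Fin N} (h : VN C t g) (ht : t ≤ t') : VN C t' g := by
  obtain ⟨R, h1, h2⟩ := h
  exact ⟨R, fun I hI v => ⟨(h1 I hI v).1.trans ht, (h1 I hI v).2⟩, h2⟩

lemma VN.val {g : Inst N → Fin N → Fin N} (h : VN C t g) : VC C t g := by
  obtain ⟨R, h1, h2, -⟩ := h
  exact ⟨R, h1, h2⟩

lemma VC.bind {f : Inst N → Fin N → α} {k : α → Inst N → Fin N → β} (h : VC C t f)
    (hk : ∀ a, VC C t' (k a)) : VC C (t + t') fun I v => (f I v, k (f I v) I v) := by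
  obtain ⟨R, h1, h2⟩ := h
  choose R' a1 a2 using hk
  exact ⟨_, cert_comp (g := fun _ v => v) h1 h2 (fun _ _ _ _ _ _ => rfl)
    (fun I hI v => (h1 I hI v).2.1) a1, det_comp (g := fun _ v => v) h2 (fun _ _ _ _ _ _ => rfl) a2⟩

lemma VC.pair {f : Inst N → Fin N → α} {g : Inst N → Fin N → β} (h : VC C t f) (hg : VC C t' g) :
    VC C (t + t') fun I v => (f I v, g I v) := h.bind (k := fun _ => g) fun _ => hg

lemma VN.bind {f : Inst N → Fin N → α} {k : α → Inst N → Fin N → Fin N} (h : VC C t f)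
    (hk : ∀ a, VN C t' (k a)) : VN C (t + t') fun I v => k (f I v) I v := by
  obtain ⟨R, h1, h2⟩ := h
  choose R' a1 a2 a3 using hk
  exact ⟨_, cert_comp (g := fun _ v => v) h1 h2 (fun _ _ _ _ _ _ => rfl)
    (fun I hI v => (h1 I hI v).2.1) a1, fun I hI J hJ v ha => congrArg Prod.snd
      (det_comp (g := fun _ v => v) h2 (fun _ _ _ _ _ _ => rfl) a2 I hI J hJ v ha),
    fun I hI v => mem_union_right _ (a3 _ I hI v)⟩

lemma VN.move {g : Inst N → Fin N → Fin N} {f : Inst N → Fin N → α} (h : VN C t g)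
    (hf : VC C t' f) : VC C (t + t') fun I v => f I (g I v) := by
  obtain ⟨R, h1, h2, h3⟩ := h
  obtain ⟨R', a1, a2⟩ := hf
  exact ⟨_, cert_comp (R' := fun _ => R') h1 h2 h2 h3 fun _ => a1, fun I hI J hJ v ha =>
    congrArg Prod.snd (det_comp (R' := fun _ => R') (k := fun _ => f) h2 h2 (fun _ => a2)
      I hI J hJ v ha)⟩

lemma VN.comp {g g' : Inst N → Fin N → Fin N} (h : VN C t g) (hf : VN C t' g') :
    VN C (t + t') fun I v => g' I (g I v) := by
  obtain ⟨R, h1, h2, h3⟩ := h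
  obtain ⟨R', a1, a2, a3⟩ := hf
  exact ⟨_, cert_comp (R' := fun _ => R') h1 h2 h2 h3 fun _ => a1, fun I hI J hJ v ha =>
    congrArg Prod.snd (det_comp (R' := fun _ => R') (k := fun _ => g') h2 h2 (fun _ => a2)
      I hI J hJ v ha), fun I hI v => mem_union_right _ (a3 I hI _)⟩

lemma cert_ball {D : ℕ} (hD : ∀ I ∈ C, ∀ x, (ball I.G 1 x).card ≤ D) (s : ℕ) :
    Cert C (D ^ s) fun I v => ball I.G s v := by
  intro I hI v
  refine ⟨ball_card (hD I hI) s v, mem_ball.2 (near_refl _ _), fun P Q h1 h2 h3 => ?_⟩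
  have key : ∀ r ≤ s, ball I.G r v ⊆ P := by
    intro r
    induction r with
    | zero => intro _ u hu; exact near_zero_iff.1 (mem_ball.1 hu) ▸ h2
    | succ r ih =>
      intro hr u hu
      obtain ⟨y, a1, a2⟩ := near_succ (mem_ball.1 hu)
      have hy := ih (by omega) (mem_ball.2 a1)
      rcases near_one_iff.1 a2 with rfl | a2
      · exact hy
      · refine h3 u ⟨y, hy, a2⟩ fun J hJ ha => h1 J hJ ha (mem_ball.2 ?_)
        exact (((ha.view (ih (by omega))).near_iff le_rfl y).1 a1).trans'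
          (near_of_adj (((ha y hy).2 u).1 a2)) hr
  exact key s le_rfl

lemma vc_loc {D s : ℕ} (hD : ∀ I ∈ C, ∀ x, (ball I.G 1 x).card ≤ D) {f : Inst N → Fin N → α}
    (hf : ∀ I J v, SameView s v I J → f I v = f J v) : VC C (D ^ s) f :=
  ⟨_, cert_ball hD s, fun I _ J _ v ha => hf I J v (ha.view subset_rfl)⟩

lemma vn_loc {D s : ℕ} (hD : ∀ I ∈ C, ∀ x, (ball I.G 1 x).card ≤ D) {g : Inst N → Fin N → Fin N}
    (hg : ∀ I J v, SameView s v I J → g I v = g J v) (hn : ∀ I v, Near I.G s v (g I v)) :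
    VN C (D ^ s) g :=
  ⟨_, cert_ball hD s, fun I _ J _ v ha => hg I J v (ha.view subset_rfl),
    fun I _ v => mem_ball.2 (hn I v)⟩

lemma vn_id (t : ℕ) : VN C (t + 1) fun _ v => v :=
  ⟨fun _ v => {v}, fun _ _ v => ⟨by simp, mem_singleton_self v, fun _ _ _ h _ => by simpa using h⟩,
    fun _ _ _ _ _ _ => rfl, fun _ _ v => mem_singleton_self v⟩

lemma VN.iter {g : Inst N → Fin N → Fin N} (h : VN C t g) (n : ℕ) :
    VN C (n * t + 1) fun I v => (g I)^[n] v := by
  induction n with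
  | zero => exact vn_id _
  | succ n ih => exact (h.comp ih).mono (by rw [add_one_mul]; omega)

/-- the iterates, stopped after `n` steps -/
def sq {V : Type} (f : V → V) (n : ℕ) (z : V) (j : ℕ) : V := f^[min j n] z

lemma VN.seq {g : Inst N → Fin N → Fin N} {f : Inst N → Fin N → α} (h : VN C t g) (hf : VC C t' f)
    (n : ℕ) : VC C ((n + 1) * (t + t')) fun I v j => f I (sq (g I) n v j) := by
  induction n with
  | zero =>
    rw [zero_add, one_mul]
    exact (hf.dep fun I J v e => funext fun j => by simpa [sq] using e).mono (Nat.le_add_left _ _)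
  | succ n ih =>
    refine ((hf.pair (h.move ih)).dep fun I J v e => ?_).mono (by rw [add_one_mul (n + 1)]; omega)
    funext j
    cases j with
    | zero => exact congrArg Prod.fst e
    | succ j =>
      have := congrFun (congrArg Prod.snd e) j
      simpa only [sq, Nat.succ_min_succ, Function.iterate_succ_apply] using this

theorem VC.volume {f : Inst N → Fin N → ℕ} (h : VC C t f) :
    ∃ B : Inst N → Fin N → ℕ, (Volume t B ∧ DetLocal t B) ∧ ∀ I ∈ C, ∀ v, B I v = f I v := by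
  obtain ⟨R, h1, h2⟩ := h
  obtain ⟨B, b1, b3, b2⟩ := vol_of_cert (C := C) (R := R) (fun I hI v => (h1 I hI v).1)
    (fun I hI v P hP => (h1 I hI v).2.2 P (fun J => R J v) (fun _ _ _ => subset_rfl)
      (hP v ⟨Or.inl rfl, fun J hJ _ => (h1 J hJ v).2.1⟩) fun u hu h => hP u ⟨Or.inr hu, h⟩) h2
  exact ⟨B, ⟨b1, b3⟩, b2⟩

end Pool.Agent.Lib.MP_559647_lc
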